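import Pool.Agent.LibSM47.F_Defs


set_option autoImplicit false

namespace Pool.Agent.LibSM47.FL

open MeasureTheory Set Filter Topology
open Pool.Agent.LibZM

private theorem F_03_base (c : ℝ) (hc : 0 < c) :
    HasSum (fun n : ℕ+ => (n : ℝ) ^ (-(1 + c))) (Zt (1 + c)) := by
  have h1 : Summable fun n : ℕ => (n : ℝ) ^ (-(1 + c)) := Real.summable_nat_rpow.2 (by linarith)
  have h2 : HasSum (fun n : ℕ => (n : ℝ) ^ (-(1 + c))) (Zt (1 + c)) := by
    have h3 : Zt (1 + c) = ∑' n : ℕ, (n : ℝ) ^ (-(1 + c)) := by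
      rw [Zt]
      apply tsum_congr
      intro n
      rw [Real.rpow_neg (Nat.cast_nonneg n), one_div]
    rw [h3]
    exact h1.hasSum
  have h4 := (PNat.coe_injective.hasSum_iff (f := fun n : ℕ => (n : ℝ) ^ (-(1 + c))) (a := Zt (1 + c))
    (by
      intro x hx
      have hx0 : x = 0 := by
        by_contra h
        exact hx ⟨⟨x, Nat.pos_of_ne_zero h⟩, rfl⟩
      rw [hx0, Nat.cast_zero, Real.zero_rpow (by linarith)])).2 h2
  exact h4

private theorem F_03_prod (c : ℝ) (hc : 0 < c) (S : Finset ℕ) (hS : ∀ p ∈ S, p.Prime) :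
    HasSum (fun n : ℕ+ => if ∀ p ∈ S, ¬ p ∣ (n : ℕ) then (n : ℝ) ^ (-(1 + c)) else 0)
      (Zt (1 + c) * ∏ p ∈ S, (1 - (p : ℝ) ^ (-(1 + c)))) := by
  classical
  induction S using Finset.induction_on with
  | empty =>
    simp only [Finset.notMem_empty, false_implies, implies_true, if_true, Finset.prod_empty, mul_one]
    exact F_03_base c hc
  | insert p S hp ih =>
    have hpp : p.Prime := hS p (Finset.mem_insert_self p S)
    have hSS : ∀ q ∈ S, q.Prime := fun q hq => hS q (Finset.mem_insert_of_mem hq)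
    have ih' := ih hSS
    let pp : ℕ+ := ⟨p, hpp.pos⟩
    have hinj : Function.Injective fun k : ℕ+ => pp * k := fun x y h => mul_left_cancel h
    have hmul : HasSum (fun n : ℕ+ => if (p ∣ (n : ℕ) ∧ ∀ q ∈ S, ¬ q ∣ (n : ℕ)) then
        (n : ℝ) ^ (-(1 + c)) else 0)
        ((p : ℝ) ^ (-(1 + c)) * (Zt (1 + c) * ∏ q ∈ S, (1 - (q : ℝ) ^ (-(1 + c))))) := by
      rw [← hinj.hasSum_iff]
      · have e : ((fun n : ℕ+ => if (p ∣ (n : ℕ) ∧ ∀ q ∈ S, ¬ q ∣ (n : ℕ)) then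
            (n : ℝ) ^ (-(1 + c)) else 0) ∘ fun k : ℕ+ => pp * k) =
            fun k : ℕ+ => (p : ℝ) ^ (-(1 + c)) *
              (if ∀ q ∈ S, ¬ q ∣ (k : ℕ) then (k : ℝ) ^ (-(1 + c)) else 0) := by
          funext k
          have hpk : ((pp * k : ℕ+) : ℕ) = p * (k : ℕ) := by
            rw [PNat.mul_coe]
            rfl
          have hiff : (p ∣ ((pp * k : ℕ+) : ℕ) ∧ ∀ q ∈ S, ¬ q ∣ ((pp * k : ℕ+) : ℕ)) ↔
              ∀ q ∈ S, ¬ q ∣ (k : ℕ) := by
            rw [hpk]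
            constructor
            · rintro ⟨_, h2⟩ q hq hqk
              exact h2 q hq (hqk.mul_left p)
            · intro h2
              refine ⟨dvd_mul_right p _, fun q hq hqk => ?_⟩
              rcases (hSS q hq).dvd_mul.1 hqk with h3 | h3
              · have h4 : q = p := (Nat.prime_dvd_prime_iff_eq (hSS q hq) hpp).1 h3
                exact hp (h4 ▸ hq)
              · exact h2 q hq h3
          simp only [Function.comp_apply]
          by_cases h5 : ∀ q ∈ S, ¬ q ∣ (k : ℕ)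
          · rw [if_pos (hiff.2 h5), if_pos h5, hpk, Nat.cast_mul,
              Real.mul_rpow (Nat.cast_nonneg _) (Nat.cast_nonneg _)]
          · rw [if_neg (fun h6 => h5 (hiff.1 h6)), if_neg h5, mul_zero]
        rw [e]
        exact ih'.mul_left _
      · intro n hn
        apply if_neg
        rintro ⟨⟨k, hk⟩, _⟩
        have hk0 : 0 < k := by
          rcases Nat.eq_zero_or_pos k with h0 | h0
          · rw [h0, mul_zero] at hk
            exact absurd hk n.ne_zero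
          · exact h0
        exact hn ⟨(⟨k, hk0⟩ : ℕ+), PNat.coe_injective hk.symm⟩
    have h := ih'.sub hmul
    have e2 : (fun n : ℕ+ => (if ∀ q ∈ S, ¬ q ∣ (n : ℕ) then (n : ℝ) ^ (-(1 + c)) else 0) -
        (if (p ∣ (n : ℕ) ∧ ∀ q ∈ S, ¬ q ∣ (n : ℕ)) then (n : ℝ) ^ (-(1 + c)) else 0)) =
        fun n : ℕ+ => if ∀ q ∈ insert p S, ¬ q ∣ (n : ℕ) then (n : ℝ) ^ (-(1 + c)) else 0 := by
      funext n
      have h7 : (∀ q ∈ insert p S, ¬ q ∣ (n : ℕ)) ↔ (¬ p ∣ (n : ℕ) ∧ ∀ q ∈ S, ¬ q ∣ (n : ℕ)) :=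
        Finset.forall_mem_insert _ _ _
      by_cases h5 : ∀ q ∈ S, ¬ q ∣ (n : ℕ)
      · by_cases h6 : p ∣ (n : ℕ)
        · rw [if_pos h5, if_pos ⟨h6, h5⟩, if_neg (fun h8 => (h7.1 h8).1 h6), sub_self]
        · rw [if_pos h5, if_neg (fun h8 => h6 h8.1), if_pos (h7.2 ⟨h6, h5⟩), sub_zero]
      · rw [if_neg h5, if_neg (fun h8 => h5 h8.2), if_neg (fun h8 => h5 (h7.1 h8).2), sub_zero]
    rw [e2] at h
    have e3 : Zt (1 + c) * ∏ q ∈ S, (1 - (q : ℝ) ^ (-(1 + c))) -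
        (p : ℝ) ^ (-(1 + c)) * (Zt (1 + c) * ∏ q ∈ S, (1 - (q : ℝ) ^ (-(1 + c)))) =
        Zt (1 + c) * ∏ q ∈ insert p S, (1 - (q : ℝ) ^ (-(1 + c))) := by
      rw [Finset.prod_insert hp]
      ring
    rw [e3] at h
    exact h

/-- Only Mathlib. The sum over `n` coprime to `m`. Plan: for a finite set `S` of primes,
`∑' n, [n coprime to all p ∈ S] n^{-σ} = Zt σ * ∏_{p ∈ S} (1 - p^{-σ})`, by induction on `S` (adding `p`: subtract the multiples
`n = p k`, which gives `p^{-σ}` times the same sum); or `EulerProduct`; or `DirichletCharacter.LFunctionTrivChar_eq_mul_riemannZeta`. -/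
theorem n_sum (c : ℝ) (hc : 0 < c) (m : ℕ) (hm : 1 ≤ m) :
    Summable (fun n : ℕ+ => if Nat.Coprime m n then (n : ℝ) ^ (-(1 + c)) else 0) ∧
    ∑' n : ℕ+, (if Nat.Coprime m n then (n : ℝ) ^ (-(1 + c)) else 0) = Zt (1 + c) * rr c m := by
  have h := F_03_prod c hc m.primeFactors (fun p hp => Nat.prime_of_mem_primeFactors hp)
  have h2 : (fun n : ℕ+ => if ∀ p ∈ m.primeFactors, ¬ p ∣ (n : ℕ) then (n : ℝ) ^ (-(1 + c)) else 0) =
      fun n : ℕ+ => if Nat.Coprime m n then (n : ℝ) ^ (-(1 + c)) else 0 := by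
    funext n
    congr 1
    rw [eq_iff_iff]
    constructor
    · intro h3
      rw [Nat.coprime_iff_gcd_eq_one]
      by_contra h4
      obtain ⟨p, hp, hpd⟩ := Nat.exists_prime_and_dvd h4
      exact h3 p (Nat.mem_primeFactors.2 ⟨hp, hpd.trans (Nat.gcd_dvd_left _ _), by omega⟩)
        (hpd.trans (Nat.gcd_dvd_right _ _))
    · intro h3 p hp hpn
      have h4 := Nat.mem_primeFactors.1 hp
      exact Nat.Prime.not_coprime_iff_dvd.2 ⟨p, h4.1, h4.2.1, hpn⟩ h3
  rw [h2] at h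
  exact ⟨h.summable, h.tsum_eq⟩

end Pool.Agent.LibSM47.FL
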