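import Pool.Agent.LibSM47.M_A2c
import Pool.Agent.LibHLP.DivBound

/-! SM47 B1.  `hh m ≤ d(m) ≤ C m^η` (divisor bound: search `divisors.card` in the libraries, e.g. LibBP4.E02, LibF4.M10, Lib0c97.E2).
`reg ε T`: the pairs with `m^{3/2} n ≤ T^{1-ε}` and `m ≤ T^{3/5}`.
reg1: `∑_n n^{-1/2} ≤ 2 (T^{1-ε} m^{-3/2})^{1/2}`, then `∑_m m^{α-3/4}` converges.
reg2: `∑_n n^{-3/2} ≤ 3`, `∑_{m ≤ T^{3/5}} m^α ≤ T^{(3/5)(α+1)}`.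
reg3: for each `m` the number of `n` is `≤ T^{1-ε} m^{-3/2}`.
-/

set_option autoImplicit false

namespace Pool.Agent.LibSM47

open MeasureTheory Set Filter Topology Complex ProbabilityTheory
open scoped NNReal ComplexConjugate
open Pool.Agent.LibZM

theorem card_div_le (η : ℝ) (hη : 0 < η) : ∃ C : ℝ, 0 < C ∧ ∀ m : ℕ, 1 ≤ m → (m.divisors.card : ℝ) ≤ C * (m : ℝ) ^ η := by
  obtain ⟨C, hC, h⟩ := Pool.Agent.LibHLP.exists_card_divisors_le η hη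
  exact ⟨C, by linarith, fun m hm => h m (by omega)⟩

theorem hh_le_card (m : ℕ) : hh m ≤ (m.divisors.card : ℝ) := by
  unfold hh
  have h1 : ∑ d ∈ m.divisors, (Nat.totient d : ℝ) / d ≤ ∑ _d ∈ m.divisors, (1 : ℝ) := by
    refine Finset.sum_le_sum fun d _ => ?_
    refine div_le_one_of_le₀ ?_ (Nat.cast_nonneg _)
    exact_mod_cast Nat.totient_le d
  simpa using h1

/-- The region. -/
noncomputable def reg (ε T : ℝ) : Finset (ℕ × ℕ) :=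
  (idx T).filter (fun q => (q.1 : ℝ) ^ (3 / 2 : ℝ) * q.2 ≤ T ^ (1 - ε) ∧ (q.1 : ℝ) ≤ T ^ (3 / 5 : ℝ))

private theorem M_B1_le (ε T : ℝ) (f : ℕ × ℕ → ℝ) (hf : ∀ q, 0 ≤ f q) (g : ℕ → ℝ)
    (hg : ∀ m : ℕ, 1 ≤ m → ∑ n ∈ (Finset.Icc 1 ⌊T⌋₊).filter
      (fun n : ℕ => (m : ℝ) ^ (3 / 2 : ℝ) * n ≤ T ^ (1 - ε) ∧ (m : ℝ) ≤ T ^ (3 / 5 : ℝ)), f (m, n) ≤ g m) :
    ∑ q ∈ reg ε T, f q ≤ ∑ m ∈ Finset.Icc 1 ⌊T⌋₊, g m := by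
  classical
  have h1 : reg ε T ⊆ ((Finset.Icc 1 ⌊T⌋₊) ×ˢ (Finset.Icc 1 ⌊T⌋₊)).filter
      (fun q : ℕ × ℕ => (q.1 : ℝ) ^ (3 / 2 : ℝ) * q.2 ≤ T ^ (1 - ε) ∧ (q.1 : ℝ) ≤ T ^ (3 / 5 : ℝ)) := by
    intro q hq
    unfold reg idx at hq
    rw [Finset.mem_filter, Finset.mem_filter] at hq
    exact Finset.mem_filter.2 ⟨hq.1.1, hq.2⟩
  refine (Finset.sum_le_sum_of_subset_of_nonneg h1 fun q _ _ => hf q).trans ?_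
  rw [Finset.sum_filter, Finset.sum_product]
  refine Finset.sum_le_sum fun m hm => ?_
  rw [Finset.mem_Icc] at hm
  rw [← Finset.sum_filter]
  exact hg m hm.1

private theorem M_B1_X {m n : ℕ} (hm : 1 ≤ m) {Y : ℝ} (h : (m : ℝ) ^ (3 / 2 : ℝ) * n ≤ Y) :
    (n : ℝ) ≤ Y * (m : ℝ) ^ (-(3 / 2) : ℝ) := by
  have hm0 : (0 : ℝ) < m := by exact_mod_cast hm
  have h1 : (m : ℝ) ^ (3 / 2 : ℝ) * (m : ℝ) ^ (-(3 / 2) : ℝ) = 1 := by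
    rw [← Real.rpow_add hm0]
    norm_num
  have h2 : 0 ≤ (m : ℝ) ^ (-(3 / 2) : ℝ) := Real.rpow_nonneg hm0.le _
  calc (n : ℝ) = (m : ℝ) ^ (3 / 2 : ℝ) * n * (m : ℝ) ^ (-(3 / 2) : ℝ) := by
        rw [mul_right_comm, h1, one_mul]
    _ ≤ Y * (m : ℝ) ^ (-(3 / 2) : ℝ) := mul_le_mul_of_nonneg_right h h2

private theorem M_B1_half (N : ℕ) : ∑ n ∈ Finset.Icc 1 N, (n : ℝ) ^ (-(1 / 2) : ℝ) ≤
    2 * (N : ℝ) ^ (1 / 2 : ℝ) := by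
  have key : ∀ n : ℕ, ((n : ℝ)) ^ (-(1 / 2) : ℝ) = 1 / √(n : ℝ) := by
    intro n
    rw [Real.rpow_neg (Nat.cast_nonneg _), ← Real.sqrt_eq_rpow, one_div]
  simp only [key, ← Real.sqrt_eq_rpow]
  induction N with
  | zero => simp
  | succ N ih =>
    rw [Finset.sum_Icc_succ_top (by omega)]
    have h0 : (0 : ℝ) ≤ N := Nat.cast_nonneg _
    have h1 : √(N : ℝ) ^ 2 = N := Real.sq_sqrt h0
    have h2 : √((N + 1 : ℕ) : ℝ) ^ 2 = N + 1 := by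
      rw [Real.sq_sqrt (Nat.cast_nonneg _)]
      push_cast
      ring
    have h3 : 0 < √((N + 1 : ℕ) : ℝ) := Real.sqrt_pos.2 (by positivity)
    have h4 : 0 ≤ √(N : ℝ) := Real.sqrt_nonneg _
    have h5 : 1 / √((N + 1 : ℕ) : ℝ) ≤ 2 * √((N + 1 : ℕ) : ℝ) - 2 * √(N : ℝ) := by
      rw [div_le_iff₀ h3]
      nlinarith [sq_nonneg (√((N + 1 : ℕ) : ℝ) - √(N : ℝ))]
    linarith

private theorem M_B1_half' (s : Finset ℕ) (X : ℝ) (hX : 0 ≤ X) (hs : ∀ n ∈ s, 1 ≤ n ∧ (n : ℝ) ≤ X) :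
    ∑ n ∈ s, (n : ℝ) ^ (-(1 / 2) : ℝ) ≤ 2 * X ^ (1 / 2 : ℝ) := by
  have h1 : s ⊆ Finset.Icc 1 ⌊X⌋₊ := fun n hn =>
    Finset.mem_Icc.2 ⟨(hs n hn).1, Nat.le_floor (hs n hn).2⟩
  refine (Finset.sum_le_sum_of_subset_of_nonneg h1 fun n _ _ =>
    Real.rpow_nonneg (Nat.cast_nonneg _) _).trans ?_
  refine (M_B1_half _).trans ?_
  have h2 : ((⌊X⌋₊ : ℕ) : ℝ) ^ (1 / 2 : ℝ) ≤ X ^ (1 / 2 : ℝ) :=
    Real.rpow_le_rpow (Nat.cast_nonneg _) (Nat.floor_le hX) (by norm_num)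
  linarith

private theorem M_B1_card (s : Finset ℕ) (X : ℝ) (hX : 0 ≤ X) (hs : ∀ n ∈ s, 1 ≤ n ∧ (n : ℝ) ≤ X) :
    (s.card : ℝ) ≤ X := by
  have h1 : s ⊆ Finset.Icc 1 ⌊X⌋₊ := fun n hn =>
    Finset.mem_Icc.2 ⟨(hs n hn).1, Nat.le_floor (hs n hn).2⟩
  have h2 := Finset.card_le_card h1
  rw [Nat.card_Icc, Nat.add_sub_cancel] at h2
  exact le_trans (by exact_mod_cast h2) (Nat.floor_le hX)

theorem reg1 (α ε : ℝ) (hα : α < -(1 / 4)) (hε : 0 < ε) (hε1 : ε < 1) : ∃ C : ℝ, 0 < C ∧ ∀ T : ℝ, 2 ≤ T →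
    ∑ q ∈ reg ε T, (q.1 : ℝ) ^ α * (q.2 : ℝ) ^ (-(1 / 2) : ℝ) ≤ C * T ^ ((1 - ε) / 2) := by
  have hsum : Summable (fun n : ℕ => (n : ℝ) ^ (α - 3 / 4)) :=
    Real.summable_nat_rpow.2 (by linarith)
  have hpos : 0 ≤ ∑' n : ℕ, (n : ℝ) ^ (α - 3 / 4) :=
    tsum_nonneg fun n => Real.rpow_nonneg (Nat.cast_nonneg _) _
  refine ⟨2 * (∑' n : ℕ, (n : ℝ) ^ (α - 3 / 4)) + 1, by linarith, fun T hT => ?_⟩
  have hT0 : 0 < T := by linarith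
  have hY : 0 ≤ T ^ ((1 - ε) / 2) := Real.rpow_nonneg hT0.le _
  have h1 := M_B1_le ε T (fun q => (q.1 : ℝ) ^ α * (q.2 : ℝ) ^ (-(1 / 2) : ℝ))
    (fun q => mul_nonneg (Real.rpow_nonneg (Nat.cast_nonneg _) _) (Real.rpow_nonneg (Nat.cast_nonneg _) _))
    (fun m => 2 * T ^ ((1 - ε) / 2) * (m : ℝ) ^ (α - 3 / 4)) ?_
  · refine h1.trans ?_
    rw [← Finset.mul_sum]
    have h2 : ∑ m ∈ Finset.Icc 1 ⌊T⌋₊, (m : ℝ) ^ (α - 3 / 4) ≤ ∑' n : ℕ, (n : ℝ) ^ (α - 3 / 4) :=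
      hsum.sum_le_tsum _ fun n _ => Real.rpow_nonneg (Nat.cast_nonneg _) _
    calc 2 * T ^ ((1 - ε) / 2) * ∑ m ∈ Finset.Icc 1 ⌊T⌋₊, (m : ℝ) ^ (α - 3 / 4)
        ≤ 2 * T ^ ((1 - ε) / 2) * ∑' n : ℕ, (n : ℝ) ^ (α - 3 / 4) :=
          mul_le_mul_of_nonneg_left h2 (by positivity)
      _ ≤ _ := by nlinarith
  · intro m hm
    have hm0 : (0 : ℝ) < m := by exact_mod_cast hm
    simp only
    rw [← Finset.mul_sum]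
    have h3 := M_B1_half' ((Finset.Icc 1 ⌊T⌋₊).filter
      (fun n : ℕ => (m : ℝ) ^ (3 / 2 : ℝ) * n ≤ T ^ (1 - ε) ∧ (m : ℝ) ≤ T ^ (3 / 5 : ℝ)))
      (T ^ (1 - ε) * (m : ℝ) ^ (-(3 / 2) : ℝ))
      (mul_nonneg (Real.rpow_nonneg hT0.le _) (Real.rpow_nonneg hm0.le _)) ?_
    · have h4 : (T ^ (1 - ε) * (m : ℝ) ^ (-(3 / 2) : ℝ)) ^ (1 / 2 : ℝ) =
          T ^ ((1 - ε) / 2) * (m : ℝ) ^ (-(3 / 4) : ℝ) := by
        rw [Real.mul_rpow (Real.rpow_nonneg hT0.le _) (Real.rpow_nonneg hm0.le _),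
          ← Real.rpow_mul hT0.le, ← Real.rpow_mul hm0.le]
        congr 2
        · ring
        · norm_num
      rw [h4] at h3
      have h5 : (m : ℝ) ^ (α - 3 / 4) = (m : ℝ) ^ α * (m : ℝ) ^ (-(3 / 4) : ℝ) := by
        rw [← Real.rpow_add hm0]
        congr 1
      rw [h5]
      calc _ ≤ (m : ℝ) ^ α * (2 * (T ^ ((1 - ε) / 2) * (m : ℝ) ^ (-(3 / 4) : ℝ))) :=
            mul_le_mul_of_nonneg_left h3 (Real.rpow_nonneg hm0.le _)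
        _ = _ := by ring
    · intro n hn
      rw [Finset.mem_filter, Finset.mem_Icc] at hn
      exact ⟨hn.1.1, M_B1_X hm hn.2.1⟩

theorem reg2 (α ε : ℝ) (hα : 0 ≤ α) (hε : 0 < ε) (hε1 : ε < 1) : ∃ C : ℝ, 0 < C ∧ ∀ T : ℝ, 2 ≤ T →
    ∑ q ∈ reg ε T, (q.1 : ℝ) ^ α * (q.2 : ℝ) ^ (-(3 / 2) : ℝ) ≤ C * T ^ ((3 / 5) * (α + 1)) := by
  have hsum : Summable (fun n : ℕ => (n : ℝ) ^ (-(3 / 2) : ℝ)) :=
    Real.summable_nat_rpow.2 (by norm_num)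
  have hpos : 0 ≤ ∑' n : ℕ, (n : ℝ) ^ (-(3 / 2) : ℝ) :=
    tsum_nonneg fun n => Real.rpow_nonneg (Nat.cast_nonneg _) _
  obtain ⟨Z, hZ⟩ : ∃ Z : ℝ, Z = ∑' n : ℕ, (n : ℝ) ^ (-(3 / 2) : ℝ) := ⟨_, rfl⟩
  rw [← hZ] at hpos
  refine ⟨Z + 1, by linarith, fun T hT => ?_⟩
  have hT0 : 0 < T := by linarith
  have hY : 0 ≤ T ^ (3 / 5 : ℝ) := Real.rpow_nonneg hT0.le _
  have h1 := M_B1_le ε T (fun q => (q.1 : ℝ) ^ α * (q.2 : ℝ) ^ (-(3 / 2) : ℝ))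
    (fun q => mul_nonneg (Real.rpow_nonneg (Nat.cast_nonneg _) _) (Real.rpow_nonneg (Nat.cast_nonneg _) _))
    (fun m => if (m : ℝ) ≤ T ^ (3 / 5 : ℝ) then (T ^ (3 / 5 : ℝ)) ^ α * Z else 0) ?_
  · refine h1.trans ?_
    rw [← Finset.sum_filter, Finset.sum_const, nsmul_eq_mul]
    have h2 := M_B1_card ((Finset.Icc 1 ⌊T⌋₊).filter (fun m : ℕ => (m : ℝ) ≤ T ^ (3 / 5 : ℝ)))
      (T ^ (3 / 5 : ℝ)) hY (fun m hm => by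
        rw [Finset.mem_filter, Finset.mem_Icc] at hm
        exact ⟨hm.1.1, hm.2⟩)
    have h3 : T ^ ((3 / 5) * (α + 1)) = T ^ (3 / 5 : ℝ) * (T ^ (3 / 5 : ℝ)) ^ α := by
      rw [← Real.rpow_mul hT0.le, ← Real.rpow_add hT0]
      congr 1
      ring
    rw [h3]
    have h4 : 0 ≤ (T ^ (3 / 5 : ℝ)) ^ α := Real.rpow_nonneg hY _
    calc _ ≤ T ^ (3 / 5 : ℝ) * ((T ^ (3 / 5 : ℝ)) ^ α * Z) :=
          mul_le_mul_of_nonneg_right h2 (mul_nonneg h4 hpos)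
      _ = Z * (T ^ (3 / 5 : ℝ) * (T ^ (3 / 5 : ℝ)) ^ α) := by ring
      _ ≤ _ := mul_le_mul_of_nonneg_right (by linarith) (mul_nonneg hY h4)
  · intro m hm
    have hm0 : (0 : ℝ) < m := by exact_mod_cast hm
    simp only
    split_ifs with hmT
    · rw [← Finset.mul_sum]
      have h5 : ∑ n ∈ (Finset.Icc 1 ⌊T⌋₊).filter
          (fun n : ℕ => (m : ℝ) ^ (3 / 2 : ℝ) * n ≤ T ^ (1 - ε) ∧ (m : ℝ) ≤ T ^ (3 / 5 : ℝ)),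
          (n : ℝ) ^ (-(3 / 2) : ℝ) ≤ Z := by
        rw [hZ]
        exact hsum.sum_le_tsum _ fun n _ => Real.rpow_nonneg (Nat.cast_nonneg _) _
      exact mul_le_mul (Real.rpow_le_rpow hm0.le hmT hα) h5
        (Finset.sum_nonneg fun n _ => Real.rpow_nonneg (Nat.cast_nonneg _) _)
        (Real.rpow_nonneg hY _)
    · refine le_of_eq (Finset.sum_eq_zero fun n hn => ?_)
      rw [Finset.mem_filter] at hn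
      exact absurd hn.2.2 hmT

theorem reg3 (ε : ℝ) (hε : 0 < ε) (hε1 : ε < 1) (w : ℕ → ℝ) (hw : ∀ m, 0 ≤ w m) : ∀ T : ℝ, 2 ≤ T →
    ∑ q ∈ reg ε T, w q.1 ≤ T ^ (1 - ε) * ∑ m ∈ Finset.Icc 1 ⌊T⌋₊, w m * (m : ℝ) ^ (-(3 / 2) : ℝ) := by
  intro T hT
  have hT0 : 0 < T := by linarith
  rw [Finset.mul_sum]
  refine M_B1_le ε T (fun q => w q.1) (fun q => hw _)
    (fun m => T ^ (1 - ε) * (w m * (m : ℝ) ^ (-(3 / 2) : ℝ))) ?_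
  intro m hm
  have hm0 : (0 : ℝ) < m := by exact_mod_cast hm
  simp only
  rw [Finset.sum_const, nsmul_eq_mul]
  have h1 := M_B1_card ((Finset.Icc 1 ⌊T⌋₊).filter
      (fun n : ℕ => (m : ℝ) ^ (3 / 2 : ℝ) * n ≤ T ^ (1 - ε) ∧ (m : ℝ) ≤ T ^ (3 / 5 : ℝ)))
      (T ^ (1 - ε) * (m : ℝ) ^ (-(3 / 2) : ℝ))
      (mul_nonneg (Real.rpow_nonneg hT0.le _) (Real.rpow_nonneg hm0.le _)) (fun n hn => by
        rw [Finset.mem_filter, Finset.mem_Icc] at hn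
        exact ⟨hn.1.1, M_B1_X hm hn.2.1⟩)
  calc _ ≤ (T ^ (1 - ε) * (m : ℝ) ^ (-(3 / 2) : ℝ)) * w m := mul_le_mul_of_nonneg_right h1 (hw m)
    _ = _ := by ring

end Pool.Agent.LibSM47
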