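import Pool.Agent.LibSM47.Defs
import Pool.Agent.LibPH.W03

/-! SM47 A1c.  Gaussian laws integrate polynomials (`memLp_id_gaussianReal`), and `‖ζ(1/2+it)‖ ≤ 4 + 2|t|` (`LibZM.norm_zeta_crit_le`),
continuous (`continuous_zeta_crit`).  `ch_int`: characteristic function of `gaussianReal` (`charFun_gaussianReal`), as in
`LibZM.integral_three`.
-/

set_option autoImplicit false

namespace Pool.Agent.LibSM47

open MeasureTheory Set Filter Topology Complex ProbabilityTheory
open scoped NNReal ComplexConjugate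
open Pool.Agent.LibZM

instance gam_prob (V u : ℝ) : IsProbabilityMeasure (gam V u) := by
  unfold gam; infer_instance

private theorem M_A1c_abs (V u : ℝ) (k : ℕ) : Integrable (fun t : ℝ => |t| ^ k) (gam V u) := by
  rcases Nat.eq_zero_or_pos k with rfl | hk
  · simp only [pow_zero]
    exact integrable_const _
  · have h := memLp_id_gaussianReal (μ := u) (v := ⟨V ^ 2, sq_nonneg V⟩) (k : ℝ≥0)
    have h2 : MemLp (id : ℝ → ℝ) (k : ENNReal) (gam V u) := by
      unfold gam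
      simpa using h
    have h3 := h2.integrable_norm_pow hk.ne'
    simpa only [Real.norm_eq_abs, id] using h3

theorem int_pow (V u : ℝ) (k : ℕ) : Integrable (fun t => ‖riemannZeta (crit t)‖ ^ k) (gam V u) := by
  have hg : Integrable (fun t : ℝ => 2 ^ (k - 1) * (4 ^ k + 2 ^ k * |t| ^ k)) (gam V u) :=
    ((integrable_const (4 ^ k : ℝ)).add ((M_A1c_abs V u k).const_mul (2 ^ k))).const_mul (2 ^ (k - 1))
  refine hg.mono' ?_ (Eventually.of_forall fun t => ?_)
  · exact (continuous_zeta_crit.norm.pow k).aestronglyMeasurable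
  · rw [Real.norm_eq_abs, abs_of_nonneg (by positivity)]
    calc ‖riemannZeta (crit t)‖ ^ k ≤ (4 + 2 * |t|) ^ k :=
          pow_le_pow_left₀ (norm_nonneg _) (norm_zeta_crit_le t) k
      _ ≤ 2 ^ (k - 1) * (4 ^ k + (2 * |t|) ^ k) := add_pow_le (by norm_num) (by positivity) k
      _ = 2 ^ (k - 1) * (4 ^ k + 2 ^ k * |t| ^ k) := by rw [mul_pow]

theorem int_abs_pow (V u : ℝ) (k : ℕ) : Integrable (fun t : ℝ => |t| ^ k) (gam V u) :=
  M_A1c_abs V u k

theorem norm_ch (r t : ℝ) : ‖ch r t‖ = 1 := by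
  unfold ch
  rw [← Complex.ofReal_mul, Complex.norm_exp_ofReal_mul_I]

theorem cont_ch (r : ℝ) : Continuous (ch r) := by
  unfold ch
  fun_prop

private theorem M_A1c_ch (u r : ℝ) (v : ℝ≥0) :
    ‖∫ t, ch r t ∂(gaussianReal u v)‖ = Real.exp (-((v : ℝ) * (Real.log r) ^ 2 / 2)) := by
  have h2 := charFun_gaussianReal (μ := u) (v := v) (Real.log r)
  rw [charFun_apply_real] at h2
  have h1 : ∀ t : ℝ, ch r t = cexp (((Real.log r : ℝ) : ℂ) * (t : ℂ) * I) := by
    intro t
    unfold ch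
    congr 1
    ring
  simp_rw [h1]
  rw [h2, Complex.norm_exp]
  congr 1
  have h3 : (((Real.log r : ℝ) : ℂ) * (u : ℂ) * I -
      ((v : ℝ) : ℂ) * ((Real.log r : ℝ) : ℂ) ^ 2 / 2) =
      ((-((v : ℝ) * (Real.log r) ^ 2 / 2) : ℝ) : ℂ) + ((Real.log r * u : ℝ) : ℂ) * I := by
    push_cast
    ring
  rw [h3, Complex.add_re, Complex.ofReal_re, Complex.re_ofReal_mul, Complex.I_re, mul_zero, add_zero]

theorem ch_int (V u r : ℝ) : ‖∫ t, ch r t ∂(gam V u)‖ = Real.exp (-(V ^ 2 * (Real.log r) ^ 2 / 2)) := by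
  have h := M_A1c_ch u r ⟨V ^ 2, sq_nonneg V⟩
  exact h

theorem conj_ch (r t : ℝ) : conj (ch r (-t)) = ch r t := by
  unfold ch
  rw [← Complex.exp_conj]
  congr 1
  rw [map_mul, map_mul, Complex.conj_ofReal, Complex.conj_ofReal, Complex.conj_I]
  push_cast
  ring

theorem ch_tw {m n : ℕ} (hm : 1 ≤ m) (hn : 1 ≤ n) (t : ℝ) : ch ((m : ℝ) / n) t = LibPH.tw n m t := by
  have hm' : (m : ℝ) ≠ 0 := by
    have : (0 : ℝ) < m := by exact_mod_cast hm
    exact this.ne'
  have hn' : (n : ℝ) ≠ 0 := by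
    have : (0 : ℝ) < n := by exact_mod_cast hn
    exact this.ne'
  unfold ch LibPH.tw
  rw [Real.log_div hm' hn']
  congr 1
  push_cast
  ring

end Pool.Agent.LibSM47
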