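import Pool.Agent.LibSM47.M_A1c

/-! SM47 M_W4 (tails).  `‖ζ(1/2+it)‖^6 ≤ (4+2|t|)^6` (`LibZM.norm_zeta_crit_le`), outside `[a,b]` one has `|t-u| ≥ R = T^{1-δ/2}`, and
`1_{|t-u| ≥ R} ≤ ((t-u)/R)^{2k}`; Gaussian moments `∫ (t-u)^{2j} dγ ≤ C_j V^{2j}`, `V = T^{1-δ}`, `|t| ≤ T + |t-u|`: the tail is
`≤ C T^6 (V/R)^{2k} = C T^{6-kδ}`; take `k ≥ 6/δ`.
-/

set_option autoImplicit false

namespace Pool.Agent.LibSM47

open MeasureTheory Set Filter Topology Complex ProbabilityTheory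
open scoped NNReal ComplexConjugate
open Pool.Agent.LibZM

private theorem W4_map (V u : ℝ) : gam V u = (gam 1 0).map (fun x => V * x + u) := by
  have h1 : gam 1 0 = gaussianReal 0 1 := by
    rw [gam]
    congr 1
    apply NNReal.coe_injective
    show (1 : ℝ) ^ 2 = 1
    norm_num
  have h2 : (fun x : ℝ => V * x + u) = (fun x => x + u) ∘ fun x => V * x := rfl
  rw [h1, h2, ← Measure.map_map (by fun_prop) (by fun_prop), gaussianReal_map_const_mul,
    gaussianReal_map_add_const, gam]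
  congr 1
  · ring
  · rw [mul_one]
    rfl

private theorem W4_pt {δ T V R u x : ℝ} (hδ : 0 < δ) (hδ1 : δ ≤ 1 / 10) (hT : 1 ≤ T)
    (hV : V = T ^ (1 - δ)) (hR : R = T ^ (1 - δ / 2)) (hu : 0 ≤ u) (huT : u ≤ T) (hx : R ≤ V * |x|)
    (k : ℕ) (hk : 6 ≤ k * δ) :
    ‖riemannZeta (crit (V * x + u))‖ ^ 6 ≤ 2 ^ 5 * (6 ^ 6 * |x| ^ (2 * k) + 2 ^ 6 * |x| ^ (2 * k + 6)) := by
  have hT0 : 0 < T := by linarith
  have hV0 : 0 < V := by
    rw [hV]
    positivity
  have hVT : V ≤ T := by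
    rw [hV]
    calc T ^ (1 - δ) ≤ T ^ (1 : ℝ) := Real.rpow_le_rpow_of_exponent_le hT (by linarith)
      _ = T := Real.rpow_one T
  have h1 : T ^ (δ / 2) ≤ |x| := by
    have h2 : V * T ^ (δ / 2) = R := by
      rw [hV, hR, ← Real.rpow_add hT0]
      congr 1
      ring
    rw [← h2] at hx
    exact le_of_mul_le_mul_left hx hV0
  have h3 : T ^ 6 ≤ |x| ^ (2 * k) := by
    calc T ^ 6 = T ^ (6 : ℝ) := by
          rw [← Real.rpow_natCast]
          norm_num
      _ ≤ T ^ ((δ / 2) * ((2 * k : ℕ) : ℝ)) := by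
          apply Real.rpow_le_rpow_of_exponent_le hT
          push_cast
          linarith
      _ = (T ^ (δ / 2)) ^ (2 * k) := by
          rw [Real.rpow_mul hT0.le, Real.rpow_natCast]
      _ ≤ |x| ^ (2 * k) := pow_le_pow_left₀ (by positivity) h1 _
  have h4 : |V * x + u| ≤ T * |x| + T := by
    calc |V * x + u| ≤ |V * x| + |u| := abs_add_le _ _
      _ = V * |x| + u := by rw [abs_mul, abs_of_pos hV0, abs_of_nonneg hu]
      _ ≤ T * |x| + T := by
          have := mul_le_mul_of_nonneg_right hVT (abs_nonneg x)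
          linarith
  have h5 : ‖riemannZeta (crit (V * x + u))‖ ≤ T * (6 + 2 * |x|) := by
    refine (norm_zeta_crit_le _).trans ?_
    nlinarith
  have h6 : (6 + 2 * |x|) ^ 6 ≤ 2 ^ 5 * (6 ^ 6 + (2 * |x|) ^ 6) :=
    add_pow_le (by norm_num) (by positivity) 6
  calc ‖riemannZeta (crit (V * x + u))‖ ^ 6 ≤ (T * (6 + 2 * |x|)) ^ 6 :=
        pow_le_pow_left₀ (norm_nonneg _) h5 6
    _ = T ^ 6 * (6 + 2 * |x|) ^ 6 := by rw [mul_pow]
    _ ≤ |x| ^ (2 * k) * (2 ^ 5 * (6 ^ 6 + (2 * |x|) ^ 6)) :=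
        mul_le_mul h3 h6 (by positivity) (by positivity)
    _ = _ := by ring

theorem tail_le (δ : ℝ) (hδ : 0 < δ) (hδ1 : δ ≤ 1 / 10) :
    ∃ C : ℝ, 0 < C ∧ ∀ T : ℝ, 1 ≤ T → ∀ u a b : ℝ, 0 ≤ u → u ≤ T → a + T ^ (1 - δ / 2) ≤ u → u + T ^ (1 - δ / 2) ≤ b →
      M6 (T ^ (1 - δ)) u ≤ (∫ t in Icc a b, ‖riemannZeta (crit t)‖ ^ 6 ∂(gam (T ^ (1 - δ)) u)) + C := by
  obtain ⟨k, hk⟩ := exists_nat_ge (6 / δ)
  have hkδ : 6 ≤ k * δ := by rwa [div_le_iff₀ hδ] at hk
  set G : ℝ → ℝ := fun x => 2 ^ 5 * (6 ^ 6 * |x| ^ (2 * k) + 2 ^ 6 * |x| ^ (2 * k + 6)) with hG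
  have hGint : Integrable G (gam 1 0) := by
    apply Integrable.const_mul
    exact ((int_abs_pow 1 0 (2 * k)).const_mul _).add ((int_abs_pow 1 0 (2 * k + 6)).const_mul _)
  have hG0 : ∀ x, 0 ≤ G x := by
    intro x
    positivity
  have hGI : 0 ≤ ∫ x, G x ∂(gam 1 0) := integral_nonneg hG0
  refine ⟨(∫ x, G x ∂(gam 1 0)) + 1, by linarith, ?_⟩
  intro T hT u a b hu huT ha hb
  set V := T ^ (1 - δ) with hV
  set R := T ^ (1 - δ / 2) with hR
  have hT0 : 0 < T := by linarith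
  have hV0 : 0 < V := by
    rw [hV]
    positivity
  have hfint : Integrable (fun t => ‖riemannZeta (crit t)‖ ^ 6) (gam V u) := int_pow V u 6
  rw [M6, ← integral_add_compl (measurableSet_Icc (a := a) (b := b)) hfint]
  suffices h : ∫ t in (Icc a b)ᶜ, ‖riemannZeta (crit t)‖ ^ 6 ∂(gam V u) ≤ ∫ x, G x ∂(gam 1 0) by
    linarith
  have hcz : Continuous (fun t : ℝ => ‖riemannZeta (crit t)‖ ^ 6) := continuous_zeta_crit.norm.pow 6
  have hae : AEStronglyMeasurable ((Icc a b)ᶜ.indicator (fun t : ℝ => ‖riemannZeta (crit t)‖ ^ 6))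
      ((gam 1 0).map (fun x => V * x + u)) :=
    (hcz.stronglyMeasurable.indicator measurableSet_Icc.compl).aestronglyMeasurable
  rw [← integral_indicator measurableSet_Icc.compl, W4_map V u, integral_map (by fun_prop) hae]
  apply integral_mono_of_nonneg
  · exact Eventually.of_forall fun x => indicator_nonneg (fun t _ => by positivity) _
  · exact hGint
  · refine Eventually.of_forall fun x => ?_
    by_cases hmem : V * x + u ∈ (Icc a b)ᶜ
    · simp only [indicator_of_mem hmem]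
      apply W4_pt hδ hδ1 hT hV hR hu huT _ k hkδ
      have h7 : V * x + u < a ∨ b < V * x + u := by
        by_contra hcon
        push Not at hcon
        exact hmem ⟨hcon.1, hcon.2⟩
      have h8 : V * |x| = |V * x| := by rw [abs_mul, abs_of_pos hV0]
      rw [h8]
      rcases h7 with h7 | h7
      · have := neg_le_abs (V * x)
        linarith
      · have := le_abs_self (V * x)
        linarith
    · simp only [indicator_of_notMem hmem]
      exact hG0 x

end Pool.Agent.LibSM47
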