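import Mathlib
import Pool.Agent.LibZM.Reflect
import Pool.Agent.LibZM.Average
import Pool.Agent.LibPH.XDefs

/-! # Sixth moment of zeta, lower bound: definitions (board SM47, page notes_MP_91b7ff_SM47.md)

Convention: `m` is the modulus, `n` the numerator; LibPH has them in the order `tw n m`, `th n m w`, `E3 n m θ`, `Hn m s`,
`kk n m s`.  `w = 1/T - ξ i`. -/

set_option autoImplicit false

namespace Pool.Agent.LibSM47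

open MeasureTheory Set Filter Topology Complex ProbabilityTheory
open scoped NNReal ComplexConjugate
open Pool.Agent.LibZM

/-- Triples of residues. -/
abbrev Z3 (m : ℕ) : Type := ZMod m × ZMod m × ZMod m

/-- `h(m) = ∑_{d ∣ m} φ(d)/d`. -/
noncomputable def hh (m : ℕ) : ℝ := ∑ d ∈ m.divisors, (Nat.totient d : ℝ) / d

/-- The powerful (square-full) part of `m`. -/
def pw (m : ℕ) : ℕ := ∏ p ∈ m.primeFactors.filter (fun p => 2 ≤ m.factorization p), p ^ m.factorization p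

/-- `gcd(v, m)` for a residue `v`. -/
def gd (m : ℕ) (v : ZMod m) : ℕ := Nat.gcd v.val m

/-- `f_n(v) = e(-n v₁v₂v₃/m)`. -/
noncomputable def ff (m : ℕ) [NeZero m] (n : ZMod m) (v : Z3 m) : ℂ :=
  ZMod.stdAddChar (-(n * v.1 * v.2.1 * v.2.2))

/-- The three dimensional Fourier transform. -/
noncomputable def FT (m : ℕ) [NeZero m] (g : Z3 m → ℂ) (l : Z3 m) : ℂ :=
  ∑ v : Z3 m, g v * ZMod.stdAddChar (-(l.1 * v.1 + l.2.1 * v.2.1 + l.2.2 * v.2.2))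

/-- The Gaussian law of mean `u` and standard deviation `V`. -/
noncomputable def gam (V u : ℝ) : Measure ℝ := gaussianReal u ⟨V ^ 2, sq_nonneg V⟩

/-- The point `w = 1/T - ξ i`. -/
noncomputable def wq (T ξ : ℝ) : ℂ := ((1 / T : ℝ) : ℂ) - ξ * I

/-- The weight `ν(ξ) = (1/2π) exp(-V²(ξ+i/T)²/2 - iu(ξ+i/T))`. -/
noncomputable def nu (T V u ξ : ℝ) : ℂ :=
  ((1 / (2 * Real.pi) : ℝ) : ℂ) * cexp (-((V : ℂ) ^ 2 * ((ξ : ℂ) + ((1 / T : ℝ) : ℂ) * I) ^ 2 / 2)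
    - u * I * ((ξ : ℂ) + ((1 / T : ℝ) : ℂ) * I))

/-- `X(t) = Xfac(1/2+it)`. -/
noncomputable def XX (t : ℝ) : ℂ := Xfac (crit t)

/-- `r^{it}`. -/
noncomputable def ch (r t : ℝ) : ℂ := cexp (t * Real.log r * I)

/-- The twisted third moment `∫ ζ²ζ̄ (m/n)^{it} dγ`. -/
noncomputable def II (V u : ℝ) (m n : ℕ) : ℂ := ∫ t, LibPH.z21 t * LibPH.tw n m t ∂(gam V u)

/-- The error weight `∑_{k ∣ m} d(m/k)/k (1 + log² k)`. -/
noncomputable def errS (m : ℕ) : ℝ := ∑ k ∈ m.divisors, ((m / k).divisors.card : ℝ) / k * (1 + (Real.log k) ^ 2)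

/-- The error weight of one fraction. -/
noncomputable def errR (η T : ℝ) (m n : ℕ) : ℝ :=
  (1 + (m : ℝ) / n) * (1 + (m : ℝ) ^ (-(1 / 2) + η) * T ^ (1 / 4 : ℝ)) +
  √((n : ℝ) / m) * (1 + (m : ℝ) ^ (3 / 2 + 8 * η) * √(pw m : ℝ) * (1 + (n : ℝ) / m) ^ η) +
  (m : ℝ) ^ (-(1 / 2) + η) * T ^ (1 / 2 : ℝ)

/-- The leading part of the main term (without the factor `(mn)^{-1/2}`), `l = log(u/2π) + log m - log n`. -/
noncomputable def mainS (m : ℕ) (l : ℝ) : ℝ :=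
  (1 / 2) * ∑ d ∈ m.divisors, (Nat.totient d : ℝ) / d *
    (3 * (l - Real.log m) ^ 2 - 3 * (l - Real.log d) ^ 2 + l ^ 2)

/-- Coprime pairs in `[1,T]²`. -/
noncomputable def idx (T : ℝ) : Finset (ℕ × ℕ) :=
  ((Finset.Icc 1 ⌊T⌋₊) ×ˢ (Finset.Icc 1 ⌊T⌋₊)).filter (fun q => Nat.Coprime q.1 q.2)

/-- The coefficients `c(m,n)`. -/
noncomputable def cc (P : ℝ × ℝ → ℝ) (T : ℝ) (q : ℕ × ℕ) : ℝ :=
  hh q.1 * ((q.1 : ℝ) * q.2) ^ (-(1 / 2) : ℝ) * P (Real.log q.1 / Real.log T, Real.log q.2 / Real.log T)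

/-- The Dirichlet polynomial `D(t)`. -/
noncomputable def DD (P : ℝ × ℝ → ℝ) (T t : ℝ) : ℂ :=
  ∑ q ∈ idx T, (cc P T q : ℂ) * ch ((q.1 : ℝ) / q.2) (-t)

/-- Admissible test functions. -/
def Adm (ε : ℝ) (P : ℝ × ℝ → ℝ) : Prop :=
  Continuous P ∧ HasCompactSupport P ∧
    ∀ x y : ℝ, 0 ≤ x → 0 ≤ y → P (x, y) ≠ 0 → 3 * x / 2 + y ≤ 1 - ε ∧ x - y ≤ 1 / 2 - ε

/-- `Q(z,z',y)`. -/
noncomputable def QQ (x : ℝ × ℝ × ℝ) : ℝ :=
  (1 / 2) * (3 * (1 - x.2.2) ^ 2 - 3 * (1 - x.2.2 + x.2.1) ^ 2 + (1 + x.1 + x.2.1 - x.2.2) ^ 2)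

/-- The octant. -/
def Oct : Set (ℝ × ℝ × ℝ) := (Ioi (0 : ℝ)) ×ˢ (Ioi (0 : ℝ)) ×ˢ (Ioi (0 : ℝ))

/-- `J₁(P) = ∫ P² z z'`. -/
noncomputable def J1 (P : ℝ × ℝ → ℝ) : ℝ := ∫ x in Oct, P (x.1 + x.2.1, x.2.2) ^ 2 * (x.1 * x.2.1)

/-- `J₂(P) = ∫ P Q z z'`. -/
noncomputable def J2 (P : ℝ × ℝ → ℝ) : ℝ := ∫ x in Oct, P (x.1 + x.2.1, x.2.2) * QQ x * (x.1 * x.2.1)

/-- The Gaussian sixth moment. -/
noncomputable def M6 (V u : ℝ) : ℝ := ∫ t, ‖riemannZeta (crit t)‖ ^ 6 ∂(gam V u)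

end Pool.Agent.LibSM47
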