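import Pool.Agent.LibSM47.Defs

/-! SM47 A2b.  Say `A < B`; then `A² < AB ≤ Y²`, `log (B/A) ≥ log (1 + 1/A) ≥ 1/(2A)`  (`log (1+x) ≥ x/2` on `[0,1]`, or
`Real.one_sub_inv_le_log_of_pos`: `log(1+1/A) ≥ 1/(A+1) ≥ 1/(2A)`), and `A ≤ Y`.
-/

set_option autoImplicit false

namespace Pool.Agent.LibSM47

open MeasureTheory Set Filter Topology Complex ProbabilityTheory
open scoped NNReal ComplexConjugate
open Pool.Agent.LibZM

theorem log_gap_prod {A B : ℕ} {Y : ℝ} (hA : 1 ≤ A) (hB : 1 ≤ B) (hAB : A ≠ B) (hY : 1 ≤ Y) (h : (A : ℝ) * B ≤ Y ^ 2) :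
    1 / (2 * Y) ≤ |Real.log ((A : ℝ) / B)| := by
  have key : ∀ a b : ℕ, 1 ≤ a → a < b → (a : ℝ) * b ≤ Y ^ 2 →
      1 / (2 * Y) ≤ -Real.log ((a : ℝ) / b) := by
    intro a b ha hab hY2
    have ha' : (1 : ℝ) ≤ a := by exact_mod_cast ha
    have hab' : (a : ℝ) + 1 ≤ b := by exact_mod_cast hab
    have hb0 : (0 : ℝ) < b := by linarith
    have haY : (a : ℝ) ≤ Y := by nlinarith
    have h1 : Real.log ((a : ℝ) / b) ≤ (a : ℝ) / b - 1 :=
      Real.log_le_sub_one_of_pos (by positivity)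
    have h2 : (a : ℝ) / b ≤ (a : ℝ) / (a + 1) :=
      div_le_div_of_nonneg_left (by linarith) (by linarith) hab'
    have h3 : (a : ℝ) / (a + 1) = 1 - 1 / (a + 1) := by
      field_simp
      ring
    have h4 : 1 / (2 * Y) ≤ 1 / ((a : ℝ) + 1) :=
      one_div_le_one_div_of_le (by linarith) (by linarith)
    linarith
  rcases lt_or_gt_of_ne hAB with h1 | h1
  · have h2 := key A B hA h1 h
    exact h2.trans (neg_le_abs _)
  · have h2 := key B A hB h1 (by rw [mul_comm]; exact h)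
    have h3 : Real.log ((B : ℝ) / A) = -Real.log ((A : ℝ) / B) := by
      rw [← Real.log_inv, inv_div]
    rw [h3, neg_neg] at h2
    exact h2.trans (le_abs_self _)

end Pool.Agent.LibSM47
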