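import Pool.Agent.LibSM47.Defs

/-! SM47 M_W5.  `LibZM.average_le` and `LibZM.moment_ge` (LibZM/Average.lean) with `[0,T]` replaced by `[a,b]`: copy the proofs.
-/

set_option autoImplicit false

namespace Pool.Agent.LibSM47

open MeasureTheory Set Filter Topology Complex ProbabilityTheory
open scoped NNReal ComplexConjugate
open Pool.Agent.LibZM

private lemma W5_setIntegral_gaussian {v : ℝ≥0} (hv : v ≠ 0) (u a b : ℝ) (h : ℝ → ℝ) :
    ∫ t in Icc a b, h t ∂(gaussianReal u v) = ∫ t in Icc a b, gaussianPDFReal u v t * h t := by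
  rw [← integral_indicator measurableSet_Icc, ← integral_indicator measurableSet_Icc,
    integral_gaussianReal_eq_integral_smul hv]
  congr 1; ext t
  simp only [indicator, smul_eq_mul]
  split_ifs <;> simp

private theorem W5_average_le {v : ℝ≥0} (hv : v ≠ 0) {h : ℝ → ℝ} (hc : Continuous h) (h0 : ∀ t, 0 ≤ h t)
    (r s a b : ℝ) :
    ∫ u in Icc r s, (∫ t in Icc a b, h t ∂(gaussianReal u v)) ≤ ∫ t in Icc a b, h t := by
  simp_rw [W5_setIntegral_gaussian hv]
  have hcont : Continuous (Function.uncurry fun (u t : ℝ) => gaussianPDFReal u v t * h t) := by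
    unfold Function.uncurry
    simp only [gaussianPDFReal_def]
    fun_prop
  have hint : Integrable (Function.uncurry fun (u t : ℝ) => gaussianPDFReal u v t * h t)
      ((volume.restrict (Icc r s)).prod (volume.restrict (Icc a b))) := by
    rw [Measure.prod_restrict]
    have := (hcont.continuousOn (s := Icc r s ×ˢ Icc a b)).integrableOn_compact (μ := volume)
      (isCompact_Icc.prod isCompact_Icc)
    exact this
  rw [integral_integral_swap hint]
  refine setIntegral_mono_on hint.integral_prod_right ?_ measurableSet_Icc fun t ht => ?_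
  · exact (hc.continuousOn).integrableOn_compact isCompact_Icc
  · simp_rw [pdf_symm v _ t]
    rw [integral_mul_const]
    have h1 : ∫ u in Icc r s, gaussianPDFReal t v u ≤ 1 := by
      rw [← integral_gaussianPDFReal_eq_one t hv]
      exact setIntegral_le_integral (integrable_gaussianPDFReal t v)
        (Eventually.of_forall fun u => gaussianPDFReal_nonneg t v u)
    calc (∫ u in Icc r s, gaussianPDFReal t v u) * h t ≤ 1 * h t := by
          apply mul_le_mul_of_nonneg_right h1 (h0 t)
      _ = h t := one_mul _

theorem moment_ge_Icc {V : ℝ} (hV : 0 < V) {h : ℝ → ℝ} (hc : Continuous h) (h0 : ∀ t, 0 ≤ h t) {a b R c : ℝ}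
    (hab : a + R ≤ b - R) (hcb : ∀ u, a + R ≤ u → u ≤ b - R → c ≤ ∫ t in Icc a b, h t ∂(gam V u)) :
    (b - a - 2 * R) * c ≤ ∫ t in Icc a b, h t := by
  set v : ℝ≥0 := ⟨V ^ 2, sq_nonneg V⟩ with hvdef
  have hv : v ≠ 0 := by
    intro h1
    have h2 : V ^ 2 = 0 := congrArg (fun x : ℝ≥0 => (x : ℝ)) h1
    exact (pow_pos hV 2).ne' h2
  have hcb' : ∀ u, a + R ≤ u → u ≤ b - R → c ≤ ∫ t in Icc a b, h t ∂(gaussianReal u v) := hcb
  refine le_trans ?_ (W5_average_le hv hc h0 (a + R) (b - R) a b)
  have hcont : Continuous (Function.uncurry fun (u t : ℝ) => gaussianPDFReal u v t * h t) := by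
    unfold Function.uncurry
    simp only [gaussianPDFReal_def]
    fun_prop
  have hint : Integrable (Function.uncurry fun (u t : ℝ) => gaussianPDFReal u v t * h t)
      ((volume.restrict (Icc (a + R) (b - R))).prod (volume.restrict (Icc a b))) := by
    rw [Measure.prod_restrict]
    have := (hcont.continuousOn (s := Icc (a + R) (b - R) ×ˢ Icc a b)).integrableOn_compact (μ := volume)
      (isCompact_Icc.prod isCompact_Icc)
    exact this
  have hint2 : IntegrableOn (fun u => ∫ t in Icc a b, h t ∂(gaussianReal u v)) (Icc (a + R) (b - R)) := by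
    have := hint.integral_prod_left
    refine this.congr (Eventually.of_forall fun u => ?_)
    exact (W5_setIntegral_gaussian hv u a b h).symm
  calc (b - a - 2 * R) * c = ∫ u in Icc (a + R) (b - R), c := by
        rw [setIntegral_const, smul_eq_mul, measureReal_def, Real.volume_Icc, ENNReal.toReal_ofReal (by linarith)]
        ring
    _ ≤ _ := by
        refine setIntegral_mono_on (by simp) hint2 measurableSet_Icc fun u hu => hcb' u hu.1 hu.2

end Pool.Agent.LibSM47
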