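import Mathlib
import Pool.Agent.LibSM47.Defs

/-! # SM47-B, B_01 (helper56): the Gaussian density, `gauss_exp`, elementary facts. -/

set_option autoImplicit false

namespace Pool.Agent.LibSM47

open MeasureTheory Set Filter Topology Complex ProbabilityTheory
open scoped NNReal ComplexConjugate

/-- the Gaussian density -/
noncomputable def pg (V u t : ℝ) : ℝ := (√(2 * Real.pi) * V)⁻¹ * Real.exp (-((t - u) ^ 2 / (2 * V ^ 2)))

theorem pg_eq {V : ℝ} (hV : 0 < V) (u t : ℝ) : gaussianPDFReal u ⟨V ^ 2, sq_nonneg V⟩ t = pg V u t := by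
  change (√(2 * Real.pi * V ^ 2))⁻¹ * Real.exp (-(t - u) ^ 2 / (2 * V ^ 2)) = pg V u t
  unfold pg
  rw [Real.sqrt_mul (by positivity), Real.sqrt_sq hV.le, neg_div]

theorem pg_pos {V : ℝ} (hV : 0 < V) (u t : ℝ) : 0 < pg V u t := by unfold pg; positivity

theorem pg_cont (V u : ℝ) : Continuous (pg V u) := by unfold pg; fun_prop

theorem pg_integrable {V : ℝ} (hV : 0 < V) (u : ℝ) : Integrable (pg V u) := by
  have h := integrable_gaussianPDFReal u ⟨V ^ 2, sq_nonneg V⟩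
  refine h.congr (ae_of_all _ fun t => pg_eq hV u t)

theorem pg_integral {V : ℝ} (hV : 0 < V) (u : ℝ) : ∫ t, pg V u t = 1 := by
  have hv : (⟨V ^ 2, sq_nonneg V⟩ : ℝ≥0) ≠ 0 := by
    intro h
    have := congrArg NNReal.toReal h
    change V ^ 2 = 0 at this
    nlinarith [pow_pos hV 2]
  have h := integral_gaussianPDFReal_eq_one u hv
  rw [← h]
  exact integral_congr_ae (ae_of_all _ fun t => (pg_eq hV u t).symm)

/-- crude bound: `pg ≤ 1/V · exp(..)` -/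
theorem pg_le {V : ℝ} (hV : 0 < V) (u t : ℝ) : pg V u t ≤ V⁻¹ * Real.exp (-((t - u) ^ 2 / (2 * V ^ 2))) := by
  unfold pg
  apply mul_le_mul_of_nonneg_right _ (Real.exp_pos _).le
  apply inv_anti₀ hV
  have : 1 ≤ √(2 * Real.pi) := by
    rw [Real.one_le_sqrt]
    nlinarith [Real.pi_gt_three]
  nlinarith

/-- integrals against `gam` -/
theorem int_gam {V : ℝ} (hV : 0 < V) (u : ℝ) (f : ℝ → ℂ) : ∫ t, f t ∂(gam V u) = ∫ t, f t * ((pg V u t : ℝ) : ℂ) := by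
  have hv : (⟨V ^ 2, sq_nonneg V⟩ : ℝ≥0) ≠ 0 := by
    intro h
    have := congrArg NNReal.toReal h
    change V ^ 2 = 0 at this
    nlinarith [pow_pos hV 2]
  unfold gam
  rw [integral_gaussianReal_eq_integral_smul hv]
  refine integral_congr_ae (ae_of_all _ fun t => ?_)
  simp only
  rw [pg_eq hV, Complex.real_smul, mul_comm]

/-- G1 -/
theorem gauss_exp' (T V u t : ℝ) (_hT : 0 < T) (hV : 0 < V) :
    ∫ ξ : ℝ, cexp (-(wq T ξ * t)) * nu T V u ξ = ((pg V u t : ℝ) : ℂ) := by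
  have hb : (-((V : ℂ) ^ 2) / 2).re < 0 := by
    have : (-((V : ℂ) ^ 2) / 2) = ((-(V ^ 2) / 2 : ℝ) : ℂ) := by push_cast; ring
    rw [this, Complex.ofReal_re]
    nlinarith [pow_pos hV 2]
  set c : ℂ := ((t - u : ℝ) : ℂ) * I - ((V ^ 2 / T : ℝ) : ℂ) * I with hc
  set d : ℂ := ((-(t / T) + V ^ 2 / (2 * T ^ 2) + u / T : ℝ) : ℂ) with hd
  have e1 : ∀ ξ : ℝ, cexp (-(wq T ξ * t)) * nu T V u ξ =
      ((1 / (2 * Real.pi) : ℝ) : ℂ) * cexp (-((V : ℂ) ^ 2) / 2 * (ξ : ℂ) ^ 2 + c * ξ + d) := by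
    intro ξ
    unfold nu wq
    rw [mul_left_comm, ← Complex.exp_add]
    congr 2
    rw [hc, hd]
    push_cast
    have hI : I ^ 2 = -1 := Complex.I_sq
    ring_nf
    rw [hI]
    ring
  simp_rw [e1]
  rw [integral_const_mul, integral_cexp_quadratic hb c d]
  have hV' : (V : ℂ) ≠ 0 := by exact_mod_cast hV.ne'
  have e2 : d - c ^ 2 / (4 * (-((V : ℂ) ^ 2) / 2)) = ((-((t - u) ^ 2 / (2 * V ^ 2)) : ℝ) : ℂ) := by
    have hT' : (T : ℂ) ≠ 0 := by exact_mod_cast _hT.ne'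
    have hc2 : c ^ 2 = -((((t - u) - V ^ 2 / T) ^ 2 : ℝ) : ℂ) := by
      rw [hc, ← sub_mul, mul_pow, Complex.I_sq]
      push_cast
      ring
    rw [hc2, hd]
    push_cast
    field_simp
    ring
  have e3 : ((Real.pi : ℂ) / -(-((V : ℂ) ^ 2) / 2)) ^ (1 / 2 : ℂ) = ((√(2 * Real.pi) / V : ℝ) : ℂ) := by
    have h1 : (Real.pi : ℂ) / -(-((V : ℂ) ^ 2) / 2) = ((2 * Real.pi / V ^ 2 : ℝ) : ℂ) := by
      push_cast
      field_simp
    rw [h1, show (1 / 2 : ℂ) = ((1 / 2 : ℝ) : ℂ) by push_cast; ring, ← Complex.ofReal_cpow (by positivity),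
      ← Real.sqrt_eq_rpow, Real.sqrt_div (by positivity), Real.sqrt_sq hV.le]
  rw [e2, e3, ← Complex.ofReal_exp]
  unfold pg
  rw [← Complex.ofReal_mul, ← Complex.ofReal_mul]
  congr 1
  have hs : √(2 * Real.pi) * √(2 * Real.pi) = 2 * Real.pi := Real.mul_self_sqrt (by positivity)
  have hs0 : √(2 * Real.pi) ≠ 0 := by positivity
  have hp : (Real.pi : ℝ) ≠ 0 := Real.pi_ne_zero
  rw [← mul_assoc]
  congr 1
  field_simp
  nlinarith [hs]

/-- G1. The Gaussian density is a mixture of exponentials. -/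
theorem gauss_exp (T V u t : ℝ) (hT : 0 < T) (hV : 0 < V) :
    ∫ ξ : ℝ, cexp (-(wq T ξ * t)) * nu T V u ξ = ((gaussianPDFReal u ⟨V ^ 2, sq_nonneg V⟩ t : ℝ) : ℂ) := by
  rw [gauss_exp' T V u t hT hV, pg_eq hV]

/-- everything is small against `exp(-c T^δ)` -/
theorem exp_small (K a c δ B : ℝ) (hc : 0 < c) (hδ : 0 < δ) : ∃ T₀ : ℝ, 1 ≤ T₀ ∧ ∀ T : ℝ, T₀ ≤ T →
    K * T ^ a * Real.exp (-(c * T ^ δ)) ≤ T ^ (-B) := by
  have h1 : Tendsto (fun x : ℝ => x ^ ((a + B) / δ) * Real.exp (-c * x)) atTop (𝓝 0) :=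
    tendsto_rpow_mul_exp_neg_mul_atTop_nhds_zero _ c hc
  have h2 : Tendsto (fun T : ℝ => K * ((T ^ δ) ^ ((a + B) / δ) * Real.exp (-c * T ^ δ))) atTop (𝓝 (K * 0)) :=
    (h1.comp (tendsto_rpow_atTop hδ)).const_mul K
  rw [mul_zero] at h2
  have h3 := (h2.eventually (gt_mem_nhds (zero_lt_one))).and (eventually_ge_atTop (1 : ℝ))
  obtain ⟨T₀, hT₀⟩ := h3.exists_forall_of_atTop
  refine ⟨max T₀ 1, le_max_right _ _, fun T hT => ?_⟩
  obtain ⟨h4, h5⟩ := hT₀ T (le_trans (le_max_left _ _) hT)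
  have hT0 : 0 < T := by linarith
  have e1 : (T ^ δ) ^ ((a + B) / δ) = T ^ (a + B) := by
    rw [← Real.rpow_mul hT0.le]
    congr 1
    field_simp
  rw [e1, Real.rpow_add hT0] at h4
  rw [Real.rpow_neg hT0.le]
  have hB : 0 < T ^ B := Real.rpow_pos_of_pos hT0 _
  rw [← one_div, le_div_iff₀ hB]
  have e2 : K * T ^ a * Real.exp (-(c * T ^ δ)) * T ^ B = K * (T ^ a * T ^ B * Real.exp (-c * T ^ δ)) := by
    rw [neg_mul]
    ring
  rw [e2]
  exact h4.le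

end Pool.Agent.LibSM47
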