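import Mathlib
import Pool.Agent.LibSM47.B_01

/-! # SM47-B, B_02 (helper56): the weight `ν`. -/

set_option autoImplicit false

namespace Pool.Agent.LibSM47

open MeasureTheory Set Filter Topology Complex ProbabilityTheory
open scoped NNReal ComplexConjugate

theorem wq_re (T ξ : ℝ) : (wq T ξ).re = 1 / T := by
  unfold wq
  simp

theorem wq_im (T ξ : ℝ) : (wq T ξ).im = -ξ := by
  unfold wq
  simp

theorem wq_cont (T : ℝ) : Continuous (wq T) := by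
  unfold wq
  fun_prop

theorem wq_norm_le {T : ℝ} (hT : 0 < T) (ξ : ℝ) : ‖wq T ξ‖ ≤ 1 / T + |ξ| := by
  unfold wq
  refine (norm_sub_le _ _).trans ?_
  rw [Complex.norm_real, norm_mul, Complex.norm_I, mul_one, Complex.norm_real, Real.norm_of_nonneg (by positivity),
    Real.norm_eq_abs]

theorem nu_cont (T V u : ℝ) : Continuous (nu T V u) := by
  unfold nu
  fun_prop

theorem nu_norm {T V u : ℝ} (hT : 1 ≤ T) (hV : 0 < V) (hVT : V ≤ T) (hu : u ≤ T) (ξ : ℝ) :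
    ‖nu T V u ξ‖ ≤ Real.exp (-(V ^ 2 * ξ ^ 2 / 2)) := by
  have hT0 : 0 < T := by linarith
  have e1 : (-((V : ℂ) ^ 2 * ((ξ : ℂ) + ((1 / T : ℝ) : ℂ) * I) ^ 2 / 2) - u * I * ((ξ : ℂ) + ((1 / T : ℝ) : ℂ) * I)).re =
      -(V ^ 2 * ξ ^ 2 / 2) + (V ^ 2 / (2 * T ^ 2) + u / T) := by
    have h2 : (-((V : ℂ) ^ 2 * ((ξ : ℂ) + ((1 / T : ℝ) : ℂ) * I) ^ 2 / 2) - u * I * ((ξ : ℂ) + ((1 / T : ℝ) : ℂ) * I)) =
        ((-(V ^ 2 * ξ ^ 2 / 2) + (V ^ 2 / (2 * T ^ 2) + u / T) : ℝ) : ℂ) + ((-(V ^ 2 * ξ / T) - u * ξ : ℝ) : ℂ) * I := by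
      push_cast
      have hI : I ^ 2 = -1 := Complex.I_sq
      ring_nf
      rw [hI]
      ring
    rw [h2]
    simp only [Complex.add_re, Complex.ofReal_re, Complex.re_ofReal_mul, Complex.I_re, mul_zero, add_zero]
  unfold nu
  rw [norm_mul, Complex.norm_exp, e1, Complex.norm_real, Real.norm_of_nonneg (by positivity), Real.exp_add]
  have h3 : V ^ 2 / (2 * T ^ 2) + u / T ≤ 3 / 2 := by
    have h4 : V ^ 2 / (2 * T ^ 2) ≤ 1 / 2 := by
      rw [div_le_div_iff₀ (by positivity) (by norm_num)]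
      nlinarith [pow_le_pow_left₀ hV.le hVT 2]
    have h5 : u / T ≤ 1 := by
      rw [div_le_one hT0]
      exact hu
    linarith
  have h6 : Real.exp (V ^ 2 / (2 * T ^ 2) + u / T) ≤ 2 * Real.pi := by
    refine (Real.exp_le_exp.2 h3).trans ?_
    have h7 : Real.exp (3 / 2) ^ 2 = Real.exp 1 ^ 3 := by
      rw [← Real.exp_nat_mul, ← Real.exp_nat_mul]
      norm_num
    have h8 : Real.exp 1 < 2.7182818286 := Real.exp_one_lt_d9
    have h9 : Real.exp (3 / 2) ≤ 6 := by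
      by_contra hcon
      push Not at hcon
      have h10 : (36 : ℝ) < Real.exp (3 / 2) ^ 2 := by nlinarith
      have h11 : Real.exp 1 ^ 3 < 36 := by
        have h12 : (2.7182818286 : ℝ) ^ 3 < 36 := by norm_num
        exact lt_of_le_of_lt (pow_le_pow_left₀ (Real.exp_pos _).le h8.le 3) h12
      rw [h7] at h10
      linarith
    nlinarith [Real.pi_gt_three]
  have hE := Real.exp_pos (-(V ^ 2 * ξ ^ 2 / 2))
  have hpi := Real.pi_pos
  calc 1 / (2 * Real.pi) * (Real.exp (-(V ^ 2 * ξ ^ 2 / 2)) * Real.exp (V ^ 2 / (2 * T ^ 2) + u / T))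
      ≤ 1 / (2 * Real.pi) * (Real.exp (-(V ^ 2 * ξ ^ 2 / 2)) * (2 * Real.pi)) := by
        gcongr
    _ = Real.exp (-(V ^ 2 * ξ ^ 2 / 2)) := by
        field_simp

theorem gauss_int {b : ℝ} (hb : 0 < b) : Integrable (fun ξ : ℝ => Real.exp (-(b * ξ ^ 2))) := by
  have h := integrable_exp_neg_mul_sq hb
  simpa [neg_mul] using h

theorem nu_integrable {T V u : ℝ} (hT : 1 ≤ T) (hV : 0 < V) (hVT : V ≤ T) (hu : u ≤ T) : Integrable (nu T V u) := by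
  have h := gauss_int (b := V ^ 2 / 2) (by positivity)
  refine Integrable.mono' h (nu_cont T V u).aestronglyMeasurable (ae_of_all _ fun ξ => ?_)
  refine (nu_norm hT hV hVT hu ξ).trans (le_of_eq ?_)
  congr 1
  ring

/-- the part `|ξ| > 1/4` is negligible -/
theorem nu_tail {T V u : ℝ} (hT : 1 ≤ T) (hV : 1 ≤ V) (hVT : V ≤ T) (hu : u ≤ T) {F : ℝ → ℂ} {M : ℝ} (hM : 0 ≤ M)
    (hF : ∀ ξ : ℝ, 1 / 4 ≤ |ξ| → ‖F ξ‖ ≤ M) :
    ‖∫ ξ in (Icc (-(1 / 4) : ℝ) (1 / 4))ᶜ, F ξ * nu T V u ξ‖ ≤ 4 * M * Real.exp (-(V ^ 2 / 64)) := by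
  have hV0 : 0 < V := by linarith
  have hb : 0 < V ^ 2 / 4 := by positivity
  have hg := gauss_int hb
  have h1 : ‖∫ ξ in (Icc (-(1 / 4) : ℝ) (1 / 4))ᶜ, F ξ * nu T V u ξ‖ ≤
      ∫ ξ in (Icc (-(1 / 4) : ℝ) (1 / 4))ᶜ, M * Real.exp (-(V ^ 2 / 64)) * Real.exp (-(V ^ 2 / 4 * ξ ^ 2)) := by
    refine norm_integral_le_of_norm_le ((hg.const_mul _).integrableOn) ?_
    refine (ae_restrict_iff' measurableSet_Icc.compl).2 (ae_of_all _ fun ξ hξ => ?_)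
    have h2 : 1 / 4 ≤ |ξ| := by
      by_contra hcon
      push Not at hcon
      have := abs_lt.1 hcon
      exact hξ ⟨by linarith [this.1], by linarith [this.2]⟩
    have h3 : (1 / 16 : ℝ) ≤ ξ ^ 2 := by
      rw [← sq_abs]
      nlinarith [abs_nonneg ξ]
    rw [norm_mul, mul_assoc]
    refine mul_le_mul (hF ξ h2) ?_ (norm_nonneg _) hM
    refine (nu_norm hT hV0 hVT hu ξ).trans ?_
    rw [← Real.exp_add]
    apply Real.exp_le_exp.2
    nlinarith [pow_pos hV0 2]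
  have h4 : ∫ ξ in (Icc (-(1 / 4) : ℝ) (1 / 4))ᶜ, M * Real.exp (-(V ^ 2 / 64)) * Real.exp (-(V ^ 2 / 4 * ξ ^ 2)) ≤
      ∫ ξ : ℝ, M * Real.exp (-(V ^ 2 / 64)) * Real.exp (-(V ^ 2 / 4 * ξ ^ 2)) := by
    refine setIntegral_le_integral (hg.const_mul _) (ae_of_all _ fun ξ => ?_)
    positivity
  have h5 : ∫ ξ : ℝ, Real.exp (-(V ^ 2 / 4 * ξ ^ 2)) = √(Real.pi / (V ^ 2 / 4)) := by
    have := integral_gaussian (V ^ 2 / 4)
    simpa [neg_mul] using this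
  have h6 : √(Real.pi / (V ^ 2 / 4)) ≤ 4 := by
    rw [Real.sqrt_le_left (by norm_num), div_le_iff₀ hb]
    nlinarith [Real.pi_lt_d2]
  refine h1.trans (h4.trans ?_)
  rw [integral_const_mul, h5]
  have : 0 ≤ M * Real.exp (-(V ^ 2 / 64)) := by positivity
  nlinarith

end Pool.Agent.LibSM47
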