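import Mathlib
import Pool.Agent.LibSM47.B_02

/-! # SM47-B, B_03 (helper56): moments of `ν`. -/

set_option autoImplicit false

namespace Pool.Agent.LibSM47

open MeasureTheory Set Filter Topology Complex ProbabilityTheory
open scoped NNReal ComplexConjugate

theorem b03_poly (x : ℝ) : (1 + |x|) ^ 8 * Real.exp (-(x ^ 2 / 2)) ≤ 16 ^ 5 * Real.exp (-(x ^ 2 / 4)) := by
  have h1 : (1 + |x|) ^ 2 ≤ 2 * (1 + x ^ 2) := by
    rw [← sq_abs x]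
    nlinarith [sq_nonneg (|x| - 1)]
  have h2 : 1 + x ^ 2 ≤ 16 * Real.exp (x ^ 2 / 16) := by
    nlinarith [Real.add_one_le_exp (x ^ 2 / 16)]
  have h3 : (1 + |x|) ^ 2 ≤ 32 * Real.exp (x ^ 2 / 16) := by linarith
  have h4 : ((1 + |x|) ^ 2) ^ 4 ≤ (32 * Real.exp (x ^ 2 / 16)) ^ 4 := pow_le_pow_left₀ (by positivity) h3 4
  have h5 : (32 * Real.exp (x ^ 2 / 16)) ^ 4 = 16 ^ 5 * Real.exp (x ^ 2 / 4) := by
    rw [mul_pow, ← Real.exp_nat_mul]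
    have : ((4 : ℕ) : ℝ) * (x ^ 2 / 16) = x ^ 2 / 4 := by push_cast; ring
    rw [this]
    norm_num
  have h6 : (1 + |x|) ^ 8 ≤ 16 ^ 5 * Real.exp (x ^ 2 / 4) := by
    calc (1 + |x|) ^ 8 = ((1 + |x|) ^ 2) ^ 4 := by ring
      _ ≤ _ := h4
      _ = _ := h5
  calc (1 + |x|) ^ 8 * Real.exp (-(x ^ 2 / 2)) ≤ (16 ^ 5 * Real.exp (x ^ 2 / 4)) * Real.exp (-(x ^ 2 / 2)) := by gcongr
    _ = 16 ^ 5 * (Real.exp (x ^ 2 / 4) * Real.exp (-(x ^ 2 / 2))) := by ring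
    _ = _ := by
      rw [← Real.exp_add]
      congr 2
      ring

/-- G3. Moments of `|ν|`. -/
theorem nu_mom (δ : ℝ) (hδ : 0 < δ) (hδ1 : δ ≤ 1 / 10) :
    ∃ C T₀ : ℝ, 0 < C ∧ ∀ T : ℝ, T₀ ≤ T → ∀ u : ℝ, 0 ≤ u → u ≤ T →
      ∫ ξ in Icc (-(1 / 4) : ℝ) (1 / 4), (‖wq T ξ‖ / (wq T ξ).re) ^ 8 * ‖nu T (T ^ (1 - δ)) u ξ‖ ≤ C * T ^ (9 * δ - 1) := by
  refine ⟨16 ^ 5 * 4, 1, by norm_num, fun T hT u hu0 hu => ?_⟩
  have hT0 : 0 < T := by linarith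
  set V := T ^ (1 - δ) with hVdef
  have hV : 0 < V := Real.rpow_pos_of_pos hT0 _
  have hVT : V ≤ T := by
    calc V = T ^ (1 - δ) := rfl
      _ ≤ T ^ (1 : ℝ) := Real.rpow_le_rpow_of_exponent_le hT (by linarith)
      _ = T := Real.rpow_one T
  have hTV : T = T ^ δ * V := by
    rw [hVdef, ← Real.rpow_add hT0]
    simp
  have hTd : 1 ≤ T ^ δ := Real.one_le_rpow hT hδ.le
  have hg := gauss_int (b := V ^ 2 / 4) (by positivity)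
  have hpt : ∀ ξ : ℝ, (‖wq T ξ‖ / (wq T ξ).re) ^ 8 * ‖nu T V u ξ‖ ≤
      T ^ (8 * δ) * 16 ^ 5 * Real.exp (-(V ^ 2 / 4 * ξ ^ 2)) := by
    intro ξ
    have h1 : ‖wq T ξ‖ / (wq T ξ).re ≤ T ^ δ * (1 + |V * ξ|) := by
      rw [wq_re, div_le_iff₀ (by positivity)]
      refine (wq_norm_le hT0 ξ).trans ?_
      rw [abs_mul, abs_of_pos hV]
      have h2 : T ^ δ * (1 + V * |ξ|) * (1 / T) = T ^ δ * (1 / T) + (T ^ δ * V) * |ξ| * (1 / T) := by ring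
      rw [h2, ← hTV]
      have h3 : T * |ξ| * (1 / T) = |ξ| := by field_simp
      rw [h3]
      have h4 : 1 / T ≤ T ^ δ * (1 / T) := by
        have : 0 < 1 / T := by positivity
        nlinarith
      linarith
    have h5 : 0 ≤ ‖wq T ξ‖ / (wq T ξ).re := by
      rw [wq_re]
      positivity
    have h6 : (‖wq T ξ‖ / (wq T ξ).re) ^ 8 ≤ T ^ (8 * δ) * (1 + |V * ξ|) ^ 8 := by
      refine (pow_le_pow_left₀ h5 h1 8).trans (le_of_eq ?_)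
      rw [mul_pow, ← Real.rpow_natCast (T ^ δ), ← Real.rpow_mul hT0.le]
      congr 2
      push_cast
      ring
    have h7 := nu_norm hT hV hVT hu ξ
    have h8 := b03_poly (V * ξ)
    have h9 : 0 < T ^ (8 * δ) := Real.rpow_pos_of_pos hT0 _
    calc (‖wq T ξ‖ / (wq T ξ).re) ^ 8 * ‖nu T V u ξ‖
        ≤ (T ^ (8 * δ) * (1 + |V * ξ|) ^ 8) * Real.exp (-(V ^ 2 * ξ ^ 2 / 2)) := by
          refine mul_le_mul h6 h7 (norm_nonneg _) (by positivity)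
      _ = T ^ (8 * δ) * ((1 + |V * ξ|) ^ 8 * Real.exp (-((V * ξ) ^ 2 / 2))) := by
          rw [mul_pow]; ring
      _ ≤ T ^ (8 * δ) * (16 ^ 5 * Real.exp (-((V * ξ) ^ 2 / 4))) := by gcongr
      _ = _ := by
          have : -((V * ξ) ^ 2 / 4) = -(V ^ 2 / 4 * ξ ^ 2) := by ring
          rw [this]
          ring
  have hint := hg.const_mul (T ^ (8 * δ) * 16 ^ 5)
  have h1 : ∫ ξ in Icc (-(1 / 4) : ℝ) (1 / 4), (‖wq T ξ‖ / (wq T ξ).re) ^ 8 * ‖nu T V u ξ‖ ≤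
      ∫ ξ in Icc (-(1 / 4) : ℝ) (1 / 4), T ^ (8 * δ) * 16 ^ 5 * Real.exp (-(V ^ 2 / 4 * ξ ^ 2)) := by
    refine integral_mono_of_nonneg (ae_of_all _ fun ξ => ?_) hint.integrableOn (ae_of_all _ fun ξ => hpt ξ)
    have : 0 ≤ ‖wq T ξ‖ / (wq T ξ).re := by
      rw [wq_re]
      positivity
    positivity
  have h2 : ∫ ξ in Icc (-(1 / 4) : ℝ) (1 / 4), T ^ (8 * δ) * 16 ^ 5 * Real.exp (-(V ^ 2 / 4 * ξ ^ 2)) ≤
      ∫ ξ : ℝ, T ^ (8 * δ) * 16 ^ 5 * Real.exp (-(V ^ 2 / 4 * ξ ^ 2)) := by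
    refine setIntegral_le_integral hint (ae_of_all _ fun ξ => ?_)
    have : 0 < T ^ (8 * δ) := Real.rpow_pos_of_pos hT0 _
    positivity
  have h5 : ∫ ξ : ℝ, Real.exp (-(V ^ 2 / 4 * ξ ^ 2)) = √(Real.pi / (V ^ 2 / 4)) := by
    have := integral_gaussian (V ^ 2 / 4)
    simpa [neg_mul] using this
  have h6 : √(Real.pi / (V ^ 2 / 4)) ≤ 4 / V := by
    rw [Real.sqrt_le_left (by positivity), div_le_iff₀ (by positivity)]
    have : (4 / V) ^ 2 * (V ^ 2 / 4) = 4 := by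
      field_simp
    rw [this]
    linarith [Real.pi_le_four]
  refine h1.trans (h2.trans ?_)
  rw [integral_const_mul, h5]
  have h7 : 0 < T ^ (8 * δ) := Real.rpow_pos_of_pos hT0 _
  have h8 : T ^ (9 * δ - 1) = T ^ (8 * δ) / V := by
    rw [hVdef, ← Real.rpow_sub hT0]
    congr 1
    ring
  rw [h8]
  calc T ^ (8 * δ) * 16 ^ 5 * √(Real.pi / (V ^ 2 / 4)) ≤ T ^ (8 * δ) * 16 ^ 5 * (4 / V) := by gcongr
    _ = 16 ^ 5 * 4 * (T ^ (8 * δ) / V) := by ring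

end Pool.Agent.LibSM47
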