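import Mathlib
import Pool.Agent.LibSM47.B_01
import Pool.Agent.LibPH.X06

/-! # SM47-B, B_04: the part `t ≤ 0` of the twisted third moment is negligible.

PLAN. `LibPH.x06_z21_bd`: `‖z21 t‖ ≤ C (1+|t|)³`, `LibPH.x06_tw_norm`: `‖tw n m t‖ = 1`.  For `t ≤ 0`, `0 ≤ u`:
`(t-u)² ≥ t² + u²`, so with `V = T^(1-δ)` (`1 ≤ V ≤ T`) `pg_le` gives
`pg V u t ≤ exp(-(u²/(2V²))) · exp(-(t²/(2V²))) ≤ exp(-(ε₁²/2) (T^(2δ))) · exp(-(t²/(2T²)))` (`u/V ≥ ε₁ T^δ`).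
`∫ (1+|t|)³ exp(-(t²/(2T²))) dt = T ∫ (1+T|x|)³ exp(-x²/2) dx ≤ T⁴ C'` (substitution `t = T x`, `Measure.integral_comp_mul_left`,
or bound `(1+|t|)^3 exp(-(t²/(2T²))) ≤ C'' T^5/(1+t²)` pointwise: any fixed power of `T` is fine), then `exp_small` (B_01). -/

set_option autoImplicit false

namespace Pool.Agent.LibSM47

open MeasureTheory Set Filter Topology Complex ProbabilityTheory
open scoped NNReal ComplexConjugate

private theorem b04_poly (y : ℝ) (hy : 0 ≤ y) :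
    (1 + y) ^ 3 * (1 + y ^ 2) * Real.exp (-(y ^ 2 / 2)) ≤ 120 * Real.exp (3 / 2) := by
  have h1 : (1 + y) ^ 3 * (1 + y ^ 2) ≤ (1 + y) ^ 5 := by
    have h2 : 1 + y ^ 2 ≤ (1 + y) ^ 2 := by nlinarith
    calc (1 + y) ^ 3 * (1 + y ^ 2) ≤ (1 + y) ^ 3 * (1 + y) ^ 2 :=
          mul_le_mul_of_nonneg_left h2 (by positivity)
      _ = (1 + y) ^ 5 := by ring
  have h3 : (1 + y) ^ 5 ≤ 120 * Real.exp (1 + y) := by
    have := Real.pow_div_factorial_le_exp (x := 1 + y) (by linarith) 5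
    have h4 : ((Nat.factorial 5 : ℕ) : ℝ) = 120 := by norm_num [Nat.factorial]
    rw [h4, div_le_iff₀ (by norm_num)] at this
    linarith
  calc (1 + y) ^ 3 * (1 + y ^ 2) * Real.exp (-(y ^ 2 / 2))
      ≤ 120 * Real.exp (1 + y) * Real.exp (-(y ^ 2 / 2)) :=
        mul_le_mul_of_nonneg_right (h1.trans h3) (Real.exp_pos _).le
    _ = 120 * Real.exp (1 + y - y ^ 2 / 2) := by
        rw [mul_assoc, ← Real.exp_add]
        ring_nf
    _ ≤ 120 * Real.exp (3 / 2) := by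
        refine mul_le_mul_of_nonneg_left (Real.exp_le_exp.2 ?_) (by norm_num)
        nlinarith [sq_nonneg (y - 1)]

private theorem b04_pt (T t : ℝ) (hT : 1 ≤ T) :
    (1 + |t|) ^ 3 * Real.exp (-(t ^ 2 / (2 * T ^ 2))) ≤
      120 * Real.exp (3 / 2) * T ^ 5 * (1 + t ^ 2)⁻¹ := by
  have hT0 : 0 < T := by linarith
  have h1 := b04_poly (|t| / T) (by positivity)
  have h2 : (|t| / T) ^ 2 = t ^ 2 / T ^ 2 := by rw [div_pow, sq_abs]
  have h3 : (|t| / T) ^ 2 / 2 = t ^ 2 / (2 * T ^ 2) := by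
    rw [h2]
    field_simp
  rw [h3] at h1
  have h4 : 1 + |t| ≤ T * (1 + |t| / T) := by
    have : T * (1 + |t| / T) = T + |t| := by field_simp
    rw [this]
    linarith
  have h5 : 1 + t ^ 2 ≤ T ^ 2 * (1 + (|t| / T) ^ 2) := by
    rw [h2]
    have : T ^ 2 * (1 + t ^ 2 / T ^ 2) = T ^ 2 + t ^ 2 := by field_simp
    rw [this]
    nlinarith
  rw [← div_eq_mul_inv, le_div_iff₀ (by positivity)]
  calc (1 + |t|) ^ 3 * Real.exp (-(t ^ 2 / (2 * T ^ 2))) * (1 + t ^ 2)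
      ≤ (T * (1 + |t| / T)) ^ 3 * Real.exp (-(t ^ 2 / (2 * T ^ 2))) *
        (T ^ 2 * (1 + (|t| / T) ^ 2)) := by
        gcongr
    _ = T ^ 5 * ((1 + |t| / T) ^ 3 * (1 + (|t| / T) ^ 2) *
        Real.exp (-(t ^ 2 / (2 * T ^ 2)))) := by ring
    _ ≤ T ^ 5 * (120 * Real.exp (3 / 2)) := mul_le_mul_of_nonneg_left h1 (by positivity)
    _ = 120 * Real.exp (3 / 2) * T ^ 5 := by ring

theorem II_left (ε₁ δ : ℝ) (hε1 : 0 < ε₁) (hδ : 0 < δ) (hδ1 : δ ≤ 1 / 10) :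
    ∃ T₀ : ℝ, ∀ T : ℝ, T₀ ≤ T → ∀ u : ℝ, ε₁ * T ≤ u → u ≤ T → ∀ m n : ℕ,
      ‖∫ t in Iic (0 : ℝ), LibPH.z21 t * LibPH.tw n m t * ((pg (T ^ (1 - δ)) u t : ℝ) : ℂ)‖ ≤ T ^ (-3 : ℝ) := by
  obtain ⟨C, hC, hz⟩ := LibPH.x06_z21_bd
  obtain ⟨T₀, hT₀1, hT₀⟩ := exp_small (C * (120 * Real.exp (3 / 2)) * Real.pi) 5 (ε₁ ^ 2 / 2) (2 * δ) 3
    (by positivity) (by positivity)
  refine ⟨T₀, fun T hT u hu1 hu2 m n => ?_⟩
  have hT1 : 1 ≤ T := hT₀1.trans hT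
  have hTp : 0 < T := by linarith
  have hu0 : 0 ≤ u := le_trans (by positivity) hu1
  obtain ⟨V, hV⟩ : ∃ V : ℝ, V = T ^ (1 - δ) := ⟨_, rfl⟩
  have hV1 : 1 ≤ V := by rw [hV]; exact Real.one_le_rpow hT1 (by linarith)
  have hVT : V ≤ T := by
    rw [hV]
    calc T ^ (1 - δ) ≤ T ^ (1 : ℝ) := Real.rpow_le_rpow_of_exponent_le hT1 (by linarith)
      _ = T := Real.rpow_one T
  have hV0 : 0 < V := by linarith
  have hV2 : V ^ 2 * T ^ (2 * δ) = T ^ 2 := by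
    rw [hV, ← Real.rpow_natCast (T ^ (1 - δ)) 2, ← Real.rpow_mul hTp.le, ← Real.rpow_add hTp,
      ← Real.rpow_natCast T 2]
    congr 1
    push_cast
    ring
  rw [← hV]
  obtain ⟨E, hE⟩ : ∃ E : ℝ, E = Real.exp (-(ε₁ ^ 2 / 2 * T ^ (2 * δ))) := ⟨_, rfl⟩
  have hE0 : 0 < E := by rw [hE]; exact Real.exp_pos _
  have hpg : ∀ t : ℝ, t ≤ 0 → pg V u t ≤ E * Real.exp (-(t ^ 2 / (2 * T ^ 2))) := by
    intro t ht
    refine (pg_le hV0 u t).trans ?_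
    have h1 : V⁻¹ ≤ 1 := inv_le_one_of_one_le₀ hV1
    have h2 : Real.exp (-((t - u) ^ 2 / (2 * V ^ 2))) ≤
        E * Real.exp (-(t ^ 2 / (2 * T ^ 2))) := by
      rw [hE, ← Real.exp_add]
      apply Real.exp_le_exp.2
      have h3 : t ^ 2 / (2 * T ^ 2) ≤ t ^ 2 / (2 * V ^ 2) := by
        apply div_le_div_of_nonneg_left (by positivity) (by positivity)
        have : V ^ 2 ≤ T ^ 2 := pow_le_pow_left₀ hV0.le hVT 2
        linarith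
      have h4 : ε₁ ^ 2 / 2 * T ^ (2 * δ) ≤ u ^ 2 / (2 * V ^ 2) := by
        rw [le_div_iff₀ (by positivity)]
        have h5 : (ε₁ * T) ^ 2 ≤ u ^ 2 := pow_le_pow_left₀ (by positivity) hu1 2
        calc ε₁ ^ 2 / 2 * T ^ (2 * δ) * (2 * V ^ 2) = ε₁ ^ 2 * (V ^ 2 * T ^ (2 * δ)) := by ring
          _ = (ε₁ * T) ^ 2 := by rw [hV2]; ring
          _ ≤ u ^ 2 := h5
      have h6 : t ^ 2 / (2 * V ^ 2) + u ^ 2 / (2 * V ^ 2) ≤ (t - u) ^ 2 / (2 * V ^ 2) := by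
        rw [← add_div]
        apply div_le_div_of_nonneg_right _ (by positivity)
        nlinarith [mul_nonneg (neg_nonneg.2 ht) hu0]
      linarith
    calc V⁻¹ * Real.exp (-((t - u) ^ 2 / (2 * V ^ 2)))
        ≤ 1 * Real.exp (-((t - u) ^ 2 / (2 * V ^ 2))) :=
          mul_le_mul_of_nonneg_right h1 (Real.exp_pos _).le
      _ ≤ _ := by rw [one_mul]; exact h2
  obtain ⟨K, hK⟩ : ∃ K : ℝ, K = C * (120 * Real.exp (3 / 2)) * T ^ 5 * E := ⟨_, rfl⟩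
  have hK0 : 0 ≤ K := by rw [hK]; positivity
  have hb : ∀ t : ℝ, t ≤ 0 →
      ‖LibPH.z21 t * LibPH.tw n m t * ((pg V u t : ℝ) : ℂ)‖ ≤ K * (1 + t ^ 2)⁻¹ := by
    intro t ht
    rw [norm_mul, norm_mul, LibPH.x06_tw_norm, mul_one, Complex.norm_real, Real.norm_eq_abs,
      abs_of_pos (pg_pos hV0 u t)]
    calc ‖LibPH.z21 t‖ * pg V u t
        ≤ (C * (1 + |t|) ^ 3) * (E * Real.exp (-(t ^ 2 / (2 * T ^ 2)))) :=
          mul_le_mul (hz t) (hpg t ht) (pg_pos hV0 u t).le (by positivity)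
      _ = C * E * ((1 + |t|) ^ 3 * Real.exp (-(t ^ 2 / (2 * T ^ 2)))) := by ring
      _ ≤ C * E * (120 * Real.exp (3 / 2) * T ^ 5 * (1 + t ^ 2)⁻¹) :=
          mul_le_mul_of_nonneg_left (b04_pt T t hT1) (by positivity)
      _ = K * (1 + t ^ 2)⁻¹ := by rw [hK]; ring
  have hint : Integrable (fun t : ℝ => K * (1 + t ^ 2)⁻¹) := integrable_inv_one_add_sq.const_mul K
  calc ‖∫ t in Iic (0 : ℝ), LibPH.z21 t * LibPH.tw n m t * ((pg V u t : ℝ) : ℂ)‖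
      ≤ ∫ t in Iic (0 : ℝ), K * (1 + t ^ 2)⁻¹ := by
        refine norm_integral_le_of_norm_le hint.integrableOn ?_
        exact (ae_restrict_iff' measurableSet_Iic).2 (ae_of_all _ fun t ht => hb t ht)
    _ ≤ ∫ t : ℝ, K * (1 + t ^ 2)⁻¹ := by
        refine setIntegral_le_integral hint (ae_of_all _ fun t => ?_)
        positivity
    _ = K * Real.pi := by
        rw [integral_const_mul, integral_univ_inv_one_add_sq]
    _ = C * (120 * Real.exp (3 / 2)) * Real.pi * T ^ (5 : ℝ) *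
          Real.exp (-(ε₁ ^ 2 / 2 * T ^ (2 * δ))) := by
        rw [hK, ← hE, show (5 : ℝ) = ((5 : ℕ) : ℝ) by norm_num, Real.rpow_natCast]
        ring
    _ ≤ T ^ (-3 : ℝ) := hT₀ T hT

end Pool.Agent.LibSM47
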