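import Mathlib
import Pool.Agent.LibSM47.B_02
import Pool.Agent.LibPH.X06

/-! # SM47-B, B_05: the part `t > 0` as a superposition of Laplace transforms (Fubini).

PLAN. `gauss_exp'` (B_01): `pg V u t = ∫ ξ, e^{-w t} ν(ξ)`, `w = wq T ξ`, `Re w = 1/T` (`wq_re`).
Product integrability on `Ioi 0 × ℝ`: `‖z21 t · tw · e^{-wt} · ν(ξ)‖ ≤ [C (1+|t|)³ e^{-t/T}] · ‖ν(ξ)‖` (`LibPH.x06_z21_bd`,
`LibPH.x06_tw_norm`, `LibPH.x06_exp_norm`, `nu_integrable`), measurability from continuity (`LibPH.x06_z21_cont`,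
`LibPH.x06_tw_cont`, `wq_cont`, `nu_cont`); then `integral_integral_swap` and `Integrable.integral_prod_right`.
Bound: `∫_{t>0} C (1+t)³ e^{-t/T} dt ≤ C' T⁴` (`T ≥ 1`; substitution `t = T x`, or `Real.Gamma_integral`-type lemmas; compare
`LibPH.x06_dom`, `LibPH.x06_le`). -/

set_option autoImplicit false

namespace Pool.Agent.LibSM47

open MeasureTheory Set Filter Topology Complex ProbabilityTheory
open scoped NNReal ComplexConjugate

/-- the inner integral -/
noncomputable def LL (m n : ℕ) (T ξ : ℝ) : ℂ := ∫ t in Ioi (0 : ℝ), LibPH.z21 t * LibPH.tw n m t * cexp (-(wq T ξ * t))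

private theorem b05_norm {C T : ℝ} (hC : ∀ t : ℝ, ‖LibPH.z21 t‖ ≤ C * (1 + |t|) ^ 3) (m n : ℕ) (ξ t : ℝ) (ht : 0 < t) :
    ‖LibPH.z21 t * LibPH.tw n m t * cexp (-(wq T ξ * t))‖ ≤
      C * ((1 + |t|) ^ 3 * Real.exp (-((2 / T) / 2 * |t|))) := by
  rw [norm_mul, norm_mul, LibPH.x06_tw_norm, mul_one, LibPH.x06_exp_norm, wq_re]
  have e : -((2 / T) / 2 * |t|) = -(1 / T * t) := by
    rw [abs_of_pos ht]
    ring
  rw [e, ← mul_assoc]
  exact mul_le_mul_of_nonneg_right (hC t) (Real.exp_pos _).le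

theorem LL_bd : ∃ C : ℝ, 0 < C ∧ ∀ T : ℝ, 1 ≤ T → ∀ (m n : ℕ) (ξ : ℝ), ‖LL m n T ξ‖ ≤ C * T ^ 4 := by
  obtain ⟨C, hC, hb⟩ := LibPH.x06_z21_bd
  refine ⟨C * (96 * Real.exp 1), by positivity, fun T hT m n ξ => ?_⟩
  have hT0 : 0 < T := by linarith
  have ha : -(1 / (2 * T)) < 0 := by
    have : 0 < 1 / (2 * T) := by positivity
    linarith
  have hint : IntegrableOn (fun t : ℝ => C * (48 * Real.exp 1 * T ^ 3) * Real.exp (-(1 / (2 * T)) * t)) (Ioi 0) :=
    (integrableOn_exp_mul_Ioi ha 0).const_mul _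
  have h1 : ‖LL m n T ξ‖ ≤ ∫ t in Ioi (0 : ℝ), C * (48 * Real.exp 1 * T ^ 3) * Real.exp (-(1 / (2 * T)) * t) := by
    unfold LL
    refine norm_integral_le_of_norm_le hint ((ae_restrict_iff' measurableSet_Ioi).2 (ae_of_all _ fun t ht => ?_))
    have ht0 : 0 < t := ht
    refine (b05_norm hb m n ξ t ht0).trans ?_
    rw [mul_assoc]
    refine mul_le_mul_of_nonneg_left ?_ hC.le
    refine (LibPH.x06_le (δ := 2 / T) (by positivity) 3 t).trans ?_
    have e1 : -((2 / T) / 4 * |t|) = -(1 / (2 * T)) * t := by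
      rw [abs_of_pos ht0]
      ring
    rw [e1]
    refine mul_le_mul_of_nonneg_right ?_ (Real.exp_pos _).le
    have e2 : ((3 : ℕ).factorial : ℝ) * Real.exp ((2 / T) / 4) / ((2 / T) / 4) ^ 3 =
        48 * Real.exp ((2 / T) / 4) * T ^ 3 := by
      have : ((3 : ℕ).factorial : ℝ) = 6 := by norm_num [Nat.factorial]
      rw [this]
      field_simp
      norm_num
    rw [e2]
    have h3 : Real.exp ((2 / T) / 4) ≤ Real.exp 1 := by
      apply Real.exp_le_exp.2
      rw [div_div, div_le_one (by positivity)]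
      linarith
    have h4 : 0 ≤ T ^ 3 := by positivity
    exact mul_le_mul_of_nonneg_right (by linarith) h4
  refine h1.trans (le_of_eq ?_)
  rw [integral_const_mul, integral_exp_mul_Ioi ha]
  rw [mul_zero, Real.exp_zero]
  field_simp
  norm_num

theorem II_right {T V u : ℝ} (hT : 1 ≤ T) (hV : 0 < V) (hVT : V ≤ T) (hu : u ≤ T) (m n : ℕ) :
    Integrable (fun ξ : ℝ => LL m n T ξ * nu T V u ξ) ∧
    ∫ t in Ioi (0 : ℝ), LibPH.z21 t * LibPH.tw n m t * ((pg V u t : ℝ) : ℂ) = ∫ ξ : ℝ, LL m n T ξ * nu T V u ξ := by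
  obtain ⟨C, hC, hb⟩ := LibPH.x06_z21_bd
  have hT0 : 0 < T := by linarith
  set F : ℝ → ℝ → ℂ := fun t ξ => LibPH.z21 t * LibPH.tw n m t * cexp (-(wq T ξ * t)) * nu T V u ξ with hF
  have hFc : Continuous (Function.uncurry F) := by
    have h1 : Continuous fun p : ℝ × ℝ => LibPH.z21 p.1 := LibPH.x06_z21_cont.comp continuous_fst
    have h2 : Continuous fun p : ℝ × ℝ => LibPH.tw n m p.1 := (LibPH.x06_tw_cont n m).comp continuous_fst
    have h3 : Continuous fun p : ℝ × ℝ => wq T p.2 := (wq_cont T).comp continuous_snd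
    have h4 : Continuous fun p : ℝ × ℝ => nu T V u p.2 := (nu_cont T V u).comp continuous_snd
    have h5 : Continuous fun p : ℝ × ℝ => cexp (-(wq T p.2 * (p.1 : ℂ))) :=
      Complex.continuous_exp.comp ((h3.mul (Complex.continuous_ofReal.comp continuous_fst)).neg)
    exact ((h1.mul h2).mul h5).mul h4
  have hG : IntegrableOn (fun t : ℝ => C * ((1 + |t|) ^ 3 * Real.exp (-((2 / T) / 2 * |t|)))) (Ioi (0 : ℝ)) :=
    (LibPH.x06_dom (δ := 2 / T) (by positivity) 3 C).integrableOn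
  have hN : Integrable (fun ξ : ℝ => ‖nu T V u ξ‖) := (nu_integrable hT hV hVT hu).norm
  have hGN := Integrable.mul_prod hG hN
  have hFint : Integrable (Function.uncurry F) ((volume.restrict (Ioi (0 : ℝ))).prod volume) := by
    refine Integrable.mono' hGN hFc.aestronglyMeasurable ?_
    have hae : ∀ᵐ p : ℝ × ℝ ∂((volume.restrict (Ioi (0 : ℝ))).prod volume), p.1 ∈ Ioi (0 : ℝ) :=
      (Measure.quasiMeasurePreserving_fst (μ := volume.restrict (Ioi (0 : ℝ))) (ν := (volume : Measure ℝ))).ae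
        (ae_restrict_mem measurableSet_Ioi)
    filter_upwards [hae] with p hp
    have hp' : 0 < p.1 := hp
    show ‖LibPH.z21 p.1 * LibPH.tw n m p.1 * cexp (-(wq T p.2 * p.1)) * nu T V u p.2‖ ≤ _
    rw [norm_mul]
    exact mul_le_mul_of_nonneg_right (b05_norm hb m n p.2 p.1 hp') (norm_nonneg _)
  have hLL : ∀ ξ : ℝ, ∫ t in Ioi (0 : ℝ), F t ξ = LL m n T ξ * nu T V u ξ := by
    intro ξ
    rw [hF]
    simp only
    rw [integral_mul_const]
    rfl
  constructor
  · have h := hFint.integral_prod_right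
    refine h.congr (ae_of_all _ fun ξ => ?_)
    exact hLL ξ
  · have e1 : ∫ t in Ioi (0 : ℝ), LibPH.z21 t * LibPH.tw n m t * ((pg V u t : ℝ) : ℂ) =
        ∫ t in Ioi (0 : ℝ), ∫ ξ : ℝ, F t ξ := by
      refine integral_congr_ae (ae_of_all _ fun t => ?_)
      show LibPH.z21 t * LibPH.tw n m t * ((pg V u t : ℝ) : ℂ) = ∫ ξ : ℝ, F t ξ
      rw [← gauss_exp' T V u t hT0 hV, ← integral_const_mul]
      refine integral_congr_ae (ae_of_all _ fun ξ => ?_)
      rw [hF]
      simp only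
      ring
    rw [e1, integral_integral_swap hFint]
    exact integral_congr_ae (ae_of_all _ fun ξ => hLL ξ)

end Pool.Agent.LibSM47
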