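import Mathlib
import Pool.Agent.LibSM47.B_04
import Pool.Agent.LibSM47.B_05

/-! # SM47-B, B_06 (helper56): `II_exp`. -/

set_option autoImplicit false

namespace Pool.Agent.LibSM47

open MeasureTheory Set Filter Topology Complex ProbabilityTheory
open scoped NNReal ComplexConjugate

theorem b06_poly {a : ℝ} (ha : 0 < a) (x : ℝ) :
    (1 + |x|) ^ 3 ≤ 8 * (1 + 1 / (a / 3)) ^ 3 * Real.exp (a * x ^ 2) := by
  set c := a / 3 with hc
  have hc0 : 0 < c := by positivity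
  have h1 : 1 + |x| ≤ 2 * (1 + x ^ 2) := by
    rw [← sq_abs x]
    nlinarith [sq_nonneg (|x| - 1), abs_nonneg x, sq_nonneg |x|]
  have h2 : 1 + x ^ 2 ≤ (1 + 1 / c) * Real.exp (c * x ^ 2) := by
    have h3 := Real.add_one_le_exp (c * x ^ 2)
    have h4 : (1 + 1 / c) * (c * x ^ 2 + 1) ≤ (1 + 1 / c) * Real.exp (c * x ^ 2) := by gcongr
    have h5 : (1 + 1 / c) * (c * x ^ 2 + 1) = 1 + x ^ 2 + c * x ^ 2 + 1 / c := by
      field_simp
      ring
    have h6 : 0 ≤ c * x ^ 2 := by positivity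
    have h7 : 0 < 1 / c := by positivity
    linarith
  have h3 : 1 + |x| ≤ 2 * ((1 + 1 / c) * Real.exp (c * x ^ 2)) := by linarith
  refine (pow_le_pow_left₀ (by positivity) h3 3).trans (le_of_eq ?_)
  rw [mul_pow, mul_pow, ← Real.exp_nat_mul]
  have : ((3 : ℕ) : ℝ) * (c * x ^ 2) = a * x ^ 2 := by
    rw [hc]
    push_cast
    ring
  rw [this]
  ring

theorem b06_int {V : ℝ} (hV : 0 < V) (u : ℝ) (m n : ℕ) :
    Integrable (fun t : ℝ => LibPH.z21 t * LibPH.tw n m t * ((pg V u t : ℝ) : ℂ)) := by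
  obtain ⟨C, hC, hz⟩ := LibPH.x06_z21_bd
  set a := 1 / (4 * V ^ 2) with ha
  have ha0 : 0 < a := by positivity
  have hg : Integrable (fun t : ℝ => Real.exp (-(a * (t - u) ^ 2))) := (gauss_int ha0).comp_sub_right u
  refine Integrable.mono' (hg.const_mul (C * (1 + |u|) ^ 3 * (8 * (1 + 1 / (a / 3)) ^ 3) * V⁻¹)) ?_ ?_
  · refine Continuous.aestronglyMeasurable ?_
    exact (LibPH.x06_z21_cont.mul (LibPH.x06_tw_cont n m)).mul (Complex.continuous_ofReal.comp (pg_cont V u))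
  · refine ae_of_all _ fun t => ?_
    rw [norm_mul, norm_mul, LibPH.x06_tw_norm, mul_one, Complex.norm_real, Real.norm_of_nonneg (pg_pos hV u t).le]
    have h1 : 1 + |t| ≤ (1 + |u|) * (1 + |t - u|) := by
      have h2 : |t| ≤ |u| + |t - u| := by
        have := abs_add_le u (t - u)
        simpa using this
      nlinarith [abs_nonneg u, abs_nonneg (t - u)]
    have h3 : (1 + |t|) ^ 3 ≤ (1 + |u|) ^ 3 * (8 * (1 + 1 / (a / 3)) ^ 3 * Real.exp (a * (t - u) ^ 2)) := by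
      refine (pow_le_pow_left₀ (by positivity) h1 3).trans ?_
      rw [mul_pow]
      have := b06_poly ha0 (t - u)
      gcongr
    calc ‖LibPH.z21 t‖ * pg V u t
        ≤ (C * ((1 + |u|) ^ 3 * (8 * (1 + 1 / (a / 3)) ^ 3 * Real.exp (a * (t - u) ^ 2)))) *
            (V⁻¹ * Real.exp (-((t - u) ^ 2 / (2 * V ^ 2)))) := by
          refine mul_le_mul ((hz t).trans ?_) (pg_le hV u t) (pg_pos hV u t).le (by positivity)
          gcongr
      _ = C * (1 + |u|) ^ 3 * (8 * (1 + 1 / (a / 3)) ^ 3) * V⁻¹ *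
            (Real.exp (a * (t - u) ^ 2) * Real.exp (-((t - u) ^ 2 / (2 * V ^ 2)))) := by ring
      _ = _ := by
          rw [← Real.exp_add]
          congr 2
          rw [ha]
          field_simp
          ring

/-- G2. The twisted third moment as a mixture of Laplace transforms. -/
theorem II_exp (ε₁ δ : ℝ) (hε1 : 0 < ε₁) (hδ : 0 < δ) (hδ1 : δ ≤ 1 / 10) :
    ∃ T₀ : ℝ, ∀ T : ℝ, T₀ ≤ T → ∀ u : ℝ, ε₁ * T ≤ u → u ≤ T → ∀ m n : ℕ, 1 ≤ m → 1 ≤ n →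
      ‖II (T ^ (1 - δ)) u m n - ∫ ξ in Icc (-(1 / 4) : ℝ) (1 / 4),
        (∫ t in Ioi (0 : ℝ), LibPH.z21 t * LibPH.tw n m t * cexp (-(wq T ξ * t))) * nu T (T ^ (1 - δ)) u ξ‖ ≤ T ^ (-2 : ℝ) := by
  obtain ⟨T1, hT1⟩ := II_left ε₁ δ hε1 hδ hδ1
  obtain ⟨C, hC, hLL⟩ := LL_bd
  obtain ⟨T2, hT2, hexp⟩ := exp_small (4 * C) 4 (1 / 64) (2 * (1 - δ)) 3 (by norm_num) (by linarith)
  refine ⟨max T1 (max T2 2), fun T hT u hu1 hu2 m n _ _ => ?_⟩
  have hTa : T1 ≤ T := (le_max_left _ _).trans hT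
  have hTb : T2 ≤ T := (le_max_left _ _).trans ((le_max_right _ _).trans hT)
  have hTc : 2 ≤ T := (le_max_right _ _).trans ((le_max_right _ _).trans hT)
  have hT1' : 1 ≤ T := by linarith
  have hT0 : 0 < T := by linarith
  have hV0 : 0 < T ^ (1 - δ) := Real.rpow_pos_of_pos hT0 _
  have hV1 : 1 ≤ T ^ (1 - δ) := Real.one_le_rpow hT1' (by linarith)
  have hVT : T ^ (1 - δ) ≤ T := by
    calc T ^ (1 - δ) ≤ T ^ (1 : ℝ) := Real.rpow_le_rpow_of_exponent_le hT1' (by linarith)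
      _ = T := Real.rpow_one T
  have hV2 : (T ^ (1 - δ)) ^ 2 = T ^ (2 * (1 - δ)) := by
    rw [← Real.rpow_natCast, ← Real.rpow_mul hT0.le]
    congr 1
    push_cast
    ring
  obtain ⟨hI1, hI2⟩ := II_right hT1' hV0 hVT hu2 m n
  have hL := hT1 T hTa u hu1 hu2 m n
  have hint := b06_int hV0 u m n
  have e1 : II (T ^ (1 - δ)) u m n = (∫ t in Iic (0 : ℝ), LibPH.z21 t * LibPH.tw n m t * ((pg (T ^ (1 - δ)) u t : ℝ) : ℂ)) +
      ∫ t in Ioi (0 : ℝ), LibPH.z21 t * LibPH.tw n m t * ((pg (T ^ (1 - δ)) u t : ℝ) : ℂ) := by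
    unfold II
    rw [int_gam hV0]
    exact (intervalIntegral.integral_Iic_add_Ioi hint.integrableOn hint.integrableOn).symm
  have e2 : ∫ ξ : ℝ, LL m n T ξ * nu T (T ^ (1 - δ)) u ξ =
      (∫ ξ in Icc (-(1 / 4) : ℝ) (1 / 4), LL m n T ξ * nu T (T ^ (1 - δ)) u ξ) +
      ∫ ξ in (Icc (-(1 / 4) : ℝ) (1 / 4))ᶜ, LL m n T ξ * nu T (T ^ (1 - δ)) u ξ :=
    (integral_add_compl measurableSet_Icc hI1).symm
  have e3 : (∫ ξ in Icc (-(1 / 4) : ℝ) (1 / 4),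
        (∫ t in Ioi (0 : ℝ), LibPH.z21 t * LibPH.tw n m t * cexp (-(wq T ξ * t))) * nu T (T ^ (1 - δ)) u ξ) =
      ∫ ξ in Icc (-(1 / 4) : ℝ) (1 / 4), LL m n T ξ * nu T (T ^ (1 - δ)) u ξ := rfl
  rw [e3, e1, hI2, e2]
  have e4 : ∀ a b c : ℂ, a + (b + c) - b = a + c := fun a b c => by ring
  rw [e4]
  have hR := nu_tail (F := LL m n T) (M := C * T ^ 4) hT1' hV1 hVT hu2 (by positivity) (fun ξ _ => hLL T hT1' m n ξ)
  have hR2 : 4 * (C * T ^ 4) * Real.exp (-((T ^ (1 - δ)) ^ 2 / 64)) ≤ T ^ (-3 : ℝ) := by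
    refine le_trans (le_of_eq ?_) (hexp T hTb)
    rw [hV2]
    have : T ^ (4 : ℝ) = T ^ 4 := by
      rw [← Real.rpow_natCast]
      norm_num
    rw [this]
    have h2 : -(T ^ (2 * (1 - δ)) / 64) = -(1 / 64 * T ^ (2 * (1 - δ))) := by ring
    rw [h2]
    ring
  have h5 : T ^ (-3 : ℝ) + T ^ (-3 : ℝ) ≤ T ^ (-2 : ℝ) := by
    have h6 : T ^ (-2 : ℝ) = T ^ (-3 : ℝ) * T := by
      rw [← Real.rpow_add_one hT0.ne']
      norm_num
    rw [h6]
    have : 0 < T ^ (-3 : ℝ) := Real.rpow_pos_of_pos hT0 _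
    nlinarith
  exact (norm_add_le _ _).trans ((add_le_add hL (hR.trans hR2)).trans h5)

end Pool.Agent.LibSM47
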