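import Mathlib
import Pool.Agent.LibSM47.B_02
import Pool.Agent.LibPH.W02

/-! # SM47-B, B_07: `Γ(1+s) ∫ w^{-(1+s)} ν = ∫_{t>0} t^s pg` (Fubini).

PLAN. `LibPH.w02_rot` with `s + 1` in place of `s`: `∫_{t>0} t^s e^{-zt} dt = (1/z)^(1+s) Γ(1+s)`, and
`LibPH.x02_inv_cpow`: `(1/z)^s = z^(-s)` for `Re z > 0` (file LibPH/X02).  So
`Γ(1+s) w^{-(1+s)} ν(ξ) = ∫_{t>0} t^s e^{-wt} ν(ξ) dt`; product integrability: `‖..‖ ≤ t^{Re s} e^{-t/T} ‖ν(ξ)‖`, `Re s ≥ -1/4`
(`LibPH.w02_int`, `Complex.norm_cpow_eq_rpow_re_of_pos`), `integral_integral_swap`, then `gauss_exp'` (B_01) inside.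
Compare `LibPH.w02_prod`, `LibPH.w02_sup`, which do the same with another weight.
Integrability of `w^{-(1+s)} ν`: `‖w‖ ≥ 1/T`, so `‖w^{-(1+s)}‖` is bounded (`Complex.norm_cpow_le` / `LibPH.cpow_bd` in X07 /
`Complex.norm_cpow_of_ne_zero`, `|arg w| ≤ π/2`) and measurable (continuous in `ξ`, `wq T ξ` in the slit plane); or divide the
Fubini statement by `Γ(1+s) ≠ 0`. -/

set_option autoImplicit false

namespace Pool.Agent.LibSM47

open MeasureTheory Set Filter Topology Complex ProbabilityTheory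
open scoped NNReal ComplexConjugate

private theorem b07_re {s : ℂ} (hs : ‖s‖ ≤ 1 / 4) : -(1 / 4) ≤ s.re ∧ s.re ≤ 1 / 4 := by
  have h := Complex.abs_re_le_norm s
  rw [abs_le] at h
  constructor <;> linarith

private theorem b07_L {s z : ℂ} (hs : -1 < s.re) (hz : 0 < z.re) :
    ∫ t in Ioi (0:ℝ), (t : ℂ) ^ s * cexp (-(z * t)) = z ^ (-(1 + s)) * Complex.Gamma (1 + s) := by
  have h1 : (0:ℝ) < (1 + s).re := by
    rw [Complex.add_re, Complex.one_re]
    linarith
  have h2 := Pool.Agent.LibPH.w02_rot h1 hz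
  have h3 : z ∈ Complex.slitPlane := Or.inl hz
  rw [one_div, Complex.inv_cpow _ _ (Complex.mem_slitPlane_iff_arg.1 h3).1, ← Complex.cpow_neg] at h2
  rw [← h2]
  simp only [add_sub_cancel_left]

private theorem b07_prod {T V u : ℝ} (hT : 1 ≤ T) (hV : 0 < V) (hVT : V ≤ T) (hu : u ≤ T) {s : ℂ}
    (hs : -1 < s.re) :
    Integrable (fun p : ℝ × ℝ => nu T V u p.1 * ((p.2 : ℂ) ^ s * cexp (-(wq T p.1 * p.2))))
      (volume.prod (volume.restrict (Ioi (0:ℝ)))) := by
  have hT0 : 0 < T := by linarith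
  have h1 : Integrable (fun p : ℝ × ℝ => ‖nu T V u p.1‖ * (p.2 ^ s.re * Real.exp (-(1 / T * p.2))))
      (volume.prod (volume.restrict (Ioi (0:ℝ)))) :=
    (nu_integrable hT hV hVT hu).norm.mul_prod
      (Pool.Agent.LibPH.w02_int s.re hs (1 / T) (by positivity))
  refine Integrable.mono' h1 ?_ ?_
  · refine Measurable.aestronglyMeasurable ?_
    refine ((nu_cont T V u).measurable.comp measurable_fst).mul (Measurable.mul ?_ ?_)
    · exact (Complex.measurable_ofReal.comp measurable_snd).pow_const s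
    · refine Complex.measurable_exp.comp (Measurable.neg ?_)
      exact ((wq_cont T).measurable.comp measurable_fst).mul
        (Complex.measurable_ofReal.comp measurable_snd)
  · have h2 : ∀ᵐ p : ℝ × ℝ ∂(volume.prod (volume.restrict (Ioi (0:ℝ)))), 0 < p.2 := by
      have h3 : (volume : Measure ℝ).prod (volume.restrict (Ioi (0:ℝ))) =
          (volume.prod volume).restrict (univ ×ˢ Ioi (0:ℝ)) := by
        rw [← Measure.prod_restrict, Measure.restrict_univ]
      rw [h3, ae_restrict_iff' (MeasurableSet.univ.prod measurableSet_Ioi)]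
      exact Eventually.of_forall fun p hp => hp.2
    filter_upwards [h2] with p hp
    rw [norm_mul, norm_mul, Complex.norm_cpow_eq_rpow_re_of_pos hp, Complex.norm_exp,
      Complex.neg_re, Complex.re_mul_ofReal, wq_re]

theorem K1_swap {T V u : ℝ} (hT : 1 ≤ T) (hV : 0 < V) (hVT : V ≤ T) (hu : u ≤ T) {s : ℂ} (hs : ‖s‖ ≤ 1 / 4) :
    Integrable (fun ξ : ℝ => (wq T ξ) ^ (-(1 + s)) * nu T V u ξ) ∧
    Complex.Gamma (1 + s) * (∫ ξ : ℝ, (wq T ξ) ^ (-(1 + s)) * nu T V u ξ) =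
      ∫ t in Ioi (0 : ℝ), (t : ℂ) ^ s * ((pg V u t : ℝ) : ℂ) := by
  have hT0 : 0 < T := by linarith
  have hs1 : -1 < s.re := by linarith [(b07_re hs).1]
  have hG : Complex.Gamma (1 + s) ≠ 0 := by
    apply Complex.Gamma_ne_zero_of_re_pos
    rw [Complex.add_re, Complex.one_re]
    linarith
  have hprod := b07_prod hT hV hVT hu hs1
  have hin : ∀ ξ : ℝ, ∫ t in Ioi (0:ℝ), nu T V u ξ * ((t : ℂ) ^ s * cexp (-(wq T ξ * t))) =
      Complex.Gamma (1 + s) * ((wq T ξ) ^ (-(1 + s)) * nu T V u ξ) := by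
    intro ξ
    rw [integral_const_mul, b07_L hs1 (by rw [wq_re]; positivity)]
    ring
  have h1 : Integrable (fun ξ : ℝ => Complex.Gamma (1 + s) * ((wq T ξ) ^ (-(1 + s)) * nu T V u ξ)) := by
    have h2 := hprod.integral_prod_left
    refine h2.congr (Eventually.of_forall fun ξ => ?_)
    exact hin ξ
  constructor
  · have h2 := h1.const_mul (Complex.Gamma (1 + s))⁻¹
    refine h2.congr (Eventually.of_forall fun ξ => ?_)
    simp only
    rw [← mul_assoc, inv_mul_cancel₀ hG, one_mul]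
  · have hsw := integral_integral_swap (μ := volume) (ν := volume.restrict (Ioi (0:ℝ)))
      (f := fun ξ t : ℝ => nu T V u ξ * ((t : ℂ) ^ s * cexp (-(wq T ξ * t)))) hprod
    rw [integral_congr_ae (Eventually.of_forall hin), integral_const_mul] at hsw
    rw [hsw]
    refine setIntegral_congr_fun measurableSet_Ioi fun t _ => ?_
    have h3 : ∀ ξ : ℝ, nu T V u ξ * ((t : ℂ) ^ s * cexp (-(wq T ξ * t))) =
        (t : ℂ) ^ s * (cexp (-(wq T ξ * t)) * nu T V u ξ) := fun ξ => by ring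
    simp only [h3]
    rw [integral_const_mul, gauss_exp' T V u t hT0 hV]

/-- for the tail `|ξ| ≥ 1/4` -/
theorem K1_far {T : ℝ} (hT : 1 ≤ T) {s : ℂ} (hs : ‖s‖ ≤ 1 / 4) {ξ : ℝ} (hξ : 1 / 4 ≤ |ξ|) :
    ‖(wq T ξ) ^ (-(1 + s))‖ ≤ 10 := by
  have hT0 : 0 < T := by linarith
  obtain ⟨hs1, hs2⟩ := b07_re hs
  set z : ℂ := wq T ξ with hz
  have hzre : 0 < z.re := by
    rw [hz, wq_re]
    positivity
  have hz0 : z ≠ 0 := by
    intro h
    rw [h] at hzre
    simp at hzre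
  have hzn : 1 / 4 ≤ ‖z‖ := by
    have h1 := Complex.abs_im_le_norm z
    rw [hz, wq_im, abs_neg, ← hz] at h1
    linarith
  have harg : |z.arg| < Real.pi / 2 := Complex.abs_arg_lt_pi_div_two_iff.2 (Or.inl hzre)
  have him : |s.im| ≤ 1 / 4 := (Complex.abs_im_le_norm s).trans hs
  rw [Complex.norm_cpow_of_ne_zero hz0]
  have e1 : (-(1 + s)).re = -(1 + s.re) := by simp
  have e2 : (-(1 + s)).im = -s.im := by simp
  rw [e1, e2, div_eq_mul_inv, ← Real.exp_neg]
  have h1 : ‖z‖ ^ (-(1 + s.re)) ≤ 5.66 := by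
    have h2 : ‖z‖ ^ (-(1 + s.re)) ≤ (1 / 4 : ℝ) ^ (-(1 + s.re)) :=
      Real.rpow_le_rpow_of_nonpos (by norm_num) hzn (by linarith)
    have h3 : (1 / 4 : ℝ) ^ (-(1 + s.re)) = (4 : ℝ) ^ (1 + s.re) := by
      rw [one_div, Real.inv_rpow (by norm_num), Real.rpow_neg (by norm_num), inv_inv]
    have h4 : (4 : ℝ) ^ (1 + s.re) ≤ (4 : ℝ) ^ (5 / 4 : ℝ) :=
      Real.rpow_le_rpow_of_exponent_le (by norm_num) (by linarith)
    have h5 : (4 : ℝ) ^ (5 / 4 : ℝ) ≤ 5.66 := by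
      have h6 : ((4 : ℝ) ^ (5 / 4 : ℝ)) ^ 4 = 1024 := by
        rw [← Real.rpow_natCast, ← Real.rpow_mul (by norm_num)]
        have : (5 / 4 : ℝ) * ((4 : ℕ) : ℝ) = ((5 : ℕ) : ℝ) := by norm_num
        rw [this, Real.rpow_natCast]
        norm_num
      refine le_of_pow_le_pow_left₀ (n := 4) (by norm_num) (by norm_num) ?_
      rw [h6]
      norm_num
    linarith
  have h2 : Real.exp (-(z.arg * -s.im)) ≤ 1.5 := by
    have h3 : -(z.arg * -s.im) ≤ 2 / 5 := by
      have h4 : |z.arg * s.im| ≤ Real.pi / 2 * (1 / 4) := by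
        rw [abs_mul]
        exact mul_le_mul harg.le him (abs_nonneg _) (by positivity)
      have h5 := (abs_le.1 h4).2
      have h6 : Real.pi ≤ 3.15 := by linarith [Real.pi_lt_d2]
      linarith
    have h4 : Real.exp (2 / 5) ≤ 1.5 := by
      refine le_of_pow_le_pow_left₀ (n := 5) (by norm_num) (by norm_num) ?_
      rw [← Real.exp_nat_mul]
      have h5 : ((5 : ℕ) : ℝ) * (2 / 5) = 1 + 1 := by norm_num
      rw [h5, Real.exp_add]
      have h6 : Real.exp 1 < 2.7182818286 := Real.exp_one_lt_d9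
      have h7 : 0 < Real.exp 1 := Real.exp_pos 1
      nlinarith
    exact (Real.exp_le_exp.2 h3).trans h4
  calc ‖z‖ ^ (-(1 + s.re)) * Real.exp (-(z.arg * -s.im)) ≤ 5.66 * 1.5 :=
        mul_le_mul h1 h2 (Real.exp_pos _).le (by norm_num)
    _ ≤ 10 := by norm_num

end Pool.Agent.LibSM47
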