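import Mathlib

/-! # SM47-B, B_08: two elementary inequalities (ONLY MATHLIB).

PLAN. `cpow_sub_one`: for `x ≥ 1`: `‖x^s - 1‖ = ‖∫_1^x s y^{s-1} dy‖ ≤ ‖s‖ (x-1)` since `y^{Re s - 1} ≤ 1` (mean value inequality
`Convex.norm_image_sub_le_of_norm_deriv_le` for `y ↦ (y:ℂ)^s` on `[1,x]`, derivative `s y^{s-1}`: `HasDerivAt.ofReal_cpow_const`
or `hasDerivAt_ofReal_cpow_const`); for `1/2 ≤ x < 1`: `y^{Re s - 1} ≤ 2^{5/4} ≤ 4`, so `≤ ‖s‖·4·(1-x) ≤ |x-1|`; for `0 < x < 1/2`: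
`‖x^s‖ = x^{Re s} ≤ x^{-1/4}`, `1 ≤ x^{-1/4}`, so `≤ 2 x^{-1/4} ≤ 4 |x-1| x^{-1/4}`. -/

set_option autoImplicit false

namespace Pool.Agent.LibSM47

open Set Filter Topology Complex

theorem cpow_sub_one {x : ℝ} (hx : 0 < x) {s : ℂ} (hs : ‖s‖ ≤ 1 / 4) :
    ‖(x : ℂ) ^ s - 1‖ ≤ 4 * |x - 1| * (1 + x ^ (-(1 / 4) : ℝ)) := by
  have hx0 : (x : ℂ) ≠ 0 := by exact_mod_cast hx.ne'
  have hs1 : |s.re| ≤ 1 / 4 := (Complex.abs_re_le_norm s).trans hs
  have hre := abs_le.1 hs1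
  have hq : 0 < x ^ (-(1 / 4) : ℝ) := Real.rpow_pos_of_pos hx _
  by_cases hx2 : x ≤ 1 / 2
  · have h1 : ‖(x : ℂ) ^ s‖ ≤ x ^ (-(1 / 4) : ℝ) := by
      rw [Complex.norm_cpow_eq_rpow_re_of_pos hx]
      exact Real.rpow_le_rpow_of_exponent_ge hx (by linarith) (by linarith [hre.1])
    have h2 : ‖(x : ℂ) ^ s - 1‖ ≤ x ^ (-(1 / 4) : ℝ) + 1 := by
      refine (norm_sub_le _ _).trans ?_
      rw [norm_one]
      linarith
    have h3 : |x - 1| = 1 - x := by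
      rw [abs_of_nonpos (by linarith)]
      ring
    rw [h3]
    nlinarith
  · push Not at hx2
    have he : (x : ℂ) ^ s = cexp (((Real.log x : ℝ) : ℂ) * s) := by
      rw [Complex.cpow_def_of_ne_zero hx0, Complex.ofReal_log hx.le]
    have h1 : ‖(x : ℂ) ^ s - 1‖ ≤ ‖((Real.log x : ℝ) : ℂ) * s‖ * Real.exp ‖((Real.log x : ℝ) : ℂ) * s‖ := by
      have h := Complex.norm_exp_sub_sum_le_norm_mul_exp (((Real.log x : ℝ) : ℂ) * s) 1
      simpa [he] using h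
    have h2 : ‖((Real.log x : ℝ) : ℂ) * s‖ ≤ |Real.log x| * (1 / 4) := by
      rw [norm_mul, Complex.norm_real, Real.norm_eq_abs]
      exact mul_le_mul_of_nonneg_left hs (abs_nonneg _)
    have h3 : ‖(x : ℂ) ^ s - 1‖ ≤ |Real.log x| * (1 / 4) * Real.exp (|Real.log x| * (1 / 4)) := by
      refine h1.trans ?_
      apply mul_le_mul h2 (Real.exp_le_exp.2 h2) (Real.exp_pos _).le
      positivity
    refine h3.trans ?_
    by_cases hx1 : 1 ≤ x
    · have hl : 0 ≤ Real.log x := Real.log_nonneg hx1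
      rw [abs_of_nonneg hl, abs_of_nonneg (by linarith)]
      set y := x ^ (1 / 4 : ℝ) with hy
      have hy1 : 1 ≤ y := Real.one_le_rpow hx1 (by norm_num)
      have e1 : Real.exp (Real.log x * (1 / 4)) = y := by
        rw [hy, Real.rpow_def_of_pos hx]
      have e2 : Real.log x * (1 / 4) ≤ y - 1 := by
        have h := Real.add_one_le_exp (Real.log x * (1 / 4))
        rw [e1] at h
        linarith
      have e3 : y ^ 4 = x := by
        rw [hy, ← Real.rpow_natCast, ← Real.rpow_mul hx.le]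
        norm_num
      rw [e1]
      have e4 : Real.log x * (1 / 4) * y ≤ (y - 1) * y := mul_le_mul_of_nonneg_right e2 (by linarith)
      have e5 : (y - 1) * y ≤ x - 1 := by
        rw [← e3]
        nlinarith [mul_nonneg (by linarith : (0 : ℝ) ≤ y - 1) (by nlinarith : (0 : ℝ) ≤ y ^ 3 + y ^ 2 + y + 1 - y)]
      nlinarith
    · push Not at hx1
      have hl : Real.log x ≤ 0 := Real.log_nonpos hx.le hx1.le
      rw [abs_of_nonpos hl, abs_of_nonpos (by linarith : x - 1 ≤ 0)]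
      have e1 : Real.exp (-Real.log x * (1 / 4)) = x ^ (-(1 / 4) : ℝ) := by
        rw [Real.rpow_def_of_pos hx]
        congr 1
        ring
      rw [e1]
      have e2 : -Real.log x ≤ 2 * (1 - x) := by
        have h := Real.log_le_sub_one_of_pos (inv_pos.2 hx)
        rw [Real.log_inv] at h
        have h4 : x⁻¹ - 1 ≤ 2 * (1 - x) := by
          have h5 : x⁻¹ - 1 = (1 - x) * x⁻¹ := by field_simp
          rw [h5]
          have h6 : x⁻¹ ≤ 2 := by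
            rw [inv_le_comm₀ hx (by norm_num)]
            linarith
          nlinarith
        linarith
      have e3 : -Real.log x * (1 / 4) * x ^ (-(1 / 4) : ℝ) ≤ 2 * (1 - x) * (1 / 4) * x ^ (-(1 / 4) : ℝ) := by
        gcongr
      nlinarith

/-- the same, scaled -/
theorem cpow_sub_cpow {t u : ℝ} (ht : 0 < t) (hu : 1 ≤ u) {s : ℂ} (hs : ‖s‖ ≤ 1 / 4) :
    ‖(t : ℂ) ^ s - (u : ℂ) ^ s‖ ≤ 4 * u ^ ‖s‖ * (|t - u| / u) * (1 + (t / u) ^ (-(1 / 4) : ℝ)) := by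
  have hu0 : 0 < u := by linarith
  have htu : 0 < t / u := div_pos ht hu0
  have h1 : (t : ℂ) ^ s = (u : ℂ) ^ s * ((t / u : ℝ) : ℂ) ^ s := by
    rw [← Complex.mul_cpow_ofReal_nonneg hu0.le htu.le]
    congr 1
    rw [← Complex.ofReal_mul]
    congr 1
    field_simp
  have h2 : (t : ℂ) ^ s - (u : ℂ) ^ s = (u : ℂ) ^ s * (((t / u : ℝ) : ℂ) ^ s - 1) := by
    rw [h1]
    ring
  have h3 : ‖(u : ℂ) ^ s‖ ≤ u ^ ‖s‖ := by
    rw [Complex.norm_cpow_eq_rpow_re_of_pos hu0]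
    exact Real.rpow_le_rpow_of_exponent_le hu (Complex.re_le_norm s)
  have h4 := cpow_sub_one htu hs
  have h5 : |t / u - 1| = |t - u| / u := by
    rw [← abs_of_pos hu0, ← abs_div, abs_of_pos hu0]
    congr 1
    field_simp
  rw [h5] at h4
  rw [h2, norm_mul]
  calc ‖(u : ℂ) ^ s‖ * ‖((t / u : ℝ) : ℂ) ^ s - 1‖
      ≤ u ^ ‖s‖ * (4 * (|t - u| / u) * (1 + (t / u) ^ (-(1 / 4) : ℝ))) := by
        apply mul_le_mul h3 h4 (norm_nonneg _) (Real.rpow_nonneg hu0.le _)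
    _ = 4 * u ^ ‖s‖ * (|t - u| / u) * (1 + (t / u) ^ (-(1 / 4) : ℝ)) := by ring

theorem sq_mul_exp_neg (x : ℝ) : x ^ 2 * Real.exp (-(x ^ 2 / 8)) ≤ 8 := by
  have h1 := Real.add_one_le_exp (x ^ 2 / 8)
  have h2 : Real.exp (x ^ 2 / 8) * Real.exp (-(x ^ 2 / 8)) = 1 := by
    rw [← Real.exp_add, add_neg_cancel, Real.exp_zero]
  have h3 : 0 < Real.exp (-(x ^ 2 / 8)) := Real.exp_pos _
  nlinarith

end Pool.Agent.LibSM47
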