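import Mathlib
import Pool.Agent.LibSM47.B_01
import Pool.Agent.LibSM47.B_08

/-! # SM47-B, B_09: `∫_{t>0} t^s pg = u^s + O(T^{|s| - δ})`.

PLAN. `V = T^(1-δ)`, `T ≥ T₀` with `ε₁ T ≥ 1`, `1 ≤ V`.  `∫_{t>0} t^s pg - u^s = ∫_{t>0} (t^s - u^s) pg - u^s ∫_{t≤0} pg` (`pg_integral`).
* `K1_abs`: `∫ |t-u| pg ≤ V`: `∫ |x| (√(2π)V)⁻¹ exp(-x²/(2V²)) dx = 2V/√(2π) ≤ V` (or Cauchy-Schwarz with the variance,
  `ProbabilityTheory.variance_fun_id_gaussianReal`, or `integral_rpow_mul_exp_neg_mul_rpow`-type lemmas).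
* `t ≤ 0`: `∫_{t≤0} pg ≤ ∫ (|t-u|/u) pg ≤ V/u`.
* `t ≥ u/2`: `cpow_sub_cpow` (B_08), `(t/u)^{-1/4} ≤ 2`: `‖t^s-u^s‖ ≤ 12 u^{‖s‖} |t-u|/u`.
* `0 < t < u/2`: `‖t^s-u^s‖ ≤ 4 u^{‖s‖} · 1 · 2 (t/u)^{-1/4}`, `pg ≤ V⁻¹ exp(-(u²/(8V²)))` (`pg_le`), `∫_0^{u/2} (t/u)^{-1/4} dt ≤ 2u`
  (`integral_rpow`), so this part is `≤ 16 u^{‖s‖} (u/V) exp(-(u²/(8V²))) ≤ 128 u^{‖s‖} V/u` (`sq_mul_exp_neg` with `x = u/V`).
* total `≤ 200 u^{‖s‖} V/u ≤ (200/ε₁) T^{‖s‖} T^{-δ}`. -/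

set_option autoImplicit false

namespace Pool.Agent.LibSM47

open MeasureTheory Set Filter Topology Complex ProbabilityTheory
open scoped NNReal ComplexConjugate

private theorem b09_sq_int {V : ℝ} (hV : 0 < V) (u : ℝ) : Integrable (fun t => (t - u) ^ 2 * pg V u t) := by
  have hb : 0 < 1 / (2 * V ^ 2) := by positivity
  have h := (integrable_rpow_mul_exp_neg_mul_sq hb (by norm_num : (-1 : ℝ) < 2)).comp_sub_right u
  have h2 := h.const_mul (√(2 * Real.pi) * V)⁻¹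
  refine h2.congr (ae_of_all _ fun t => ?_)
  simp only [Real.rpow_two]
  unfold pg
  have : -((t - u) ^ 2 / (2 * V ^ 2)) = -(1 / (2 * V ^ 2)) * (t - u) ^ 2 := by ring
  rw [this]
  ring

private theorem b09_var {V : ℝ} (hV : 0 < V) (u : ℝ) : ∫ t, (t - u) ^ 2 * pg V u t = V ^ 2 := by
  have hv : (⟨V ^ 2, sq_nonneg V⟩ : ℝ≥0) ≠ 0 := by
    intro h
    have := congrArg NNReal.toReal h
    change V ^ 2 = 0 at this
    nlinarith [pow_pos hV 2]
  have h := variance_fun_id_gaussianReal (μ := u) (v := ⟨V ^ 2, sq_nonneg V⟩)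
  rw [variance_eq_integral (by fun_prop)] at h
  simp only [integral_id_gaussianReal] at h
  rw [integral_gaussianReal_eq_integral_smul hv] at h
  change _ = V ^ 2 at h
  rw [← h]
  refine integral_congr_ae (ae_of_all _ fun t => ?_)
  simp only [smul_eq_mul]
  rw [pg_eq hV, mul_comm]

private theorem b09_le {V : ℝ} (hV : 0 < V) (x : ℝ) : |x| ≤ V / 2 + x ^ 2 / (2 * V) := by
  have h1 : 0 ≤ (|x| - V) ^ 2 / (2 * V) := by positivity
  have h2 : (|x| - V) ^ 2 / (2 * V) = x ^ 2 / (2 * V) - |x| + V / 2 := by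
    rw [sub_sq, sq_abs]
    field_simp
  linarith

theorem K1_abs {V : ℝ} (hV : 0 < V) (u : ℝ) : Integrable (fun t => |t - u| * pg V u t) ∧ ∫ t, |t - u| * pg V u t ≤ V := by
  have hI : Integrable (fun t => V / 2 * pg V u t + 1 / (2 * V) * ((t - u) ^ 2 * pg V u t)) :=
    ((pg_integrable hV u).const_mul _).add ((b09_sq_int hV u).const_mul _)
  have hpt : ∀ t, |t - u| * pg V u t ≤ V / 2 * pg V u t + 1 / (2 * V) * ((t - u) ^ 2 * pg V u t) := by
    intro t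
    have h := mul_le_mul_of_nonneg_right (b09_le hV (t - u)) (pg_pos hV u t).le
    calc _ ≤ _ := h
      _ = _ := by ring
  have hint : Integrable (fun t => |t - u| * pg V u t) := by
    refine hI.mono' ?_ (ae_of_all _ fun t => ?_)
    · exact ((by fun_prop : Continuous fun t : ℝ => |t - u|).mul (pg_cont V u)).aestronglyMeasurable
    · rw [Real.norm_of_nonneg (mul_nonneg (abs_nonneg _) (pg_pos hV u t).le)]
      exact hpt t
  refine ⟨hint, ?_⟩
  calc ∫ t, |t - u| * pg V u t ≤ ∫ t, (V / 2 * pg V u t + 1 / (2 * V) * ((t - u) ^ 2 * pg V u t)) :=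
        integral_mono hint hI hpt
    _ = V / 2 * 1 + 1 / (2 * V) * V ^ 2 := by
        rw [integral_add ((pg_integrable hV u).const_mul _) ((b09_sq_int hV u).const_mul _), integral_const_mul,
          integral_const_mul, pg_integral hV u, b09_var hV u]
    _ = V := by field_simp; ring

/-- the pointwise bound -/
private theorem b09_pt {V u t : ℝ} (hV : 0 < V) (hu : 1 ≤ u) (ht : 0 < t) {s : ℂ} (hs : ‖s‖ ≤ 1 / 4) :
    ‖((t : ℂ) ^ s - (u : ℂ) ^ s) * ((pg V u t : ℝ) : ℂ)‖ ≤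
      12 * u ^ ‖s‖ / u * (|t - u| * pg V u t) +
        (Ioc 0 (u / 2)).indicator (fun t => 8 * u ^ ‖s‖ * (V⁻¹ * Real.exp (-(u ^ 2 / (8 * V ^ 2)))) *
          (u ^ (1 / 4 : ℝ) * t ^ (-(1 / 4) : ℝ))) t := by
  have hu0 : 0 < u := by linarith
  have hp := pg_pos hV u t
  rw [norm_mul, Complex.norm_real, Real.norm_of_nonneg hp.le]
  have hB := cpow_sub_cpow ht hu hs
  have hU : 0 < u ^ ‖s‖ := Real.rpow_pos_of_pos hu0 _
  by_cases h : t ≤ u / 2
  · rw [Set.indicator_of_mem (show t ∈ Ioc 0 (u / 2) from ⟨ht, h⟩)]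
    have h1 : |t - u| / u ≤ 1 := by
      rw [div_le_one hu0, abs_le]
      constructor <;> linarith
    have h2 : (1 : ℝ) ≤ (t / u) ^ (-(1 / 4) : ℝ) := by
      apply Real.one_le_rpow_of_pos_of_le_one_of_nonpos (by positivity)
      · rw [div_le_one hu0]; linarith
      · norm_num
    have h3 : (t / u) ^ (-(1 / 4) : ℝ) = u ^ (1 / 4 : ℝ) * t ^ (-(1 / 4) : ℝ) := by
      rw [Real.div_rpow ht.le hu0.le, Real.rpow_neg hu0.le (1 / 4)]
      rw [div_inv_eq_mul, mul_comm]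
    have h4 : pg V u t ≤ V⁻¹ * Real.exp (-(u ^ 2 / (8 * V ^ 2))) := by
      refine (pg_le hV u t).trans ?_
      apply mul_le_mul_of_nonneg_left _ (by positivity)
      apply Real.exp_le_exp.2
      rw [neg_le_neg_iff, div_le_div_iff₀ (by positivity) (by positivity)]
      have : u ^ 2 ≤ 4 * (t - u) ^ 2 := by nlinarith
      nlinarith [pow_pos hV 2]
    have h5 : ‖(t : ℂ) ^ s - (u : ℂ) ^ s‖ ≤ 8 * u ^ ‖s‖ * (u ^ (1 / 4 : ℝ) * t ^ (-(1 / 4) : ℝ)) := by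
      rw [← h3]
      refine hB.trans ?_
      have e1 : 4 * u ^ ‖s‖ * (|t - u| / u) ≤ 4 * u ^ ‖s‖ := by
        have := mul_le_mul_of_nonneg_left h1 (by positivity : 0 ≤ 4 * u ^ ‖s‖)
        linarith
      calc 4 * u ^ ‖s‖ * (|t - u| / u) * (1 + (t / u) ^ (-(1 / 4) : ℝ)) ≤
            4 * u ^ ‖s‖ * (1 + (t / u) ^ (-(1 / 4) : ℝ)) :=
            mul_le_mul_of_nonneg_right e1 (by linarith)
        _ ≤ 4 * u ^ ‖s‖ * (2 * (t / u) ^ (-(1 / 4) : ℝ)) := mul_le_mul_of_nonneg_left (by linarith) (by positivity)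
        _ = _ := by ring
    have h6 : 0 ≤ 12 * u ^ ‖s‖ / u * (|t - u| * pg V u t) := by positivity
    calc ‖(t : ℂ) ^ s - (u : ℂ) ^ s‖ * pg V u t ≤
          (8 * u ^ ‖s‖ * (u ^ (1 / 4 : ℝ) * t ^ (-(1 / 4) : ℝ))) * (V⁻¹ * Real.exp (-(u ^ 2 / (8 * V ^ 2)))) :=
          mul_le_mul h5 h4 hp.le (by positivity)
      _ = 8 * u ^ ‖s‖ * (V⁻¹ * Real.exp (-(u ^ 2 / (8 * V ^ 2)))) * (u ^ (1 / 4 : ℝ) * t ^ (-(1 / 4) : ℝ)) := by ring
      _ ≤ _ := by linarith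
  · rw [Set.indicator_of_notMem (fun h' => h h'.2), add_zero]
    push Not at h
    have h1 : (t / u) ^ (-(1 / 4) : ℝ) ≤ 2 := by
      have e1 : (t / u) ^ (-(1 / 4) : ℝ) ≤ (1 / 2 : ℝ) ^ (-(1 / 4) : ℝ) := by
        apply Real.rpow_le_rpow_of_nonpos (by norm_num)
        · rw [le_div_iff₀ hu0]; linarith
        · norm_num
      have e2 : (1 / 2 : ℝ) ^ (-(1 / 4) : ℝ) ≤ (1 / 2 : ℝ) ^ (-1 : ℝ) :=
        Real.rpow_le_rpow_of_exponent_ge (by norm_num) (by norm_num) (by norm_num)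
      have e3 : (1 / 2 : ℝ) ^ (-1 : ℝ) = 2 := by
        rw [Real.rpow_neg_one]; norm_num
      linarith
    have h2 : ‖(t : ℂ) ^ s - (u : ℂ) ^ s‖ ≤ 12 * u ^ ‖s‖ / u * |t - u| := by
      refine hB.trans ?_
      have e4 : 0 ≤ 4 * u ^ ‖s‖ * (|t - u| / u) := by positivity
      calc 4 * u ^ ‖s‖ * (|t - u| / u) * (1 + (t / u) ^ (-(1 / 4) : ℝ)) ≤ 4 * u ^ ‖s‖ * (|t - u| / u) * 3 :=
            mul_le_mul_of_nonneg_left (by linarith) e4
        _ = _ := by ring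
    calc ‖(t : ℂ) ^ s - (u : ℂ) ^ s‖ * pg V u t ≤ (12 * u ^ ‖s‖ / u * |t - u|) * pg V u t :=
          mul_le_mul_of_nonneg_right h2 hp.le
      _ = _ := by ring

private theorem b09_cpow_norm {u : ℝ} (hu : 1 ≤ u) (s : ℂ) : ‖(u : ℂ) ^ s‖ ≤ u ^ ‖s‖ := by
  rw [Complex.norm_cpow_eq_rpow_re_of_pos (by linarith)]
  exact Real.rpow_le_rpow_of_exponent_le hu ((le_abs_self _).trans (Complex.abs_re_le_norm s))

private theorem b09_small {u : ℝ} (hu : 0 < u) :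
    IntegrableOn (fun t : ℝ => t ^ (-(1 / 4) : ℝ)) (Ioc 0 (u / 2)) ∧
      u ^ (1 / 4 : ℝ) * ∫ t in Ioc 0 (u / 2), t ^ (-(1 / 4) : ℝ) ≤ 2 * u := by
  have h0 : (0 : ℝ) ≤ u / 2 := by linarith
  have h1 : IntervalIntegrable (fun t : ℝ => t ^ (-(1 / 4) : ℝ)) volume 0 (u / 2) :=
    intervalIntegral.intervalIntegrable_rpow' (by norm_num)
  refine ⟨(intervalIntegrable_iff_integrableOn_Ioc_of_le h0).1 h1, ?_⟩
  rw [← intervalIntegral.integral_of_le h0, integral_rpow (Or.inl (by norm_num))]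
  have e : (-(1 / 4) + 1 : ℝ) = 3 / 4 := by norm_num
  rw [e, Real.zero_rpow (by norm_num), sub_zero]
  have h2 : (u / 2) ^ (3 / 4 : ℝ) ≤ u ^ (3 / 4 : ℝ) := Real.rpow_le_rpow h0 (by linarith) (by norm_num)
  have h3 : u ^ (1 / 4 : ℝ) * u ^ (3 / 4 : ℝ) = u := by
    rw [← Real.rpow_add hu]; norm_num
  have h4 : 0 < u ^ (1 / 4 : ℝ) := Real.rpow_pos_of_pos hu _
  calc u ^ (1 / 4 : ℝ) * ((u / 2) ^ (3 / 4 : ℝ) / (3 / 4)) ≤ u ^ (1 / 4 : ℝ) * (u ^ (3 / 4 : ℝ) / (3 / 4)) := by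
        apply mul_le_mul_of_nonneg_left _ h4.le
        apply div_le_div_of_nonneg_right h2 (by norm_num)
    _ = (u ^ (1 / 4 : ℝ) * u ^ (3 / 4 : ℝ)) / (3 / 4) := by ring
    _ = u / (3 / 4) := by rw [h3]
    _ ≤ 2 * u := by rw [div_le_iff₀ (by norm_num)]; linarith

theorem K1_mom (ε₁ δ : ℝ) (hε1 : 0 < ε₁) (hδ : 0 < δ) (hδ1 : δ ≤ 1 / 10) :
    ∃ C T₀ : ℝ, 0 < C ∧ ∀ T : ℝ, T₀ ≤ T → ∀ u : ℝ, ε₁ * T ≤ u → u ≤ T → ∀ s : ℂ, ‖s‖ ≤ 1 / 4 →
      ‖(∫ t in Ioi (0 : ℝ), (t : ℂ) ^ s * ((pg (T ^ (1 - δ)) u t : ℝ) : ℂ)) - (u : ℂ) ^ s‖ ≤ C * T ^ (‖s‖ - δ) := by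
  refine ⟨200 / ε₁, max 1 (1 / ε₁), by positivity, ?_⟩
  intro T hT u hu1 hu2 s hs
  have hT1 : 1 ≤ T := (le_max_left _ _).trans hT
  have hT0 : 0 < T := by linarith
  have hTe : 1 ≤ ε₁ * T := by
    have := (le_max_right _ _).trans hT
    rw [div_le_iff₀ hε1] at this
    linarith
  have hu : 1 ≤ u := hTe.trans hu1
  have hu0 : 0 < u := by linarith
  set V : ℝ := T ^ (1 - δ) with hVdef
  have hV : 0 < V := Real.rpow_pos_of_pos hT0 _
  have hU : 0 < u ^ ‖s‖ := Real.rpow_pos_of_pos hu0 _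
  obtain ⟨hA1, hA2⟩ := K1_abs hV u
  obtain ⟨hS1, hS2⟩ := b09_small hu0
  set G : ℝ → ℂ := fun t => ((t : ℂ) ^ s - (u : ℂ) ^ s) * ((pg V u t : ℝ) : ℂ) with hG
  set F1 : ℝ → ℝ := fun t => 12 * u ^ ‖s‖ / u * (|t - u| * pg V u t) with hF1
  set E : ℝ := 8 * u ^ ‖s‖ * (V⁻¹ * Real.exp (-(u ^ 2 / (8 * V ^ 2)))) with hE
  set F2 : ℝ → ℝ := (Ioc 0 (u / 2)).indicator (fun t => E * (u ^ (1 / 4 : ℝ) * t ^ (-(1 / 4) : ℝ))) with hF2
  have hE0 : 0 ≤ E := by positivity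
  have hpt : ∀ t ∈ Ioi (0 : ℝ), ‖G t‖ ≤ F1 t + F2 t := fun t ht => b09_pt hV hu ht hs
  have hF1i : Integrable F1 := hA1.const_mul _
  have hF2i : Integrable F2 := by
    rw [hF2, integrable_indicator_iff measurableSet_Ioc]
    exact (hS1.const_mul _).const_mul _
  have hF1n : ∀ t, 0 ≤ F1 t := fun t =>
    mul_nonneg (by positivity) (mul_nonneg (abs_nonneg _) (pg_pos hV u t).le)
  have hF2n : ∀ t, 0 ≤ F2 t := by
    intro t
    apply Set.indicator_nonneg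
    intro t ht
    have := ht.1
    positivity
  have hGm : AEStronglyMeasurable G (volume.restrict (Ioi 0)) := by
    apply ContinuousOn.aestronglyMeasurable _ measurableSet_Ioi
    apply ContinuousOn.mul
    · apply ContinuousOn.sub _ continuousOn_const
      intro t ht
      apply ContinuousAt.continuousWithinAt
      exact (Complex.continuousAt_ofReal_cpow_const t s (Or.inr (ne_of_gt ht)))
    · exact (Complex.continuous_ofReal.comp (pg_cont V u)).continuousOn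
  have hGi : IntegrableOn G (Ioi 0) := by
    refine ((hF1i.add hF2i).integrableOn (s := Ioi 0)).mono' hGm ?_
    exact (ae_restrict_mem measurableSet_Ioi).mono fun t ht => hpt t ht
  have hGb : ‖∫ t in Ioi (0 : ℝ), G t‖ ≤ 140 * u ^ ‖s‖ * (V / u) := by
    calc ‖∫ t in Ioi (0 : ℝ), G t‖ ≤ ∫ t in Ioi (0 : ℝ), (F1 t + F2 t) := by
          apply norm_integral_le_of_norm_le ((hF1i.add hF2i).integrableOn)
          exact (ae_restrict_mem measurableSet_Ioi).mono fun t ht => hpt t ht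
      _ ≤ ∫ t, (F1 t + F2 t) :=
          setIntegral_le_integral (hF1i.add hF2i) (ae_of_all _ fun t => add_nonneg (hF1n t) (hF2n t))
      _ = (∫ t, F1 t) + ∫ t, F2 t := integral_add hF1i hF2i
      _ ≤ 12 * u ^ ‖s‖ / u * V + E * (2 * u) := by
          apply add_le_add
          · rw [hF1, integral_const_mul]
            exact mul_le_mul_of_nonneg_left hA2 (by positivity)
          · rw [hF2, integral_indicator measurableSet_Ioc, integral_const_mul, integral_const_mul]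
            exact mul_le_mul_of_nonneg_left hS2 hE0
      _ ≤ 12 * u ^ ‖s‖ / u * V + 128 * u ^ ‖s‖ * (V / u) := by
          apply add_le_add le_rfl
          have hx := sq_mul_exp_neg (u / V)
          have e1 : (u / V) ^ 2 / 8 = u ^ 2 / (8 * V ^ 2) := by
            field_simp
          rw [e1] at hx
          have e2 : E * (2 * u) = 16 * u ^ ‖s‖ * (V / u) * ((u / V) ^ 2 * Real.exp (-(u ^ 2 / (8 * V ^ 2)))) := by
            rw [hE]
            field_simp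
            ring
          rw [e2]
          calc 16 * u ^ ‖s‖ * (V / u) * ((u / V) ^ 2 * Real.exp (-(u ^ 2 / (8 * V ^ 2)))) ≤
                16 * u ^ ‖s‖ * (V / u) * 8 := mul_le_mul_of_nonneg_left hx (by positivity)
            _ = _ := by ring
      _ = 140 * u ^ ‖s‖ * (V / u) := by ring
  -- the negative part
  have hneg : ∫ t in Iic (0 : ℝ), pg V u t ≤ V / u := by
    calc ∫ t in Iic (0 : ℝ), pg V u t ≤ ∫ t in Iic (0 : ℝ), 1 / u * (|t - u| * pg V u t) := by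
          apply setIntegral_mono_on (pg_integrable hV u).integrableOn (hA1.const_mul _).integrableOn measurableSet_Iic
          intro t ht
          have ht' : t ≤ 0 := ht
          have h1 : 1 ≤ 1 / u * |t - u| := by
            rw [one_div, inv_mul_eq_div, le_div_iff₀ hu0, one_mul, abs_sub_comm]
            exact le_trans (by linarith) (le_abs_self _)
          calc pg V u t = 1 * pg V u t := by ring
            _ ≤ (1 / u * |t - u|) * pg V u t := mul_le_mul_of_nonneg_right h1 (pg_pos hV u t).le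
            _ = _ := by ring
      _ ≤ ∫ t, 1 / u * (|t - u| * pg V u t) := by
          apply setIntegral_le_integral (hA1.const_mul _)
          exact ae_of_all _ fun t => mul_nonneg (by positivity) (mul_nonneg (abs_nonneg _) (pg_pos hV u t).le)
      _ = 1 / u * ∫ t, |t - u| * pg V u t := integral_const_mul _ _
      _ ≤ 1 / u * V := mul_le_mul_of_nonneg_left hA2 (by positivity)
      _ = V / u := by ring
  have hneg0 : 0 ≤ ∫ t in Iic (0 : ℝ), pg V u t :=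
    setIntegral_nonneg measurableSet_Iic fun t _ => (pg_pos hV u t).le
  have hsplit : ∫ t in Ioi (0 : ℝ), pg V u t = 1 - ∫ t in Iic (0 : ℝ), pg V u t := by
    have h := integral_add_compl (measurableSet_Iic (a := (0 : ℝ))) (pg_integrable hV u)
    rw [compl_Iic, pg_integral hV u] at h
    linarith
  have hpgC : IntegrableOn (fun t => ((pg V u t : ℝ) : ℂ)) (Ioi 0) := (pg_integrable hV u).ofReal.integrableOn
  have hcp : IntegrableOn (fun t => (u : ℂ) ^ s * ((pg V u t : ℝ) : ℂ)) (Ioi 0) := hpgC.const_mul _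
  have hmain : (∫ t in Ioi (0 : ℝ), (t : ℂ) ^ s * ((pg V u t : ℝ) : ℂ)) - (u : ℂ) ^ s =
      (∫ t in Ioi (0 : ℝ), G t) - (u : ℂ) ^ s * ((∫ t in Iic (0 : ℝ), pg V u t : ℝ) : ℂ) := by
    have e1 : ∫ t in Ioi (0 : ℝ), (t : ℂ) ^ s * ((pg V u t : ℝ) : ℂ) =
        (∫ t in Ioi (0 : ℝ), G t) + ∫ t in Ioi (0 : ℝ), (u : ℂ) ^ s * ((pg V u t : ℝ) : ℂ) := by
      rw [← integral_add hGi hcp]
      refine integral_congr_ae (ae_of_all _ fun t => ?_)
      simp only [hG]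
      ring
    have e2 : ∫ t in Ioi (0 : ℝ), (u : ℂ) ^ s * ((pg V u t : ℝ) : ℂ) =
        (u : ℂ) ^ s * (1 - ((∫ t in Iic (0 : ℝ), pg V u t : ℝ) : ℂ)) := by
      rw [integral_const_mul]
      congr 1
      have e3 : ∫ t in Ioi (0 : ℝ), ((pg V u t : ℝ) : ℂ) = ((∫ t in Ioi (0 : ℝ), pg V u t : ℝ) : ℂ) := integral_ofReal
      rw [e3, hsplit]
      push_cast
      ring
    rw [e1, e2]
    ring
  rw [hmain]
  have hfin : ‖(∫ t in Ioi (0 : ℝ), G t) - (u : ℂ) ^ s * ((∫ t in Iic (0 : ℝ), pg V u t : ℝ) : ℂ)‖ ≤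
      200 * u ^ ‖s‖ * (V / u) := by
    refine (norm_sub_le _ _).trans ?_
    have h1 : ‖(u : ℂ) ^ s * ((∫ t in Iic (0 : ℝ), pg V u t : ℝ) : ℂ)‖ ≤ u ^ ‖s‖ * (V / u) := by
      rw [norm_mul, Complex.norm_real, Real.norm_of_nonneg hneg0]
      exact mul_le_mul (b09_cpow_norm hu s) hneg hneg0 hU.le
    have h2 : 0 ≤ u ^ ‖s‖ * (V / u) := by positivity
    calc _ ≤ 140 * u ^ ‖s‖ * (V / u) + u ^ ‖s‖ * (V / u) := add_le_add hGb h1
      _ ≤ _ := by nlinarith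
  refine hfin.trans ?_
  have h3 : u ^ ‖s‖ ≤ T ^ ‖s‖ := Real.rpow_le_rpow hu0.le hu2 (norm_nonneg _)
  have h4 : V / u ≤ T ^ (-δ) / ε₁ := by
    rw [div_le_div_iff₀ hu0 hε1, hVdef, show (1 - δ) = -δ + 1 by ring, Real.rpow_add_one hT0.ne']
    have : 0 < T ^ (-δ) := Real.rpow_pos_of_pos hT0 _
    calc T ^ (-δ) * T * ε₁ = T ^ (-δ) * (ε₁ * T) := by ring
      _ ≤ T ^ (-δ) * u := mul_le_mul_of_nonneg_left hu1 this.le
  have hTs : 0 < T ^ ‖s‖ := Real.rpow_pos_of_pos hT0 _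
  calc 200 * u ^ ‖s‖ * (V / u) ≤ 200 * T ^ ‖s‖ * (T ^ (-δ) / ε₁) := by
        apply mul_le_mul _ h4 (by positivity) (by positivity)
        linarith
    _ = 200 / ε₁ * T ^ (‖s‖ - δ) := by
        rw [sub_eq_add_neg, Real.rpow_add hT0]
        ring

end Pool.Agent.LibSM47
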