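import Mathlib
import Pool.Agent.LibSM47.B_07
import Pool.Agent.LibSM47.B_09

/-! # SM47-B, B_10: `K1_main` (assembly of B_02, B_07, B_09).

PLAN. `V = T^(1-δ)`, `1 ≤ V ≤ T`.  `∫_{Icc} = ∫_ℝ - ∫_{Iccᶜ}` (`integral_add_compl`, `K1_swap`.1), tail by `nu_tail` (B_02) with
`M = 10` (`K1_far`), times `‖Γ(1+s)‖ ≤ C` for `‖s‖ ≤ 1/4` (compactness: `IsCompact.exists_bound_of_continuousOn` on
`Metric.closedBall 0 (1/4)`, or `LibPH.G0_bd`/`LibPH.x07_gamma` in X07, or `LibZM.norm_Gamma_le'`); `exp(-V²/64)` is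
`≤ T^{-δ}` for large `T` (`exp_small`, exponent `2(1-δ) > 0`), main part by `K1_mom` (`T^{‖s‖-δ} ≤ T^{‖s‖-δ/2}`). -/

set_option autoImplicit false

namespace Pool.Agent.LibSM47

open MeasureTheory Set Filter Topology Complex ProbabilityTheory
open scoped NNReal ComplexConjugate

private theorem b10_gamma : ∃ C : ℝ, 0 < C ∧ ∀ s : ℂ, ‖s‖ ≤ 1 / 4 → ‖Complex.Gamma (1 + s)‖ ≤ C := by
  have hc : ContinuousOn (fun s : ℂ => Complex.Gamma (1 + s)) (Metric.closedBall 0 (1 / 4)) := by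
    intro s hs
    rw [mem_closedBall_zero_iff] at hs
    have h1 : DifferentiableAt ℂ Complex.Gamma (1 + s) := by
      apply Complex.differentiableAt_Gamma
      intro m hm
      have h2 : (1 + s).re = (-(m : ℂ)).re := by rw [hm]
      rw [Complex.add_re, Complex.one_re, Complex.neg_re, Complex.natCast_re] at h2
      have h3 := (abs_le.1 ((Complex.abs_re_le_norm s).trans hs)).1
      have h4 : (0 : ℝ) ≤ m := Nat.cast_nonneg m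
      linarith
    exact (h1.continuousAt.comp (f := fun s : ℂ => 1 + s) (by fun_prop)).continuousWithinAt
  obtain ⟨C, hC⟩ := (isCompact_closedBall (0 : ℂ) (1 / 4)).exists_bound_of_continuousOn hc
  refine ⟨|C| + 1, by positivity, fun s hs => ?_⟩
  have h := hC s (mem_closedBall_zero_iff.2 hs)
  linarith [le_abs_self C]

/-- K1. -/
theorem K1_main (ε₁ δ : ℝ) (hε1 : 0 < ε₁) (hδ : 0 < δ) (hδ1 : δ ≤ 1 / 10) :
    ∃ C T₀ : ℝ, 0 < C ∧ ∀ T : ℝ, T₀ ≤ T → ∀ u : ℝ, ε₁ * T ≤ u → u ≤ T → ∀ s : ℂ, ‖s‖ ≤ 1 / 4 →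
      ‖Complex.Gamma (1 + s) * (∫ ξ in Icc (-(1 / 4) : ℝ) (1 / 4), (wq T ξ) ^ (-(1 + s)) * nu T (T ^ (1 - δ)) u ξ)
        - (u : ℂ) ^ s‖ ≤ C * T ^ (‖s‖ - δ / 2) := by
  obtain ⟨C₁, T₁, hC₁, hm⟩ := K1_mom ε₁ δ hε1 hδ hδ1
  obtain ⟨C₂, hC₂, hG⟩ := b10_gamma
  obtain ⟨T₂, hT₂, hE⟩ := exp_small (40 * C₂) 0 (1 / 64) (2 * (1 - δ)) (δ / 2) (by norm_num) (by linarith)
  refine ⟨C₁ + 1, max T₁ (max T₂ 1), by linarith, fun T hT u hu1 hu2 s hs => ?_⟩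
  have hTa : T₁ ≤ T := (le_max_left _ _).trans hT
  have hTb : T₂ ≤ T := ((le_max_left _ _).trans (le_max_right _ _)).trans hT
  have hT1 : 1 ≤ T := ((le_max_right _ _).trans (le_max_right _ _)).trans hT
  have hT0 : 0 < T := by linarith
  set V := T ^ (1 - δ) with hV
  have hV1 : 1 ≤ V := Real.one_le_rpow hT1 (by linarith)
  have hV0 : 0 < V := by linarith
  have hVT : V ≤ T := by
    rw [hV]
    conv_rhs => rw [← Real.rpow_one T]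
    exact Real.rpow_le_rpow_of_exponent_le hT1 (by linarith)
  obtain ⟨hint, hsw⟩ := K1_swap hT1 hV0 hVT hu2 hs
  have hsplit : (∫ ξ in Icc (-(1 / 4) : ℝ) (1 / 4), (wq T ξ) ^ (-(1 + s)) * nu T V u ξ) =
      (∫ ξ : ℝ, (wq T ξ) ^ (-(1 + s)) * nu T V u ξ) -
        ∫ ξ in (Icc (-(1 / 4) : ℝ) (1 / 4))ᶜ, (wq T ξ) ^ (-(1 + s)) * nu T V u ξ := by
    rw [← integral_add_compl measurableSet_Icc hint]
    ring
  have htail : ‖∫ ξ in (Icc (-(1 / 4) : ℝ) (1 / 4))ᶜ, (wq T ξ) ^ (-(1 + s)) * nu T V u ξ‖ ≤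
      4 * 10 * Real.exp (-(V ^ 2 / 64)) :=
    nu_tail hT1 hV1 hVT hu2 (by norm_num) (fun ξ hξ => K1_far hT1 hs hξ)
  have hmain := hm T hTa u hu1 hu2 s hs
  have hsmall := hE T hTb
  have hV2 : V ^ 2 = T ^ (2 * (1 - δ)) := by
    rw [hV, ← Real.rpow_natCast, ← Real.rpow_mul hT0.le]
    congr 1
    push_cast
    ring
  have e1 : ‖Complex.Gamma (1 + s) * ∫ ξ in (Icc (-(1 / 4) : ℝ) (1 / 4))ᶜ, (wq T ξ) ^ (-(1 + s)) * nu T V u ξ‖ ≤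
      T ^ (‖s‖ - δ / 2) := by
    rw [norm_mul]
    calc ‖Complex.Gamma (1 + s)‖ * ‖∫ ξ in (Icc (-(1 / 4) : ℝ) (1 / 4))ᶜ, (wq T ξ) ^ (-(1 + s)) * nu T V u ξ‖
        ≤ C₂ * (4 * 10 * Real.exp (-(V ^ 2 / 64))) := mul_le_mul (hG s hs) htail (norm_nonneg _) hC₂.le
      _ = 40 * C₂ * T ^ (0 : ℝ) * Real.exp (-(1 / 64 * T ^ (2 * (1 - δ)))) := by
          rw [Real.rpow_zero, hV2]
          have : -(T ^ (2 * (1 - δ)) / 64) = -(1 / 64 * T ^ (2 * (1 - δ))) := by ring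
          rw [this]
          ring
      _ ≤ T ^ (-(δ / 2)) := hsmall
      _ ≤ T ^ (‖s‖ - δ / 2) := Real.rpow_le_rpow_of_exponent_le hT1 (by linarith [norm_nonneg s])
  have e2 : ‖(∫ t in Ioi (0 : ℝ), (t : ℂ) ^ s * ((pg V u t : ℝ) : ℂ)) - (u : ℂ) ^ s‖ ≤ C₁ * T ^ (‖s‖ - δ / 2) := by
    refine hmain.trans ?_
    apply mul_le_mul_of_nonneg_left _ hC₁.le
    exact Real.rpow_le_rpow_of_exponent_le hT1 (by linarith)
  rw [hsplit, mul_sub, hsw]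
  calc ‖(∫ t in Ioi (0 : ℝ), (t : ℂ) ^ s * ((pg V u t : ℝ) : ℂ)) -
        Complex.Gamma (1 + s) * (∫ ξ in (Icc (-(1 / 4) : ℝ) (1 / 4))ᶜ, (wq T ξ) ^ (-(1 + s)) * nu T V u ξ) -
          (u : ℂ) ^ s‖
      = ‖((∫ t in Ioi (0 : ℝ), (t : ℂ) ^ s * ((pg V u t : ℝ) : ℂ)) - (u : ℂ) ^ s) -
        Complex.Gamma (1 + s) * (∫ ξ in (Icc (-(1 / 4) : ℝ) (1 / 4))ᶜ, (wq T ξ) ^ (-(1 + s)) * nu T V u ξ)‖ := by
        congr 1
        ring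
    _ ≤ C₁ * T ^ (‖s‖ - δ / 2) + T ^ (‖s‖ - δ / 2) := (norm_sub_le _ _).trans (add_le_add e2 e1)
    _ = (C₁ + 1) * T ^ (‖s‖ - δ / 2) := by ring

end Pool.Agent.LibSM47
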