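import Pool.Agent.LibSM47.Defs

/-! [SM47 C_A] Sum over the third variable.
`ff m n v * e(-(l.v)) = e(-(l1 v1 + l2 v2)) * e(-((n v1 v2 + l3) v3))` (`AddChar.map_add_eq_mul`, `ring_nf`); split the sum
over `Z3 m = ZMod m × ZMod m × ZMod m` (`Fintype.sum_prod_type`), and
`∑_{x : ZMod m} e(a x) = m` if `a = 0`, `0` otherwise (`AddChar.sum_mulShift`, `ZMod.isPrimitive_stdAddChar`; here
`a = -(n v1 v2 + l3)`). -/

set_option autoImplicit false

namespace Pool.Agent.LibSM47

open Complex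

theorem FT_sum3 (m : ℕ) [NeZero m] (n : ZMod m) (l : Z3 m) :
    FT m (ff m n) l = (m : ℂ) * ∑ x : ZMod m × ZMod m,
      if n * x.1 * x.2 + l.2.2 = 0 then (ZMod.stdAddChar (-(l.1 * x.1 + l.2.1 * x.2)) : ℂ) else 0 := by
  have h1 : ∀ a b : ZMod m, (∑ c : ZMod m, ff m n (a, b, c) *
      (ZMod.stdAddChar (-(l.1 * a + l.2.1 * b + l.2.2 * c)) : ℂ)) =
      (m : ℂ) * if n * a * b + l.2.2 = 0 then
        (ZMod.stdAddChar (-(l.1 * a + l.2.1 * b)) : ℂ) else 0 := by
    intro a b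
    have h2 : ∀ c : ZMod m, ff m n (a, b, c) *
        (ZMod.stdAddChar (-(l.1 * a + l.2.1 * b + l.2.2 * c)) : ℂ) =
        (ZMod.stdAddChar (-(l.1 * a + l.2.1 * b)) : ℂ) *
          (ZMod.stdAddChar (c * (-(n * a * b + l.2.2))) : ℂ) := by
      intro c
      unfold ff
      rw [← AddChar.map_add_eq_mul, ← AddChar.map_add_eq_mul]
      congr 1
      ring
    rw [Finset.sum_congr rfl fun c _ => h2 c, ← Finset.mul_sum,
      AddChar.sum_mulShift (-(n * a * b + l.2.2)) (ZMod.isPrimitive_stdAddChar m), ZMod.card]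
    by_cases h : n * a * b + l.2.2 = 0
    · rw [if_pos h, h, neg_zero, if_pos rfl]
      ring
    · rw [if_neg h, if_neg (neg_ne_zero.mpr h)]
      simp
  unfold FT
  rw [Fintype.sum_prod_type, Finset.mul_sum, Fintype.sum_prod_type]
  refine Finset.sum_congr rfl fun a _ => ?_
  rw [Fintype.sum_prod_type]
  exact Finset.sum_congr rfl fun b _ => h1 a b

end Pool.Agent.LibSM47
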