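import Mathlib

/-! [SM47 C_B] Number of solutions of `x y = c` modulo `m` (ONLY MATHLIB).
For fixed `x` the set `{y : x y = c}` is empty or a coset of the kernel of `y ↦ x y`, which has `gcd(x, m)` elements
(e.g. `ZMod` version: `x y = x y'` iff `m / gcd(x,m)` divides `y.val - y'.val`; or: the kernel of
`AddMonoidHom.mulLeft x` on `ZMod m`, its image is the subgroup generated by `x`, of order `addOrderOf x = m / gcd(m, x.val)`
(`ZMod.addOrderOf_coe`), and card kernel * card range = m).  So the number is at most
`∑_{x < m} gcd(x, m) ≤ ∑_{d ∣ m} d #{x < m : d ∣ x} = ∑_{d ∣ m} d (m / d) = m d(m)`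
(`gcd(x,m) ≤ ∑_{d ∣ m, d ∣ x} d`: the gcd itself is one of the terms). -/

set_option autoImplicit false

namespace Pool.Agent.LibSM47

private theorem C_B_ker (m : ℕ) [NeZero m] (x : ZMod m) :
    (Finset.univ.filter fun y : ZMod m => x * y = 0).card ≤ Nat.gcd m x.val := by
  have hm : 0 < m := Nat.pos_of_ne_zero (NeZero.ne m)
  have hg0 : 0 < Nat.gcd m x.val := Nat.gcd_pos_of_pos_left _ hm
  have hgm : Nat.gcd m x.val ∣ m := Nat.gcd_dvd_left _ _
  have hgx : Nat.gcd m x.val ∣ x.val := Nat.gcd_dvd_right _ _
  have hdiv : ∀ y : ZMod m, x * y = 0 → m / Nat.gcd m x.val ∣ y.val := by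
    intro y hy
    have h1 : m ∣ x.val * y.val := by
      have h0 : ((x.val * y.val : ℕ) : ZMod m) = 0 := by
        push_cast
        rw [ZMod.natCast_zmod_val, ZMod.natCast_zmod_val]
        exact hy
      exact (ZMod.natCast_eq_zero_iff _ _).mp h0
    have h2 : Nat.Coprime (m / Nat.gcd m x.val) (x.val / Nat.gcd m x.val) :=
      Nat.coprime_div_gcd_div_gcd hg0
    have h3 : m / Nat.gcd m x.val ∣ (x.val / Nat.gcd m x.val) * y.val := by
      rw [Nat.div_mul_right_comm hgx]
      exact Nat.div_dvd_div hgm h1
    exact h2.dvd_of_dvd_mul_left h3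
  have hcard := Finset.card_le_card_of_injOn (s := Finset.univ.filter fun y : ZMod m => x * y = 0)
    (t := Finset.range (Nat.gcd m x.val)) (fun y => y.val / (m / Nat.gcd m x.val)) ?_ ?_
  · rwa [Finset.card_range] at hcard
  · intro y hy
    rw [Finset.mem_coe, Finset.mem_range]
    apply Nat.div_lt_of_lt_mul
    rw [Nat.div_mul_cancel hgm]
    exact ZMod.val_lt y
  · intro y hy z hz hyz
    have hy' : x * y = 0 := (Finset.mem_filter.mp hy).2
    have hz' : x * z = 0 := (Finset.mem_filter.mp hz).2
    have e1 := Nat.mul_div_cancel' (hdiv y hy')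
    have e2 := Nat.mul_div_cancel' (hdiv z hz')
    apply ZMod.val_injective m
    have hyz' : y.val / (m / Nat.gcd m x.val) = z.val / (m / Nat.gcd m x.val) := hyz
    rw [← e1, ← e2, hyz']

private theorem C_B_fib (m : ℕ) [NeZero m] (x c : ZMod m) :
    (Finset.univ.filter fun y : ZMod m => x * y = c).card ≤ Nat.gcd m x.val := by
  rcases (Finset.univ.filter fun y : ZMod m => x * y = c).eq_empty_or_nonempty with h | ⟨y₀, hy₀⟩
  · rw [h, Finset.card_empty]
    exact Nat.zero_le _
  · have h0 : x * y₀ = c := (Finset.mem_filter.mp hy₀).2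
    refine le_trans ?_ (C_B_ker m x)
    refine Finset.card_le_card_of_injOn (fun y => y - y₀) ?_ ?_
    · intro y hy
      have h1 : x * y = c := (Finset.mem_filter.mp hy).2
      rw [Finset.mem_coe, Finset.mem_filter]
      refine ⟨Finset.mem_univ _, ?_⟩
      rw [mul_sub, h1, h0, sub_self]
    · intro y _ z _ hyz
      exact sub_left_injective hyz

private theorem C_B_mult (m d : ℕ) [NeZero m] (hd : d ∣ m) :
    (Finset.univ.filter fun x : ZMod m => d ∣ x.val).card ≤ m / d := by
  have hm : 0 < m := Nat.pos_of_ne_zero (NeZero.ne m)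
  have hcard := Finset.card_le_card_of_injOn (s := Finset.univ.filter fun x : ZMod m => d ∣ x.val)
    (t := Finset.range (m / d)) (fun x => x.val / d) ?_ ?_
  · rwa [Finset.card_range] at hcard
  · intro x hx
    rw [Finset.mem_coe, Finset.mem_range]
    apply Nat.div_lt_of_lt_mul
    rw [Nat.mul_div_cancel' hd]
    exact ZMod.val_lt x
  · intro x hx z hz hxz
    have e1 := Nat.mul_div_cancel' (Finset.mem_filter.mp hx).2
    have e2 := Nat.mul_div_cancel' (Finset.mem_filter.mp hz).2
    apply ZMod.val_injective m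
    have hxz' : x.val / d = z.val / d := hxz
    rw [← e1, ← e2, hxz']

theorem count_le (m : ℕ) [NeZero m] (c : ZMod m) :
    ((Finset.univ.filter fun x : ZMod m × ZMod m => x.1 * x.2 = c).card : ℝ) ≤ m * m.divisors.card := by
  have h1 : (Finset.univ.filter fun x : ZMod m × ZMod m => x.1 * x.2 = c).card ≤
      m * m.divisors.card := by
    calc (Finset.univ.filter fun x : ZMod m × ZMod m => x.1 * x.2 = c).card
        = ∑ x : ZMod m, (Finset.univ.filter fun y : ZMod m => x * y = c).card := by
          rw [Finset.card_filter, Fintype.sum_prod_type]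
          refine Finset.sum_congr rfl fun x _ => ?_
          rw [Finset.card_filter]
      _ ≤ ∑ x : ZMod m, Nat.gcd m x.val := Finset.sum_le_sum fun x _ => C_B_fib m x c
      _ ≤ ∑ x : ZMod m, ∑ d ∈ m.divisors, (if d ∣ x.val then d else 0) := by
          refine Finset.sum_le_sum fun x _ => ?_
          have hmem : Nat.gcd m x.val ∈ m.divisors :=
            Nat.mem_divisors.mpr ⟨Nat.gcd_dvd_left _ _, NeZero.ne m⟩
          have h2 := Finset.single_le_sum (f := fun d => if d ∣ x.val then d else 0)
            (fun d _ => Nat.zero_le _) hmem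
          rwa [if_pos (Nat.gcd_dvd_right _ _)] at h2
      _ = ∑ d ∈ m.divisors, ∑ x : ZMod m, (if d ∣ x.val then d else 0) := Finset.sum_comm
      _ ≤ ∑ d ∈ m.divisors, m := by
          refine Finset.sum_le_sum fun d hd => ?_
          rw [← Finset.sum_filter, Finset.sum_const, smul_eq_mul]
          have hdm : d ∣ m := Nat.dvd_of_mem_divisors hd
          calc (Finset.univ.filter fun x : ZMod m => d ∣ x.val).card * d ≤ m / d * d :=
                Nat.mul_le_mul_right d (C_B_mult m d hdm)
            _ = m := Nat.div_mul_cancel hdm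
      _ = m * m.divisors.card := by rw [Finset.sum_const, smul_eq_mul, mul_comm]
  exact_mod_cast h1

end Pool.Agent.LibSM47
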