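import Pool.Agent.LibSM47.C_A
import Pool.Agent.LibSM47.C_B

set_option autoImplicit false

namespace Pool.Agent.LibSM47

open Complex

theorem FT_triv (m : ℕ) [NeZero m] (n : ZMod m) (hn : IsUnit n) (l : Z3 m) :
    ‖FT m (ff m n) l‖ ≤ (m : ℝ) ^ 2 * m.divisors.card := by
  obtain ⟨w, rfl⟩ := hn
  rw [FT_sum3, norm_mul, Complex.norm_natCast]
  have h1 : ‖∑ x : ZMod m × ZMod m, if (w : ZMod m) * x.1 * x.2 + l.2.2 = 0 then
      (ZMod.stdAddChar (-(l.1 * x.1 + l.2.1 * x.2)) : ℂ) else 0‖ ≤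
      ((Finset.univ.filter fun x : ZMod m × ZMod m => x.1 * x.2 = -(((w⁻¹ : (ZMod m)ˣ) : ZMod m) * l.2.2)).card : ℝ) := by
    refine (norm_sum_le _ _).trans ?_
    rw [Finset.card_filter]
    push_cast
    refine Finset.sum_le_sum fun x _ => ?_
    have h2 : (w : ZMod m) * x.1 * x.2 + l.2.2 = 0 ↔ x.1 * x.2 = -(((w⁻¹ : (ZMod m)ˣ) : ZMod m) * l.2.2) := by
      constructor
      · intro h
        have := congrArg (fun y => ((w⁻¹ : (ZMod m)ˣ) : ZMod m) * y) h
        simp only [mul_add, mul_zero, ← mul_assoc, Units.inv_mul, one_mul] at this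
        exact eq_neg_of_add_eq_zero_left this
      · intro h
        rw [mul_assoc, h, mul_neg, ← mul_assoc, Units.mul_inv, one_mul, neg_add_cancel]
    by_cases h : (w : ZMod m) * x.1 * x.2 + l.2.2 = 0
    · rw [if_pos h, if_pos (h2.1 h), AddChar.norm_apply]
    · rw [if_neg h, if_neg (fun h' => h (h2.2 h')), norm_zero]
  calc _ ≤ (m : ℝ) * (m * m.divisors.card) :=
        mul_le_mul_of_nonneg_left (h1.trans (count_le m _)) (Nat.cast_nonneg _)
    _ = _ := by ring

end Pool.Agent.LibSM47
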