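import Pool.Agent.LibSM47.C_A
import Pool.Agent.LibWeil46.RD2

/-! [SM47 C_D] Prime modulus.  `gd p v = p` if `v = 0` (`ZMod.val_zero`, `Nat.gcd_zero_left`), `1` otherwise.
By `FT_sum3` everything is `p * Σ`, `Σ = ∑_{n x1 x2 = - l3} e(-(l1 x1 + l2 x2))`.
(a) at least two of the `l_i` vanish: the product of the `gd` is at least `p^2`, so the right side is at least
`2 p^{3/2} p^{1/2} = 2 p^2`, and `|Σ| ≤ 2p` (number of solutions: `x2` determined by `x1` if `x1 ≠ 0`, and at most `p` with `x1 = 0`).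
(b) at most one vanishes; to show `|Σ| ≤ 2 sqrt p` (the product of the `gd` is at least `1`).
 * `l3 ≠ 0`: the solutions are `(u, - l3 / (n u))`, `u` a unit: `Σ = ∑_u e(-l1 u + (l2 l3 / n) u⁻¹)`; if `l1, l2 ≠ 0` this is
   `Pool.Weil46.weil_std p 1 (-l1) (l2 * l3 / n)` (trivial multiplicative character: `MulChar.one_apply_coe`), `≤ 2 sqrt p`;
   if exactly one of `l1, l2` is zero it is `∑_{u ≠ 0} e(a u) = -1`, `a ≠ 0` (`AddChar.sum_eq_zero_of_ne_one` /
   `AddChar.sum_mulShift`; for `l1 = 0` substitute `u ↦ u⁻¹`).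
 * `l3 = 0`, so `l1, l2 ≠ 0`: the solutions are the pairs with `x1 = 0` or `x2 = 0`: `Σ = 0 + 0 - 1`. -/

set_option autoImplicit false

namespace Pool.Agent.LibSM47

open Complex

private theorem cD_split (p : ℕ) [Fact p.Prime] (f : ZMod p → ℂ) :
    ∑ x, f x = f 0 + ∑ u : (ZMod p)ˣ, f (u : ZMod p) := by
  rw [Fintype.sum_eq_add_sum_subtype_ne f 0]
  congr 1
  exact (Equiv.sum_comp (unitsEquivNeZero (G₀ := ZMod p)) (fun i => f (i : ZMod p))).symm

private theorem cD_sum_char (p : ℕ) [Fact p.Prime] (b : ZMod p) :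
    ∑ x : ZMod p, (ZMod.stdAddChar (b * x) : ℂ) = if b = 0 then (p : ℂ) else 0 := by
  have h := AddChar.sum_mulShift (ψ := (ZMod.stdAddChar : AddChar (ZMod p) ℂ)) b (ZMod.isPrimitive_stdAddChar p)
  rw [ZMod.card] at h
  refine Eq.trans (Finset.sum_congr rfl fun x _ => ?_) (h.trans ?_)
  · rw [mul_comm]
  · split <;> simp

private noncomputable def cD_K (p : ℕ) [Fact p.Prime] (a b : ZMod p) : ℂ :=
  ∑ u : (ZMod p)ˣ, ZMod.stdAddChar (a * (u : ZMod p) + b * ((u⁻¹ : (ZMod p)ˣ) : ZMod p))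

private theorem cD_norm_char (p : ℕ) [Fact p.Prime] (a : ZMod p) : ‖(ZMod.stdAddChar a : ℂ)‖ = 1 :=
  AddChar.norm_apply _ a

private theorem cD_K_le (p : ℕ) [Fact p.Prime] (a b : ZMod p) : ‖cD_K p a b‖ ≤ p := by
  unfold cD_K
  refine (norm_sum_le _ _).trans ?_
  simp only [cD_norm_char]
  rw [Finset.sum_const, Finset.card_univ, ZMod.card_units_eq_totient, nsmul_eq_mul, mul_one]
  exact_mod_cast Nat.totient_le p

private theorem cD_K_zero_right (p : ℕ) [Fact p.Prime] (a : ZMod p) (ha : a ≠ 0) : cD_K p a 0 = -1 := by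
  have h1 := cD_split p (fun x => (ZMod.stdAddChar (a * x) : ℂ))
  rw [cD_sum_char, if_neg ha, mul_zero, AddChar.map_zero_eq_one] at h1
  have h2 : cD_K p a 0 = ∑ u : (ZMod p)ˣ, (ZMod.stdAddChar (a * (u : ZMod p)) : ℂ) := by
    unfold cD_K
    refine Finset.sum_congr rfl fun u _ => ?_
    rw [zero_mul, add_zero]
  rw [h2]
  linear_combination -h1

private theorem cD_K_symm (p : ℕ) [Fact p.Prime] (a b : ZMod p) : cD_K p a b = cD_K p b a := by
  unfold cD_K
  refine (Equiv.sum_comp (Equiv.inv (ZMod p)ˣ) _).symm.trans ?_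
  refine Finset.sum_congr rfl fun u _ => ?_
  simp only [Equiv.inv_apply, inv_inv]
  rw [add_comm]

private theorem cD_K_bd (p : ℕ) [Fact p.Prime] (a b : ZMod p) (hab : a ≠ 0 ∨ b ≠ 0) : ‖cD_K p a b‖ ≤ 2 * Real.sqrt p := by
  have hp : p.Prime := Fact.out
  have h1 : (1 : ℝ) ≤ 2 * Real.sqrt p := by
    have : (1 : ℝ) ≤ Real.sqrt p := by
      rw [Real.one_le_sqrt]
      exact_mod_cast hp.one_lt.le
    linarith
  by_cases ha : a = 0
  · have hb : b ≠ 0 := hab.resolve_left (fun h => h ha)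
    rw [ha, cD_K_symm, cD_K_zero_right p b hb, norm_neg, norm_one]
    exact h1
  · by_cases hb : b = 0
    · rw [hb, cD_K_zero_right p a ha, norm_neg, norm_one]
      exact h1
    · have h2 := Pool.Weil46.weil_std p 1 a b ha hb
      refine le_trans (le_of_eq ?_) h2
      unfold cD_K
      congr 1
      refine Finset.sum_congr rfl fun u _ => ?_
      rw [MulChar.one_apply_coe, one_mul]

private theorem cD_sum (p : ℕ) [Fact p.Prime] (n : ZMod p) (hn : IsUnit n) (l : Z3 p) :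
    (∑ x : ZMod p × ZMod p,
      if n * x.1 * x.2 + l.2.2 = 0 then (ZMod.stdAddChar (-(l.1 * x.1 + l.2.1 * x.2)) : ℂ) else 0) =
    (if l.2.2 = 0 then (if l.2.1 = 0 then (p : ℂ) else 0) else 0) + cD_K p (-l.1) (l.2.1 * l.2.2 * n⁻¹) := by
  have hn0 : n ≠ 0 := hn.ne_zero
  rw [Fintype.sum_prod_type, cD_split]
  congr 1
  · simp only [mul_zero, zero_mul, zero_add]
    by_cases h : l.2.2 = 0
    · simp only [h, if_true]
      have h1 := cD_sum_char p (-l.2.1)
      refine Eq.trans (Finset.sum_congr rfl fun x _ => ?_) (h1.trans ?_)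
      · rw [neg_mul]
      · simp only [neg_eq_zero]
    · simp only [h, if_false, Finset.sum_const_zero]
  · unfold cD_K
    refine Finset.sum_congr rfl fun u _ => ?_
    have hu : (u : ZMod p) ≠ 0 := u.ne_zero
    rw [Finset.sum_eq_single (-(l.2.2 * n⁻¹ * ((u⁻¹ : (ZMod p)ˣ) : ZMod p)))]
    · rw [if_pos]
      · congr 1
        ring
      · rw [Units.val_inv_eq_inv_val]
        field_simp
        ring
    · intro b _ hb
      rw [if_neg]
      intro h
      apply hb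
      rw [Units.val_inv_eq_inv_val]
      field_simp
      linear_combination h
    · intro h
      exact absurd (Finset.mem_univ _) h

private theorem cD_gd_pos (p : ℕ) (hp : p.Prime) (v : ZMod p) : (1 : ℝ) ≤ gd p v := by
  unfold gd
  exact_mod_cast Nat.gcd_pos_of_pos_right _ hp.pos

private theorem cD_gd_zero (p : ℕ) : (gd p 0 : ℝ) = p := by
  unfold gd
  rw [ZMod.val_zero, Nat.gcd_zero_left]

theorem FT_prime (p : ℕ) (hp : p.Prime) [NeZero p] (n : ZMod p) (hn : IsUnit n) (l : Z3 p) :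
    ‖FT p (ff p n) l‖ ≤ 2 * (p : ℝ) ^ (3 / 2 : ℝ) * ((gd p l.1 : ℝ) * gd p l.2.1 * gd p l.2.2) ^ (1 / 4 : ℝ) := by
  have : Fact p.Prime := ⟨hp⟩
  have hp1 : (1 : ℝ) ≤ p := by exact_mod_cast hp.one_lt.le
  have hp0 : (0 : ℝ) < p := by linarith
  have g1 := cD_gd_pos p hp l.1
  have g2 := cD_gd_pos p hp l.2.1
  have g3 := cD_gd_pos p hp l.2.2
  have hS : FT p (ff p n) l = (p : ℂ) * ((if l.2.2 = 0 then (if l.2.1 = 0 then (p : ℂ) else 0) else 0) +
      cD_K p (-l.1) (l.2.1 * l.2.2 * n⁻¹)) := by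
    rw [FT_sum3, cD_sum p n hn l]
  rw [hS, norm_mul, Complex.norm_natCast]
  have hn0 : n ≠ 0 := hn.ne_zero
  have hbig : (p : ℝ) ^ 2 ≤ (gd p l.1 : ℝ) * gd p l.2.1 * gd p l.2.2 →
      ‖(if l.2.2 = 0 then (if l.2.1 = 0 then (p : ℂ) else 0) else 0) + cD_K p (-l.1) (l.2.1 * l.2.2 * n⁻¹)‖ ≤ 2 * p →
      (p : ℝ) * ‖(if l.2.2 = 0 then (if l.2.1 = 0 then (p : ℂ) else 0) else 0) + cD_K p (-l.1) (l.2.1 * l.2.2 * n⁻¹)‖ ≤
      2 * (p : ℝ) ^ (3 / 2 : ℝ) * ((gd p l.1 : ℝ) * gd p l.2.1 * gd p l.2.2) ^ (1 / 4 : ℝ) := by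
    intro h1 h2
    have h3 : ((p : ℝ) ^ 2) ^ (1 / 4 : ℝ) ≤ ((gd p l.1 : ℝ) * gd p l.2.1 * gd p l.2.2) ^ (1 / 4 : ℝ) :=
      Real.rpow_le_rpow (by positivity) h1 (by norm_num)
    have h4 : ((p : ℝ) ^ 2) ^ (1 / 4 : ℝ) = (p : ℝ) ^ (1 / 2 : ℝ) := by
      rw [← Real.rpow_natCast, ← Real.rpow_mul hp0.le]
      norm_num
    have h5 : (p : ℝ) ^ (3 / 2 : ℝ) * (p : ℝ) ^ (1 / 2 : ℝ) = p * p := by
      rw [← Real.rpow_add hp0]
      norm_num
      ring
    have h6 : 0 ≤ (p : ℝ) ^ (3 / 2 : ℝ) := by positivity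
    rw [h4] at h3
    have h7 := mul_le_mul_of_nonneg_left h3 h6
    rw [h5] at h7
    have h8 := mul_le_mul_of_nonneg_left h2 hp0.le
    nlinarith
  have hsmall : ‖(if l.2.2 = 0 then (if l.2.1 = 0 then (p : ℂ) else 0) else 0) + cD_K p (-l.1) (l.2.1 * l.2.2 * n⁻¹)‖ ≤ 2 * Real.sqrt p →
      (p : ℝ) * ‖(if l.2.2 = 0 then (if l.2.1 = 0 then (p : ℂ) else 0) else 0) + cD_K p (-l.1) (l.2.1 * l.2.2 * n⁻¹)‖ ≤
      2 * (p : ℝ) ^ (3 / 2 : ℝ) * ((gd p l.1 : ℝ) * gd p l.2.1 * gd p l.2.2) ^ (1 / 4 : ℝ) := by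
    intro h2
    have h1 : (1 : ℝ) ≤ (gd p l.1 : ℝ) * gd p l.2.1 * gd p l.2.2 := by
      have := one_le_mul_of_one_le_of_one_le g1 g2
      exact one_le_mul_of_one_le_of_one_le this g3
    have h3 : (1 : ℝ) ≤ ((gd p l.1 : ℝ) * gd p l.2.1 * gd p l.2.2) ^ (1 / 4 : ℝ) :=
      Real.one_le_rpow h1 (by norm_num)
    have h5 : (p : ℝ) ^ (3 / 2 : ℝ) = p * Real.sqrt p := by
      rw [Real.sqrt_eq_rpow, show (3 / 2 : ℝ) = 1 + 1 / 2 by norm_num, Real.rpow_add hp0, Real.rpow_one]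
    rw [h5]
    have h8 := mul_le_mul_of_nonneg_left h2 hp0.le
    have h9 : 0 ≤ 2 * ((p : ℝ) * Real.sqrt p) := by positivity
    have h10 := mul_le_mul_of_nonneg_left h3 h9
    linarith
  have hKle := cD_K_le p (-l.1) (l.2.1 * l.2.2 * n⁻¹)
  by_cases h2 : l.2.1 = 0
  · by_cases h3 : l.2.2 = 0
    · apply hbig
      · have e2 : (gd p l.2.1 : ℝ) = p := by rw [h2, cD_gd_zero]
        have e3 : (gd p l.2.2 : ℝ) = p := by rw [h3, cD_gd_zero]
        rw [e2, e3]
        nlinarith [mul_pos hp0 hp0]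
      · refine (norm_add_le _ _).trans ?_
        rw [if_pos h3, if_pos h2, Complex.norm_natCast]
        linarith
    · by_cases h1 : l.1 = 0
      · apply hbig
        · have e2 : (gd p l.2.1 : ℝ) = p := by rw [h2, cD_gd_zero]
          have e3 : (gd p l.1 : ℝ) = p := by rw [h1, cD_gd_zero]
          rw [e2, e3]
          nlinarith [mul_pos hp0 hp0]
        · rw [if_neg h3, zero_add]
          linarith
      · apply hsmall
        rw [if_neg h3, zero_add]
        exact cD_K_bd p _ _ (Or.inl (neg_ne_zero.mpr h1))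
  · by_cases h1 : l.1 = 0
    · by_cases h3 : l.2.2 = 0
      · apply hbig
        · have e2 : (gd p l.1 : ℝ) = p := by rw [h1, cD_gd_zero]
          have e3 : (gd p l.2.2 : ℝ) = p := by rw [h3, cD_gd_zero]
          rw [e2, e3]
          nlinarith [mul_pos hp0 hp0]
        · rw [if_pos h3, if_neg h2, zero_add]
          linarith
      · apply hsmall
        rw [if_neg h3, zero_add]
        exact cD_K_bd p _ _ (Or.inr (mul_ne_zero (mul_ne_zero h2 h3) (inv_ne_zero hn0)))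
    · apply hsmall
      have e : (if l.2.2 = 0 then (if l.2.1 = 0 then (p : ℂ) else 0) else 0) = 0 := by
        rw [if_neg h2]
        split <;> rfl
      rw [e, zero_add]
      exact cD_K_bd p _ _ (Or.inl (neg_ne_zero.mpr h1))

end Pool.Agent.LibSM47
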