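import Pool.Agent.LibSM47.Defs
import Pool.Agent.LibKloosterman.Basic

/-! [SM47 C_E] (typed by helper20) Chinese remainder theorem. -/

set_option autoImplicit false

namespace Pool.Agent.LibSM47

open Complex

private theorem gd_mul_unit (m : ℕ) [NeZero m] (v : ZMod m) (u : ZMod m) (hu : IsUnit u) : gd m (u * v) = gd m v := by
  unfold gd
  have h1 : ∀ (x y : ZMod m), Nat.gcd x.val m ∣ Nat.gcd (y * x).val m := by
    intro x y
    refine Nat.dvd_gcd ?_ (Nat.gcd_dvd_right _ _)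
    rw [ZMod.val_mul]
    exact (Nat.dvd_mod_iff (Nat.gcd_dvd_right _ _)).2 (dvd_mul_of_dvd_right (Nat.gcd_dvd_left _ _) _)
  obtain ⟨w, rfl⟩ := hu
  refine Nat.dvd_antisymm ?_ (h1 v _)
  have h2 := h1 ((w : ZMod m) * v) ((w⁻¹ : (ZMod m)ˣ) : ZMod m)
  rwa [← mul_assoc, Units.inv_mul, one_mul] at h2

private theorem gd_mul (a b : ℕ) [NeZero a] [NeZero b] [NeZero (a * b)] (h : a.Coprime b) (v : ZMod (a * b)) :
    gd (a * b) v = gd a (ZMod.castHom (dvd_mul_right a b) (ZMod a) v) *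
      gd b (ZMod.castHom (dvd_mul_left b a) (ZMod b) v) := by
  unfold gd
  have h1 : (ZMod.castHom (dvd_mul_right a b) (ZMod a) v).val = v.val % a := by
    rw [ZMod.castHom_apply, ← ZMod.natCast_val, ZMod.val_natCast]
  have h2 : (ZMod.castHom (dvd_mul_left b a) (ZMod b) v).val = v.val % b := by
    rw [ZMod.castHom_apply, ← ZMod.natCast_val, ZMod.val_natCast]
  rw [h1, h2, Nat.Coprime.gcd_mul _ h]
  congr 1
  · rw [Nat.gcd_comm, Nat.gcd_rec, Nat.gcd_comm]
  · rw [Nat.gcd_comm, Nat.gcd_rec, Nat.gcd_comm]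

private theorem std_mul {a b : ℕ} [NeZero a] [NeZero b] [NeZero (a * b)] (h : a.Coprime b) (x : ZMod (a * b)) :
    (ZMod.stdAddChar x : ℂ) =
      ZMod.stdAddChar ((b : ZMod a)⁻¹ * ZMod.castHom (dvd_mul_right a b) (ZMod a) x) *
      ZMod.stdAddChar ((a : ZMod b)⁻¹ * ZMod.castHom (dvd_mul_left b a) (ZMod b) x) := by
  obtain ⟨k, rfl⟩ := ZMod.intCast_surjective x
  rw [Kloo.stdAddChar_mul h k, map_intCast, map_intCast]

theorem FT_mul (a b : ℕ) [NeZero a] [NeZero b] [NeZero (a * b)] (h : a.Coprime b) (n : ZMod (a * b)) (hn : IsUnit n)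
    (l : Z3 (a * b)) :
    ∃ n1 : ZMod a, IsUnit n1 ∧ ∃ n2 : ZMod b, IsUnit n2 ∧ ∃ (l1 : Z3 a) (l2 : Z3 b),
      gd (a * b) l.1 = gd a l1.1 * gd b l2.1 ∧ gd (a * b) l.2.1 = gd a l1.2.1 * gd b l2.2.1 ∧
      gd (a * b) l.2.2 = gd a l1.2.2 * gd b l2.2.2 ∧
      FT (a * b) (ff (a * b) n) l = FT a (ff a n1) l1 * FT b (ff b n2) l2 := by
  set π1 := ZMod.castHom (dvd_mul_right a b) (ZMod a) with hπ1
  set π2 := ZMod.castHom (dvd_mul_left b a) (ZMod b) with hπ2
  have hu1 : IsUnit ((b : ZMod a)⁻¹) := by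
    have h1 : (b : ZMod a) * (b : ZMod a)⁻¹ = 1 := ZMod.coe_mul_inv_eq_one b h.symm
    exact IsUnit.of_mul_eq_one _ (by rw [mul_comm]; exact h1)
  have hu2 : IsUnit ((a : ZMod b)⁻¹) := by
    have h1 : (a : ZMod b) * (a : ZMod b)⁻¹ = 1 := ZMod.coe_mul_inv_eq_one a h
    exact IsUnit.of_mul_eq_one _ (by rw [mul_comm]; exact h1)
  set u1 := (b : ZMod a)⁻¹ with hu1d
  set u2 := (a : ZMod b)⁻¹ with hu2d
  refine ⟨u1 * π1 n, hu1.mul (hn.map π1), u2 * π2 n, hu2.mul (hn.map π2),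
    (u1 * π1 l.1, u1 * π1 l.2.1, u1 * π1 l.2.2), (u2 * π2 l.1, u2 * π2 l.2.1, u2 * π2 l.2.2), ?_, ?_, ?_, ?_⟩
  · rw [gd_mul_unit _ _ _ hu1, gd_mul_unit _ _ _ hu2]
    exact gd_mul a b h _
  · rw [gd_mul_unit _ _ _ hu1, gd_mul_unit _ _ _ hu2]
    exact gd_mul a b h _
  · rw [gd_mul_unit _ _ _ hu1, gd_mul_unit _ _ _ hu2]
    exact gd_mul a b h _
  · have he : ∀ x : ZMod (a * b), ZMod.chineseRemainder h x = (π1 x, π2 x) := by
      intro x
      have h1 : (RingHom.fst (ZMod a) (ZMod b)).comp (ZMod.chineseRemainder h).toRingHom = π1 :=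
        Subsingleton.elim _ _
      have h2 : (RingHom.snd (ZMod a) (ZMod b)).comp (ZMod.chineseRemainder h).toRingHom = π2 :=
        Subsingleton.elim _ _
      rw [← h1, ← h2]; rfl
    let e0 : ZMod (a * b) ≃ ZMod a × ZMod b := (ZMod.chineseRemainder h).toEquiv
    have he0 : ∀ x, e0 x = (π1 x, π2 x) := he
    let E : Z3 (a * b) ≃ Z3 a × Z3 b :=
      { toFun := fun v => ((π1 v.1, π1 v.2.1, π1 v.2.2), (π2 v.1, π2 v.2.1, π2 v.2.2))
        invFun := fun w => (e0.symm (w.1.1, w.2.1), e0.symm (w.1.2.1, w.2.2.1), e0.symm (w.1.2.2, w.2.2.2))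
        left_inv := fun v => by
          simp only [← he0, Equiv.symm_apply_apply]
        right_inv := fun w => by
          have h1 : ∀ p : ZMod a × ZMod b, π1 (e0.symm p) = p.1 ∧ π2 (e0.symm p) = p.2 := fun p => by
            have := he0 (e0.symm p)
            rw [Equiv.apply_symm_apply] at this
            exact ⟨(congrArg Prod.fst this).symm, (congrArg Prod.snd this).symm⟩
          simp only [(h1 _).1, (h1 _).2] }
    unfold FT
    rw [Finset.sum_mul_sum, ← Fintype.sum_prod_type']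
    refine Fintype.sum_equiv E _ _ fun v => ?_
    have hE : E v = ((π1 v.1, π1 v.2.1, π1 v.2.2), (π2 v.1, π2 v.2.1, π2 v.2.2)) := rfl
    rw [hE]
    simp only [ff]
    rw [← AddChar.map_add_eq_mul, ← AddChar.map_add_eq_mul, ← AddChar.map_add_eq_mul, std_mul h]
    congr 2
    · congr 1
      simp only [map_add, map_neg, map_mul]
      ring
    · congr 1
      simp only [map_add, map_neg, map_mul]
      ring

end Pool.Agent.LibSM47
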