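import Pool.Agent.LibSM47.Defs

/-! [SM47 C_F] The powerful part. -/

set_option autoImplicit false

namespace Pool.Agent.LibSM47

theorem pw_pos (m : ℕ) : 1 ≤ pw m :=
  Finset.prod_pos fun _ hp => pow_pos (Nat.pos_of_mem_primeFactors (Finset.mem_filter.1 hp).1) _

theorem pw_one : pw 1 = 1 := by
  simp [pw]

private theorem pw_aux (a b : ℕ) (h : a.Coprime b) :
    ∏ p ∈ a.primeFactors.filter (fun p => 2 ≤ (a * b).factorization p), p ^ (a * b).factorization p = pw a := by
  have h1 : ∀ p ∈ a.primeFactors, (a * b).factorization p = a.factorization p := fun p hp =>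
    Nat.factorization_eq_of_coprime_left h (Nat.mem_primeFactors_iff_mem_primeFactorsList.1 hp)
  unfold pw
  refine Finset.prod_congr (Finset.filter_congr fun p hp => by rw [h1 p hp]) fun p hp => ?_
  rw [h1 p (Finset.mem_filter.1 hp).1]

theorem pw_mul (a b : ℕ) (h : a.Coprime b) : pw (a * b) = pw a * pw b := by
  have h1 : pw (a * b) = ∏ p ∈ (a * b).primeFactors.filter (fun p => 2 ≤ (a * b).factorization p),
    p ^ (a * b).factorization p := rfl
  rw [h1, h.primeFactors_mul, Finset.filter_union, Finset.prod_union, pw_aux a b h]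
  · have h2 := pw_aux b a h.symm
    rw [mul_comm b a] at h2
    rw [h2]
  · exact Finset.disjoint_filter_filter h.disjoint_primeFactors

theorem pw_prime (p : ℕ) (hp : p.Prime) : pw p = 1 := by
  unfold pw
  rw [hp.primeFactors, Finset.filter_singleton, hp.factorization_self]
  simp

theorem pw_prime_pow (p k : ℕ) (hp : p.Prime) (hk : 2 ≤ k) : pw (p ^ k) = p ^ k := by
  unfold pw
  have h1 : (p ^ k).factorization p = k := by simp [hp.factorization_pow]
  rw [Nat.primeFactors_prime_pow (by omega) hp, Finset.filter_singleton, h1, if_pos hk, Finset.prod_singleton, h1]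

theorem gd_pos (m : ℕ) [NeZero m] (v : ZMod m) : 1 ≤ gd m v :=
  Nat.gcd_pos_of_pos_right _ (Nat.pos_of_ne_zero (NeZero.ne m))

theorem pw_sq_le (s t : ℕ) (hs : 1 ≤ s) (ht : Squarefree t) : pw (s ^ 2 * t) ≤ s ^ 2 * Nat.gcd s t := by
  have hs0 : s ≠ 0 := by omega
  have ht0 : t ≠ 0 := ht.ne_zero
  have hg0 : Nat.gcd s t ≠ 0 := Nat.gcd_ne_zero_left hs0
  have hN : s ^ 2 * Nat.gcd s t ≠ 0 := mul_ne_zero (pow_ne_zero 2 hs0) hg0
  refine Nat.le_of_dvd (Nat.pos_of_ne_zero hN) ?_
  unfold pw
  refine Finset.prod_dvd_of_isRelPrime ?_ ?_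
  · intro p hp q hq hpq
    rw [Finset.mem_coe, Finset.mem_filter] at hp hq
    exact Nat.coprime_iff_isRelPrime.1 (Nat.Coprime.pow _ _
      ((Nat.coprime_primes (Nat.prime_of_mem_primeFactors hp.1) (Nat.prime_of_mem_primeFactors hq.1)).2 hpq))
  · intro p hp
    rw [Finset.mem_filter] at hp
    have hpp := Nat.prime_of_mem_primeFactors hp.1
    have h2 := hp.2
    have e1 : (s ^ 2 * t).factorization p = 2 * s.factorization p + t.factorization p := by
      rw [Nat.factorization_mul (pow_ne_zero 2 hs0) ht0, Nat.factorization_pow]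
      simp
    have e2 : t.factorization p ≤ 1 := (Nat.squarefree_iff_factorization_le_one ht0).1 ht p
    rw [e1] at h2 ⊢
    rw [hpp.pow_dvd_iff_le_factorization hN, Nat.factorization_mul (pow_ne_zero 2 hs0) hg0, Nat.factorization_pow,
      Nat.factorization_gcd hs0 ht0]
    simp only [Finsupp.coe_add, Pi.add_apply, Finsupp.coe_smul, Pi.smul_apply, smul_eq_mul, Finsupp.inf_apply]
    have e3 : t.factorization p ≤ min (s.factorization p) (t.factorization p) := le_min (by omega) le_rfl
    omega

end Pool.Agent.LibSM47
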