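import Pool.Agent.LibSM47.C_C
import Pool.Agent.LibSM47.C_D
import Pool.Agent.LibSM47.C_E
import Pool.Agent.LibSM47.C_F
import Pool.Agent.LibJes52.C0

/-! [SM47 C_G] (typed by helper20) The bound for all moduli. -/

set_option autoImplicit false

namespace Pool.Agent.LibSM47

open Complex

private def GG (m : ℕ) : Prop := ∀ [NeZero m] (n : ZMod m) (_ : IsUnit n) (l : Z3 m),
    ‖FT m (ff m n) l‖ ≤ (m.divisors.card : ℝ) * (m : ℝ) ^ (3 / 2 : ℝ) * (pw m : ℝ) ^ (1 / 2 : ℝ) *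
      ((gd m l.1 : ℝ) * gd m l.2.1 * gd m l.2.2) ^ (1 / 4 : ℝ)

private theorem gd3_pos (m : ℕ) [NeZero m] (l : Z3 m) :
    1 ≤ ((gd m l.1 : ℝ) * gd m l.2.1 * gd m l.2.2) := by
  have h1 : (1 : ℝ) ≤ gd m l.1 := by exact_mod_cast gd_pos m l.1
  have h2 : (1 : ℝ) ≤ gd m l.2.1 := by exact_mod_cast gd_pos m l.2.1
  have h3 : (1 : ℝ) ≤ gd m l.2.2 := by exact_mod_cast gd_pos m l.2.2
  nlinarith [mul_nonneg (sub_nonneg.2 h1) (sub_nonneg.2 h2),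
    mul_le_mul (mul_le_mul h1 h2 (by norm_num) (by linarith)) h3 (by norm_num) (by positivity)]

/-- If `pw m = m` the trivial bound is enough. -/
private theorem GG_of_pw (m : ℕ) (h : pw m = m) : GG m := by
  intro _ n hn l
  have hm : (1 : ℝ) ≤ m := by exact_mod_cast NeZero.one_le
  refine (FT_triv m n hn l).trans ?_
  rw [h]
  have h1 : (m : ℝ) ^ 2 = (m : ℝ) ^ (3 / 2 : ℝ) * (m : ℝ) ^ (1 / 2 : ℝ) := by
    rw [← Real.rpow_add (by linarith), ← Real.rpow_natCast]; norm_num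
  have h2 : 1 ≤ ((gd m l.1 : ℝ) * gd m l.2.1 * gd m l.2.2) ^ (1 / 4 : ℝ) :=
    Real.one_le_rpow (gd3_pos m l) (by norm_num)
  calc (m : ℝ) ^ 2 * m.divisors.card
      = (m.divisors.card : ℝ) * (m : ℝ) ^ (3 / 2 : ℝ) * (m : ℝ) ^ (1 / 2 : ℝ) * 1 := by rw [h1]; ring
    _ ≤ _ := mul_le_mul_of_nonneg_left h2 (by positivity)

private theorem alg4 (A B a b P Q x y : ℝ) (ha : 0 ≤ a) (hb : 0 ≤ b) (hP : 0 ≤ P) (hQ : 0 ≤ Q) (hx : 0 ≤ x)
    (hy : 0 ≤ y) : (A * a ^ (3 / 2 : ℝ) * P ^ (1 / 2 : ℝ) * x ^ (1 / 4 : ℝ)) *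
      (B * b ^ (3 / 2 : ℝ) * Q ^ (1 / 2 : ℝ) * y ^ (1 / 4 : ℝ)) =
    (A * B) * (a * b) ^ (3 / 2 : ℝ) * (P * Q) ^ (1 / 2 : ℝ) * (x * y) ^ (1 / 4 : ℝ) := by
  rw [Real.mul_rpow ha hb, Real.mul_rpow hP hQ, Real.mul_rpow hx hy]
  ring

private theorem GG_all (m : ℕ) (hm : m ≠ 0) : GG m := by
  induction m using Nat.recOnPosPrimePosCoprime with
  | zero => exact absurd rfl hm
  | one => exact GG_of_pw 1 pw_one
  | prime_pow p k hp hk =>
    rcases Nat.lt_or_ge k 2 with h | h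
    · have : k = 1 := by omega
      subst this
      rw [pow_one]
      intro _ n hn l
      rw [pw_prime p hp, hp.divisors, Finset.card_pair hp.one_lt.ne]
      simpa using FT_prime p hp n hn l
    · exact GG_of_pw _ (pw_prime_pow p k hp h)
  | coprime a b ha hb hab iha ihb =>
    intro _ n hn l
    have ha0 : a ≠ 0 := by omega
    have hb0 : b ≠ 0 := by omega
    haveI : NeZero a := ⟨ha0⟩
    haveI : NeZero b := ⟨hb0⟩
    obtain ⟨n1, h1, n2, h2, l1, l2, e1, e2, e3, he⟩ := FT_mul a b hab n hn l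
    have k1 := iha ha0 n1 h1 l1
    have k2 := ihb hb0 n2 h2 l2
    rw [he, norm_mul, e1, e2, e3, pw_mul a b hab, hab.card_divisors_mul]
    refine (mul_le_mul k1 k2 (norm_nonneg _) (by positivity)).trans (le_of_eq ?_)
    push_cast
    have hx : ((gd a l1.1 : ℝ) * gd b l2.1 * (gd a l1.2.1 * gd b l2.2.1) * (gd a l1.2.2 * gd b l2.2.2)) =
        ((gd a l1.1 : ℝ) * gd a l1.2.1 * gd a l1.2.2) * ((gd b l2.1 : ℝ) * gd b l2.2.1 * gd b l2.2.2) := by ring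
    rw [hx]
    exact alg4 _ _ _ _ _ _ _ _ (by positivity) (by positivity) (by positivity) (by positivity) (by positivity)
      (by positivity)

theorem FT_le_card (m : ℕ) [NeZero m] (n : ZMod m) (hn : IsUnit n) (l : Z3 m) :
    ‖FT m (ff m n) l‖ ≤ (m.divisors.card : ℝ) * (m : ℝ) ^ (3 / 2 : ℝ) * (pw m : ℝ) ^ (1 / 2 : ℝ) *
      ((gd m l.1 : ℝ) * gd m l.2.1 * gd m l.2.2) ^ (1 / 4 : ℝ) :=
  GG_all m (NeZero.ne m) n hn l

/-- C. Fourier transform of `e(-n v₁v₂v₃/m)`. -/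
theorem FT_le (η : ℝ) (hη : 0 < η) : ∃ C : ℝ, 0 < C ∧ ∀ (m : ℕ) [NeZero m] (n : ZMod m) (_ : IsUnit n) (l : Z3 m),
    ‖FT m (ff m n) l‖ ≤ C * (m : ℝ) ^ (3 / 2 + η) * (pw m : ℝ) ^ (1 / 2 : ℝ) *
      ((gd m l.1 : ℝ) * gd m l.2.1 * gd m l.2.2) ^ (1 / 4 : ℝ) := by
  obtain ⟨C, hC, hd⟩ := LibJes52.card_divisors_le_rpow η hη
  refine ⟨C, by linarith, fun m _ n hn l => (FT_le_card m n hn l).trans ?_⟩
  have hm : (1 : ℝ) ≤ m := by exact_mod_cast NeZero.one_le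
  have h1 : (m.divisors.card : ℝ) * (m : ℝ) ^ (3 / 2 : ℝ) ≤ C * (m : ℝ) ^ (3 / 2 + η) := by
    rw [add_comm, Real.rpow_add (by linarith), ← mul_assoc]
    exact mul_le_mul_of_nonneg_right (hd m (NeZero.one_le)) (by positivity)
  exact mul_le_mul_of_nonneg_right (mul_le_mul_of_nonneg_right h1 (by positivity)) (by positivity)

end Pool.Agent.LibSM47
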