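import Pool.Agent.LibJes52.C0

/-! [SM47 C_I] `∑_l gcd(l,m)^{1/4} l^{-1-η} ≤ C m^η`. -/

set_option autoImplicit false

namespace Pool.Agent.LibSM47

private theorem one_d (η : ℝ) (hη : 0 < η) (d : ℕ) (hd : 1 ≤ d) (u : Finset ℕ+) :
    ∑ l ∈ u.filter (fun l : ℕ+ => d ∣ (l : ℕ)), (d : ℝ) ^ (1 / 4 : ℝ) * ((l : ℕ) : ℝ) ^ (-1 - η) ≤
      ∑' j : ℕ, (j : ℝ) ^ (-1 - η) := by
  have hd' : (1 : ℝ) ≤ d := by exact_mod_cast hd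
  have hs : Summable (fun j : ℕ => (j : ℝ) ^ (-1 - η)) := Real.summable_nat_rpow.2 (by linarith)
  have inj : Set.InjOn (fun l : ℕ+ => (l : ℕ) / d) (u.filter (fun l : ℕ+ => d ∣ (l : ℕ))) := by
    intro a ha b hb hab
    rw [Finset.mem_coe, Finset.mem_filter] at ha hb
    exact PNat.coe_injective ((Nat.div_left_inj ha.2 hb.2).1 hab)
  calc _ ≤ ∑ l ∈ u.filter (fun l : ℕ+ => d ∣ (l : ℕ)), (((l : ℕ) / d : ℕ) : ℝ) ^ (-1 - η) := by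
        refine Finset.sum_le_sum fun l hl => ?_
        obtain ⟨k, hk⟩ := (Finset.mem_filter.1 hl).2
        rw [hk, Nat.mul_div_cancel_left _ (by omega), Nat.cast_mul, Real.mul_rpow (by positivity) (by positivity),
          ← mul_assoc, ← Real.rpow_add (by linarith)]
        have h1 : (d : ℝ) ^ (1 / 4 + (-1 - η)) ≤ 1 := Real.rpow_le_one_of_one_le_of_nonpos hd' (by linarith)
        have h2 : 0 ≤ (k : ℝ) ^ (-1 - η) := by positivity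
        nlinarith
    _ = ∑ j ∈ (u.filter (fun l : ℕ+ => d ∣ (l : ℕ))).image (fun l : ℕ+ => (l : ℕ) / d), (j : ℝ) ^ (-1 - η) :=
        (Finset.sum_image (f := fun j : ℕ => (j : ℝ) ^ (-1 - η)) inj).symm
    _ ≤ _ := hs.sum_le_tsum _ fun j _ => by positivity

private theorem fin_le (η : ℝ) (hη : 0 < η) (m : ℕ) [NeZero m] (u : Finset ℕ+) :
    ∑ l ∈ u, (Nat.gcd (l : ℕ) m : ℝ) ^ (1 / 4 : ℝ) * ((l : ℕ) : ℝ) ^ (-1 - η) ≤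
      m.divisors.card * ∑' j : ℕ, (j : ℝ) ^ (-1 - η) := by
  calc _ ≤ ∑ l ∈ u, ∑ d ∈ m.divisors, if d ∣ (l : ℕ) then (d : ℝ) ^ (1 / 4 : ℝ) * ((l : ℕ) : ℝ) ^ (-1 - η) else 0 := by
        refine Finset.sum_le_sum fun l _ => ?_
        have h1 : Nat.gcd (l : ℕ) m ∈ m.divisors := Nat.mem_divisors.2 ⟨Nat.gcd_dvd_right _ _, NeZero.ne m⟩
        have h2 := Finset.single_le_sum (f := fun d : ℕ => if d ∣ (l : ℕ) then (d : ℝ) ^ (1 / 4 : ℝ) *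
          ((l : ℕ) : ℝ) ^ (-1 - η) else 0) (fun d _ => by positivity) h1
        simp only [if_pos (Nat.gcd_dvd_left (l : ℕ) m)] at h2
        exact h2
    _ = ∑ d ∈ m.divisors, ∑ l ∈ u.filter (fun l : ℕ+ => d ∣ (l : ℕ)), (d : ℝ) ^ (1 / 4 : ℝ) * ((l : ℕ) : ℝ) ^ (-1 - η) := by
        rw [Finset.sum_comm]
        exact Finset.sum_congr rfl fun d _ => (Finset.sum_filter _ _).symm
    _ ≤ ∑ d ∈ m.divisors, ∑' j : ℕ, (j : ℝ) ^ (-1 - η) :=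
        Finset.sum_le_sum fun d hd => one_d η hη d (Nat.pos_of_mem_divisors hd) u
    _ = _ := by rw [Finset.sum_const, nsmul_eq_mul]

/-- C6. -/
theorem gcd_sum (η : ℝ) (hη : 0 < η) : ∃ C : ℝ, 0 < C ∧ ∀ (m : ℕ) [NeZero m],
    Summable (fun l : ℕ+ => (Nat.gcd (l : ℕ) m : ℝ) ^ (1 / 4 : ℝ) * ((l : ℕ) : ℝ) ^ (-1 - η)) ∧
    ∑' l : ℕ+, (Nat.gcd (l : ℕ) m : ℝ) ^ (1 / 4 : ℝ) * ((l : ℕ) : ℝ) ^ (-1 - η) ≤ C * (m : ℝ) ^ η := by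
  obtain ⟨C, hC, hd⟩ := LibJes52.card_divisors_le_rpow η hη
  have hs : Summable (fun j : ℕ => (j : ℝ) ^ (-1 - η)) := Real.summable_nat_rpow.2 (by linarith)
  have hZ : 0 < ∑' j : ℕ, (j : ℝ) ^ (-1 - η) := by
    refine hs.tsum_pos (fun j => by positivity) 1 ?_
    simp
  refine ⟨C * ∑' j : ℕ, (j : ℝ) ^ (-1 - η), by positivity, fun m _ => ?_⟩
  have h0 : ∀ l : ℕ+, 0 ≤ (Nat.gcd (l : ℕ) m : ℝ) ^ (1 / 4 : ℝ) * ((l : ℕ) : ℝ) ^ (-1 - η) := fun l => by positivity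
  have h1 : ∀ u : Finset ℕ+, ∑ l ∈ u, (Nat.gcd (l : ℕ) m : ℝ) ^ (1 / 4 : ℝ) * ((l : ℕ) : ℝ) ^ (-1 - η) ≤
      C * (∑' j : ℕ, (j : ℝ) ^ (-1 - η)) * (m : ℝ) ^ η := fun u => by
    refine (fin_le η hη m u).trans ?_
    have := mul_le_mul_of_nonneg_right (hd m NeZero.one_le) hZ.le
    linarith
  exact ⟨summable_of_sum_le h0 h1, (summable_of_sum_le h0 h1).tsum_le_of_sum_le h1⟩

end Pool.Agent.LibSM47
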