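import Pool.Agent.LibSM47.C_F

/-! [SM47 C_K] `∑_{m ≤ M} m^{-1} pw(m)^{1/2} ≤ C M^η`.
Write `m = s² t`, `t` squarefree (`Nat.sq_mul_squarefree`), `s, t ≤ M`.  By `pw_sq_le`
`m^{-1} pw(m)^{1/2} ≤ (s² t)^{-1} s gcd(s,t)^{1/2} = gcd(s,t)^{1/2} / (s t)`.  The map `m ↦ (s,t)` is injective, so the sum is at most
`∑_{s,t ≤ M} gcd(s,t)^{1/2}/(s t) ≤ ∑_{d ≤ M} d^{1/2} ∑_{s',t' ≤ M} 1/(d s' d t') = ∑_d d^{-3/2} (∑_{s ≤ M} 1/s)^2 ≤ C (1 + log M)^2`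
(`gcd^{1/2} ≤ ∑_{d ∣ s, d ∣ t} d^{1/2}`, the gcd is one of the `d`; `harmonic_le_one_add_log`; `∑ d^{-3/2}` converges), and
`1 + log M ≤ (1 + 2/η) M^{η/2}` (`Real.log_le_rpow_div`). -/

set_option autoImplicit false

namespace Pool.Agent.LibSM47

private theorem C_K_decomp (m : ℕ) : ∃ p : ℕ × ℕ × ℕ, 1 ≤ m → 1 ≤ p.1 ∧ 1 ≤ p.2.1 ∧ 1 ≤ p.2.2 ∧
    m = (p.1 * p.2.1) ^ 2 * (p.1 * p.2.2) ∧
    (m : ℝ)⁻¹ * (pw m : ℝ) ^ (1 / 2 : ℝ) ≤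
      (p.1 : ℝ) ^ (-(3 / 2) : ℝ) * ((p.2.1 : ℝ)⁻¹ * (p.2.2 : ℝ)⁻¹) := by
  rcases Nat.eq_zero_or_pos m with hm0 | hm0
  · exact ⟨(1, 1, 1), fun h => by omega⟩
  obtain ⟨t, s, hst, ht⟩ := Nat.sq_mul_squarefree m
  have hs : 1 ≤ s := by
    rcases Nat.eq_zero_or_pos s with h | h
    · subst h
      simp at hst
      omega
    · exact h
  have ht1 : 1 ≤ t := by
    rcases Nat.eq_zero_or_pos t with h | h
    · subst h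
      simp at hst
      omega
    · exact h
  have hp := pw_sq_le s t hs ht
  rw [hst] at hp
  obtain ⟨d, hd⟩ : ∃ d : ℕ, d = Nat.gcd s t := ⟨_, rfl⟩
  have hd1 : 1 ≤ d := by rw [hd]; exact Nat.gcd_pos_of_pos_left _ hs
  obtain ⟨a, ha⟩ : d ∣ s := by rw [hd]; exact Nat.gcd_dvd_left s t
  obtain ⟨b, hb⟩ : d ∣ t := by rw [hd]; exact Nat.gcd_dvd_right s t
  rw [← hd] at hp
  have ha1 : 1 ≤ a := by
    rcases Nat.eq_zero_or_pos a with h | h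
    · subst h
      omega
    · exact h
  have hb1 : 1 ≤ b := by
    rcases Nat.eq_zero_or_pos b with h | h
    · subst h
      omega
    · exact h
  refine ⟨(d, a, b), fun _ => ⟨hd1, ha1, hb1, ?_, ?_⟩⟩
  · show m = (d * a) ^ 2 * (d * b)
    rw [← ha, ← hb, hst]
  · show (m : ℝ)⁻¹ * (pw m : ℝ) ^ (1 / 2 : ℝ) ≤ (d : ℝ) ^ (-(3 / 2) : ℝ) * ((a : ℝ)⁻¹ * (b : ℝ)⁻¹)
    have hd0 : (0 : ℝ) < d := by exact_mod_cast hd1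
    have ha0 : (0 : ℝ) < a := by exact_mod_cast ha1
    have hb0 : (0 : ℝ) < b := by exact_mod_cast hb1
    have h1 : (pw m : ℝ) ≤ ((d : ℝ) * a) ^ 2 * d := by
      rw [ha] at hp
      exact_mod_cast hp
    have h2 : (pw m : ℝ) ^ (1 / 2 : ℝ) ≤ ((d : ℝ) * a) * (d : ℝ) ^ (1 / 2 : ℝ) := by
      refine (Real.rpow_le_rpow (Nat.cast_nonneg _) h1 (by norm_num)).trans (le_of_eq ?_)
      rw [Real.mul_rpow (by positivity) hd0.le]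
      congr 1
      rw [← Real.sqrt_eq_rpow, Real.sqrt_sq (by positivity)]
    have h3 : (m : ℝ) = ((d : ℝ) * a) ^ 2 * (d * b) := by
      rw [← hst, ha, hb]
      push_cast
      ring
    have h4 : (d : ℝ) ^ (-(3 / 2) : ℝ) = (d : ℝ) ^ (1 / 2 : ℝ) / (d : ℝ) ^ 2 := by
      rw [show (-(3 / 2) : ℝ) = 1 / 2 - 2 by norm_num, Real.rpow_sub hd0, Real.rpow_two]
    have hm0' : (0 : ℝ) ≤ (m : ℝ)⁻¹ := by positivity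
    calc (m : ℝ)⁻¹ * (pw m : ℝ) ^ (1 / 2 : ℝ)
        ≤ (m : ℝ)⁻¹ * (((d : ℝ) * a) * (d : ℝ) ^ (1 / 2 : ℝ)) := mul_le_mul_of_nonneg_left h2 hm0'
      _ = (d : ℝ) ^ (-(3 / 2) : ℝ) * ((a : ℝ)⁻¹ * (b : ℝ)⁻¹) := by
        rw [h3, h4]
        generalize (d : ℝ) ^ (1 / 2 : ℝ) = r
        field_simp

/-- C7. -/
theorem pw_sum (η : ℝ) (hη : 0 < η) : ∃ C : ℝ, 0 < C ∧ ∀ M : ℕ, 1 ≤ M →
    ∑ m ∈ Finset.Icc 1 M, (m : ℝ)⁻¹ * (pw m : ℝ) ^ (1 / 2 : ℝ) ≤ C * (M : ℝ) ^ η := by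
  have hsum : Summable (fun n : ℕ => (n : ℝ) ^ (-(3 / 2) : ℝ)) :=
    Real.summable_nat_rpow.mpr (by norm_num)
  obtain ⟨S, hSd⟩ : ∃ S : ℝ, S = ∑' n : ℕ, (n : ℝ) ^ (-(3 / 2) : ℝ) := ⟨_, rfl⟩
  have hS : 0 ≤ S := by
    rw [hSd]
    exact tsum_nonneg (fun n => Real.rpow_nonneg (Nat.cast_nonneg _) _)
  refine ⟨(S + 1) * (1 + 2 / η) ^ 2, by positivity, ?_⟩
  intro M hM
  choose φ hφ using C_K_decomp
  obtain ⟨H, hH⟩ : ∃ H : ℝ, H = ∑ a ∈ Finset.Icc 1 M, (a : ℝ)⁻¹ := ⟨_, rfl⟩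
  have hM1 : (1 : ℝ) ≤ M := by exact_mod_cast hM
  have hH0 : 0 ≤ H := by
    rw [hH]
    exact Finset.sum_nonneg (fun a _ => by positivity)
  have hH1 : H ≤ 1 + Real.log M := by
    have h := harmonic_le_one_add_log M
    rw [harmonic_eq_sum_Icc] at h
    push_cast at h
    rw [hH]
    exact h
  have hlog : 1 + Real.log M ≤ (1 + 2 / η) * (M : ℝ) ^ (η / 2) := by
    have h1 := Real.log_le_rpow_div (x := (M : ℝ)) (by positivity) (half_pos hη)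
    have h2 : (1 : ℝ) ≤ (M : ℝ) ^ (η / 2) := Real.one_le_rpow hM1 (by positivity)
    have h3 : (M : ℝ) ^ (η / 2) / (η / 2) = 2 / η * (M : ℝ) ^ (η / 2) := by
      field_simp
    rw [h3] at h1
    linarith
  have hHsq : H * H ≤ (1 + 2 / η) ^ 2 * (M : ℝ) ^ η := by
    have h1 : H ≤ (1 + 2 / η) * (M : ℝ) ^ (η / 2) := hH1.trans hlog
    calc H * H ≤ ((1 + 2 / η) * (M : ℝ) ^ (η / 2)) * ((1 + 2 / η) * (M : ℝ) ^ (η / 2)) :=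
          mul_le_mul h1 h1 hH0 (by positivity)
      _ = (1 + 2 / η) ^ 2 * ((M : ℝ) ^ (η / 2) * (M : ℝ) ^ (η / 2)) := by ring
      _ = (1 + 2 / η) ^ 2 * (M : ℝ) ^ η := by
        rw [← Real.rpow_add (by positivity), add_halves]
  have hinj : Set.InjOn φ (Finset.Icc 1 M : Finset ℕ) := by
    intro m hm m' hm' he
    have h1 := (hφ m (Finset.mem_Icc.mp (Finset.mem_coe.mp hm)).1).2.2.2.1
    have h2 := (hφ m' (Finset.mem_Icc.mp (Finset.mem_coe.mp hm')).1).2.2.2.1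
    rw [h1, h2, he]
  have hsub : (Finset.Icc 1 M).image φ ⊆
      Finset.Icc 1 M ×ˢ (Finset.Icc 1 M ×ˢ Finset.Icc 1 M) := by
    intro p hp
    obtain ⟨m, hm, rfl⟩ := Finset.mem_image.mp hp
    obtain ⟨hm1, hmM⟩ := Finset.mem_Icc.mp hm
    obtain ⟨h1, h2, h3, h4, -⟩ := hφ m hm1
    have d1 : (φ m).1 ∣ m := by
      refine ⟨(φ m).1 * (φ m).2.1 ^ 2 * ((φ m).1 * (φ m).2.2), ?_⟩
      conv_lhs => rw [h4]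
      ring
    have d2 : (φ m).2.1 ∣ m := by
      refine ⟨(φ m).1 ^ 2 * (φ m).2.1 * ((φ m).1 * (φ m).2.2), ?_⟩
      conv_lhs => rw [h4]
      ring
    have d3 : (φ m).2.2 ∣ m := by
      refine ⟨((φ m).1 * (φ m).2.1) ^ 2 * (φ m).1, ?_⟩
      conv_lhs => rw [h4]
      ring
    simp only [Finset.mem_product, Finset.mem_Icc]
    exact ⟨⟨h1, (Nat.le_of_dvd hm1 d1).trans hmM⟩, ⟨h2, (Nat.le_of_dvd hm1 d2).trans hmM⟩,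
      ⟨h3, (Nat.le_of_dvd hm1 d3).trans hmM⟩⟩
  have hW : ∑ y ∈ Finset.Icc 1 M ×ˢ Finset.Icc 1 M, ((y.1 : ℕ) : ℝ)⁻¹ * ((y.2 : ℕ) : ℝ)⁻¹ = H * H := by
    rw [Finset.sum_product, hH, Finset.sum_mul_sum]
  have hG : ∑ p ∈ Finset.Icc 1 M ×ˢ (Finset.Icc 1 M ×ˢ Finset.Icc 1 M),
      ((p.1 : ℕ) : ℝ) ^ (-(3 / 2) : ℝ) * (((p.2.1 : ℕ) : ℝ)⁻¹ * ((p.2.2 : ℕ) : ℝ)⁻¹) =
      (∑ d ∈ Finset.Icc 1 M, (d : ℝ) ^ (-(3 / 2) : ℝ)) * (H * H) := by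
    rw [Finset.sum_product, Finset.sum_mul]
    apply Finset.sum_congr rfl
    intro d _
    rw [← hW, Finset.mul_sum]
  have hD : ∑ d ∈ Finset.Icc 1 M, (d : ℝ) ^ (-(3 / 2) : ℝ) ≤ S := by
    rw [hSd]
    exact hsum.sum_le_tsum _ (fun n _ => Real.rpow_nonneg (Nat.cast_nonneg _) _)
  calc ∑ m ∈ Finset.Icc 1 M, (m : ℝ)⁻¹ * (pw m : ℝ) ^ (1 / 2 : ℝ)
      ≤ ∑ m ∈ Finset.Icc 1 M, ((φ m).1 : ℝ) ^ (-(3 / 2) : ℝ) *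
          (((φ m).2.1 : ℝ)⁻¹ * ((φ m).2.2 : ℝ)⁻¹) :=
        Finset.sum_le_sum fun m hm => (hφ m (Finset.mem_Icc.mp hm).1).2.2.2.2
    _ = ∑ p ∈ (Finset.Icc 1 M).image φ, ((p.1 : ℕ) : ℝ) ^ (-(3 / 2) : ℝ) *
          (((p.2.1 : ℕ) : ℝ)⁻¹ * ((p.2.2 : ℕ) : ℝ)⁻¹) := by
        rw [Finset.sum_image hinj]
    _ ≤ ∑ p ∈ Finset.Icc 1 M ×ˢ (Finset.Icc 1 M ×ˢ Finset.Icc 1 M),
          ((p.1 : ℕ) : ℝ) ^ (-(3 / 2) : ℝ) * (((p.2.1 : ℕ) : ℝ)⁻¹ * ((p.2.2 : ℕ) : ℝ)⁻¹) :=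
        Finset.sum_le_sum_of_subset_of_nonneg hsub (fun p _ _ => by positivity)
    _ = (∑ d ∈ Finset.Icc 1 M, (d : ℝ) ^ (-(3 / 2) : ℝ)) * (H * H) := hG
    _ ≤ (S + 1) * ((1 + 2 / η) ^ 2 * (M : ℝ) ^ η) := by
        apply mul_le_mul (by linarith) hHsq (mul_nonneg hH0 hH0) (by linarith)
    _ = (S + 1) * (1 + 2 / η) ^ 2 * (M : ℝ) ^ η := by ring

end Pool.Agent.LibSM47
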