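import Pool.Agent.LibSM47.D_Defs

/-! ROW D_A1 (SHORT/MEDIUM): counting solutions of `u w = 0` and the mean of `gcd(u, m)`.

card_zero: `u * w = 0` in `ZMod m`. With `g = gcd(w.val, m) = gd m w`: the number of `u mod m` with `m ∣ u.val * w.val` is `g`. Transfer to
`Finset.range m` (`ZMod.val`, `ZMod.natCast_eq_zero_iff`; bijection `u ↦ u.val`, `ZMod.val_lt`), then see `x08_dvi_sum` in
Pool/Agent/LibPH/X08.lean (`∑_{c < n} [n ∣ b c] = gcd(b, n)`, proved there, copy it). Alternatively AddMonoidHom kernel/range counting.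
sum_gd: `∑_{u mod m} gcd(u,m) = ∑_{d ∣ m} φ(d) m/d`: `gcd(u,m) = ∑_{d ∣ (u,m)} φ(d)` (`Nat.sum_totient`) and
`#{u < m : d ∣ u} = m/d`; template: `nun_eq`, `x10_gcd`, `x10_card` in Pool/Agent/LibPH/X10.lean. Or group by `d = gcd`: the number of
`u < m` with `gcd = m/d` is `φ(d)` (`Nat.totient` lemmas) giving `∑ φ(d) m/d` directly. -/

set_option autoImplicit false

namespace Pool.Agent.LibSM47.SD

open MeasureTheory Set Filter Topology Complex

private theorem DA1_val (m : ℕ) [NeZero m] (f : ℕ → ℝ) :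
    ∑ u : ZMod m, f u.val = ∑ c ∈ Finset.range m, f c := by
  refine Finset.sum_bij' (fun u _ => u.val) (fun c _ => (c : ZMod m)) ?_ ?_ ?_ ?_ ?_
  · intro u _
    exact Finset.mem_range.2 (ZMod.val_lt u)
  · intro c _
    exact Finset.mem_univ _
  · intro u _
    exact ZMod.natCast_zmod_val u
  · intro c hc
    exact ZMod.val_cast_of_lt (Finset.mem_range.1 hc)
  · intro u _
    rfl

private theorem DA1_dvi {n : ℕ} (hn : 1 ≤ n) (b : ℕ) :
    ∑ c ∈ Finset.range n, (if n ∣ b * c then (1 : ℝ) else 0) = (Nat.gcd b n : ℝ) := by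
  obtain ⟨b', n', hco, hb, hnn⟩ := Nat.exists_coprime b n
  set g := Nat.gcd b n with hg
  have hg0 : 0 < g := Nat.gcd_pos_of_pos_right b hn
  have hn'0 : 0 < n' := Nat.pos_of_ne_zero (by rintro rfl; omega)
  have hiff : ∀ c, n ∣ b * c ↔ n' ∣ c := by
    intro c
    have h1 : n ∣ b * c ↔ g * n' ∣ g * (b' * c) := by
      rw [mul_comm g n', ← hnn, show g * (b' * c) = (b' * g) * c by ring, ← hb]
    rw [h1, Nat.mul_dvd_mul_iff_left hg0]
    exact ⟨fun h => (Nat.Coprime.symm hco).dvd_of_dvd_mul_left h, fun h => Dvd.dvd.mul_left h b'⟩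
  rw [Finset.sum_boole]
  have h2 : (Finset.range n).filter (fun c => n ∣ b * c) =
      (Finset.range g).image (fun j => n' * j) := by
    ext c
    simp only [Finset.mem_filter, Finset.mem_range, Finset.mem_image, hiff]
    constructor
    · rintro ⟨hc, j, rfl⟩
      refine ⟨j, ?_, rfl⟩
      rw [hnn] at hc
      exact lt_of_mul_lt_mul_left hc (Nat.zero_le n')
    · rintro ⟨j, hj, rfl⟩
      refine ⟨?_, Dvd.intro j rfl⟩
      rw [hnn]
      exact Nat.mul_lt_mul_of_pos_left hj hn'0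
  rw [h2, Finset.card_image_of_injective _ (fun x y hxy => Nat.eq_of_mul_eq_mul_left hn'0 hxy),
    Finset.card_range]

private theorem DA1_gcd {n : ℕ} (hn : 1 ≤ n) (a : ℕ) :
    Nat.gcd a n = ∑ d ∈ n.divisors, Nat.totient d * (if d ∣ a then 1 else 0) := by
  have hg : 0 < Nat.gcd a n := Nat.gcd_pos_of_pos_right a hn
  conv_lhs => rw [← Nat.sum_totient (Nat.gcd a n)]
  simp only [mul_ite, mul_one, mul_zero]
  rw [← Finset.sum_filter]
  refine Finset.sum_congr ?_ fun _ _ => rfl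
  ext d
  simp only [Finset.mem_filter, Nat.mem_divisors, Nat.dvd_gcd_iff]
  constructor
  · rintro ⟨⟨h1, h2⟩, h3⟩
    exact ⟨⟨h2, by omega⟩, h1⟩
  · rintro ⟨⟨h1, h2⟩, h3⟩
    exact ⟨⟨h3, h1⟩, hg.ne'⟩

private theorem DA1_card {n d : ℕ} (hn : 1 ≤ n) (hd : d ∣ n) :
    ((Finset.range n).filter (fun r => d ∣ r)).card = n / d := by
  have hd0 : 0 < d := Nat.pos_of_dvd_of_pos hd hn
  obtain ⟨k, rfl⟩ := hd
  rw [Nat.mul_div_cancel_left k hd0]
  have h2 : (Finset.range (d * k)).filter (fun r => d ∣ r) =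
      (Finset.range k).image (fun j => d * j) := by
    ext c
    simp only [Finset.mem_filter, Finset.mem_range, Finset.mem_image]
    constructor
    · rintro ⟨hc, j, rfl⟩
      exact ⟨j, lt_of_mul_lt_mul_left hc (Nat.zero_le d), rfl⟩
    · rintro ⟨j, hj, rfl⟩
      exact ⟨Nat.mul_lt_mul_of_pos_left hj hd0, Dvd.intro j rfl⟩
  rw [h2, Finset.card_image_of_injective _ (fun x y hxy => Nat.eq_of_mul_eq_mul_left hd0 hxy),
    Finset.card_range]

theorem card_zero (m : ℕ) [NeZero m] (w : ZMod m) :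
    ∑ u : ZMod m, (if u * w = 0 then (1 : ℝ) else 0) = gd m w := by
  have hm : 1 ≤ m := Nat.one_le_iff_ne_zero.2 (NeZero.ne m)
  have h1 : ∀ u : ZMod m, (if u * w = 0 then (1 : ℝ) else 0) =
      (fun c : ℕ => if m ∣ w.val * c then (1 : ℝ) else 0) u.val := by
    intro u
    have h2 : u * w = 0 ↔ m ∣ w.val * u.val := by
      rw [← ZMod.natCast_eq_zero_iff]
      push_cast
      rw [ZMod.natCast_zmod_val, ZMod.natCast_zmod_val, mul_comm]
    simp only [h2]
  rw [Finset.sum_congr rfl fun u _ => h1 u,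
    DA1_val m (fun c : ℕ => if m ∣ w.val * c then (1 : ℝ) else 0), DA1_dvi hm]
  rfl

theorem sum_gd (m : ℕ) [NeZero m] : ∑ u : ZMod m, (gd m u : ℝ) = m * hh m := by
  have hm : 1 ≤ m := Nat.one_le_iff_ne_zero.2 (NeZero.ne m)
  have hm0 : (m : ℝ) ≠ 0 := by exact_mod_cast NeZero.ne m
  have h0 : ∑ u : ZMod m, (gd m u : ℝ) = ∑ c ∈ Finset.range m, ((Nat.gcd c m : ℕ) : ℝ) :=
    DA1_val m fun c => ((Nat.gcd c m : ℕ) : ℝ)
  have h1 : ∑ r ∈ Finset.range m, Nat.gcd r m = ∑ d ∈ m.divisors, Nat.totient d * (m / d) := by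
    simp only [DA1_gcd hm]
    rw [Finset.sum_comm]
    refine Finset.sum_congr rfl fun d hd => ?_
    rw [← Finset.mul_sum, Finset.sum_boole, DA1_card hm (Nat.dvd_of_mem_divisors hd)]
    simp
  have h3 : ((∑ r ∈ Finset.range m, Nat.gcd r m : ℕ) : ℝ) =
      ((∑ d ∈ m.divisors, Nat.totient d * (m / d) : ℕ) : ℝ) := by rw [h1]
  push_cast at h3
  rw [h0, h3]
  unfold hh
  rw [Finset.mul_sum]
  refine Finset.sum_congr rfl fun d hd => ?_
  have hd0 : (d : ℝ) ≠ 0 := by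
    have := Nat.pos_of_mem_divisors hd
    exact_mod_cast this.ne'
  rw [Nat.cast_div (Nat.dvd_of_mem_divisors hd) hd0]
  ring

theorem hh_le (m : ℕ) [NeZero m] : 0 ≤ hh m ∧ hh m ≤ m := by
  have hm : 0 < (m : ℝ) := by exact_mod_cast Nat.pos_of_ne_zero (NeZero.ne m)
  refine ⟨Finset.sum_nonneg fun d _ => by positivity, ?_⟩
  have h1 := sum_gd m
  have h2 : ∑ u : ZMod m, (gd m u : ℝ) ≤ ∑ _u : ZMod m, (m : ℝ) := by
    refine Finset.sum_le_sum fun u _ => ?_
    exact_mod_cast Nat.gcd_le_right _ (Nat.pos_of_ne_zero (NeZero.ne m))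
  rw [h1, Finset.sum_const, Finset.card_univ, ZMod.card, nsmul_eq_mul] at h2
  exact le_of_mul_le_mul_left h2 hm

end Pool.Agent.LibSM47.SD
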