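import Pool.Agent.LibSM47.D_A1

/-! ROW D_A2 (MEDIUM): `Φ` has mean zero in every variable and is bounded by 8.

sum over `u` of `ff m n (u,v,w) = stdAddChar (-(n*u*v*w))`: it is `m` if `v*w = 0` and `0` otherwise: `AddChar.sum_mulShift` with
`ZMod.isPrimitive_stdAddChar m` (`-(n*u*v*w) = u * (-(n*v*w))`, `-(n*v*w) = 0 ↔ v*w = 0` since `n` is a unit).
sum over `u` of `ft m (u,v,w)`: `m [vw=0] + gd m w + gd m v - (m*hh m + m*gd m v + m*gd m w)/m + m*hh m/m = m [vw=0]`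
(D_A1). The other two variables in the same way (or by symmetry: `mul_comm`).
norm: `‖ff‖ = 1` (`AddChar`/`Circle` norm: `ZMod.stdAddChar_apply`, `Circle.norm_coe`), `0 ≤ gd/m ≤ 1`, `0 ≤ hh m/m ≤ 1`. -/

set_option autoImplicit false

namespace Pool.Agent.LibSM47.SD

open MeasureTheory Set Filter Topology Complex

private theorem dA2_ff (m : ℕ) [NeZero m] (n : ZMod m) (hn : IsUnit n) (v w : ZMod m) :
    ∑ u : ZMod m, ff m n (u, v, w) = if v * w = 0 then (m : ℂ) else 0 := by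
  have h1 : ∀ u : ZMod m, ff m n (u, v, w) = ZMod.stdAddChar (u * (-(n * (v * w)))) := by
    intro u
    unfold ff
    congr 1
    ring
  have h2 : -(n * (v * w)) = 0 ↔ v * w = 0 := by
    rw [neg_eq_zero, hn.mul_right_eq_zero]
  simp only [h1]
  rw [AddChar.sum_mulShift _ (ZMod.isPrimitive_stdAddChar m), ZMod.card]
  by_cases h : v * w = 0
  · rw [if_pos h, if_pos (h2.2 h)]
  · rw [if_neg h, if_neg fun h3 => h (h2.1 h3), Nat.cast_zero]

private theorem dA2_ft (m : ℕ) [NeZero m] (v w : ZMod m) :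
    ∑ u : ZMod m, ft m (u, v, w) = if v * w = 0 then (m : ℝ) else 0 := by
  have hm : (m : ℝ) ≠ 0 := by exact_mod_cast NeZero.ne m
  have h1 : ∀ u : ZMod m, ft m (u, v, w) = ((if v * w = 0 then 1 else 0) +
      (if u * w = 0 then 1 else 0) + (if u * v = 0 then 1 else 0)
      - ((gd m u : ℝ) + gd m v + gd m w) / m + hh m / m) := fun u => rfl
  simp only [h1]
  rw [Finset.sum_add_distrib, Finset.sum_sub_distrib, Finset.sum_add_distrib,
    Finset.sum_add_distrib, ← Finset.sum_div, Finset.sum_add_distrib, Finset.sum_add_distrib,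
    card_zero, card_zero, sum_gd]
  simp only [Finset.sum_const, Finset.card_univ, ZMod.card, nsmul_eq_mul]
  by_cases h : v * w = 0
  · rw [if_pos h, if_pos h]
    field_simp
    ring
  · rw [if_neg h, if_neg h]
    field_simp
    ring

private theorem dA2_one (m : ℕ) [NeZero m] (n : ZMod m) (hn : IsUnit n) (v w : ZMod m) :
    ∑ u : ZMod m, Ph m n (u, v, w) = 0 := by
  unfold Ph
  rw [Finset.sum_sub_distrib, dA2_ff m n hn, ← Complex.ofReal_sum, dA2_ft]
  by_cases h : v * w = 0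
  · rw [if_pos h, if_pos h]
    simp
  · rw [if_neg h, if_neg h]
    simp

private theorem dA2_swap (m : ℕ) [NeZero m] (n : ZMod m) (u v w : ZMod m) :
    Ph m n (u, v, w) = Ph m n (v, u, w) := by
  unfold Ph ff ft
  dsimp only
  rw [show -(n * u * v * w) = -(n * v * u * w) by ring, mul_comm u v]
  congr 2
  ring

private theorem dA2_swap' (m : ℕ) [NeZero m] (n : ZMod m) (u v w : ZMod m) :
    Ph m n (u, v, w) = Ph m n (w, v, u) := by
  unfold Ph ff ft
  dsimp only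
  rw [show -(n * u * v * w) = -(n * w * v * u) by ring, mul_comm v w, mul_comm u w, mul_comm u v]
  congr 2
  ring

theorem Ph_marg (m : ℕ) [NeZero m] (n : ZMod m) (hn : IsUnit n) :
    (∀ v w : ZMod m, ∑ u : ZMod m, Ph m n (u, v, w) = 0) ∧
    (∀ u w : ZMod m, ∑ v : ZMod m, Ph m n (u, v, w) = 0) ∧
    (∀ u v : ZMod m, ∑ w : ZMod m, Ph m n (u, v, w) = 0) := by
  refine ⟨dA2_one m n hn, fun u w => ?_, fun u v => ?_⟩
  · rw [← dA2_one m n hn u w]
    exact Finset.sum_congr rfl fun v _ => dA2_swap m n u v w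
  · rw [← dA2_one m n hn v u]
    exact Finset.sum_congr rfl fun w _ => dA2_swap' m n u v w

private theorem dA2_gd (m : ℕ) [NeZero m] (v : ZMod m) : 0 ≤ (gd m v : ℝ) / m ∧
    (gd m v : ℝ) / m ≤ 1 := by
  have hm : 0 < m := Nat.pos_of_ne_zero (NeZero.ne m)
  have h1 : gd m v ≤ m := Nat.gcd_le_right _ hm
  have h2 : (gd m v : ℝ) ≤ m := by exact_mod_cast h1
  have h3 : (0 : ℝ) < m := by exact_mod_cast hm
  exact ⟨by positivity, (div_le_one h3).2 h2⟩

theorem Ph_norm (m : ℕ) [NeZero m] (n : ZMod m) (v : Z3 m) : ‖Ph m n v‖ ≤ 8 := by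
  have hm : 0 < m := Nat.pos_of_ne_zero (NeZero.ne m)
  have h3 : (0 : ℝ) < m := by exact_mod_cast hm
  obtain ⟨a1, a2⟩ := dA2_gd m v.1
  obtain ⟨b1, b2⟩ := dA2_gd m v.2.1
  obtain ⟨c1, c2⟩ := dA2_gd m v.2.2
  obtain ⟨d1, d2⟩ := hh_le m
  have d3 : 0 ≤ hh m / m := by positivity
  have d4 : hh m / m ≤ 1 := (div_le_one h3).2 d2
  have hi : ∀ p : Prop, ∀ [Decidable p], (0 : ℝ) ≤ (if p then 1 else 0) ∧
      (if p then (1 : ℝ) else 0) ≤ 1 := by
    intro p _
    split_ifs <;> norm_num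
  obtain ⟨e1, e2⟩ := hi (v.2.1 * v.2.2 = 0)
  obtain ⟨f1, f2⟩ := hi (v.1 * v.2.2 = 0)
  obtain ⟨g1, g2⟩ := hi (v.1 * v.2.1 = 0)
  have h4 : ft m v = (if v.2.1 * v.2.2 = 0 then 1 else 0) + (if v.1 * v.2.2 = 0 then 1 else 0) +
      (if v.1 * v.2.1 = 0 then 1 else 0) - ((gd m v.1 : ℝ) / m + gd m v.2.1 / m + gd m v.2.2 / m)
      + hh m / m := by
    unfold ft
    ring
  have h5 : |ft m v| ≤ 7 := by
    rw [h4, abs_le]
    constructor <;> linarith
  have h6 : ‖ff m n v‖ = 1 := AddChar.norm_apply _ _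
  have h7 : ‖((ft m v : ℝ) : ℂ)‖ ≤ 7 := by
    rw [Complex.norm_real]
    exact h5
  calc ‖Ph m n v‖ ≤ ‖ff m n v‖ + ‖((ft m v : ℝ) : ℂ)‖ := norm_sub_le _ _
    _ ≤ 8 := by linarith

end Pool.Agent.LibSM47.SD
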