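import Pool.Agent.LibSM47.D_Defs

/-! ROW D_A3 (SHORT, pure finite algebra, only Mathlib): functions with vanishing marginals do not see constants.

Expand `(A u - a)(B v - b)(C w - c) = A B C + terms each missing one of the three variables` (`Fintype.sum_prod_type`, `Finset.sum_comm`,
`Finset.mul_sum`). E.g. prove first `∑_v Φ(v) (A v.1 - a) * G v.2 = ∑_v Φ(v) A v.1 * G v.2` for every `G`, etc. -/

set_option autoImplicit false

namespace Pool.Agent.LibSM47.SD

open MeasureTheory Set Filter Topology Complex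

theorem marg3 {α : Type*} [Fintype α] (Φ : α × α × α → ℂ) (h1 : ∀ v w, ∑ u, Φ (u, v, w) = 0)
    (h2 : ∀ u w, ∑ v, Φ (u, v, w) = 0) (h3 : ∀ u v, ∑ w, Φ (u, v, w) = 0) (A B C : α → ℂ) (a b c : ℂ) :
    ∑ v : α × α × α, Φ v * ((A v.1 - a) * (B v.2.1 - b) * (C v.2.2 - c)) =
      ∑ v : α × α × α, Φ v * (A v.1 * B v.2.1 * C v.2.2) := by
  have z1 : ∀ G : α → α → ℂ, ∑ v : α × α × α, Φ v * G v.2.1 v.2.2 = 0 := by
    intro G
    rw [Fintype.sum_prod_type, Finset.sum_comm]
    refine Finset.sum_eq_zero fun x _ => ?_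
    change ∑ u, Φ (u, x.1, x.2) * G x.1 x.2 = 0
    rw [← Finset.sum_mul, h1 x.1 x.2, zero_mul]
  have z2 : ∀ G : α → α → ℂ, ∑ v : α × α × α, Φ v * G v.1 v.2.2 = 0 := by
    intro G
    rw [Fintype.sum_prod_type]
    refine Finset.sum_eq_zero fun u _ => ?_
    rw [Fintype.sum_prod_type, Finset.sum_comm]
    refine Finset.sum_eq_zero fun w _ => ?_
    change ∑ v, Φ (u, v, w) * G u w = 0
    rw [← Finset.sum_mul, h2 u w, zero_mul]
  have z3 : ∀ G : α → α → ℂ, ∑ v : α × α × α, Φ v * G v.1 v.2.1 = 0 := by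
    intro G
    rw [Fintype.sum_prod_type]
    refine Finset.sum_eq_zero fun u _ => ?_
    rw [Fintype.sum_prod_type]
    refine Finset.sum_eq_zero fun v _ => ?_
    change ∑ w, Φ (u, v, w) * G u v = 0
    rw [← Finset.sum_mul, h3 u v, zero_mul]
  have e : ∀ v : α × α × α, Φ v * ((A v.1 - a) * (B v.2.1 - b) * (C v.2.2 - c)) =
      Φ v * (A v.1 * B v.2.1 * C v.2.2) - Φ v * (a * (B v.2.1 - b) * (C v.2.2 - c)) -
        Φ v * (b * A v.1 * (C v.2.2 - c)) - Φ v * (c * A v.1 * B v.2.1) := fun v => by ring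
  rw [Finset.sum_congr rfl fun v _ => e v, Finset.sum_sub_distrib, Finset.sum_sub_distrib,
    Finset.sum_sub_distrib, z1 (fun v w => a * (B v - b) * (C w - c)),
    z2 (fun u w => b * A u * (C w - c)), z3 (fun u v => c * A u * B v), sub_zero, sub_zero,
    sub_zero]

end Pool.Agent.LibSM47.SD
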