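import Pool.Agent.LibSM47.D_Defs
import Pool.Agent.LibPH.X03

/-! ROW D_B0 (SHORT/MEDIUM): summability over triples of positive integers.

Templates in Pool/Agent/LibPH/X03.lean (index `ℕ × ℕ × ℕ` with `q+1`): `summable_pr`, `F3_summable`. Transport along
`Equiv.pnatEquivNat` (`n ↦ n.natPred`, `PNat.natPred_add_one`) in each factor, or copy the proofs with `ℕ+`.
norm_pr: `Complex.norm_natCast_cpow_of_pos`. -/

set_option autoImplicit false

namespace Pool.Agent.LibSM47.SD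

open MeasureTheory Set Filter Topology Complex

/-- The reindexing. -/
private def eTr : Tr ≃ ℕ × ℕ × ℕ :=
  Equiv.pnatEquivNat.prodCongr (Equiv.pnatEquivNat.prodCongr Equiv.pnatEquivNat)

private theorem pr_eTr (a : Tr) : Pool.Agent.LibPH.pr (eTr a) = pr a := by
  obtain ⟨x, y, z⟩ := a
  show (x.natPred + 1) * (y.natPred + 1) * (z.natPred + 1) = (x : ℕ) * y * z
  rw [PNat.natPred_add_one, PNat.natPred_add_one, PNat.natPred_add_one]

theorem pr_pos (a : Tr) : 0 < pr a := by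
  unfold pr
  have h1 := a.1.pos
  have h2 := a.2.1.pos
  have h3 := a.2.2.pos
  positivity

theorem pr_cast (a : Tr) (s : ℂ) :
    (pr a : ℂ) ^ s = (((a.1 : ℕ) : ℂ) ^ s * ((a.2.1 : ℕ) : ℂ) ^ s) * ((a.2.2 : ℕ) : ℂ) ^ s := by
  unfold pr
  rw [Nat.cast_mul, Nat.cast_mul, ← Nat.cast_mul, Complex.natCast_mul_natCast_cpow, Nat.cast_mul,
    Complex.natCast_mul_natCast_cpow]

theorem norm_pr_cpow (a : Tr) (s : ℂ) : ‖(pr a : ℂ) ^ s‖ = (pr a : ℝ) ^ s.re := by
  exact Complex.norm_natCast_cpow_of_pos (pr_pos a) s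

theorem summable_pr {σ : ℝ} (hσ : 1 < σ) : Summable fun a : Tr => (pr a : ℝ) ^ (-σ) := by
  have h := eTr.summable_iff.2 (Pool.Agent.LibPH.summable_pr hσ)
  refine h.congr fun a => ?_
  simp only [Function.comp]
  rw [pr_eTr]

theorem summable_exp {κ : ℂ} (hκ : 0 < κ.re) : Summable fun a : Tr => ‖cexp (-κ * pr a)‖ := by
  have h := eTr.summable_iff.2 (Pool.Agent.LibPH.F3_summable hκ)
  refine h.congr fun a => ?_
  simp only [Function.comp]
  rw [pr_eTr]
  congr 2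
  ring

/-- the bridge to LibPH -/
theorem tsum_Tr (g : ℕ → ℂ) : ∑' a : Tr, g (pr a) = ∑' q : ℕ × ℕ × ℕ, g (Pool.Agent.LibPH.pr q) := by
  rw [← eTr.tsum_eq fun q => g (Pool.Agent.LibPH.pr q)]
  exact tsum_congr fun a => by rw [pr_eTr]

end Pool.Agent.LibSM47.SD
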