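import Pool.Agent.LibSM47.D_A2
import Pool.Agent.LibSM47.D_A3
import Pool.Agent.LibSM47.D_B0

/-! ROW D_B1 (MEDIUM): the Dirichlet series of `Λ` for `Re s > 1`.

`lam m v s = ∑'_{a : ℕ+} ([a = v] - 1/m) a^{-s}` (`ZMod.LFunction_eq_LSeries`, LSeries over `ℕ` with the term at `0` equal to `0`:
`LSeries.term`, `tsum_pnat...`/`Equiv.pnatEquivNat`), absolutely convergent. The product of the three series is a series over `Tr`
(`tsum_mul_tsum_of_summable_norm` twice, `pr_cast`; template `zeta_cube` in Pool/Agent/LibPH/X03.lean), then the finite sum over `v`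
(`tsum_finsetSum`/`Summable.tsum_finsetSum`) and D_A3 `marg3` with `A u = [a₁ = u]`, `a = 1/m` etc.:
`∑_v Φ(v) [v.1 = a₁][v.2.1 = a₂][v.2.2 = a₃] = Φ (red m a)`. -/

set_option autoImplicit false

namespace Pool.Agent.LibSM47.SD

open MeasureTheory Set Filter Topology Complex

theorem lam_series (m : ℕ) [NeZero m] (v : ZMod m) {s : ℂ} (hs : 1 < s.re) :
    Summable (fun a : ℕ+ => ‖((if ((a : ℕ) : ZMod m) = v then (1 : ℂ) else 0) - 1 / m) * ((a : ℕ) : ℂ) ^ (-s)‖) ∧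
    lam m v s = ∑' a : ℕ+, ((if ((a : ℕ) : ZMod m) = v then (1 : ℂ) else 0) - 1 / m) * ((a : ℕ) : ℂ) ^ (-s) := by
  have hm1 : (1 : ℝ) ≤ m := by
    have h := Nat.pos_of_ne_zero (NeZero.ne m)
    exact_mod_cast h
  constructor
  · have h1 : Summable fun a : ℕ+ => ((a : ℕ) : ℝ) ^ (-s.re) :=
      (Real.summable_nat_rpow.2 (by linarith)).comp_injective PNat.coe_injective
    refine Summable.of_nonneg_of_le (fun a => norm_nonneg _) (fun a => ?_) (h1.mul_left 2)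
    rw [norm_mul, Complex.norm_natCast_cpow_of_pos a.pos, Complex.neg_re]
    refine mul_le_mul_of_nonneg_right ?_ (by positivity)
    have h2 : ‖(1 / m : ℂ)‖ ≤ 1 := by
      rw [norm_div, norm_one, Complex.norm_natCast]
      exact (div_le_one (by linarith)).2 hm1
    have h3 : ‖(if ((a : ℕ) : ZMod m) = v then (1 : ℂ) else 0)‖ ≤ 1 := by
      split_ifs
      · simp
      · simp
    calc ‖(if ((a : ℕ) : ZMod m) = v then (1 : ℂ) else 0) - 1 / m‖
        ≤ ‖(if ((a : ℕ) : ZMod m) = v then (1 : ℂ) else 0)‖ + ‖(1 / m : ℂ)‖ := norm_sub_le _ _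
      _ ≤ 2 := by linarith
  · unfold lam
    rw [ZMod.LFunction_eq_LSeries _ hs]
    unfold LSeries
    have h1 : Function.support (LSeries.term (fun n : ℕ =>
        (fun x : ZMod m => (if x = v then (1 : ℂ) else 0) - 1 / m) (n : ZMod m)) s) ⊆
        Set.range (fun a : ℕ+ => (a : ℕ)) := by
      intro n hn
      have hn0 : n ≠ 0 := by
        rintro rfl
        exact hn (LSeries.term_zero _ _)
      exact ⟨⟨n, Nat.pos_of_ne_zero hn0⟩, rfl⟩
    rw [← Function.Injective.tsum_eq PNat.coe_injective h1]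
    refine tsum_congr fun a => ?_
    rw [LSeries.term_of_ne_zero a.pos.ne', Complex.cpow_neg, div_eq_mul_inv]

theorem Lam_series (m : ℕ) [NeZero m] (n : ZMod m) (hn : IsUnit n) {s : ℂ} (hs : 1 < s.re) :
    Lam m n s = ∑' a : Tr, Ph m n (red m a) * (pr a : ℂ) ^ (-s) := by
  classical
  obtain ⟨f, hf⟩ : ∃ f : ZMod m → ℕ+ → ℂ, f = fun v (a : ℕ+) =>
    ((if ((a : ℕ) : ZMod m) = v then (1 : ℂ) else 0) - 1 / m) * ((a : ℕ) : ℂ) ^ (-s) := ⟨_, rfl⟩
  have hfs : ∀ v, Summable (fun a => ‖f v a‖) := fun v => by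
    rw [hf]
    exact (lam_series m v hs).1
  have hfl : ∀ v, lam m v s = ∑' a, f v a := fun v => by
    rw [hf]
    exact (lam_series m v hs).2
  have h2s : ∀ v w : ZMod m, Summable fun q : ℕ+ × ℕ+ => ‖f v q.1 * f w q.2‖ := fun v w =>
    Summable.mul_norm (f := f v) (g := f w) (hfs v) (hfs w)
  have h3s : ∀ v : Z3 m, Summable fun a : Tr => ‖f v.1 a.1 * (f v.2.1 a.2.1 * f v.2.2 a.2.2)‖ :=
    fun v => Summable.mul_norm (f := f v.1) (g := fun q : ℕ+ × ℕ+ => f v.2.1 q.1 * f v.2.2 q.2)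
      (hfs v.1) (h2s v.2.1 v.2.2)
  have h3 : ∀ v : Z3 m, lam m v.1 s * lam m v.2.1 s * lam m v.2.2 s =
      ∑' a : Tr, f v.1 a.1 * (f v.2.1 a.2.1 * f v.2.2 a.2.2) := by
    intro v
    have h4 : (∑' a, f v.2.1 a) * (∑' a, f v.2.2 a) = ∑' q : ℕ+ × ℕ+, f v.2.1 q.1 * f v.2.2 q.2 :=
      tsum_mul_tsum_of_summable_norm (hfs v.2.1) (hfs v.2.2)
    have h5 := tsum_mul_tsum_of_summable_norm (f := f v.1)
      (g := fun q : ℕ+ × ℕ+ => f v.2.1 q.1 * f v.2.2 q.2) (hfs v.1) (h2s v.2.1 v.2.2)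
    rw [hfl, hfl, hfl, mul_assoc, h4, h5]
  unfold Lam
  simp_rw [h3]
  simp_rw [← tsum_mul_left]
  rw [← Summable.tsum_finsetSum (fun v _ => ((h3s v).of_norm).mul_left _)]
  refine tsum_congr fun a => ?_
  obtain ⟨hm1, hm2, hm3⟩ := Ph_marg m n hn
  have h6 := marg3 (Ph m n) hm1 hm2 hm3 (fun u => if ((a.1 : ℕ) : ZMod m) = u then (1 : ℂ) else 0)
    (fun u => if ((a.2.1 : ℕ) : ZMod m) = u then (1 : ℂ) else 0)
    (fun u => if ((a.2.2 : ℕ) : ZMod m) = u then (1 : ℂ) else 0) (1 / m) (1 / m) (1 / m)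
  have h7 : ∑ v : Z3 m, Ph m n v * ((if ((a.1 : ℕ) : ZMod m) = v.1 then (1 : ℂ) else 0) *
      (if ((a.2.1 : ℕ) : ZMod m) = v.2.1 then (1 : ℂ) else 0) *
      (if ((a.2.2 : ℕ) : ZMod m) = v.2.2 then (1 : ℂ) else 0)) = Ph m n (red m a) := by
    rw [Finset.sum_eq_single (red m a)]
    · simp [red]
    · intro v _ hv
      have h8 : ¬ (((a.1 : ℕ) : ZMod m) = v.1 ∧ ((a.2.1 : ℕ) : ZMod m) = v.2.1 ∧
          ((a.2.2 : ℕ) : ZMod m) = v.2.2) := by
        rintro ⟨e1, e2, e3⟩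
        exact hv (Prod.ext e1.symm (Prod.ext e2.symm e3.symm))
      by_cases e1 : ((a.1 : ℕ) : ZMod m) = v.1
      · by_cases e2 : ((a.2.1 : ℕ) : ZMod m) = v.2.1
        · have e3 : ¬ ((a.2.2 : ℕ) : ZMod m) = v.2.2 := fun e3 => h8 ⟨e1, e2, e3⟩
          rw [if_neg e3]
          ring
        · rw [if_neg e2]
          ring
      · rw [if_neg e1]
        ring
    · intro h
      exact absurd (Finset.mem_univ _) h
  rw [← h7]
  beta_reduce at h6
  rw [← h6, Finset.sum_mul]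
  refine Finset.sum_congr rfl fun v _ => ?_
  rw [pr_cast, hf]
  ring

end Pool.Agent.LibSM47.SD
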