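import Pool.Agent.LibSM47.D_B1
import Pool.Agent.LibPH.X02

/-! ROW D_B2 (MEDIUM): Mellin representation on the line `Re s = 2`.

Template: `F3_mellin` in Pool/Agent/LibPH/X03.lean (copy and adapt): `exp_mellin` (LibPH.X02) for `z = pr a * κ`,
`(pr a * κ)^{-s} = (pr a)^{-s} κ^{-s}` (`x03_mul_cpow`), `hasSum_integral_of_summable_integral_norm` with coefficients `Ph` bounded by 8
(D_A2) and `∑ (pr a)^{-2} < ∞` (D_B0).
AA_one: `‖AA m n 1‖ ≤ 8 ∑_a e^{-pr a}` (`Ph_norm`, `summable_exp`).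
Integrability of the product: `‖Lam m n (2+iy)‖ ≤ 8 ∑ (pr a)^{-2}` (D_B1) times the integrable function of `exp_mellin` (measurability:
`Lam` is continuous on the line, e.g. `Lam` is a finite combination of `ZMod.LFunction`s: `differentiableAt_LFunction` for `s ≠ 1`). -/

set_option autoImplicit false

namespace Pool.Agent.LibSM47.SD

open MeasureTheory Set Filter Topology Complex

private theorem d_b2_ne (y : ℝ) : (2 : ℂ) + y * I ≠ 1 := by
  intro h
  have h1 := congrArg Complex.re h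
  norm_num at h1

private theorem d_b2_re (y : ℝ) : ((2 : ℂ) + y * I).re = 2 := by simp

private theorem d_b2_cont (m : ℕ) [NeZero m] (n : ZMod m) :
    Continuous fun y : ℝ => Lam m n ((2 : ℂ) + y * I) := by
  have h1 : ∀ v : ZMod m, Continuous fun y : ℝ => lam m v ((2 : ℂ) + y * I) := by
    intro v
    rw [continuous_iff_continuousAt]
    intro y
    have h2 : ContinuousAt (lam m v) ((2 : ℂ) + y * I) :=
      (ZMod.differentiableAt_LFunction (fun x : ZMod m => (if x = v then (1 : ℂ) else 0) - 1 / m)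
        _ (Or.inl (d_b2_ne y))).continuousAt
    have h3 : Continuous fun y : ℝ => (2 : ℂ) + y * I := by fun_prop
    exact ContinuousAt.comp (f := fun y : ℝ => (2 : ℂ) + y * I) (g := lam m v) h2 h3.continuousAt
  unfold Lam
  refine continuous_finset_sum _ fun v _ => ?_
  exact continuous_const.mul (((h1 v.1).mul (h1 v.2.1)).mul (h1 v.2.2))

private theorem d_b2_bound (m : ℕ) [NeZero m] (n : ZMod m) (hn : IsUnit n) (y : ℝ) :
    ‖Lam m n ((2 : ℂ) + y * I)‖ ≤ ∑' a : Tr, 8 * (pr a : ℝ) ^ (-2 : ℝ) := by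
  rw [Lam_series m n hn (by rw [d_b2_re]; norm_num)]
  have h1 : Summable fun a : Tr => 8 * (pr a : ℝ) ^ (-2 : ℝ) :=
    (summable_pr (σ := 2) (by norm_num)).mul_left 8
  refine tsum_of_norm_bounded h1.hasSum fun a => ?_
  rw [norm_mul, norm_pr_cpow, Complex.neg_re, d_b2_re]
  exact mul_le_mul_of_nonneg_right (Ph_norm m n _) (by positivity)

theorem mellin_Lam (m : ℕ) [NeZero m] (n : ZMod m) (hn : IsUnit n) {κ : ℂ} (hκ : 0 < κ.re) :
    Integrable (fun y : ℝ => Lam m n ((2 : ℂ) + y * I) * (Complex.Gamma ((2 : ℂ) + y * I) * κ ^ (-((2 : ℂ) + y * I)))) ∧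
    AA m n κ = ((1 / (2 * Real.pi) : ℝ) : ℂ) *
      ∫ y : ℝ, Lam m n ((2 : ℂ) + y * I) * (Complex.Gamma ((2 : ℂ) + y * I) * κ ^ (-((2 : ℂ) + y * I))) := by
  have hκ0 : κ ≠ 0 := by
    rintro rfl
    simp at hκ
  have hg := (Pool.Agent.LibPH.exp_mellin hκ).1
  refine ⟨?_, ?_⟩
  · refine (hg.norm.const_mul (∑' a : Tr, 8 * (pr a : ℝ) ^ (-2 : ℝ))).mono'
      ((d_b2_cont m n).aestronglyMeasurable.mul hg.aestronglyMeasurable)
      (Eventually.of_forall fun y => ?_)
    rw [norm_mul]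
    exact mul_le_mul_of_nonneg_right (d_b2_bound m n hn y) (norm_nonneg _)
  · obtain ⟨F, hF⟩ : ∃ F : Tr → ℝ → ℂ, F = fun (a : Tr) (y : ℝ) => Ph m n (red m a) *
      (Complex.Gamma ((2 : ℂ) + y * I) * ((pr a : ℂ) * κ) ^ (-((2 : ℂ) + y * I))) := ⟨_, rfl⟩
    have hFq : ∀ a y, F a y = (Ph m n (red m a) * (pr a : ℂ) ^ (-((2 : ℂ) + y * I))) *
        (Complex.Gamma ((2 : ℂ) + y * I) * κ ^ (-((2 : ℂ) + y * I))) := by
      intro a y
      rw [hF]
      show Ph m n (red m a) *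
        (Complex.Gamma ((2 : ℂ) + y * I) * ((pr a : ℂ) * κ) ^ (-((2 : ℂ) + y * I))) = _
      rw [Pool.Agent.LibPH.x03_mul_cpow (pr_pos a) hκ0]
      ring
    have hre' : ∀ a : Tr, 0 < ((pr a : ℂ) * κ).re := by
      intro a
      rw [← Complex.ofReal_natCast, Complex.re_ofReal_mul]
      exact mul_pos (Nat.cast_pos.2 (pr_pos a)) hκ
    have hFint : ∀ a, Integrable (F a) := fun a => by
      rw [hF]
      exact (Pool.Agent.LibPH.exp_mellin (hre' a)).1.const_mul _
    have hFnorm : ∀ a, ∫ y : ℝ, ‖F a y‖ = (‖Ph m n (red m a)‖ * (pr a : ℝ) ^ (-2 : ℝ)) *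
        ∫ y : ℝ, ‖Complex.Gamma ((2 : ℂ) + y * I) * κ ^ (-((2 : ℂ) + y * I))‖ := by
      intro a
      rw [← integral_const_mul]
      refine integral_congr_ae (Eventually.of_forall fun y => ?_)
      show ‖F a y‖ = _
      rw [hFq, norm_mul, norm_mul, norm_pr_cpow, Complex.neg_re, d_b2_re]
    have hsum : Summable fun a => ∫ y : ℝ, ‖F a y‖ := by
      simp_rw [hFnorm]
      refine Summable.mul_right _ ?_
      refine Summable.of_nonneg_of_le (fun a => by positivity) (fun a => ?_)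
        ((summable_pr (σ := 2) (by norm_num)).mul_left 8)
      exact mul_le_mul_of_nonneg_right (Ph_norm m n _) (by positivity)
    have hS := hasSum_integral_of_summable_integral_norm hFint hsum
    have hE : ∀ a : Tr, Ph m n (red m a) * cexp (-κ * pr a) =
        ((1 / (2 * Real.pi) : ℝ) : ℂ) * ∫ y : ℝ, F a y := by
      intro a
      have h1 := (Pool.Agent.LibPH.exp_mellin (hre' a)).2
      have h2 : -κ * (pr a : ℂ) = -((pr a : ℂ) * κ) := by ring
      rw [h2, h1, hF]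
      show _ = _ * ∫ y : ℝ, Ph m n (red m a) *
        (Complex.Gamma ((2 : ℂ) + y * I) * ((pr a : ℂ) * κ) ^ (-((2 : ℂ) + y * I)))
      rw [integral_const_mul]
      ring
    unfold AA
    simp_rw [hE]
    rw [tsum_mul_left, hS.tsum_eq]
    congr 1
    refine integral_congr_ae (Eventually.of_forall fun y => ?_)
    show ∑' a, F a y = _
    simp_rw [hFq]
    rw [tsum_mul_right, ← Lam_series m n hn (by rw [d_b2_re]; norm_num)]

/-- the value at `κ = 1` is bounded -/
theorem AA_one : ∃ C : ℝ, 0 < C ∧ ∀ (m : ℕ) [NeZero m] (n : ZMod m), ‖AA m n 1‖ ≤ C := by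
  have hs : Summable fun a : Tr => 8 * ‖cexp (-(1 : ℂ) * pr a)‖ :=
    (summable_exp (κ := 1) (by simp)).mul_left 8
  refine ⟨(∑' a : Tr, 8 * ‖cexp (-(1 : ℂ) * pr a)‖) + 1, ?_, fun m _ n => ?_⟩
  · have : 0 ≤ ∑' a : Tr, 8 * ‖cexp (-(1 : ℂ) * pr a)‖ :=
      tsum_nonneg fun a => by positivity
    linarith
  · have h1 : ‖AA m n 1‖ ≤ ∑' a : Tr, 8 * ‖cexp (-(1 : ℂ) * pr a)‖ := by
      unfold AA
      refine tsum_of_norm_bounded hs.hasSum fun a => ?_
      rw [norm_mul]
      exact mul_le_mul_of_nonneg_right (Ph_norm m n _) (norm_nonneg _)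
    linarith

end Pool.Agent.LibSM47.SD
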