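import Pool.Agent.LibSM47.D_Defs

/-! ROW D_C1 (SHORT/MEDIUM): second primitives of periodic functions of mean zero, and summation by parts.

exists_diff: `h0 a = ∑_{j < a.val} g (j+1)` satisfies `h0 a - h0 (a-1) = g a` (for `a.val ≥ 1` a telescoping; for `a = 0`:
`0 - ∑_{j=1}^{m-1} g j = g 0`, since `(−1 : ZMod m).val = m - 1`); subtract the mean to get `∑ h = 0`.
series2: with `g a = h a - 2 h (a-1) + h (a-2)`: for `Re s > 1`, `LFunction g s = ∑_{a ≥ 1} g(a) a^{-s}` (`ZMod.LFunction_eq_LSeries`);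
split into three absolutely convergent series and shift the index (`Summable.sum_add_tsum_nat_add`, `tsum_eq_zero_add`):
`∑ h(a-1) a^{-s} = h(0) + ∑_{b ≥ 1} h(b)(b+1)^{-s}`, `∑ h(a-2) a^{-s} = h(-1) + h(0) 2^{-s} + ∑_{b≥1} h(b)(b+2)^{-s}`. -/

set_option autoImplicit false

namespace Pool.Agent.LibSM47.SD

open MeasureTheory Set Filter Topology Complex

private theorem dc1_sum_range (m : ℕ) [NeZero m] (g : ZMod m → ℂ) :
    ∑ j ∈ Finset.range m, g ((j : ℕ) : ZMod m) = ∑ a, g a := by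
  refine Finset.sum_nbij' (fun j => ((j : ℕ) : ZMod m)) (fun a => a.val) (fun _ _ => Finset.mem_univ _)
    (fun a _ => Finset.mem_range.mpr (ZMod.val_lt a)) (fun j hj => ?_) (fun a _ => ?_) (fun _ _ => rfl)
  · exact ZMod.val_cast_of_lt (Finset.mem_range.mp hj)
  · exact ZMod.natCast_zmod_val a

private theorem dc1_sum_shift (m : ℕ) [NeZero m] (g : ZMod m → ℂ) (n : ℕ) :
    ∑ j ∈ Finset.range m, g ((n + j : ℕ) : ZMod m) = ∑ a, g a := by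
  rw [← dc1_sum_range, dc1_sum_range m g]
  rw [← Equiv.sum_comp (Equiv.addLeft (n : ZMod m)) g, ← dc1_sum_range m (fun a => g (Equiv.addLeft (n : ZMod m) a))]
  refine Finset.sum_congr rfl fun j _ => ?_
  simp

theorem exists_diff (m : ℕ) [NeZero m] (g : ZMod m → ℂ) (hg : ∑ a, g a = 0) :
    ∃ h : ZMod m → ℂ, ∑ a, h a = 0 ∧ ∀ a, g a = h a - h (a - 1) := by
  obtain ⟨H, hH⟩ : ∃ H : ℕ → ℂ, H = fun n => ∑ j ∈ Finset.range n, g ((1 + j : ℕ) : ZMod m) := ⟨_, rfl⟩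
  have hper : Function.Periodic H m := by
    intro n
    simp only [hH]
    rw [Finset.sum_range_add]
    have : ∑ x ∈ Finset.range m, g ((1 + (n + x) : ℕ) : ZMod m) = 0 := by
      rw [← hg, ← dc1_sum_shift m g (1 + n)]
      refine Finset.sum_congr rfl fun j _ => ?_
      rw [add_assoc]
    rw [this, add_zero]
  have hstep : ∀ b : ZMod m, H (b + 1).val - H b.val = g (b + 1) := by
    intro b
    have h1 : (b + 1).val = (b.val + 1) % m := by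
      rw [← ZMod.val_natCast]
      congr 1
      push_cast
      rw [ZMod.natCast_zmod_val]
    rw [h1, hper.map_mod_nat]
    simp only [hH]
    rw [Finset.sum_range_succ, add_sub_cancel_left]
    congr 1
    push_cast
    rw [ZMod.natCast_zmod_val, add_comm]
  refine ⟨fun a => H a.val - (∑ b : ZMod m, H b.val) / m, ?_, fun a => ?_⟩
  · rw [Finset.sum_sub_distrib, Finset.sum_const, Finset.card_univ, ZMod.card, nsmul_eq_mul]
    have hm : (m : ℂ) ≠ 0 := by exact_mod_cast NeZero.ne m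
    field_simp
    ring
  · have := hstep (a - 1)
    rw [sub_add_cancel] at this
    rw [← this]
    ring

private theorem dc1_summable (φ : ℕ → ℂ) (C : ℝ) (hφ : ∀ n, ‖φ n‖ ≤ C) {s : ℂ} (hs : 1 < s.re) (c : ℕ) :
    Summable fun n : ℕ => φ n * (((n + 1 + c : ℕ) : ℂ) ^ (-s)) := by
  have h1 : Summable fun n : ℕ => (1 : ℝ) / ((n : ℝ) ^ s.re) := Real.summable_one_div_nat_rpow.mpr hs
  have h2 : Summable fun n : ℕ => C * ((1 : ℝ) / (((n + (1 + c) : ℕ) : ℝ) ^ s.re)) :=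
    ((summable_nat_add_iff (1 + c)).mpr h1).mul_left C
  refine Summable.of_norm_bounded h2 fun n => ?_
  rw [norm_mul]
  have h3 : ‖((n + 1 + c : ℕ) : ℂ) ^ (-s)‖ = 1 / (((n + (1 + c) : ℕ) : ℝ) ^ s.re) := by
    rw [Complex.norm_natCast_cpow_of_pos (by omega), Complex.neg_re, Real.rpow_neg (Nat.cast_nonneg _), one_div, add_assoc]
  rw [h3]
  exact mul_le_mul_of_nonneg_right (hφ n) (by positivity)

theorem series2 (m : ℕ) [NeZero m] (g h : ZMod m → ℂ) (hgh : ∀ a, g a = h a - 2 * h (a - 1) + h (a - 2)) {s : ℂ}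
    (hs : 1 < s.re) :
    ZMod.LFunction g s = h (-1) - 2 * h 0 + h 0 * (2 : ℂ) ^ (-s) +
      ∑' b : ℕ, h ((b + 1 : ℕ) : ZMod m) * ((((b : ℝ) + 1 : ℝ) : ℂ) ^ (-s) - 2 * (((b : ℝ) + 1 + 1 : ℝ) : ℂ) ^ (-s) +
        (((b : ℝ) + 1 + 2 : ℝ) : ℂ) ^ (-s)) := by
  obtain ⟨C, hC⟩ : ∃ C : ℝ, ∀ a, ‖h a‖ ≤ C :=
    ⟨∑ a, ‖h a‖, fun a => Finset.single_le_sum (f := fun a => ‖h a‖) (fun i _ => norm_nonneg _) (Finset.mem_univ a)⟩
  obtain ⟨D, hD⟩ : ∃ D : ℝ, ∀ a, ‖g a‖ ≤ D :=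
    ⟨∑ a, ‖g a‖, fun a => Finset.single_le_sum (f := fun a => ‖g a‖) (fun i _ => norm_nonneg _) (Finset.mem_univ a)⟩
  have hL : ZMod.LFunction g s = ∑' n : ℕ, g ((n + 1 : ℕ) : ZMod m) * ((n + 1 + 0 : ℕ) : ℂ) ^ (-s) := by
    rw [ZMod.LFunction_eq_LSeries g hs, LSeries]
    have hsum : Summable (LSeries.term (fun n => g (n : ZMod m)) s) :=
      LSeriesSummable_of_bounded_of_one_lt_re (fun n _ => hD n) hs
    rw [hsum.tsum_eq_zero_add, LSeries.term_zero, zero_add]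
    refine tsum_congr fun n => ?_
    rw [LSeries.term_of_ne_zero (Nat.succ_ne_zero n), add_zero, Complex.cpow_neg, div_eq_mul_inv]
  have hA := dc1_summable (fun n => h ((n + 1 : ℕ) : ZMod m)) C (fun n => hC _) hs 0
  have hA1 := dc1_summable (fun n => h ((n + 1 : ℕ) : ZMod m)) C (fun n => hC _) hs 1
  have hA2 := dc1_summable (fun n => h ((n + 1 : ℕ) : ZMod m)) C (fun n => hC _) hs 2
  have hB := dc1_summable (fun n => h ((n : ℕ) : ZMod m)) C (fun n => hC _) hs 0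
  have hB1 := dc1_summable (fun n => h ((n : ℕ) : ZMod m)) C (fun n => hC _) hs 1
  have hC' := dc1_summable (fun n => h (((n : ℕ) : ZMod m) - 1)) C (fun n => hC _) hs 0
  have e1 : ∑' n : ℕ, g ((n + 1 : ℕ) : ZMod m) * ((n + 1 + 0 : ℕ) : ℂ) ^ (-s) =
      ∑' n : ℕ, h ((n + 1 : ℕ) : ZMod m) * ((n + 1 + 0 : ℕ) : ℂ) ^ (-s) -
        2 * ∑' n : ℕ, h ((n : ℕ) : ZMod m) * ((n + 1 + 0 : ℕ) : ℂ) ^ (-s) +
        ∑' n : ℕ, h (((n : ℕ) : ZMod m) - 1) * ((n + 1 + 0 : ℕ) : ℂ) ^ (-s) := by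
    rw [← tsum_mul_left, ← hA.tsum_sub (hB.mul_left 2), ← (hA.sub (hB.mul_left 2)).tsum_add hC']
    refine tsum_congr fun n => ?_
    rw [hgh]
    have a1 : (((n + 1 : ℕ) : ZMod m) - 1) = ((n : ℕ) : ZMod m) := by push_cast; ring
    have a2 : (((n + 1 : ℕ) : ZMod m) - 2) = ((n : ℕ) : ZMod m) - 1 := by push_cast; ring
    rw [a1, a2]
    ring
  have e2 : ∑' n : ℕ, h ((n : ℕ) : ZMod m) * ((n + 1 + 0 : ℕ) : ℂ) ^ (-s) =
      h 0 + ∑' n : ℕ, h ((n + 1 : ℕ) : ZMod m) * ((n + 1 + 1 : ℕ) : ℂ) ^ (-s) := by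
    rw [hB.tsum_eq_zero_add]
    simp
  have e3 : ∑' n : ℕ, h (((n : ℕ) : ZMod m) - 1) * ((n + 1 + 0 : ℕ) : ℂ) ^ (-s) =
      h (-1) + ∑' n : ℕ, h ((n : ℕ) : ZMod m) * ((n + 1 + 1 : ℕ) : ℂ) ^ (-s) := by
    rw [hC'.tsum_eq_zero_add]
    simp
  have e4 : ∑' n : ℕ, h ((n : ℕ) : ZMod m) * ((n + 1 + 1 : ℕ) : ℂ) ^ (-s) =
      h 0 * (2 : ℂ) ^ (-s) + ∑' n : ℕ, h ((n + 1 : ℕ) : ZMod m) * ((n + 1 + 2 : ℕ) : ℂ) ^ (-s) := by
    rw [hB1.tsum_eq_zero_add]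
    congr 1
    norm_num
  have e5 : ∑' b : ℕ, h ((b + 1 : ℕ) : ZMod m) * ((((b : ℝ) + 1 : ℝ) : ℂ) ^ (-s) - 2 * (((b : ℝ) + 1 + 1 : ℝ) : ℂ) ^ (-s) +
        (((b : ℝ) + 1 + 2 : ℝ) : ℂ) ^ (-s)) =
      ∑' n : ℕ, h ((n + 1 : ℕ) : ZMod m) * ((n + 1 + 0 : ℕ) : ℂ) ^ (-s) -
        2 * ∑' n : ℕ, h ((n + 1 : ℕ) : ZMod m) * ((n + 1 + 1 : ℕ) : ℂ) ^ (-s) +
        ∑' n : ℕ, h ((n + 1 : ℕ) : ZMod m) * ((n + 1 + 2 : ℕ) : ℂ) ^ (-s) := by
    rw [← tsum_mul_left, ← hA.tsum_sub (hA1.mul_left 2), ← (hA.sub (hA1.mul_left 2)).tsum_add hA2]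
    refine tsum_congr fun n => ?_
    push_cast
    rw [add_zero]
    ring
  rw [hL, e1, e2, e3, e4, e5]
  ring

end Pool.Agent.LibSM47.SD
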