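import Pool.Agent.LibSM47.D_Defs

/-! ROW D_C2 (SHORT/MEDIUM, only Mathlib): second differences of `x^{-s}`.

`f(t) = t^{-s}` on `t ≥ x`: `f' = -s t^{-s-1}`, `f'' = s(s+1) t^{-s-2}`, `|f''(t)| = ‖s‖‖s+1‖ t^{-Re s - 2} ≤ ‖s‖‖s+1‖ x^{-Re s-2}` as
`Re s ≥ -2`. Mean value inequality twice (`Convex.norm_image_sub_le_of_norm_deriv_le` / `norm_image_sub_le_of_norm_deriv_le_segment'`):
`‖f'(t+1) - f'(t)‖ ≤ M`, then for `k(t) = f(t+1) - f(t)` on `[x, x+1]`: `‖k(x+1) - k(x)‖ ≤ M`. Derivative of `t ↦ (t:ℂ)^{-s}`: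
`hasDerivAt_ofReal_cpow_const` (or `HasDerivAt.ofReal_cpow_const`). -/

set_option autoImplicit false

namespace Pool.Agent.LibSM47.SD

open MeasureTheory Set Filter Topology Complex

theorem second_diff {s : ℂ} (hs : -2 ≤ s.re) {x : ℝ} (hx : 0 < x) :
    ‖(x : ℂ) ^ (-s) - 2 * ((x + 1 : ℝ) : ℂ) ^ (-s) + ((x + 2 : ℝ) : ℂ) ^ (-s)‖ ≤ ‖s‖ * ‖s + 1‖ * x ^ (-s.re - 2) := by
  have hd : ∀ (c : ℂ) (t : ℝ), 0 < t →
      HasDerivAt (fun y : ℝ => (y : ℂ) ^ c) (c * (t : ℂ) ^ (c - 1)) t := by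
    intro c t ht
    have h1 : (t : ℂ) ∈ slitPlane := Complex.ofReal_mem_slitPlane.2 ht
    have h2 := ((hasDerivAt_id (t : ℂ)).cpow_const (c := c) h1).comp_ofReal
    simpa using h2
  have hn : ∀ t : ℝ, x ≤ t → ‖(t : ℂ) ^ (-s - 1 - 1)‖ ≤ x ^ (-s.re - 2) := by
    intro t ht
    have ht0 : 0 < t := hx.trans_le ht
    rw [Complex.norm_cpow_eq_rpow_re_of_pos ht0]
    have h1 : (-s - 1 - 1).re = -s.re - 2 := by
      simp only [Complex.sub_re, Complex.neg_re, Complex.one_re]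
      ring
    rw [h1]
    exact Real.rpow_le_rpow_of_nonpos hx ht (by linarith)
  set M : ℝ := ‖s‖ * ‖s + 1‖ * x ^ (-s.re - 2) with hM
  have hf1 : ∀ t : ℝ, x ≤ t →
      ‖-s * ((t + 1 : ℝ) : ℂ) ^ (-s - 1) - -s * (t : ℂ) ^ (-s - 1)‖ ≤ M := by
    intro t ht
    have h1 := (convex_Ici x).norm_image_sub_le_of_norm_hasDerivWithin_le
      (f := fun y : ℝ => -s * (y : ℂ) ^ (-s - 1))
      (f' := fun y : ℝ => -s * ((-s - 1) * (y : ℂ) ^ (-s - 1 - 1))) (C := M)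
      (fun y hy => (((hd (-s - 1) y (hx.trans_le hy)).const_mul (-s)).hasDerivWithinAt))
      (fun y hy => by
        rw [norm_mul, norm_mul, norm_neg, hM, mul_assoc]
        have h2 : ‖-s - 1‖ = ‖s + 1‖ := by
          rw [← norm_neg]
          congr 1
          ring
        rw [h2]
        exact mul_le_mul_of_nonneg_left
          (mul_le_mul_of_nonneg_left (hn y hy) (norm_nonneg _)) (norm_nonneg _))
      (x := t) (y := t + 1) ht (by
        show x ≤ t + 1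
        linarith)
    have h3 : ‖t + 1 - t‖ = 1 := by
      rw [show t + 1 - t = 1 by ring, norm_one]
    rw [h3, mul_one] at h1
    exact h1
  have h4 := (convex_Icc x (x + 1)).norm_image_sub_le_of_norm_hasDerivWithin_le
    (f := fun y : ℝ => ((y + 1 : ℝ) : ℂ) ^ (-s) - (y : ℂ) ^ (-s))
    (f' := fun y : ℝ => -s * ((y + 1 : ℝ) : ℂ) ^ (-s - 1) - -s * (y : ℂ) ^ (-s - 1)) (C := M)
    (fun y hy => by
      have hy0 : 0 < y := hx.trans_le hy.1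
      have h5 : HasDerivAt (fun y : ℝ => ((y + 1 : ℝ) : ℂ) ^ (-s))
          (-s * ((y + 1 : ℝ) : ℂ) ^ (-s - 1)) y := by
        have h6 := hd (-s) (y + 1) (by linarith)
        exact h6.comp_add_const y 1
      exact (h5.sub (hd (-s) y hy0)).hasDerivWithinAt)
    (fun y hy => hf1 y hy.1)
    (x := x) (y := x + 1) (left_mem_Icc.2 (by linarith)) (right_mem_Icc.2 (by linarith))
  have h7 : ‖x + 1 - x‖ = 1 := by
    rw [show x + 1 - x = 1 by ring, norm_one]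
  rw [h7, mul_one] at h4
  have h8 : (x : ℂ) ^ (-s) - 2 * ((x + 1 : ℝ) : ℂ) ^ (-s) + ((x + 2 : ℝ) : ℂ) ^ (-s) =
      ((x + 1 + 1 : ℝ) : ℂ) ^ (-s) - ((x + 1 : ℝ) : ℂ) ^ (-s) -
        (((x + 1 : ℝ) : ℂ) ^ (-s) - (x : ℂ) ^ (-s)) := by
    rw [show x + 1 + 1 = x + 2 by ring]
    ring
  rw [h8]
  exact h4

end Pool.Agent.LibSM47.SD
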