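import Pool.Agent.LibSM47.D_C1
import Pool.Agent.LibSM47.D_C2

/-! ROW D_C3 (MEDIUM): polynomial growth of `LFunction g` for `g` periodic of mean zero.

D_C1 `exists_diff` twice: `g a = h a - 2 h(a-1) + h(a-2)`. The right side `R(s)` of `series2` is analytic on `{Re s > -1}`
(`differentiableOn_tsum_of_summable_norm` on `{-1+ε < Re s, ‖s‖ < R}`: terms bounded by D_C2 `C (b+1)^{-1-ε}`; each term is entire in `s`:
`DifferentiableAt.const_cpow`), `LFunction g` is entire (`ZMod.differentiable_LFunction_of_sum_zero`), and they agree for `Re s > 1`: identity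
theorem (`AnalyticOnNhd.eqOn_of_preconnected_of_eventuallyEq`, the half plane is convex), as in `LFunction_stdAddChar_eq_expZeta` of Mathlib.
Bound for `-1/2 ≤ Re s ≤ 2`: `‖h‖ ≤ B`, `|2^{-s}| ≤ 2`, `‖s‖‖s+1‖ ≤ 9 (1+|y|)²`, `∑ (b+1)^{-3/2} < ∞`. -/

set_option autoImplicit false

namespace Pool.Agent.LibSM47.SD

open MeasureTheory Set Filter Topology Complex

/-- the terms of the series -/
private noncomputable def dc3_T (m : ℕ) (h : ZMod m → ℂ) (b : ℕ) (s : ℂ) : ℂ :=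
  h ((b + 1 : ℕ) : ZMod m) * ((((b : ℝ) + 1 : ℝ) : ℂ) ^ (-s) - 2 * (((b : ℝ) + 1 + 1 : ℝ) : ℂ) ^ (-s) +
        (((b : ℝ) + 1 + 2 : ℝ) : ℂ) ^ (-s))

private theorem dc3_T_le (m : ℕ) (h : ZMod m → ℂ) {B : ℝ} (hB : ∀ a, ‖h a‖ ≤ B) (b : ℕ) {s : ℂ}
    (hs : -(3 / 4) ≤ s.re) :
    ‖dc3_T m h b s‖ ≤ B * (‖s‖ * ‖s + 1‖) * ((b : ℝ) + 1) ^ (-(5 / 4) : ℝ) := by
  have hb : (0 : ℝ) ≤ b := Nat.cast_nonneg b
  have hB0 : 0 ≤ B := (norm_nonneg _).trans (hB 0)
  unfold dc3_T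
  rw [norm_mul]
  have h1 := second_diff (s := s) (by linarith) (x := (b : ℝ) + 1) (by linarith)
  have h2 : ((b : ℝ) + 1) ^ (-s.re - 2) ≤ ((b : ℝ) + 1) ^ (-(5 / 4) : ℝ) :=
    Real.rpow_le_rpow_of_exponent_le (by linarith) (by linarith)
  have h3 : 0 ≤ ‖s‖ * ‖s + 1‖ := mul_nonneg (norm_nonneg _) (norm_nonneg _)
  calc ‖h ((b + 1 : ℕ) : ZMod m)‖ * _ ≤ B * (‖s‖ * ‖s + 1‖ * ((b : ℝ) + 1) ^ (-(5 / 4) : ℝ)) :=
        mul_le_mul (hB _) (h1.trans (mul_le_mul_of_nonneg_left h2 h3)) (norm_nonneg _) hB0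
    _ = _ := by ring

private theorem dc3_T_diff (m : ℕ) (h : ZMod m → ℂ) (b : ℕ) : Differentiable ℂ (dc3_T m h b) := by
  have hb : (0 : ℝ) ≤ b := Nat.cast_nonneg b
  have h1 : ∀ x : ℝ, 0 < x → Differentiable ℂ fun s : ℂ => (x : ℂ) ^ (-s) := by
    intro x hx s
    exact (differentiableAt_id.neg).const_cpow (Or.inl (by exact_mod_cast hx.ne'))
  unfold dc3_T
  exact (((h1 _ (by linarith)).sub ((h1 _ (by linarith)).const_mul 2)).add
    (h1 _ (by linarith))).const_mul _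

private theorem dc3_sum : Summable fun b : ℕ => ((b : ℝ) + 1) ^ (-(5 / 4) : ℝ) := by
  have h1 : Summable fun b : ℕ => (b : ℝ) ^ (-(5 / 4) : ℝ) := Real.summable_nat_rpow.2 (by norm_num)
  have h2 := (summable_nat_add_iff 1).2 h1
  refine h2.congr fun b => ?_
  push_cast
  rfl

theorem LF_growth (m : ℕ) [NeZero m] (g : ZMod m → ℂ) (hg : ∑ a, g a = 0) :
    ∃ C : ℝ, 0 < C ∧ ∀ x ∈ Icc (-(1 / 2) : ℝ) 2, ∀ y : ℝ, ‖ZMod.LFunction g ((x : ℂ) + y * I)‖ ≤ C * (1 + |y|) ^ 2 := by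
  obtain ⟨h1, h1s, h1g⟩ := exists_diff m g hg
  obtain ⟨h, -, hh⟩ := exists_diff m h1 h1s
  have hgh : ∀ a, g a = h a - 2 * h (a - 1) + h (a - 2) := by
    intro a
    rw [h1g, hh, hh, show a - 1 - 1 = a - 2 by ring]
    ring
  set B : ℝ := ∑ a, ‖h a‖ with hBdef
  have hB : ∀ a, ‖h a‖ ≤ B := fun a =>
    Finset.single_le_sum (f := fun a => ‖h a‖) (fun i _ => norm_nonneg _) (Finset.mem_univ a)
  have hB0 : 0 ≤ B := (norm_nonneg _).trans (hB 0)
  set S : ℝ := ∑' b : ℕ, ((b : ℝ) + 1) ^ (-(5 / 4) : ℝ) with hS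
  have hS0 : 0 ≤ S := tsum_nonneg fun b => by positivity
  -- the identity
  have key : ∀ s : ℂ, -(3 / 4) < s.re → ZMod.LFunction g s = h (-1) - 2 * h 0 + h 0 * (2 : ℂ) ^ (-s) +
      ∑' b : ℕ, dc3_T m h b s := by
    intro s hs
    set r : ℝ := ‖s‖ + 3 with hr
    have hr0 : 3 ≤ r := by
      have := norm_nonneg s
      linarith
    set U : Set ℂ := {z : ℂ | -(3 / 4) < z.re} ∩ Metric.ball 0 r with hU
    have hUo : IsOpen U := (isOpen_lt continuous_const Complex.continuous_re).inter Metric.isOpen_ball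
    have hUc : Convex ℝ U := (convex_halfSpace_re_gt _).inter (convex_ball _ _)
    have hsU : s ∈ U := by
      refine ⟨hs, ?_⟩
      rw [mem_ball_zero_iff]
      linarith
    have h2U : (2 : ℂ) ∈ U := by
      refine ⟨?_, ?_⟩
      · show -(3 / 4) < (2 : ℂ).re
        norm_num
      · rw [mem_ball_zero_iff]
        have : ‖(2 : ℂ)‖ = 2 := by norm_num
        rw [this]
        linarith
    have d1 : DifferentiableOn ℂ (fun z => ∑' b : ℕ, dc3_T m h b z) U := by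
      refine differentiableOn_tsum_of_summable_norm (u := fun b => B * (r * (r + 1)) *
        ((b : ℝ) + 1) ^ (-(5 / 4) : ℝ)) (dc3_sum.mul_left _)
        (fun b => (dc3_T_diff m h b).differentiableOn) hUo fun b z hz => ?_
      refine (dc3_T_le m h hB b hz.1.le).trans ?_
      have hz2 := hz.2
      rw [mem_ball_zero_iff] at hz2
      have hz3 : ‖z + 1‖ ≤ r + 1 := by
        refine (norm_add_le _ _).trans ?_
        rw [norm_one]
        linarith
      have hz4 : ‖z‖ * ‖z + 1‖ ≤ r * (r + 1) :=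
        mul_le_mul hz2.le hz3 (norm_nonneg _) (by linarith)
      have hb1 : 0 ≤ ((b : ℝ) + 1) ^ (-(5 / 4) : ℝ) := by positivity
      exact mul_le_mul_of_nonneg_right (mul_le_mul_of_nonneg_left hz4 hB0) hb1
    have d2 : DifferentiableOn ℂ (fun z => h (-1) - 2 * h 0 + h 0 * (2 : ℂ) ^ (-z) +
        ∑' b : ℕ, dc3_T m h b z) U := by
      refine DifferentiableOn.add (Differentiable.differentiableOn ?_) d1
      refine (differentiable_const _).add (Differentiable.const_mul (fun z => ?_) _)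
      exact (differentiableAt_id.neg).const_cpow (Or.inl two_ne_zero)
    have d3 : DifferentiableOn ℂ (ZMod.LFunction g) U :=
      (ZMod.differentiable_LFunction_of_sum_zero hg).differentiableOn
    have e1 := (d3.analyticOnNhd hUo).eqOn_of_preconnected_of_eventuallyEq (d2.analyticOnNhd hUo)
      hUc.isPreconnected h2U (by
        have ho : {z : ℂ | 1 < z.re} ∈ 𝓝 (2 : ℂ) :=
          (isOpen_lt continuous_const Complex.continuous_re).mem_nhds (by
            show (1 : ℝ) < (2 : ℂ).re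
            norm_num)
        filter_upwards [ho] with z hz
        exact series2 m g h hgh hz)
    exact e1 hsU
  refine ⟨5 * B + 6 * B * S + 1, by positivity, fun x hx y => ?_⟩
  obtain ⟨hx1, hx2⟩ := hx
  set s : ℂ := (x : ℂ) + y * I with hs
  have hsre : s.re = x := by simp [hs]
  have hy : 0 ≤ |y| := abs_nonneg y
  have hxa : |x| ≤ 2 := abs_le.2 ⟨by linarith, hx2⟩
  have n1 : ‖s‖ ≤ 2 * (1 + |y|) := by
    rw [hs]
    refine (norm_add_le _ _).trans ?_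
    rw [norm_mul, norm_I, mul_one, norm_real, norm_real, Real.norm_eq_abs, Real.norm_eq_abs]
    linarith
  have n2 : ‖s + 1‖ ≤ 3 * (1 + |y|) := by
    have : ‖s‖ ≤ 2 + |y| := by
      rw [hs]
      refine (norm_add_le _ _).trans ?_
      rw [norm_mul, norm_I, mul_one, norm_real, norm_real, Real.norm_eq_abs, Real.norm_eq_abs]
      linarith
    refine (norm_add_le _ _).trans ?_
    rw [norm_one]
    linarith
  have n3 : ‖s‖ * ‖s + 1‖ ≤ 6 * (1 + |y|) ^ 2 := by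
    calc ‖s‖ * ‖s + 1‖ ≤ (2 * (1 + |y|)) * (3 * (1 + |y|)) :=
          mul_le_mul n1 n2 (norm_nonneg _) (by linarith)
      _ = _ := by ring
  have n4 : ‖(2 : ℂ) ^ (-s)‖ ≤ 2 := by
    have : (2 : ℂ) = ((2 : ℝ) : ℂ) := by norm_num
    rw [this, norm_cpow_eq_rpow_re_of_pos (by norm_num), neg_re, hsre]
    calc (2 : ℝ) ^ (-x) ≤ (2 : ℝ) ^ (1 : ℝ) :=
          Real.rpow_le_rpow_of_exponent_le (by norm_num) (by linarith)
      _ = 2 := Real.rpow_one 2
  have n5 : ‖∑' b : ℕ, dc3_T m h b s‖ ≤ B * (‖s‖ * ‖s + 1‖) * S := by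
    rw [hS, ← tsum_mul_left]
    refine tsum_of_norm_bounded (dc3_sum.mul_left _).hasSum fun b => ?_
    exact dc3_T_le m h hB b (by rw [hsre]; linarith)
  rw [key s (by rw [hsre]; linarith)]
  have t1 : ‖h (-1) - 2 * h 0 + h 0 * (2 : ℂ) ^ (-s) + ∑' b : ℕ, dc3_T m h b s‖ ≤
      ‖h (-1)‖ + 2 * ‖h 0‖ + ‖h 0‖ * ‖(2 : ℂ) ^ (-s)‖ + ‖∑' b : ℕ, dc3_T m h b s‖ := by
    refine (norm_add_le _ _).trans (add_le_add ((norm_add_le _ _).trans
      (add_le_add ((norm_sub_le _ _).trans (le_of_eq ?_)) (norm_mul _ _).le)) le_rfl)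
    rw [norm_mul]
    norm_num
  have t2 : ‖h 0‖ * ‖(2 : ℂ) ^ (-s)‖ ≤ B * 2 := mul_le_mul (hB 0) n4 (norm_nonneg _) hB0
  have t3 : B * (‖s‖ * ‖s + 1‖) * S ≤ B * (6 * (1 + |y|) ^ 2) * S :=
    mul_le_mul_of_nonneg_right (mul_le_mul_of_nonneg_left n3 hB0) hS0
  have t4 : (1 : ℝ) ≤ (1 + |y|) ^ 2 := by nlinarith
  have t5 : 5 * B ≤ 5 * B * (1 + |y|) ^ 2 := by nlinarith
  have := hB (-1)
  have := hB 0
  have h6 : (5 * B + 6 * B * S + 1) * (1 + |y|) ^ 2 =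
      5 * B * (1 + |y|) ^ 2 + B * (6 * (1 + |y|) ^ 2) * S + (1 + |y|) ^ 2 := by ring
  rw [h6]
  linarith

end Pool.Agent.LibSM47.SD
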