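import Pool.Agent.LibSM47.D_C3

/-! ROW D_C4 (SHORT): `Λ` is entire and of polynomial growth in `-1/2 ≤ Re s ≤ 2`.

`∑_x ([x = v] - 1/m) = 0`; `ZMod.differentiable_LFunction_of_sum_zero`; D_C3 for the finitely many `v`; finite sums and products
(`‖∑‖ ≤ ∑`, constants may depend on `m` and `n`). -/

set_option autoImplicit false

namespace Pool.Agent.LibSM47.SD

open MeasureTheory Set Filter Topology Complex

theorem lam_sum (m : ℕ) [NeZero m] (v : ZMod m) : ∑ x : ZMod m, ((if x = v then (1 : ℂ) else 0) - 1 / m) = 0 := by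
  have hm : (m : ℂ) ≠ 0 := Nat.cast_ne_zero.2 (NeZero.ne m)
  rw [Finset.sum_sub_distrib, Finset.sum_ite_eq', if_pos (Finset.mem_univ v), Finset.sum_const,
    Finset.card_univ, ZMod.card, nsmul_eq_mul, mul_one_div_cancel hm, sub_self]

private theorem dc4_lam_diff (m : ℕ) [NeZero m] (v : ZMod m) : Differentiable ℂ (lam m v) := by
  have h := ZMod.differentiable_LFunction_of_sum_zero (lam_sum m v)
  exact h

theorem Lam_diff (m : ℕ) [NeZero m] (n : ZMod m) : Differentiable ℂ (Lam m n) := by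
  have h : ∀ v : Z3 m, Differentiable ℂ
      (fun s => Ph m n v * (lam m v.1 s * lam m v.2.1 s * lam m v.2.2 s)) := fun v =>
    (((dc4_lam_diff m v.1).mul (dc4_lam_diff m v.2.1)).mul (dc4_lam_diff m v.2.2)).const_mul _
  exact Differentiable.fun_sum fun v _ => h v

theorem Lam_growth (m : ℕ) [NeZero m] (n : ZMod m) :
    ∃ C : ℝ, 0 < C ∧ ∀ x ∈ Icc (-(1 / 2) : ℝ) 2, ∀ y : ℝ, ‖Lam m n ((x : ℂ) + y * I)‖ ≤ C * (1 + |y|) ^ 6 := by
  have h : ∀ v : ZMod m, ∃ C : ℝ, 0 < C ∧ ∀ x ∈ Icc (-(1 / 2) : ℝ) 2, ∀ y : ℝ,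
      ‖lam m v ((x : ℂ) + y * I)‖ ≤ C * (1 + |y|) ^ 2 := fun v => LF_growth m _ (lam_sum m v)
  choose C hC0 hC using h
  refine ⟨∑ v : Z3 m, ‖Ph m n v‖ * (C v.1 * C v.2.1 * C v.2.2) + 1, ?_, fun x hx y => ?_⟩
  · have : 0 ≤ ∑ v : Z3 m, ‖Ph m n v‖ * (C v.1 * C v.2.1 * C v.2.2) :=
      Finset.sum_nonneg fun v _ => mul_nonneg (norm_nonneg _)
        (mul_nonneg (mul_nonneg (hC0 _).le (hC0 _).le) (hC0 _).le)
    linarith
  · have hy : 0 ≤ |y| := abs_nonneg y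
    set Y : ℝ := 1 + |y| with hY
    have hY0 : 0 ≤ Y := by linarith
    have h1 : ‖Lam m n ((x : ℂ) + y * I)‖ ≤ ∑ v : Z3 m, ‖Ph m n v‖ * (C v.1 * C v.2.1 * C v.2.2) * Y ^ 6 := by
      unfold Lam
      refine (norm_sum_le _ _).trans (Finset.sum_le_sum fun v _ => ?_)
      rw [norm_mul, norm_mul, norm_mul]
      have a1 := hC v.1 x hx y
      have a2 := hC v.2.1 x hx y
      have a3 := hC v.2.2 x hx y
      have b1 : 0 ≤ C v.1 * Y ^ 2 := (norm_nonneg _).trans a1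
      have b2 : 0 ≤ C v.2.1 * Y ^ 2 := (norm_nonneg _).trans a2
      calc ‖Ph m n v‖ * (‖lam m v.1 ((x : ℂ) + y * I)‖ * ‖lam m v.2.1 ((x : ℂ) + y * I)‖ *
            ‖lam m v.2.2 ((x : ℂ) + y * I)‖)
          ≤ ‖Ph m n v‖ * ((C v.1 * Y ^ 2) * (C v.2.1 * Y ^ 2) * (C v.2.2 * Y ^ 2)) :=
            mul_le_mul_of_nonneg_left
              (mul_le_mul (mul_le_mul a1 a2 (norm_nonneg _) b1) a3 (norm_nonneg _)
                (mul_nonneg b1 b2)) (norm_nonneg _)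
        _ = ‖Ph m n v‖ * (C v.1 * C v.2.1 * C v.2.2) * Y ^ 6 := by ring
    rw [← Finset.sum_mul] at h1
    have h2 : 0 ≤ Y ^ 6 := pow_nonneg hY0 6
    nlinarith

end Pool.Agent.LibSM47.SD
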