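import Pool.Agent.LibSM47.D_Defs

/-! ROW D_D1 (MEDIUM, only Mathlib): the functional equation in one variable, `Re s > 1`.

`ZMod.LFunction_one_sub` for `Φ = δ_v - 1/m` (`s ≠ -n`, `s ≠ 1` since `Re s > 1`). `𝓕 Φ k = stdAddChar (-(v k)) - [k = 0]`
(`ZMod.dft_apply`, `∑_j stdAddChar (-(j k)) = m [k = 0]`: `AddChar.sum_mulShift`), and `𝓕 (Φ ∘ neg) k = stdAddChar (v k) - [k = 0]`
(substitute `j ↦ -j`). Then `ZMod.LFunction_eq_LSeries` for `Re s > 1` and the sum over `ℕ+` (term at 0 is 0). `Fintype.sum_bool`, `sg`.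
du_summable: the coefficients are bounded by 2, `∑ l^{-Re s} < ∞`. -/

set_option autoImplicit false

namespace Pool.Agent.LibSM47.SD

open MeasureTheory Set Filter Topology Complex

theorem du_summable (m : ℕ) [NeZero m] (v : ZMod m) (b : Bool) {s : ℂ} (hs : 1 < s.re) :
    Summable (fun l : ℕ+ => ‖(ZMod.stdAddChar (-(v * (((sg b : ℤ) : ZMod m) * ((l : ℕ) : ZMod m)))) -
      (if ((l : ℕ) : ZMod m) = 0 then (1 : ℂ) else 0)) * ((l : ℕ) : ℂ) ^ (-s)‖) := by
  have h1 : Summable (fun l : ℕ => 2 * (1 / (l : ℝ) ^ s.re)) :=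
    (Real.summable_one_div_nat_rpow.2 hs).mul_left 2
  have h2 : Summable (fun l : ℕ+ => 2 * (1 / ((l : ℕ) : ℝ) ^ s.re)) :=
    h1.comp_injective PNat.coe_injective
  refine Summable.of_nonneg_of_le (fun l => norm_nonneg _) (fun l => ?_) h2
  rw [norm_mul]
  have h3 : ‖((l : ℕ) : ℂ) ^ (-s)‖ = 1 / ((l : ℕ) : ℝ) ^ s.re := by
    rw [Complex.norm_natCast_cpow_of_pos l.pos, Complex.neg_re, Real.rpow_neg (Nat.cast_nonneg _),
      one_div]
  rw [h3]
  refine mul_le_mul_of_nonneg_right ?_ (by positivity)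
  refine (norm_sub_le _ _).trans ?_
  rw [AddChar.norm_apply]
  split_ifs
  · norm_num
  · norm_num

private theorem d1_dft (m : ℕ) [NeZero m] (v k : ZMod m) :
    ZMod.dft (fun x : ZMod m => (if x = v then (1 : ℂ) else 0) - 1 / m) k =
      ZMod.stdAddChar (-(v * k)) - (if k = 0 then (1 : ℂ) else 0) := by
  have hm : (m : ℂ) ≠ 0 := Nat.cast_ne_zero.2 (NeZero.ne m)
  rw [ZMod.dft_apply]
  simp only [smul_eq_mul, mul_sub, Finset.sum_sub_distrib, mul_ite, mul_one, mul_zero,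
    Finset.sum_ite_eq', Finset.mem_univ, if_true]
  congr 1
  rw [← Finset.sum_mul]
  have h1 : ∑ j : ZMod m, ZMod.stdAddChar (-(j * k)) = ∑ j : ZMod m, ZMod.stdAddChar (j * (-k)) :=
    Finset.sum_congr rfl fun j _ => by rw [mul_neg]
  have h2 : ∑ j : ZMod m, (ZMod.stdAddChar (j * (-k)) : ℂ) =
      ((if -k = 0 then Fintype.card (ZMod m) else 0 : ℕ) : ℂ) :=
    AddChar.sum_mulShift (ψ := ZMod.stdAddChar (N := m)) (-k) (ZMod.isPrimitive_stdAddChar m)
  rw [h1, h2, ZMod.card]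
  by_cases hk : k = 0
  · simp [hk, hm]
  · have hk' : -k ≠ 0 := neg_ne_zero.2 hk
    simp [hk]

private theorem d1_series (m : ℕ) [NeZero m] (v : ZMod m) (b : Bool) {s : ℂ} (hs : 1 < s.re)
    (Ψ : ZMod m → ℂ)
    (hΨ : ∀ k, Ψ k = ZMod.stdAddChar (-(v * (((sg b : ℤ) : ZMod m) * k))) - (if k = 0 then (1 : ℂ) else 0)) :
    ZMod.LFunction Ψ s = du m v b s := by
  rw [ZMod.LFunction_eq_LSeries _ hs, LSeries, ← tsum_pnat_eq_tsum_of_eq_zero (LSeries.term_zero _ _)]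
  unfold du
  refine tsum_congr fun l => ?_
  rw [LSeries.term_of_ne_zero l.ne_zero, hΨ, Complex.cpow_neg, div_eq_mul_inv]

theorem lam_one_sub (m : ℕ) [NeZero m] (v : ZMod m) {s : ℂ} (hs : 1 < s.re) :
    lam m v (1 - s) = gf m s * ∑ b : Bool, cexp ((sg b : ℂ) * Real.pi * I * s / 2) * du m v b s := by
  unfold lam gf
  have hs0 : ∀ n : ℕ, s ≠ -n := by
    intro n h
    rw [h] at hs
    simp only [neg_re, natCast_re] at hs
    have : (0 : ℝ) ≤ n := Nat.cast_nonneg n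
    linarith
  have hs1 : s ≠ 1 := by
    intro h
    rw [h] at hs
    simp at hs
  rw [ZMod.LFunction_one_sub _ hs0 (Or.inr hs1), Fintype.sum_bool]
  congr 1
  congr 1
  · rw [d1_series m v true hs]
    · simp [sg]
    · intro k
      rw [d1_dft]
      simp [sg]
  · rw [ZMod.dft_comp_neg (fun x : ZMod m => (if x = v then (1 : ℂ) else 0) - 1 / m)]
    rw [d1_series m v false hs]
    · simp [sg]
    · intro k
      rw [d1_dft]
      simp [sg]

end Pool.Agent.LibSM47.SD
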