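import Pool.Agent.LibSM47.D_A2

/-! ROW D_D2 (MEDIUM): the Fourier transform of `Φ`.

(1) if `l.1 = 0` the factor `stdAddChar (-(l.1 v.1 + ..))` does not depend on `v.1`: sum over `v.1` first, D_A2. The same for the others.
(2) if all three are `≠ 0`: `FT (Ph) = FT (ff) - FT (ft)` and `FT (ft) l = 0`, because `ft` is a sum of functions each of which does not
depend on one of the variables, and `∑_u stdAddChar (-(k u)) = 0` for `k ≠ 0` (`AddChar.sum_mulShift`, `ZMod.isPrimitive_stdAddChar`).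
gd_sl: `gcd(±l, m)`: `Nat.gcd (sg b * l : ZMod m).val m = Nat.gcd l m` (`ZMod.val_natCast`, `Nat.gcd_mod..`; for the sign -1:
`ZMod.neg_val`, `Nat.gcd_sub_self_left`..; or: `g ∣ ...` both ways with `ZMod.natCast_eq_zero_iff`). sl_ne: `sg b * l = 0 ↔ l = 0`. -/

set_option autoImplicit false

namespace Pool.Agent.LibSM47.SD

open MeasureTheory Set Filter Topology Complex

private theorem d2_split (m : ℕ) [NeZero m] (a b c : ZMod m) :
    (ZMod.stdAddChar (-(a + b + c)) : ℂ) =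
      ZMod.stdAddChar (-a) * ZMod.stdAddChar (-b) * ZMod.stdAddChar (-c) := by
  rw [show -(a + b + c) = -a + -b + -c by ring, AddChar.map_add_eq_mul, AddChar.map_add_eq_mul]

private theorem d2_sum (m : ℕ) [NeZero m] (k : ZMod m) (hk : k ≠ 0) :
    ∑ u : ZMod m, (ZMod.stdAddChar (-(k * u)) : ℂ) = 0 := by
  have h := AddChar.sum_mulShift (R := ZMod m) (R' := ℂ) (-k) (ZMod.isPrimitive_stdAddChar m)
  rw [if_neg (neg_ne_zero.mpr hk)] at h
  have h0 : ((0 : ℕ) : ℂ) = 0 := Nat.cast_zero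
  rw [← h0, ← h]
  refine Finset.sum_congr rfl fun u _ => ?_
  congr 1; ring

/-- summation over the triples with the first variable innermost. -/
private theorem d2_s1 (m : ℕ) [NeZero m] (g : Z3 m → ℂ) :
    ∑ v : Z3 m, g v = ∑ v : ZMod m, ∑ w : ZMod m, ∑ u : ZMod m, g (u, v, w) := by
  rw [Fintype.sum_prod_type, Finset.sum_comm, Fintype.sum_prod_type]

private theorem d2_s2 (m : ℕ) [NeZero m] (g : Z3 m → ℂ) :
    ∑ v : Z3 m, g v = ∑ u : ZMod m, ∑ w : ZMod m, ∑ v : ZMod m, g (u, v, w) := by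
  rw [Fintype.sum_prod_type]
  refine Finset.sum_congr rfl fun u _ => ?_
  rw [Fintype.sum_prod_type, Finset.sum_comm]

private theorem d2_s3 (m : ℕ) [NeZero m] (g : Z3 m → ℂ) :
    ∑ v : Z3 m, g v = ∑ u : ZMod m, ∑ v : ZMod m, ∑ w : ZMod m, g (u, v, w) := by
  rw [Fintype.sum_prod_type]
  refine Finset.sum_congr rfl fun u _ => ?_
  rw [Fintype.sum_prod_type]

private theorem d2_f1 (m : ℕ) [NeZero m] (F : ZMod m → ZMod m → ℂ) (l : Z3 m) (h : l.1 ≠ 0) :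
    ∑ v : Z3 m, F v.2.1 v.2.2 * (ZMod.stdAddChar (-(l.1 * v.1 + l.2.1 * v.2.1 + l.2.2 * v.2.2)) : ℂ) = 0 := by
  rw [d2_s1]
  refine Finset.sum_eq_zero fun v _ => Finset.sum_eq_zero fun w _ => ?_
  simp only [d2_split]
  have : ∀ u : ZMod m, F v w * ((ZMod.stdAddChar (-(l.1 * u)) : ℂ) * ZMod.stdAddChar (-(l.2.1 * v)) *
      ZMod.stdAddChar (-(l.2.2 * w))) = (F v w * ZMod.stdAddChar (-(l.2.1 * v)) *
      ZMod.stdAddChar (-(l.2.2 * w))) * (ZMod.stdAddChar (-(l.1 * u)) : ℂ) := fun u => by ring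
  simp only [this]
  rw [← Finset.mul_sum, d2_sum m _ h, mul_zero]

private theorem d2_f2 (m : ℕ) [NeZero m] (F : ZMod m → ZMod m → ℂ) (l : Z3 m) (h : l.2.1 ≠ 0) :
    ∑ v : Z3 m, F v.1 v.2.2 * (ZMod.stdAddChar (-(l.1 * v.1 + l.2.1 * v.2.1 + l.2.2 * v.2.2)) : ℂ) = 0 := by
  rw [d2_s2]
  refine Finset.sum_eq_zero fun u _ => Finset.sum_eq_zero fun w _ => ?_
  simp only [d2_split]
  have : ∀ v : ZMod m, F u w * ((ZMod.stdAddChar (-(l.1 * u)) : ℂ) * ZMod.stdAddChar (-(l.2.1 * v)) *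
      ZMod.stdAddChar (-(l.2.2 * w))) = (F u w * ZMod.stdAddChar (-(l.1 * u)) *
      ZMod.stdAddChar (-(l.2.2 * w))) * (ZMod.stdAddChar (-(l.2.1 * v)) : ℂ) := fun v => by ring
  simp only [this]
  rw [← Finset.mul_sum, d2_sum m _ h, mul_zero]

private theorem d2_f3 (m : ℕ) [NeZero m] (F : ZMod m → ZMod m → ℂ) (l : Z3 m) (h : l.2.2 ≠ 0) :
    ∑ v : Z3 m, F v.1 v.2.1 * (ZMod.stdAddChar (-(l.1 * v.1 + l.2.1 * v.2.1 + l.2.2 * v.2.2)) : ℂ) = 0 := by
  rw [d2_s3]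
  refine Finset.sum_eq_zero fun u _ => Finset.sum_eq_zero fun v _ => ?_
  simp only [d2_split]
  have : ∀ w : ZMod m, F u v * ((ZMod.stdAddChar (-(l.1 * u)) : ℂ) * ZMod.stdAddChar (-(l.2.1 * v)) *
      ZMod.stdAddChar (-(l.2.2 * w))) = (F u v * ZMod.stdAddChar (-(l.1 * u)) *
      ZMod.stdAddChar (-(l.2.1 * v))) * (ZMod.stdAddChar (-(l.2.2 * w)) : ℂ) := fun w => by ring
  simp only [this]
  rw [← Finset.mul_sum, d2_sum m _ h, mul_zero]

theorem FT_Ph_zero (m : ℕ) [NeZero m] (n : ZMod m) (hn : IsUnit n) (l : Z3 m)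
    (h : l.1 = 0 ∨ l.2.1 = 0 ∨ l.2.2 = 0) : FT m (Ph m n) l = 0 := by
  obtain ⟨h1, h2, h3⟩ := Ph_marg m n hn
  unfold FT
  rcases h with h | h | h
  · rw [d2_s1]
    refine Finset.sum_eq_zero fun v _ => Finset.sum_eq_zero fun w _ => ?_
    simp only [h, zero_mul]
    rw [← Finset.sum_mul, h1 v w, zero_mul]
  · rw [d2_s2]
    refine Finset.sum_eq_zero fun u _ => Finset.sum_eq_zero fun w _ => ?_
    simp only [h, zero_mul]
    rw [← Finset.sum_mul, h2 u w, zero_mul]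
  · rw [d2_s3]
    refine Finset.sum_eq_zero fun u _ => Finset.sum_eq_zero fun v _ => ?_
    simp only [h, zero_mul]
    rw [← Finset.sum_mul, h3 u v, zero_mul]

theorem FT_Ph (m : ℕ) [NeZero m] (n : ZMod m) (hn : IsUnit n) (l : Z3 m)
    (h1 : l.1 ≠ 0) (h2 : l.2.1 ≠ 0) (h3 : l.2.2 ≠ 0) : FT m (Ph m n) l = FT m (ff m n) l := by
  unfold FT Ph
  simp only [sub_mul, Finset.sum_sub_distrib]
  rw [sub_eq_self]
  have e : ∀ v : Z3 m, ((ft m v : ℝ) : ℂ) =
      ((if v.2.1 * v.2.2 = 0 then (1 : ℂ) else 0) - ((gd m v.2.1 : ℂ) + gd m v.2.2) / m + (hh m : ℂ) / m) +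
      ((if v.1 * v.2.2 = 0 then (1 : ℂ) else 0) - (gd m v.1 : ℂ) / m) +
      (if v.1 * v.2.1 = 0 then (1 : ℂ) else 0) := by
    intro v
    unfold ft
    push_cast
    split_ifs <;> push_cast <;> ring
  simp only [e, add_mul, Finset.sum_add_distrib]
  have k1 := d2_f1 m (fun a b => (if a * b = 0 then (1 : ℂ) else 0) - ((gd m a : ℂ) + gd m b) / m + (hh m : ℂ) / m) l h1
  have k2 := d2_f2 m (fun a b => (if a * b = 0 then (1 : ℂ) else 0) - (gd m a : ℂ) / m) l h2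
  have k3 := d2_f3 m (fun a b => (if a * b = 0 then (1 : ℂ) else 0)) l h3
  simp only [add_mul, Finset.sum_add_distrib] at k1 k2 k3
  rw [k1, k2, k3]; simp

theorem gd_sg (m : ℕ) [NeZero m] (b : Bool) (l : ℕ) :
    gd m (((sg b : ℤ) : ZMod m) * ((l : ℕ) : ZMod m)) = Nat.gcd l m := by
  have hpos : gd m ((l : ℕ) : ZMod m) = Nat.gcd l m := by
    unfold gd
    rw [ZMod.val_natCast]
    exact (Nat.gcd_rec m l).symm.trans (Nat.gcd_comm m l)
  cases b
  · unfold sg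
    simp only [Bool.false_eq_true, if_false, Int.cast_neg, Int.cast_one, neg_mul, one_mul]
    rw [← hpos]
    unfold gd
    rw [ZMod.neg_val]
    split_ifs with h
    · rw [h]; simp
    · have := (ZMod.val_lt ((l : ℕ) : ZMod m)).le
      rw [Nat.gcd_comm, Nat.gcd_self_sub_right this, Nat.gcd_comm]
  · unfold sg
    simp only [if_true, Int.cast_one, one_mul]
    exact hpos

end Pool.Agent.LibSM47.SD
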