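import Pool.Agent.LibSM47.D_A2
import Pool.Agent.LibSM47.D_A3
import Pool.Agent.LibSM47.D_B0
import Pool.Agent.LibSM47.D_D1

/-! ROW D_D3 (MEDIUM): the functional equation of `Λ`.

Like D_B1: for fixed signs, `du v₁ b₁ * du v₂ b₂ * du v₃ b₃` is a series over `Tr` (`tsum_mul_tsum_of_summable_norm` twice, `du_summable`,
`pr_cast`); exchange with the finite sum over `v`; for fixed `a`, D_A3 `marg3` with `A u = stdAddChar (-(u * (sg b₁ * a₁)))`,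
`a = [a₁ = 0]` etc. gives `∑_v Φ(v) stdAddChar(..)stdAddChar(..)stdAddChar(..) = FT m (Ph m n) (sl m b a)` (`AddChar.map_add_eq_mul`).
Lam_one_sub: insert D_D1 in `Lam` and expand (`Fintype.sum_prod_type`, `Fintype.sum_bool`, `Finset.mul_sum`, `Complex.exp_add`). -/

set_option autoImplicit false

namespace Pool.Agent.LibSM47.SD

open MeasureTheory Set Filter Topology Complex

/-- the terms of the dual series -/
private noncomputable def dd3f (m : ℕ) [NeZero m] (s : ℂ) (b : Bool) (u : ZMod m) (l : ℕ+) : ℂ :=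
  (ZMod.stdAddChar (-(u * (((sg b : ℤ) : ZMod m) * ((l : ℕ) : ZMod m)))) -
      (if ((l : ℕ) : ZMod m) = 0 then (1 : ℂ) else 0)) * ((l : ℕ) : ℂ) ^ (-s)

private theorem dd3_prod (m : ℕ) [NeZero m] (b : Bool × Bool × Bool) {s : ℂ} (hs : 1 < s.re) (v : Z3 m) :
    (Summable fun a : Tr => ‖dd3f m s b.1 v.1 a.1 *
      (dd3f m s b.2.1 v.2.1 a.2.1 * dd3f m s b.2.2 v.2.2 a.2.2)‖) ∧
    du m v.1 b.1 s * du m v.2.1 b.2.1 s * du m v.2.2 b.2.2 s =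
      ∑' a : Tr, dd3f m s b.1 v.1 a.1 *
        (dd3f m s b.2.1 v.2.1 a.2.1 * dd3f m s b.2.2 v.2.2 a.2.2) := by
  have h1 : Summable fun l : ℕ+ => ‖dd3f m s b.1 v.1 l‖ := du_summable m v.1 b.1 hs
  have h2 : Summable fun l : ℕ+ => ‖dd3f m s b.2.1 v.2.1 l‖ := du_summable m v.2.1 b.2.1 hs
  have h3 : Summable fun l : ℕ+ => ‖dd3f m s b.2.2 v.2.2 l‖ := du_summable m v.2.2 b.2.2 hs
  have h23 : Summable fun q : ℕ+ × ℕ+ =>
      ‖dd3f m s b.2.1 v.2.1 q.1 * dd3f m s b.2.2 v.2.2 q.2‖ :=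
    Summable.mul_norm (f := fun l : ℕ+ => dd3f m s b.2.1 v.2.1 l)
      (g := fun l : ℕ+ => dd3f m s b.2.2 v.2.2 l) h2 h3
  refine ⟨Summable.mul_norm (f := fun l : ℕ+ => dd3f m s b.1 v.1 l)
      (g := fun q : ℕ+ × ℕ+ => dd3f m s b.2.1 v.2.1 q.1 * dd3f m s b.2.2 v.2.2 q.2) h1 h23, ?_⟩
  have e23 := tsum_mul_tsum_of_summable_norm (f := fun l : ℕ+ => dd3f m s b.2.1 v.2.1 l)
    (g := fun l : ℕ+ => dd3f m s b.2.2 v.2.2 l) h2 h3
  have e123 := tsum_mul_tsum_of_summable_norm (f := fun l : ℕ+ => dd3f m s b.1 v.1 l)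
    (g := fun q : ℕ+ × ℕ+ => dd3f m s b.2.1 v.2.1 q.1 * dd3f m s b.2.2 v.2.2 q.2) h1 h23
  beta_reduce at e23 e123
  rw [← e123, ← e23, ← mul_assoc]
  rfl

private theorem dd3_term (m : ℕ) [NeZero m] (n : ZMod m) (hn : IsUnit n) (b : Bool × Bool × Bool) (s : ℂ)
    (a : Tr) :
    ∑ v : Z3 m, Ph m n v * (dd3f m s b.1 v.1 a.1 *
      (dd3f m s b.2.1 v.2.1 a.2.1 * dd3f m s b.2.2 v.2.2 a.2.2)) =
      FT m (Ph m n) (sl m b a) * (pr a : ℂ) ^ (-s) := by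
  obtain ⟨hm1, hm2, hm3⟩ := Ph_marg m n hn
  have h1 := marg3 (Ph m n) hm1 hm2 hm3
    (fun u => (ZMod.stdAddChar (-(u * (((sg b.1 : ℤ) : ZMod m) * ((a.1 : ℕ) : ZMod m)))) : ℂ))
    (fun u => (ZMod.stdAddChar (-(u * (((sg b.2.1 : ℤ) : ZMod m) * ((a.2.1 : ℕ) : ZMod m)))) : ℂ))
    (fun u => (ZMod.stdAddChar (-(u * (((sg b.2.2 : ℤ) : ZMod m) * ((a.2.2 : ℕ) : ZMod m)))) : ℂ))
    (if ((a.1 : ℕ) : ZMod m) = 0 then (1 : ℂ) else 0)
    (if ((a.2.1 : ℕ) : ZMod m) = 0 then (1 : ℂ) else 0)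
    (if ((a.2.2 : ℕ) : ZMod m) = 0 then (1 : ℂ) else 0)
  have h2 : FT m (Ph m n) (sl m b a) = ∑ v : Z3 m, Ph m n v *
      (ZMod.stdAddChar (-(v.1 * (((sg b.1 : ℤ) : ZMod m) * ((a.1 : ℕ) : ZMod m)))) *
        ZMod.stdAddChar (-(v.2.1 * (((sg b.2.1 : ℤ) : ZMod m) * ((a.2.1 : ℕ) : ZMod m)))) *
        ZMod.stdAddChar (-(v.2.2 * (((sg b.2.2 : ℤ) : ZMod m) * ((a.2.2 : ℕ) : ZMod m))))) := by
    unfold FT
    refine Finset.sum_congr rfl fun v _ => ?_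
    rw [← AddChar.map_add_eq_mul, ← AddChar.map_add_eq_mul]
    congr 2
    unfold sl
    ring
  rw [h2, ← h1, Finset.sum_mul]
  refine Finset.sum_congr rfl fun v _ => ?_
  rw [pr_cast]
  unfold dd3f
  ring

theorem sum_du (m : ℕ) [NeZero m] (n : ZMod m) (hn : IsUnit n) (b : Bool × Bool × Bool) {s : ℂ} (hs : 1 < s.re) :
    ∑ v : Z3 m, Ph m n v * (du m v.1 b.1 s * du m v.2.1 b.2.1 s * du m v.2.2 b.2.2 s) = DS m n b s := by
  have h1 : ∀ v : Z3 m, Ph m n v * (du m v.1 b.1 s * du m v.2.1 b.2.1 s * du m v.2.2 b.2.2 s) =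
      ∑' a : Tr, Ph m n v * (dd3f m s b.1 v.1 a.1 *
        (dd3f m s b.2.1 v.2.1 a.2.1 * dd3f m s b.2.2 v.2.2 a.2.2)) := fun v => by
    rw [(dd3_prod m b hs v).2, tsum_mul_left]
  rw [Finset.sum_congr rfl fun v _ => h1 v]
  rw [← Summable.tsum_finsetSum fun v _ => ((dd3_prod m b hs v).1.of_norm).mul_left (Ph m n v)]
  unfold DS
  exact tsum_congr fun a => dd3_term m n hn b s a

theorem Lam_one_sub (m : ℕ) [NeZero m] (n : ZMod m) (hn : IsUnit n) {s : ℂ} (hs : 1 < s.re) :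
    Lam m n (1 - s) = gf m s ^ 3 * ∑ b : Bool × Bool × Bool,
      cexp (((sg b.1 : ℂ) + sg b.2.1 + sg b.2.2) * Real.pi * I * s / 2) * DS m n b s := by
  obtain ⟨e, he⟩ : ∃ e : Bool → ℂ, ∀ b, e b = cexp ((sg b : ℂ) * Real.pi * I * s / 2) :=
    ⟨_, fun _ => rfl⟩
  have hE : ∀ b : Bool × Bool × Bool,
      cexp (((sg b.1 : ℂ) + sg b.2.1 + sg b.2.2) * Real.pi * I * s / 2) =
        e b.1 * e b.2.1 * e b.2.2 := by
    intro b
    rw [he, he, he, ← Complex.exp_add, ← Complex.exp_add]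
    congr 1
    ring
  have h1 : ∀ v : Z3 m, Ph m n v * (lam m v.1 (1 - s) * lam m v.2.1 (1 - s) * lam m v.2.2 (1 - s)) =
      gf m s ^ 3 * ∑ b : Bool × Bool × Bool, (e b.1 * e b.2.1 * e b.2.2) *
        (Ph m n v * (du m v.1 b.1 s * du m v.2.1 b.2.1 s * du m v.2.2 b.2.2 s)) := by
    intro v
    rw [lam_one_sub m v.1 hs, lam_one_sub m v.2.1 hs, lam_one_sub m v.2.2 hs]
    simp only [Fintype.sum_prod_type, Fintype.sum_bool, ← he]
    ring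
  unfold Lam
  rw [Finset.sum_congr rfl fun v _ => h1 v, ← Finset.mul_sum, Finset.sum_comm]
  congr 1
  refine Finset.sum_congr rfl fun b _ => ?_
  rw [← Finset.mul_sum, sum_du m n hn b hs, hE]

end Pool.Agent.LibSM47.SD
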