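import Pool.Agent.LibSM47.D_D2
import Pool.Agent.LibSM47.D_D3

/-! ROW D_D4 (MEDIUM): bound for the dual series.

For `a : Tr`: `‖FT m (Ph m n) (sl m b a)‖ ≤ C₁ m^{3/2+η} pw^{1/2} ∏ gcd(a_i, m)^{1/4}`: if some component of `sl m b a` is `0` the left side is
`0` (`FT_Ph_zero`), otherwise `FT_Ph` and the hypothesis `FTle` with `gd_sg`. `‖(pr a)^{-s}‖ = ∏ a_i^{-1-η}` for `Re s = 1+η`
(D_B0), so `‖DS‖ ≤ C₁ m^{3/2+η} pw^{1/2} (∑_l gcd(l,m)^{1/4} l^{-1-η})³` (product of three sums: `Summable.mul_of_nonneg`,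
`tsum_mul_tsum..`) and the hypothesis `GcdSum`. `((x y) z)^{1/4} = ..` by `Real.mul_rpow`. -/

set_option autoImplicit false

namespace Pool.Agent.LibSM47.SD

open MeasureTheory Set Filter Topology Complex

/-- the weight of one variable -/
private noncomputable def dd4G (m : ℕ) (η : ℝ) (l : ℕ+) : ℝ :=
  (Nat.gcd (l : ℕ) m : ℝ) ^ (1 / 4 : ℝ) * ((l : ℕ) : ℝ) ^ (-1 - η)

private theorem dd4G_nonneg (m : ℕ) (η : ℝ) (l : ℕ+) : 0 ≤ dd4G m η l := by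
  unfold dd4G
  positivity

private theorem dd4_sum (m : ℕ) (η : ℝ) (h : Summable (dd4G m η)) :
    HasSum (fun a : Tr => dd4G m η a.1 * (dd4G m η a.2.1 * dd4G m η a.2.2))
      ((∑' l : ℕ+, dd4G m η l) ^ 3) := by
  have h23 : Summable fun q : ℕ+ × ℕ+ => dd4G m η q.1 * dd4G m η q.2 :=
    h.mul_of_nonneg h (dd4G_nonneg m η) (dd4G_nonneg m η)
  have h123 : Summable fun a : ℕ+ × (ℕ+ × ℕ+) => dd4G m η a.1 * (dd4G m η a.2.1 * dd4G m η a.2.2) :=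
    h.mul_of_nonneg h23 (dd4G_nonneg m η)
      (fun q => mul_nonneg (dd4G_nonneg m η _) (dd4G_nonneg m η _))
  have e23 := h.tsum_mul_tsum h h23
  have e123 := h.tsum_mul_tsum h23 h123
  have e : (∑' l : ℕ+, dd4G m η l) ^ 3 =
      ∑' a : Tr, dd4G m η a.1 * (dd4G m η a.2.1 * dd4G m η a.2.2) := by
    rw [← e123, ← e23]
    ring
  rw [e]
  exact h123.hasSum

private theorem dd4_FT {η C : ℝ} (hC : 0 < C)
    (hF : ∀ (m : ℕ) [NeZero m] (n : ZMod m) (_ : IsUnit n) (l : Z3 m),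
      ‖FT m (ff m n) l‖ ≤ C * (m : ℝ) ^ (3 / 2 + η) * (pw m : ℝ) ^ (1 / 2 : ℝ) *
        ((gd m l.1 : ℝ) * gd m l.2.1 * gd m l.2.2) ^ (1 / 4 : ℝ))
    (m : ℕ) [NeZero m] (n : ZMod m) (hn : IsUnit n) (b : Bool × Bool × Bool) (a : Tr) :
    ‖FT m (Ph m n) (sl m b a)‖ ≤ C * (m : ℝ) ^ (3 / 2 + η) * (pw m : ℝ) ^ (1 / 2 : ℝ) *
      ((Nat.gcd (a.1 : ℕ) m : ℝ) ^ (1 / 4 : ℝ) * (Nat.gcd (a.2.1 : ℕ) m : ℝ) ^ (1 / 4 : ℝ) *
        (Nat.gcd (a.2.2 : ℕ) m : ℝ) ^ (1 / 4 : ℝ)) := by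
  by_cases h : (sl m b a).1 = 0 ∨ (sl m b a).2.1 = 0 ∨ (sl m b a).2.2 = 0
  · rw [FT_Ph_zero m n hn _ h, norm_zero]
    positivity
  · push Not at h
    rw [FT_Ph m n hn _ h.1 h.2.1 h.2.2]
    refine (hF m n hn _).trans (le_of_eq ?_)
    have e1 : gd m (sl m b a).1 = Nat.gcd (a.1 : ℕ) m := gd_sg m b.1 a.1
    have e2 : gd m (sl m b a).2.1 = Nat.gcd (a.2.1 : ℕ) m := gd_sg m b.2.1 a.2.1
    have e3 : gd m (sl m b a).2.2 = Nat.gcd (a.2.2 : ℕ) m := gd_sg m b.2.2 a.2.2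
    rw [e1, e2, e3, Real.mul_rpow (by positivity) (by positivity),
      Real.mul_rpow (by positivity) (by positivity)]

theorem DS_le (η : ℝ) (hη : 0 < η) (hF : FTle η) (hG : GcdSum η) : ∃ C : ℝ, 0 < C ∧ ∀ (m : ℕ) [NeZero m] (n : ZMod m) (_ : IsUnit n)
    (b : Bool × Bool × Bool) (s : ℂ), s.re = 1 + η →
      ‖DS m n b s‖ ≤ C * (m : ℝ) ^ (3 / 2 + 4 * η) * (pw m : ℝ) ^ (1 / 2 : ℝ) := by
  obtain ⟨C₁, hC₁, hF⟩ := hF
  obtain ⟨C₂, hC₂, hG⟩ := hG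
  refine ⟨C₁ * C₂ ^ 3, by positivity, ?_⟩
  intro m _ n hn b s hs
  have hm : (0 : ℝ) < m := Nat.cast_pos.2 (Nat.pos_of_ne_zero (NeZero.ne m))
  obtain ⟨hsum, hle⟩ := hG m
  have hsum' : Summable (dd4G m η) := hsum
  have hle' : ∑' l : ℕ+, dd4G m η l ≤ C₂ * (m : ℝ) ^ η := hle
  have hS := (dd4_sum m η hsum').mul_left (C₁ * (m : ℝ) ^ (3 / 2 + η) * (pw m : ℝ) ^ (1 / 2 : ℝ))
  have hb : ∀ a : Tr, ‖FT m (Ph m n) (sl m b a) * (pr a : ℂ) ^ (-s)‖ ≤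
      C₁ * (m : ℝ) ^ (3 / 2 + η) * (pw m : ℝ) ^ (1 / 2 : ℝ) *
        (dd4G m η a.1 * (dd4G m η a.2.1 * dd4G m η a.2.2)) := by
    intro a
    rw [norm_mul, norm_pr_cpow]
    have h1 := dd4_FT hC₁ hF m n hn b a
    have h2 : (pr a : ℝ) ^ (-s).re = ((a.1 : ℕ) : ℝ) ^ (-1 - η) * ((a.2.1 : ℕ) : ℝ) ^ (-1 - η) *
        ((a.2.2 : ℕ) : ℝ) ^ (-1 - η) := by
      have h3 : (-s).re = -1 - η := by rw [Complex.neg_re, hs]; ring
      have h4 : (pr a : ℝ) = ((a.1 : ℕ) : ℝ) * ((a.2.1 : ℕ) : ℝ) * ((a.2.2 : ℕ) : ℝ) := by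
        unfold pr
        push_cast
        rfl
      rw [h3, h4, Real.mul_rpow (by positivity) (by positivity),
        Real.mul_rpow (by positivity) (by positivity)]
    rw [h2]
    refine (mul_le_mul_of_nonneg_right h1 (by positivity)).trans (le_of_eq ?_)
    unfold dd4G
    ring
  have h5 : ‖DS m n b s‖ ≤ C₁ * (m : ℝ) ^ (3 / 2 + η) * (pw m : ℝ) ^ (1 / 2 : ℝ) *
      (∑' l : ℕ+, dd4G m η l) ^ 3 := by
    unfold DS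
    exact tsum_of_norm_bounded hS hb
  have h6 : 0 ≤ ∑' l : ℕ+, dd4G m η l := tsum_nonneg (dd4G_nonneg m η)
  have h7 : (∑' l : ℕ+, dd4G m η l) ^ 3 ≤ (C₂ * (m : ℝ) ^ η) ^ 3 := pow_le_pow_left₀ h6 hle' 3
  refine h5.trans ((mul_le_mul_of_nonneg_left h7 (by positivity)).trans (le_of_eq ?_))
  have h8 : (m : ℝ) ^ (3 / 2 + 4 * η) = (m : ℝ) ^ (3 / 2 + η) * ((m : ℝ) ^ η) ^ 3 := by
    rw [← Real.rpow_natCast, ← Real.rpow_mul hm.le, ← Real.rpow_add hm]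
    congr 1
    push_cast
    ring
  rw [h8]
  ring

end Pool.Agent.LibSM47.SD
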