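import Pool.Agent.LibSM47.D_D4
import Pool.Agent.LibPH.X02

/-! ROW D_D5 (MEDIUM): `Λ` on the line `Re s = -η`.

Gamma_up: LibPH.X02 `gam_bd` with `s = 1+η+iy`, `θ = ±(π/2 - 1/(1+|y|))` (sign of `y`): `cos θ = sin(1/(1+|y|)) ≥ (2/π)/(1+|y|)`
(`Real.mul_le_sin`), so `‖Γ‖ e^{π|y|/2} ≤ Γ(1+η) e ((π/2)(1+|y|))^{1+η} ≤ C (1+|y|)²`.
Lam_left: `Lam_one_sub` with `s = 1+η-iy` (`1 - s = -η+iy`): `‖gf m s‖ = m^η (2π)^{-1-η} ‖Γ(s)‖ ≤ m^η ‖Γ(s)‖`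
(`Complex.norm_natCast_cpow_of_pos`, `norm_cpow_eq_rpow_re_of_pos`), `|cexp(k π i s/2)| = e^{-k π Im s/2} ≤ e^{3π|y|/2}` for `|k| ≤ 3`,
8 triples of signs, D_D4: total `8 m^{3η} (C (1+|y|)²)³ C m^{3/2+4η} pw^{1/2}`. -/

set_option autoImplicit false

namespace Pool.Agent.LibSM47.SD

open MeasureTheory Set Filter Topology Complex

theorem Gamma_up (η : ℝ) (hη : 0 < η) (hη1 : η ≤ 1) : ∃ C : ℝ, 0 < C ∧ ∀ y : ℝ,
    ‖Complex.Gamma (((1 + η : ℝ) : ℂ) + y * I)‖ * Real.exp (Real.pi / 2 * |y|) ≤ C * (1 + |y|) ^ 2 := by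
  have hG : 0 < Real.Gamma (1 + η) := Real.Gamma_pos_of_pos (by linarith)
  refine ⟨Real.exp 1 * Real.Gamma (1 + η) * (Real.pi / 2) ^ 2, by positivity, fun y => ?_⟩
  set u : ℝ := 1 / (1 + |y|) with hu
  have hy : 0 ≤ |y| := abs_nonneg y
  have hu0 : 0 < u := by positivity
  have hu1 : u ≤ 1 := by
    rw [hu, div_le_one (by linarith)]
    linarith
  have hpi : 3 < Real.pi := Real.pi_gt_three
  set w : ℝ := Real.pi / 2 - u with hw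
  have hw0 : 0 < w := by rw [hw]; linarith
  have hw1 : w < Real.pi / 2 := by rw [hw]; linarith
  have hcosw : Real.cos w = Real.sin u := by rw [hw, Real.cos_pi_div_two_sub]
  -- the angle
  obtain ⟨θ, hθ, hθy, hcos⟩ : ∃ θ : ℝ, |θ| < Real.pi / 2 ∧ y * θ = |y| * w ∧ Real.cos θ = Real.sin u := by
    rcases le_total 0 y with h | h
    · exact ⟨w, by rwa [abs_of_pos hw0], by rw [abs_of_nonneg h], hcosw⟩
    · refine ⟨-w, by rwa [abs_neg, abs_of_pos hw0], by rw [abs_of_nonpos h]; ring, ?_⟩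
      rw [Real.cos_neg, hcosw]
  have hre : (((1 + η : ℝ) : ℂ) + y * I).re = 1 + η := by simp
  have him : (((1 + η : ℝ) : ℂ) + y * I).im = y := by simp
  have h1 := Pool.Agent.LibPH.gam_bd (s := ((1 + η : ℝ) : ℂ) + y * I) (by rw [hre]; linarith) hθ
  rw [hre, him, hθy, hcos] at h1
  have h2 : Real.pi / 2 * |y| ≤ 1 + |y| * w := by
    have h3 : |y| * u ≤ 1 := by
      rw [hu, mul_one_div, div_le_one (by linarith)]
      linarith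
    rw [hw]
    nlinarith
  have h4 : Real.exp (Real.pi / 2 * |y|) ≤ Real.exp 1 * Real.exp (|y| * w) := by
    rw [← Real.exp_add]
    exact Real.exp_le_exp.2 h2
  have h5 : 2 / Real.pi * u ≤ Real.sin u := Real.mul_le_sin hu0.le (by linarith)
  have h6 : 0 < 2 / Real.pi * u := by positivity
  have h7 : Real.sin u ^ (-(1 + η)) ≤ (2 / Real.pi * u) ^ (-(1 + η)) :=
    Real.rpow_le_rpow_of_nonpos h6 h5 (by linarith)
  have h8 : (2 / Real.pi * u) ^ (-(1 + η)) = (Real.pi / 2 * (1 + |y|)) ^ (1 + η) := by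
    rw [Real.rpow_neg h6.le, ← Real.inv_rpow h6.le]
    congr 1
    rw [hu]
    field_simp
  have h9 : 1 ≤ Real.pi / 2 * (1 + |y|) := by nlinarith
  have h10 : (Real.pi / 2 * (1 + |y|)) ^ (1 + η) ≤ (Real.pi / 2 * (1 + |y|)) ^ (2 : ℝ) :=
    Real.rpow_le_rpow_of_exponent_le h9 (by linarith)
  have h11 : (Real.pi / 2 * (1 + |y|)) ^ (2 : ℝ) = (Real.pi / 2) ^ 2 * (1 + |y|) ^ 2 := by
    rw [Real.rpow_two, mul_pow]
  have h12 : Real.sin u ^ (-(1 + η)) ≤ (Real.pi / 2) ^ 2 * (1 + |y|) ^ 2 := by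
    rw [← h11]
    exact h7.trans (h8.le.trans h10)
  calc ‖Complex.Gamma (((1 + η : ℝ) : ℂ) + y * I)‖ * Real.exp (Real.pi / 2 * |y|)
      ≤ ‖Complex.Gamma (((1 + η : ℝ) : ℂ) + y * I)‖ * (Real.exp 1 * Real.exp (|y| * w)) :=
        mul_le_mul_of_nonneg_left h4 (norm_nonneg _)
    _ = Real.exp 1 * (‖Complex.Gamma (((1 + η : ℝ) : ℂ) + y * I)‖ * Real.exp (|y| * w)) := by ring
    _ ≤ Real.exp 1 * (Real.Gamma (1 + η) * Real.sin u ^ (-(1 + η))) :=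
        mul_le_mul_of_nonneg_left h1 (Real.exp_pos 1).le
    _ ≤ Real.exp 1 * (Real.Gamma (1 + η) * ((Real.pi / 2) ^ 2 * (1 + |y|) ^ 2)) := by
        gcongr
    _ = Real.exp 1 * Real.Gamma (1 + η) * (Real.pi / 2) ^ 2 * (1 + |y|) ^ 2 := by ring

private theorem d5_gf (m : ℕ) [NeZero m] (η : ℝ) (hη : 0 < η) (y : ℝ) :
    ‖gf m (((1 + η : ℝ) : ℂ) + y * I)‖ ≤
      (m : ℝ) ^ η * ‖Complex.Gamma (((1 + η : ℝ) : ℂ) + y * I)‖ := by
  have hm : 0 < m := Nat.pos_of_ne_zero (NeZero.ne m)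
  unfold gf
  rw [norm_mul, norm_mul]
  have h1 : ‖(m : ℂ) ^ (((1 + η : ℝ) : ℂ) + y * I - 1)‖ = (m : ℝ) ^ η := by
    rw [Complex.norm_natCast_cpow_of_pos hm]
    congr 1
    simp
  have h2 : ‖(2 * Real.pi : ℂ) ^ (-(((1 + η : ℝ) : ℂ) + y * I))‖ ≤ 1 := by
    have h3 : (2 * Real.pi : ℂ) = ((2 * Real.pi : ℝ) : ℂ) := by push_cast; rfl
    rw [h3, Complex.norm_cpow_eq_rpow_re_of_pos (by positivity)]
    have h4 : (-(((1 + η : ℝ) : ℂ) + y * I)).re = -(1 + η) := by simp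
    rw [h4]
    exact Real.rpow_le_one_of_one_le_of_nonpos (by linarith [Real.pi_gt_three]) (by linarith)
  rw [h1]
  refine mul_le_mul_of_nonneg_right ?_ (norm_nonneg _)
  calc (m : ℝ) ^ η * ‖(2 * Real.pi : ℂ) ^ (-(((1 + η : ℝ) : ℂ) + y * I))‖ ≤ (m : ℝ) ^ η * 1 := by
        gcongr
    _ = (m : ℝ) ^ η := mul_one _

private theorem d5_exp (b : Bool × Bool × Bool) (s : ℂ) :
    ‖cexp (((sg b.1 : ℂ) + sg b.2.1 + sg b.2.2) * Real.pi * I * s / 2)‖ ≤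
      Real.exp (Real.pi / 2 * |s.im|) ^ 3 := by
  rw [Complex.norm_exp, ← Real.exp_nat_mul]
  refine Real.exp_le_exp.2 ?_
  have h1 : (((sg b.1 : ℂ) + sg b.2.1 + sg b.2.2) * Real.pi * I * s / 2).re =
      -(((sg b.1 : ℝ) + sg b.2.1 + sg b.2.2) * Real.pi * s.im / 2) := by
    have h2 : ((sg b.1 : ℂ) + sg b.2.1 + sg b.2.2) * Real.pi * I * s / 2 =
        ((((sg b.1 : ℝ) + sg b.2.1 + sg b.2.2) * Real.pi / 2 : ℝ) : ℂ) * (I * s) := by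
      push_cast
      ring
    rw [h2, Complex.re_ofReal_mul, Complex.I_mul_re]
    ring
  rw [h1]
  have h3 : |((sg b.1 : ℝ) + sg b.2.1 + sg b.2.2)| ≤ 3 := by
    have h4 : ∀ c : Bool, |(sg c : ℝ)| ≤ 1 := by
      intro c
      cases c <;> simp [sg]
    have h5 := abs_add_le ((sg b.1 : ℝ) + sg b.2.1) (sg b.2.2 : ℝ)
    have h6 := abs_add_le (sg b.1 : ℝ) (sg b.2.1 : ℝ)
    linarith [h4 b.1, h4 b.2.1, h4 b.2.2]
  have h7 : -(((sg b.1 : ℝ) + sg b.2.1 + sg b.2.2) * Real.pi * s.im / 2) ≤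
      |((sg b.1 : ℝ) + sg b.2.1 + sg b.2.2) * Real.pi * s.im / 2| := neg_le_abs _
  have h8 : |((sg b.1 : ℝ) + sg b.2.1 + sg b.2.2) * Real.pi * s.im / 2| =
      |((sg b.1 : ℝ) + sg b.2.1 + sg b.2.2)| * (Real.pi / 2 * |s.im|) := by
    rw [abs_div, abs_mul, abs_mul, abs_of_pos Real.pi_pos, abs_of_pos (by norm_num : (0 : ℝ) < 2)]
    ring
  have h9 : 0 ≤ Real.pi / 2 * |s.im| := by positivity
  have h10 := mul_le_mul_of_nonneg_right h3 h9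
  push_cast
  linarith

theorem Lam_left (η : ℝ) (hη : 0 < η) (hη1 : η ≤ 1) (hF : FTle η) (hG : GcdSum η) : ∃ C : ℝ, 0 < C ∧ ∀ (m : ℕ) [NeZero m] (n : ZMod m) (_ : IsUnit n) (y : ℝ),
    ‖Lam m n (((-η : ℝ) : ℂ) + y * I)‖ ≤ C * (m : ℝ) ^ (3 / 2 + 7 * η) * (pw m : ℝ) ^ (1 / 2 : ℝ) * (1 + |y|) ^ 6 := by
  obtain ⟨C1, hC1, h1⟩ := Gamma_up η hη hη1
  obtain ⟨C2, hC2, h2⟩ := DS_le η hη hF hG
  refine ⟨8 * C1 ^ 3 * C2, by positivity, ?_⟩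
  intro m _ n hn y
  have hm : 0 < m := Nat.pos_of_ne_zero (NeZero.ne m)
  have hmR : (0 : ℝ) < m := Nat.cast_pos.2 hm
  set s : ℂ := ((1 + η : ℝ) : ℂ) + ((-y : ℝ) : ℂ) * I with hs
  have hsre : s.re = 1 + η := by simp [hs]
  have hsim : s.im = -y := by simp [hs]
  have h3 : (((-η : ℝ) : ℂ) + y * I) = 1 - s := by
    rw [hs]
    push_cast
    ring
  rw [h3, Lam_one_sub m n hn (by rw [hsre]; linarith), norm_mul, norm_pow]
  set E : ℝ := Real.exp (Real.pi / 2 * |y|) with hE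
  set B : ℝ := C2 * (m : ℝ) ^ (3 / 2 + 4 * η) * (pw m : ℝ) ^ (1 / 2 : ℝ) with hB
  have hE0 : 0 < E := Real.exp_pos _
  have hB0 : 0 ≤ B := by positivity
  have h4 : ‖∑ b : Bool × Bool × Bool,
      cexp (((sg b.1 : ℂ) + sg b.2.1 + sg b.2.2) * Real.pi * I * s / 2) * DS m n b s‖ ≤
      8 * (E ^ 3 * B) := by
    refine (norm_sum_le _ _).trans ?_
    have h5 : ∀ b ∈ (Finset.univ : Finset (Bool × Bool × Bool)),
        ‖cexp (((sg b.1 : ℂ) + sg b.2.1 + sg b.2.2) * Real.pi * I * s / 2) * DS m n b s‖ ≤ E ^ 3 * B := by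
      intro b _
      rw [norm_mul]
      have h6 := d5_exp b s
      rw [hsim, abs_neg] at h6
      exact mul_le_mul h6 (h2 m n hn b s hsre) (norm_nonneg _) (by positivity)
    refine (Finset.sum_le_card_nsmul _ _ _ h5).trans ?_
    have h7 : (Finset.univ : Finset (Bool × Bool × Bool)).card = 8 := by decide
    rw [h7, nsmul_eq_mul]
    norm_num
  have h8 : ‖gf m s‖ * E ≤ (m : ℝ) ^ η * (C1 * (1 + |y|) ^ 2) := by
    have h9 := d5_gf m η hη (-y)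
    have h10 := h1 (-y)
    rw [abs_neg] at h10
    calc ‖gf m s‖ * E ≤ ((m : ℝ) ^ η * ‖Complex.Gamma (((1 + η : ℝ) : ℂ) + ((-y : ℝ) : ℂ) * I)‖) * E :=
          mul_le_mul_of_nonneg_right h9 hE0.le
      _ = (m : ℝ) ^ η * (‖Complex.Gamma (((1 + η : ℝ) : ℂ) + ((-y : ℝ) : ℂ) * I)‖ * E) := by ring
      _ ≤ (m : ℝ) ^ η * (C1 * (1 + |y|) ^ 2) := by gcongr
  have h11 : (m : ℝ) ^ (3 / 2 + 7 * η) = ((m : ℝ) ^ η) ^ 3 * (m : ℝ) ^ (3 / 2 + 4 * η) := by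
    rw [← Real.rpow_natCast, ← Real.rpow_mul hmR.le, ← Real.rpow_add hmR]
    congr 1
    push_cast
    ring
  calc ‖gf m s‖ ^ 3 * ‖∑ b : Bool × Bool × Bool,
      cexp (((sg b.1 : ℂ) + sg b.2.1 + sg b.2.2) * Real.pi * I * s / 2) * DS m n b s‖
      ≤ ‖gf m s‖ ^ 3 * (8 * (E ^ 3 * B)) := by gcongr
    _ = 8 * (‖gf m s‖ * E) ^ 3 * B := by ring
    _ ≤ 8 * ((m : ℝ) ^ η * (C1 * (1 + |y|) ^ 2)) ^ 3 * B := by gcongr
    _ = 8 * C1 ^ 3 * C2 * (m : ℝ) ^ (3 / 2 + 7 * η) * (pw m : ℝ) ^ (1 / 2 : ℝ) * (1 + |y|) ^ 6 := by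
        rw [h11, hB]
        ring

end Pool.Agent.LibSM47.SD
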