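import Pool.Agent.LibSM47.Defs

/-! # Section D of SM47 (degree 3 functional equation): definitions (board SM47-D, helper29) -/

set_option autoImplicit false

namespace Pool.Agent.LibSM47.SD

open MeasureTheory Set Filter Topology Complex

/-- Triples of positive integers. -/
abbrev Tr : Type := ℕ+ × ℕ+ × ℕ+

/-- The product of a triple. -/
def pr (a : Tr) : ℕ := (a.1 : ℕ) * (a.2.1 : ℕ) * (a.2.2 : ℕ)

/-- Reduction of a triple. -/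
def red (m : ℕ) (a : Tr) : Z3 m := (((a.1 : ℕ) : ZMod m), ((a.2.1 : ℕ) : ZMod m), ((a.2.2 : ℕ) : ZMod m))

/-- The comparison function: inclusion-exclusion of the marginals of `f_n`. -/
noncomputable def ft (m : ℕ) (v : Z3 m) : ℝ :=
  (if v.2.1 * v.2.2 = 0 then 1 else 0) + (if v.1 * v.2.2 = 0 then 1 else 0) + (if v.1 * v.2.1 = 0 then 1 else 0)
    - ((gd m v.1 : ℝ) + gd m v.2.1 + gd m v.2.2) / m + hh m / m

/-- `Φ = f_n - ftil`: the part of `e(-n v₁v₂v₃/m)` with mean zero in each variable. -/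
noncomputable def Ph (m : ℕ) [NeZero m] (n : ZMod m) (v : Z3 m) : ℂ := ff m n v - (ft m v : ℂ)

/-- `λ_v(s)`: the continuation of `∑_{a ≡ v} a^{-s} - ζ(s)/m`. -/
noncomputable def lam (m : ℕ) [NeZero m] (v : ZMod m) (s : ℂ) : ℂ :=
  ZMod.LFunction (fun x : ZMod m => (if x = v then (1 : ℂ) else 0) - 1 / m) s

/-- `Λ(s) = ∑_v Φ(v) λ_{v₁}(s) λ_{v₂}(s) λ_{v₃}(s)`. -/
noncomputable def Lam (m : ℕ) [NeZero m] (n : ZMod m) (s : ℂ) : ℂ :=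
  ∑ v : Z3 m, Ph m n v * (lam m v.1 s * lam m v.2.1 s * lam m v.2.2 s)

/-- `∑_a Φ(a) e^{-κ|a|}`. -/
noncomputable def AA (m : ℕ) [NeZero m] (n : ZMod m) (κ : ℂ) : ℂ :=
  ∑' a : Tr, Ph m n (red m a) * cexp (-κ * pr a)

/-- The sign `±1`. -/
def sg (b : Bool) : ℤ := if b then 1 else -1

/-- The triple `(±a₁, ±a₂, ±a₃)` of residues. -/
def sl (m : ℕ) (b : Bool × Bool × Bool) (a : Tr) : Z3 m :=
  (((sg b.1 : ℤ) : ZMod m) * ((a.1 : ℕ) : ZMod m), ((sg b.2.1 : ℤ) : ZMod m) * ((a.2.1 : ℕ) : ZMod m),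
    ((sg b.2.2 : ℤ) : ZMod m) * ((a.2.2 : ℕ) : ZMod m))

/-- The dual series in one variable: `∑_{l ≥ 1} (e(∓ v l/m) - [m ∣ l]) l^{-s}`. -/
noncomputable def du (m : ℕ) [NeZero m] (v : ZMod m) (b : Bool) (s : ℂ) : ℂ :=
  ∑' l : ℕ+, (ZMod.stdAddChar (-(v * (((sg b : ℤ) : ZMod m) * ((l : ℕ) : ZMod m)))) -
    (if ((l : ℕ) : ZMod m) = 0 then (1 : ℂ) else 0)) * ((l : ℕ) : ℂ) ^ (-s)

/-- The dual series in three variables. -/
noncomputable def DS (m : ℕ) [NeZero m] (n : ZMod m) (b : Bool × Bool × Bool) (s : ℂ) : ℂ :=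
  ∑' a : Tr, FT m (Ph m n) (sl m b a) * (pr a : ℂ) ^ (-s)

/-- The factor of the functional equation `m^{s-1} (2π)^{-s} Γ(s)`. -/
noncomputable def gf (m : ℕ) (s : ℂ) : ℂ := (m : ℂ) ^ (s - 1) * (2 * Real.pi : ℂ) ^ (-s) * Complex.Gamma s

/-- The statement `FT_le` of section C for one `η` (proved there, used here as a hypothesis). -/
def FTle (η : ℝ) : Prop := ∃ C : ℝ, 0 < C ∧ ∀ (m : ℕ) [NeZero m] (n : ZMod m) (_ : IsUnit n) (l : Z3 m),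
    ‖FT m (ff m n) l‖ ≤ C * (m : ℝ) ^ (3 / 2 + η) * (pw m : ℝ) ^ (1 / 2 : ℝ) *
      ((gd m l.1 : ℝ) * gd m l.2.1 * gd m l.2.2) ^ (1 / 4 : ℝ)

/-- The statement `gcd_sum` of section C for one `η` (proved there, used here as a hypothesis). -/
def GcdSum (η : ℝ) : Prop := ∃ C : ℝ, 0 < C ∧ ∀ (m : ℕ) [NeZero m],
    Summable (fun l : ℕ+ => (Nat.gcd (l : ℕ) m : ℝ) ^ (1 / 4 : ℝ) * ((l : ℕ) : ℝ) ^ (-1 - η)) ∧
    ∑' l : ℕ+, (Nat.gcd (l : ℕ) m : ℝ) ^ (1 / 4 : ℝ) * ((l : ℕ) : ℝ) ^ (-1 - η) ≤ C * (m : ℝ) ^ η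

/-- `(κ^{-s} - 1)/s`, entire in `s`. -/
noncomputable def Dk (κ : ℂ) (s : ℂ) : ℂ := dslope (fun w : ℂ => κ ^ (-w)) 0 s

end Pool.Agent.LibSM47.SD
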