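import Pool.Agent.LibSM47.D_Defs
import Pool.Agent.LibPH.X02

/-! ROW D_E1 (MEDIUM, complex analysis with Mathlib and LibPH.X02): the kernel `Γ(1+s) (κ^{-s} - 1)/s` in the strip.

Dk_diff: `Complex.differentiableOn_dslope` (or `differentiable_dslope..`) with `w ↦ κ^{-w}` entire (`κ ≠ 0`: `DifferentiableAt.const_cpow`).
Dk_eq: for `s ≠ 0`, `Dk κ s = (κ^{-s} - 1)/s` (`dslope_of_ne`, `slope_def_field`, `κ^0 = 1`) and `Γ(1+s) = s Γ(s)` (`Complex.Gamma_add_one`).
strip_bd: `|y| ≥ 1`: `‖Γ(1+s)‖ (‖κ^{-s}‖ + 1)/‖s‖ ≤ ‖Γ(1+s)‖ (‖κ‖^{-x} e^{y arg κ} + 1)` (`cpow_norm`), and `gam_bd` for `1+s`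
(`Re (1+s) ∈ [1/2,3]`) with `θ = sign(y)(π/2 - α/2)`, `α = π/2 - |arg κ| > 0`: `‖Γ(1+s)‖ ≤ C_κ e^{-(π/2-α/2)|y|}`, so the product is
`≤ C_κ e^{-(α/2)|y|}` (cf. the proof of `gam_cpow`). `|y| ≤ 1`: compactness (`m14_rect` in LibF4/M14.lean is a template) and
`e^{-(α/2)|y|} ≥ e^{-α/2}`. Use any `a ≤ α/2`. -/

set_option autoImplicit false

namespace Pool.Agent.LibSM47.SD

open MeasureTheory Set Filter Topology Complex

theorem Dk_diff {κ : ℂ} (hκ : 0 < κ.re) : Differentiable ℂ (Dk κ) := by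
  have hκ0 : κ ≠ 0 := by
    rintro rfl
    simp at hκ
  have h1 : Differentiable ℂ (fun w : ℂ => κ ^ (-w)) := by
    intro w
    exact DifferentiableAt.const_cpow differentiableAt_id.neg (Or.inl hκ0)
  have h2 : DifferentiableOn ℂ (dslope (fun w : ℂ => κ ^ (-w)) 0) univ :=
    (Complex.differentiableOn_dslope (c := (0 : ℂ)) univ_mem).mpr h1.differentiableOn
  exact differentiableOn_univ.mp h2

theorem Dk_eq {κ : ℂ} (hκ : 0 < κ.re) {s : ℂ} (hs : s ≠ 0) :
    Complex.Gamma (1 + s) * Dk κ s = Complex.Gamma s * (κ ^ (-s) - 1) := by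
  have h1 : Dk κ s = (κ ^ (-s) - 1) / s := by
    unfold Dk
    rw [dslope_of_ne _ hs, slope_def_field]
    simp
  rw [h1, add_comm, Complex.Gamma_add_one s hs]
  field_simp

/-- the decay of `Γ(s) z^{-s}` in the strip `1/2 ≤ Re s ≤ 3` -/
private theorem e1_gam {z : ℂ} (hz : 0 < z.re) : ∃ C a : ℝ, 0 < C ∧ 0 < a ∧ ∀ x ∈ Icc (1/2:ℝ) 3, ∀ y : ℝ,
    ‖Complex.Gamma ((x:ℂ) + y * I) * z ^ (-((x:ℂ) + y * I))‖ ≤ C * Real.exp (-(a * |y|)) := by
  have hz0 : z ≠ 0 := by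
    rintro rfl
    simp at hz
  have hn : 0 < ‖z‖ := norm_pos_iff.2 hz0
  have hpi := Real.pi_pos
  have harg : |arg z| < Real.pi / 2 := Complex.abs_arg_lt_pi_div_two_iff.2 (Or.inl hz)
  set α : ℝ := Real.pi / 2 - |arg z| with hα
  have hα0 : 0 < α := by rw [hα]; linarith
  have hα1 : α ≤ Real.pi / 2 := by rw [hα]; linarith [abs_nonneg (arg z)]
  set θ : ℝ := Real.pi / 2 - α / 2 with hθ
  have hθ0 : 0 < θ := by rw [hθ]; linarith
  have hθ1 : θ < Real.pi / 2 := by rw [hθ]; linarith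
  have hcos : 0 < Real.cos θ := Real.cos_pos_of_mem_Ioo ⟨by linarith, hθ1⟩
  have hcont : ContinuousOn (fun x : ℝ => Real.Gamma x * Real.cos θ ^ (-x) * ‖z‖ ^ (-x)) (Icc (1/2:ℝ) 3) := by
    refine ContinuousOn.mul (ContinuousOn.mul ?_ ?_) ?_
    · intro x hx
      refine (Real.differentiableAt_Gamma fun m h => ?_).continuousAt.continuousWithinAt
      have h1 := hx.1
      rw [h] at h1
      have h2 : (0:ℝ) ≤ m := Nat.cast_nonneg m
      linarith
    · exact (Real.continuous_const_rpow hcos.ne').comp_continuousOn continuous_neg.continuousOn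
    · exact (Real.continuous_const_rpow hn.ne').comp_continuousOn continuous_neg.continuousOn
  obtain ⟨C, hC⟩ := isCompact_Icc.exists_bound_of_continuousOn hcont
  refine ⟨|C| + 1, α / 2, by positivity, by positivity, fun x hx y => ?_⟩
  have hx0 : 0 < x := by linarith [hx.1]
  have hCx : Real.Gamma x * Real.cos θ ^ (-x) * ‖z‖ ^ (-x) ≤ |C| + 1 := by
    have h1 := hC x hx
    rw [Real.norm_eq_abs] at h1
    linarith [le_abs_self (Real.Gamma x * Real.cos θ ^ (-x) * ‖z‖ ^ (-x)), le_abs_self C]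
  have hre : ((x:ℂ) + y * I).re = x := by simp
  have him : ((x:ℂ) + y * I).im = y := by simp
  have key : ∀ η : ℝ, |η| < Real.pi / 2 → Real.cos η = Real.cos θ → y * arg z - y * η ≤ -(α / 2 * |y|) →
      ‖Complex.Gamma ((x:ℂ) + y * I) * z ^ (-((x:ℂ) + y * I))‖ ≤ (|C| + 1) * Real.exp (-(α / 2 * |y|)) := by
    intro η h1 h2 h3
    have hg := LibPH.gam_bd (s := (x:ℂ) + y * I) (by rw [hre]; exact hx0) (θ := η) h1
    rw [hre, him, h2] at hg
    have hG : ‖Complex.Gamma ((x:ℂ) + y * I)‖ ≤ Real.Gamma x * Real.cos θ ^ (-x) * Real.exp (-(y * η)) := by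
      rw [Real.exp_neg, ← div_eq_mul_inv, le_div_iff₀ (Real.exp_pos _)]
      exact hg
    rw [norm_mul, LibPH.cpow_norm hz]
    calc ‖Complex.Gamma ((x:ℂ) + y * I)‖ * (‖z‖ ^ (-x) * Real.exp (y * arg z))
        ≤ (Real.Gamma x * Real.cos θ ^ (-x) * Real.exp (-(y * η))) * (‖z‖ ^ (-x) * Real.exp (y * arg z)) :=
          mul_le_mul_of_nonneg_right hG (by positivity)
      _ = (Real.Gamma x * Real.cos θ ^ (-x) * ‖z‖ ^ (-x)) * Real.exp (y * arg z - y * η) := by
          rw [sub_eq_add_neg, Real.exp_add]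
          ring
      _ ≤ (|C| + 1) * Real.exp (-(α / 2 * |y|)) := by
          refine mul_le_mul hCx (Real.exp_le_exp.2 h3) (Real.exp_pos _).le (by positivity)
  rcases le_or_gt 0 y with hy | hy
  · refine key θ (by rw [abs_of_pos hθ0]; exact hθ1) rfl ?_
    rw [abs_of_nonneg hy]
    have h4 : y * arg z ≤ y * |arg z| := mul_le_mul_of_nonneg_left (le_abs_self _) hy
    have h5 : |arg z| = Real.pi / 2 - α := by rw [hα]; ring
    rw [h5] at h4
    rw [hθ]
    nlinarith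
  · refine key (-θ) (by rw [abs_neg, abs_of_pos hθ0]; exact hθ1) (Real.cos_neg θ) ?_
    rw [abs_of_neg hy]
    have h4 : y * arg z ≤ -y * |arg z| := by
      have := mul_le_mul_of_nonneg_left (neg_abs_le (arg z)) (neg_nonneg.2 hy.le)
      nlinarith
    have h5 : |arg z| = Real.pi / 2 - α := by rw [hα]; ring
    rw [h5] at h4
    rw [hθ]
    nlinarith

private theorem e1_rect {G : ℂ → ℂ} (hG : ∀ s : ℂ, -1 < s.re → DifferentiableAt ℂ G s) :
    ∃ K : ℝ, 0 ≤ K ∧ ∀ x ∈ Icc (-(1/2):ℝ) 2, ∀ y ∈ Icc (-1:ℝ) 1, ‖G (x + y * I)‖ ≤ K := by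
  have hc : IsCompact (Icc (-(1/2):ℝ) 2 ×ˢ Icc (-1:ℝ) 1) := isCompact_Icc.prod isCompact_Icc
  have hcont : ContinuousOn (fun p : ℝ × ℝ => G ((p.1:ℂ) + p.2 * I)) (Icc (-(1/2):ℝ) 2 ×ˢ Icc (-1:ℝ) 1) := by
    intro p hp
    have hp1 : (-(1/2):ℝ) ≤ p.1 := hp.1.1
    have h1 : ContinuousAt G ((p.1:ℂ) + p.2 * I) := (hG _ (by simp; linarith)).continuousAt
    have h2 : ContinuousAt (fun p : ℝ × ℝ => (p.1:ℂ) + p.2 * I) p := by fun_prop
    exact (ContinuousAt.comp (f := fun p : ℝ × ℝ => (p.1:ℂ) + p.2 * I) h1 h2).continuousWithinAt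
  obtain ⟨K, hK⟩ := hc.exists_bound_of_continuousOn hcont
  refine ⟨max K 0, le_max_right _ _, fun x hx y hy => ?_⟩
  exact (hK (x, y) ⟨hx, hy⟩).trans (le_max_left _ _)

theorem strip_bd {κ : ℂ} (hκ : 0 < κ.re) : ∃ C a : ℝ, 0 < C ∧ 0 < a ∧ ∀ x ∈ Icc (-(1 / 2) : ℝ) 2, ∀ y : ℝ,
    ‖Complex.Gamma (1 + ((x : ℂ) + y * I)) * Dk κ ((x : ℂ) + y * I)‖ ≤ C * Real.exp (-(a * |y|)) := by
  have hκ0 : κ ≠ 0 := by
    rintro rfl
    simp at hκ
  obtain ⟨C₁, a₁, hC₁, ha₁, h1⟩ := e1_gam hκ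
  obtain ⟨C₂, a₂, hC₂, ha₂, h2⟩ := e1_gam (z := 1) (by simp)
  obtain ⟨K, hK0, hK⟩ := e1_rect (G := fun s => Complex.Gamma (1 + s) * Dk κ s) (by
    intro s hs
    refine DifferentiableAt.mul ?_ (Dk_diff hκ s)
    refine DifferentiableAt.comp s (g := Complex.Gamma) (f := fun s : ℂ => 1 + s) ?_ (by fun_prop)
    refine Complex.differentiableAt_Gamma _ fun k hk => ?_
    have := congrArg Complex.re hk
    simp only [add_re, one_re, neg_re, natCast_re] at this
    have hk0 : (0:ℝ) ≤ k := Nat.cast_nonneg k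
    linarith)
  set a : ℝ := min a₁ a₂ with ha
  have ha0 : 0 < a := lt_min ha₁ ha₂
  refine ⟨‖κ‖ * C₁ + C₂ + K * Real.exp a, a, by positivity, ha0, fun x hx y => ?_⟩
  have hE : 0 < Real.exp (-(a * |y|)) := Real.exp_pos _
  rcases le_or_gt |y| 1 with hy | hy
  · have h3 := hK x hx y (abs_le.mp hy)
    have h4 : 1 ≤ Real.exp a * Real.exp (-(a * |y|)) := by
      rw [← Real.exp_add]
      apply Real.one_le_exp
      nlinarith [abs_nonneg y]
    calc ‖Complex.Gamma (1 + ((x : ℂ) + y * I)) * Dk κ ((x : ℂ) + y * I)‖ ≤ K * 1 := by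
          rw [mul_one]; exact h3
      _ ≤ K * (Real.exp a * Real.exp (-(a * |y|))) := by gcongr
      _ ≤ (‖κ‖ * C₁ + C₂) * Real.exp (-(a * |y|)) + K * (Real.exp a * Real.exp (-(a * |y|))) := by
          have : 0 ≤ (‖κ‖ * C₁ + C₂) * Real.exp (-(a * |y|)) := by positivity
          linarith
      _ = _ := by ring
  · set s : ℂ := (x : ℂ) + y * I with hs
    have hs1 : 1 ≤ ‖s‖ := by
      have := Complex.abs_im_le_norm s
      have him : s.im = y := by simp [hs]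
      rw [him] at this
      linarith
    have hs0 : s ≠ 0 := by
      intro h
      rw [h, norm_zero] at hs1
      linarith
    have hDk : Dk κ s = (κ ^ (-s) - 1) / s := by
      unfold Dk
      rw [dslope_of_ne _ hs0, slope_def_field]
      simp
    have e1 : 1 + s = (((1 + x : ℝ)) : ℂ) + y * I := by rw [hs]; push_cast; ring
    have hxm : 1 + x ∈ Icc (1/2:ℝ) 3 := ⟨by linarith [hx.1], by linarith [hx.2]⟩
    have h3 := h1 (1 + x) hxm y
    have h4 := h2 (1 + x) hxm y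
    rw [← e1] at h3 h4
    rw [Complex.one_cpow, mul_one] at h4
    have e2 : Complex.Gamma (1 + s) * κ ^ (-s) = κ * (Complex.Gamma (1 + s) * κ ^ (-(1 + s))) := by
      have : κ ^ (-s) = κ * κ ^ (-(1 + s)) := by
        have h5 := Complex.cpow_add (1 : ℂ) (-(1 + s)) hκ0
        rw [Complex.cpow_one] at h5
        rw [← h5]
        congr 1; ring
      rw [this]; ring
    have m1 : Real.exp (-(a₁ * |y|)) ≤ Real.exp (-(a * |y|)) := by
      apply Real.exp_le_exp.mpr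
      have := mul_le_mul_of_nonneg_right (min_le_left a₁ a₂) (abs_nonneg y)
      linarith
    have m2 : Real.exp (-(a₂ * |y|)) ≤ Real.exp (-(a * |y|)) := by
      apply Real.exp_le_exp.mpr
      have := mul_le_mul_of_nonneg_right (min_le_right a₁ a₂) (abs_nonneg y)
      linarith
    have e3 : Complex.Gamma (1 + s) * Dk κ s =
        (κ * (Complex.Gamma (1 + s) * κ ^ (-(1 + s))) - Complex.Gamma (1 + s)) / s := by
      rw [hDk, ← e2]; ring
    rw [e3, norm_div]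
    calc ‖κ * (Complex.Gamma (1 + s) * κ ^ (-(1 + s))) - Complex.Gamma (1 + s)‖ / ‖s‖
        ≤ ‖κ * (Complex.Gamma (1 + s) * κ ^ (-(1 + s))) - Complex.Gamma (1 + s)‖ :=
          div_le_self (norm_nonneg _) hs1
      _ ≤ ‖κ‖ * (C₁ * Real.exp (-(a * |y|))) + C₂ * Real.exp (-(a * |y|)) := by
          refine (norm_sub_le _ _).trans ?_
          rw [norm_mul]
          refine add_le_add ?_ ?_
          · refine mul_le_mul_of_nonneg_left (h3.trans ?_) (norm_nonneg _)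
            gcongr
          · refine h4.trans ?_
            gcongr
      _ ≤ _ := by
          have : 0 ≤ K * Real.exp a * Real.exp (-(a * |y|)) := by positivity
          linarith

end Pool.Agent.LibSM47.SD
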