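import Pool.Agent.LibSM47.D_C4
import Pool.Agent.LibSM47.D_E1
import Pool.Agent.LibZM.CS1

/-! ROW D_E2 (SHORT/MEDIUM): the shift of the line from `2` to `-η`.

`LibZM.vertical_shift` with `G(s) = Lam m n s * (Γ(1+s) * Dk κ s)` (differentiable for `Re s > -1`: `Lam_diff`, `Complex.differentiableAt_Gamma`,
`Dk_diff`), `a = -η`, `b = 2`, `g(y) = C (1+|y|)^6 e^{-a|y|}` (integrable and tending to 0: `dom_int` in Pool/Agent/LibF4/M05.lean, copy it), and
`Dk_eq` on both lines (`s ≠ 0` since `Re s ≠ 0`). -/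

set_option autoImplicit false

namespace Pool.Agent.LibSM47.SD

open MeasureTheory Set Filter Topology Complex

private theorem de2_exp {a : ℝ} (ha : 0 < a) : Integrable (fun y : ℝ => Real.exp (-(a * |y|))) := by
  rw [← integrableOn_univ, ← Set.Iic_union_Ioi (a := (0 : ℝ)), integrableOn_union]
  constructor
  · refine (integrableOn_exp_mul_Iic ha 0).congr_fun (fun y hy => ?_) measurableSet_Iic
    show Real.exp (a * y) = Real.exp (-(a * |y|))
    rw [abs_of_nonpos hy]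
    ring_nf
  · refine (integrableOn_exp_mul_Ioi (a := -a) (neg_lt_zero.2 ha) 0).congr_fun
      (fun y hy => ?_) measurableSet_Ioi
    show Real.exp (-a * y) = Real.exp (-(a * |y|))
    rw [abs_of_pos hy]
    ring_nf

private theorem de2_le {δ : ℝ} (h0 : 0 < δ) (k : ℕ) (y : ℝ) :
    (1 + |y|) ^ k * Real.exp (-(δ / 2 * |y|))
      ≤ (k.factorial * Real.exp (δ / 4) / (δ / 4) ^ k) * Real.exp (-(δ / 4 * |y|)) := by
  have hx : 0 ≤ δ / 4 * (1 + |y|) := by positivity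
  have h1 := Real.pow_div_factorial_le_exp (δ / 4 * (1 + |y|)) hx k
  have h2 : (1 + |y|) ^ k ≤ k.factorial * Real.exp (δ / 4 * (1 + |y|)) / (δ / 4) ^ k := by
    rw [le_div_iff₀ (by positivity), mul_comm, ← mul_pow]
    rwa [div_le_iff₀ (by positivity), mul_comm (Real.exp _)] at h1
  have h3 : k.factorial * Real.exp (δ / 4 * (1 + |y|)) / (δ / 4) ^ k * Real.exp (-(δ / 2 * |y|))
      = (k.factorial * Real.exp (δ / 4) / (δ / 4) ^ k) * Real.exp (-(δ / 4 * |y|)) := by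
    have h4 : Real.exp (δ / 4 * (1 + |y|)) * Real.exp (-(δ / 2 * |y|))
        = Real.exp (δ / 4) * Real.exp (-(δ / 4 * |y|)) := by
      rw [← Real.exp_add, ← Real.exp_add]
      ring_nf
    rw [div_mul_eq_mul_div, mul_assoc, h4, ← mul_assoc, div_mul_eq_mul_div _ _ (Real.exp _)]
  rw [← h3]
  exact mul_le_mul_of_nonneg_right h2 (Real.exp_pos _).le

private theorem de2_lim {a : ℝ} (ha : 0 < a) {l : Filter ℝ} (hl : Tendsto (fun y : ℝ => |y|) l atTop) :
    Tendsto (fun y : ℝ => Real.exp (-(a * |y|))) l (𝓝 0) :=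
  Real.tendsto_exp_neg_atTop_nhds_zero.comp (hl.const_mul_atTop ha)

private theorem de2_tend {δ : ℝ} (h0 : 0 < δ) (k : ℕ) (c : ℝ) {l : Filter ℝ}
    (hl : Tendsto (fun y : ℝ => |y|) l atTop) :
    Tendsto (fun y : ℝ => c * ((1 + |y|) ^ k * Real.exp (-(δ / 2 * |y|)))) l (𝓝 0) := by
  have h1 : Tendsto (fun y : ℝ => (1 + |y|) ^ k * Real.exp (-(δ / 2 * |y|))) l (𝓝 0) := by
    refine squeeze_zero (fun y => by positivity) (de2_le h0 k) ?_
    have h2 := (de2_lim (a := δ / 4) (by positivity) hl).const_mul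
      ((k.factorial * Real.exp (δ / 4) / (δ / 4) ^ k : ℝ))
    rwa [mul_zero] at h2
  have h3 := h1.const_mul c
  rwa [mul_zero] at h3

private theorem de2_dom {δ : ℝ} (h0 : 0 < δ) (k : ℕ) (c : ℝ) :
    Integrable (fun y : ℝ => c * ((1 + |y|) ^ k * Real.exp (-(δ / 2 * |y|)))) ∧
    Tendsto (fun y : ℝ => c * ((1 + |y|) ^ k * Real.exp (-(δ / 2 * |y|)))) atTop (𝓝 0) ∧
    Tendsto (fun y : ℝ => c * ((1 + |y|) ^ k * Real.exp (-(δ / 2 * |y|)))) atBot (𝓝 0) := by
  refine ⟨?_, de2_tend h0 k c tendsto_abs_atTop_atTop, de2_tend h0 k c tendsto_abs_atBot_atTop⟩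
  refine Integrable.const_mul ?_ c
  refine Integrable.mono' ((de2_exp (a := δ / 4) (by positivity)).const_mul
    (k.factorial * Real.exp (δ / 4) / (δ / 4) ^ k)) ?_ (Eventually.of_forall fun y => ?_)
  · exact (by fun_prop : Continuous fun y : ℝ =>
      (1 + |y|) ^ k * Real.exp (-(δ / 2 * |y|))).aestronglyMeasurable
  · rw [Real.norm_of_nonneg (by positivity)]
    exact de2_le h0 k y

private theorem de2_ne {x y : ℝ} (hx : x ≠ 0) : (x : ℂ) + y * I ≠ 0 := by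
  intro h
  have := congrArg Complex.re h
  simp at this
  exact hx this

theorem shift_Lam (m : ℕ) [NeZero m] (n : ZMod m) {κ : ℂ} (hκ : 0 < κ.re) (η : ℝ) (hη : 0 < η) (hη1 : η ≤ 1 / 2) :
    ∫ y : ℝ, Lam m n ((2 : ℂ) + y * I) * (Complex.Gamma ((2 : ℂ) + y * I) * (κ ^ (-((2 : ℂ) + y * I)) - 1)) =
    ∫ y : ℝ, Lam m n (((-η : ℝ) : ℂ) + y * I) *
      (Complex.Gamma (((-η : ℝ) : ℂ) + y * I) * (κ ^ (-(((-η : ℝ) : ℂ) + y * I)) - 1)) := by
  obtain ⟨C₁, hC₁, h1⟩ := Lam_growth m n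
  obtain ⟨C₂, a, hC₂, ha, h2⟩ := strip_bd hκ
  obtain ⟨g1, g2, g3⟩ := de2_dom (δ := 2 * a) (by positivity) 6 (C₁ * C₂)
  have key := (Pool.Agent.LibZM.vertical_shift
    (G := fun s => Lam m n s * (Complex.Gamma (1 + s) * Dk κ s)) (a := -η) (b := 2)
    (by linarith) (fun s hs _ => ?_) g1 g2 g3 (fun x hx y => ?_)).2
  · have e2 : ∀ y : ℝ, Lam m n (((2 : ℝ) : ℂ) + y * I) *
        (Complex.Gamma (1 + (((2 : ℝ) : ℂ) + y * I)) * Dk κ (((2 : ℝ) : ℂ) + y * I)) =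
        Lam m n ((2 : ℂ) + y * I) *
          (Complex.Gamma ((2 : ℂ) + y * I) * (κ ^ (-((2 : ℂ) + y * I)) - 1)) := by
      intro y
      rw [Dk_eq hκ (de2_ne two_ne_zero)]
      norm_num
    have e1 : ∀ y : ℝ, Lam m n (((-η : ℝ) : ℂ) + y * I) *
        (Complex.Gamma (1 + (((-η : ℝ) : ℂ) + y * I)) * Dk κ (((-η : ℝ) : ℂ) + y * I)) =
        Lam m n (((-η : ℝ) : ℂ) + y * I) *
          (Complex.Gamma (((-η : ℝ) : ℂ) + y * I) * (κ ^ (-(((-η : ℝ) : ℂ) + y * I)) - 1)) := by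
      intro y
      rw [Dk_eq hκ (de2_ne (by linarith : (-η : ℝ) ≠ 0))]
    simp only [e1, e2] at key
    exact key.symm
  · refine ((Lam_diff m n) s).mul (DifferentiableAt.mul ?_ ((Dk_diff hκ) s))
    have hg : DifferentiableAt ℂ Complex.Gamma (1 + s) := by
      refine Complex.differentiableAt_Gamma _ fun k hk => ?_
      have h3 := congrArg Complex.re hk
      simp only [add_re, one_re, neg_re, natCast_re] at h3
      have h4 : (0 : ℝ) ≤ (k : ℝ) := Nat.cast_nonneg k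
      linarith
    exact DifferentiableAt.comp s hg ((differentiableAt_const _).add differentiableAt_id)
  · have hx' : x ∈ Icc (-(1 / 2) : ℝ) 2 := ⟨by linarith [hx.1], hx.2⟩
    have h3 := h1 x hx' y
    have h4 := h2 x hx' y
    rw [norm_mul]
    calc ‖Lam m n (↑x + ↑y * I)‖ * ‖Complex.Gamma (1 + (↑x + ↑y * I)) * Dk κ (↑x + ↑y * I)‖
        ≤ (C₁ * (1 + |y|) ^ 6) * (C₂ * Real.exp (-(a * |y|))) := by
          exact mul_le_mul h3 h4 (norm_nonneg _) (by positivity)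
      _ = C₁ * C₂ * ((1 + |y|) ^ 6 * Real.exp (-(2 * a / 2 * |y|))) := by
          rw [show 2 * a / 2 = a by ring]
          ring

end Pool.Agent.LibSM47.SD
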