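import Pool.Agent.LibSM47.D_D5
import Pool.Agent.LibSM47.D_C4

/-! ROW D_E3 (MEDIUM): the integral over the line `Re s = -η`.

Gamma_left: `Γ(-η+iy) = Γ(1-η+iy)/(-η+iy)`, `|−η+iy| ≥ η`; `gam_bd` (LibPH.X02) for `1-η+iy` with `θ = sign(y)(π/2 - α/2)`,
`α = π/2 - |arg κ|`: `‖Γ(1-η+iy)‖ ≤ Γ(1-η) sin(α/2)^{-(1-η)} e^{-(π/2-α/2)|y|}`, `sin(α/2) ≥ α/π` and `α ≥ sin α = Re κ/‖κ‖`
(`x05_gam` in Pool/Agent/LibPH/X05.lean is the same estimate on `Re s = 1/2`: copy), `‖κ^{-(-η+iy)}‖ = ‖κ‖^η e^{y arg κ}` (`cpow_norm`).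
left_line: `∫ (1+|y|)^6 e^{-(α/2)|y|} dy ≤ C α^{-7}` (e.g. `(1+|y|)^6 e^{-(α/4)|y|} ≤ C α^{-6}` for `α ≤ π/2`, `x05_le`, and
`∫ e^{-(α/4)|y|} = 8/α`, `x05_int`), total `≤ C m^{..} ‖κ‖^η (‖κ‖/Re κ)^8` with `Lam_left`. Continuity in `y` for measurability: `Lam_diff`,
`Γ` differentiable at `-η+iy` (not a pole since `0 < η ≤ 1/2`). -/

set_option autoImplicit false

namespace Pool.Agent.LibSM47.SD

open MeasureTheory Set Filter Topology Complex

private theorem e3_exp {a : ℝ} (ha : 0 < a) : Integrable (fun y : ℝ => Real.exp (-(a * |y|))) := by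
  rw [← integrableOn_univ, ← Set.Iic_union_Ioi (a := (0 : ℝ)), integrableOn_union]
  constructor
  · refine (integrableOn_exp_mul_Iic ha 0).congr_fun (fun y hy => ?_) measurableSet_Iic
    show Real.exp (a * y) = Real.exp (-(a * |y|))
    rw [abs_of_nonpos hy]
    ring_nf
  · refine (integrableOn_exp_mul_Ioi (a := -a) (neg_lt_zero.2 ha) 0).congr_fun
      (fun y hy => ?_) measurableSet_Ioi
    show Real.exp (-a * y) = Real.exp (-(a * |y|))
    rw [abs_of_pos hy]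
    ring_nf

private theorem e3_int {a : ℝ} (ha : 0 < a) : ∫ y : ℝ, Real.exp (-(a * |y|)) = 2 / a := by
  rw [integral_comp_abs (f := fun y => Real.exp (-(a * y)))]
  have h := integral_exp_mul_Ioi (a := -a) (neg_lt_zero.2 ha) 0
  have e : (fun y : ℝ => Real.exp (-(a * y))) = fun y => Real.exp (-a * y) := by
    ext y; ring_nf
  rw [e, h]
  simp
  field_simp

private theorem e3_le {δ : ℝ} (h0 : 0 < δ) (k : ℕ) (y : ℝ) :
    (1 + |y|) ^ k * Real.exp (-(δ / 2 * |y|))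
      ≤ (k.factorial * Real.exp (δ / 4) / (δ / 4) ^ k) * Real.exp (-(δ / 4 * |y|)) := by
  have hx : 0 ≤ δ / 4 * (1 + |y|) := by positivity
  have h1 := Real.pow_div_factorial_le_exp (δ / 4 * (1 + |y|)) hx k
  have h2 : (1 + |y|) ^ k ≤ k.factorial * Real.exp (δ / 4 * (1 + |y|)) / (δ / 4) ^ k := by
    rw [le_div_iff₀ (by positivity), mul_comm, ← mul_pow]
    rwa [div_le_iff₀ (by positivity), mul_comm (Real.exp _)] at h1
  have h3 : k.factorial * Real.exp (δ / 4 * (1 + |y|)) / (δ / 4) ^ k * Real.exp (-(δ / 2 * |y|))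
      = (k.factorial * Real.exp (δ / 4) / (δ / 4) ^ k) * Real.exp (-(δ / 4 * |y|)) := by
    have h4 : Real.exp (δ / 4 * (1 + |y|)) * Real.exp (-(δ / 2 * |y|))
        = Real.exp (δ / 4) * Real.exp (-(δ / 4 * |y|)) := by
      rw [← Real.exp_add, ← Real.exp_add]
      ring_nf
    rw [div_mul_eq_mul_div, mul_assoc, h4, ← mul_assoc, div_mul_eq_mul_div _ _ (Real.exp _)]
  rw [← h3]
  exact mul_le_mul_of_nonneg_right h2 (Real.exp_pos _).le

private theorem e3_R {z : ℂ} (hz : 0 < z.re) :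
    0 < Real.pi / 2 - |arg z| ∧ Real.pi / 2 - |arg z| ≤ Real.pi / 2 ∧ 0 < ‖z‖ ∧ 1 ≤ ‖z‖ / z.re ∧
      (Real.pi / 2 - |arg z|)⁻¹ ≤ ‖z‖ / z.re := by
  have hφ : |arg z| < Real.pi / 2 := abs_arg_lt_pi_div_two_iff.mpr (Or.inl hz)
  have hφ0 : 0 ≤ |arg z| := abs_nonneg _
  have hα0 : 0 < Real.pi / 2 - |arg z| := by linarith
  have hz0 : 0 < ‖z‖ := by
    have h := Complex.abs_re_le_norm z
    rw [abs_of_pos hz] at h
    linarith
  have hR1 : 1 ≤ ‖z‖ / z.re := by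
    rw [le_div_iff₀ hz, one_mul]
    exact (le_abs_self _).trans (Complex.abs_re_le_norm z)
  refine ⟨hα0, by linarith, hz0, hR1, ?_⟩
  have hsα : Real.sin (Real.pi / 2 - |arg z|) = z.re / ‖z‖ := by
    rw [Real.sin_pi_div_two_sub, Real.cos_abs, Complex.cos_arg (norm_pos_iff.mp hz0)]
  have h2 : z.re / ‖z‖ ≤ Real.pi / 2 - |arg z| := by rw [← hsα]; exact Real.sin_le hα0.le
  have h3 : 0 < z.re / ‖z‖ := by positivity
  calc (Real.pi / 2 - |arg z|)⁻¹ ≤ (z.re / ‖z‖)⁻¹ := by gcongr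
    _ = ‖z‖ / z.re := by rw [inv_div]

/-- the decay of `Γ` against the growth of `z^{-iy}`. -/
private theorem e3_gam {c : ℝ} (hc : 0 < c) (hc1 : c ≤ 1) {z : ℂ} (hz : 0 < z.re) (y : ℝ) :
    ‖Complex.Gamma ((c:ℂ) + y * I)‖ * Real.exp (y * arg z) ≤
      Real.Gamma c * (Real.pi * (‖z‖ / z.re)) *
        Real.exp (-((Real.pi / 2 - |arg z|) / 2 * |y|)) := by
  obtain ⟨hα0, hα2, hz0, hR1, hRα⟩ := e3_R hz
  set φ := |arg z| with hφd
  have hφ0 : 0 ≤ φ := abs_nonneg _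
  set α : ℝ := Real.pi / 2 - φ with hα
  have hpi := Real.pi_pos
  have hre : ((c:ℂ) + y * I).re = c := by simp
  have him : ((c:ℂ) + y * I).im = y := by simp
  have hGc : 0 < Real.Gamma c := Real.Gamma_pos_of_pos hc
  -- the angle
  obtain ⟨θ, hθ1, hθ2, hθ3⟩ : ∃ θ : ℝ, |θ| = Real.pi / 2 - α / 2 ∧
      y * θ = |y| * (Real.pi / 2 - α / 2) ∧ Real.cos θ = Real.sin (α / 2) := by
    have h0 : 0 ≤ Real.pi / 2 - α / 2 := by linarith
    rcases le_total 0 y with h | h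
    · refine ⟨Real.pi / 2 - α / 2, abs_of_nonneg h0, by rw [abs_of_nonneg h], ?_⟩
      rw [Real.cos_pi_div_two_sub]
    · refine ⟨-(Real.pi / 2 - α / 2), by rw [abs_neg, abs_of_nonneg h0],
        by rw [abs_of_nonpos h]; ring, ?_⟩
      rw [Real.cos_neg, Real.cos_pi_div_two_sub]
  have h1 := LibPH.gam_bd (s := (c:ℂ) + y * I) (by rw [hre]; exact hc) (θ := θ)
    (by rw [hθ1]; linarith)
  rw [hre, him, hθ2, hθ3] at h1
  have hsin : α / Real.pi ≤ Real.sin (α / 2) := by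
    have := Real.mul_le_sin (x := α / 2) (by linarith) (by linarith)
    calc α / Real.pi = 2 / Real.pi * (α / 2) := by field_simp
      _ ≤ _ := this
  have hs0 : 0 < Real.sin (α / 2) := lt_of_lt_of_le (by positivity) hsin
  have hpow : Real.sin (α / 2) ^ (-c : ℝ) ≤ Real.pi * (‖z‖ / z.re) := by
    rw [Real.rpow_neg hs0.le, ← Real.inv_rpow hs0.le]
    have h2 : (Real.sin (α / 2))⁻¹ ≤ Real.pi * (‖z‖ / z.re) := by
      calc (Real.sin (α / 2))⁻¹ ≤ (α / Real.pi)⁻¹ := by gcongr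
        _ = Real.pi * α⁻¹ := by rw [inv_div]; rfl
        _ ≤ _ := by gcongr
    have h3 : 1 ≤ Real.pi * (‖z‖ / z.re) := by
      have : (1:ℝ) ≤ Real.pi := by linarith [Real.pi_gt_three]
      nlinarith
    calc ((Real.sin (α / 2))⁻¹) ^ (c : ℝ) ≤ (Real.pi * (‖z‖ / z.re)) ^ (c : ℝ) := by gcongr
      _ ≤ (Real.pi * (‖z‖ / z.re)) ^ (1 : ℝ) :=
          Real.rpow_le_rpow_of_exponent_le h3 hc1
      _ = _ := Real.rpow_one _
  have hy : Real.exp (y * arg z) ≤ Real.exp (|y| * (Real.pi / 2 - α / 2)) *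
      Real.exp (-(α / 2 * |y|)) := by
    rw [← Real.exp_add]
    apply Real.exp_le_exp.mpr
    have h2 : y * arg z ≤ |y| * φ := by
      rw [hφd, ← abs_mul]
      exact le_abs_self _
    have h3 : |y| * (Real.pi / 2 - α / 2) + -(α / 2 * |y|) = |y| * φ := by
      rw [hα]; ring
    linarith
  calc ‖Complex.Gamma ((c:ℂ) + y * I)‖ * Real.exp (y * arg z)
      ≤ ‖Complex.Gamma ((c:ℂ) + y * I)‖ * (Real.exp (|y| * (Real.pi / 2 - α / 2)) *
        Real.exp (-(α / 2 * |y|))) := by gcongr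
    _ = (‖Complex.Gamma ((c:ℂ) + y * I)‖ * Real.exp (|y| * (Real.pi / 2 - α / 2))) *
        Real.exp (-(α / 2 * |y|)) := by ring
    _ ≤ (Real.Gamma c * Real.sin (α / 2) ^ (-c : ℝ)) * Real.exp (-(α / 2 * |y|)) := by
        gcongr
    _ ≤ (Real.Gamma c * (Real.pi * (‖z‖ / z.re))) * Real.exp (-(α / 2 * |y|)) := by
        gcongr

theorem Gamma_left (η : ℝ) (hη : 0 < η) (hη1 : η ≤ 1 / 2) : ∃ C : ℝ, 0 < C ∧ ∀ κ : ℂ, 0 < κ.re → ∀ y : ℝ,
    ‖Complex.Gamma (((-η : ℝ) : ℂ) + y * I) * κ ^ (-(((-η : ℝ) : ℂ) + y * I))‖ ≤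
      C * ‖κ‖ ^ η * (‖κ‖ / κ.re) * Real.exp (-((Real.pi / 2 - |arg κ|) / 2 * |y|)) := by
  have hpi := Real.pi_pos
  have hG : 0 < Real.Gamma (1 - η) := Real.Gamma_pos_of_pos (by linarith)
  refine ⟨Real.Gamma (1 - η) * Real.pi / η, by positivity, fun κ hκ y => ?_⟩
  obtain ⟨hα0, hα2, hz0, hR1, hRα⟩ := e3_R hκ
  set s : ℂ := ((-η : ℝ) : ℂ) + y * I with hs
  have hsre : s.re = -η := by simp [hs]
  have hs0 : s ≠ 0 := by
    intro h
    have := congrArg Complex.re h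
    rw [hsre] at this
    simp at this
    linarith
  have h1 : Complex.Gamma (s + 1) = s * Complex.Gamma s := Complex.Gamma_add_one s hs0
  have h2 : η ≤ ‖s‖ := by
    have := Complex.abs_re_le_norm s
    rw [hsre, abs_neg, abs_of_pos hη] at this
    exact this
  have h3 : s + 1 = ((1 - η : ℝ) : ℂ) + y * I := by rw [hs]; push_cast; ring
  have h4 := e3_gam (c := 1 - η) (by linarith) (by linarith) hκ y
  rw [← h3, h1, norm_mul] at h4
  rw [norm_mul, LibPH.cpow_norm hκ, neg_neg]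
  have h5 : η * (‖Complex.Gamma s‖ * Real.exp (y * arg κ)) ≤
      Real.Gamma (1 - η) * (Real.pi * (‖κ‖ / κ.re)) *
        Real.exp (-((Real.pi / 2 - |arg κ|) / 2 * |y|)) := by
    refine le_trans ?_ h4
    rw [← mul_assoc]
    gcongr
  have h6 : 0 ≤ ‖κ‖ ^ η := by positivity
  calc ‖Complex.Gamma s‖ * (‖κ‖ ^ η * Real.exp (y * arg κ))
      = ‖κ‖ ^ η / η * (η * (‖Complex.Gamma s‖ * Real.exp (y * arg κ))) := by field_simp
    _ ≤ ‖κ‖ ^ η / η * (Real.Gamma (1 - η) * (Real.pi * (‖κ‖ / κ.re)) *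
        Real.exp (-((Real.pi / 2 - |arg κ|) / 2 * |y|))) := by gcongr
    _ = _ := by ring

private theorem e3_cont (m : ℕ) [NeZero m] (n : ZMod m) {η : ℝ} (hη : 0 < η) (hη1 : η ≤ 1 / 2) {z : ℂ}
    (hz : 0 < z.re) : Continuous (fun y : ℝ => Lam m n (((-η : ℝ) : ℂ) + y * I) *
      (Complex.Gamma (((-η : ℝ) : ℂ) + y * I) * z ^ (-(((-η : ℝ) : ℂ) + y * I)))) := by
  have hl : Continuous fun y : ℝ => ((-η : ℝ) : ℂ) + y * I := by fun_prop
  have hre : ∀ y : ℝ, (((-η : ℝ) : ℂ) + y * I).re = -η := fun y => by simp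
  have h1 : Continuous fun y : ℝ => Complex.Gamma (((-η : ℝ) : ℂ) + y * I) := by
    rw [continuous_iff_continuousAt]
    intro y
    refine ContinuousAt.comp (g := Complex.Gamma) ?_ hl.continuousAt
    refine (Complex.differentiableAt_Gamma _ fun k hk => ?_).continuousAt
    have h := congrArg Complex.re hk
    rw [hre y] at h
    simp only [neg_re, natCast_re, neg_inj] at h
    rcases Nat.eq_zero_or_pos k with h0 | h0
    · rw [h0] at h
      simp at h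
      linarith
    · have : (1:ℝ) ≤ k := by exact_mod_cast h0
      linarith
  have hz0 : z ≠ 0 := by
    rintro rfl
    simp at hz
  have h3 : Continuous fun y : ℝ => z ^ (-(((-η : ℝ) : ℂ) + y * I)) :=
    Continuous.const_cpow (by fun_prop) (Or.inl hz0)
  exact ((Lam_diff m n).continuous.comp hl).mul (h1.mul h3)

theorem left_line (η : ℝ) (hη : 0 < η) (hη1 : η ≤ 1 / 2) (hF : FTle η) (hG : GcdSum η) : ∃ C : ℝ, 0 < C ∧ ∀ (m : ℕ) [NeZero m] (n : ZMod m) (_ : IsUnit n)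
    (κ : ℂ), 0 < κ.re →
    Integrable (fun y : ℝ => Lam m n (((-η : ℝ) : ℂ) + y * I) *
      (Complex.Gamma (((-η : ℝ) : ℂ) + y * I) * κ ^ (-(((-η : ℝ) : ℂ) + y * I)))) ∧
    ‖((1 / (2 * Real.pi) : ℝ) : ℂ) * ∫ y : ℝ, Lam m n (((-η : ℝ) : ℂ) + y * I) *
      (Complex.Gamma (((-η : ℝ) : ℂ) + y * I) * κ ^ (-(((-η : ℝ) : ℂ) + y * I)))‖ ≤
      C * (m : ℝ) ^ (3 / 2 + 7 * η) * (pw m : ℝ) ^ (1 / 2 : ℝ) * ‖κ‖ ^ η * (‖κ‖ / κ.re) ^ 8 := by
  obtain ⟨C₁, hC₁, hL⟩ := Lam_left η hη (by linarith) hF hG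
  obtain ⟨C₂, hC₂, hGam⟩ := Gamma_left η hη hη1
  have hpi := Real.pi_pos
  refine ⟨C₁ * C₂ * (23592960 * Real.exp 1), by positivity, fun m _ n hn κ hκ => ?_⟩
  obtain ⟨hα0, hα2, hz0, hR1, hRα⟩ := e3_R hκ
  have hGam1 := hGam κ hκ
  have hL1 := hL m n hn
  set α : ℝ := Real.pi / 2 - |arg κ| with hα
  set R : ℝ := ‖κ‖ / κ.re with hR
  have hR0 : 0 < R := by linarith
  set M : ℝ := (m : ℝ) ^ (3 / 2 + 7 * η) * (pw m : ℝ) ^ (1 / 2 : ℝ) with hM
  have hM0 : 0 ≤ M := by positivity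
  set F : ℝ → ℂ := fun y : ℝ => Lam m n (((-η : ℝ) : ℂ) + y * I) *
      (Complex.Gamma (((-η : ℝ) : ℂ) + y * I) * κ ^ (-(((-η : ℝ) : ℂ) + y * I))) with hFd
  have hk0 : 0 ≤ ‖κ‖ ^ η := by positivity
  set K : ℝ := C₁ * M * (C₂ * ‖κ‖ ^ η * R) *
    ((Nat.factorial 6 : ℕ) * Real.exp (α / 4) / (α / 4) ^ 6) with hK
  have hK0 : 0 ≤ K := by positivity
  have hbd : ∀ y : ℝ, ‖F y‖ ≤ K * Real.exp (-(α / 4 * |y|)) := by
    intro y
    have h1 := hGam1 y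
    have h2 := hL1 y
    have h4 := e3_le hα0 6 y
    have h2' : ‖Lam m n (((-η : ℝ) : ℂ) + y * I)‖ ≤ C₁ * M * (1 + |y|) ^ 6 := by
      rw [hM]; refine h2.trans (le_of_eq ?_); ring
    calc ‖F y‖ = ‖Lam m n (((-η : ℝ) : ℂ) + y * I)‖ *
        ‖Complex.Gamma (((-η : ℝ) : ℂ) + y * I) * κ ^ (-(((-η : ℝ) : ℂ) + y * I))‖ := norm_mul _ _
      _ ≤ (C₁ * M * (1 + |y|) ^ 6) * (C₂ * ‖κ‖ ^ η * R * Real.exp (-(α / 2 * |y|))) := by gcongr
      _ = C₁ * M * (C₂ * ‖κ‖ ^ η * R) * ((1 + |y|) ^ 6 * Real.exp (-(α / 2 * |y|))) := by ring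
      _ ≤ C₁ * M * (C₂ * ‖κ‖ ^ η * R) *
          ((Nat.factorial 6 : ℕ) * Real.exp (α / 4) / (α / 4) ^ 6 * Real.exp (-(α / 4 * |y|))) := by
          gcongr
      _ = K * Real.exp (-(α / 4 * |y|)) := by rw [hK]; ring
  have hg : Integrable fun y : ℝ => K * Real.exp (-(α / 4 * |y|)) :=
    (e3_exp (by positivity)).const_mul K
  have hFi : Integrable F := hg.mono' (e3_cont m n hη hη1 hκ).aestronglyMeasurable
    (Filter.Eventually.of_forall hbd)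
  refine ⟨hFi, ?_⟩
  have h5 : ‖∫ y, F y‖ ≤ K * (8 / α) := by
    refine (norm_integral_le_of_norm_le hg (Filter.Eventually.of_forall hbd)).trans ?_
    rw [integral_const_mul, e3_int (by positivity)]
    refine le_of_eq ?_
    field_simp
    ring
  rw [norm_mul]
  have h6 : ‖((1 / (2 * Real.pi) : ℝ) : ℂ)‖ ≤ 1 := by
    rw [Complex.norm_real, Real.norm_eq_abs, abs_of_pos (by positivity), div_le_one (by positivity)]
    linarith [Real.pi_gt_three]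
  have h7 : K * (8 / α) = C₁ * M * (C₂ * ‖κ‖ ^ η) *
      (23592960 * Real.exp (α / 4)) * (R * α⁻¹ ^ 7) := by
    rw [hK]
    have : ((Nat.factorial 6 : ℕ) : ℝ) = 720 := by norm_num [Nat.factorial]
    rw [this]
    field_simp
    norm_num
    ring
  have h8 : Real.exp (α / 4) ≤ Real.exp 1 := by
    apply Real.exp_le_exp.mpr
    have : Real.pi ≤ 4 := Real.pi_le_four
    linarith
  calc ‖((1 / (2 * Real.pi) : ℝ) : ℂ)‖ * ‖∫ y, F y‖ ≤ 1 * (K * (8 / α)) := by gcongr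
    _ = C₁ * M * (C₂ * ‖κ‖ ^ η) * (23592960 * Real.exp (α / 4)) * (R * α⁻¹ ^ 7) := by
        rw [one_mul, h7]
    _ ≤ C₁ * M * (C₂ * ‖κ‖ ^ η) * (23592960 * Real.exp 1) * (R * R ^ 7) := by gcongr
    _ = _ := by rw [hM]; ring

end Pool.Agent.LibSM47.SD
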