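import Pool.Agent.LibSM47.D_B2
import Pool.Agent.LibSM47.D_E2
import Pool.Agent.LibSM47.D_E3

/-! ROW D_F (SHORT/MEDIUM): assembly of section D.

Let `J(κ) = (1/2π) ∫ Lam Γ κ^{-s}` on `Re s = -η` (`left_line`), `AA m n κ = (1/2π) ∫_{Re s = 2}` (`mellin_Lam`). Since `1^{-s} = 1`:
`AA(κ) - AA(1) = (1/2π) ∫_{Re s = 2} Lam Γ (κ^{-s} - 1) = (1/2π) ∫_{Re s = -η} Lam Γ (κ^{-s} - 1) = J(κ) - J(1)` (`shift_Lam`, `integral_sub`).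
`‖J(κ)‖ + ‖J(1)‖ ≤ C m^{3/2+7η} pw^{1/2} (‖κ‖^η (‖κ‖/κ.re)^8 + 1) ≤ 2C m^{3/2+7η} pw^{1/2} (1+‖κ‖)^η (‖κ‖/κ.re)^8`. -/

set_option autoImplicit false

namespace Pool.Agent.LibSM47.SD

open MeasureTheory Set Filter Topology Complex

theorem D_core (η : ℝ) (hη : 0 < η) (hη1 : η ≤ 1 / 2) (hF : FTle η) (hG : GcdSum η) : ∃ C : ℝ, 0 < C ∧ ∀ (m : ℕ) [NeZero m] (n : ZMod m) (_ : IsUnit n)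
    (κ : ℂ), 0 < κ.re →
      ‖AA m n κ - AA m n 1‖ ≤ C * (m : ℝ) ^ (3 / 2 + 7 * η) * (pw m : ℝ) ^ (1 / 2 : ℝ) * (1 + ‖κ‖) ^ η *
        (‖κ‖ / κ.re) ^ 8 := by
  obtain ⟨C, hC, hL⟩ := left_line η hη hη1 hF hG
  refine ⟨2 * C, by positivity, fun m _ n hn κ hκ => ?_⟩
  have h1re : (0 : ℝ) < (1 : ℂ).re := by simp
  obtain ⟨hIκ, hAκ⟩ := mellin_Lam m n hn hκ
  obtain ⟨hI1, hA1⟩ := mellin_Lam m n hn h1re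
  obtain ⟨hJκ, hBκ⟩ := hL m n hn κ hκ
  obtain ⟨hJ1, hB1⟩ := hL m n hn 1 h1re
  have e2 : ∀ s : ℂ, Lam m n s * (Complex.Gamma s * (κ ^ (-s) - 1)) =
      Lam m n s * (Complex.Gamma s * κ ^ (-s)) - Lam m n s * (Complex.Gamma s * (1 : ℂ) ^ (-s)) := by
    intro s
    rw [Complex.one_cpow]
    ring
  have hsh := shift_Lam m n hκ η hη hη1
  simp_rw [e2] at hsh
  rw [integral_sub hIκ hI1, integral_sub hJκ hJ1] at hsh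
  have hdiff : AA m n κ - AA m n 1 = ((1 / (2 * Real.pi) : ℝ) : ℂ) *
        (∫ y : ℝ, Lam m n (((-η : ℝ) : ℂ) + y * I) *
          (Complex.Gamma (((-η : ℝ) : ℂ) + y * I) * κ ^ (-(((-η : ℝ) : ℂ) + y * I)))) -
      ((1 / (2 * Real.pi) : ℝ) : ℂ) *
        ∫ y : ℝ, Lam m n (((-η : ℝ) : ℂ) + y * I) *
          (Complex.Gamma (((-η : ℝ) : ℂ) + y * I) * (1 : ℂ) ^ (-(((-η : ℝ) : ℂ) + y * I))) := by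
    rw [hAκ, hA1, ← mul_sub, ← mul_sub, hsh]
  rw [hdiff]
  refine (norm_sub_le _ _).trans ((add_le_add hBκ hB1).trans ?_)
  have hK : κ.re ≤ ‖κ‖ := Complex.re_le_norm κ
  have hK0 : 0 < ‖κ‖ := lt_of_lt_of_le hκ hK
  have a1 : ‖κ‖ ^ η ≤ (1 + ‖κ‖) ^ η := Real.rpow_le_rpow hK0.le (by linarith) hη.le
  have a2 : (1 : ℝ) ≤ (1 + ‖κ‖) ^ η := Real.one_le_rpow (by linarith) hη.le
  have a3 : (1 : ℝ) ≤ (‖κ‖ / κ.re) ^ 8 := one_le_pow₀ ((one_le_div hκ).2 hK)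
  have hP : 0 ≤ C * (m : ℝ) ^ (3 / 2 + 7 * η) * (pw m : ℝ) ^ (1 / 2 : ℝ) := by positivity
  set P := C * (m : ℝ) ^ (3 / 2 + 7 * η) * (pw m : ℝ) ^ (1 / 2 : ℝ) with hPd
  have a4 : ‖(1 : ℂ)‖ ^ η * (‖(1 : ℂ)‖ / (1 : ℂ).re) ^ 8 = 1 := by simp
  have a5 : ‖κ‖ ^ η * (‖κ‖ / κ.re) ^ 8 ≤ (1 + ‖κ‖) ^ η * (‖κ‖ / κ.re) ^ 8 :=
    mul_le_mul_of_nonneg_right a1 (by linarith)
  have a6 : (1 : ℝ) ≤ (1 + ‖κ‖) ^ η * (‖κ‖ / κ.re) ^ 8 := one_le_mul_of_one_le_of_one_le a2 a3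
  calc P * ‖κ‖ ^ η * (‖κ‖ / κ.re) ^ 8 + P * ‖(1 : ℂ)‖ ^ η * (‖(1 : ℂ)‖ / (1 : ℂ).re) ^ 8
      = P * (‖κ‖ ^ η * (‖κ‖ / κ.re) ^ 8) + P * (‖(1 : ℂ)‖ ^ η * (‖(1 : ℂ)‖ / (1 : ℂ).re) ^ 8) := by ring
    _ ≤ P * ((1 + ‖κ‖) ^ η * (‖κ‖ / κ.re) ^ 8) + P * ((1 + ‖κ‖) ^ η * (‖κ‖ / κ.re) ^ 8) := by
        refine add_le_add (mul_le_mul_of_nonneg_left a5 hP) (mul_le_mul_of_nonneg_left ?_ hP)
        rw [a4]; exact a6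
    _ = 2 * C * (m : ℝ) ^ (3 / 2 + 7 * η) * (pw m : ℝ) ^ (1 / 2 : ℝ) * (1 + ‖κ‖) ^ η *
        (‖κ‖ / κ.re) ^ 8 := by rw [hPd]; ring

end Pool.Agent.LibSM47.SD
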