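import Pool.Agent.LibSM47.D_B0
import Pool.Agent.LibSM47.D_A1
import Pool.Agent.LibPH.X10

/-! ROW D_G (MEDIUM): the bridge to the objects of LibPH (roles of `m` and `n` exchanged: in LibPH the modulus is `n`).

vv_bridge: `vv m n a b c` (Pool/Agent/LibPH/XDefs.lean) `= e(-m a b c/n) - [n∣ab] - [n∣bc] - [n∣ca] + (gcd a + gcd b + gcd c)/n - nun n`
and `Ph n m v = ff n m v - ft n v` with `v = (a, b, c) mod n`: `ZMod.stdAddChar (-(m a b c)) = cexp (-(2π m a b c/n) i)` (`ZMod.stdAddChar_coe`,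
`ZMod.stdAddChar_apply`, `ZMod.toCircle_intCast`), `(a:ZMod n) * b = 0 ↔ n ∣ a*b` (`ZMod.natCast_eq_zero_iff`), `gd n (a : ZMod n) = gcd a n`
(`ZMod.val_natCast`, `Nat.gcd_mod..`), `nun n = hh n / n` (LibPH.X10 `nun_eq`: `nun n = (1/n) fB n 0`, `fB n 0 = ∑ φ(d) d^{-1} = hh n`).
E3_bridge: reindex `ℕ × ℕ × ℕ` by `Tr` (`Equiv.pnatEquivNat` in each factor, as in `tsum_Tr` of D_B0; here the summand is not a function of
`pr`, so use the equivalence directly: `Equiv.tsum_eq`). No summability is needed. -/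

set_option autoImplicit false

namespace Pool.Agent.LibSM47.SD

open MeasureTheory Set Filter Topology Complex

private theorem DG_nun (n : ℕ) [NeZero n] : LibPH.nun n = hh n / n := by
  have hn : 1 ≤ n := Nat.one_le_iff_ne_zero.2 (NeZero.ne n)
  have h1 := LibPH.nun_eq hn
  have h2 : LibPH.fB n 0 = ((hh n : ℝ) : ℂ) := by
    unfold LibPH.fB hh
    push_cast
    refine Finset.sum_congr rfl fun d _ => ?_
    rw [add_zero, Complex.cpow_neg_one, div_eq_mul_inv]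
  rw [h2] at h1
  have h3 : ((LibPH.nun n : ℝ) : ℂ) = ((hh n / n : ℝ) : ℂ) := by
    rw [h1]
    push_cast
    ring
  exact_mod_cast h3

private theorem DG_dvi (n : ℕ) (a b : ℕ) :
    LibPH.dvi n (a * b) = if (a : ZMod n) * (b : ZMod n) = 0 then 1 else 0 := by
  unfold LibPH.dvi
  have h : n ∣ a * b ↔ (a : ZMod n) * (b : ZMod n) = 0 := by
    rw [← Nat.cast_mul, ZMod.natCast_eq_zero_iff]
  by_cases h1 : n ∣ a * b
  · rw [if_pos h1, if_pos (h.1 h1)]
  · rw [if_neg h1, if_neg fun h2 => h1 (h.2 h2)]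

private theorem DG_gd (n : ℕ) (a : ℕ) : gd n (a : ZMod n) = Nat.gcd a n := by
  unfold gd
  rw [ZMod.val_natCast]
  exact ((Nat.gcd_comm a n).trans (Nat.gcd_rec n a)).symm

private theorem DG_ff (m n : ℕ) [NeZero n] (a b c : ℕ) :
    ff n ((m : ℕ) : ZMod n) ((a : ZMod n), (b : ZMod n), (c : ZMod n)) =
      cexp (-((2 * Real.pi * m * (a * b * c) / n : ℝ) : ℂ) * I) := by
  unfold ff
  have h1 : (-(((m : ℕ) : ZMod n) * (a : ZMod n) * (b : ZMod n) * (c : ZMod n))) =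
      ((-((m : ℤ) * a * b * c) : ℤ) : ZMod n) := by
    push_cast
    ring
  simp only
  rw [h1, ZMod.stdAddChar_coe]
  congr 1
  push_cast
  ring

theorem vv_bridge (m n : ℕ) [NeZero n] (a b c : ℕ) :
    Pool.Agent.LibPH.vv m n a b c = Ph n ((m : ℕ) : ZMod n) ((a : ZMod n), (b : ZMod n), (c : ZMod n)) := by
  unfold LibPH.vv Ph ft
  rw [DG_ff, DG_dvi, DG_dvi, DG_dvi, DG_nun]
  simp only
  rw [DG_gd, DG_gd, DG_gd, mul_comm (c : ZMod n) (a : ZMod n)]
  have hc : ∀ x : ZMod n, (((if x = 0 then (1 : ℝ) else 0 : ℝ)) : ℂ) = if x = 0 then 1 else 0 := by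
    intro x
    split_ifs <;> simp
  simp only [Complex.ofReal_add, Complex.ofReal_sub, hc]
  push_cast
  ring

theorem E3_bridge (m n : ℕ) [NeZero n] (θ : ℂ) :
    Pool.Agent.LibPH.E3 m n θ = AA n ((m : ℕ) : ZMod n) θ := by
  unfold LibPH.E3 AA
  set e : Tr ≃ ℕ × ℕ × ℕ :=
    Equiv.prodCongr Equiv.pnatEquivNat (Equiv.prodCongr Equiv.pnatEquivNat Equiv.pnatEquivNat) with he
  rw [← Equiv.tsum_eq e]
  refine tsum_congr fun a => ?_
  have h1 : (e a).1 + 1 = (a.1 : ℕ) := PNat.natPred_add_one a.1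
  have h2 : (e a).2.1 + 1 = (a.2.1 : ℕ) := PNat.natPred_add_one a.2.1
  have h3 : (e a).2.2 + 1 = (a.2.2 : ℕ) := PNat.natPred_add_one a.2.2
  have h4 : LibPH.pr (e a) = pr a := by
    unfold LibPH.pr pr
    rw [h1, h2, h3]
  rw [h1, h2, h3, h4, vv_bridge]
  have h5 : -((pr a : ℂ) * θ) = -θ * (pr a : ℂ) := by ring
  rw [h5]
  rfl

end Pool.Agent.LibSM47.SD
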