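import Pool.Agent.LibSM47.D_F
import Pool.Agent.LibSM47.D_G

/-! ROW D_H (SHORT): section D in the form of LibPH.

`C₀ = E3 n m 1 = AA m n 1` (`E3_bridge` with `m`, `n` exchanged), `AA_one` (D_B2), `D_core`; `(n : ZMod m)` is a unit
(`ZMod.isUnit_iff_coprime`), `NeZero m` from `1 ≤ m`, `m^{3/2+7η} ≤ m^{3/2+8η}`, `√x = x^{1/2}` (`Real.sqrt_eq_rpow`). -/

set_option autoImplicit false

namespace Pool.Agent.LibSM47.SD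

open MeasureTheory Set Filter Topology Complex

theorem D_main_of (η : ℝ) (hη : 0 < η) (hη1 : η ≤ 1 / 16) (hF : FTle η) (hG : GcdSum η) :
    ∃ C : ℝ, 0 < C ∧ ∀ m n : ℕ, 1 ≤ m → 1 ≤ n → Nat.Coprime n m →
    ∃ C₀ : ℂ, ‖C₀‖ ≤ C ∧ ∀ θ : ℂ, 0 < θ.re →
      ‖LibPH.E3 n m θ - C₀‖ ≤ C * (m : ℝ) ^ (3 / 2 + 8 * η) * √(pw m : ℝ) * (1 + ‖θ‖) ^ η * (‖θ‖ / θ.re) ^ 8 := by
  obtain ⟨C1, hC1, h1⟩ := D_core η hη (by linarith) hF hG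
  obtain ⟨C2, hC2, h2⟩ := AA_one
  refine ⟨C1 + C2, by positivity, fun m n hm _ hnm => ?_⟩
  have hm0 : NeZero m := ⟨by omega⟩
  have hu : IsUnit ((n : ℕ) : ZMod m) := (ZMod.isUnit_iff_coprime n m).2 hnm
  refine ⟨AA m ((n : ℕ) : ZMod m) 1, (h2 m _).trans (by linarith), fun θ hθ => ?_⟩
  rw [E3_bridge n m θ]
  refine (h1 m _ hu θ hθ).trans ?_
  have hm1 : (1 : ℝ) ≤ (m : ℝ) := by exact_mod_cast hm
  have a1 : (m : ℝ) ^ (3 / 2 + 7 * η) ≤ (m : ℝ) ^ (3 / 2 + 8 * η) :=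
    Real.rpow_le_rpow_of_exponent_le hm1 (by linarith)
  have a2 : √(pw m : ℝ) = (pw m : ℝ) ^ (1 / 2 : ℝ) := Real.sqrt_eq_rpow _
  rw [a2]
  have hK : 0 ≤ ‖θ‖ / θ.re := by positivity
  gcongr
  linarith

end Pool.Agent.LibSM47.SD
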