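import Pool.Agent.LibSM47.Defs
import Pool.Agent.LibPH.X12a
import Pool.Agent.Hall79X.X1

/-! ROW E_01: bounds for `Hn` and `kk` (divisor bound `Pool.Agent.LibHall79.card_divisors_le`). -/

set_option autoImplicit false

namespace Pool.Agent.LibSM47.EH

open Complex

/-- Divisor bound. -/
theorem card_sq_le (η : ℝ) (hη : 0 < η) : ∃ C : ℝ, 0 < C ∧ ∀ m : ℕ, 1 ≤ m → (m.divisors.card : ℝ) ^ 2 ≤ C * (m : ℝ) ^ η := by
  obtain ⟨C, hC, h⟩ := LibHall79.card_divisors_le (η / 2) (by positivity)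
  refine ⟨C ^ 2, by positivity, fun m hm => ?_⟩
  have hmp : (0 : ℝ) < m := by exact_mod_cast hm
  calc (m.divisors.card : ℝ) ^ 2 ≤ (C * (m : ℝ) ^ (η / 2)) ^ 2 :=
        pow_le_pow_left₀ (Nat.cast_nonneg _) (h m hm) 2
    _ = C ^ 2 * ((m : ℝ) ^ (η / 2) * (m : ℝ) ^ (η / 2)) := by ring
    _ = C ^ 2 * (m : ℝ) ^ η := by rw [← Real.rpow_add hmp, add_halves]

/-- `|e^{-(1+s)}| ≤ e^{‖s‖ - 1} ≤ 1`, `φ(d) d^{-1+‖s‖} ≤ m^{‖s‖}`, at most `d(m)²`. -/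
theorem Hn_refined (η : ℝ) (hη : 0 < η) : ∃ C : ℝ, 0 < C ∧ ∀ m : ℕ, 1 ≤ m → ∀ s : ℂ, ‖s‖ ≤ 1 / 4 →
    ‖LibPH.Hn m s‖ ≤ C * (m : ℝ) ^ (-1 + 2 * ‖s‖ + η) := by
  obtain ⟨C, hC, h⟩ := card_sq_le η hη
  refine ⟨7 * C, by positivity, fun m hm s hs => ?_⟩
  have hm1 : (1 : ℝ) ≤ m := by exact_mod_cast hm
  have hmp : (0 : ℝ) < m := by linarith
  have hD := h m hm
  set D : ℝ := (m.divisors.card : ℝ) with hDdef
  have hD1 : 1 ≤ D := by
    have h1 : 1 ≤ m.divisors.card :=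
      Finset.card_pos.2 ⟨1, Nat.mem_divisors.2 ⟨one_dvd m, by omega⟩⟩
    rw [hDdef]
    exact_mod_cast h1
  have hDD : D ≤ D ^ 2 := by nlinarith
  set σ := ‖s‖ with hσ
  have hσ0 : 0 ≤ σ := norm_nonneg s
  have hre := Complex.abs_re_le_norm s
  have hre2 : -σ ≤ s.re := by
    have := neg_abs_le s.re
    linarith
  -- the power
  have hpow : ∀ k : ℕ, 1 ≤ k → ‖(k : ℂ) ^ (-(1 + s))‖ ≤ (k : ℝ) ^ (-1 + σ) := by
    intro k hk
    rw [Complex.norm_natCast_cpow_of_pos (by omega)]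
    have h1 : (1 : ℝ) ≤ k := by exact_mod_cast hk
    apply Real.rpow_le_rpow_of_exponent_le h1
    rw [Complex.neg_re, Complex.add_re, Complex.one_re]
    linarith
  have hpow1 : ∀ k : ℕ, 1 ≤ k → ‖(k : ℂ) ^ (-(1 + s))‖ ≤ 1 := by
    intro k hk
    refine (hpow k hk).trans ?_
    have h1 : (1 : ℝ) ≤ k := by exact_mod_cast hk
    exact Real.rpow_le_one_of_one_le_of_nonpos h1 (by linarith)
  -- fA
  have hA : ‖LibPH.fA m s‖ ≤ D ^ 2 := by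
    unfold LibPH.fA
    have h1 : ∀ e ∈ m.divisors, ‖((ArithmeticFunction.moebius e : ℤ) : ℂ) *
        ((m / e).divisors.card : ℂ) * (e : ℂ) ^ (-(1 + s))‖ ≤ D := by
      intro e he
      have he1 : 1 ≤ e := Nat.pos_of_mem_divisors he
      have hmu : ‖((ArithmeticFunction.moebius e : ℤ) : ℂ)‖ ≤ 1 := by
        rw [Complex.norm_intCast]
        have := ArithmeticFunction.abs_moebius_le_one (n := e)
        exact_mod_cast this
      have h2 : ((m / e).divisors.card : ℝ) ≤ D := by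
        rw [hDdef]
        exact_mod_cast Finset.card_le_card (Nat.divisors_subset_of_dvd (by omega)
          (Nat.div_dvd_of_dvd (Nat.dvd_of_mem_divisors he)))
      rw [norm_mul, norm_mul, Complex.norm_natCast]
      calc ‖((ArithmeticFunction.moebius e : ℤ) : ℂ)‖ * ((m / e).divisors.card : ℝ) *
            ‖(e : ℂ) ^ (-(1 + s))‖ ≤ 1 * D * 1 :=
            mul_le_mul (mul_le_mul hmu h2 (Nat.cast_nonneg _) zero_le_one) (hpow1 e he1)
              (norm_nonneg _) (by positivity)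
        _ = D := by ring
    refine (norm_sum_le_of_le _ h1).trans (le_of_eq ?_)
    rw [Finset.sum_const, nsmul_eq_mul, pow_two]
  -- fB
  have hB : ∀ w : ℂ, ‖w‖ ≤ σ → ‖LibPH.fB m w‖ ≤ D * (m : ℝ) ^ σ := by
    intro w hw
    unfold LibPH.fB
    have h1 : ∀ d ∈ m.divisors, ‖(Nat.totient d : ℂ) * (d : ℂ) ^ (-(1 + w))‖ ≤ (m : ℝ) ^ σ := by
      intro d hd
      have hd1 : 1 ≤ d := Nat.pos_of_mem_divisors hd
      have hd1' : (1 : ℝ) ≤ d := by exact_mod_cast hd1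
      have hdm : (d : ℝ) ≤ m := by exact_mod_cast Nat.divisor_le hd
      have h2 : (Nat.totient d : ℝ) ≤ d := by exact_mod_cast Nat.totient_le d
      have hw2 := Complex.abs_re_le_norm w
      have hw3 := neg_abs_le w.re
      rw [norm_mul, Complex.norm_natCast, Complex.norm_natCast_cpow_of_pos (by omega)]
      calc (Nat.totient d : ℝ) * (d : ℝ) ^ (-(1 + w)).re ≤ d * (d : ℝ) ^ (-(1 + w)).re :=
            mul_le_mul_of_nonneg_right h2 (by positivity)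
        _ = (d : ℝ) ^ (1 : ℝ) * (d : ℝ) ^ (-(1 + w)).re := by rw [Real.rpow_one]
        _ = (d : ℝ) ^ (-w.re) := by
            rw [← Real.rpow_add (by linarith)]
            congr 1
            rw [Complex.neg_re, Complex.add_re, Complex.one_re]
            ring
        _ ≤ (d : ℝ) ^ σ := Real.rpow_le_rpow_of_exponent_le hd1' (by linarith)
        _ ≤ (m : ℝ) ^ σ := Real.rpow_le_rpow (by linarith) hdm hσ0
    refine (norm_sum_le_of_le _ h1).trans (le_of_eq ?_)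
    rw [Finset.sum_const, nsmul_eq_mul]
  have n3 : ‖(3 : ℂ)‖ = 3 := by norm_num
  set M : ℝ := C * (m : ℝ) ^ (-1 + 2 * σ + η) with hM
  have f1 : D ^ 2 * (m : ℝ) ^ (-1 + σ) ≤ M := by
    calc D ^ 2 * (m : ℝ) ^ (-1 + σ) ≤ (C * (m : ℝ) ^ η) * (m : ℝ) ^ (-1 + σ) :=
          mul_le_mul_of_nonneg_right hD (by positivity)
      _ = C * (m : ℝ) ^ (η + (-1 + σ)) := by
          rw [Real.rpow_add hmp η (-1 + σ)]
          ring
      _ ≤ M := by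
          rw [hM]
          apply mul_le_mul_of_nonneg_left _ hC.le
          exact Real.rpow_le_rpow_of_exponent_le hm1 (by linarith)
  have f2 : (m : ℝ)⁻¹ * (D * (m : ℝ) ^ σ) ≤ M := by
    calc (m : ℝ)⁻¹ * (D * (m : ℝ) ^ σ) = D * ((m : ℝ) ^ (-1 : ℝ) * (m : ℝ) ^ σ) := by
          rw [Real.rpow_neg_one]
          ring
      _ = D * (m : ℝ) ^ (-1 + σ) := by rw [← Real.rpow_add hmp]
      _ ≤ D ^ 2 * (m : ℝ) ^ (-1 + σ) := mul_le_mul_of_nonneg_right hDD (by positivity)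
      _ ≤ M := f1
  have g1 : ‖3 * (m : ℂ) ^ (-(1 + s)) * LibPH.fA m s‖ ≤ 3 * M := by
    rw [norm_mul, norm_mul, n3]
    calc 3 * ‖(m : ℂ) ^ (-(1 + s))‖ * ‖LibPH.fA m s‖ ≤ 3 * (m : ℝ) ^ (-1 + σ) * D ^ 2 :=
          mul_le_mul (mul_le_mul_of_nonneg_left (hpow m hm) (by norm_num)) hA (norm_nonneg _)
            (by positivity)
      _ = 3 * (D ^ 2 * (m : ℝ) ^ (-1 + σ)) := by ring
      _ ≤ 3 * M := by linarith
  have g2 : ‖3 / (m : ℂ) * LibPH.fB m s‖ ≤ 3 * M := by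
    rw [norm_mul, norm_div, n3, Complex.norm_natCast]
    calc 3 / (m : ℝ) * ‖LibPH.fB m s‖ ≤ 3 / (m : ℝ) * (D * (m : ℝ) ^ σ) :=
          mul_le_mul_of_nonneg_left (hB s le_rfl) (by positivity)
      _ = 3 * ((m : ℝ)⁻¹ * (D * (m : ℝ) ^ σ)) := by ring
      _ ≤ 3 * M := by linarith
  have g3 : ‖1 / (m : ℂ) * LibPH.fB m 0‖ ≤ M := by
    rw [norm_mul, norm_div, norm_one, Complex.norm_natCast, one_div]
    calc (m : ℝ)⁻¹ * ‖LibPH.fB m 0‖ ≤ (m : ℝ)⁻¹ * (D * (m : ℝ) ^ σ) :=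
          mul_le_mul_of_nonneg_left (hB 0 (by rw [norm_zero]; exact hσ0)) (by positivity)
      _ ≤ M := f2
  unfold LibPH.Hn
  calc _ ≤ ‖3 * (m : ℂ) ^ (-(1 + s)) * LibPH.fA m s‖ + ‖3 / (m : ℂ) * LibPH.fB m s‖ +
        ‖1 / (m : ℂ) * LibPH.fB m 0‖ :=
        (norm_add_le _ _).trans (add_le_add (norm_sub_le _ _) le_rfl)
    _ ≤ 7 * M := by linarith
    _ = _ := by
        rw [hM]
        ring

/-- `|m^{1/2+s} n^{-(1/2+s)}| ≤ m^{1/2+‖s‖} n^{-1/2+‖s‖}`. -/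
theorem kk_le (η : ℝ) (hη : 0 < η) : ∃ C : ℝ, 0 < C ∧ ∀ m n : ℕ, 1 ≤ m → 1 ≤ n → ∀ T : ℝ, (m : ℝ) ≤ T → (n : ℝ) ≤ T →
    ∀ s : ℂ, ‖s‖ ≤ 1 / 4 → ‖LibPH.kk n m s‖ ≤ C * (((m : ℝ) * n) ^ (-(1 / 2) : ℝ) * T ^ (4 * ‖s‖ + η)) := by
  obtain ⟨C, hC, h⟩ := Hn_refined η hη
  refine ⟨C, hC, fun m n hm hn T hmT hnT s hs => ?_⟩
  have hm1 : (1 : ℝ) ≤ m := by exact_mod_cast hm
  have hmp : (0 : ℝ) < m := by linarith
  have hn1 : (1 : ℝ) ≤ n := by exact_mod_cast hn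
  have hnp : (0 : ℝ) < n := by linarith
  have hTp : 0 < T := by linarith
  have hH := h m hm s hs
  set σ := ‖s‖ with hσ
  have hσ0 : 0 ≤ σ := norm_nonneg s
  have hre := Complex.abs_re_le_norm s
  have hre1 : s.re ≤ σ := (le_abs_self _).trans hre
  have hre2 : -σ ≤ s.re := by
    have := neg_abs_le s.re
    linarith
  have hhalf : ((1 / 2 : ℂ)).re = 1 / 2 := by norm_num
  have g1 : ‖(m : ℂ) ^ (1 / 2 + s)‖ ≤ (m : ℝ) ^ (1 / 2 + σ) := by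
    rw [Complex.norm_natCast_cpow_of_pos (by omega)]
    apply Real.rpow_le_rpow_of_exponent_le hm1
    rw [Complex.add_re, hhalf]
    linarith
  have g2 : ‖(n : ℂ) ^ (-(1 / 2 + s))‖ ≤ (n : ℝ) ^ (-(1 / 2) + σ) := by
    rw [Complex.norm_natCast_cpow_of_pos (by omega)]
    apply Real.rpow_le_rpow_of_exponent_le hn1
    rw [Complex.neg_re, Complex.add_re, hhalf]
    linarith
  unfold LibPH.kk
  rw [norm_mul, norm_mul]
  calc ‖(m : ℂ) ^ (1 / 2 + s)‖ * ‖(n : ℂ) ^ (-(1 / 2 + s))‖ * ‖LibPH.Hn m s‖ ≤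
      (m : ℝ) ^ (1 / 2 + σ) * (n : ℝ) ^ (-(1 / 2) + σ) * (C * (m : ℝ) ^ (-1 + 2 * σ + η)) :=
        mul_le_mul (mul_le_mul g1 g2 (norm_nonneg _) (by positivity)) hH (norm_nonneg _)
          (by positivity)
    _ = C * (((m : ℝ) ^ (1 / 2 + σ) * (m : ℝ) ^ (-1 + 2 * σ + η)) * (n : ℝ) ^ (-(1 / 2) + σ)) := by
        ring
    _ = C * ((m : ℝ) ^ (-(1 / 2) + (3 * σ + η)) * (n : ℝ) ^ (-(1 / 2) + σ)) := by
        rw [← Real.rpow_add hmp]
        congr 3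
        ring
    _ = C * ((((m : ℝ) * n) ^ (-(1 / 2) : ℝ)) * ((m : ℝ) ^ (3 * σ + η) * (n : ℝ) ^ σ)) := by
        rw [Real.rpow_add hmp, Real.rpow_add hnp, Real.mul_rpow hmp.le hnp.le]
        ring
    _ ≤ C * ((((m : ℝ) * n) ^ (-(1 / 2) : ℝ)) * (T ^ (3 * σ + η) * T ^ σ)) := by
        have h1 : (m : ℝ) ^ (3 * σ + η) ≤ T ^ (3 * σ + η) :=
          Real.rpow_le_rpow hmp.le hmT (by positivity)
        have h2 : (n : ℝ) ^ σ ≤ T ^ σ := Real.rpow_le_rpow hnp.le hnT hσ0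
        gcongr
    _ = _ := by
        rw [← Real.rpow_add hTp]
        congr 3
        ring

end Pool.Agent.LibSM47.EH
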