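import Pool.Agent.LibSM47.Defs

/-! ROW E_02: divisor sums. -/

set_option autoImplicit false

namespace Pool.Agent.LibSM47.EH

open Finset

/-- `φ(d)/d = ∑_{k ∣ d} μ(k)/k`, then exchange: `∑_{k ∣ m} (μ(k)/k) #{d : k ∣ d ∣ m}` and the last number is `d(m/k)`. -/
theorem sum_mu_div (m : ℕ) (hm : 1 ≤ m) :
    ∑ k ∈ m.divisors, ((ArithmeticFunction.moebius k : ℤ) : ℝ) * ((m / k).divisors.card : ℝ) / k = hh m := by
  have hphi : ∀ d : ℕ, 0 < d → (Nat.totient d : ℝ) / d =
      ∑ k ∈ d.divisors, ((ArithmeticFunction.moebius k : ℤ) : ℝ) / k := by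
    have h1 : ∀ n : ℕ, n > 0 → ∑ i ∈ n.divisors, (Nat.totient i : ℝ) = (n : ℝ) := by
      intro n _
      exact_mod_cast Nat.sum_totient n
    have h2 := (ArithmeticFunction.sum_eq_iff_sum_mul_moebius_eq (f := fun i => (Nat.totient i : ℝ))
      (g := fun n => (n : ℝ))).1 h1
    intro d hd
    rw [← h2 d hd, Nat.sum_divisorsAntidiagonal
      (f := fun a b => ((ArithmeticFunction.moebius a : ℤ) : ℝ) * (b : ℝ)), Finset.sum_div]
    refine Finset.sum_congr rfl fun k hk => ?_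
    have hk0 : (k : ℝ) ≠ 0 := by
      have := Nat.pos_of_mem_divisors hk
      positivity
    have hd0 : (d : ℝ) ≠ 0 := by positivity
    rw [Nat.cast_div (Nat.dvd_of_mem_divisors hk) hk0]
    field_simp
  set f : ArithmeticFunction ℝ :=
    ⟨fun n => ((ArithmeticFunction.moebius n : ℤ) : ℝ) / n, by simp⟩ with hf
  have hfa : ∀ n, f n = ((ArithmeticFunction.moebius n : ℤ) : ℝ) / n := fun n => rfl
  set z : ArithmeticFunction ℝ := ((ArithmeticFunction.zeta : ArithmeticFunction ℕ) :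
    ArithmeticFunction ℝ) with hz
  have hzz : ∀ n, (z * z) n = (n.divisors.card : ℝ) := by
    intro n
    rw [hz, ArithmeticFunction.coe_mul_zeta_apply, Finset.card_eq_sum_ones, Nat.cast_sum]
    refine Finset.sum_congr rfl fun i hi => ?_
    rw [ArithmeticFunction.natCoe_apply, ArithmeticFunction.zeta_apply_ne
      (Nat.pos_of_mem_divisors hi).ne']
  have h1 : (f * (z * z)) m = ∑ k ∈ m.divisors,
      ((ArithmeticFunction.moebius k : ℤ) : ℝ) * ((m / k).divisors.card : ℝ) / k := by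
    rw [ArithmeticFunction.mul_apply, Nat.sum_divisorsAntidiagonal (f := fun a b => f a * (z * z) b)]
    refine Finset.sum_congr rfl fun k _ => ?_
    rw [hzz, hfa]
    ring
  have h2 : (f * z * z) m = hh m := by
    rw [hz, ArithmeticFunction.coe_mul_zeta_apply, hh]
    refine Finset.sum_congr rfl fun d hd => ?_
    rw [ArithmeticFunction.coe_mul_zeta_apply, hphi d (Nat.pos_of_mem_divisors hd)]
    rfl
  rw [← h1, ← h2, mul_assoc]

theorem hh_nonneg (m : ℕ) : 0 ≤ hh m := by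
  unfold hh
  positivity

/-- `φ(d) ≤ d`. -/
theorem hh_le_card (m : ℕ) : hh m ≤ (m.divisors.card : ℝ) := by
  unfold hh
  rw [Finset.card_eq_sum_ones, Nat.cast_sum]
  refine Finset.sum_le_sum fun d hd => ?_
  have hd0 : (0 : ℝ) < d := by exact_mod_cast Nat.pos_of_mem_divisors hd
  rw [div_le_iff₀ hd0, Nat.cast_one, one_mul]
  exact_mod_cast Nat.totient_le d

/-- The term `k = 1` of `errS`. -/
theorem card_le_errS (m : ℕ) (hm : 1 ≤ m) : (m.divisors.card : ℝ) ≤ errS m := by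
  unfold errS
  have h1 : (m.divisors.card : ℝ) =
      ((m / 1).divisors.card : ℝ) / ((1 : ℕ) : ℝ) * (1 + (Real.log ((1 : ℕ) : ℝ)) ^ 2) := by
    simp
  rw [h1]
  refine Finset.single_le_sum
    (f := fun k : ℕ => ((m / k).divisors.card : ℝ) / (k : ℝ) * (1 + (Real.log (k : ℝ)) ^ 2))
    (fun k _ => by positivity) ?_
  exact Nat.mem_divisors.2 ⟨one_dvd m, by omega⟩

theorem one_le_errS (m : ℕ) (hm : 1 ≤ m) : 1 ≤ errS m := by
  refine le_trans ?_ (card_le_errS m hm)
  have h : 1 ≤ m.divisors.card := Finset.card_pos.2 ⟨1, Nat.mem_divisors.2 ⟨one_dvd m, by omega⟩⟩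
  exact_mod_cast h

theorem sum_div_le_errS (m : ℕ) : ∑ k ∈ m.divisors, ((m / k).divisors.card : ℝ) / k ≤ errS m := by
  unfold errS
  refine Finset.sum_le_sum fun k _ => ?_
  have h1 : (0 : ℝ) ≤ ((m / k).divisors.card : ℝ) / k := by positivity
  nlinarith [sq_nonneg (Real.log k)]

end Pool.Agent.LibSM47.EH
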