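import Pool.Agent.LibSM47.Defs
import Pool.Agent.LibPH.X00

/-! ROW E_03: exchange of `C2` and the integral over `ξ` (compact range, everything continuous; compare `LibPH.super_C2`). -/

set_option autoImplicit false

namespace Pool.Agent.LibSM47.EH

open MeasureTheory Set Filter Topology Complex

/-- The transform of the weight. -/
noncomputable def Kint (T V u : ℝ) (s : ℂ) : ℂ :=
  ∫ ξ in Icc (-(1 / 4) : ℝ) (1 / 4), (wq T ξ) ^ (-(1 + s)) * nu T V u ξ

theorem nu_cont (T V u : ℝ) : Continuous (nu T V u) := by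
  unfold nu
  fun_prop

theorem wq_re (T ξ : ℝ) : (wq T ξ).re = 1 / T := by
  unfold wq
  simp

theorem E_03_wq_cont (T : ℝ) : Continuous (wq T) := by
  unfold wq
  fun_prop

theorem E_03_slit {T : ℝ} (hT : 0 < T) (ξ : ℝ) : wq T ξ ∈ Complex.slitPlane := by
  refine Or.inl ?_
  rw [wq_re]
  positivity

theorem E_03_cpow_cont {T : ℝ} (hT : 0 < T) : Continuous (fun p : ℂ × ℝ => (wq T p.2) ^ (-(1 + p.1))) := by
  rw [continuous_iff_continuousAt]
  intro p
  refine ContinuousAt.cpow ?_ ?_ (E_03_slit hT p.2)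
  · exact ((E_03_wq_cont T).comp continuous_snd).continuousAt
  · exact (continuous_const.add continuous_fst).neg.continuousAt

theorem E_03_log_cont {T : ℝ} (hT : 0 < T) : Continuous (fun ξ : ℝ => Complex.log (wq T ξ)) :=
  (E_03_wq_cont T).clog fun ξ => E_03_slit hT ξ

/-- Differentiation under the integral sign (`hasDerivAt_integral_of_dominated_loc_of_deriv_le`, compact range), then
`Differentiable.analyticAt`. -/
theorem Kint_an (T V u : ℝ) (hT : 0 < T) (s : ℂ) : AnalyticAt ℂ (Kint T V u) s := by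
  suffices h : Differentiable ℂ (Kint T V u) from h.analyticAt s
  intro s₀
  have hF'c : Continuous (fun p : ℂ × ℝ => (wq T p.2) ^ (-(1 + p.1)) * Complex.log (wq T p.2) * (-1) * nu T V u p.2) :=
    (((E_03_cpow_cont hT).mul ((E_03_log_cont hT).comp continuous_snd)).mul continuous_const).mul
      ((nu_cont T V u).comp continuous_snd)
  obtain ⟨M, hM⟩ : ∃ M : ℝ, ∀ p ∈ Metric.closedBall s₀ 1 ×ˢ Icc (-(1 / 4) : ℝ) (1 / 4),
      ‖(wq T p.2) ^ (-(1 + p.1)) * Complex.log (wq T p.2) * (-1) * nu T V u p.2‖ ≤ M :=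
    ((isCompact_closedBall s₀ 1).prod isCompact_Icc).exists_bound_of_continuousOn hF'c.continuousOn
  have hFc : ∀ s : ℂ, Continuous (fun ξ : ℝ => (wq T ξ) ^ (-(1 + s)) * nu T V u ξ) := fun s =>
    ((E_03_cpow_cont hT).comp (continuous_const.prodMk continuous_id)).mul (nu_cont T V u)
  have h := hasDerivAt_integral_of_dominated_loc_of_deriv_le (𝕜 := ℂ) (μ := volume.restrict (Icc (-(1 / 4) : ℝ) (1 / 4)))
    (F := fun s ξ => (wq T ξ) ^ (-(1 + s)) * nu T V u ξ)
    (F' := fun s ξ => (wq T ξ) ^ (-(1 + s)) * Complex.log (wq T ξ) * (-1) * nu T V u ξ)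
    (bound := fun _ => M)
    (x₀ := s₀) (s := Metric.closedBall s₀ 1)
    (Metric.closedBall_mem_nhds s₀ one_pos)
    (Eventually.of_forall fun s => (hFc s).aestronglyMeasurable)
    ((hFc s₀).continuousOn.integrableOn_compact isCompact_Icc)
    (hF'c.comp (continuous_const.prodMk continuous_id)).aestronglyMeasurable
    ((ae_restrict_iff' measurableSet_Icc).2 (ae_of_all _ fun ξ hξ s hs => hM (s, ξ) ⟨hs, hξ⟩))
    (integrable_const M)
    (ae_of_all _ fun ξ s _ => by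
      have h2 : HasDerivAt (fun s : ℂ => -(1 + s)) (-1) s := ((hasDerivAt_id s).const_add 1).neg
      exact (h2.const_cpow (Or.inl (Complex.slitPlane_ne_zero (E_03_slit hT ξ)))).mul_const (nu T V u ξ))
  exact h.2.differentiableAt

/-- `LibPH.C2_circle` on both sides and Fubini on `Icc × [0, 2π]`. -/
theorem C2_swap (T V u : ℝ) (hT : 0 < T) (B : ℂ → ℂ) (hB : ∀ s : ℂ, ‖s‖ ≤ 1 / 4 → AnalyticAt ℂ B s) :
    IntegrableOn (fun ξ : ℝ => LibPH.C2 (fun s => B s * (wq T ξ) ^ (-(1 + s))) * nu T V u ξ) (Icc (-(1 / 4) : ℝ) (1 / 4)) ∧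
    ∫ ξ in Icc (-(1 / 4) : ℝ) (1 / 4), LibPH.C2 (fun s => B s * (wq T ξ) ^ (-(1 + s))) * nu T V u ξ =
      LibPH.C2 (fun s => B s * Kint T V u s) := by
  obtain ⟨c, hc⟩ : ∃ c : ℝ → ℂ, c = circleMap 0 (1/4) := ⟨_, rfl⟩
  have hcn : ∀ θ, ‖c θ‖ = 1/4 := by
    intro θ
    rw [hc, norm_circleMap_zero]
    norm_num
  have hc0 : ∀ θ, c θ ≠ 0 := by
    intro θ h
    have h1 := hcn θ
    rw [h, norm_zero] at h1
    norm_num at h1
  have hcc : Continuous c := by
    rw [hc]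
    exact continuous_circleMap 0 (1/4)
  obtain ⟨w, hwdef⟩ : ∃ w : ℝ → ℂ, w = fun θ => c θ * I * (((c θ) ^ 3)⁻¹ * B (c θ)) := ⟨_, rfl⟩
  obtain ⟨L, hLdef⟩ : ∃ L : ℝ → ℝ → ℂ, L = fun ξ θ => (wq T ξ) ^ (-(1 + c θ)) := ⟨_, rfl⟩
  have hBc : Continuous fun θ => B (c θ) := by
    rw [continuous_iff_continuousAt]
    intro θ
    exact ContinuousAt.comp (hB _ (hcn θ).le).continuousAt hcc.continuousAt
  have hw : Continuous w := by
    rw [hwdef]
    refine (hcc.mul continuous_const).mul (Continuous.mul ?_ hBc)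
    exact (hcc.pow 3).inv₀ fun θ => pow_ne_zero 3 (hc0 θ)
  have hL : Continuous fun p : ℝ × ℝ => L p.1 p.2 := by
    rw [hLdef]
    exact (E_03_cpow_cont hT).comp ((hcc.comp continuous_snd).prodMk continuous_fst)
  have hpi : (0:ℝ) ≤ 2 * Real.pi := by positivity
  have hGc : Continuous fun p : ℝ × ℝ => w p.2 * L p.1 p.2 * nu T V u p.1 :=
    ((hw.comp continuous_snd).mul hL).mul ((nu_cont T V u).comp continuous_fst)
  have hint : Integrable (Function.uncurry fun ξ θ : ℝ => w θ * L ξ θ * nu T V u ξ)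
      ((volume.restrict (Icc (-(1 / 4) : ℝ) (1 / 4))).prod (volume.restrict (Ioc (0:ℝ) (2 * Real.pi)))) := by
    rw [Measure.prod_restrict]
    refine IntegrableOn.mono_set (t := Icc (-(1 / 4) : ℝ) (1 / 4) ×ˢ Icc (0:ℝ) (2 * Real.pi)) ?_
      (Set.prod_mono (le_refl _) Ioc_subset_Icc_self)
    exact hGc.continuousOn.integrableOn_compact (isCompact_Icc.prod isCompact_Icc)
  have hcp : ∀ ξ : ℝ, Differentiable ℂ fun s : ℂ => (wq T ξ) ^ (-(1 + s)) := fun ξ s =>
    DifferentiableAt.const_cpow ((differentiableAt_const _).add differentiableAt_id).neg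
      (Or.inl (Complex.slitPlane_ne_zero (E_03_slit hT ξ)))
  have hC2 : ∀ ξ : ℝ, LibPH.C2 (fun s => B s * (wq T ξ) ^ (-(1 + s))) * nu T V u ξ =
      (2 * Real.pi * I)⁻¹ * ∫ θ in Ioc (0:ℝ) (2 * Real.pi), w θ * L ξ θ * nu T V u ξ := by
    intro ξ
    have hcir : LibPH.C2 (fun s => B s * (wq T ξ) ^ (-(1 + s))) = (2 * Real.pi * I)⁻¹ *
        ∮ s in C(0, 1 / 4), (s ^ 3)⁻¹ * (B s * (wq T ξ) ^ (-(1 + s))) :=
      LibPH.C2_circle (by norm_num) (fun s hs => (hB s hs).mul ((hcp ξ).analyticAt s))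
    rw [hcir, mul_assoc, integral_mul_const]
    congr 2
    rw [circleIntegral, intervalIntegral.integral_of_le hpi]
    refine integral_congr_ae (Eventually.of_forall fun θ => ?_)
    show deriv (circleMap 0 (1/4)) θ • (((circleMap 0 (1/4) θ) ^ 3)⁻¹ *
      (B (circleMap 0 (1/4) θ) * (wq T ξ) ^ (-(1 + circleMap 0 (1/4) θ)))) = w θ * L ξ θ
    rw [deriv_circleMap, smul_eq_mul, hwdef, hLdef, hc]
    ring
  have hR : LibPH.C2 (fun s => B s * Kint T V u s) =
      (2 * Real.pi * I)⁻¹ * ∫ θ in Ioc (0:ℝ) (2 * Real.pi), w θ * Kint T V u (c θ) := by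
    have hcir : LibPH.C2 (fun s => B s * Kint T V u s) = (2 * Real.pi * I)⁻¹ *
        ∮ s in C(0, 1 / 4), (s ^ 3)⁻¹ * (B s * Kint T V u s) :=
      LibPH.C2_circle (by norm_num) (fun s hs => (hB s hs).mul (Kint_an T V u hT s))
    rw [hcir]
    congr 1
    rw [circleIntegral, intervalIntegral.integral_of_le hpi]
    refine integral_congr_ae (Eventually.of_forall fun θ => ?_)
    show deriv (circleMap 0 (1/4)) θ • (((circleMap 0 (1/4) θ) ^ 3)⁻¹ *
      (B (circleMap 0 (1/4) θ) * Kint T V u (circleMap 0 (1/4) θ))) = w θ * Kint T V u (c θ)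
    rw [deriv_circleMap, smul_eq_mul, hwdef, hc]
    ring
  have hin : ∀ θ : ℝ, ∫ ξ in Icc (-(1 / 4) : ℝ) (1 / 4), w θ * L ξ θ * nu T V u ξ = w θ * Kint T V u (c θ) := by
    intro θ
    unfold Kint
    rw [← integral_const_mul]
    refine integral_congr_ae (Eventually.of_forall fun ξ => ?_)
    show w θ * L ξ θ * nu T V u ξ = w θ * ((wq T ξ) ^ (-(1 + c θ)) * nu T V u ξ)
    rw [hLdef]
    ring
  constructor
  · have h := (hint.integral_prod_left).const_mul ((2 * Real.pi * I)⁻¹ : ℂ)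
    refine h.congr (ae_of_all _ fun ξ => ?_)
    exact (hC2 ξ).symm
  · have e1 : ∫ ξ in Icc (-(1 / 4) : ℝ) (1 / 4), LibPH.C2 (fun s => B s * (wq T ξ) ^ (-(1 + s))) * nu T V u ξ =
        (2 * Real.pi * I)⁻¹ * ∫ ξ in Icc (-(1 / 4) : ℝ) (1 / 4), ∫ θ in Ioc (0:ℝ) (2 * Real.pi), w θ * L ξ θ * nu T V u ξ := by
      rw [← integral_const_mul]
      exact integral_congr_ae (ae_of_all _ fun ξ => hC2 ξ)
    rw [e1, hR, integral_integral_swap hint]
    congr 1
    exact integral_congr_ae (ae_of_all _ fun θ => hin θ)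

end Pool.Agent.LibSM47.EH
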