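import Pool.Agent.LibSM47.Defs
import Pool.Agent.LibPH.X07
import Pool.Agent.LibPH.X12a
import Pool.Agent.LibPH.X00

/-! ROW E_04: the main value of one fraction. -/

set_option autoImplicit false

namespace Pool.Agent.LibSM47.EH

open Complex

/-- `pz(a)`, the coefficient of `s²` in `s³ζ(1+s)³ e^{as}`. -/
noncomputable def pz (a : ℝ) : ℂ := LibPH.C2 (fun s => LibPH.Z0 s * cexp (s * a))

/-- `LibPH.C2_mul_exp`, `LibPH.Z0_zero`. -/
theorem pz_eq (a : ℝ) : pz a = (a : ℂ) ^ 2 / 2 + a * deriv LibPH.Z0 0 + LibPH.C2 LibPH.Z0 := by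
  unfold pz
  rw [LibPH.C2_mul_exp (LibPH.Z0_analytic 0) (a : ℂ), LibPH.Z0_zero, mul_one]

/-- The three parts of the main term. -/
noncomputable def MT (m : ℕ) (l : ℝ) : ℂ :=
  3 * ∑ e ∈ m.divisors, ((ArithmeticFunction.moebius e : ℤ) : ℂ) * ((m / e).divisors.card : ℂ) / e *
      pz (l - Real.log m - Real.log e)
    - 3 * ∑ d ∈ m.divisors, (Nat.totient d : ℂ) / d * pz (l - Real.log d) + (hh m : ℂ) * pz l

theorem E_04_nat {k : ℕ} (hk : 1 ≤ k) (w : ℂ) :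
    (k : ℂ) ^ w = cexp (((Real.log k : ℝ) : ℂ) * w) := by
  have h : (k : ℂ) ≠ 0 := by
    have : k ≠ 0 := by omega
    exact_mod_cast this
  rw [Complex.cpow_def_of_ne_zero h, Complex.natCast_log]

theorem E_04_self {k : ℕ} (hk : 1 ≤ k) : (k : ℂ) = cexp ((Real.log k : ℝ) : ℂ) := by
  have h : (0:ℝ) < k := by exact_mod_cast hk
  rw [← Complex.ofReal_exp, Real.exp_log h, Complex.ofReal_natCast]

theorem E_04_inv {k : ℕ} (hk : 1 ≤ k) (s : ℂ) :
    (k : ℂ) ^ (-(1 + s)) = 1 / (k : ℂ) * cexp (-(s * ((Real.log k : ℝ) : ℂ))) := by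
  have h1 : 1 / (k : ℂ) = cexp (-((Real.log k : ℝ) : ℂ)) := by
    rw [Complex.exp_neg, ← E_04_self hk, one_div]
  rw [E_04_nat hk, h1, ← Complex.exp_add]
  congr 1
  ring

theorem E_04_W {m n : ℕ} (hm : 1 ≤ m) (hn : 1 ≤ n) {u : ℝ} (hu : 0 < u) (s : ℂ) :
    ((2 * Real.pi : ℝ) : ℂ) ^ (-s) * ((m : ℂ) ^ (1 / 2 + s) * (n : ℂ) ^ (-(1 / 2 + s))) *
      (u : ℂ) ^ s = ((((m : ℝ) * n) ^ (-(1 / 2) : ℝ) : ℝ) : ℂ) *
      ((m : ℂ) * cexp (s * ((Real.log (u / (2 * Real.pi)) + Real.log m - Real.log n : ℝ) : ℂ))) := by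
  have hm' : (0:ℝ) < m := by exact_mod_cast hm
  have hn' : (0:ℝ) < n := by exact_mod_cast hn
  have hpi : (0:ℝ) < 2 * Real.pi := by positivity
  have hK : ((m : ℝ) * n) ^ (-(1 / 2) : ℝ) = Real.exp ((Real.log m + Real.log n) * (-(1/2))) := by
    rw [Real.rpow_def_of_pos (by positivity), Real.log_mul hm'.ne' hn'.ne']
  have hself := E_04_self hm
  rw [E_04_nat hm, E_04_nat hn, Complex.cpow_def_of_ne_zero (Complex.ofReal_ne_zero.2 hpi.ne'),
    Complex.cpow_def_of_ne_zero (Complex.ofReal_ne_zero.2 hu.ne'), ← Complex.ofReal_log hpi.le,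
    ← Complex.ofReal_log hu.le, hK, Complex.ofReal_exp, hself, ← Complex.exp_add,
    ← Complex.exp_add, ← Complex.exp_add, ← Complex.exp_add, ← Complex.exp_add,
    Real.log_div hu.ne' hpi.ne']
  congr 1
  push_cast
  ring

theorem E_04_Hn {m : ℕ} (hm : 1 ≤ m) (s : ℂ) :
    (m : ℂ) * LibPH.Hn m s = 3 * cexp (-(s * ((Real.log m : ℝ) : ℂ))) *
      (∑ e ∈ m.divisors, ((ArithmeticFunction.moebius e : ℤ) : ℂ) * ((m / e).divisors.card : ℂ) / e *
        cexp (-(s * ((Real.log e : ℝ) : ℂ)))) -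
      3 * (∑ d ∈ m.divisors, (Nat.totient d : ℂ) / d * cexp (-(s * ((Real.log d : ℝ) : ℂ)))) +
      (hh m : ℂ) := by
  have hm0 : (m : ℂ) ≠ 0 := by
    have : m ≠ 0 := by omega
    exact_mod_cast this
  have h1 : LibPH.fA m s = ∑ e ∈ m.divisors, ((ArithmeticFunction.moebius e : ℤ) : ℂ) *
      ((m / e).divisors.card : ℂ) / e * cexp (-(s * ((Real.log e : ℝ) : ℂ))) := by
    unfold LibPH.fA
    refine Finset.sum_congr rfl fun e he => ?_
    rw [E_04_inv (LibPH.x12a_pos he)]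
    ring
  have h2 : LibPH.fB m s = ∑ d ∈ m.divisors, (Nat.totient d : ℂ) / d *
      cexp (-(s * ((Real.log d : ℝ) : ℂ))) := by
    unfold LibPH.fB
    refine Finset.sum_congr rfl fun e he => ?_
    rw [E_04_inv (LibPH.x12a_pos he)]
    ring
  have h3 : LibPH.fB m 0 = (hh m : ℂ) := by
    unfold LibPH.fB hh
    rw [Complex.ofReal_sum]
    refine Finset.sum_congr rfl fun e he => ?_
    rw [E_04_inv (LibPH.x12a_pos he), zero_mul, neg_zero, Complex.exp_zero]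
    push_cast
    ring
  unfold LibPH.Hn
  rw [← h1, ← h2, ← h3, E_04_inv hm]
  field_simp

theorem E_04_exp (s : ℂ) (a b : ℝ) :
    cexp (s * (a : ℂ)) * cexp (-(s * (b : ℂ))) = cexp (s * ((a - b : ℝ) : ℂ)) := by
  rw [← Complex.exp_add]
  congr 1
  push_cast
  ring

/-- `(2π)^{-s} u^s m^s n^{-s} = e^{sl}`, `m^{1/2} n^{-1/2} m^{-1} = (mn)^{-1/2}`; `LibPH.C2_sum`, `LibPH.C2_const_mul`, `LibPH.C2_add`. -/
theorem main_value (m n : ℕ) (hm : 1 ≤ m) (hn : 1 ≤ n) (u : ℝ) (hu : 0 < u) :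
    LibPH.C2 (fun s => LibPH.Z0 s * ((2 * Real.pi : ℝ) : ℂ) ^ (-s) * LibPH.kk n m s * (u : ℂ) ^ s) =
      ((((m : ℝ) * n) ^ (-(1 / 2) : ℝ) : ℝ) : ℂ) * MT m (Real.log (u / (2 * Real.pi)) + Real.log m - Real.log n) := by
  obtain ⟨l, hl⟩ : ∃ l : ℝ, l = Real.log (u / (2 * Real.pi)) + Real.log m - Real.log n := ⟨_, rfl⟩
  obtain ⟨K, hK⟩ : ∃ K : ℂ, K = ((((m : ℝ) * n) ^ (-(1 / 2) : ℝ) : ℝ) : ℂ) := ⟨_, rfl⟩
  have hfun : (fun s => LibPH.Z0 s * ((2 * Real.pi : ℝ) : ℂ) ^ (-s) * LibPH.kk n m s * (u : ℂ) ^ s) =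
      fun s => K * ((∑ e ∈ m.divisors, (3 * (((ArithmeticFunction.moebius e : ℤ) : ℂ) *
          ((m / e).divisors.card : ℂ) / e)) *
            (LibPH.Z0 s * cexp (s * ((l - Real.log m - Real.log e : ℝ) : ℂ)))) +
        ((∑ d ∈ m.divisors, (-3 * ((Nat.totient d : ℂ) / d)) *
          (LibPH.Z0 s * cexp (s * ((l - Real.log d : ℝ) : ℂ)))) +
          (hh m : ℂ) * (LibPH.Z0 s * cexp (s * (l : ℂ))))) := by
    funext s
    have h1 := E_04_W hm hn hu s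
    rw [← hl, ← hK] at h1
    have h2 := E_04_Hn hm s
    have h3 : LibPH.Z0 s * ((2 * Real.pi : ℝ) : ℂ) ^ (-s) * LibPH.kk n m s * (u : ℂ) ^ s =
        LibPH.Z0 s * (((2 * Real.pi : ℝ) : ℂ) ^ (-s) * ((m : ℂ) ^ (1 / 2 + s) *
          (n : ℂ) ^ (-(1 / 2 + s))) * (u : ℂ) ^ s) * LibPH.Hn m s := by
      unfold LibPH.kk
      ring
    have h4 : LibPH.Z0 s * (K * ((m : ℂ) * cexp (s * (l : ℂ)))) * LibPH.Hn m s =
        K * (LibPH.Z0 s * cexp (s * (l : ℂ)) * ((m : ℂ) * LibPH.Hn m s)) := by ring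
    rw [h3, h1, h4, h2]
    congr 1
    have h5 : ∑ e ∈ m.divisors, (3 * (((ArithmeticFunction.moebius e : ℤ) : ℂ) *
          ((m / e).divisors.card : ℂ) / e)) *
            (LibPH.Z0 s * cexp (s * ((l - Real.log m - Real.log e : ℝ) : ℂ))) =
        LibPH.Z0 s * cexp (s * (l : ℂ)) * (3 * cexp (-(s * ((Real.log m : ℝ) : ℂ))) *
      (∑ e ∈ m.divisors, ((ArithmeticFunction.moebius e : ℤ) : ℂ) * ((m / e).divisors.card : ℂ) / e *
        cexp (-(s * ((Real.log e : ℝ) : ℂ))))) := by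
      rw [Finset.mul_sum, Finset.mul_sum]
      refine Finset.sum_congr rfl fun e _ => ?_
      rw [← E_04_exp s (l - Real.log m) (Real.log e), ← E_04_exp s l (Real.log m)]
      ring
    have h6 : ∑ d ∈ m.divisors, (-3 * ((Nat.totient d : ℂ) / d)) *
          (LibPH.Z0 s * cexp (s * ((l - Real.log d : ℝ) : ℂ))) =
        -(LibPH.Z0 s * cexp (s * (l : ℂ)) * (3 * ∑ d ∈ m.divisors, (Nat.totient d : ℂ) / d *
          cexp (-(s * ((Real.log d : ℝ) : ℂ))))) := by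
      rw [Finset.mul_sum, Finset.mul_sum, ← Finset.sum_neg_distrib]
      refine Finset.sum_congr rfl fun e _ => ?_
      rw [← E_04_exp s l (Real.log e)]
      ring
    rw [h5, h6]
    ring
  have hexp : ∀ a : ℝ, AnalyticAt ℂ (fun s : ℂ => LibPH.Z0 s * cexp (s * (a : ℂ))) 0 := by
    intro a
    have h1 : Differentiable ℂ fun s : ℂ => cexp (s * (a : ℂ)) := by fun_prop
    exact (LibPH.Z0_analytic 0).mul (h1.analyticAt 0)
  have hc : ∀ (c : ℂ) (a : ℝ), AnalyticAt ℂ (fun s : ℂ => c * (LibPH.Z0 s * cexp (s * (a : ℂ)))) 0 :=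
    fun c a => analyticAt_const.mul (hexp a)
  have a1 : AnalyticAt ℂ (fun s : ℂ => ∑ e ∈ m.divisors, (3 * (((ArithmeticFunction.moebius e : ℤ) : ℂ) *
          ((m / e).divisors.card : ℂ) / e)) *
            (LibPH.Z0 s * cexp (s * ((l - Real.log m - Real.log e : ℝ) : ℂ)))) 0 :=
    Finset.analyticAt_fun_sum _ fun e _ => hc _ _
  have a2 : AnalyticAt ℂ (fun s : ℂ => ∑ d ∈ m.divisors, (-3 * ((Nat.totient d : ℂ) / d)) *
          (LibPH.Z0 s * cexp (s * ((l - Real.log d : ℝ) : ℂ)))) 0 :=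
    Finset.analyticAt_fun_sum _ fun e _ => hc _ _
  have a3 : AnalyticAt ℂ (fun s : ℂ => (hh m : ℂ) * (LibPH.Z0 s * cexp (s * (l : ℂ)))) 0 := hc _ _
  have a23 : AnalyticAt ℂ (fun s : ℂ => (∑ d ∈ m.divisors, (-3 * ((Nat.totient d : ℂ) / d)) *
          (LibPH.Z0 s * cexp (s * ((l - Real.log d : ℝ) : ℂ)))) +
          (hh m : ℂ) * (LibPH.Z0 s * cexp (s * (l : ℂ)))) 0 := a2.add a3
  have a123 : AnalyticAt ℂ (fun s : ℂ => (∑ e ∈ m.divisors, (3 * (((ArithmeticFunction.moebius e : ℤ) : ℂ) *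
          ((m / e).divisors.card : ℂ) / e)) *
            (LibPH.Z0 s * cexp (s * ((l - Real.log m - Real.log e : ℝ) : ℂ)))) +
        ((∑ d ∈ m.divisors, (-3 * ((Nat.totient d : ℂ) / d)) *
          (LibPH.Z0 s * cexp (s * ((l - Real.log d : ℝ) : ℂ)))) +
          (hh m : ℂ) * (LibPH.Z0 s * cexp (s * (l : ℂ))))) 0 := a1.add a23
  rw [hfun, ← hl, ← hK, LibPH.C2_const_mul K a123, LibPH.C2_add a1 a23, LibPH.C2_add a2 a3,
    LibPH.C2_sum _ _ fun e _ => hc _ _, LibPH.C2_sum _ _ fun e _ => hc _ _,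
    LibPH.C2_const_mul _ (hexp l)]
  congr 1
  have b1 : ∑ e ∈ m.divisors, LibPH.C2 (fun s => (3 * (((ArithmeticFunction.moebius e : ℤ) : ℂ) *
          ((m / e).divisors.card : ℂ) / e)) *
            (LibPH.Z0 s * cexp (s * ((l - Real.log m - Real.log e : ℝ) : ℂ)))) =
      3 * ∑ e ∈ m.divisors, ((ArithmeticFunction.moebius e : ℤ) : ℂ) * ((m / e).divisors.card : ℂ) / e *
        pz (l - Real.log m - Real.log e) := by
    rw [Finset.mul_sum]
    refine Finset.sum_congr rfl fun e _ => ?_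
    rw [LibPH.C2_const_mul _ (hexp _)]
    unfold pz
    ring
  have b2 : ∑ d ∈ m.divisors, LibPH.C2 (fun s => (-3 * ((Nat.totient d : ℂ) / d)) *
          (LibPH.Z0 s * cexp (s * ((l - Real.log d : ℝ) : ℂ)))) =
      -(3 * ∑ d ∈ m.divisors, (Nat.totient d : ℂ) / d * pz (l - Real.log d)) := by
    rw [Finset.mul_sum, ← Finset.sum_neg_distrib]
    refine Finset.sum_congr rfl fun e _ => ?_
    rw [LibPH.C2_const_mul _ (hexp _)]
    unfold pz
    ring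
  rw [b1, b2]
  unfold MT
  have b3 : LibPH.C2 (fun s => LibPH.Z0 s * cexp (s * (l : ℂ))) = pz l := rfl
  rw [b3]
  ring

end Pool.Agent.LibSM47.EH
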