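import Pool.Agent.LibSM47.E_02
import Pool.Agent.LibSM47.E_04

/-! ROW E_05: comparison of the main value with its leading part. -/

set_option autoImplicit false

namespace Pool.Agent.LibSM47.EH

open Complex

theorem E_05_lin (a : ℝ) : ‖pz a - ((a ^ 2 / 2 : ℝ) : ℂ)‖ ≤
    |a| * ‖deriv LibPH.Z0 0‖ + ‖LibPH.C2 LibPH.Z0‖ := by
  have h : pz a - ((a ^ 2 / 2 : ℝ) : ℂ) = (a : ℂ) * deriv LibPH.Z0 0 + LibPH.C2 LibPH.Z0 := by
    rw [pz_eq]
    push_cast
    ring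
  rw [h]
  refine (norm_add_le _ _).trans ?_
  rw [norm_mul, Complex.norm_real, Real.norm_eq_abs]

theorem E_05_shift {b x L B : ℝ} (hL : 1 ≤ L) (hb : |b| ≤ B * L) (hx : 0 ≤ x) (hxL : x ≤ L) :
    ‖pz (b - x) - ((b ^ 2 / 2 : ℝ) : ℂ)‖ ≤
      (B + 1 + (B + 1) * ‖deriv LibPH.Z0 0‖ + ‖LibPH.C2 LibPH.Z0‖) * (L * (1 + x ^ 2)) := by
  have h1 : pz (b - x) - ((b ^ 2 / 2 : ℝ) : ℂ) = (pz (b - x) - (((b - x) ^ 2 / 2 : ℝ) : ℂ)) +
      ((-(b * x) + x ^ 2 / 2 : ℝ) : ℂ) := by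
    push_cast
    ring
  have h2 := E_05_lin (b - x)
  have h3 : ‖((-(b * x) + x ^ 2 / 2 : ℝ) : ℂ)‖ ≤ (B + 1) * (L * (1 + x ^ 2)) := by
    rw [Complex.norm_real, Real.norm_eq_abs]
    have hB : 0 ≤ B * L := (abs_nonneg b).trans hb
    have h4 : |(-(b * x) + x ^ 2 / 2)| ≤ |b| * x + x ^ 2 / 2 := by
      refine (abs_add_le _ _).trans ?_
      rw [abs_neg, abs_mul, abs_of_nonneg hx, abs_of_nonneg (by positivity : 0 ≤ x ^ 2 / 2)]
    have h5 : |b| * x ≤ B * L * (1 + x ^ 2) := by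
      refine mul_le_mul hb ?_ hx hB
      nlinarith [sq_nonneg (x - 1)]
    have h6 : x ^ 2 / 2 ≤ L * (1 + x ^ 2) := by
      have : 1 * (1 + x ^ 2) ≤ L * (1 + x ^ 2) := mul_le_mul_of_nonneg_right hL (by positivity)
      nlinarith [sq_nonneg x]
    calc _ ≤ |b| * x + x ^ 2 / 2 := h4
      _ ≤ B * L * (1 + x ^ 2) + L * (1 + x ^ 2) := add_le_add h5 h6
      _ = _ := by ring
  have hc1 : 0 ≤ ‖deriv LibPH.Z0 0‖ := norm_nonneg _
  have hc2 : 0 ≤ ‖LibPH.C2 LibPH.Z0‖ := norm_nonneg _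
  have h7 : |b - x| ≤ (B + 1) * (L * (1 + x ^ 2)) := by
    have h8 : |b - x| ≤ |b| + x := by
      have := abs_sub b x
      rw [abs_of_nonneg hx] at this
      exact this
    have h9 : (B + 1) * L ≤ (B + 1) * L * (1 + x ^ 2) := by
      apply le_mul_of_one_le_right
      · have hB : 0 ≤ B * L := (abs_nonneg b).trans hb
        nlinarith
      · nlinarith [sq_nonneg x]
    calc |b - x| ≤ |b| + x := h8
      _ ≤ B * L + L := add_le_add hb hxL
      _ = (B + 1) * L := by ring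
      _ ≤ (B + 1) * L * (1 + x ^ 2) := h9
      _ = _ := by ring
  have h10 : 1 ≤ L * (1 + x ^ 2) := by
    have : 1 * (1 + x ^ 2) ≤ L * (1 + x ^ 2) := mul_le_mul_of_nonneg_right hL (by positivity)
    nlinarith [sq_nonneg x]
  rw [h1]
  refine (norm_add_le _ _).trans ?_
  have h11 : |b - x| * ‖deriv LibPH.Z0 0‖ ≤ (B + 1) * (L * (1 + x ^ 2)) * ‖deriv LibPH.Z0 0‖ :=
    mul_le_mul_of_nonneg_right h7 hc1
  have h12 : ‖LibPH.C2 LibPH.Z0‖ * 1 ≤ ‖LibPH.C2 LibPH.Z0‖ * (L * (1 + x ^ 2)) :=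
    mul_le_mul_of_nonneg_left h10 hc2
  calc _ ≤ ((B + 1) * (L * (1 + x ^ 2)) * ‖deriv LibPH.Z0 0‖ +
        ‖LibPH.C2 LibPH.Z0‖ * (L * (1 + x ^ 2))) + (B + 1) * (L * (1 + x ^ 2)) := by linarith
    _ = _ := by ring

/-- `pz_eq`, `sum_mu_div`, `card_le_errS`, `sum_div_le_errS`, `hh_le_card`. With `l = lam + log m - log n`:
`pz (l - log m - log k) = (l - log m)²/2 + O(L (1 + log² k))`, `pz (l - log d) = (l - log d)²/2 + O(L)`, `pz l = l²/2 + O(L)`. -/
theorem MT_le (A : ℝ) : ∃ C : ℝ, 0 < C ∧ ∀ m n : ℕ, 1 ≤ m → 1 ≤ n → ∀ lam L : ℝ, 1 ≤ L → |lam| ≤ A * L →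
    Real.log m ≤ L → Real.log n ≤ L →
    ‖MT m (lam + Real.log m - Real.log n) - ((mainS m (lam + Real.log m - Real.log n) : ℝ) : ℂ)‖ ≤ C * (L * errS m) := by
  obtain ⟨c1, hc1⟩ : ∃ c1 : ℝ, c1 = ‖deriv LibPH.Z0 0‖ := ⟨_, rfl⟩
  obtain ⟨c2, hc2⟩ : ∃ c2 : ℝ, c2 = ‖LibPH.C2 LibPH.Z0‖ := ⟨_, rfl⟩
  have hc10 : 0 ≤ c1 := by rw [hc1]; exact norm_nonneg _
  have hc20 : 0 ≤ c2 := by rw [hc2]; exact norm_nonneg _
  by_cases hA : 0 ≤ A
  swap
  · refine ⟨1, one_pos, fun m n hm hn lam L hL hlam _ _ => ?_⟩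
    exfalso
    have h1 := abs_nonneg lam
    have h2 : A * L < 0 := mul_neg_of_neg_of_pos (not_le.1 hA) (by linarith)
    linarith
  obtain ⟨K, hK⟩ : ∃ K : ℝ, K = (A + 1) + 1 + ((A + 1) + 1) * c1 + c2 := ⟨_, rfl⟩
  obtain ⟨K', hK'⟩ : ∃ K' : ℝ, K' = (A + 3) * c1 + c2 := ⟨_, rfl⟩
  have hK0 : 0 < K := by rw [hK]; positivity
  have hK'0 : 0 ≤ K' := by rw [hK']; positivity
  refine ⟨3 * K + 4 * K', by positivity, fun m n hm hn lam L hL hlam hmL hnL => ?_⟩
  obtain ⟨l, hl⟩ : ∃ l : ℝ, l = lam + Real.log m - Real.log n := ⟨_, rfl⟩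
  rw [← hl]
  have hlm : 0 ≤ Real.log m := Real.log_natCast_nonneg m
  have hln : 0 ≤ Real.log n := Real.log_natCast_nonneg n
  have hla := abs_le.1 hlam
  have hcard := card_le_errS m hm
  have hhc := hh_le_card m
  have hh0 := hh_nonneg m
  have hE1 := one_le_errS m hm
  -- the logarithms of divisors
  have hlog : ∀ e ∈ m.divisors, 0 ≤ Real.log e ∧ Real.log e ≤ L := by
    intro e he
    have h1 : 1 ≤ e := LibPH.x12a_pos he
    refine ⟨Real.log_natCast_nonneg e, le_trans ?_ hmL⟩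
    apply Real.log_le_log
    · exact_mod_cast h1
    · exact_mod_cast Nat.divisor_le he
  -- first sum
  have hb : |l - Real.log m| ≤ (A + 1) * L := by
    rw [hl, abs_le]
    constructor <;> nlinarith
  have t1 : ‖∑ e ∈ m.divisors, ((ArithmeticFunction.moebius e : ℤ) : ℂ) * ((m / e).divisors.card : ℂ) / e *
      (pz (l - Real.log m - Real.log e) - (((l - Real.log m) ^ 2 / 2 : ℝ) : ℂ))‖ ≤
      K * L * errS m := by
    have h1 : ∀ e ∈ m.divisors, ‖((ArithmeticFunction.moebius e : ℤ) : ℂ) *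
      ((m / e).divisors.card : ℂ) / e *
      (pz (l - Real.log m - Real.log e) - (((l - Real.log m) ^ 2 / 2 : ℝ) : ℂ))‖ ≤
      K * L * (((m / e).divisors.card : ℝ) / e * (1 + (Real.log e) ^ 2)) := by
      intro e he
      obtain ⟨h2, h3⟩ := hlog e he
      have h4 := E_05_shift hL hb h2 h3
      rw [← hc1, ← hc2, ← hK] at h4
      have h5 : ‖((ArithmeticFunction.moebius e : ℤ) : ℂ) * ((m / e).divisors.card : ℂ) / e‖ ≤
          ((m / e).divisors.card : ℝ) / e := by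
        rw [norm_div, norm_mul, Complex.norm_intCast, Complex.norm_natCast, Complex.norm_natCast]
        have h6 : |((ArithmeticFunction.moebius e : ℤ) : ℝ)| ≤ 1 := by
          have := ArithmeticFunction.abs_moebius_le_one (n := e)
          exact_mod_cast this
        apply div_le_div_of_nonneg_right _ (Nat.cast_nonneg _)
        calc |((ArithmeticFunction.moebius e : ℤ) : ℝ)| * ((m / e).divisors.card : ℝ)
            ≤ 1 * ((m / e).divisors.card : ℝ) :=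
              mul_le_mul_of_nonneg_right h6 (Nat.cast_nonneg _)
          _ = _ := one_mul _
      rw [norm_mul]
      calc _ ≤ ((m / e).divisors.card : ℝ) / e * (K * (L * (1 + (Real.log e) ^ 2))) :=
            mul_le_mul h5 h4 (norm_nonneg _) (by positivity)
        _ = _ := by ring
    refine (norm_sum_le_of_le _ h1).trans (le_of_eq ?_)
    rw [← Finset.mul_sum]
    rfl
  -- second sum
  have hlin : ∀ a : ℝ, |a| ≤ (A + 3) * L → ‖pz a - ((a ^ 2 / 2 : ℝ) : ℂ)‖ ≤ K' * L := by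
    intro a ha
    have h1 := E_05_lin a
    rw [← hc1, ← hc2] at h1
    have h2 : |a| * c1 ≤ (A + 3) * L * c1 := mul_le_mul_of_nonneg_right ha hc10
    have h3 : c2 * 1 ≤ c2 * L := mul_le_mul_of_nonneg_left hL hc20
    calc _ ≤ |a| * c1 + c2 := h1
      _ ≤ (A + 3) * L * c1 + c2 * L := by linarith
      _ = K' * L := by rw [hK']; ring
  have t2 : ‖∑ d ∈ m.divisors, (Nat.totient d : ℂ) / d *
      (pz (l - Real.log d) - (((l - Real.log d) ^ 2 / 2 : ℝ) : ℂ))‖ ≤ hh m * (K' * L) := by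
    have h1 : ∀ d ∈ m.divisors, ‖(Nat.totient d : ℂ) / d *
      (pz (l - Real.log d) - (((l - Real.log d) ^ 2 / 2 : ℝ) : ℂ))‖ ≤
      (Nat.totient d : ℝ) / d * (K' * L) := by
      intro d hd
      obtain ⟨h2, h3⟩ := hlog d hd
      have h4 : |l - Real.log d| ≤ (A + 3) * L := by
        rw [hl, abs_le]
        constructor <;> nlinarith
      rw [norm_mul, norm_div, Complex.norm_natCast, Complex.norm_natCast]
      exact mul_le_mul_of_nonneg_left (hlin _ h4) (by positivity)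
    refine (norm_sum_le_of_le _ h1).trans (le_of_eq ?_)
    rw [← Finset.sum_mul]
    rfl
  -- third part
  have t3 : ‖(hh m : ℂ) * (pz l - ((l ^ 2 / 2 : ℝ) : ℂ))‖ ≤ hh m * (K' * L) := by
    have h4 : |l| ≤ (A + 3) * L := by
      rw [hl, abs_le]
      constructor <;> nlinarith
    rw [norm_mul, Complex.norm_real, Real.norm_of_nonneg hh0]
    exact mul_le_mul_of_nonneg_left (hlin _ h4) hh0
  -- the identity
  have hmu : ∑ e ∈ m.divisors, ((ArithmeticFunction.moebius e : ℤ) : ℂ) * ((m / e).divisors.card : ℂ) / e =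
      (hh m : ℂ) := by
    rw [← sum_mu_div m hm, Complex.ofReal_sum]
    refine Finset.sum_congr rfl fun e _ => ?_
    push_cast
    rfl
  have hhs : ((hh m : ℝ) : ℂ) = ∑ d ∈ m.divisors, (Nat.totient d : ℂ) / d := by
    unfold hh
    rw [Complex.ofReal_sum]
    refine Finset.sum_congr rfl fun e _ => ?_
    push_cast
    rfl
  have hS : ((mainS m l : ℝ) : ℂ) = 3 * ((hh m : ℂ) * (((l - Real.log m) ^ 2 / 2 : ℝ) : ℂ)) -
      3 * (∑ d ∈ m.divisors, (Nat.totient d : ℂ) / d * (((l - Real.log d) ^ 2 / 2 : ℝ) : ℂ)) +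
      (hh m : ℂ) * ((l ^ 2 / 2 : ℝ) : ℂ) := by
    unfold mainS
    rw [hhs]
    simp only [Finset.sum_mul, Finset.mul_sum]
    rw [← Finset.sum_sub_distrib, ← Finset.sum_add_distrib, Complex.ofReal_sum]
    refine Finset.sum_congr rfl fun d _ => ?_
    push_cast
    ring
  have key : MT m l - ((mainS m l : ℝ) : ℂ) =
      3 * (∑ e ∈ m.divisors, ((ArithmeticFunction.moebius e : ℤ) : ℂ) * ((m / e).divisors.card : ℂ) / e *
      (pz (l - Real.log m - Real.log e) - (((l - Real.log m) ^ 2 / 2 : ℝ) : ℂ))) -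
      3 * (∑ d ∈ m.divisors, (Nat.totient d : ℂ) / d *
      (pz (l - Real.log d) - (((l - Real.log d) ^ 2 / 2 : ℝ) : ℂ))) +
      (hh m : ℂ) * (pz l - ((l ^ 2 / 2 : ℝ) : ℂ)) := by
    have u1 : ∑ e ∈ m.divisors, ((ArithmeticFunction.moebius e : ℤ) : ℂ) * ((m / e).divisors.card : ℂ) / e *
      (pz (l - Real.log m - Real.log e) - (((l - Real.log m) ^ 2 / 2 : ℝ) : ℂ)) =
      (∑ e ∈ m.divisors, ((ArithmeticFunction.moebius e : ℤ) : ℂ) * ((m / e).divisors.card : ℂ) / e *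
      pz (l - Real.log m - Real.log e)) - (hh m : ℂ) * (((l - Real.log m) ^ 2 / 2 : ℝ) : ℂ) := by
      rw [← hmu, Finset.sum_mul, ← Finset.sum_sub_distrib]
      refine Finset.sum_congr rfl fun e _ => ?_
      ring
    have u2 : ∑ d ∈ m.divisors, (Nat.totient d : ℂ) / d *
      (pz (l - Real.log d) - (((l - Real.log d) ^ 2 / 2 : ℝ) : ℂ)) =
      (∑ d ∈ m.divisors, (Nat.totient d : ℂ) / d * pz (l - Real.log d)) -
      ∑ d ∈ m.divisors, (Nat.totient d : ℂ) / d * (((l - Real.log d) ^ 2 / 2 : ℝ) : ℂ) := by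
      rw [← Finset.sum_sub_distrib]
      refine Finset.sum_congr rfl fun e _ => ?_
      ring
    rw [u1, u2, hS]
    unfold MT
    ring
  have n3 : ‖(3 : ℂ)‖ = 3 := by norm_num
  rw [key]
  have v1 : hh m * (K' * L) ≤ errS m * (K' * L) :=
    mul_le_mul_of_nonneg_right (hhc.trans hcard) (by positivity)
  calc _ ≤ 3 * ‖∑ e ∈ m.divisors, ((ArithmeticFunction.moebius e : ℤ) : ℂ) * ((m / e).divisors.card : ℂ) / e *
      (pz (l - Real.log m - Real.log e) - (((l - Real.log m) ^ 2 / 2 : ℝ) : ℂ))‖ +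
      3 * ‖∑ d ∈ m.divisors, (Nat.totient d : ℂ) / d *
      (pz (l - Real.log d) - (((l - Real.log d) ^ 2 / 2 : ℝ) : ℂ))‖ +
      ‖(hh m : ℂ) * (pz l - ((l ^ 2 / 2 : ℝ) : ℂ))‖ := by
        refine (norm_add_le _ _).trans (add_le_add ?_ le_rfl)
        refine (norm_sub_le _ _).trans (add_le_add ?_ ?_)
        · rw [norm_mul, n3]
        · rw [norm_mul, n3]
    _ ≤ 3 * (K * L * errS m) + 3 * (errS m * (K' * L)) + errS m * (K' * L) := by
        linarith
    _ = (3 * K + 4 * K') * (L * errS m) := by ring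

end Pool.Agent.LibSM47.EH
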