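import Pool.Agent.LibSM47.E_03
import Pool.Agent.LibPH.X06

/-! ROW E_06: continuity in `ξ`. -/

set_option autoImplicit false

namespace Pool.Agent.LibSM47.EH

open MeasureTheory Set Filter Topology Complex

theorem E_06_norm (T ξ t : ℝ) : ‖cexp (-(wq T ξ * t))‖ = Real.exp (-(1 / T * t)) := by
  rw [Complex.norm_exp]
  congr 1
  rw [Complex.neg_re, Complex.re_mul_ofReal, wq_re]

theorem E_06_wq_cont (T : ℝ) : Continuous (wq T) := by
  unfold wq
  fun_prop

/-- The Laplace transform is continuous in `ξ` (`continuous_of_dominated`; the bound is `‖z21 t‖ e^{-t/T}`, compare `LibPH.z21_int`). -/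
theorem lap_cont (T : ℝ) (hT : 0 < T) (m n : ℕ) :
    Continuous (fun ξ : ℝ => ∫ t in Ioi (0 : ℝ), LibPH.z21 t * LibPH.tw n m t * cexp (-(wq T ξ * t))) := by
  have hre : ∀ ξ : ℝ, 0 < (wq T ξ).re := fun ξ => by
    rw [wq_re]
    positivity
  refine continuous_of_dominated
    (bound := fun t : ℝ => ‖LibPH.z21 t * LibPH.tw n m t * cexp (-(wq T 0 * t))‖) ?_ ?_ ?_ ?_
  · intro ξ
    exact (LibPH.z21_int (hre ξ) n m).aestronglyMeasurable
  · intro ξ
    refine ae_of_all _ fun t => ?_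
    rw [norm_mul, norm_mul (LibPH.z21 t * LibPH.tw n m t), E_06_norm, E_06_norm]
  · exact (LibPH.z21_int (hre 0) n m).norm
  · refine ae_of_all _ fun t => ?_
    have h := E_06_wq_cont T
    fun_prop

theorem mom_int (T V u : ℝ) (hT : 0 < T) :
    IntegrableOn (fun ξ : ℝ => (‖wq T ξ‖ / (wq T ξ).re) ^ 8 * ‖nu T V u ξ‖) (Icc (-(1 / 4) : ℝ) (1 / 4)) := by
  have h1 := E_06_wq_cont T
  have h2 := nu_cont T V u
  have h3 : Continuous (fun ξ : ℝ => (‖wq T ξ‖ / (wq T ξ).re) ^ 8 * ‖nu T V u ξ‖) := by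
    simp only [wq_re]
    fun_prop
  exact h3.integrableOn_Icc

end Pool.Agent.LibSM47.EH
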