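import Pool.Agent.LibSM47.F_17

set_option autoImplicit false

namespace Pool.Agent.LibSM47

open MeasureTheory Set Filter Topology Complex ProbabilityTheory
open scoped NNReal ComplexConjugate
open Pool.Agent.LibZM

/-- F1. The arithmetic weak limit. -/
theorem F_limit (g : ℝ × ℝ × ℝ → ℝ) (hg : Continuous g) (hgc : HasCompactSupport g) :
    Tendsto (fun L : ℝ => (L ^ 5)⁻¹ * ∑' q : ℕ+ × ℕ+ × ℕ+,
        (if Nat.Coprime ((q.1 : ℕ) * q.2.1) q.2.2 then
          hh (q.1 * q.2.1) * (Nat.totient q.1 : ℝ) / ((q.1 : ℝ) ^ 2 * q.2.1 * q.2.2) *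
            g (Real.log q.1 / L, Real.log q.2.1 / L, Real.log q.2.2 / L) else 0)) atTop
      (𝓝 (LibZM.Aconst 3 * ∫ x in Oct, g x * (x.1 * x.2.1))) := by
  refine (FL.SL_limit g hg hgc).congr fun L => ?_
  unfold FL.SL
  congr 1
  refine tsum_congr fun q => ?_
  unfold FL.Wt
  split_ifs
  · rfl
  · simp

end Pool.Agent.LibSM47
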