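import Pool.Agent.LibSM47.R_Defs
import Pool.Agent.LibPH.X12

/-! ROW R_5 (MEDIUM, adaptation): refined form of LibPH `polar_w` (Pool/Agent/LibPH/X12.lean). Here `c = 2π n/m`.

(1) refined `x12_cpow_diff`: for `‖s‖ ≤ 1/4`, `‖θ^{-(1+s)} - (c w)^{-(1+s)}‖ ≤ C (m/n) (n/m + (m/n)/w.re)^{1/4}`, `θ = th n m w`: the same proof
(mean value on the segment; `‖z‖ ≍ c‖w‖`; `‖θ - c w‖ ≤ c ‖w‖²`), with `Q = C (n/m + (m/n)/w.re) ≥ ‖z‖ + ‖z‖⁻¹` (`‖z‖ ≤ (3/2) c ‖w‖ ≤ C n/m`,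
`‖z‖⁻¹ ≤ 2/(c‖w‖) ≤ (m/n)/w.re`) and `10/c ≤ C m/n`.
(2) `polar_w` with `‖G0 s‖ ≤ C0` (`G0_bd`) and `‖Hn m s‖ ≤ C m^{-1/2+η}` on `‖s‖ = 1/4` (hypothesis `HnRef`), `C2_le` with `r = 1/4`. -/

set_option autoImplicit false

namespace Pool.Agent.LibSM47.SR

open MeasureTheory Set Filter Topology Complex
open Pool.Agent.LibPH (C2 G0 Hn th)

theorem cpow_diff : ∃ C : ℝ, 0 < C ∧ ∀ m n : ℕ, 1 ≤ m → 1 ≤ n → ∀ w : ℂ, 0 < w.re → ‖w‖ ≤ 1 / 2 → ∀ s : ℂ, ‖s‖ ≤ 1 / 4 →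
    ‖(th n m w) ^ (-(1 + s)) - (((2 * Real.pi * n / m : ℝ) : ℂ) * w) ^ (-(1 + s))‖ ≤
      C * ((m : ℝ) / n) * ((n : ℝ) / m + (m : ℝ) / n * (1 / w.re)) ^ (1 / 4 : ℝ) := by
  refine ⟨10, by norm_num, ?_⟩
  intro m n hm hn w h0 h1 s hs
  have hm' : (1:ℝ) ≤ m := by exact_mod_cast hm
  have hn' : (1:ℝ) ≤ n := by exact_mod_cast hn
  have hm0 : (0:ℝ) < m := by linarith
  have hn0 : (0:ℝ) < n := by linarith
  have hpi3 : 3 < Real.pi := Real.pi_gt_three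
  have hpi4 : Real.pi ≤ 3.15 := by linarith [Real.pi_lt_d2]
  have hw0 : 0 < ‖w‖ := lt_of_lt_of_le h0 (Complex.re_le_norm w)
  set x : ℝ := (n : ℝ) / m with hx
  have hx0 : 0 < x := by rw [hx]; positivity
  have hxi : (m : ℝ) / n = 1 / x := by
    rw [hx]
    field_simp
  set c : ℝ := 2 * Real.pi * n / m with hc
  have hcx : c = 2 * Real.pi * x := by
    rw [hc, hx]
    ring
  have hcpos : 0 < c := by rw [hc]; positivity
  have hcw : ‖(c : ℂ) * w‖ = c * ‖w‖ := by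
    rw [norm_mul, Complex.norm_real, Real.norm_of_nonneg hcpos.le]
  set S : Set ℂ := {z : ℂ | 0 < z.re} ∩ Metric.closedBall ((c : ℂ) * w) (c * ‖w‖ / 2) with hS
  have hconv : Convex ℝ S :=
    (convex_halfSpace_re_gt 0).inter (convex_closedBall _ _)
  have hmemw : (c : ℂ) * w ∈ S := by
    refine ⟨?_, ?_⟩
    · show 0 < ((c : ℂ) * w).re
      rw [Complex.re_ofReal_mul]
      exact mul_pos hcpos h0
    · exact Metric.mem_closedBall_self (by positivity)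
  have hsub := Pool.Agent.LibPH.x12_sub n m h1
  rw [← hc] at hsub
  have hmemt : th n m w ∈ S := by
    refine ⟨?_, ?_⟩
    · show 0 < (th n m w).re
      have := (Pool.Agent.LibPH.th_bd hn hm h0 h1).1
      have h2 : 0 < (n:ℝ) / m * w.re := by positivity
      linarith
    · rw [Metric.mem_closedBall, dist_eq_norm]
      refine hsub.trans ?_
      have : ‖w‖ ^ 2 ≤ 1 / 2 * ‖w‖ := by nlinarith
      calc c * ‖w‖ ^ 2 ≤ c * (1 / 2 * ‖w‖) := by gcongr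
        _ = c * ‖w‖ / 2 := by ring
  have hnorm : ∀ z ∈ S, c * ‖w‖ / 2 ≤ ‖z‖ ∧ ‖z‖ ≤ 3 * (c * ‖w‖) / 2 := by
    intro z hz
    have h2 := hz.2
    rw [Metric.mem_closedBall, dist_eq_norm] at h2
    have h3 : ‖(c : ℂ) * w‖ ≤ ‖z‖ + ‖z - (c : ℂ) * w‖ := by
      have := norm_sub_le z (z - (c : ℂ) * w)
      rwa [sub_sub_cancel] at this
    have h4 : ‖z‖ ≤ ‖(c : ℂ) * w‖ + ‖z - (c : ℂ) * w‖ := by
      have := norm_add_le ((c : ℂ) * w) (z - (c : ℂ) * w)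
      rwa [add_sub_cancel] at this
    rw [hcw] at h3 h4
    constructor <;> linarith
  set R : ℝ := x + 1 / x * (1 / w.re) with hR
  have hR0 : 0 < R := by rw [hR]; positivity
  set Q : ℝ := 5 * R with hQ
  have hQ0 : 0 < Q := by rw [hQ]; positivity
  have hwre : w.re ≤ ‖w‖ := Complex.re_le_norm w
  have hinv : 1 / (c * ‖w‖ / 2) ≤ 1 / x * (1 / w.re) := by
    have h2 : 1 / x * (1 / w.re) = 1 / (x * w.re) := by
      field_simp
    rw [h2]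
    apply one_div_le_one_div_of_le (by positivity)
    have h3 : x * w.re ≤ x * ‖w‖ := by gcongr
    have h4 : x * ‖w‖ ≤ c * ‖w‖ / 2 := by
      rw [hcx]
      have h5 : 0 < x * ‖w‖ := by positivity
      nlinarith
    linarith
  have hZ : ∀ z ∈ S, ‖z‖ + ‖z‖⁻¹ ≤ Q := by
    intro z hz
    obtain ⟨h2, h3⟩ := hnorm z hz
    have hz0 : 0 < ‖z‖ := lt_of_lt_of_le (by positivity) h2
    have h4 : ‖z‖⁻¹ ≤ 1 / x * (1 / w.re) := by
      refine le_trans ?_ hinv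
      rw [← one_div]
      exact one_div_le_one_div_of_le (by positivity) h2
    have h5 : ‖z‖ ≤ 5 * x := by
      refine h3.trans ?_
      rw [hcx]
      have h6 : x * ‖w‖ ≤ x * (1 / 2) := by gcongr
      nlinarith
    have h6 : 0 < 1 / x * (1 / w.re) := by positivity
    rw [hQ, hR]
    linarith
  have hderiv : ∀ z ∈ S, HasDerivWithinAt (fun z : ℂ => z ^ (-(1 + s)))
      (-(1 + s) * z ^ (-(1 + s) - 1) * 1) S z := by
    intro z hz
    have hzs : z ∈ Complex.slitPlane := Or.inl hz.1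
    exact ((hasDerivAt_id z).cpow_const hzs).hasDerivWithinAt
  have hbound : ∀ z ∈ S, ‖-(1 + s) * z ^ (-(1 + s) - 1) * 1‖ ≤ 10 / (c * ‖w‖) ^ 2 * Q ^ (1/4 : ℝ) := by
    intro z hz
    obtain ⟨h2, h3⟩ := hnorm z hz
    have hz0 : 0 < ‖z‖ := lt_of_lt_of_le (by positivity) h2
    have hzne : z ≠ 0 := norm_pos_iff.1 hz0
    have h4 : ‖z ^ (-(1 + s) - 1)‖ ≤ 2 * ‖z‖⁻¹ * Q ^ (1/4 : ℝ) * ‖z‖⁻¹ := by
      rw [Complex.cpow_sub _ _ hzne, Complex.cpow_one, norm_div, div_eq_mul_inv]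
      apply mul_le_mul_of_nonneg_right _ (by positivity)
      refine (Pool.Agent.LibPH.cpow_bd hz.1 hs).trans ?_
      apply mul_le_mul_of_nonneg_left _ (by positivity)
      exact Real.rpow_le_rpow (by positivity) (hZ z hz) (by norm_num)
    have h5 : ‖-(1 + s)‖ ≤ 5 / 4 := by
      rw [norm_neg]
      have := norm_add_le (1:ℂ) s
      rw [norm_one] at this
      linarith
    have h6 : ‖z‖⁻¹ ≤ 2 / (c * ‖w‖) := by
      have : 2 / (c * ‖w‖) = 1 / (c * ‖w‖ / 2) := by field_simp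
      rw [this, ← one_div]
      exact one_div_le_one_div_of_le (by positivity) h2
    have hQp : 0 ≤ Q ^ (1/4 : ℝ) := by positivity
    rw [mul_one, norm_mul]
    calc ‖-(1 + s)‖ * ‖z ^ (-(1 + s) - 1)‖ ≤ 5 / 4 * (2 * ‖z‖⁻¹ * Q ^ (1/4 : ℝ) * ‖z‖⁻¹) := by
          apply mul_le_mul h5 h4 (norm_nonneg _) (by norm_num)
      _ = 5 / 2 * (‖z‖⁻¹) ^ 2 * Q ^ (1/4 : ℝ) := by ring
      _ ≤ 5 / 2 * (2 / (c * ‖w‖)) ^ 2 * Q ^ (1/4 : ℝ) := by gcongr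
      _ = 10 / (c * ‖w‖) ^ 2 * Q ^ (1/4 : ℝ) := by
          field_simp
          norm_num
  have hmv := hconv.norm_image_sub_le_of_norm_hasDerivWithin_le hderiv hbound hmemw hmemt
  refine hmv.trans ?_
  have hQ4 : Q ^ (1/4 : ℝ) ≤ 5 * R ^ (1/4 : ℝ) := by
    rw [hQ, Real.mul_rpow (by norm_num) hR0.le]
    apply mul_le_mul_of_nonneg_right _ (by positivity)
    calc (5:ℝ) ^ (1/4 : ℝ) ≤ (5:ℝ) ^ (1 : ℝ) :=
          Real.rpow_le_rpow_of_exponent_le (by norm_num) (by norm_num)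
      _ = _ := Real.rpow_one _
  have hc10 : 10 / c ≤ 2 * (1 / x) := by
    rw [hcx, div_le_iff₀ (by positivity)]
    have : 2 * (1 / x) * (2 * Real.pi * x) = 4 * Real.pi := by
      field_simp
      ring
    rw [this]
    linarith
  rw [hxi, ← hR]
  calc 10 / (c * ‖w‖) ^ 2 * Q ^ (1/4 : ℝ) * ‖th n m w - (c : ℂ) * w‖
      ≤ 10 / (c * ‖w‖) ^ 2 * Q ^ (1/4 : ℝ) * (c * ‖w‖ ^ 2) := by
        apply mul_le_mul_of_nonneg_left hsub
        positivity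
    _ = 10 / c * Q ^ (1/4 : ℝ) := by
        field_simp
    _ ≤ 2 * (1 / x) * (5 * R ^ (1/4 : ℝ)) := by
        apply mul_le_mul hc10 hQ4 (by positivity) (by positivity)
    _ = 10 * (1 / x) * R ^ (1 / 4 : ℝ) := by ring

theorem polar_w_ref (η : ℝ) (hH : HnRef η) : ∃ C : ℝ, 0 < C ∧ ∀ m n : ℕ, 1 ≤ m → 1 ≤ n → ∀ w : ℂ, 0 < w.re → ‖w‖ ≤ 1 / 2 →
    ‖C2 (fun s => G0 s * Hn m s * (th n m w) ^ (-(1 + s))) -
      C2 (fun s => G0 s * Hn m s * (((2 * Real.pi * n / m : ℝ) : ℂ) * w) ^ (-(1 + s)))‖ ≤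
      C * (m : ℝ) ^ (-(1 / 2) + η) * (((m : ℝ) / n) * ((n : ℝ) / m + (m : ℝ) / n * (1 / w.re)) ^ (1 / 4 : ℝ)) := by
  obtain ⟨C0, hC0, hG⟩ := Pool.Agent.LibPH.G0_bd
  obtain ⟨C1, hC1, hHn⟩ := hH
  obtain ⟨C3, hC3, hcp⟩ := cpow_diff
  refine ⟨16 * C0 * C1 * C3, by positivity, ?_⟩
  intro m n hm hn w h0 h1
  have hm' : (1:ℝ) ≤ m := by exact_mod_cast hm
  have hn' : (1:ℝ) ≤ n := by exact_mod_cast hn
  have hcpos : 0 < 2 * Real.pi * n / m := by positivity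
  have hthre : 0 < (th n m w).re := by
    have := (Pool.Agent.LibPH.th_bd hn hm h0 h1).1
    have h2 : 0 < (n:ℝ) / m * w.re := by positivity
    linarith
  have hcwre : 0 < (((2 * Real.pi * n / m : ℝ) : ℂ) * w).re := by
    rw [Complex.re_ofReal_mul]
    exact mul_pos hcpos h0
  have hpow : ∀ z : ℂ, 0 < z.re → ∀ s : ℂ, AnalyticAt ℂ (fun s : ℂ => z ^ (-(1 + s))) s := by
    intro z hz s
    exact AnalyticAt.cpow analyticAt_const ((analyticAt_const.add analyticAt_id).neg) (Or.inl hz)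
  have hana : ∀ z : ℂ, 0 < z.re → ∀ s : ℂ, ‖s‖ ≤ 1/4 →
      AnalyticAt ℂ (fun s => G0 s * Hn m s * z ^ (-(1 + s))) s := by
    intro z hz s hs
    exact ((Pool.Agent.LibPH.G0_analytic (by linarith)).mul
      (Pool.Agent.LibPH.Hn_analytic hm s)).mul (hpow z hz s)
  have h00 : ‖(0:ℂ)‖ ≤ 1/4 := by rw [norm_zero]; norm_num
  have hdiff : C2 (fun s => G0 s * Hn m s * (th n m w) ^ (-(1 + s))) -
      C2 (fun s => G0 s * Hn m s * (((2 * Real.pi * n / m : ℝ) : ℂ) * w) ^ (-(1 + s))) =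
      C2 (fun s => G0 s * Hn m s * (th n m w) ^ (-(1 + s)) +
        (-1) * (G0 s * Hn m s * (((2 * Real.pi * n / m : ℝ) : ℂ) * w) ^ (-(1 + s)))) := by
    have e1 := Pool.Agent.LibPH.C2_add (f := fun s => G0 s * Hn m s * (th n m w) ^ (-(1 + s)))
      (g := fun s => (-1) * (G0 s * Hn m s * (((2 * Real.pi * n / m : ℝ) : ℂ) * w) ^ (-(1 + s))))
      (hana _ hthre 0 h00) (analyticAt_const.mul (hana _ hcwre 0 h00))
    have e2 := Pool.Agent.LibPH.C2_const_mul (-1)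
      (f := fun s => G0 s * Hn m s * (((2 * Real.pi * n / m : ℝ) : ℂ) * w) ^ (-(1 + s)))
      (hana _ hcwre 0 h00)
    rw [e1, e2]
    ring
  rw [hdiff]
  set A : ℝ := ((n : ℝ) / m + (m : ℝ) / n * (1 / w.re)) ^ (1 / 4 : ℝ) with hA
  have hA0 : 0 ≤ A := by
    rw [hA]
    positivity
  have hle := Pool.Agent.LibPH.C2_le (f := fun s => G0 s * Hn m s * (th n m w) ^ (-(1 + s)) +
        (-1) * (G0 s * Hn m s * (((2 * Real.pi * n / m : ℝ) : ℂ) * w) ^ (-(1 + s))))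
    (r := 1/4) (M := C0 * (C1 * (m : ℝ) ^ (-(1 / 2) + η)) * (C3 * ((m : ℝ) / n) * A)) (by norm_num)
    (fun s hs => (hana _ hthre s hs).add (analyticAt_const.mul (hana _ hcwre s hs)))
    (by
      intro s hs
      have h2 : G0 s * Hn m s * (th n m w) ^ (-(1 + s)) +
        (-1) * (G0 s * Hn m s * (((2 * Real.pi * n / m : ℝ) : ℂ) * w) ^ (-(1 + s))) =
        G0 s * Hn m s * ((th n m w) ^ (-(1 + s)) -
          (((2 * Real.pi * n / m : ℝ) : ℂ) * w) ^ (-(1 + s))) := by ring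
      rw [h2, norm_mul, norm_mul]
      have h3 := (hG s hs.le).1
      have h4 := hHn m hm s hs.le
      rw [hs, show -1 + 2 * (1 / 4 : ℝ) + η = -(1 / 2) + η by ring] at h4
      have h5 := hcp m n hm hn w h0 h1 s hs.le
      gcongr)
  refine hle.trans (le_of_eq ?_)
  ring

end Pool.Agent.LibSM47.SR
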