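import Pool.Agent.LibSM47.R_Defs
import Pool.Agent.LibPH.X13

/-! ROW R_6 (SHORT/MEDIUM, adaptation): the two remaining polar bounds. Templates: `x13_P` and `x13_Kbd` in Pool/Agent/LibPH/X13.lean.

P_part: `P3_bound`: `‖P3 z‖ ≤ C ‖z‖⁻¹ (‖z‖ + ‖z‖⁻¹)^{1/4}`, `z = zw n m w`, `‖z‖ = (2πn/m) e^{Im w}` lies between `n/m` and `20 n/m`
(and `e^{±1/2}` between 1/2 and 2).
K_part: `C2_le` with `r = 1/4`, `‖G0 s‖ ≤ C0`, `‖Hn m s‖ ≤ C m^{-1/2+η}` (hypothesis), `cpow_bd` for `z = c w`, `c = 2πn/m`: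
`‖z^{-(1+s)}‖ ≤ 2 ‖z‖⁻¹ (‖z‖+‖z‖⁻¹)^{1/4}`, `‖z‖⁻¹ ≤ (m/n) ‖w‖⁻¹`, `‖z‖ ≤ 4 n/m`, `‖z‖⁻¹ ≤ (m/n)/w.re`. -/

set_option autoImplicit false

namespace Pool.Agent.LibSM47.SR

open MeasureTheory Set Filter Topology Complex
open Pool.Agent.LibPH (C2 G0 Hn P3 zw)

private theorem r6_rpow {k Q : ℝ} (hk : 1 ≤ k) (hQ : 0 ≤ Q) :
    (k * Q) ^ (1 / 4 : ℝ) ≤ k * Q ^ (1 / 4 : ℝ) := by
  rw [Real.mul_rpow (by linarith) hQ]
  refine mul_le_mul_of_nonneg_right ?_ (by positivity)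
  calc k ^ (1 / 4 : ℝ) ≤ k ^ (1 : ℝ) := Real.rpow_le_rpow_of_exponent_le hk (by norm_num)
    _ = k := Real.rpow_one _

theorem P_part : ∃ C : ℝ, 0 < C ∧ ∀ m n : ℕ, 1 ≤ m → 1 ≤ n → ∀ w : ℂ, 0 < w.re → ‖w‖ ≤ 1 / 2 →
    ‖P3 (zw n m w)‖ ≤ C * (((m : ℝ) / n) * ((n : ℝ) / m + (m : ℝ) / n * 1) ^ (1 / 4 : ℝ)) := by
  obtain ⟨C4, hC4, hP⟩ := Pool.Agent.LibPH.P3_bound
  refine ⟨13 * C4, by positivity, ?_⟩
  intro m n hm hn w h0 h1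
  have hm' : (1:ℝ) ≤ m := by exact_mod_cast hm
  have hn' : (1:ℝ) ≤ n := by exact_mod_cast hn
  have hpi3 : 3 < Real.pi := Real.pi_gt_three
  have hpi4 : Real.pi ≤ 3.15 := by linarith [Real.pi_lt_d2]
  have hcpos : 0 < 2 * Real.pi * n / m := by positivity
  have hP' := hP (zw n m w) (Pool.Agent.LibPH.zw_re hn hm h0 h1)
  have hz : ‖zw n m w‖ = (2 * Real.pi * n / m) * Real.exp w.im := by
    unfold zw
    rw [norm_mul, norm_mul, norm_I, one_mul, Complex.norm_real, Real.norm_of_nonneg hcpos.le,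
      Complex.norm_exp]
    congr 2
    simp
  refine hP'.trans ?_
  clear hP'
  have him : |w.im| ≤ ‖w‖ := Complex.abs_im_le_norm w
  rw [abs_le] at him
  have hel : 1 / 2 ≤ Real.exp w.im := by
    have := Real.add_one_le_exp w.im
    linarith
  have heu : Real.exp w.im ≤ 2 := by
    have h2 := Real.exp_bound_div_one_sub_of_interval (x := 1/2) (by norm_num) (by norm_num)
    have h3 : Real.exp w.im ≤ Real.exp (1/2) := Real.exp_le_exp.2 (by linarith)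
    norm_num at h2
    linarith
  obtain ⟨u, hu⟩ : ∃ u : ℝ, u = (n : ℝ) / m := ⟨_, rfl⟩
  have hu0 : 0 < u := by rw [hu]; positivity
  have hmn : (m : ℝ) / n = u⁻¹ := by rw [hu, inv_div]
  have hc : 2 * Real.pi * n / m = 2 * Real.pi * u := by rw [hu]; ring
  rw [hc] at hz
  rw [hmn, ← hu, mul_one]
  have hzu : ‖zw n m w‖ ≤ 13 * u := by
    rw [hz]
    calc 2 * Real.pi * u * Real.exp w.im ≤ (6.3 * u) * 2 :=
          mul_le_mul (by nlinarith) heu (Real.exp_pos _).le (by positivity)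
      _ ≤ 13 * u := by linarith
  have hzpos : 0 < ‖zw n m w‖ := by rw [hz]; positivity
  have hzl : ‖zw n m w‖⁻¹ ≤ u⁻¹ := by
    refine inv_anti₀ hu0 ?_
    rw [hz]
    have h3 : 6 * u * (1 / 2) ≤ 2 * Real.pi * u * Real.exp w.im :=
      mul_le_mul (by nlinarith) hel (by norm_num) (by positivity)
    linarith
  have hu1 : 0 < u⁻¹ := by positivity
  have h6 : (‖zw n m w‖ + ‖zw n m w‖⁻¹) ^ (1/4 : ℝ) ≤ 13 * (u + u⁻¹) ^ (1/4 : ℝ) := by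
    calc (‖zw n m w‖ + ‖zw n m w‖⁻¹) ^ (1/4 : ℝ) ≤ (13 * (u + u⁻¹)) ^ (1/4 : ℝ) :=
          Real.rpow_le_rpow (by positivity) (by linarith) (by norm_num)
      _ ≤ 13 * (u + u⁻¹) ^ (1/4 : ℝ) := r6_rpow (by norm_num) (by positivity)
  calc C4 * ‖zw n m w‖⁻¹ * (‖zw n m w‖ + ‖zw n m w‖⁻¹) ^ (1/4 : ℝ)
      ≤ C4 * u⁻¹ * (13 * (u + u⁻¹) ^ (1/4 : ℝ)) := by
        refine mul_le_mul (mul_le_mul_of_nonneg_left hzl hC4.le) h6 ?_ (by positivity)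
        exact Real.rpow_nonneg (by positivity) _
    _ = _ := by ring

theorem K_part (η : ℝ) (hH : HnRef η) : ∃ C : ℝ, 0 < C ∧ ∀ m n : ℕ, 1 ≤ m → 1 ≤ n → ∀ w : ℂ, 0 < w.re → ‖w‖ ≤ 1 / 2 →
    ‖C2 (fun s => G0 s * Hn m s * (((2 * Real.pi * n / m : ℝ) : ℂ) * w) ^ (-(1 + s)))‖ ≤
      C * (m : ℝ) ^ (-(1 / 2) + η) * (((m : ℝ) / n) * ((n : ℝ) / m + (m : ℝ) / n * (1 / w.re)) ^ (1 / 4 : ℝ)) * ‖w‖⁻¹ := by
  obtain ⟨C0, hC0, hG⟩ := Pool.Agent.LibPH.G0_bd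
  obtain ⟨CH, hCH, hHn⟩ := hH
  refine ⟨128 * C0 * CH, by positivity, ?_⟩
  intro m n hm hn w h0 h1
  have hm' : (1:ℝ) ≤ m := by exact_mod_cast hm
  have hn' : (1:ℝ) ≤ n := by exact_mod_cast hn
  have hpi3 : 3 < Real.pi := Real.pi_gt_three
  have hpi4 : Real.pi ≤ 3.15 := by linarith [Real.pi_lt_d2]
  have hw0 : 0 < ‖w‖ := lt_of_lt_of_le h0 (Complex.re_le_norm w)
  have hwre : w.re ≤ ‖w‖ := Complex.re_le_norm w
  obtain ⟨c, hc⟩ : ∃ c : ℝ, c = 2 * Real.pi * n / m := ⟨_, rfl⟩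
  obtain ⟨u, hu⟩ : ∃ u : ℝ, u = (n : ℝ) / m := ⟨_, rfl⟩
  have hu0 : 0 < u := by rw [hu]; positivity
  have hmn : (m : ℝ) / n = u⁻¹ := by rw [hu, inv_div]
  have hcu : c = 2 * Real.pi * u := by rw [hc, hu]; ring
  rw [← hc, hmn, ← hu]
  have hu1 : 0 < u⁻¹ := by positivity
  have hcpos : 0 < c := by rw [hcu]; positivity
  have hc2 : c ≤ 6.3 * u := by rw [hcu]; nlinarith
  have hc3 : u ≤ c := by rw [hcu]; nlinarith
  have hcw : ‖(c : ℂ) * w‖ = c * ‖w‖ := by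
    rw [norm_mul, Complex.norm_real, Real.norm_of_nonneg hcpos.le]
  have hcwre : 0 < ((c : ℂ) * w).re := by
    rw [Complex.re_ofReal_mul]
    exact mul_pos hcpos h0
  have hinv : (c * ‖w‖)⁻¹ ≤ u⁻¹ * ‖w‖⁻¹ := by
    rw [mul_inv]
    exact mul_le_mul_of_nonneg_right (inv_anti₀ hu0 hc3) (by positivity)
  have hsum : c * ‖w‖ + (c * ‖w‖)⁻¹ ≤ 4 * (u + u⁻¹ * (1 / w.re)) := by
    have h2 : ‖w‖⁻¹ ≤ 1 / w.re := by
      rw [one_div]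
      exact inv_anti₀ h0 hwre
    have h3 : (c * ‖w‖)⁻¹ ≤ u⁻¹ * (1 / w.re) :=
      hinv.trans (mul_le_mul_of_nonneg_left h2 hu1.le)
    have h4 : c * ‖w‖ ≤ 6.3 * u * (1/2) := mul_le_mul hc2 h1 hw0.le (by positivity)
    have h5 : 0 ≤ u⁻¹ * (1 / w.re) := by positivity
    linarith
  have hQ0 : 0 ≤ u + u⁻¹ * (1 / w.re) := by positivity
  have hQ4 : (c * ‖w‖ + (c * ‖w‖)⁻¹) ^ (1/4 : ℝ) ≤ 4 * (u + u⁻¹ * (1 / w.re)) ^ (1/4 : ℝ) :=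
    (Real.rpow_le_rpow (by positivity) hsum (by norm_num)).trans (r6_rpow (by norm_num) hQ0)
  have hana : ∀ s : ℂ, ‖s‖ ≤ 1/4 → AnalyticAt ℂ (fun s => G0 s * Hn m s *
      ((c : ℂ) * w) ^ (-(1 + s))) s := by
    intro s hs
    refine ((Pool.Agent.LibPH.G0_analytic (by linarith)).mul
      (Pool.Agent.LibPH.Hn_analytic hm s)).mul ?_
    exact AnalyticAt.cpow analyticAt_const ((analyticAt_const.add analyticAt_id).neg) (Or.inl hcwre)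
  have hle := Pool.Agent.LibPH.C2_le (r := 1/4)
    (M := C0 * (CH * (m : ℝ) ^ (-(1 / 2) + η)) *
      (2 * (u⁻¹ * ‖w‖⁻¹) * (4 * (u + u⁻¹ * (1 / w.re)) ^ (1/4 : ℝ)))) (by norm_num) hana
    (by
      intro s hs
      have h3 := (hG s hs.le).1
      have h4 := hHn m hm s hs.le
      rw [hs, show (-1 + 2 * (1 / 4) + η : ℝ) = -(1 / 2) + η by ring] at h4
      have h5 := Pool.Agent.LibPH.cpow_bd hcwre hs.le
      rw [hcw] at h5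
      have h6 : 2 * (c * ‖w‖)⁻¹ * (c * ‖w‖ + (c * ‖w‖)⁻¹) ^ (1/4 : ℝ) ≤
          2 * (u⁻¹ * ‖w‖⁻¹) * (4 * (u + u⁻¹ * (1 / w.re)) ^ (1/4 : ℝ)) := by
        apply mul_le_mul _ hQ4 (by positivity) (by positivity)
        linarith
      rw [norm_mul, norm_mul]
      exact mul_le_mul (mul_le_mul h3 h4 (norm_nonneg _) hC0.le) (h5.trans h6)
        (norm_nonneg _) (by positivity))
  refine hle.trans (le_of_eq ?_)
  ring

end Pool.Agent.LibSM47.SR
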