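import Pool.Agent.LibSM47.R_Defs

/-! ROW R_7 (SHORT, only real numbers): `√(1/x) x (1/x + xT)^{1/4} ≤ x^{1/4} + x^{3/4} T^{1/4} ≤ (1+x)(1+T^{1/4}) ≤ 2(1+x)T^{1/4}` with `x = m/n`.
`(a+b)^{1/4} ≤ a^{1/4} + b^{1/4}`: `Real.add_rpow_le_one_rpow..` / `Real.rpow_add_le_add_rpow`; `x^{1/4}, x^{3/4} ≤ 1 + x`. -/

set_option autoImplicit false

namespace Pool.Agent.LibSM47.SR

open MeasureTheory Set Filter Topology Complex

private theorem r7_pow {y : ℝ} (hy : 0 ≤ y) : (y ^ (1 / 4 : ℝ)) ^ 4 = y := by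
  rw [← Real.rpow_natCast, ← Real.rpow_mul hy]
  norm_num

theorem num_x {x T : ℝ} (hx : 0 < x) (hT : 1 ≤ T) :
    √(1 / x) * (x * (1 / x + x * T) ^ (1 / 4 : ℝ)) ≤ 2 * (1 + x) * T ^ (1 / 4 : ℝ) := by
  have hT0 : 0 < T := by linarith
  have hy : 0 ≤ 1 / x + x * T := by positivity
  refine le_of_pow_le_pow_left₀ (n := 4) (by norm_num) (by positivity) ?_
  have h1 : (√(1 / x)) ^ 4 = (1 / x) ^ 2 := by
    rw [show (4 : ℕ) = 2 * 2 by norm_num, pow_mul, Real.sq_sqrt (by positivity)]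
  rw [mul_pow, mul_pow, mul_pow, r7_pow hy, r7_pow hT0.le, h1]
  have h2 : (1 / x) ^ 2 * (x ^ 4 * (1 / x + x * T)) = x + x ^ 3 * T := by
    field_simp
  rw [h2]
  have h3 : x + x ^ 3 * T ≤ (x + x ^ 3) * T := by nlinarith
  refine h3.trans (mul_le_mul_of_nonneg_right ?_ hT0.le)
  have h4 : 0 ≤ x ^ 2 := by positivity
  have h5 : 0 ≤ x ^ 3 := by positivity
  have h6 : 0 ≤ x ^ 4 := by positivity
  nlinarith

end Pool.Agent.LibSM47.SR
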