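import Pool.Agent.LibSM47.X_7

set_option autoImplicit false

namespace Pool.Agent.LibSM47

open MeasureTheory Set Filter Topology Complex ProbabilityTheory
open scoped NNReal ComplexConjugate
open Pool.Agent.LibZM

/-- A3. Cross term. -/
theorem cross_small (ε ε₁ δ : ℝ) (hε : 0 < ε) (hε1 : 0 < ε₁) (hδ : 0 < δ) (hδε : δ ≤ ε / 10) (hε2 : ε ≤ 1 / 10) :
    ∃ T₀ : ℝ, ∀ T : ℝ, T₀ ≤ T → ∀ u : ℝ, ε₁ * T ≤ u → u ≤ T → ∀ ρ : ℝ, 0 < ρ → ρ ≤ T ^ (1 - 2 * ε) →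
      ‖∫ t, XX t * ch ρ (-t) ∂(gam (T ^ (1 - δ)) u)‖ ≤ T ^ (-(3 / 2) : ℝ) :=
  XL.cross_small ε ε₁ δ hε hε1 hδ hδε hε2

end Pool.Agent.LibSM47
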