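import Pool.Agent.LibSM47.B_01
import Pool.Agent.LibSM47.B_03
import Pool.Agent.LibSM47.B_06
import Pool.Agent.LibSM47.B_10
import Pool.Agent.LibSM47.X_Main
import Pool.Agent.LibSM47.C_G
import Pool.Agent.LibSM47.C_I
import Pool.Agent.LibSM47.C_K
import Pool.Agent.LibSM47.F_Main
import Pool.Agent.LibSM47.D_H
import Pool.Agent.LibSM47.R_8
import Pool.Agent.LibSM47.E_01

/-! # Sections A3, B, C, D, F1 of the sixth moment together -/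

set_option autoImplicit false

namespace Pool.Agent.LibSM47

open MeasureTheory Set Filter Topology Complex ProbabilityTheory
open scoped NNReal ComplexConjugate

/-- D. -/
theorem D_main (η : ℝ) (hη : 0 < η) (hη1 : η ≤ 1 / 16) : ∃ C : ℝ, 0 < C ∧ ∀ m n : ℕ, 1 ≤ m → 1 ≤ n → Nat.Coprime n m →
    ∃ C₀ : ℂ, ‖C₀‖ ≤ C ∧ ∀ θ : ℂ, 0 < θ.re →
      ‖LibPH.E3 n m θ - C₀‖ ≤ C * (m : ℝ) ^ (3 / 2 + 8 * η) * √(pw m : ℝ) * (1 + ‖θ‖) ^ η * (‖θ‖ / θ.re) ^ 8 :=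
  SD.D_main_of η hη hη1 (FT_le η hη) (gcd_sum η hη)

/-- R1. The refined form of `LibPH.exp21`. -/
theorem exp21_refined (η : ℝ) (hη : 0 < η) (hη1 : η ≤ 1 / 16) : ∃ C : ℝ, 0 < C ∧ ∀ m n : ℕ, 1 ≤ m → 1 ≤ n →
    Nat.Coprime n m → ∀ w : ℂ, 0 < w.re → ‖w‖ ≤ 1 / 2 →
    ‖(∫ t in Ioi (0:ℝ), LibPH.z21 t * LibPH.tw n m t * cexp (-(w * t))) -
      LibPH.C2 (fun s => LibPH.G0 s * ((2 * Real.pi : ℝ) : ℂ) ^ (-s) * LibPH.kk n m s * w ^ (-(1 + s)))‖ ≤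
      C * errR η (1 / w.re) m n * (‖w‖ / w.re) ^ 8 :=
  SR.exp21_ref η hη hη1 (D_main η hη hη1) (EH.Hn_refined η hη)

end Pool.Agent.LibSM47
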