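import Pool.Agent.LibSM47.E_01
import Pool.Agent.LibSM47.E_03
import Pool.Agent.LibPH.X07
import Pool.Agent.LibSM47.FaceA
import Pool.Agent.LibPH.J06

/-! ROW E_07a: the error in K1 inside C2. -/

set_option autoImplicit false

namespace Pool.Agent.LibSM47.EH

open MeasureTheory Set Filter Topology Complex

/-- `K1_main` on the circle `‖s‖ = r = δ/100` with `LibPH.C2_le`, `kk_le` (`η = δ/100`), `LibPH.G0_bd` (bound of `Z0`); total exponent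
`6δ/100 - δ/2 < 0`. -/
theorem C2_err (ε₁ δ : ℝ) (hε1 : 0 < ε₁) (hδ : 0 < δ) (hδ1 : δ ≤ 1 / 100) :
    ∃ C T₀ : ℝ, 0 < C ∧ ∀ T : ℝ, T₀ ≤ T → ∀ u : ℝ, ε₁ * T ≤ u → u ≤ T → ∀ m n : ℕ, 1 ≤ m → 1 ≤ n →
      (m : ℝ) ≤ T → (n : ℝ) ≤ T →
      ‖LibPH.C2 (fun s => LibPH.G0 s * ((2 * Real.pi : ℝ) : ℂ) ^ (-s) * LibPH.kk n m s * Kint T (T ^ (1 - δ)) u s)
        - LibPH.C2 (fun s => LibPH.Z0 s * ((2 * Real.pi : ℝ) : ℂ) ^ (-s) * LibPH.kk n m s * (u : ℂ) ^ s)‖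
        ≤ C * ((m : ℝ) * n) ^ (-(1 / 2) : ℝ) := by
  obtain ⟨CK, T₁, hCK, hK⟩ := K1_main ε₁ δ hε1 hδ (by linarith)
  obtain ⟨Ck, hCk, hk⟩ := kk_le (δ / 100) (by positivity)
  obtain ⟨CG, hCG, hG⟩ := LibPH.G0_bd
  have hr : 0 < δ / 100 := by positivity
  have hr4 : δ / 100 ≤ 1 / 4 := by linarith
  have h2pi : 0 < 2 * Real.pi := by positivity
  refine ⟨CG * (2 * Real.pi) * Ck * CK / (δ / 100) ^ 2, max T₁ 1, by positivity, ?_⟩
  intro T hT u hu1 hu2 m n hm hn hmT hnT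
  have hT1 : 1 ≤ T := (le_max_right _ _).trans hT
  have hT0 : 0 < T := by linarith
  have hTT : T₁ ≤ T := (le_max_left _ _).trans hT
  have hu0 : 0 < u := lt_of_lt_of_le (by positivity) hu1
  have a2pi : ∀ s : ℂ, AnalyticAt ℂ (fun s : ℂ => ((2 * Real.pi : ℝ) : ℂ) ^ (-s)) s := by
    intro s
    have h : Differentiable ℂ fun s : ℂ => ((2 * Real.pi : ℝ) : ℂ) ^ (-s) := fun w =>
      DifferentiableAt.const_cpow (by fun_prop) (Or.inl (by exact_mod_cast h2pi.ne'))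
    exact h.analyticAt s
  have au : ∀ s : ℂ, AnalyticAt ℂ (fun s : ℂ => (u : ℂ) ^ s) s := by
    intro s
    have h : Differentiable ℂ fun s : ℂ => (u : ℂ) ^ s := fun w =>
      DifferentiableAt.const_cpow (by fun_prop) (Or.inl (by exact_mod_cast hu0.ne'))
    exact h.analyticAt s
  have af : ∀ s : ℂ, ‖s‖ ≤ δ / 100 → AnalyticAt ℂ (fun s => LibPH.G0 s *
      ((2 * Real.pi : ℝ) : ℂ) ^ (-s) * LibPH.kk n m s * Kint T (T ^ (1 - δ)) u s) s := by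
    intro s hs
    exact (((LibPH.G0_analytic (by linarith)).mul (a2pi s)).mul (LibPH.kk_analytic hn hm s)).mul
      (Kint_an T _ u hT0 s)
  have ag : ∀ s : ℂ, AnalyticAt ℂ (fun s => LibPH.Z0 s *
      ((2 * Real.pi : ℝ) : ℂ) ^ (-s) * LibPH.kk n m s * (u : ℂ) ^ s) s := by
    intro s
    exact (((LibPH.Z0_analytic s).mul (a2pi s)).mul (LibPH.kk_analytic hn hm s)).mul (au s)
  have ag' : ∀ s : ℂ, AnalyticAt ℂ (fun s => (-1 : ℂ) * (LibPH.Z0 s *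
      ((2 * Real.pi : ℝ) : ℂ) ^ (-s) * LibPH.kk n m s * (u : ℂ) ^ s)) s := by
    intro s
    exact analyticAt_const.mul (ag s)
  have h00 : ‖(0 : ℂ)‖ ≤ δ / 100 := by rw [norm_zero]; exact hr.le
  have hsub : LibPH.C2 (fun s => LibPH.G0 s * ((2 * Real.pi : ℝ) : ℂ) ^ (-s) * LibPH.kk n m s *
        Kint T (T ^ (1 - δ)) u s)
        - LibPH.C2 (fun s => LibPH.Z0 s * ((2 * Real.pi : ℝ) : ℂ) ^ (-s) * LibPH.kk n m s * (u : ℂ) ^ s)
      = LibPH.C2 (fun s => LibPH.G0 s * ((2 * Real.pi : ℝ) : ℂ) ^ (-s) * LibPH.kk n m s *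
        Kint T (T ^ (1 - δ)) u s + (-1) * (LibPH.Z0 s * ((2 * Real.pi : ℝ) : ℂ) ^ (-s) *
          LibPH.kk n m s * (u : ℂ) ^ s)) := by
    rw [LibPH.C2_add (af 0 h00) (ag' 0), LibPH.C2_const_mul (-1) (ag 0)]
    ring
  rw [hsub]
  have hmn0 : 0 ≤ ((m : ℝ) * n) ^ (-(1 / 2) : ℝ) := Real.rpow_nonneg (by positivity) _
  have haa : ∀ s : ℂ, ‖s‖ ≤ δ / 100 → AnalyticAt ℂ (fun s => LibPH.G0 s *
      ((2 * Real.pi : ℝ) : ℂ) ^ (-s) * LibPH.kk n m s * Kint T (T ^ (1 - δ)) u s +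
        (-1 : ℂ) * (LibPH.Z0 s * ((2 * Real.pi : ℝ) : ℂ) ^ (-s) * LibPH.kk n m s * (u : ℂ) ^ s)) s :=
    fun s hs => (af s hs).add (ag' s)
  have hfin := LibPH.C2_le (r := δ / 100)
    (M := CG * (2 * Real.pi) * Ck * CK * ((m : ℝ) * n) ^ (-(1 / 2) : ℝ)) hr haa ?_
  · refine hfin.trans (le_of_eq ?_)
    ring
  · intro s hs
    have hs4 : ‖s‖ ≤ 1 / 4 := by rw [hs]; exact hr4
    have e1 : LibPH.G0 s * ((2 * Real.pi : ℝ) : ℂ) ^ (-s) * LibPH.kk n m s *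
        Kint T (T ^ (1 - δ)) u s + (-1) * (LibPH.Z0 s * ((2 * Real.pi : ℝ) : ℂ) ^ (-s) *
          LibPH.kk n m s * (u : ℂ) ^ s) =
        LibPH.Z0 s * ((2 * Real.pi : ℝ) : ℂ) ^ (-s) * LibPH.kk n m s *
          (Complex.Gamma (1 + s) * Kint T (T ^ (1 - δ)) u s - (u : ℂ) ^ s) := by
      rw [LibPH.G0_eq]
      ring
    rw [e1, norm_mul, norm_mul, norm_mul]
    have b1 : ‖LibPH.Z0 s‖ ≤ CG := (hG s hs4).2
    have b2 : ‖((2 * Real.pi : ℝ) : ℂ) ^ (-s)‖ ≤ 2 * Real.pi := by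
      rw [Complex.norm_cpow_eq_rpow_re_of_pos h2pi]
      have h3 : (-s).re ≤ 1 := by
        have h4 := (abs_le.1 (Complex.abs_re_le_norm s)).1
        rw [Complex.neg_re]
        linarith
      have h5 : (1 : ℝ) ≤ 2 * Real.pi := by have := Real.pi_gt_three; linarith
      calc (2 * Real.pi) ^ (-s).re ≤ (2 * Real.pi) ^ (1 : ℝ) :=
            Real.rpow_le_rpow_of_exponent_le h5 h3
        _ = 2 * Real.pi := Real.rpow_one _
    have b3 := hk m n hm hn T hmT hnT s hs4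
    have b4 := hK T hTT u hu1 hu2 s hs4
    have b4' : ‖Complex.Gamma (1 + s) * Kint T (T ^ (1 - δ)) u s - (u : ℂ) ^ s‖ ≤
        CK * T ^ (‖s‖ - δ / 2) := b4
    have hTa : 0 ≤ T ^ (4 * ‖s‖ + δ / 100) := Real.rpow_nonneg hT0.le _
    have hTb : 0 ≤ T ^ (‖s‖ - δ / 2) := Real.rpow_nonneg hT0.le _
    have hTT1 : T ^ (4 * ‖s‖ + δ / 100) * T ^ (‖s‖ - δ / 2) ≤ 1 := by
      rw [← Real.rpow_add hT0]
      refine Real.rpow_le_one_of_one_le_of_nonpos hT1 ?_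
      rw [hs]
      linarith
    calc ‖LibPH.Z0 s‖ * ‖((2 * Real.pi : ℝ) : ℂ) ^ (-s)‖ * ‖LibPH.kk n m s‖ *
          ‖Complex.Gamma (1 + s) * Kint T (T ^ (1 - δ)) u s - (u : ℂ) ^ s‖
        ≤ CG * (2 * Real.pi) * (Ck * (((m : ℝ) * n) ^ (-(1 / 2) : ℝ) * T ^ (4 * ‖s‖ + δ / 100))) *
          (CK * T ^ (‖s‖ - δ / 2)) := by
          refine mul_le_mul (mul_le_mul (mul_le_mul b1 b2 (norm_nonneg _) hCG.le) b3
            (norm_nonneg _) (by positivity)) b4' (norm_nonneg _) (by positivity)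
      _ = CG * (2 * Real.pi) * Ck * CK * ((m : ℝ) * n) ^ (-(1 / 2) : ℝ) *
          (T ^ (4 * ‖s‖ + δ / 100) * T ^ (‖s‖ - δ / 2)) := by ring
      _ ≤ CG * (2 * Real.pi) * Ck * CK * ((m : ℝ) * n) ^ (-(1 / 2) : ℝ) * 1 :=
          mul_le_mul_of_nonneg_left hTT1 (by positivity)
      _ = _ := mul_one _

end Pool.Agent.LibSM47.EH
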