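import Pool.Agent.LibSM47.E_03
import Pool.Agent.LibSM47.E_06
import Pool.Agent.LibPH.X07
import Pool.Agent.LibPH.X12a
import Pool.Agent.LibSM47.FaceA

/-! ROW E_07b: II as a C2. -/

set_option autoImplicit false

namespace Pool.Agent.LibSM47.EH

open MeasureTheory Set Filter Topology Complex

private theorem E_07b_pow {a : ℂ} (ha : a ∈ Complex.slitPlane) {f : ℂ → ℂ} {s : ℂ}
    (hf : AnalyticAt ℂ f s) : AnalyticAt ℂ (fun s => a ^ (f s)) s :=
  AnalyticAt.cpow analyticAt_const hf ha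

private theorem E_07b_B {m n : ℕ} (hm : 1 ≤ m) (hn : 1 ≤ n) {s : ℂ} (hs : ‖s‖ ≤ 1 / 4) :
    AnalyticAt ℂ (fun s => LibPH.G0 s * ((2 * Real.pi : ℝ) : ℂ) ^ (-s) * LibPH.kk n m s) s := by
  have hid : AnalyticAt ℂ (fun s : ℂ => s) s := analyticAt_id
  have hm1 : (m : ℂ) ∈ Complex.slitPlane := by
    left
    simpa using (show 0 < m by omega)
  have hn1 : (n : ℂ) ∈ Complex.slitPlane := by
    left
    simpa using (show 0 < n by omega)
  have hp1 : ((2 * Real.pi : ℝ) : ℂ) ∈ Complex.slitPlane := by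
    left
    rw [Complex.ofReal_re]
    positivity
  have h1 : AnalyticAt ℂ (fun s : ℂ => 1 / 2 + s) s := analyticAt_const.add hid
  refine ((LibPH.G0_analytic (by linarith)).mul (E_07b_pow hp1 hid.neg)).mul ?_
  unfold LibPH.kk
  exact ((E_07b_pow hm1 h1).mul (E_07b_pow hn1 h1.neg)).mul (LibPH.Hn_analytic hm s)

/-- `II_exp`, `exp21_refined` with `w = wq T ξ` (`(wq T ξ).re = 1/T`), `nu_mom`, `lap_cont`, `mom_int`, `C2_swap`. -/
theorem II_C2 (ε₁ δ η : ℝ) (hε1 : 0 < ε₁) (hδ : 0 < δ) (hδ1 : δ ≤ 1 / 100) (hη : 0 < η) (hη1 : η ≤ 1 / 16) :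
    ∃ C T₀ : ℝ, 0 < C ∧ ∀ T : ℝ, T₀ ≤ T → ∀ u : ℝ, ε₁ * T ≤ u → u ≤ T → ∀ m n : ℕ, 1 ≤ m → 1 ≤ n →
      Nat.Coprime n m →
      ‖II (T ^ (1 - δ)) u m n
        - LibPH.C2 (fun s => LibPH.G0 s * ((2 * Real.pi : ℝ) : ℂ) ^ (-s) * LibPH.kk n m s * Kint T (T ^ (1 - δ)) u s)‖
      ≤ T ^ (-2 : ℝ) + C * T ^ (9 * δ - 1) * errR η T m n := by
  obtain ⟨T1, hII⟩ := II_exp ε₁ δ hε1 hδ (by linarith)
  obtain ⟨Cn, T2, hCn, hnu⟩ := nu_mom δ hδ (by linarith)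
  obtain ⟨Ce, hCe, hexp⟩ := exp21_refined η hη hη1
  refine ⟨Ce * Cn, max (max T1 T2) 4, by positivity, ?_⟩
  intro T hT u hu1 hu2 m n hm hn hmn
  have hT1 : T1 ≤ T := (le_max_left _ _).trans ((le_max_left _ _).trans hT)
  have hT2 : T2 ≤ T := (le_max_right _ _).trans ((le_max_left _ _).trans hT)
  have hT4 : 4 ≤ T := (le_max_right _ _).trans hT
  have hT0 : 0 < T := by linarith
  have hu0 : 0 ≤ u := (mul_nonneg hε1.le hT0.le).trans hu1
  set V : ℝ := T ^ (1 - δ) with hV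
  set S : Set ℝ := Icc (-(1 / 4) : ℝ) (1 / 4) with hS
  set B : ℂ → ℂ := fun s => LibPH.G0 s * ((2 * Real.pi : ℝ) : ℂ) ^ (-s) * LibPH.kk n m s with hB
  set Lf : ℝ → ℂ := fun ξ => ∫ t in Ioi (0 : ℝ), LibPH.z21 t * LibPH.tw n m t * cexp (-(wq T ξ * t)) with hLf
  set Cf : ℝ → ℂ := fun ξ => LibPH.C2 (fun s => B s * (wq T ξ) ^ (-(1 + s))) with hCf
  obtain ⟨hCi, hsw⟩ := C2_swap T V u hT0 B fun s hs => E_07b_B hm hn hs
  have hLi : IntegrableOn (fun ξ => Lf ξ * nu T V u ξ) S :=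
    ((lap_cont T hT0 m n).mul (nu_cont T V u)).continuousOn.integrableOn_compact isCompact_Icc
  have h1 := hII T hT1 u hu1 hu2 m n hm hn
  have herr0 : 0 ≤ errR η T m n := by
    unfold errR
    positivity
  have hpt : ∀ ξ ∈ S, ‖Lf ξ * nu T V u ξ - Cf ξ * nu T V u ξ‖ ≤
      Ce * errR η T m n * ((‖wq T ξ‖ / (wq T ξ).re) ^ 8 * ‖nu T V u ξ‖) := by
    intro ξ hξ
    have hre : (wq T ξ).re = 1 / T := wq_re T ξ
    have hre0 : 0 < (wq T ξ).re := by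
      rw [hre]
      positivity
    have hnorm : ‖wq T ξ‖ ≤ 1 / 2 := by
      have h2 : ‖wq T ξ‖ ≤ 1 / T + |ξ| := by
        unfold wq
        refine (norm_sub_le _ _).trans ?_
        rw [Complex.norm_real, norm_mul, Complex.norm_I, mul_one, Complex.norm_real,
          Real.norm_of_nonneg (by positivity), Real.norm_eq_abs]
      have h3 : |ξ| ≤ 1 / 4 := abs_le.2 hξ
      have h4 : 1 / T ≤ 1 / 4 := one_div_le_one_div_of_le (by norm_num) hT4
      linarith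
    have h2 := hexp m n hm hn hmn (wq T ξ) hre0 hnorm
    rw [hre, one_div_one_div, ← hre] at h2
    rw [← sub_mul, norm_mul]
    calc ‖Lf ξ - Cf ξ‖ * ‖nu T V u ξ‖
        ≤ (Ce * errR η T m n * (‖wq T ξ‖ / (wq T ξ).re) ^ 8) * ‖nu T V u ξ‖ :=
          mul_le_mul_of_nonneg_right h2 (norm_nonneg _)
      _ = _ := by ring
  have h2 : ‖(∫ ξ in S, Lf ξ * nu T V u ξ) - ∫ ξ in S, Cf ξ * nu T V u ξ‖ ≤
      Ce * errR η T m n * (Cn * T ^ (9 * δ - 1)) := by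
    rw [← integral_sub hLi hCi]
    have h3 : ‖∫ ξ in S, (Lf ξ * nu T V u ξ - Cf ξ * nu T V u ξ)‖ ≤
        ∫ ξ in S, Ce * errR η T m n * ((‖wq T ξ‖ / (wq T ξ).re) ^ 8 * ‖nu T V u ξ‖) := by
      refine norm_integral_le_of_norm_le ((mom_int T V u hT0).const_mul _) ?_
      rw [ae_restrict_iff' measurableSet_Icc]
      exact Eventually.of_forall hpt
    refine h3.trans ?_
    rw [integral_const_mul]
    exact mul_le_mul_of_nonneg_left (hnu T hT2 u hu0 hu2) (by positivity)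
  rw [hsw] at h2
  have h4 : II V u m n - LibPH.C2 (fun s => B s * Kint T V u s) =
      (II V u m n - ∫ ξ in S, Lf ξ * nu T V u ξ) +
      ((∫ ξ in S, Lf ξ * nu T V u ξ) - LibPH.C2 (fun s => B s * Kint T V u s)) := by ring
  show ‖II V u m n - LibPH.C2 (fun s => B s * Kint T V u s)‖ ≤ _
  rw [h4]
  refine (norm_add_le _ _).trans (add_le_add h1 (h2.trans (le_of_eq ?_)))
  ring

end Pool.Agent.LibSM47.EH
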