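import Pool.Agent.LibSM47.F_Defs


set_option autoImplicit false

namespace Pool.Agent.LibSM47.FL

open MeasureTheory Set Filter Topology
open Pool.Agent.LibZM

/-- SHORT. `h ≥ 0`. -/
theorem hh_nonneg (m : ℕ) : 0 ≤ hh m := by
  unfold hh
  exact Finset.sum_nonneg fun d _ => by positivity

private theorem F_01_le (m : ℕ) : hh m ≤ m.divisors.card := by
  unfold hh
  rw [Finset.card_eq_sum_ones, Nat.cast_sum]
  refine Finset.sum_le_sum fun d hd => ?_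
  have h1 : 0 < d := Nat.pos_of_mem_divisors hd
  have h2 : (0 : ℝ) < d := by exact_mod_cast h1
  rw [Nat.cast_one, div_le_one h2]
  exact_mod_cast Nat.totient_le d

open scoped Pointwise in
/-- `h(de) ≤ d(d) d(e)`: `h m ≤ card (divisors m)` because `φ(d)/d ≤ 1`; `Nat.divisors_mul` (pointwise product of finsets)
and `Finset.card_mul_le`. -/
theorem hh_mul_le (d e : ℕ) : hh (d * e) ≤ (d.divisors.card : ℝ) * e.divisors.card := by
  refine (F_01_le _).trans ?_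
  rw [Nat.divisors_mul]
  exact_mod_cast Finset.card_mul_le

theorem Wt_nonneg (q : ℕ+ × ℕ+ × ℕ+) : 0 ≤ Wt q := by
  unfold Wt
  split_ifs
  · have := hh_nonneg ((q.1 : ℕ) * q.2.1)
    positivity
  · exact le_rfl

/-- `W(d,e,n) ≤ (d(d)/d) (d(e)/e) (1/n)` (use `φ(d) ≤ d`). -/
theorem Wt_le (q : ℕ+ × ℕ+ × ℕ+) :
    Wt q ≤ (((q.1 : ℕ).divisors.card : ℝ) / q.1) * (((q.2.1 : ℕ).divisors.card : ℝ) / q.2.1) * ((q.2.2 : ℝ))⁻¹ := by
  have p1 : (0 : ℝ) < ((q.1 : ℕ) : ℝ) := by exact_mod_cast q.1.pos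
  have p2 : (0 : ℝ) < ((q.2.1 : ℕ) : ℝ) := by exact_mod_cast q.2.1.pos
  have p3 : (0 : ℝ) < ((q.2.2 : ℕ) : ℝ) := by exact_mod_cast q.2.2.pos
  unfold Wt
  split_ifs
  · have h1 := hh_mul_le (q.1 : ℕ) (q.2.1 : ℕ)
    have h2 : ((Nat.totient (q.1 : ℕ) : ℕ) : ℝ) ≤ (q.1 : ℕ) := by
      exact_mod_cast Nat.totient_le _
    have h3 : hh ((q.1 : ℕ) * q.2.1) * (Nat.totient (q.1 : ℕ) : ℝ) ≤
        ((q.1 : ℕ).divisors.card : ℝ) * (q.2.1 : ℕ).divisors.card * ((q.1 : ℕ) : ℝ) :=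
      mul_le_mul h1 h2 (by positivity) (by positivity)
    have h4 : (((q.1 : ℕ).divisors.card : ℝ) / (q.1 : ℕ)) *
        (((q.2.1 : ℕ).divisors.card : ℝ) / (q.2.1 : ℕ)) * (((q.2.2 : ℕ) : ℝ))⁻¹ =
        (((q.1 : ℕ).divisors.card : ℝ) * (q.2.1 : ℕ).divisors.card * ((q.1 : ℕ) : ℝ)) /
          (((q.1 : ℕ) : ℝ) ^ 2 * (q.2.1 : ℕ) * (q.2.2 : ℕ)) := by
      field_simp
    rw [h4]
    gcongr
  · positivity

end Pool.Agent.LibSM47.FL
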