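import Pool.Agent.LibSM47.F_Defs
import Pool.Agent.LibSM47.F_01

set_option autoImplicit false

namespace Pool.Agent.LibSM47.FL

open MeasureTheory Set Filter Topology
open Pool.Agent.LibZM

private theorem F_02_tau_two {n : ℕ} (hn : n ≠ 0) : tau 2 n = (n.divisors.card : ℝ) := by
  have h : (2 : ℝ) = 1 + 1 := by norm_num
  rw [h, ← tau_mul, ArithmeticFunction.mul_apply]
  have h1 : ∀ x ∈ n.divisorsAntidiagonal, tau 1 x.1 * tau 1 x.2 = 1 := by
    intro x hx
    have h2 := Nat.mem_divisorsAntidiagonal.1 hx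
    have h3 : x.1 ≠ 0 := by
      intro h0
      rw [h0, zero_mul] at h2
      exact hn h2.1.symm
    have h4 : x.2 ≠ 0 := by
      intro h0
      rw [h0, mul_zero] at h2
      exact hn h2.1.symm
    rw [tau_one_apply h3, tau_one_apply h4, one_mul]
  rw [Finset.sum_congr rfl h1, Finset.sum_const, nsmul_eq_mul, mul_one]
  congr 1
  rw [← Nat.map_div_right_divisors, Finset.card_map]

/-- `∑ d(n) n^{-1-a}` over the positive integers (`LibZM.summable_tau` with `α = 2`: `tau 2 n = card (divisors n)` for `n ≠ 0` by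
`tau_mul`, `tau_one_apply`; then `Summable.subtype`/`pnat`). -/
theorem tau_summable (a : ℝ) (ha : 0 < a) :
    Summable fun d : ℕ+ => (((d : ℕ).divisors.card : ℝ) / (d : ℝ)) * (d : ℝ) ^ (-a) := by
  have h1 := summable_tau (α := 2) (by norm_num) (σ := 1 + a) (by linarith)
  have h2 := h1.comp_injective PNat.coe_injective
  refine h2.congr fun d => ?_
  have hd : (0 : ℝ) < ((d : ℕ) : ℝ) := by exact_mod_cast d.pos
  simp only [Function.comp_apply]
  rw [F_02_tau_two d.ne_zero]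
  have h3 : ((d : ℕ) : ℝ) ^ (-(1 + a)) = (((d : ℕ) : ℝ))⁻¹ * ((d : ℕ) : ℝ) ^ (-a) := by
    rw [← Real.rpow_neg_one, ← Real.rpow_add hd]
    congr 1
    ring
  rw [h3]
  field_simp

private theorem F_02_inv_summable (c : ℝ) (hc : 0 < c) :
    Summable fun d : ℕ+ => ((d : ℝ))⁻¹ * (d : ℝ) ^ (-c) := by
  have h1 : Summable fun n : ℕ => (n : ℝ) ^ (-(1 + c)) := Real.summable_nat_rpow.2 (by linarith)
  have h2 := h1.comp_injective PNat.coe_injective
  refine h2.congr fun d => ?_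
  have hd : (0 : ℝ) < ((d : ℕ) : ℝ) := by exact_mod_cast d.pos
  simp only [Function.comp_apply]
  rw [← Real.rpow_neg_one, ← Real.rpow_add hd]
  congr 1
  ring

/-- Summability of the Dirichlet series in three variables (`Wt_nonneg`, `Wt_le`, `Summable.mul_of_nonneg` twice). -/
theorem Wt_summable (a b c : ℝ) (ha : 0 < a) (hb : 0 < b) (hc : 0 < c) :
    Summable fun q : ℕ+ × ℕ+ × ℕ+ => Wt q * ((q.1 : ℝ) ^ (-a) * (q.2.1 : ℝ) ^ (-b) * (q.2.2 : ℝ) ^ (-c)) := by
  have h23 := (tau_summable b hb).mul_of_nonneg (F_02_inv_summable c hc)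
    (fun d => by positivity) (fun d => by positivity)
  have h123 := (tau_summable a ha).mul_of_nonneg h23
    (fun d => by positivity) (fun d => by positivity)
  refine Summable.of_nonneg_of_le (fun q => ?_) (fun q => ?_) h123
  · exact mul_nonneg (Wt_nonneg q) (by positivity)
  · calc Wt q * ((q.1 : ℝ) ^ (-a) * (q.2.1 : ℝ) ^ (-b) * (q.2.2 : ℝ) ^ (-c))
        ≤ ((((q.1 : ℕ).divisors.card : ℝ) / q.1) * (((q.2.1 : ℕ).divisors.card : ℝ) / q.2.1) * ((q.2.2 : ℝ))⁻¹) *
          ((q.1 : ℝ) ^ (-a) * (q.2.1 : ℝ) ^ (-b) * (q.2.2 : ℝ) ^ (-c)) :=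
          mul_le_mul_of_nonneg_right (Wt_le q) (by positivity)
      _ = _ := by ring

/-- And the identity behind it. -/
theorem ee_term (i j k L : ℝ) (q : ℕ+ × ℕ+ × ℕ+) :
    ee i j k (Real.log q.1 / L, Real.log q.2.1 / L, Real.log q.2.2 / L) =
      (q.1 : ℝ) ^ (-(i / L)) * (q.2.1 : ℝ) ^ (-(j / L)) * (q.2.2 : ℝ) ^ (-(k / L)) := by
  have h1 : (0 : ℝ) < ((q.1 : ℕ) : ℝ) := by exact_mod_cast q.1.pos
  have h2 : (0 : ℝ) < ((q.2.1 : ℕ) : ℝ) := by exact_mod_cast q.2.1.pos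
  have h3 : (0 : ℝ) < ((q.2.2 : ℕ) : ℝ) := by exact_mod_cast q.2.2.pos
  rw [ee, Real.rpow_def_of_pos h1, Real.rpow_def_of_pos h2, Real.rpow_def_of_pos h3,
    ← Real.exp_add, ← Real.exp_add]
  congr 1
  ring

/-- The same with exponentials of logarithms (`exp (-(i log d / L)) = d^{-i/L}`). -/
theorem ee_summable (i j k L : ℝ) (hi : 0 < i) (hj : 0 < j) (hk : 0 < k) (hL : 0 < L) :
    Summable fun q : ℕ+ × ℕ+ × ℕ+ => Wt q * ee i j k (Real.log q.1 / L, Real.log q.2.1 / L, Real.log q.2.2 / L) := by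
  refine (Wt_summable (i / L) (j / L) (k / L) (by positivity) (by positivity) (by positivity)).congr
    fun q => ?_
  rw [ee_term]

end Pool.Agent.LibSM47.FL
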