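import Pool.Agent.LibSM47.F_Defs
import Pool.Agent.LibSM47.F_02
import Pool.Agent.LibSM47.F_03

set_option autoImplicit false

namespace Pool.Agent.LibSM47.FL

open MeasureTheory Set Filter Topology
open Pool.Agent.LibZM

private theorem F_04_FF0 (a b c : ℝ) : FF a b c 0 = 0 := by simp [FF, hh]

private noncomputable def F_04_K (a b c : ℝ) (p : ℕ+ × ℕ+) : ℝ :=
  hh ((p.1 : ℕ) * (p.2 : ℕ)) * rr c ((p.1 : ℕ) * (p.2 : ℕ)) *
    ((Nat.totient p.1 : ℝ) * (p.1 : ℝ) ^ (-(2 + a)) * (p.2 : ℝ) ^ (-(1 + b)))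

private theorem F_04_term (a b c : ℝ) (d e n : ℕ+) :
    Wt (d, e, n) * ((d : ℝ) ^ (-a) * (e : ℝ) ^ (-b) * (n : ℝ) ^ (-c)) =
      (hh ((d : ℕ) * (e : ℕ)) *
        ((Nat.totient d : ℝ) * (d : ℝ) ^ (-(2 + a)) * (e : ℝ) ^ (-(1 + b)))) *
        (if Nat.Coprime ((d : ℕ) * (e : ℕ)) n then (n : ℝ) ^ (-(1 + c)) else 0) := by
  have hd : (0 : ℝ) < d := by exact_mod_cast d.pos
  have he : (0 : ℝ) < e := by exact_mod_cast e.pos
  have hn : (0 : ℝ) < n := by exact_mod_cast n.pos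
  have h1 : (d : ℝ) ^ (-(2 + a)) = (d : ℝ) ^ (-a) / (d : ℝ) ^ 2 := by
    rw [neg_add, Real.rpow_add hd, Real.rpow_neg hd.le 2, Real.rpow_two]
    field_simp
  have h2 : (e : ℝ) ^ (-(1 + b)) = (e : ℝ) ^ (-b) / e := by
    rw [neg_add, Real.rpow_add he, Real.rpow_neg he.le 1, Real.rpow_one]
    field_simp
  have h3 : (n : ℝ) ^ (-(1 + c)) = (n : ℝ) ^ (-c) / n := by
    rw [neg_add, Real.rpow_add hn, Real.rpow_neg hn.le 1, Real.rpow_one]
    field_simp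
  unfold Wt
  by_cases h : Nat.Coprime ((d : ℕ) * (e : ℕ)) n
  · simp only [if_pos h]
    rw [h1, h2, h3]
    field_simp
  · simp only [if_neg h]
    ring

private theorem F_04_Z (c : ℝ) (hc : 0 < c) : Zt (1 + c) ≠ 0 := by
  have hs : Summable fun n : ℕ => 1 / (n : ℝ) ^ (1 + c) :=
    Real.summable_one_div_nat_rpow.2 (by linarith)
  have h1 : (1 : ℝ) / ((1 : ℕ) : ℝ) ^ (1 + c) ≤ ∑' n : ℕ, 1 / (n : ℝ) ^ (1 + c) :=
    hs.le_tsum 1 fun n _ => by positivity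
  have h2 : (1 : ℝ) ≤ Zt (1 + c) := by
    unfold Zt
    simpa using h1
  linarith

/-- From triples to one variable. Plan: `Wt_summable`, reassociate `(d,(e,n)) ↦ ((d,e),n)` (`Equiv.prodAssoc`), `Summable.tsum_prod`,
inner sum by `n_sum` with `m = d e`: it is `Zt (1+c) * rr c (d e)` times `hh (d e) φ(d) d^{-2-a} e^{-1-b}`; then
`sigmaAntidiagonalEquivProd` (Mathlib, `Mathlib/NumberTheory/TsumDivsorsAntidiagonal.lean`) to group by `m = d e`:
the inner finite sum is `cv a b m`; finally `tsum_pnat_eq_tsum_succ`-type lemma or `FF 0 = 0` (`hh 0 = 0`) to pass from `ℕ+` to `ℕ`. -/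
theorem triple_eq (a b c : ℝ) (ha : 0 < a) (hb : 0 < b) (hc : 0 < c) :
    Summable (fun m : ℕ => FF a b c m) ∧
    ∑' q : ℕ+ × ℕ+ × ℕ+, Wt q * ((q.1 : ℝ) ^ (-a) * (q.2.1 : ℝ) ^ (-b) * (q.2.2 : ℝ) ^ (-c)) =
      Zt (1 + c) * ∑' m : ℕ, FF a b c m := by
  set G : ℕ+ × ℕ+ × ℕ+ → ℝ :=
    fun q => Wt q * ((q.1 : ℝ) ^ (-a) * (q.2.1 : ℝ) ^ (-b) * (q.2.2 : ℝ) ^ (-c)) with hG
  have hs : Summable G := Wt_summable a b c ha hb hc
  have hs' : Summable (fun p : (ℕ+ × ℕ+) × ℕ+ => G (p.1.1, p.1.2, p.2)) :=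
    (Equiv.prodAssoc ℕ+ ℕ+ ℕ+).summable_iff.2 hs
  have ht : ∑' q, G q = ∑' p : (ℕ+ × ℕ+) × ℕ+, G (p.1.1, p.1.2, p.2) :=
    ((Equiv.prodAssoc ℕ+ ℕ+ ℕ+).tsum_eq G).symm
  have inner : ∀ p : ℕ+ × ℕ+, ∑' n : ℕ+, G (p.1, p.2, n) = Zt (1 + c) * F_04_K a b c p := by
    rintro ⟨d, e⟩
    have h1 : ∀ n : ℕ+, G (d, e, n) = (hh ((d : ℕ) * (e : ℕ)) *
        ((Nat.totient d : ℝ) * (d : ℝ) ^ (-(2 + a)) * (e : ℝ) ^ (-(1 + b)))) *
        (if Nat.Coprime ((d : ℕ) * (e : ℕ)) n then (n : ℝ) ^ (-(1 + c)) else 0) :=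
      fun n => F_04_term a b c d e n
    show ∑' n : ℕ+, G (d, e, n) = _
    rw [tsum_congr h1, tsum_mul_left,
      (n_sum c hc ((d : ℕ) * (e : ℕ)) (Nat.mul_pos d.pos e.pos)).2]
    unfold F_04_K
    ring
  have hsK' : Summable (fun p => Zt (1 + c) * F_04_K a b c p) := by
    have h1 := hs'.prod
    simp only [inner] at h1
    exact h1
  have hsK : Summable (F_04_K a b c) := (summable_mul_left_iff (F_04_Z c hc)).1 hsK'
  have hsig : Summable fun x : (Σ m : ℕ+, Nat.divisorsAntidiagonal m) =>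
      F_04_K a b c (sigmaAntidiagonalEquivProd x) :=
    sigmaAntidiagonalEquivProd.summable_iff.2 hsK
  have hfib : ∀ m : ℕ+, ∑' x : Nat.divisorsAntidiagonal m,
      F_04_K a b c (sigmaAntidiagonalEquivProd ⟨m, x⟩) = FF a b c m := by
    intro m
    rw [tsum_fintype]
    have h1 : ∀ x : Nat.divisorsAntidiagonal m,
        F_04_K a b c (sigmaAntidiagonalEquivProd ⟨m, x⟩) =
          (fun x : ℕ × ℕ => hh m * rr c m *
            ((Nat.totient x.1 : ℝ) * (x.1 : ℝ) ^ (-(2 + a)) * (x.2 : ℝ) ^ (-(1 + b)))) x := by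
      rintro ⟨⟨u, v⟩, hx⟩
      have h2 : u * v = (m : ℕ) := (Nat.mem_divisorsAntidiagonal.1 hx).1
      show hh (u * v) * rr c (u * v) * _ = _
      rw [h2]
      rfl
    rw [Finset.sum_congr rfl fun x _ => h1 x]
    rw [Finset.sum_coe_sort (Nat.divisorsAntidiagonal m) (fun x : ℕ × ℕ => hh m * rr c m *
            ((Nat.totient x.1 : ℝ) * (x.1 : ℝ) ^ (-(2 + a)) * (x.2 : ℝ) ^ (-(1 + b))))]
    rw [← Finset.mul_sum]
    rfl
  have hsP : Summable fun m : ℕ+ => FF a b c m := by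
    have h1 := hsig.sigma
    simp only [hfib] at h1
    exact h1
  have htP : ∑' p, F_04_K a b c p = ∑' m : ℕ+, FF a b c m := by
    rw [← sigmaAntidiagonalEquivProd.tsum_eq (F_04_K a b c), hsig.tsum_sigma]
    exact tsum_congr hfib
  have hinj : Function.Injective (fun m : ℕ+ => (m : ℕ)) := PNat.coe_injective
  have hout : ∀ x ∉ Set.range (fun m : ℕ+ => (m : ℕ)), FF a b c x = 0 := by
    intro x hx
    rcases Nat.eq_zero_or_pos x with rfl | h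
    · exact F_04_FF0 a b c
    · exact absurd ⟨⟨x, h⟩, rfl⟩ hx
  constructor
  · exact (hinj.summable_iff hout).1 hsP
  · rw [ht, hs'.tsum_prod]
    simp only [inner]
    rw [tsum_mul_left, htP]
    congr 1
    refine hinj.tsum_eq (f := fun m : ℕ => FF a b c m) ?_
    intro x hx
    by_contra h
    exact hx (hout x h)

/-- `FF ≥ 0`. -/
theorem FF_nonneg (a b c : ℝ) (hc : 0 ≤ c) (m : ℕ) : 0 ≤ FF a b c m := by
  unfold FF
  have h1 : 0 ≤ hh m := Finset.sum_nonneg fun d _ => by positivity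
  have h2 : 0 ≤ rr c m := by
    unfold rr
    refine Finset.prod_nonneg fun p hp => ?_
    have hp1 : (1 : ℝ) ≤ p := by exact_mod_cast (Nat.prime_of_mem_primeFactors hp).one_le
    have h3 : (p : ℝ) ^ (-(1 + c)) ≤ 1 := Real.rpow_le_one_of_one_le_of_nonpos hp1 (by linarith)
    linarith
  have h3 : 0 ≤ cv a b m := Finset.sum_nonneg fun x _ => by positivity
  positivity

end Pool.Agent.LibSM47.FL
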