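import Pool.Agent.LibSM47.F_Defs


set_option autoImplicit false

namespace Pool.Agent.LibSM47.FL

open MeasureTheory Set Filter Topology
open Pool.Agent.LibZM

/-- SHORT. -/
theorem FF_zero (a b c : ℝ) : FF a b c 0 = 0 := by
  simp [FF, hh]

/-- SHORT. -/
theorem FF_one (a b c : ℝ) : FF a b c 1 = 1 := by
  simp [FF, hh, rr, cv]

private noncomputable def F_05_f1 : ArithmeticFunction ℝ := ⟨fun n => (Nat.totient n : ℝ) / n, by simp⟩

private noncomputable def F_05_f2 (a : ℝ) : ArithmeticFunction ℝ :=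
  ⟨fun n => (Nat.totient n : ℝ) * (n : ℝ) ^ (-(2 + a)), by simp⟩

private noncomputable def F_05_f3 (b : ℝ) : ArithmeticFunction ℝ :=
  ⟨fun n => if n = 0 then 0 else (n : ℝ) ^ (-(1 + b)), by simp⟩

private theorem F_05_m1 : (F_05_f1).IsMultiplicative := by
  rw [ArithmeticFunction.IsMultiplicative.iff_ne_zero]
  refine ⟨by simp [F_05_f1], fun {m n} hm hn h => ?_⟩
  simp only [F_05_f1, ArithmeticFunction.coe_mk]
  rw [Nat.totient_mul h]
  push_cast
  have : (m : ℝ) ≠ 0 := Nat.cast_ne_zero.2 hm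
  have : (n : ℝ) ≠ 0 := Nat.cast_ne_zero.2 hn
  field_simp

private theorem F_05_m2 (a : ℝ) : (F_05_f2 a).IsMultiplicative := by
  rw [ArithmeticFunction.IsMultiplicative.iff_ne_zero]
  refine ⟨by simp [F_05_f2], fun {m n} hm hn h => ?_⟩
  simp only [F_05_f2, ArithmeticFunction.coe_mk]
  rw [Nat.totient_mul h]
  push_cast
  rw [Real.mul_rpow (Nat.cast_nonneg m) (Nat.cast_nonneg n)]
  ring

private theorem F_05_m3 (b : ℝ) : (F_05_f3 b).IsMultiplicative := by
  rw [ArithmeticFunction.IsMultiplicative.iff_ne_zero]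
  refine ⟨by simp [F_05_f3], fun {m n} hm hn h => ?_⟩
  simp only [F_05_f3, ArithmeticFunction.coe_mk]
  rw [if_neg hm, if_neg hn, if_neg (Nat.mul_ne_zero hm hn)]
  push_cast
  rw [Real.mul_rpow (Nat.cast_nonneg m) (Nat.cast_nonneg n)]

private theorem F_05_hh (m : ℕ) : hh m = (F_05_f1 * ArithmeticFunction.zeta) m := by
  rw [ArithmeticFunction.coe_mul_zeta_apply]
  rfl

private theorem F_05_cv (a b : ℝ) (m : ℕ) : cv a b m = (F_05_f2 a * F_05_f3 b) m := by
  rw [ArithmeticFunction.mul_apply, cv]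
  refine Finset.sum_congr rfl fun x hx => ?_
  have h2 : x.2 ≠ 0 := (Nat.ne_zero_of_mem_divisorsAntidiagonal hx).2
  simp only [F_05_f2, F_05_f3, ArithmeticFunction.coe_mk]
  rw [if_neg h2]

/-- Multiplicativity. `hh` is the Dirichlet convolution of the multiplicative function `φ(d)/d` with `ζ`; `rr`: `primeFactors` of a
coprime product is the disjoint union; `cv` is the convolution of `φ(d) d^{-2-a}` and `e^{-1-b}` (`ArithmeticFunction.IsMultiplicative.mul`). -/
theorem FF_mul (a b c : ℝ) (m n : ℕ) (h : Nat.Coprime m n) : FF a b c (m * n) = FF a b c m * FF a b c n := by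
  have h1 : hh (m * n) = hh m * hh n := by
    rw [F_05_hh, F_05_hh, F_05_hh]
    exact (F_05_m1.mul (ArithmeticFunction.isMultiplicative_zeta.natCast)).map_mul_of_coprime h
  have h2 : cv a b (m * n) = cv a b m * cv a b n := by
    rw [F_05_cv, F_05_cv, F_05_cv]
    exact ((F_05_m2 a).mul (F_05_m3 b)).map_mul_of_coprime h
  have h3 : rr c (m * n) = rr c m * rr c n := by
    rw [rr, rr, rr, h.primeFactors_mul, Finset.prod_union h.disjoint_primeFactors]
  rw [FF, FF, FF, h1, h2, h3]
  ring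

end Pool.Agent.LibSM47.FL
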