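import Pool.Agent.LibSM47.F_Defs


set_option autoImplicit false

namespace Pool.Agent.LibSM47.FL

open MeasureTheory Set Filter Topology
open Pool.Agent.LibZM

private theorem F_06_tot (p : ℕ) (hp : p.Prime) (i : ℕ) (hi : 1 ≤ i) :
    (Nat.totient (p ^ i) : ℝ) = (1 - (p : ℝ)⁻¹) * (p : ℝ) ^ i := by
  obtain ⟨k, rfl⟩ : ∃ k, i = k + 1 := ⟨i - 1, by omega⟩
  have hp0 : (p : ℝ) ≠ 0 := Nat.cast_ne_zero.2 hp.ne_zero
  rw [Nat.totient_prime_pow_succ hp, Nat.cast_mul, Nat.cast_pow, Nat.cast_sub hp.one_le,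
    Nat.cast_one, pow_succ]
  field_simp

private theorem F_06_hh (p : ℕ) (hp : p.Prime) (j : ℕ) :
    hh (p ^ j) = 1 + j * (1 - (p : ℝ)⁻¹) := by
  have hp0 : (p : ℝ) ≠ 0 := Nat.cast_ne_zero.2 hp.ne_zero
  rw [hh, Nat.sum_divisors_prime_pow hp, Finset.sum_range_succ']
  have h1 : ∀ k ∈ Finset.range j, (Nat.totient (p ^ (k + 1)) : ℝ) / ((p ^ (k + 1) : ℕ) : ℝ) =
      1 - (p : ℝ)⁻¹ := by
    intro k _
    rw [F_06_tot p hp (k + 1) (by omega), Nat.cast_pow, mul_div_assoc,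
      div_self (pow_ne_zero _ hp0), mul_one]
  rw [Finset.sum_congr rfl h1, Finset.sum_const, Finset.card_range, nsmul_eq_mul]
  simp
  ring

private theorem F_06_cv (a b : ℝ) (p : ℕ) (hp : p.Prime) (j : ℕ) :
    cv a b (p ^ j) = ((p : ℝ) ^ (-(1 + b))) ^ j + (1 - (p : ℝ)⁻¹) *
        ∑ i ∈ Finset.Icc 1 j, ((p : ℝ) ^ (-(1 + a))) ^ i * ((p : ℝ) ^ (-(1 + b))) ^ (j - i) := by
  have hp0 : (0 : ℝ) < p := Nat.cast_pos.2 hp.pos
  have hpow : ∀ (k : ℕ) (s : ℝ), ((p ^ k : ℕ) : ℝ) ^ s = ((p : ℝ) ^ s) ^ k := by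
    intro k s
    rw [Nat.cast_pow, ← Real.rpow_natCast, ← Real.rpow_natCast, ← Real.rpow_mul hp0.le,
      ← Real.rpow_mul hp0.le, mul_comm]
  rw [cv, Nat.sum_divisorsAntidiagonal (fun x y => (Nat.totient x : ℝ) * (x : ℝ) ^ (-(2 + a)) *
    (y : ℝ) ^ (-(1 + b))), Nat.sum_divisors_prime_pow hp, Finset.range_eq_Ico,
    Finset.sum_eq_sum_Ico_succ_bot (Nat.succ_pos j)]
  congr 1
  · rw [pow_zero, Nat.totient_one, Nat.div_one, hpow j]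
    simp
  · rw [Finset.mul_sum]
    have hI : Finset.Ico (0 + 1) (j + 1) = Finset.Icc 1 j := by
      ext x
      simp only [Finset.mem_Ico, Finset.mem_Icc]
      omega
    rw [hI]
    refine Finset.sum_congr rfl fun i hi => ?_
    obtain ⟨h1, h2⟩ := Finset.mem_Icc.1 hi
    rw [F_06_tot p hp i h1, Nat.pow_div h2 hp.pos, hpow, hpow]
    have h3 : (p : ℝ) ^ (-(2 + a)) = (p : ℝ) ^ (-(1 + a)) * (p : ℝ)⁻¹ := by
      rw [← Real.rpow_neg_one, ← Real.rpow_add hp0]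
      congr 1
      ring
    rw [h3, mul_pow, inv_pow]
    have h4 : (p : ℝ) ^ i ≠ 0 := pow_ne_zero _ hp0.ne'
    field_simp

/-- Values at prime powers, `x = p^{-1-a}`, `y = p^{-1-b}`, `z = p^{-1-c}`, `u = 1/p`:
`hh (p^j) = 1 + j(1-u)`, `rr c (p^j) = 1 - z`, `cv a b (p^j) = y^j + (1-u) ∑_{i=1}^j x^i y^{j-i}` (`Nat.divisorsAntidiagonal_prime_pow`
or `Nat.sum_divisorsAntidiagonal` + `Nat.divisors_prime_pow`, `Nat.totient_prime_pow`). -/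
theorem FF_prime_pow (a b c : ℝ) (p : ℕ) (hp : p.Prime) (j : ℕ) (hj : 1 ≤ j) :
    FF a b c (p ^ j) = (1 - (p : ℝ) ^ (-(1 + c))) * ((1 + j * (1 - (p : ℝ)⁻¹)) *
      (((p : ℝ) ^ (-(1 + b))) ^ j + (1 - (p : ℝ)⁻¹) *
        ∑ i ∈ Finset.Icc 1 j, ((p : ℝ) ^ (-(1 + a))) ^ i * ((p : ℝ) ^ (-(1 + b))) ^ (j - i))) := by
  have hr : rr c (p ^ j) = 1 - (p : ℝ) ^ (-(1 + c)) := by
    rw [rr, Nat.primeFactors_prime_pow (by omega) hp, Finset.prod_singleton]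
  rw [FF, F_06_hh p hp j, F_06_cv a b p hp j, hr]
  ring

end Pool.Agent.LibSM47.FL
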