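import Pool.Agent.LibSM47.F_Defs


set_option autoImplicit false

namespace Pool.Agent.LibSM47.FL

open MeasureTheory Set Filter Topology
open Pool.Agent.LibZM

private theorem F_07_cauchy {f g : ℕ → ℝ} {a b : ℝ} (hf : HasSum f a) (hg : HasSum g b) :
    HasSum (fun n => ∑ k ∈ Finset.range (n + 1), f k * g (n - k)) (a * b) := by
  have hf' : Summable fun n => ‖f n‖ := summable_norm_iff.2 hf.summable
  have hg' : Summable fun n => ‖g n‖ := summable_norm_iff.2 hg.summable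
  have h1 := tsum_mul_tsum_eq_tsum_sum_antidiagonal_of_summable_norm hf' hg'
  have h2 := (summable_norm_sum_mul_antidiagonal_of_summable_norm hf' hg').of_norm
  have h3 := h2.hasSum
  rw [← h1, hf.tsum_eq, hg.tsum_eq] at h3
  refine h3.congr_fun fun n => ?_
  exact (Finset.Nat.sum_antidiagonal_eq_sum_range_succ (fun i j => f i * g j) n).symm

/-- Only Mathlib (power series). `Y_j = y^j + (1-u)∑_{i=1}^j x^i y^{j-i}` has generating function `(1-u x t)/((1-x t)(1-y t)) = G(t)`;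
`∑ (1+j(1-u)) Y_j = G(1) + (1-u) G'(1)`, `G'/G (1) = -ux/(1-ux) + x/(1-x) + y/(1-y)`. E.g. write
`Y_j = ∑_{i=0}^j x^i y^{j-i} - u ∑_{i=1}^j x^i y^{j-i}` and use Cauchy products (`∑ x^i`, `∑ i x^i`: `hasSum_geometric_of_lt_one`,
`hasSum_coe_mul_geometric_of_norm_lt_one`) with `j = i + (j-i)`. Checked numerically. -/
theorem local_sum (x y u : ℝ) (hx : 0 ≤ x) (hx1 : x < 1) (hy : 0 ≤ y) (hy1 : y < 1) :
    HasSum (fun j : ℕ => (1 + j * (1 - u)) * (y ^ j + (1 - u) * ∑ i ∈ Finset.Icc 1 j, x ^ i * y ^ (j - i)))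
      (PS x y u / ((1 - x) ^ 2 * (1 - y) ^ 2)) := by
  have hxn : ‖x‖ < 1 := by rw [Real.norm_of_nonneg hx]; exact hx1
  have hyn : ‖y‖ < 1 := by rw [Real.norm_of_nonneg hy]; exact hy1
  have gx := hasSum_geometric_of_lt_one hx hx1
  have gy := hasSum_geometric_of_lt_one hy hy1
  have dx := hasSum_coe_mul_geometric_of_norm_lt_one hxn
  have dy := hasSum_coe_mul_geometric_of_norm_lt_one hyn
  have c0 := F_07_cauchy gx gy
  have c1 := F_07_cauchy dx gy
  have c2 := F_07_cauchy gx dy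
  have h1 := (((c0.mul_left (1 - u)).add ((c1.add c2).mul_left ((1 - u) ^ 2))).add
    (gy.mul_left u)).add (dy.mul_left (u * (1 - u)))
  have hx' : (1 : ℝ) - x ≠ 0 := by linarith
  have hy' : (1 : ℝ) - y ≠ 0 := by linarith
  have hval : PS x y u / ((1 - x) ^ 2 * (1 - y) ^ 2) =
      (1 - u) * ((1 - x)⁻¹ * (1 - y)⁻¹) +
        (1 - u) ^ 2 * (x / (1 - x) ^ 2 * (1 - y)⁻¹ + (1 - x)⁻¹ * (y / (1 - y) ^ 2)) +
        u * (1 - y)⁻¹ + u * (1 - u) * (y / (1 - y) ^ 2) := by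
    unfold PS
    field_simp
    ring
  rw [hval]
  refine h1.congr_fun fun j => ?_
  have e1 : ∑ k ∈ Finset.range (j + 1), x ^ k * y ^ (j - k) =
      y ^ j + ∑ i ∈ Finset.Icc 1 j, x ^ i * y ^ (j - i) := by
    rw [Finset.range_eq_Ico, Finset.sum_eq_sum_Ico_succ_bot (Nat.succ_pos j)]
    rw [pow_zero, one_mul, Nat.sub_zero]
    rfl
  have e2 : ∑ k ∈ Finset.range (j + 1), ↑k * x ^ k * y ^ (j - k) +
      ∑ k ∈ Finset.range (j + 1), x ^ k * (((j - k : ℕ) : ℝ) * y ^ (j - k)) =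
      j * ∑ k ∈ Finset.range (j + 1), x ^ k * y ^ (j - k) := by
    rw [← Finset.sum_add_distrib, Finset.mul_sum]
    refine Finset.sum_congr rfl fun k hk => ?_
    have hk' : k ≤ j := Nat.lt_succ_iff.1 (Finset.mem_range.1 hk)
    rw [Nat.cast_sub hk']
    ring
  rw [e2, e1]
  ring

end Pool.Agent.LibSM47.FL
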