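import Pool.Agent.LibSM47.F_Defs
import Pool.Agent.LibSM47.F_07

set_option autoImplicit false

namespace Pool.Agent.LibSM47.FL

open MeasureTheory Set Filter Topology
open Pool.Agent.LibZM

/-- Only algebra: `EE - 1` has no linear term in `x, y, z ≤ u` (numerically `|EE-1| ≤ 9 u²`). -/
theorem EE_sub_one (x y z u : ℝ) (hx : 0 ≤ x) (hxu : x ≤ u) (hy : 0 ≤ y) (hyu : y ≤ u) (hz : 0 ≤ z) (hzu : z ≤ u) (hu : u ≤ 1 / 2) :
    |EE x y z u - 1| ≤ 40 * u ^ 2 := by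
  have hu0 : 0 ≤ u := hx.trans hxu
  have hxy0 : 0 ≤ x * y := mul_nonneg hx hy
  have hxy : x * y ≤ u ^ 2 := by nlinarith
  have hux : u * x ≤ u ^ 2 := by nlinarith
  have hux0 : 0 ≤ u * x := mul_nonneg hu0 hx
  have hx2 : x ≤ 1 / 2 := hxu.trans hu
  have hy2 : y ≤ 1 / 2 := hyu.trans hu
  have hz2 : z ≤ 1 / 2 := hzu.trans hu
  have ht0 : 0 ≤ x + y - 2 * (x * y) := by nlinarith
  have hs0 : 0 ≤ u * (x + y - 2 * (x * y)) := mul_nonneg hu0 ht0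
  have hs1 : u * (x + y - 2 * (x * y)) ≤ 2 * u ^ 2 := by nlinarith
  have hu2 : u ^ 2 ≤ 1 / 4 := by nlinarith
  -- the polynomial `PS`
  have hPS : PS x y u - 1 = -(x * y) - u * (x + y - 2 * (x * y)) -
      u * x * (1 - x * y - u * (x + y - 2 * (x * y))) - (1 - u) * (u * x) * ((1 - x) * (1 - y)) := by
    unfold PS
    ring
  have hw0 : 0 ≤ 1 - x * y - u * (x + y - 2 * (x * y)) := by nlinarith
  have hw1 : 1 - x * y - u * (x + y - 2 * (x * y)) ≤ 1 := by linarith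
  have hv0 : 0 ≤ u * x * (1 - x * y - u * (x + y - 2 * (x * y))) := mul_nonneg hux0 hw0
  have hv1 : u * x * (1 - x * y - u * (x + y - 2 * (x * y))) ≤ u ^ 2 :=
    (mul_le_of_le_one_right hux0 hw1).trans hux
  have hq0 : 0 ≤ (1 - x) * (1 - y) := mul_nonneg (by linarith) (by linarith)
  have hq1 : (1 - x) * (1 - y) ≤ 1 := by nlinarith
  have hr0 : 0 ≤ (1 - u) * (u * x) := mul_nonneg (by linarith) hux0
  have hr1 : (1 - u) * (u * x) ≤ u ^ 2 := by nlinarith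
  have hp0 : 0 ≤ (1 - u) * (u * x) * ((1 - x) * (1 - y)) := mul_nonneg hr0 hq0
  have hp1 : (1 - u) * (u * x) * ((1 - x) * (1 - y)) ≤ u ^ 2 :=
    (mul_le_of_le_one_right hr0 hq1).trans hr1
  have hPS0 : PS x y u - 1 ≤ 0 := by rw [hPS]; linarith
  have hPS1 : -(5 * u ^ 2) ≤ PS x y u - 1 := by rw [hPS]; linarith
  -- the first part
  have hA0 : (1 - x) ^ 2 * (1 - y) ^ 2 - 1 ≤ 0 := by
    have : (1 - x) ^ 2 * (1 - y) ^ 2 = ((1 - x) * (1 - y)) ^ 2 := by ring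
    rw [this]
    nlinarith
  have hA1 : -(4 * u) ≤ (1 - x) ^ 2 * (1 - y) ^ 2 - 1 := by
    have h1 : (1 - x) ^ 2 * (1 - y) ^ 2 = ((1 - x) * (1 - y)) ^ 2 := by ring
    have h2 : 1 - 2 * u ≤ (1 - x) * (1 - y) := by nlinarith
    have h3 : 0 ≤ 1 - 2 * u := by linarith
    rw [h1]
    nlinarith
  have hE : EE x y z u - 1 = z * ((1 - x) ^ 2 * (1 - y) ^ 2 - 1) + (1 - z) * (PS x y u - 1) := by
    unfold EE
    ring
  rw [hE, abs_le]
  have hz1 : 0 ≤ 1 - z := by linarith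
  have hm1 : z * ((1 - x) ^ 2 * (1 - y) ^ 2 - 1) ≤ 0 := mul_nonpos_of_nonneg_of_nonpos hz hA0
  have hm2 : (1 - z) * (PS x y u - 1) ≤ 0 := mul_nonpos_of_nonneg_of_nonpos hz1 hPS0
  have hm3 : -(4 * u ^ 2) ≤ z * ((1 - x) ^ 2 * (1 - y) ^ 2 - 1) := by nlinarith
  have hm4 : -(5 * u ^ 2) ≤ (1 - z) * (PS x y u - 1) := by nlinarith
  constructor
  · nlinarith
  · nlinarith [sq_nonneg u]

/-- `EE = (1-x)²(1-y)² (z + (1-z) S)` with `S ≥ 1` (`local_sum`: the term `j = 0` is `1`, all terms are nonnegative), so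
`EE ≥ (1-x)²(1-y)² ≥ 1/16`. -/
theorem EE_lower (x y z u : ℝ) (hx : 0 ≤ x) (hxu : x ≤ 1 / 2) (hy : 0 ≤ y) (hyu : y ≤ 1 / 2) (hz : 0 ≤ z) (hzu : z ≤ 1)
    (hu0 : 0 ≤ u) (hu : u ≤ 1) : 1 / 16 ≤ EE x y z u := by
  have h1 := local_sum x y u hx (by linarith) hy (by linarith)
  have h2 : (1 : ℝ) ≤ PS x y u / ((1 - x) ^ 2 * (1 - y) ^ 2) := by
    have h3 := le_hasSum h1 0 (fun j _ => by
      have h4 : 0 ≤ ∑ i ∈ Finset.Icc 1 j, x ^ i * y ^ (j - i) :=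
        Finset.sum_nonneg fun i _ => by positivity
      have h5 : 0 ≤ 1 - u := by linarith
      positivity)
    simpa using h3
  have hA : 0 < (1 - x) ^ 2 * (1 - y) ^ 2 := by
    have h3 : 0 < 1 - x := by linarith
    have h4 : 0 < 1 - y := by linarith
    positivity
  rw [le_div_iff₀ hA, one_mul] at h2
  have hB : 1 / 16 ≤ (1 - x) ^ 2 * (1 - y) ^ 2 := by
    have h3 : 1 / 4 ≤ (1 - x) ^ 2 := by nlinarith
    have h4 : 1 / 4 ≤ (1 - y) ^ 2 := by nlinarith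
    calc (1 : ℝ) / 16 = 1 / 4 * (1 / 4) := by norm_num
      _ ≤ _ := mul_le_mul h3 h4 (by norm_num) (by positivity)
  unfold EE
  have h6 : (1 - z) * ((1 - x) ^ 2 * (1 - y) ^ 2) ≤ (1 - z) * PS x y u :=
    mul_le_mul_of_nonneg_left h2 (by linarith)
  linarith

/-- `|log E| ≤ |E-1|/min(E,1)`. -/
theorem abs_log_EE (x y z u : ℝ) (hx : 0 ≤ x) (hxu : x ≤ u) (hy : 0 ≤ y) (hyu : y ≤ u) (hz : 0 ≤ z) (hzu : z ≤ u) (hu : u ≤ 1 / 2) :
    |Real.log (EE x y z u)| ≤ 640 * u ^ 2 := by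
  have h1 := EE_sub_one x y z u hx hxu hy hyu hz hzu hu
  have h2 := EE_lower x y z u hx (hxu.trans hu) hy (hyu.trans hu) hz (by linarith)
    (hx.trans hxu) (by linarith)
  have hE : 0 < EE x y z u := by linarith
  have h3 := Real.log_le_sub_one_of_pos hE
  have h4 := Real.one_sub_inv_le_log_of_pos hE
  have h5 : -(640 * u ^ 2) ≤ 1 - (EE x y z u)⁻¹ := by
    rw [abs_le] at h1
    have h6 : 1 - (EE x y z u)⁻¹ = (EE x y z u - 1) / EE x y z u := by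
      field_simp
    rw [h6, le_div_iff₀ hE]
    nlinarith [sq_nonneg u]
  rw [abs_le] at h1 ⊢
  constructor
  · linarith
  · nlinarith [sq_nonneg u]

end Pool.Agent.LibSM47.FL
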