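import Pool.Agent.LibSM47.F_Defs


set_option autoImplicit false

namespace Pool.Agent.LibSM47.FL

open MeasureTheory Set Filter Topology
open Pool.Agent.LibZM

private theorem F_09_dcoef (a : ℕ) : dcoef 3 a = ((a : ℝ) + 1) * ((a : ℝ) + 2) / 2 := by
  unfold dcoef
  induction a with
  | zero => simp
  | succ n ih =>
    rw [Finset.prod_range_succ, ih]
    have h : (n : ℝ) + 1 ≠ 0 := by positivity
    push_cast
    field_simp
    ring

private theorem F_09_choose (a : ℕ) : dcoef 3 a ^ 2 =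
    6 * ((a + 4).choose 4 : ℝ) - 6 * ((a + 3).choose 3 : ℝ) + ((a + 2).choose 2 : ℝ) := by
  rw [F_09_dcoef]
  have h2 : ((a : ℝ) + 2) * ((a : ℝ) + 1) = ((a + 2).choose 2 : ℝ) * 2 := by
    have h := Nat.add_one_mul_choose_eq (a + 1) 1
    rw [Nat.choose_one_right] at h
    exact_mod_cast h
  have h3 : ((a : ℝ) + 3) * ((a + 2).choose 2 : ℝ) = ((a + 3).choose 3 : ℝ) * 3 := by
    exact_mod_cast Nat.add_one_mul_choose_eq (a + 2) 2
  have h4 : ((a : ℝ) + 4) * ((a + 3).choose 3 : ℝ) = ((a + 4).choose 4 : ℝ) * 4 := by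
    exact_mod_cast Nat.add_one_mul_choose_eq (a + 3) 3
  have e2 : ((a + 2).choose 2 : ℝ) = ((a : ℝ) + 2) * ((a : ℝ) + 1) / 2 := by linarith
  have e3 : ((a + 3).choose 3 : ℝ) = ((a : ℝ) + 3) * (((a : ℝ) + 2) * ((a : ℝ) + 1) / 2) / 3 := by
    rw [← e2]
    linarith
  have e4 : ((a + 4).choose 4 : ℝ) =
      ((a : ℝ) + 4) * (((a : ℝ) + 3) * (((a : ℝ) + 2) * ((a : ℝ) + 1) / 2) / 3) / 4 := by
    rw [← e3]
    linarith
  rw [e4, e3, e2]
  ring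

private theorem F_09_sum (u : ℝ) (hu : 0 ≤ u) (hu1 : u < 1) :
    Gsum 3 u = 6 * (1 / (1 - u) ^ 5) - 6 * (1 / (1 - u) ^ 4) + 1 / (1 - u) ^ 3 := by
  have hn : ‖u‖ < 1 := by rwa [Real.norm_of_nonneg hu]
  have h4 := hasSum_choose_mul_geometric_of_norm_lt_one 4 hn
  have h3 := hasSum_choose_mul_geometric_of_norm_lt_one 3 hn
  have h2 := hasSum_choose_mul_geometric_of_norm_lt_one 2 hn
  have h := ((h4.mul_left 6).sub (h3.mul_left 6)).add h2
  unfold Gsum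
  have e : (fun a : ℕ => dcoef 3 a ^ 2 * u ^ a) = fun n : ℕ =>
      6 * (((n + 4).choose 4 : ℝ) * u ^ n) - 6 * (((n + 3).choose 3 : ℝ) * u ^ n) +
        ((n + 2).choose 2 : ℝ) * u ^ n := by
    funext n
    rw [F_09_choose]
    ring
  rw [e]
  exact h.tsum_eq

/-- `dcoef 3 a = (a+1)(a+2)/2`, `∑ ((a+1)(a+2)/2)² u^a = (1+4u+u²)/(1-u)^5` (e.g. `((a+1)(a+2)/2)^2 = 6 C(a+4,4) - 6 C(a+3,3) + C(a+2,2)`
and `tsum_choose_mul_geometric_of_norm_lt_one` / `hasSum_choose_mul_geometric_of_norm_lt_one`), `Efac 3 u = (1-u)^9 Gsum 3 u`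
(the exponent is the real number `3^2`), and `EE u u u u = (1-u)^4 (1+4u+u²)` (`unfold EE PS; ring`). -/
theorem EE_diag (u : ℝ) (hu : 0 ≤ u) (hu1 : u < 1) : EE u u u u = Efac 3 u := by
  have h1 : 1 - u ≠ 0 := by linarith
  unfold Efac
  rw [F_09_sum u hu hu1]
  have h9 : (1 - u) ^ ((3 : ℝ) ^ 2) = (1 - u) ^ 9 := by
    rw [show ((3 : ℝ) ^ 2) = ((9 : ℕ) : ℝ) by norm_num, Real.rpow_natCast]
  rw [h9]
  unfold EE PS
  field_simp
  ring

end Pool.Agent.LibSM47.FL
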