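import Pool.Agent.LibSM47.F_Defs
import Pool.Agent.LibSM47.F_04
import Pool.Agent.LibSM47.F_05
import Pool.Agent.LibSM47.F_06
import Pool.Agent.LibSM47.F_08

set_option autoImplicit false

namespace Pool.Agent.LibSM47.FL

open MeasureTheory Set Filter Topology
open Pool.Agent.LibZM

/-- `∑'_j FF (p^j) = z + (1-z) PS/((1-x)²(1-y)²)` (`FF_one`, `FF_prime_pow`, `local_sum`). -/
theorem FF_local (a b c : ℝ) (ha : 0 < a) (hb : 0 < b) (hc : 0 < c) (p : ℕ) (hp : p.Prime) :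
    (1 - (p : ℝ) ^ (-(1 + a))) ^ 2 * (1 - (p : ℝ) ^ (-(1 + b))) ^ 2 * ∑' j : ℕ, FF a b c (p ^ j) =
      EE ((p : ℝ) ^ (-(1 + a))) ((p : ℝ) ^ (-(1 + b))) ((p : ℝ) ^ (-(1 + c))) (p : ℝ)⁻¹ := by
  set x := (p : ℝ) ^ (-(1 + a)) with hx
  set y := (p : ℝ) ^ (-(1 + b)) with hy
  set z := (p : ℝ) ^ (-(1 + c)) with hz
  set u := (p : ℝ)⁻¹ with hu
  obtain ⟨hx0, hx1, -⟩ := prime_rpow_mem (σ := 1 + a) (by linarith) ⟨p, hp⟩
  obtain ⟨hy0, hy1, -⟩ := prime_rpow_mem (σ := 1 + b) (by linarith) ⟨p, hp⟩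
  simp only [] at hx0 hx1 hy0 hy1
  rw [← hx] at hx0 hx1
  rw [← hy] at hy0 hy1
  have hS := local_sum x y u hx0.le (by linarith) hy0.le (by linarith)
  have h1 : HasSum (fun j : ℕ => FF a b c (p ^ j)) ((1 - z) * (PS x y u / ((1 - x) ^ 2 * (1 - y) ^ 2)) + z) := by
    have h2 := (hS.mul_left (1 - z)).add (hasSum_ite_eq (0 : ℕ) z)
    have e : (fun j : ℕ => FF a b c (p ^ j)) = fun j : ℕ => (1 - z) * ((1 + j * (1 - u)) *
        (y ^ j + (1 - u) * ∑ i ∈ Finset.Icc 1 j, x ^ i * y ^ (j - i))) + (if j = 0 then z else 0) := by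
      funext j
      rcases Nat.eq_zero_or_pos j with rfl | hj
      · simp [FF_one]
      · rw [FF_prime_pow a b c p hp j hj, if_neg (by omega), add_zero]
    rw [e]
    exact h2
  rw [h1.tsum_eq]
  unfold EE
  have e1 : (1 - x) ≠ 0 := by linarith
  have e2 : (1 - y) ≠ 0 := by linarith
  field_simp
  ring

theorem EE_log_summable (a b c : ℝ) (ha : 0 ≤ a) (hb : 0 ≤ b) (hc : 0 ≤ c) :
    Summable fun p : Nat.Primes =>
      Real.log (EE ((p : ℝ) ^ (-(1 + a))) ((p : ℝ) ^ (-(1 + b))) ((p : ℝ) ^ (-(1 + c))) (p : ℝ)⁻¹) := by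
  have hs : Summable fun p : Nat.Primes => 640 * (p : ℝ) ^ (-2 : ℝ) :=
    (Nat.Primes.summable_rpow.mpr (by norm_num)).mul_left _
  refine Summable.of_norm_bounded hs fun p => ?_
  obtain ⟨hx0, hx1, hx2⟩ := prime_rpow_mem (σ := 1 + a) (by linarith) p
  obtain ⟨hy0, hy1, hy2⟩ := prime_rpow_mem (σ := 1 + b) (by linarith) p
  obtain ⟨hz0, hz1, hz2⟩ := prime_rpow_mem (σ := 1 + c) (by linarith) p
  obtain ⟨hu0, hu1, -⟩ := prime_rpow_mem (le_refl (1 : ℝ)) p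
  rw [Real.rpow_neg_one] at hx2 hy2 hz2 hu0 hu1
  rw [Real.norm_eq_abs]
  refine (abs_log_EE _ _ _ _ hx0.le hx2 hy0.le hy2 hz0.le hz2 hu1).trans (le_of_eq ?_)
  congr 1
  rw [show (-2 : ℝ) = -((2 : ℕ) : ℝ) by norm_num, Real.rpow_neg (Nat.cast_nonneg _), Real.rpow_natCast, inv_pow]

/-- Euler product. Plan as in `LibZM.tsum_tau_sq_eq` (Asymp2) / `LibZM.Lser_eq` (MK3): `EulerProduct.eulerProduct_hasProd` for `FF a b c`
(`FF_one`, `FF_mul`, `triple_eq`.1, `FF_zero`), `hasProd_Zt_rpow` with exponent `2` (turn `rpow 2` into `^2`), `HasProd.mul`,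
`FF_local`, uniqueness with `Real.hasProd_of_hasSum_log`. -/
theorem Phi_eq (a b c : ℝ) (ha : 0 < a) (hb : 0 < b) (hc : 0 < c) :
    ∑' q : ℕ+ × ℕ+ × ℕ+, Wt q * ((q.1 : ℝ) ^ (-a) * (q.2.1 : ℝ) ^ (-b) * (q.2.2 : ℝ) ^ (-c)) =
      Zt (1 + c) * Zt (1 + a) ^ 2 * Zt (1 + b) ^ 2 *
        Real.exp (∑' p : Nat.Primes,
          Real.log (EE ((p : ℝ) ^ (-(1 + a))) ((p : ℝ) ^ (-(1 + b))) ((p : ℝ) ^ (-(1 + c))) (p : ℝ)⁻¹)) := by
  have hprod : HasProd (fun p : Nat.Primes => ∑' j : ℕ, FF a b c ((p : ℕ) ^ j)) (∑' m : ℕ, FF a b c m) :=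
    EulerProduct.eulerProduct_hasProd (R := ℝ) (f := fun m : ℕ => FF a b c m) (FF_one a b c)
      (fun {m n} h => FF_mul a b c m n h) (triple_eq a b c ha hb hc).1.norm (FF_zero a b c)
  have hA := hasProd_Zt_rpow (σ := 1 + a) (by linarith) 2
  have hB := hasProd_Zt_rpow (σ := 1 + b) (by linarith) 2
  have h1 := (hA.mul hB).mul hprod
  have e : (fun p : Nat.Primes => (1 - (p : ℝ) ^ (-(1 + a))) ^ (2 : ℝ) * (1 - (p : ℝ) ^ (-(1 + b))) ^ (2 : ℝ) *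
      ∑' j : ℕ, FF a b c ((p : ℕ) ^ j)) = fun p : Nat.Primes =>
        EE ((p : ℝ) ^ (-(1 + a))) ((p : ℝ) ^ (-(1 + b))) ((p : ℝ) ^ (-(1 + c))) (p : ℝ)⁻¹ := by
    funext p
    rw [← FF_local a b c ha hb hc p p.prop, ← Real.rpow_natCast (1 - (p : ℝ) ^ (-(1 + a))) 2,
      ← Real.rpow_natCast (1 - (p : ℝ) ^ (-(1 + b))) 2]
    norm_num
  rw [e] at h1
  have h2 : HasProd (fun p : Nat.Primes =>
      EE ((p : ℝ) ^ (-(1 + a))) ((p : ℝ) ^ (-(1 + b))) ((p : ℝ) ^ (-(1 + c))) (p : ℝ)⁻¹)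
      (Real.exp (∑' p : Nat.Primes,
          Real.log (EE ((p : ℝ) ^ (-(1 + a))) ((p : ℝ) ^ (-(1 + b))) ((p : ℝ) ^ (-(1 + c))) (p : ℝ)⁻¹))) := by
    apply Real.hasProd_of_hasSum_log
    · intro p
      obtain ⟨hx0, hx1, hx2⟩ := prime_rpow_mem (σ := 1 + a) (by linarith) p
      obtain ⟨hy0, hy1, hy2⟩ := prime_rpow_mem (σ := 1 + b) (by linarith) p
      obtain ⟨hz0, hz1, hz2⟩ := prime_rpow_mem (σ := 1 + c) (by linarith) p
      obtain ⟨hu0, hu1, -⟩ := prime_rpow_mem (le_refl (1 : ℝ)) p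
      rw [Real.rpow_neg_one] at hu0 hu1
      have := EE_lower _ _ _ _ hx0.le hx1 hy0.le hy1 hz0.le (by linarith : (p : ℝ) ^ (-(1 + c)) ≤ 1) hu0.le (by linarith)
      linarith
    · exact (EE_log_summable a b c ha.le hb.le hc.le).hasSum
  rw [(triple_eq a b c ha hb hc).2, ← h1.unique h2]
  have hZa := Zt_pos (σ := 1 + a) (by linarith)
  have hZb := Zt_pos (σ := 1 + b) (by linarith)
  have ea : Zt (1 + a) ^ 2 * Zt (1 + a) ^ (-2 : ℝ) = 1 := by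
    rw [← Real.rpow_natCast (Zt (1 + a)) 2, ← Real.rpow_add hZa]
    norm_num
  have eb : Zt (1 + b) ^ 2 * Zt (1 + b) ^ (-2 : ℝ) = 1 := by
    rw [← Real.rpow_natCast (Zt (1 + b)) 2, ← Real.rpow_add hZb]
    norm_num
  calc Zt (1 + c) * ∑' m : ℕ, FF a b c m
      = Zt (1 + c) * (Zt (1 + a) ^ 2 * Zt (1 + a) ^ (-2 : ℝ)) * (Zt (1 + b) ^ 2 * Zt (1 + b) ^ (-2 : ℝ)) *
          ∑' m : ℕ, FF a b c m := by rw [ea, eb]; ring
    _ = _ := by ring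

end Pool.Agent.LibSM47.FL
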