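import Pool.Agent.LibSM47.F_Defs
import Pool.Agent.LibSM47.F_08
import Pool.Agent.LibSM47.F_09

set_option autoImplicit false

namespace Pool.Agent.LibSM47.FL

open MeasureTheory Set Filter Topology
open Pool.Agent.LibZM

private theorem F_11_le (p : Nat.Primes) (i δ : ℝ) (hi : 0 < i) (hδ : 0 < δ) :
    0 ≤ (p : ℝ) ^ (-(1 + i * δ)) ∧ (p : ℝ) ^ (-(1 + i * δ)) ≤ (p : ℝ)⁻¹ := by
  have hp1 : (1 : ℝ) ≤ p := by exact_mod_cast p.prop.one_lt.le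
  refine ⟨Real.rpow_nonneg (by linarith) _, ?_⟩
  rw [← Real.rpow_neg_one]
  apply Real.rpow_le_rpow_of_exponent_le hp1
  have := mul_pos hi hδ
  linarith

private theorem F_11_tend (p : Nat.Primes) (i : ℝ) :
    Tendsto (fun δ : ℝ => (p : ℝ) ^ (-(1 + i * δ))) (𝓝[>] 0) (𝓝 ((p : ℝ)⁻¹)) := by
  have hp0 : (0 : ℝ) < p := by exact_mod_cast p.prop.pos
  have h1 : Tendsto (fun δ : ℝ => (p : ℝ) ^ (-(1 + i * δ))) (𝓝 0)
      (𝓝 ((p : ℝ) ^ (-(1 + i * (0 : ℝ))))) := by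
    apply Continuous.tendsto
    exact Continuous.rpow continuous_const (by fun_prop) (fun _ => Or.inl hp0.ne')
  rw [mul_zero, add_zero, Real.rpow_neg_one] at h1
  exact h1.mono_left nhdsWithin_le_nhds

/-- Dominated convergence of the logarithms (`tendsto_tsum_of_dominated_convergence`, bound `640 p^{-2}` from `abs_log_EE`;
limit term by `EE_diag` with `u = 1/p`, continuity of the polynomial `EE` and of `log` at the positive value `EE_lower`).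
Template: `LibZM.tendsto_tau_sq` (Asymp2), `LibZM.tendsto_pw` (MK3). -/
theorem log_limit (i j k : ℝ) (hi : 0 < i) (hj : 0 < j) (hk : 0 < k) :
    Tendsto (fun δ : ℝ => ∑' p : Nat.Primes,
      Real.log (EE ((p : ℝ) ^ (-(1 + i * δ))) ((p : ℝ) ^ (-(1 + j * δ))) ((p : ℝ) ^ (-(1 + k * δ))) (p : ℝ)⁻¹)) (𝓝[>] 0)
      (𝓝 (∑' p : Nat.Primes, Real.log (Efac 3 ((p : ℝ) ^ (-(1 : ℝ)))))) := by
  have hs : Summable fun p : Nat.Primes => (640 : ℝ) * (p : ℝ) ^ (-2 : ℝ) :=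
    (Nat.Primes.summable_rpow.mpr (by norm_num)).mul_left _
  have hp2 : ∀ p : Nat.Primes, (0 : ℝ) < (p : ℝ)⁻¹ ∧ (p : ℝ)⁻¹ ≤ 1 / 2 := by
    intro p
    have h2 : (2 : ℝ) ≤ p := by exact_mod_cast p.prop.two_le
    refine ⟨by positivity, ?_⟩
    rw [one_div]
    exact inv_anti₀ (by norm_num) h2
  apply tendsto_tsum_of_dominated_convergence hs
  · intro p
    obtain ⟨h0, h1⟩ := hp2 p
    have hcont : Continuous fun q : ℝ × ℝ × ℝ => EE q.1 q.2.1 q.2.2 (p : ℝ)⁻¹ := by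
      unfold EE PS
      fun_prop
    have ht : Tendsto (fun δ : ℝ => (((p : ℝ) ^ (-(1 + i * δ)), (p : ℝ) ^ (-(1 + j * δ)),
        (p : ℝ) ^ (-(1 + k * δ))) : ℝ × ℝ × ℝ)) (𝓝[>] 0)
        (𝓝 (((p : ℝ)⁻¹, (p : ℝ)⁻¹, (p : ℝ)⁻¹) : ℝ × ℝ × ℝ)) :=
      (F_11_tend p i).prodMk_nhds ((F_11_tend p j).prodMk_nhds (F_11_tend p k))
    have h2 := (hcont.tendsto ((p : ℝ)⁻¹, (p : ℝ)⁻¹, (p : ℝ)⁻¹)).comp ht
    have h3 : EE (p : ℝ)⁻¹ (p : ℝ)⁻¹ (p : ℝ)⁻¹ (p : ℝ)⁻¹ ≠ 0 := by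
      have := EE_lower (p : ℝ)⁻¹ (p : ℝ)⁻¹ (p : ℝ)⁻¹ (p : ℝ)⁻¹ h0.le h1 h0.le h1 h0.le
        (by linarith) h0.le (by linarith)
      intro h
      rw [h] at this
      norm_num at this
    have h4 := h2.log h3
    rw [Real.rpow_neg_one, ← EE_diag _ h0.le (by linarith)]
    exact h4
  · filter_upwards [self_mem_nhdsWithin] with δ hδ p
    have hδ' : (0 : ℝ) < δ := hδ
    obtain ⟨h0, h1⟩ := hp2 p
    obtain ⟨a1, a2⟩ := F_11_le p i δ hi hδ'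
    obtain ⟨b1, b2⟩ := F_11_le p j δ hj hδ'
    obtain ⟨c1, c2⟩ := F_11_le p k δ hk hδ'
    rw [Real.norm_eq_abs]
    refine (abs_log_EE _ _ _ _ a1 a2 b1 b2 c1 c2 h1).trans ?_
    have h4 : ((p : ℝ)⁻¹) ^ 2 = (p : ℝ) ^ (-2 : ℝ) := by
      rw [← Real.rpow_neg_one, ← Real.rpow_natCast, ← Real.rpow_mul (Nat.cast_nonneg _)]
      norm_num
    rw [h4]

end Pool.Agent.LibSM47.FL
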