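import Pool.Agent.LibSM47.F_Defs
import Pool.Agent.LibSM47.F_10
import Pool.Agent.LibSM47.F_11

set_option autoImplicit false

namespace Pool.Agent.LibSM47.FL

open MeasureTheory Set Filter Topology
open Pool.Agent.LibZM

private lemma F_12_rpow (q : ℕ+) (i L : ℝ) :
    Real.exp (-(i * (Real.log q / L))) = (q : ℝ) ^ (-(i * L⁻¹)) := by
  have hq : (0 : ℝ) < q := by exact_mod_cast q.pos
  rw [Real.rpow_def_of_pos hq]
  congr 1
  rw [div_eq_mul_inv]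
  ring

private lemma F_12_ee (q : ℕ+ × ℕ+ × ℕ+) (i j k L : ℝ) :
    ee i j k (Real.log q.1 / L, Real.log q.2.1 / L, Real.log q.2.2 / L) =
      (q.1 : ℝ) ^ (-(i * L⁻¹)) * (q.2.1 : ℝ) ^ (-(j * L⁻¹)) * (q.2.2 : ℝ) ^ (-(k * L⁻¹)) := by
  rw [← F_12_rpow, ← F_12_rpow, ← F_12_rpow, ← Real.exp_add, ← Real.exp_add]
  unfold ee
  congr 1
  ring

/-- The Laplace transform converges. Plan: `ee_term`, `Phi_eq` with `a = i/L` etc., `δ = 1/L → 0+` (`tendsto_inv_atTop_nhdsGT_zero`),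
`L^{-5} = δ·δ²·δ²`, `LibZM.tendsto_Zt` three times, `log_limit`, `LibZM.Aconst_eq`. -/
theorem SL_exp (i j k : ℝ) (hi : 0 < i) (hj : 0 < j) (hk : 0 < k) :
    Tendsto (SL (ee i j k)) atTop (𝓝 (Aconst 3 * (1 / (i ^ 2 * j ^ 2 * k)))) := by
  have hlog := (Real.continuous_exp.tendsto _).comp (log_limit i j k hi hj hk)
  have hZk := tendsto_Zt hk
  have hZi := (tendsto_Zt hi).pow 2
  have hZj := (tendsto_Zt hj).pow 2
  have h := ((hZk.mul hZi).mul hZj).mul hlog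
  have hδ : Tendsto (fun L : ℝ => L⁻¹) atTop (𝓝[>] 0) := tendsto_inv_atTop_nhdsGT_zero
  have h' := h.comp hδ
  have hlim : k⁻¹ * i⁻¹ ^ 2 * j⁻¹ ^ 2 *
      Real.exp (∑' p : Nat.Primes, Real.log (Efac 3 ((p : ℝ) ^ (-(1 : ℝ))))) =
      Aconst 3 * (1 / (i ^ 2 * j ^ 2 * k)) := by
    rw [Aconst_eq (by norm_num : (0 : ℝ) ≤ 3)]
    field_simp
  rw [← hlim]
  refine h'.congr' ?_
  filter_upwards [eventually_gt_atTop 0] with L hL
  have hd : 0 < L⁻¹ := inv_pos.2 hL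
  have hP := Phi_eq (i * L⁻¹) (j * L⁻¹) (k * L⁻¹) (mul_pos hi hd) (mul_pos hj hd) (mul_pos hk hd)
  have hS : SL (ee i j k) L = (L ^ 5)⁻¹ * ∑' q : ℕ+ × ℕ+ × ℕ+,
      Wt q * ((q.1 : ℝ) ^ (-(i * L⁻¹)) * (q.2.1 : ℝ) ^ (-(j * L⁻¹)) *
        (q.2.2 : ℝ) ^ (-(k * L⁻¹))) := by
    unfold SL
    congr 1
    refine tsum_congr fun q => ?_
    rw [F_12_ee]
  rw [hS, hP]
  simp only [Function.comp]
  rw [← inv_pow]
  ring

end Pool.Agent.LibSM47.FL
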