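import Pool.Agent.LibSM47.F_Defs


set_option autoImplicit false

namespace Pool.Agent.LibSM47.FL

open MeasureTheory Set Filter Topology
open Pool.Agent.LibZM

/-- Only Mathlib. Weierstrass in three variables (Stone-Weierstrass: the subalgebra of `C([0,1]³, ℝ)` generated by the three
coordinates, `ContinuousMap.subalgebra_topologicalClosure_eq_top_of_separatesPoints`, `Algebra.adjoin_range_eq_range_aeval` with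
`MvPolynomial (Fin 3) ℝ`). -/
theorem weier (H : ℝ × ℝ × ℝ → ℝ) (hH : ContinuousOn H (Icc (0 : ℝ) 1 ×ˢ Icc (0 : ℝ) 1 ×ˢ Icc (0 : ℝ) 1)) (ε : ℝ) (hε : 0 < ε) :
    ∃ p : MvPolynomial (Fin 3) ℝ, ∀ x ∈ Icc (0 : ℝ) 1 ×ˢ Icc (0 : ℝ) 1 ×ˢ Icc (0 : ℝ) 1,
      |H x - MvPolynomial.eval ![x.1, x.2.1, x.2.2] p| ≤ ε := by
  classical
  have hK : IsCompact (Icc (0 : ℝ) 1 ×ˢ Icc (0 : ℝ) 1 ×ˢ Icc (0 : ℝ) 1) :=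
    isCompact_Icc.prod (isCompact_Icc.prod isCompact_Icc)
  have : CompactSpace (Icc (0 : ℝ) 1 ×ˢ Icc (0 : ℝ) 1 ×ˢ Icc (0 : ℝ) 1 : Set (ℝ × ℝ × ℝ)) :=
    isCompact_iff_compactSpace.mp hK

  let c : Fin 3 → C((Icc (0 : ℝ) 1 ×ˢ Icc (0 : ℝ) 1 ×ˢ Icc (0 : ℝ) 1 : Set (ℝ × ℝ × ℝ)), ℝ) :=
    ![⟨fun x => x.1.1, by fun_prop⟩, ⟨fun x => x.1.2.1, by fun_prop⟩, ⟨fun x => x.1.2.2, by fun_prop⟩]
  have hsep : (Algebra.adjoin ℝ (Set.range c)).SeparatesPoints := by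
    intro x y hxy
    by_cases h1 : x.1.1 = y.1.1
    · by_cases h2 : x.1.2.1 = y.1.2.1
      · have h3 : x.1.2.2 ≠ y.1.2.2 := fun h3 => hxy (Subtype.ext (Prod.ext h1 (Prod.ext h2 h3)))
        exact ⟨_, ⟨c 2, Algebra.subset_adjoin ⟨2, rfl⟩, rfl⟩, h3⟩
      · exact ⟨_, ⟨c 1, Algebra.subset_adjoin ⟨1, rfl⟩, rfl⟩, h2⟩
    · exact ⟨_, ⟨c 0, Algebra.subset_adjoin ⟨0, rfl⟩, rfl⟩, h1⟩
  obtain ⟨g, hg⟩ := ContinuousMap.exists_mem_subalgebra_near_continuous_of_separatesPoints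
    (Algebra.adjoin ℝ (Set.range c)) hsep
    (fun x : (Icc (0 : ℝ) 1 ×ˢ Icc (0 : ℝ) 1 ×ˢ Icc (0 : ℝ) 1 : Set (ℝ × ℝ × ℝ)) => H x.1)
    (continuousOn_iff_continuous_restrict.mp hH) ε hε
  have hmem : (g : C((Icc (0 : ℝ) 1 ×ˢ Icc (0 : ℝ) 1 ×ˢ Icc (0 : ℝ) 1 : Set (ℝ × ℝ × ℝ)), ℝ)) ∈
      (MvPolynomial.aeval c : MvPolynomial (Fin 3) ℝ →ₐ[ℝ] _).range := by
    rw [← Algebra.adjoin_range_eq_range_aeval]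
    exact g.2
  obtain ⟨p, hp⟩ := hmem
  refine ⟨p, fun x hx => ?_⟩
  have h1 := hg ⟨x, hx⟩
  have h2 : (g : C((Icc (0 : ℝ) 1 ×ˢ Icc (0 : ℝ) 1 ×ˢ Icc (0 : ℝ) 1 : Set (ℝ × ℝ × ℝ)), ℝ)) ⟨x, hx⟩ =
      MvPolynomial.eval ![x.1, x.2.1, x.2.2] p := by
    rw [← hp]
    have h3 := MvPolynomial.comp_aeval_apply (R := ℝ) (f := c)
      (ContinuousMap.evalAlgHom ℝ ℝ (⟨x, hx⟩ : (Icc (0 : ℝ) 1 ×ˢ Icc (0 : ℝ) 1 ×ˢ Icc (0 : ℝ) 1 :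
        Set (ℝ × ℝ × ℝ)))) p
    have h4 : (fun i => (ContinuousMap.evalAlgHom ℝ ℝ (⟨x, hx⟩ : (Icc (0 : ℝ) 1 ×ˢ Icc (0 : ℝ) 1 ×ˢ
        Icc (0 : ℝ) 1 : Set (ℝ × ℝ × ℝ)))) (c i)) = ![x.1, x.2.1, x.2.2] := by
      funext i
      fin_cases i <;> rfl
    rw [h4] at h3
    rw [MvPolynomial.aeval_eq_eval] at h3
    exact h3
  rw [← h2, abs_sub_comm]
  exact h1.le

end Pool.Agent.LibSM47.FL
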