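import Pool.Agent.LibSM47.F_Defs
import Pool.Agent.LibSM47.F_13

set_option autoImplicit false

namespace Pool.Agent.LibSM47.FL

open MeasureTheory Set Filter Topology
open Pool.Agent.LibZM

private theorem F_14_zero (g : ℝ × ℝ × ℝ → ℝ) (R : ℝ)
    (hR : ∀ x : ℝ × ℝ × ℝ, R < x.1 ∨ R < x.2.1 ∨ R < x.2.2 → g x = 0) (y : ℝ × ℝ × ℝ)
    (hy : y.1 < Real.exp (-R) ∨ y.2.1 < Real.exp (-R) ∨ y.2.2 < Real.exp (-R)) :
    (if 0 < y.1 ∧ 0 < y.2.1 ∧ 0 < y.2.2 then
      g (-Real.log y.1, -Real.log y.2.1, -Real.log y.2.2) / (y.1 * y.2.1 * y.2.2) else 0) = 0 := by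
  by_cases h : 0 < y.1 ∧ 0 < y.2.1 ∧ 0 < y.2.2
  · rw [if_pos h]
    have key : ∀ t : ℝ, 0 < t → t < Real.exp (-R) → R < -Real.log t := by
      intro t ht h1
      have h2 := (Real.log_lt_iff_lt_exp ht).2 h1
      linarith
    rw [hR, zero_div]
    rcases hy with hy | hy | hy
    · exact Or.inl (key _ h.1 hy)
    · exact Or.inr (Or.inl (key _ h.2.1 hy))
    · exact Or.inr (Or.inr (key _ h.2.2 hy))
  · rw [if_neg h]

private theorem F_14_cont (g : ℝ × ℝ × ℝ → ℝ) (hg : Continuous g) (R : ℝ)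
    (hR : ∀ x : ℝ × ℝ × ℝ, R < x.1 ∨ R < x.2.1 ∨ R < x.2.2 → g x = 0) :
    Continuous fun y : ℝ × ℝ × ℝ => if 0 < y.1 ∧ 0 < y.2.1 ∧ 0 < y.2.2 then
      g (-Real.log y.1, -Real.log y.2.1, -Real.log y.2.2) / (y.1 * y.2.1 * y.2.2) else 0 := by
  rw [continuous_iff_continuousAt]
  intro y
  have c1 : Continuous fun z : ℝ × ℝ × ℝ => z.1 := continuous_fst
  have c2 : Continuous fun z : ℝ × ℝ × ℝ => z.2.1 := continuous_fst.comp continuous_snd
  have c3 : Continuous fun z : ℝ × ℝ × ℝ => z.2.2 := continuous_snd.comp continuous_snd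
  by_cases hy : 0 < y.1 ∧ 0 < y.2.1 ∧ 0 < y.2.2
  · have a1 : ContinuousAt (fun z : ℝ × ℝ × ℝ => Real.log z.1) y := c1.continuousAt.log hy.1.ne'
    have a2 : ContinuousAt (fun z : ℝ × ℝ × ℝ => Real.log z.2.1) y :=
      c2.continuousAt.log hy.2.1.ne'
    have a3 : ContinuousAt (fun z : ℝ × ℝ × ℝ => Real.log z.2.2) y :=
      c3.continuousAt.log hy.2.2.ne'
    have h1 : ContinuousAt (fun z : ℝ × ℝ × ℝ =>
        g (-Real.log z.1, -Real.log z.2.1, -Real.log z.2.2) / (z.1 * z.2.1 * z.2.2)) y := by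
      refine ContinuousAt.div ?_ ((c1.mul c2).mul c3).continuousAt
        (mul_pos (mul_pos hy.1 hy.2.1) hy.2.2).ne'
      exact ContinuousAt.comp (g := g)
        (f := fun z : ℝ × ℝ × ℝ => (-Real.log z.1, -Real.log z.2.1, -Real.log z.2.2))
        hg.continuousAt (a1.neg.prodMk (a2.neg.prodMk a3.neg))
    refine h1.congr ?_
    filter_upwards [c1.continuousAt.eventually (lt_mem_nhds hy.1),
      c2.continuousAt.eventually (lt_mem_nhds hy.2.1),
      c3.continuousAt.eventually (lt_mem_nhds hy.2.2)] with z h2 h3 h4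
    rw [if_pos ⟨h2, h3, h4⟩]
  · have hE : 0 < Real.exp (-R) := Real.exp_pos _
    have h2 : ∀ᶠ z : ℝ × ℝ × ℝ in 𝓝 y,
        z.1 < Real.exp (-R) ∨ z.2.1 < Real.exp (-R) ∨ z.2.2 < Real.exp (-R) := by
      rcases not_and_or.1 hy with h | h
      · exact (c1.continuousAt.eventually (gt_mem_nhds ((not_lt.1 h).trans_lt hE))).mono
          fun z hz => Or.inl hz
      · rcases not_and_or.1 h with h | h
        · exact (c2.continuousAt.eventually (gt_mem_nhds ((not_lt.1 h).trans_lt hE))).mono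
            fun z hz => Or.inr (Or.inl hz)
        · exact (c3.continuousAt.eventually (gt_mem_nhds ((not_lt.1 h).trans_lt hE))).mono
            fun z hz => Or.inr (Or.inr hz)
    exact continuousAt_const.congr (h2.mono fun z hz => (F_14_zero g R hR z hz).symm)

/-- Approximation of a test function. Plan: `H(u,v,w) = g(-log u, -log v, -log w)/(u v w)` if `u, v, w > 0`, else `0`; `H` vanishes
when one coordinate is `< e^{-R}` (compact support of `g`), so it is continuous on `[0,1]³`; `weier`; put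
`(u,v,w) = (e^{-z}, e^{-z'}, e^{-y})` and multiply by `uvw = ee 1 1 1`. -/
theorem g_approx (g : ℝ × ℝ × ℝ → ℝ) (hg : Continuous g) (hgc : HasCompactSupport g) (ε : ℝ) (hε : 0 < ε) :
    ∃ p : MvPolynomial (Fin 3) ℝ, ∀ x : ℝ × ℝ × ℝ, 0 ≤ x.1 → 0 ≤ x.2.1 → 0 ≤ x.2.2 → |g x - pe p x| ≤ ε * ee 1 1 1 x := by
  obtain ⟨R, -, hR⟩ := hgc.isCompact.isBounded.exists_pos_norm_lt
  have hR' : ∀ x : ℝ × ℝ × ℝ, R < x.1 ∨ R < x.2.1 ∨ R < x.2.2 → g x = 0 := by
    intro x hx
    by_contra h0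
    have h1 := hR x (subset_tsupport g h0)
    have h2 := norm_fst_le x
    have h3 := norm_snd_le x
    have h4 := norm_fst_le x.2
    have h5 := norm_snd_le x.2
    rw [Real.norm_eq_abs] at h2 h4 h5
    rcases hx with hx | hx | hx
    · have h6 := le_abs_self x.1
      linarith
    · have h6 := le_abs_self x.2.1
      linarith
    · have h6 := le_abs_self x.2.2
      linarith
  obtain ⟨p, hp⟩ := weier _ (F_14_cont g hg R hR').continuousOn ε hε
  refine ⟨p, fun x h1 h2 h3 => ?_⟩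
  have e0 : ∀ t : ℝ, 0 ≤ t → Real.exp (-t) ∈ Icc (0 : ℝ) 1 := fun t ht =>
    ⟨(Real.exp_pos _).le, Real.exp_le_one_iff.2 (by linarith)⟩
  have h4 := hp (Real.exp (-x.1), Real.exp (-x.2.1), Real.exp (-x.2.2))
    ⟨e0 _ h1, e0 _ h2, e0 _ h3⟩
  simp only [Real.exp_pos, and_self, if_true, Real.log_exp, neg_neg, Prod.mk.eta] at h4
  have h5 : ee 1 1 1 x = Real.exp (-x.1) * Real.exp (-x.2.1) * Real.exp (-x.2.2) := by
    unfold ee
    rw [← Real.exp_add, ← Real.exp_add]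
    congr 1
    ring
  have h6 : 0 < ee 1 1 1 x := by
    unfold ee
    exact Real.exp_pos _
  rw [← h5] at h4
  have h7 : g x - pe p x = (g x / ee 1 1 1 x -
      MvPolynomial.eval ![Real.exp (-x.1), Real.exp (-x.2.1), Real.exp (-x.2.2)] p) *
        ee 1 1 1 x := by
    unfold pe
    field_simp
  rw [h7, abs_mul, abs_of_pos h6]
  exact mul_le_mul_of_nonneg_right h4 h6.le

end Pool.Agent.LibSM47.FL
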