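import Pool.Agent.LibSM47.F_Defs


set_option autoImplicit false

namespace Pool.Agent.LibSM47.FL

open MeasureTheory Set Filter Topology
open Pool.Agent.LibZM

private theorem F_15_A {i : ℝ} (hi : 0 < i) :
    IntegrableOn (fun z : ℝ => Real.exp (-(i * z)) * z) (Ioi 0) ∧
      ∫ z in Ioi (0 : ℝ), Real.exp (-(i * z)) * z = 1 / i ^ 2 := by
  have h1 := Real.integral_rpow_mul_exp_neg_mul_Ioi (a := 2) (r := i) (by norm_num) hi
  have h2 : ∫ z in Ioi (0 : ℝ), Real.exp (-(i * z)) * z = 1 / i ^ 2 := by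
    have h3 : ∫ z in Ioi (0 : ℝ), Real.exp (-(i * z)) * z =
        ∫ t : ℝ in Ioi 0, t ^ ((2 : ℝ) - 1) * Real.exp (-(i * t)) := by
      refine setIntegral_congr_fun measurableSet_Ioi fun t _ => ?_
      have : ((2 : ℝ) - 1) = 1 := by norm_num
      simp only [this, Real.rpow_one]
      ring
    rw [h3, h1, Real.Gamma_two, mul_one, Real.rpow_two]
    rw [div_pow, one_pow]
  refine ⟨?_, h2⟩
  by_contra h
  have h4 := integral_undef h
  rw [h2] at h4
  have : (0 : ℝ) < 1 / i ^ 2 := by positivity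
  linarith

private theorem F_15_B {k : ℝ} (hk : 0 < k) :
    IntegrableOn (fun z : ℝ => Real.exp (-(k * z))) (Ioi 0) ∧
      ∫ z in Ioi (0 : ℝ), Real.exp (-(k * z)) = 1 / k := by
  have h1 := Real.integral_rpow_mul_exp_neg_mul_Ioi (a := 1) (r := k) (by norm_num) hk
  have h2 : ∫ z in Ioi (0 : ℝ), Real.exp (-(k * z)) = 1 / k := by
    have h3 : ∫ z in Ioi (0 : ℝ), Real.exp (-(k * z)) =
        ∫ t : ℝ in Ioi 0, t ^ ((1 : ℝ) - 1) * Real.exp (-(k * t)) := by
      refine setIntegral_congr_fun measurableSet_Ioi fun t _ => ?_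
      simp
    rw [h3, h1, Real.Gamma_one, mul_one, Real.rpow_one]
  refine ⟨?_, h2⟩
  by_contra h
  have h4 := integral_undef h
  rw [h2] at h4
  have : (0 : ℝ) < 1 / k := by positivity
  linarith

/-- Only Mathlib. `∫_0^∞ z e^{-iz} dz = 1/i²` (`Real.integral_rpow_mul_exp_neg_mul_Ioi` / `integral_pow_mul_exp...`), product measure
(`Measure.prod_restrict`, `MeasureTheory.integral_prod_mul`, `Integrable.mul_prod`). -/
theorem IL_exp (i j k : ℝ) (hi : 0 < i) (hj : 0 < j) (hk : 0 < k) :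
    IntegrableOn (fun x : ℝ × ℝ × ℝ => ee i j k x * (x.1 * x.2.1)) Oct ∧ IL (ee i j k) = 1 / (i ^ 2 * j ^ 2 * k) := by
  have hfun : (fun x : ℝ × ℝ × ℝ => ee i j k x * (x.1 * x.2.1)) =
      fun x : ℝ × ℝ × ℝ => (Real.exp (-(i * x.1)) * x.1) *
        ((Real.exp (-(j * x.2.1)) * x.2.1) * Real.exp (-(k * x.2.2))) := by
    funext x
    unfold ee
    rw [neg_add, neg_add, Real.exp_add, Real.exp_add]
    ring
  obtain ⟨hA1, hA2⟩ := F_15_A hi
  obtain ⟨hB1, hB2⟩ := F_15_A hj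
  obtain ⟨hC1, hC2⟩ := F_15_B hk
  constructor
  · rw [hfun]
    unfold IntegrableOn Oct
    rw [Measure.volume_eq_prod, Measure.volume_eq_prod, ← Measure.prod_restrict,
      ← Measure.prod_restrict]
    exact Integrable.mul_prod (f := fun z : ℝ => Real.exp (-(i * z)) * z)
      (g := fun y : ℝ × ℝ => (Real.exp (-(j * y.1)) * y.1) * Real.exp (-(k * y.2))) hA1
      (Integrable.mul_prod (f := fun z : ℝ => Real.exp (-(j * z)) * z)
        (g := fun z : ℝ => Real.exp (-(k * z))) hB1 hC1)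
  · unfold IL
    rw [hfun]
    unfold Oct
    have h1 := setIntegral_prod_mul (μ := (volume : Measure ℝ)) (ν := (volume : Measure (ℝ × ℝ)))
      (fun z : ℝ => Real.exp (-(i * z)) * z)
      (fun y : ℝ × ℝ => (Real.exp (-(j * y.1)) * y.1) * Real.exp (-(k * y.2)))
      (Ioi (0 : ℝ)) (Ioi (0 : ℝ) ×ˢ Ioi (0 : ℝ))
    have h2 := setIntegral_prod_mul (μ := (volume : Measure ℝ)) (ν := (volume : Measure ℝ))
      (fun z : ℝ => Real.exp (-(j * z)) * z)
      (fun z : ℝ => Real.exp (-(k * z))) (Ioi (0 : ℝ)) (Ioi (0 : ℝ))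
    rw [← Measure.volume_eq_prod] at h1 h2
    refine h1.trans ?_
    rw [h2, hA2, hB2, hC2]
    field_simp

end Pool.Agent.LibSM47.FL
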