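import Pool.Agent.LibSM47.F_Defs
import Pool.Agent.LibSM47.F_12
import Pool.Agent.LibSM47.F_15

set_option autoImplicit false

namespace Pool.Agent.LibSM47.FL

open MeasureTheory Set Filter Topology
open Pool.Agent.LibZM

/-- `pe p = ∑_{s ∈ supp p} coeff_s · ee (s 0+1) (s 1+1) (s 2+1)` (`MvPolynomial.eval_eq'`, `Fin.prod_univ_three`, `exp` of sums). -/
theorem pe_eq (p : MvPolynomial (Fin 3) ℝ) (x : ℝ × ℝ × ℝ) :
    pe p x = ∑ s ∈ p.support, p.coeff s * ee ((s 0 : ℝ) + 1) ((s 1 : ℝ) + 1) ((s 2 : ℝ) + 1) x := by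
  unfold pe
  rw [MvPolynomial.eval_eq', Finset.mul_sum]
  refine Finset.sum_congr rfl fun s _ => ?_
  have h : ∏ i : Fin 3, (![Real.exp (-x.1), Real.exp (-x.2.1), Real.exp (-x.2.2)] i) ^ s i =
      Real.exp (-x.1) ^ s 0 * Real.exp (-x.2.1) ^ s 1 * Real.exp (-x.2.2) ^ s 2 := by
    rw [Fin.prod_univ_three]
    rfl
  rw [h]
  unfold ee
  rw [← Real.exp_nat_mul, ← Real.exp_nat_mul, ← Real.exp_nat_mul, ← Real.exp_add, ← Real.exp_add,
    mul_left_comm, ← Real.exp_add]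
  congr 2
  ring

/-- Summability and the limit for `pe p` (finite linear combination of `ee_summable`, `SL_exp`, `IL_exp`). -/
theorem SL_pe (p : MvPolynomial (Fin 3) ℝ) :
    IntegrableOn (fun x : ℝ × ℝ × ℝ => pe p x * (x.1 * x.2.1)) Oct ∧
    (∀ L : ℝ, 0 < L → Summable fun q : ℕ+ × ℕ+ × ℕ+ => Wt q * pe p (Real.log q.1 / L, Real.log q.2.1 / L, Real.log q.2.2 / L)) ∧
    Tendsto (SL (pe p)) atTop (𝓝 (Aconst 3 * IL (pe p))) := by
  have hpos : ∀ n : ℕ, (0 : ℝ) < (n : ℝ) + 1 := fun n => by positivity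
  have e1 : (fun x : ℝ × ℝ × ℝ => pe p x * (x.1 * x.2.1)) = fun x => ∑ s ∈ p.support,
      p.coeff s * (ee ((s 0 : ℝ) + 1) ((s 1 : ℝ) + 1) ((s 2 : ℝ) + 1) x * (x.1 * x.2.1)) := by
    funext x
    rw [pe_eq, Finset.sum_mul]
    exact Finset.sum_congr rfl fun s _ => by ring
  have hI : ∀ s ∈ p.support, IntegrableOn (fun x : ℝ × ℝ × ℝ =>
      p.coeff s * (ee ((s 0 : ℝ) + 1) ((s 1 : ℝ) + 1) ((s 2 : ℝ) + 1) x * (x.1 * x.2.1))) Oct :=
    fun s _ => (IL_exp _ _ _ (hpos _) (hpos _) (hpos _)).1.const_mul _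
  have i2 : IL (pe p) = ∑ s ∈ p.support,
      p.coeff s * IL (ee ((s 0 : ℝ) + 1) ((s 1 : ℝ) + 1) ((s 2 : ℝ) + 1)) := by
    show (∫ x in Oct, (fun x : ℝ × ℝ × ℝ => pe p x * (x.1 * x.2.1)) x) = _
    rw [e1, integral_finsetSum _ hI]
    refine Finset.sum_congr rfl fun s _ => ?_
    rw [integral_const_mul]
    rfl
  have s1 : ∀ L : ℝ, 0 < L → ∀ s ∈ p.support, Summable fun q : ℕ+ × ℕ+ × ℕ+ =>
      p.coeff s * (Wt q * ee ((s 0 : ℝ) + 1) ((s 1 : ℝ) + 1) ((s 2 : ℝ) + 1)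
        (Real.log q.1 / L, Real.log q.2.1 / L, Real.log q.2.2 / L)) :=
    fun L hL s _ => (ee_summable _ _ _ L (hpos _) (hpos _) (hpos _) hL).mul_left _
  have e2 : ∀ L : ℝ, (fun q : ℕ+ × ℕ+ × ℕ+ =>
      Wt q * pe p (Real.log q.1 / L, Real.log q.2.1 / L, Real.log q.2.2 / L)) =
      fun q => ∑ s ∈ p.support,
        p.coeff s * (Wt q * ee ((s 0 : ℝ) + 1) ((s 1 : ℝ) + 1) ((s 2 : ℝ) + 1)
          (Real.log q.1 / L, Real.log q.2.1 / L, Real.log q.2.2 / L)) := by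
    intro L
    funext q
    rw [pe_eq, Finset.mul_sum]
    exact Finset.sum_congr rfl fun s _ => by ring
  refine ⟨?_, ?_, ?_⟩
  · rw [e1]
    exact integrable_finsetSum _ hI
  · intro L hL
    rw [e2 L]
    exact summable_sum (s1 L hL)
  · have t1 : ∀ L : ℝ, 0 < L → SL (pe p) L = ∑ s ∈ p.support,
        p.coeff s * SL (ee ((s 0 : ℝ) + 1) ((s 1 : ℝ) + 1) ((s 2 : ℝ) + 1)) L := by
      intro L hL
      unfold SL
      rw [e2 L, Summable.tsum_finsetSum (s1 L hL), Finset.mul_sum]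
      refine Finset.sum_congr rfl fun s _ => ?_
      rw [tsum_mul_left]
      ring
    have t2 : Tendsto (fun L => ∑ s ∈ p.support,
        p.coeff s * SL (ee ((s 0 : ℝ) + 1) ((s 1 : ℝ) + 1) ((s 2 : ℝ) + 1)) L) atTop
        (𝓝 (∑ s ∈ p.support, p.coeff s * (Aconst 3 *
          (1 / (((s 0 : ℝ) + 1) ^ 2 * ((s 1 : ℝ) + 1) ^ 2 * ((s 2 : ℝ) + 1)))))) :=
      tendsto_finsetSum _ fun s _ => (SL_exp _ _ _ (hpos _) (hpos _) (hpos _)).const_mul _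
    have t3 : Aconst 3 * IL (pe p) = ∑ s ∈ p.support, p.coeff s * (Aconst 3 *
        (1 / (((s 0 : ℝ) + 1) ^ 2 * ((s 1 : ℝ) + 1) ^ 2 * ((s 2 : ℝ) + 1)))) := by
      rw [i2, Finset.mul_sum]
      refine Finset.sum_congr rfl fun s _ => ?_
      rw [(IL_exp _ _ _ (hpos _) (hpos _) (hpos _)).2]
      ring
    rw [t3]
    refine t2.congr' ?_
    filter_upwards [eventually_gt_atTop 0] with L hL
    exact (t1 L hL).symm

end Pool.Agent.LibSM47.FL
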