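import Pool.Agent.LibSM47.F_Defs
import Pool.Agent.LibSM47.F_14
import Pool.Agent.LibSM47.F_16

set_option autoImplicit false

namespace Pool.Agent.LibSM47.FL

open MeasureTheory Set Filter Topology
open Pool.Agent.LibZM

/-- For `L > 0`: `|SL g L - SL (pe p) L| ≤ ε SL (ee 1 1 1) L` if `|g - pe p| ≤ ε ee 1 1 1` on the octant (all sums converge:
`ee_summable`, `SL_pe`.2.1; `log q ≥ 0`). -/
theorem SL_sub_le (g : ℝ × ℝ × ℝ → ℝ) (p : MvPolynomial (Fin 3) ℝ) (ε : ℝ) (hε : 0 < ε)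
    (h : ∀ x : ℝ × ℝ × ℝ, 0 ≤ x.1 → 0 ≤ x.2.1 → 0 ≤ x.2.2 → |g x - pe p x| ≤ ε * ee 1 1 1 x) (L : ℝ) (hL : 0 < L) :
    |SL g L - SL (pe p) L| ≤ ε * SL (ee 1 1 1) L := by
  have hlog : ∀ n : ℕ+, 0 ≤ Real.log (n : ℝ) / L := fun n =>
    div_nonneg (Real.log_nonneg (by exact_mod_cast n.one_le)) hL.le
  obtain ⟨pt, hpt⟩ : ∃ pt : ℕ+ × ℕ+ × ℕ+ → ℝ × ℝ × ℝ, ∀ q,
      pt q = (Real.log q.1 / L, Real.log q.2.1 / L, Real.log q.2.2 / L) := ⟨_, fun _ => rfl⟩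
  have hP : Summable fun q : ℕ+ × ℕ+ × ℕ+ => Wt q * pe p (pt q) := by
    have := (SL_pe p).2.1 L hL
    simpa only [← hpt] using this
  have hE : Summable fun q : ℕ+ × ℕ+ × ℕ+ => Wt q * ee 1 1 1 (pt q) := by
    have := ee_summable 1 1 1 L one_pos one_pos one_pos hL
    simpa only [← hpt] using this
  have hb : ∀ q : ℕ+ × ℕ+ × ℕ+, ‖Wt q * (g (pt q) - pe p (pt q))‖ ≤ ε * (Wt q * ee 1 1 1 (pt q)) := by
    intro q
    rw [norm_mul, Real.norm_of_nonneg (Wt_nonneg q), Real.norm_eq_abs]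
    have h1 : |g (pt q) - pe p (pt q)| ≤ ε * ee 1 1 1 (pt q) := by
      apply h <;> rw [hpt] <;> exact hlog _
    calc Wt q * |g (pt q) - pe p (pt q)| ≤ Wt q * (ε * ee 1 1 1 (pt q)) :=
          mul_le_mul_of_nonneg_left h1 (Wt_nonneg q)
      _ = ε * (Wt q * ee 1 1 1 (pt q)) := by ring
  have hD : Summable fun q : ℕ+ × ℕ+ × ℕ+ => Wt q * (g (pt q) - pe p (pt q)) :=
    Summable.of_norm_bounded (hE.mul_left ε) hb
  have hG : Summable fun q : ℕ+ × ℕ+ × ℕ+ => Wt q * g (pt q) := by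
    have h1 := hD.add hP
    have h2 : (fun q : ℕ+ × ℕ+ × ℕ+ => Wt q * g (pt q)) =
        fun q => Wt q * (g (pt q) - pe p (pt q)) + Wt q * pe p (pt q) := by
      funext q
      ring
    rw [h2]
    exact h1
  have h1 : SL g L - SL (pe p) L = (L ^ 5)⁻¹ * ∑' q : ℕ+ × ℕ+ × ℕ+, Wt q * (g (pt q) - pe p (pt q)) := by
    unfold SL
    simp only [← hpt]
    rw [← mul_sub, ← hG.tsum_sub hP]
    congr 1
    apply tsum_congr
    intro q
    ring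
  have h2 : |∑' q : ℕ+ × ℕ+ × ℕ+, Wt q * (g (pt q) - pe p (pt q))| ≤
      ε * ∑' q : ℕ+ × ℕ+ × ℕ+, Wt q * ee 1 1 1 (pt q) := by
    rw [← tsum_mul_left]
    exact tsum_of_norm_bounded ((hE.mul_left ε).hasSum) hb
  have hL5 : 0 < (L ^ 5)⁻¹ := by positivity
  rw [h1, abs_mul, abs_of_pos hL5]
  unfold SL
  simp only [← hpt]
  calc (L ^ 5)⁻¹ * |∑' q : ℕ+ × ℕ+ × ℕ+, Wt q * (g (pt q) - pe p (pt q))|
      ≤ (L ^ 5)⁻¹ * (ε * ∑' q : ℕ+ × ℕ+ × ℕ+, Wt q * ee 1 1 1 (pt q)) :=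
        mul_le_mul_of_nonneg_left h2 hL5.le
    _ = ε * ((L ^ 5)⁻¹ * ∑' q : ℕ+ × ℕ+ × ℕ+, Wt q * ee 1 1 1 (pt q)) := by ring

private theorem F_17_meas : MeasurableSet Oct :=
  measurableSet_Ioi.prod (measurableSet_Ioi.prod measurableSet_Ioi)

/-- The same for the integrals; `IL (ee 1 1 1) = 1`. -/
theorem IL_sub_le (g : ℝ × ℝ × ℝ → ℝ) (hg : Continuous g) (hgc : HasCompactSupport g) (p : MvPolynomial (Fin 3) ℝ) (ε : ℝ) (hε : 0 < ε)
    (h : ∀ x : ℝ × ℝ × ℝ, 0 ≤ x.1 → 0 ≤ x.2.1 → 0 ≤ x.2.2 → |g x - pe p x| ≤ ε * ee 1 1 1 x) :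
    |IL g - IL (pe p)| ≤ ε := by
  obtain ⟨hE, hE1⟩ := IL_exp 1 1 1 one_pos one_pos one_pos
  have hE1' : IL (ee 1 1 1) = 1 := by
    rw [hE1]
    norm_num
  have hP := (SL_pe p).1
  have hG : IntegrableOn (fun x : ℝ × ℝ × ℝ => g x * (x.1 * x.2.1)) Oct := by
    apply Integrable.integrableOn
    apply Continuous.integrable_of_hasCompactSupport
    · fun_prop
    · exact hgc.mul_right
  have h1 : IL g - IL (pe p) = ∫ x in Oct, (g x * (x.1 * x.2.1) - pe p x * (x.1 * x.2.1)) := by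
    unfold IL
    rw [integral_sub hG hP]
  rw [h1, ← Real.norm_eq_abs]
  have h2 : ‖∫ x in Oct, (g x * (x.1 * x.2.1) - pe p x * (x.1 * x.2.1))‖ ≤
      ∫ x in Oct, ε * (ee 1 1 1 x * (x.1 * x.2.1)) := by
    apply norm_integral_le_of_norm_le (hE.const_mul ε)
    apply ae_restrict_of_forall_mem F_17_meas
    intro x hx
    have hx1 : 0 < x.1 := hx.1
    have hx2 : 0 < x.2.1 := hx.2.1
    have hx3 : 0 < x.2.2 := hx.2.2
    rw [← sub_mul, norm_mul, Real.norm_eq_abs, Real.norm_of_nonneg (by positivity)]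
    calc |g x - pe p x| * (x.1 * x.2.1) ≤ (ε * ee 1 1 1 x) * (x.1 * x.2.1) :=
          mul_le_mul_of_nonneg_right (h x hx1.le hx2.le hx3.le) (by positivity)
      _ = ε * (ee 1 1 1 x * (x.1 * x.2.1)) := by ring
  refine h2.trans (le_of_eq ?_)
  rw [integral_const_mul]
  have h3 : ∫ x in Oct, ee 1 1 1 x * (x.1 * x.2.1) = IL (ee 1 1 1) := rfl
  rw [h3, hE1', mul_one]

/-- The limit for test functions: `g_approx`, `SL_sub_le`, `IL_sub_le`, `SL_pe`, `SL_exp 1 1 1`; `ε/3`. -/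
theorem SL_limit (g : ℝ × ℝ × ℝ → ℝ) (hg : Continuous g) (hgc : HasCompactSupport g) :
    Tendsto (SL g) atTop (𝓝 (Aconst 3 * IL g)) := by
  rw [Metric.tendsto_atTop]
  intro η hη
  obtain ⟨A, hA⟩ : ∃ A : ℝ, A = Aconst 3 := ⟨_, rfl⟩
  rw [← hA]
  have hA1 : 0 < |A| + 1 := by positivity
  obtain ⟨ε, hεd⟩ : ∃ ε : ℝ, ε = η / (3 * (|A| + 1)) := ⟨_, rfl⟩
  have hε : 0 < ε := by rw [hεd]; positivity
  have he : ε * (|A| + 1) = η / 3 := by
    rw [hεd]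
    field_simp
  obtain ⟨p, hp⟩ := g_approx g hg hgc ε hε
  have h1 := (SL_pe p).2.2
  have h2 := SL_exp 1 1 1 one_pos one_pos one_pos
  rw [Metric.tendsto_atTop, ← hA] at h1 h2
  obtain ⟨N1, hN1⟩ := h1 (η / 3) (by positivity)
  obtain ⟨N2, hN2⟩ := h2 1 one_pos
  refine ⟨max 1 (max N1 N2), ?_⟩
  intro L hL
  have hL0 : 0 < L := lt_of_lt_of_le one_pos ((le_max_left _ _).trans hL)
  have a1 := hN1 L ((le_max_left N1 N2).trans ((le_max_right _ _).trans hL))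
  have a2 := hN2 L ((le_max_right N1 N2).trans ((le_max_right _ _).trans hL))
  rw [Real.dist_eq] at a1 a2 ⊢
  have hb := SL_sub_le g p ε hε hp L hL0
  have hc := IL_sub_le g hg hgc p ε hε hp
  have hd : SL (ee 1 1 1) L ≤ |A| + 1 := by
    have h3 := (abs_lt.mp a2).2
    have h4 : A * (1 / ((1 : ℝ) ^ 2 * 1 ^ 2 * 1)) = A := by norm_num
    rw [h4] at h3
    linarith [le_abs_self A]
  have hf : |A * IL (pe p) - A * IL g| ≤ |A| * ε := by
    rw [← mul_sub, abs_mul, abs_sub_comm]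
    exact mul_le_mul_of_nonneg_left hc (abs_nonneg A)
  have hg1 : |SL g L - SL (pe p) L| ≤ η / 3 := by
    refine hb.trans ?_
    rw [← he]
    exact mul_le_mul_of_nonneg_left hd hε.le
  have hg2 : |A| * ε ≤ η / 3 := by
    rw [← he]
    nlinarith [abs_nonneg A]
  have key : |SL g L - A * IL g| ≤ |SL g L - SL (pe p) L| +
      (|SL (pe p) L - A * IL (pe p)| + |A * IL (pe p) - A * IL g|) :=
    (abs_sub_le _ (SL (pe p) L) _).trans (by
      gcongr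
      exact abs_sub_le _ (A * IL (pe p)) _)
  linarith

end Pool.Agent.LibSM47.FL
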