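import Pool.Agent.LibSM47.Defs
import Pool.Agent.LibZM.MK3

/-! # Board SM47-F (section F1 of notes_MP_91b7ff_SM47.md): definitions -/

set_option autoImplicit false

namespace Pool.Agent.LibSM47.FL

open MeasureTheory Set Filter Topology
open Pool.Agent.LibZM

/-- The weight `W(d,e,n) = h(de) φ(d) / (d² e n)` on triples with `(de, n) = 1`. -/
noncomputable def Wt (q : ℕ+ × ℕ+ × ℕ+) : ℝ :=
  if Nat.Coprime ((q.1 : ℕ) * q.2.1) q.2.2 then
    hh (q.1 * q.2.1) * (Nat.totient q.1 : ℝ) / ((q.1 : ℝ) ^ 2 * q.2.1 * q.2.2) else 0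

/-- `∏_{p ∣ m} (1 - p^{-1-c})`. -/
noncomputable def rr (c : ℝ) (m : ℕ) : ℝ := ∏ p ∈ m.primeFactors, (1 - (p : ℝ) ^ (-(1 + c)))

/-- `∑_{de = m} φ(d) d^{-2-a} e^{-1-b}`. -/
noncomputable def cv (a b : ℝ) (m : ℕ) : ℝ :=
  ∑ x ∈ m.divisorsAntidiagonal, (Nat.totient x.1 : ℝ) * (x.1 : ℝ) ^ (-(2 + a)) * (x.2 : ℝ) ^ (-(1 + b))

/-- The multiplicative function of `m = de` after the summation over `n`. -/
noncomputable def FF (a b c : ℝ) (m : ℕ) : ℝ := hh m * rr c m * cv a b m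

/-- The numerator polynomial of the local sum without the `n`-factor. -/
noncomputable def PS (x y u : ℝ) : ℝ :=
  (1 - u * x) * (1 - x) * (1 - y) +
    (1 - u) * (x * (1 - y) * (1 - u * x) + y * (1 - x) * (1 - u * x) - u * x * (1 - x) * (1 - y))

/-- The normalised local factor. -/
noncomputable def EE (x y z u : ℝ) : ℝ := z * ((1 - x) ^ 2 * (1 - y) ^ 2) + (1 - z) * PS x y u

/-- The exponential test function `exp(-(i z + j z' + k y))`. -/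
noncomputable def ee (i j k : ℝ) (x : ℝ × ℝ × ℝ) : ℝ := Real.exp (-(i * x.1 + j * x.2.1 + k * x.2.2))

/-- `e^{-(z+z'+y)} p(e^{-z}, e^{-z'}, e^{-y})`. -/
noncomputable def pe (p : MvPolynomial (Fin 3) ℝ) (x : ℝ × ℝ × ℝ) : ℝ :=
  ee 1 1 1 x * MvPolynomial.eval ![Real.exp (-x.1), Real.exp (-x.2.1), Real.exp (-x.2.2)] p

/-- The normalised sum. -/
noncomputable def SL (g : ℝ × ℝ × ℝ → ℝ) (L : ℝ) : ℝ :=
  (L ^ 5)⁻¹ * ∑' q : ℕ+ × ℕ+ × ℕ+, Wt q * g (Real.log q.1 / L, Real.log q.2.1 / L, Real.log q.2.2 / L)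

/-- The limit functional. -/
noncomputable def IL (g : ℝ × ℝ × ℝ → ℝ) : ℝ := ∫ x in Oct, g x * (x.1 * x.2.1)

end Pool.Agent.LibSM47.FL
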