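import Pool.Agent.LibSM47.FaceA
import Pool.Agent.LibSM47.E_07c

/-! # The twisted third moment at one fraction -/

set_option autoImplicit false

namespace Pool.Agent.LibSM47

open MeasureTheory Set Filter Topology Complex ProbabilityTheory
open scoped NNReal ComplexConjugate

/-- One fraction. -/
theorem one_fraction (ε₁ δ η : ℝ) (hε1 : 0 < ε₁) (hδ : 0 < δ) (hδ1 : δ ≤ 1 / 100) (hη : 0 < η) (hη1 : η ≤ 1 / 16) :
    ∃ C T₀ : ℝ, 0 < C ∧ ∀ T : ℝ, T₀ ≤ T → ∀ u : ℝ, ε₁ * T ≤ u → u ≤ T → ∀ m n : ℕ, 1 ≤ m → 1 ≤ n →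
      Nat.Coprime n m → (m : ℝ) ≤ T → (n : ℝ) ≤ T →
      ‖II (T ^ (1 - δ)) u m n
        - ((((m : ℝ) * n) ^ (-(1 / 2) : ℝ) * mainS m (Real.log (u / (2 * Real.pi)) + Real.log m - Real.log n) : ℝ) : ℂ)‖
      ≤ C * ((m : ℝ) * n) ^ (-(1 / 2) : ℝ) * Real.log T * errS m + C * T ^ (9 * δ - 1) * errR η T m n :=
  EH.one_fraction' ε₁ δ η hε1 hδ hδ1 hη hη1

end Pool.Agent.LibSM47
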