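import Pool.Agent.LibSM47.H_02

/-! ROW H_03a: first arithmetic sum, scaling identity. -/

set_option autoImplicit false

namespace Pool.Agent.LibSM47.EH

open MeasureTheory Set Filter Topology
open Pool.Agent

/-- `weak` with `R x = P (x.1 + x.2.1, x.2.2)`: `cc² = hh² (mn)⁻¹ P²` and `∑ φ(d)/d = hh m`. -/
theorem S1_limit' (P : ℝ × ℝ → ℝ) (ε : ℝ) (hε : 0 < ε) (hP : Adm ε P) :
    Tendsto (fun T : ℝ => (∑ q ∈ idx T, cc P T q ^ 2) / (Real.log T) ^ 5) atTop (𝓝 (LibZM.Aconst 3 * J1 P)) := by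
  have hPc : Continuous P := hP.1
  have h := weak P ε hε hP (fun x => P (x.1 + x.2.1, x.2.2)) (by fun_prop)
  have e1 : (∫ x in Oct, P (x.1 + x.2.1, x.2.2) * (fun x : ℝ × ℝ × ℝ => P (x.1 + x.2.1, x.2.2)) x * (x.1 * x.2.1)) = J1 P := by
    unfold J1
    congr 1
    funext x
    ring
  rw [e1] at h
  refine h.congr fun T => ?_
  congr 1
  refine Finset.sum_congr rfl fun q hq => ?_
  have hq' := (Finset.mem_filter.mp hq).1
  rw [Finset.mem_product, Finset.mem_Icc, Finset.mem_Icc] at hq'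
  have hm : (0 : ℝ) < (q.1 : ℝ) := by exact_mod_cast hq'.1.1
  have hn : (0 : ℝ) < (q.2 : ℝ) := by exact_mod_cast hq'.2.1
  have e2 : ∀ d : ℕ, Real.log d / Real.log T + (Real.log q.1 - Real.log d) / Real.log T =
      Real.log q.1 / Real.log T := fun d => by ring
  simp only [e2]
  rw [← Finset.sum_mul]
  have e3 : ∑ d ∈ q.1.divisors, (Nat.totient d : ℝ) / d = hh q.1 := rfl
  rw [e3]
  unfold cc
  have e4 : (((q.1 : ℝ) * q.2) ^ (-(1 / 2) : ℝ)) ^ 2 = ((q.1 : ℝ) * q.2)⁻¹ := by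
    rw [← Real.rpow_natCast, ← Real.rpow_mul (by positivity), ← Real.rpow_neg_one]
    congr 1
    norm_num
  rw [mul_pow, mul_pow, e4]
  ring

/-- Scaling: with `L = log T`, `c₀ = log (u/(2πT))`, `z = log d / L`, `z' = (log m - log d)/L`, `y = log n / L`, `x = z + z'`:
`(1/2)(3(l - log m)² - 3(l - log d)² + l²) = L² QQ (z,z',y) + c₀ L (1 - y + x - 3 z') + c₀²/2`. -/
theorem mainS_scale (L u m n d c₀ : ℝ) (hL : L ≠ 0) (hc : c₀ = u - L) :
    (1 / 2 : ℝ) * (3 * (u + m - n - m) ^ 2 - 3 * (u + m - n - d) ^ 2 + (u + m - n) ^ 2) =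
      L ^ 2 * QQ (d / L, (m - d) / L, n / L) + c₀ * L * (1 - n / L + m / L - 3 * ((m - d) / L)) + c₀ ^ 2 / 2 := by
  unfold QQ
  have hu : u = c₀ + L := by rw [hc]; ring
  subst hu
  field_simp
  ring

end Pool.Agent.LibSM47.EH
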