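import Pool.Agent.LibSM47.H_03a

/-! ROW H_03b: second arithmetic sum. -/

set_option autoImplicit false

namespace Pool.Agent.LibSM47.EH

open MeasureTheory Set Filter Topology
open Pool.Agent

/-- the sums of `weak` -/
noncomputable def H_03b_S (P : ℝ × ℝ → ℝ) (R : ℝ × ℝ × ℝ → ℝ) (T : ℝ) : ℝ :=
  ∑ p ∈ idx T, hh p.1 / ((p.1 : ℝ) * p.2) * ∑ d ∈ p.1.divisors, (Nat.totient d : ℝ) / d *
    (P (Real.log p.1 / Real.log T, Real.log p.2 / Real.log T) *
      R (Real.log d / Real.log T, (Real.log p.1 - Real.log d) / Real.log T, Real.log p.2 / Real.log T))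

/-- the coefficient of `c₀ L` -/
noncomputable def H_03b_A (x : ℝ × ℝ × ℝ) : ℝ := 1 - x.2.2 + (x.1 + x.2.1) - 3 * x.2.1

theorem H_03b_id (P : ℝ × ℝ → ℝ) (T u : ℝ) (hT : 1 < T) :
    ∑ q ∈ idx T, cc P T q * (((q.1 : ℝ) * q.2) ^ (-(1 / 2) : ℝ) *
          mainS q.1 (Real.log (u / (2 * Real.pi)) + Real.log q.1 - Real.log q.2)) =
      Real.log T ^ 2 * H_03b_S P QQ T +
        (Real.log (u / (2 * Real.pi)) - Real.log T) * Real.log T * H_03b_S P H_03b_A T +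
        (Real.log (u / (2 * Real.pi)) - Real.log T) ^ 2 / 2 * H_03b_S P (fun _ => 1) T := by
  have hL : 0 < Real.log T := Real.log_pos hT
  unfold H_03b_S
  rw [Finset.mul_sum, Finset.mul_sum, Finset.mul_sum, ← Finset.sum_add_distrib,
    ← Finset.sum_add_distrib]
  refine Finset.sum_congr rfl fun q hq => ?_
  have hq1 : 1 ≤ q.1 ∧ 1 ≤ q.2 := by
    simp only [idx, Finset.mem_filter, Finset.mem_product, Finset.mem_Icc] at hq
    exact ⟨hq.1.1.1, hq.1.2.1⟩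
  have hm : (0 : ℝ) < q.1 := by exact_mod_cast hq1.1
  have hn : (0 : ℝ) < q.2 := by exact_mod_cast hq1.2
  have hmn : (0 : ℝ) < (q.1 : ℝ) * q.2 := mul_pos hm hn
  have hr : ((q.1 : ℝ) * q.2) ^ (-(1 / 2) : ℝ) * ((q.1 : ℝ) * q.2) ^ (-(1 / 2) : ℝ) =
      1 / ((q.1 : ℝ) * q.2) := by
    rw [← Real.rpow_add hmn, show (-(1 / 2) + -(1 / 2) : ℝ) = -1 by norm_num, Real.rpow_neg_one,
      one_div]
  set U := Real.log (u / (2 * Real.pi)) with hU
  set L := Real.log T with hLd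
  set Pq := P (Real.log q.1 / L, Real.log q.2 / L) with hPq
  have e1 : cc P T q * (((q.1 : ℝ) * q.2) ^ (-(1 / 2) : ℝ) *
      mainS q.1 (U + Real.log q.1 - Real.log q.2)) =
      hh q.1 / ((q.1 : ℝ) * q.2) * (Pq * mainS q.1 (U + Real.log q.1 - Real.log q.2)) := by
    have e2 : cc P T q = hh q.1 * ((q.1 : ℝ) * q.2) ^ (-(1 / 2) : ℝ) * Pq := rfl
    rw [e2]
    calc hh q.1 * ((q.1 : ℝ) * q.2) ^ (-(1 / 2) : ℝ) * Pq * (((q.1 : ℝ) * q.2) ^ (-(1 / 2) : ℝ) *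
          mainS q.1 (U + Real.log q.1 - Real.log q.2))
        = hh q.1 * (((q.1 : ℝ) * q.2) ^ (-(1 / 2) : ℝ) * ((q.1 : ℝ) * q.2) ^ (-(1 / 2) : ℝ)) *
          (Pq * mainS q.1 (U + Real.log q.1 - Real.log q.2)) := by ring
      _ = _ := by rw [hr]; ring
  have e3 : Pq * mainS q.1 (U + Real.log q.1 - Real.log q.2) =
      ∑ d ∈ q.1.divisors, (Nat.totient d : ℝ) / d * (Pq *
        (L ^ 2 * QQ (Real.log d / L, (Real.log q.1 - Real.log d) / L, Real.log q.2 / L) +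
          (U - L) * L * H_03b_A (Real.log d / L, (Real.log q.1 - Real.log d) / L,
            Real.log q.2 / L) + (U - L) ^ 2 / 2 * 1)) := by
    unfold mainS
    rw [mul_left_comm, Finset.mul_sum, Finset.mul_sum]
    refine Finset.sum_congr rfl fun d _ => ?_
    have e4 := mainS_scale L U (Real.log q.1) (Real.log q.2) (Real.log d) (U - L) hL.ne' rfl
    have e5 : H_03b_A (Real.log d / L, (Real.log q.1 - Real.log d) / L, Real.log q.2 / L) =
        1 - Real.log q.2 / L + Real.log q.1 / L - 3 * ((Real.log q.1 - Real.log d) / L) := by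
      unfold H_03b_A
      simp only
      field_simp
      ring
    rw [e5, mul_one, ← e4]
    ring
  rw [e1, e3]
  have e6 : ∀ (a b c : ℝ) (f : ℕ → ℝ) (g1 g2 g3 : ℕ → ℝ),
      ∑ d ∈ q.1.divisors, f d * (Pq * (a * g1 d + b * g2 d + c * g3 d)) =
      a * (∑ d ∈ q.1.divisors, f d * (Pq * g1 d)) + b * (∑ d ∈ q.1.divisors, f d * (Pq * g2 d)) +
        c * (∑ d ∈ q.1.divisors, f d * (Pq * g3 d)) := by
    intro a b c f g1 g2 g3
    rw [Finset.mul_sum, Finset.mul_sum, Finset.mul_sum, ← Finset.sum_add_distrib,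
      ← Finset.sum_add_distrib]
    exact Finset.sum_congr rfl fun d _ => by ring
  have e7 := e6 (L ^ 2) ((U - L) * L) ((U - L) ^ 2 / 2) (fun d => (Nat.totient d : ℝ) / d)
    (fun d => QQ (Real.log d / L, (Real.log q.1 - Real.log d) / L, Real.log q.2 / L))
    (fun d => H_03b_A (Real.log d / L, (Real.log q.1 - Real.log d) / L, Real.log q.2 / L))
    (fun _ => 1)
  rw [e7]
  ring

/-- `weak` with `R = QQ` for the main part, and with `|P|`, `R = 1` (bounded after division by `L⁵`) for the rest: on the support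
`|1 - y + x - 3z'| ≤ 5`, `|c₀| ≤ C(ε₁)`; so the rest is `O(L · L⁵)`. -/
theorem S2_limit' (P : ℝ × ℝ → ℝ) (ε ε₁ : ℝ) (hε : 0 < ε) (hε1 : 0 < ε₁) (hP : Adm ε P) (θ : ℝ) (hθ : 0 < θ) :
    ∃ T₀ : ℝ, ∀ T : ℝ, T₀ ≤ T → ∀ u : ℝ, ε₁ * T ≤ u → u ≤ T →
      |(∑ q ∈ idx T, cc P T q * (((q.1 : ℝ) * q.2) ^ (-(1 / 2) : ℝ) *
          mainS q.1 (Real.log (u / (2 * Real.pi)) + Real.log q.1 - Real.log q.2)))
        - LibZM.Aconst 3 * J2 P * (Real.log T) ^ 7| ≤ θ * (Real.log T) ^ 7 := by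
  have hQQ : Continuous QQ := by
    unfold QQ
    fun_prop
  have hA : Continuous H_03b_A := by
    unfold H_03b_A
    fun_prop
  have w1 := weak P ε hε hP QQ hQQ
  have w2 := weak P ε hε hP H_03b_A hA
  have w3 := weak P ε hε hP (fun _ => 1) continuous_const
  have hb : ∀ (R : ℝ × ℝ × ℝ → ℝ) (l : ℝ),
      Tendsto (fun T : ℝ => H_03b_S P R T / (Real.log T) ^ 5) atTop (𝓝 l) →
      ∀ᶠ T : ℝ in atTop, |H_03b_S P R T / (Real.log T) ^ 5| ≤ |l| + 1 := by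
    intro R l h
    have h1 := h.abs.eventually (eventually_le_nhds (show |l| < |l| + 1 by linarith))
    exact h1
  have b2 := hb H_03b_A _ w2
  have b3 := hb (fun _ => 1) _ w3
  set l2 := LibZM.Aconst 3 * ∫ x in Oct, P (x.1 + x.2.1, x.2.2) * H_03b_A x * (x.1 * x.2.1) with hl2
  set l3 := LibZM.Aconst 3 * ∫ x in Oct, P (x.1 + x.2.1, x.2.2) * (fun _ => (1 : ℝ)) x *
    (x.1 * x.2.1) with hl3
  set K := |Real.log ε₁| + Real.log (2 * Real.pi) with hK
  have hpi : 1 < 2 * Real.pi := by linarith [Real.pi_gt_three]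
  have hK0 : 0 ≤ K := by
    have := Real.log_pos hpi
    positivity
  have b1 : ∀ᶠ T : ℝ in atTop, |H_03b_S P QQ T / (Real.log T) ^ 5 - LibZM.Aconst 3 * J2 P| ≤ θ / 2 := by
    have h1 := (Metric.tendsto_nhds.1 w1) (θ / 2) (by positivity)
    filter_upwards [h1] with T h2
    rw [Real.dist_eq] at h2
    exact h2.le
  have b4 : ∀ᶠ T : ℝ in atTop, (K * (|l2| + 1) + K ^ 2 / 2 * (|l3| + 1)) * (2 / θ) ≤ Real.log T :=
    Real.tendsto_log_atTop.eventually (eventually_ge_atTop _)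
  have b5 : ∀ᶠ T : ℝ in atTop, 1 ≤ Real.log T :=
    Real.tendsto_log_atTop.eventually (eventually_ge_atTop _)
  obtain ⟨T₀, hT₀⟩ := eventually_atTop.1 (b1.and (b2.and (b3.and (b4.and (b5.and
    (eventually_gt_atTop (1 : ℝ)))))))
  refine ⟨T₀, fun T hT u hu hu' => ?_⟩
  obtain ⟨c1, c2, c3, c4, c5, c6⟩ := hT₀ T hT
  rw [H_03b_id P T u c6]
  set L := Real.log T with hL
  have hL0 : 0 < L := by linarith
  have hT0 : 0 < T := by linarith
  have hu0 : 0 < u := lt_of_lt_of_le (by positivity) hu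
  set c := Real.log (u / (2 * Real.pi)) - L with hc
  have hcK : |c| ≤ K := by
    have d1 : c = Real.log (u / T) - Real.log (2 * Real.pi) := by
      rw [hc, hL, Real.log_div hu0.ne' (by positivity), Real.log_div hu0.ne' hT0.ne']
      ring
    have d2 : Real.log ε₁ ≤ Real.log (u / T) :=
      Real.log_le_log hε1 ((le_div_iff₀ hT0).2 hu)
    have d3 : Real.log (u / T) ≤ 0 :=
      Real.log_nonpos (by positivity) ((div_le_one hT0).2 hu')
    have d4 := neg_abs_le (Real.log ε₁)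
    have d5 := Real.log_pos hpi
    rw [d1, abs_le, hK]
    constructor
    · linarith
    · have d6 := abs_nonneg (Real.log ε₁)
      linarith
  have f1 : H_03b_S P QQ T = H_03b_S P QQ T / L ^ 5 * L ^ 5 := by field_simp
  have f2 : H_03b_S P H_03b_A T = H_03b_S P H_03b_A T / L ^ 5 * L ^ 5 := by field_simp
  have f3 : H_03b_S P (fun _ => 1) T = H_03b_S P (fun _ => 1) T / L ^ 5 * L ^ 5 := by field_simp
  set s1 := H_03b_S P QQ T / L ^ 5 with hs1
  set s2 := H_03b_S P H_03b_A T / L ^ 5 with hs2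
  set s3 := H_03b_S P (fun _ => 1) T / L ^ 5 with hs3
  rw [f1, f2, f3]
  have g1 : L ^ 2 * (s1 * L ^ 5) + c * L * (s2 * L ^ 5) + c ^ 2 / 2 * (s3 * L ^ 5) -
      LibZM.Aconst 3 * J2 P * L ^ 7 =
      (s1 - LibZM.Aconst 3 * J2 P) * L ^ 7 + (c * s2 * L + c ^ 2 / 2 * s3) * L ^ 5 := by ring
  rw [g1]
  have g2 : |(s1 - LibZM.Aconst 3 * J2 P) * L ^ 7| ≤ θ / 2 * L ^ 7 := by
    rw [abs_mul, abs_of_pos (by positivity : 0 < L ^ 7)]
    exact mul_le_mul_of_nonneg_right c1 (by positivity)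
  have g3 : |c * s2 * L + c ^ 2 / 2 * s3| ≤ (K * (|l2| + 1) + K ^ 2 / 2 * (|l3| + 1)) * L := by
    have i1 : |c * s2 * L| ≤ K * (|l2| + 1) * L := by
      rw [abs_mul, abs_mul, abs_of_pos hL0]
      exact mul_le_mul_of_nonneg_right (mul_le_mul hcK c2 (abs_nonneg _) hK0) hL0.le
    have i2 : |c ^ 2 / 2 * s3| ≤ K ^ 2 / 2 * (|l3| + 1) := by
      rw [abs_mul, abs_of_nonneg (by positivity : 0 ≤ c ^ 2 / 2)]
      have i3 : c ^ 2 ≤ K ^ 2 := by
        rw [← sq_abs c]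
        exact pow_le_pow_left₀ (abs_nonneg _) hcK 2
      exact mul_le_mul (by linarith) c3 (abs_nonneg _) (by positivity)
    have i4 : K ^ 2 / 2 * (|l3| + 1) ≤ K ^ 2 / 2 * (|l3| + 1) * L :=
      le_mul_of_one_le_right (by positivity) c5
    calc |c * s2 * L + c ^ 2 / 2 * s3| ≤ |c * s2 * L| + |c ^ 2 / 2 * s3| := abs_add_le _ _
      _ ≤ K * (|l2| + 1) * L + K ^ 2 / 2 * (|l3| + 1) * L := by linarith
      _ = _ := by ring
  have g4 : (K * (|l2| + 1) + K ^ 2 / 2 * (|l3| + 1)) * L ≤ θ / 2 * L ^ 2 := by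
    have j1 : (K * (|l2| + 1) + K ^ 2 / 2 * (|l3| + 1)) ≤ θ / 2 * L := by
      have j2 := mul_le_mul_of_nonneg_left c4 (by positivity : 0 ≤ θ / 2)
      calc (K * (|l2| + 1) + K ^ 2 / 2 * (|l3| + 1)) = θ / 2 *
          ((K * (|l2| + 1) + K ^ 2 / 2 * (|l3| + 1)) * (2 / θ)) := by field_simp
        _ ≤ _ := j2
    calc _ ≤ θ / 2 * L * L := mul_le_mul_of_nonneg_right j1 hL0.le
      _ = _ := by ring
  have g5 : |(c * s2 * L + c ^ 2 / 2 * s3) * L ^ 5| ≤ θ / 2 * L ^ 7 := by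
    rw [abs_mul, abs_of_pos (by positivity : 0 < L ^ 5)]
    calc _ ≤ θ / 2 * L ^ 2 * L ^ 5 := mul_le_mul_of_nonneg_right (g3.trans g4) (by positivity)
      _ = _ := by ring
  calc _ ≤ |(s1 - LibZM.Aconst 3 * J2 P) * L ^ 7| + |(c * s2 * L + c ^ 2 / 2 * s3) * L ^ 5| :=
      abs_add_le _ _
    _ ≤ θ / 2 * L ^ 7 + θ / 2 * L ^ 7 := add_le_add g2 g5
    _ = θ * L ^ 7 := by ring

end Pool.Agent.LibSM47.EH
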