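import Pool.Agent.LibSM47.H_05a

/-! ROW H_05b: exact value of the double integral. -/

set_option autoImplicit false

namespace Pool.Agent.LibSM47.EH

open MeasureTheory Set Filter Topology

/-- the region -/
private def H_05b_R : Set (ℝ × ℝ) :=
  {p | 0 < p.1 ∧ 0 < p.2 ∧ 3 * p.1 / 2 + p.2 < 1 ∧ p.1 - p.2 < 1 / 2}

private theorem H_05b_meas : MeasurableSet H_05b_R := by
  have c1 : Continuous fun p : ℝ × ℝ => 3 * p.1 / 2 + p.2 := by fun_prop
  have c2 : Continuous fun p : ℝ × ℝ => p.1 - p.2 := by fun_prop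
  have h1 : IsOpen H_05b_R :=
    (isOpen_lt continuous_const continuous_fst).inter
      ((isOpen_lt continuous_const continuous_snd).inter
        ((isOpen_lt c1 continuous_const).inter (isOpen_lt c2 continuous_const)))
  exact h1.measurableSet

private theorem H_05b_int : IntegrableOn (fun p : ℝ × ℝ => FF p ^ 2 * (p.1 ^ 3 / 6)) H_05b_R := by
  have h1 : Continuous (fun p : ℝ × ℝ => FF p ^ 2 * (p.1 ^ 3 / 6)) := by
    unfold FF
    fun_prop
  have h2 : IntegrableOn (fun p : ℝ × ℝ => FF p ^ 2 * (p.1 ^ 3 / 6))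
      (Icc (0 : ℝ) 1 ×ˢ Icc (0 : ℝ) 1) :=
    h1.continuousOn.integrableOn_compact (isCompact_Icc.prod isCompact_Icc)
  refine h2.mono_set ?_
  rintro ⟨x, y⟩ ⟨h3, h4, h5, h6⟩
  simp only at h3 h4 h5 h6
  refine ⟨⟨h3.le, ?_⟩, ⟨h4.le, ?_⟩⟩
  · show x ≤ 1
    linarith
  · show y ≤ 1
    linarith

private theorem H_05b_sec (y b : ℝ) (hb : 0 ≤ b) (h : ∀ x : ℝ, (x, y) ∈ H_05b_R ↔ x ∈ Ioo (0 : ℝ) b) :
    ∫ x, H_05b_R.indicator (fun p : ℝ × ℝ => FF p ^ 2 * (p.1 ^ 3 / 6)) (x, y) =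
      (1 / 24) * ((1 - y) ^ 4 * b ^ 4 / 4 - 2 * (1 - y) ^ 3 * b ^ 5 / 5 +
        (1 - y) ^ 2 * b ^ 6 / 5 - (1 - y) * b ^ 7 / 35 + b ^ 8 / 800) := by
  rw [← inner_int, intervalIntegral.integral_of_le hb, integral_Ioc_eq_integral_Ioo,
    ← integral_indicator measurableSet_Ioo]
  congr 1
  funext x
  by_cases hx : x ∈ Ioo (0 : ℝ) b
  · rw [indicator_of_mem hx, indicator_of_mem ((h x).2 hx)]
  · rw [indicator_of_notMem hx, indicator_of_notMem fun h1 => hx ((h x).1 h1)]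

/-- Fubini (`y` outside): for `0 < y < 1/10` the section is `(0, 1/2 + y)`, for `1/10 ≤ y < 1` it is `(0, 2(1-y)/3)`. -/
theorem J_exact : ∫ p in (Ioi (0 : ℝ)) ×ˢ (Ioi (0 : ℝ)),
    (if 3 * p.1 / 2 + p.2 < 1 ∧ p.1 - p.2 < 1 / 2 then FF p ^ 2 * (p.1 ^ 3 / 6) else 0) = 11422475801 / 241920000000000 := by
  have hS : MeasurableSet ((Ioi (0 : ℝ)) ×ˢ (Ioi (0 : ℝ))) := measurableSet_Ioi.prod measurableSet_Ioi
  rw [← integral_indicator hS]
  have h1 : ((Ioi (0 : ℝ)) ×ˢ (Ioi (0 : ℝ))).indicator (fun p : ℝ × ℝ =>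
      if 3 * p.1 / 2 + p.2 < 1 ∧ p.1 - p.2 < 1 / 2 then FF p ^ 2 * (p.1 ^ 3 / 6) else 0) =
      H_05b_R.indicator (fun p : ℝ × ℝ => FF p ^ 2 * (p.1 ^ 3 / 6)) := by
    funext p
    by_cases hp : p ∈ H_05b_R
    · rw [indicator_of_mem hp]
      obtain ⟨a1, a2, a3, a4⟩ := hp
      rw [indicator_of_mem (show p ∈ (Ioi (0 : ℝ)) ×ˢ (Ioi (0 : ℝ)) from ⟨a1, a2⟩),
        if_pos ⟨a3, a4⟩]
    · rw [indicator_of_notMem hp]
      by_cases hq : p ∈ (Ioi (0 : ℝ)) ×ˢ (Ioi (0 : ℝ))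
      · rw [indicator_of_mem hq, if_neg]
        rintro ⟨a3, a4⟩
        exact hp ⟨hq.1, hq.2, a3, a4⟩
      · rw [indicator_of_notMem hq]
  rw [h1]
  have hint : Integrable (H_05b_R.indicator (fun p : ℝ × ℝ => FF p ^ 2 * (p.1 ^ 3 / 6)))
      ((volume : Measure ℝ).prod (volume : Measure ℝ)) :=
    (integrable_indicator_iff H_05b_meas).2 H_05b_int
  have h2 : ∫ p, H_05b_R.indicator (fun p : ℝ × ℝ => FF p ^ 2 * (p.1 ^ 3 / 6)) p =
      ∫ y : ℝ, ∫ x : ℝ, H_05b_R.indicator (fun p : ℝ × ℝ => FF p ^ 2 * (p.1 ^ 3 / 6)) (x, y) :=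
    integral_prod_symm _ hint
  rw [h2]
  set A : ℝ → ℝ := fun y => (1 / 24 : ℝ) * ((1 - y) ^ 4 * (1 / 2 + y) ^ 4 / 4 -
      2 * (1 - y) ^ 3 * (1 / 2 + y) ^ 5 / 5 + (1 - y) ^ 2 * (1 / 2 + y) ^ 6 / 5 -
      (1 - y) * (1 / 2 + y) ^ 7 / 35 + (1 / 2 + y) ^ 8 / 800) with hA
  set B : ℝ → ℝ := fun y => (1 / 24 : ℝ) * ((1 - y) ^ 4 * (2 * (1 - y) / 3) ^ 4 / 4 -
      2 * (1 - y) ^ 3 * (2 * (1 - y) / 3) ^ 5 / 5 + (1 - y) ^ 2 * (2 * (1 - y) / 3) ^ 6 / 5 -
      (1 - y) * (2 * (1 - y) / 3) ^ 7 / 35 + (2 * (1 - y) / 3) ^ 8 / 800) with hB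
  have h3 : ∀ y : ℝ, ∫ x : ℝ, H_05b_R.indicator (fun p : ℝ × ℝ => FF p ^ 2 * (p.1 ^ 3 / 6)) (x, y) =
      (Ioo (0 : ℝ) (1 / 10)).indicator A y + (Ico (1 / 10 : ℝ) 1).indicator B y := by
    intro y
    by_cases c1 : y ∈ Ioo (0 : ℝ) (1 / 10)
    · have c2 : y ∉ Ico (1 / 10 : ℝ) 1 := fun h => absurd c1.2 (not_lt.2 h.1)
      rw [indicator_of_mem c1, indicator_of_notMem c2, add_zero]
      obtain ⟨d1, d2⟩ := c1
      refine H_05b_sec y (1 / 2 + y) (by linarith) fun x => ?_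
      constructor
      · rintro ⟨e1, e2, e3, e4⟩
        simp only at e1 e2 e3 e4
        exact ⟨e1, by linarith⟩
      · rintro ⟨e1, e2⟩
        refine ⟨e1, d1, ?_, ?_⟩
        · show 3 * x / 2 + y < 1
          linarith
        · show x - y < 1 / 2
          linarith
    · rw [indicator_of_notMem c1, zero_add]
      by_cases c2 : y ∈ Ico (1 / 10 : ℝ) 1
      · rw [indicator_of_mem c2]
        obtain ⟨d1, d2⟩ := c2
        refine H_05b_sec y (2 * (1 - y) / 3) (by linarith) fun x => ?_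
        constructor
        · rintro ⟨e1, e2, e3, e4⟩
          simp only at e1 e2 e3 e4
          exact ⟨e1, by linarith⟩
        · rintro ⟨e1, e2⟩
          refine ⟨e1, ?_, ?_, ?_⟩
          · show 0 < y
            linarith
          · show 3 * x / 2 + y < 1
            linarith
          · show x - y < 1 / 2
            linarith
      · rw [indicator_of_notMem c2]
        rw [← integral_zero ℝ ℝ]
        congr 1
        funext x
        refine indicator_of_notMem ?_ _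
        rintro ⟨e1, e2, e3, e4⟩
        simp only at e1 e2 e3 e4
        rcases lt_or_ge y (1 / 10) with f1 | f1
        · exact c1 ⟨e2, f1⟩
        · exact c2 ⟨f1, by linarith⟩
  simp only [h3]
  have hAc : Continuous A := by
    rw [hA]
    fun_prop
  have hBc : Continuous B := by
    rw [hB]
    fun_prop
  have hAi : Integrable ((Ioo (0 : ℝ) (1 / 10)).indicator A) :=
    (integrable_indicator_iff measurableSet_Ioo).2
      ((hAc.continuousOn.integrableOn_compact isCompact_Icc).mono_set Ioo_subset_Icc_self)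
  have hBi : Integrable ((Ico (1 / 10 : ℝ) 1).indicator B) :=
    (integrable_indicator_iff measurableSet_Ico).2
      ((hBc.continuousOn.integrableOn_compact isCompact_Icc).mono_set Ico_subset_Icc_self)
  rw [integral_add hAi hBi, integral_indicator measurableSet_Ioo,
    integral_indicator measurableSet_Ico, ← integral_Ioc_eq_integral_Ioo,
    integral_Ico_eq_integral_Ioo, ← integral_Ioc_eq_integral_Ioo,
    ← intervalIntegral.integral_of_le (by norm_num : (0 : ℝ) ≤ 1 / 10),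
    ← intervalIntegral.integral_of_le (by norm_num : (1 / 10 : ℝ) ≤ 1)]
  exact outer_int

end Pool.Agent.LibSM47.EH
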