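import Pool.Agent.LibSM47.H_04b
import Pool.Agent.LibSM47.H_05b

/-! ROW H_06: choice of the test function. -/

set_option autoImplicit false

namespace Pool.Agent.LibSM47.EH

open MeasureTheory Set Filter Topology

/-- The truncation to `[0,1]`. -/
noncomputable def F_06_cl (t : ℝ) : ℝ := max 0 (min 1 t)

theorem F_06_cl_cont : Continuous F_06_cl := by
  unfold F_06_cl
  fun_prop

theorem F_06_cl_nonneg (t : ℝ) : 0 ≤ F_06_cl t := le_max_left _ _

theorem F_06_cl_le (t : ℝ) : F_06_cl t ≤ 1 := max_le (by norm_num) (min_le_left _ _)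

theorem F_06_cl_zero {t : ℝ} (h : t ≤ 0) : F_06_cl t = 0 := by
  unfold F_06_cl
  exact max_eq_left ((min_le_right _ _).trans h)

theorem F_06_cl_one {t : ℝ} (h : 1 ≤ t) : F_06_cl t = 1 := by
  unfold F_06_cl
  rw [min_eq_left h]
  norm_num

/-- The weight. -/
noncomputable def F_06_w (ε : ℝ) (p : ℝ × ℝ) : ℝ :=
  (F_06_cl ((1 - ε - 3 * p.1 / 2 - p.2) / ε) * F_06_cl ((1 / 2 - ε - p.1 + p.2) / ε)) *
    (F_06_cl (3 - |p.1|) * F_06_cl (3 - |p.2|))

theorem F_06_w_cont (ε : ℝ) : Continuous (F_06_w ε) := by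
  unfold F_06_w
  exact ((F_06_cl_cont.comp (by fun_prop)).mul (F_06_cl_cont.comp (by fun_prop))).mul
    ((F_06_cl_cont.comp (by fun_prop)).mul (F_06_cl_cont.comp (by fun_prop)))

theorem F_06_w_nonneg (ε : ℝ) (p : ℝ × ℝ) : 0 ≤ F_06_w ε p :=
  mul_nonneg (mul_nonneg (F_06_cl_nonneg _) (F_06_cl_nonneg _))
    (mul_nonneg (F_06_cl_nonneg _) (F_06_cl_nonneg _))

theorem F_06_w_le (ε : ℝ) (p : ℝ × ℝ) : F_06_w ε p ≤ 1 :=
  mul_le_one₀ (mul_le_one₀ (F_06_cl_le _) (F_06_cl_nonneg _) (F_06_cl_le _))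
    (mul_nonneg (F_06_cl_nonneg _) (F_06_cl_nonneg _))
    (mul_le_one₀ (F_06_cl_le _) (F_06_cl_nonneg _) (F_06_cl_le _))

theorem F_06_w_out (ε : ℝ) (p : ℝ × ℝ) (hp : p ∉ (Icc (-3 : ℝ) 3) ×ˢ (Icc (-3 : ℝ) 3)) :
    F_06_w ε p = 0 := by
  have h : 3 < |p.1| ∨ 3 < |p.2| := by
    by_contra h
    push Not at h
    exact hp ⟨⟨(abs_le.mp h.1).1, (abs_le.mp h.1).2⟩, ⟨(abs_le.mp h.2).1, (abs_le.mp h.2).2⟩⟩
  unfold F_06_w
  rcases h with h | h
  · rw [F_06_cl_zero (by linarith : 3 - |p.1| ≤ 0)]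
    ring
  · rw [F_06_cl_zero (by linarith : 3 - |p.2| ≤ 0)]
    ring

theorem F_06_w_ne {ε : ℝ} (hε : 0 < ε) {p : ℝ × ℝ} (h : F_06_w ε p ≠ 0) :
    3 * p.1 / 2 + p.2 < 1 - ε ∧ p.1 - p.2 < 1 / 2 - ε := by
  constructor
  · by_contra h1
    push Not at h1
    apply h
    unfold F_06_w
    rw [F_06_cl_zero (div_nonpos_of_nonpos_of_nonneg (by linarith) hε.le :
      (1 - ε - 3 * p.1 / 2 - p.2) / ε ≤ 0)]
    ring
  · by_contra h1
    push Not at h1
    apply h
    unfold F_06_w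
    rw [F_06_cl_zero (div_nonpos_of_nonpos_of_nonneg (by linarith) hε.le :
      (1 / 2 - ε - p.1 + p.2) / ε ≤ 0)]
    ring

theorem F_06_int (g : ℝ × ℝ → ℝ) (hg : Continuous g)
    (hz : ∀ p, p ∉ (Icc (-3 : ℝ) 3) ×ˢ (Icc (-3 : ℝ) 3) → g p = 0) : Integrable g :=
  hg.integrable_of_hasCompactSupport
    (HasCompactSupport.intro (isCompact_Icc.prod isCompact_Icc) hz)

theorem F_06_FF_cont : Continuous FF := by
  unfold FF
  fun_prop

/-- `P = FF * ψ_ε * χ`, where `ψ_ε(x,y) = cl ((1 - ε - 3x/2 - y)/ε) * cl ((1/2 - ε - x + y)/ε)`, `cl t = max 0 (min 1 t)`, and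
`χ(x,y) = cl (3 - |x|) * cl (3 - |y|)` (compact support; `χ = 1` where `x, y ≥ 0` and `ψ ≠ 0`). `0 ≤ ψχ ≤ 1`, so `J1 ≤ J2` by `J1_eq`,
`J2_eq`. For `ε = 1/(k+20)`, `k → ∞`, `ψ_ε` tends on the quadrant to the indicator of `3x/2 + y < 1`, `x - y < 1/2` EVERYWHERE
(it is `0` outside), and dominated convergence with `J2_eq` and `J_exact` gives the value. -/
theorem J_final' (θ : ℝ) (hθ : 0 < θ) : ∃ ε : ℝ, 0 < ε ∧ ε ≤ 1 / 10 ∧ ∃ P : ℝ × ℝ → ℝ, Adm ε P ∧ J1 P ≤ J2 P ∧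
    11422475801 / 241920000000000 - θ ≤ J2 P := by
  have hPc : ∀ ε : ℝ, Continuous (fun p : ℝ × ℝ => FF p * F_06_w ε p) := fun ε =>
    F_06_FF_cont.mul (F_06_w_cont ε)
  have hPz : ∀ (ε : ℝ) (p : ℝ × ℝ), p ∉ (Icc (-3 : ℝ) 3) ×ˢ (Icc (-3 : ℝ) 3) →
      FF p * F_06_w ε p = 0 := fun ε p hp => by rw [F_06_w_out ε p hp, mul_zero]
  have hPs : ∀ ε : ℝ, HasCompactSupport (fun p : ℝ × ℝ => FF p * F_06_w ε p) := fun ε =>
    HasCompactSupport.intro (isCompact_Icc.prod isCompact_Icc) (hPz ε)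
  -- the limit
  have hlim : Tendsto (fun k : ℕ => J2 (fun p : ℝ × ℝ => FF p * F_06_w (1 / ((k : ℝ) + 20)) p)) atTop
      (𝓝 (11422475801 / 241920000000000)) := by
    rw [← J_exact]
    have hJ : ∀ k : ℕ, J2 (fun p : ℝ × ℝ => FF p * F_06_w (1 / ((k : ℝ) + 20)) p) =
        ∫ p in (Ioi (0 : ℝ)) ×ˢ (Ioi (0 : ℝ)),
          FF p * F_06_w (1 / ((k : ℝ) + 20)) p * FF p * (p.1 ^ 3 / 6) := fun k =>
      J2_eq _ (hPc _) (hPs _)
    simp_rw [hJ]
    have hms : MeasurableSet ((Ioi (0 : ℝ)) ×ˢ (Ioi (0 : ℝ))) := measurableSet_Ioi.prod measurableSet_Ioi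
    have hbc : Continuous (fun p : ℝ × ℝ => FF p ^ 2 * (p.1 ^ 3 / 6)) :=
      (F_06_FF_cont.pow 2).mul (by fun_prop)
    refine tendsto_integral_of_dominated_convergence
      (indicator ((Icc (0 : ℝ) 1) ×ˢ (Icc (0 : ℝ) 1)) (fun p : ℝ × ℝ => FF p ^ 2 * (p.1 ^ 3 / 6)))
      (fun k => ?_) ?_ (fun k => ?_) ?_
    · exact (((hPc _).mul F_06_FF_cont).mul (by fun_prop)).aestronglyMeasurable
    · refine (IntegrableOn.integrable_indicator ?_ (measurableSet_Icc.prod measurableSet_Icc)).restrict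
      exact hbc.continuousOn.integrableOn_compact (isCompact_Icc.prod isCompact_Icc)
    · rw [ae_restrict_iff' hms]
      refine Eventually.of_forall fun p hp => ?_
      have hx : 0 < p.1 := hp.1
      have hy : 0 < p.2 := hp.2
      have hε : (0 : ℝ) < 1 / ((k : ℝ) + 20) := by positivity
      by_cases hw : F_06_w (1 / ((k : ℝ) + 20)) p = 0
      · rw [hw]
        have h0 : (0 : ℝ) ≤ indicator ((Icc (0 : ℝ) 1) ×ˢ (Icc (0 : ℝ) 1))
            (fun p : ℝ × ℝ => FF p ^ 2 * (p.1 ^ 3 / 6)) p := by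
          apply indicator_nonneg
          intro q hq
          have := hq.1.1
          positivity
        simpa using h0
      · have h1 := (F_06_w_ne hε hw).1
        have hmem : p ∈ (Icc (0 : ℝ) 1) ×ˢ (Icc (0 : ℝ) 1) :=
          ⟨⟨hx.le, by linarith⟩, ⟨hy.le, by linarith⟩⟩
        rw [indicator_of_mem hmem]
        have hw0 := F_06_w_nonneg (1 / ((k : ℝ) + 20)) p
        have hw1 := F_06_w_le (1 / ((k : ℝ) + 20)) p
        have hA : 0 ≤ FF p ^ 2 * (p.1 ^ 3 / 6) := by positivity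
        have he : FF p * F_06_w (1 / ((k : ℝ) + 20)) p * FF p * (p.1 ^ 3 / 6) =
            F_06_w (1 / ((k : ℝ) + 20)) p * (FF p ^ 2 * (p.1 ^ 3 / 6)) := by ring
        rw [he, Real.norm_eq_abs, abs_of_nonneg (mul_nonneg hw0 hA)]
        exact mul_le_of_le_one_left hA hw1
    · rw [ae_restrict_iff' hms]
      refine Eventually.of_forall fun p hp => ?_
      have hx : 0 < p.1 := hp.1
      have hy : 0 < p.2 := hp.2
      by_cases hc : 3 * p.1 / 2 + p.2 < 1 ∧ p.1 - p.2 < 1 / 2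
      · rw [if_pos hc]
        obtain ⟨h1, h2⟩ := hc
        obtain ⟨N, hN⟩ := exists_nat_gt (max (2 / (1 - (3 * p.1 / 2 + p.2))) (2 / (1 / 2 - (p.1 - p.2))))
        have hN1 := (le_max_left _ _).trans_lt hN
        have hN2 := (le_max_right _ _).trans_lt hN
        refine tendsto_const_nhds.congr' ?_
        filter_upwards [eventually_ge_atTop N] with k hk
        have hkN : (N : ℝ) ≤ k := by exact_mod_cast hk
        have hK : (0 : ℝ) < (k : ℝ) + 20 := by positivity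
        have a1 : 0 < 1 - (3 * p.1 / 2 + p.2) := by linarith
        have a2 : 0 < 1 / 2 - (p.1 - p.2) := by linarith
        rw [div_lt_iff₀ a1] at hN1
        rw [div_lt_iff₀ a2] at hN2
        have b1 : 2 ≤ ((k : ℝ) + 20) * (1 - (3 * p.1 / 2 + p.2)) := by nlinarith
        have b2 : 2 ≤ ((k : ℝ) + 20) * (1 / 2 - (p.1 - p.2)) := by nlinarith
        have hw : F_06_w (1 / ((k : ℝ) + 20)) p = 1 := by
          unfold F_06_w
          have c1 : 1 ≤ (1 - 1 / ((k : ℝ) + 20) - 3 * p.1 / 2 - p.2) / (1 / ((k : ℝ) + 20)) := by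
            rw [div_div_eq_mul_div, div_one, sub_sub, sub_sub]
            have : (1 - (1 / ((k : ℝ) + 20) + (3 * p.1 / 2 + p.2))) * ((k : ℝ) + 20) =
                ((k : ℝ) + 20) * (1 - (3 * p.1 / 2 + p.2)) - 1 := by
              field_simp
              ring
            rw [this]
            linarith
          have c2 : 1 ≤ (1 / 2 - 1 / ((k : ℝ) + 20) - p.1 + p.2) / (1 / ((k : ℝ) + 20)) := by
            rw [div_div_eq_mul_div, div_one]
            have : (1 / 2 - 1 / ((k : ℝ) + 20) - p.1 + p.2) * ((k : ℝ) + 20) =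
                ((k : ℝ) + 20) * (1 / 2 - (p.1 - p.2)) - 1 := by
              field_simp
              ring
            rw [this]
            linarith
          have c3 : 1 ≤ 3 - |p.1| := by
            rw [abs_of_pos hx]
            linarith
          have c4 : 1 ≤ 3 - |p.2| := by
            rw [abs_of_pos hy]
            linarith
          rw [F_06_cl_one c1, F_06_cl_one c2, F_06_cl_one c3, F_06_cl_one c4]
          norm_num
        rw [hw]
        ring
      · rw [if_neg hc]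
        refine tendsto_const_nhds.congr' (Eventually.of_forall fun k => ?_)
        have hε : (0 : ℝ) < 1 / ((k : ℝ) + 20) := by positivity
        have hw : F_06_w (1 / ((k : ℝ) + 20)) p = 0 := by
          by_contra hw
          obtain ⟨h1, h2⟩ := F_06_w_ne hε hw
          exact hc ⟨by linarith, by linarith⟩
        show (0 : ℝ) = FF p * F_06_w (1 / ((k : ℝ) + 20)) p * FF p * (p.1 ^ 3 / 6)
        rw [hw]
        ring
  obtain ⟨k, hk⟩ := (hlim.eventually (lt_mem_nhds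
    (by linarith : (11422475801 / 241920000000000 - θ : ℝ) < 11422475801 / 241920000000000))).exists
  have hε : (0 : ℝ) < 1 / ((k : ℝ) + 20) := by positivity
  refine ⟨1 / ((k : ℝ) + 20), hε, ?_, fun p => FF p * F_06_w (1 / ((k : ℝ) + 20)) p,
    ⟨hPc _, hPs _, ?_⟩, ?_, hk.le⟩
  · rw [div_le_div_iff₀ (by positivity) (by norm_num)]
    have : (0 : ℝ) ≤ k := Nat.cast_nonneg k
    linarith
  · intro x y _ _ hP
    have hw : F_06_w (1 / ((k : ℝ) + 20)) (x, y) ≠ 0 := fun h => hP (by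
      show FF (x, y) * F_06_w (1 / ((k : ℝ) + 20)) (x, y) = 0
      rw [h, mul_zero])
    obtain ⟨h1, h2⟩ := F_06_w_ne hε hw
    exact ⟨h1.le, h2.le⟩
  · rw [J1_eq _ (hPc _) (hPs _), J2_eq _ (hPc _) (hPs _)]
    refine setIntegral_mono_on (Integrable.integrableOn ?_) (Integrable.integrableOn ?_)
      (measurableSet_Ioi.prod measurableSet_Ioi) (fun p hp => ?_)
    · refine F_06_int _ (((hPc _).pow 2).mul (by fun_prop)) (fun p hp => ?_)
      rw [hPz _ p hp]
      ring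
    · refine F_06_int _ (((hPc _).mul F_06_FF_cont).mul (by fun_prop)) (fun p hp => ?_)
      rw [hPz _ p hp]
      ring
    · have hx : 0 < p.1 := hp.1
      have hw0 := F_06_w_nonneg (1 / ((k : ℝ) + 20)) p
      have hw1 := F_06_w_le (1 / ((k : ℝ) + 20)) p
      refine mul_le_mul_of_nonneg_right ?_ (by positivity)
      have e1 : (FF p * F_06_w (1 / ((k : ℝ) + 20)) p) ^ 2 =
          (FF p ^ 2 * F_06_w (1 / ((k : ℝ) + 20)) p) * F_06_w (1 / ((k : ℝ) + 20)) p := by ring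
      have e2 : FF p * F_06_w (1 / ((k : ℝ) + 20)) p * FF p =
          FF p ^ 2 * F_06_w (1 / ((k : ℝ) + 20)) p := by ring
      rw [e1, e2]
      exact mul_le_of_le_one_right (mul_nonneg (sq_nonneg _) hw0) hw1

end Pool.Agent.LibSM47.EH
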