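import Pool.Agent.LibSM47.Defs

/-! SM47 A1b.  Abstract Cauchy-Schwarz.  `g = D + conj X · conj D`.  `f conj g = f conj D + f X D = f conj D + conj f · D`, so
`∫ f conj g = 2 Re ∫ f conj D`.  `‖g‖² = ‖D‖² + ‖D‖² + 2 Re (D · conj (conj X conj D)) = 2‖D‖² + 2 Re (X D²)`.
`|∫ f conj g|² ≤ ∫ ‖f‖² ∫ ‖g‖²` (Hölder / `inner_mul_le_norm_mul_norm` in `L²`, or from `∫ ‖f - c g‖² ≥ 0`).
Everything is integrable: `‖f‖ ≤ 1 + ‖f‖²`, `D`, `X` bounded and continuous.
-/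

set_option autoImplicit false

namespace Pool.Agent.LibSM47

open MeasureTheory Set Filter Topology Complex ProbabilityTheory
open scoped NNReal ComplexConjugate
open Pool.Agent.LibZM

private theorem csb_point (a d x : ℂ) (hx : ‖x‖ = 1) (hax : conj a = x * a) (c : ℝ) :
    ‖a - (c : ℂ) * (d + conj (x * d))‖ ^ 2 =
      ‖a‖ ^ 2 - 4 * c * (a * conj d).re + c ^ 2 * (2 * ‖d‖ ^ 2 + 2 * (x * d ^ 2).re) := by
  have h1 := congrArg Complex.re hax
  have h2 := congrArg Complex.im hax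
  have h3 : ‖x‖ ^ 2 = 1 := by rw [hx]; norm_num
  rw [Complex.sq_norm, Complex.normSq_apply] at h3
  rw [Complex.sq_norm, Complex.sq_norm, Complex.sq_norm, Complex.normSq_apply, Complex.normSq_apply, Complex.normSq_apply, pow_two d]
  simp only [Complex.conj_re, Complex.conj_im, Complex.mul_re, Complex.mul_im, Complex.sub_re, Complex.sub_im,
    Complex.add_re, Complex.add_im, Complex.ofReal_re, Complex.ofReal_im] at h1 h2 ⊢
  linear_combination (2 * c * d.re) * h1 - (2 * c * d.im) * h2 + c ^ 2 * (d.re ^ 2 + d.im ^ 2) * h3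

private theorem csb_int (μ : Measure ℝ) {u v w z : ℝ → ℝ} (hu : Integrable u μ) (hv : Integrable v μ) (hw : Integrable w μ)
    (hz : Integrable z μ) (c : ℝ) :
    ∫ t, (u t - 4 * c * v t + c ^ 2 * (2 * w t + 2 * z t)) ∂μ =
      (∫ t, u t ∂μ) - 4 * c * (∫ t, v t ∂μ) + c ^ 2 * (2 * (∫ t, w t ∂μ) + 2 * ∫ t, z t ∂μ) := by
  have a1 : Integrable (fun t => 4 * c * v t) μ := hv.const_mul (4 * c)
  have a2 : Integrable (fun t => u t - 4 * c * v t) μ := hu.sub a1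
  have a3 : Integrable (fun t => 2 * w t) μ := hw.const_mul 2
  have a4 : Integrable (fun t => 2 * z t) μ := hz.const_mul 2
  have a5 : Integrable (fun t => 2 * w t + 2 * z t) μ := a3.add a4
  have a6 : Integrable (fun t => c ^ 2 * (2 * w t + 2 * z t)) μ := a5.const_mul (c ^ 2)
  rw [integral_add a2 a6, integral_sub hu a1, integral_const_mul, integral_const_mul, integral_add a3 a4,
    integral_const_mul, integral_const_mul]

theorem cs_abstract (μ : Measure ℝ) [IsProbabilityMeasure μ] {f D X : ℝ → ℂ} (hf : Continuous f) (hD : Continuous D)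
    (hX : Continuous X) (hX1 : ∀ t, ‖X t‖ = 1) (hfX : ∀ t, conj (f t) = X t * f t) {B : ℝ} (hB : ∀ t, ‖D t‖ ≤ B)
    (hint : Integrable (fun t => ‖f t‖ ^ 2) μ) :
    2 * (∫ t, f t * conj (D t) ∂μ).re ^ 2 ≤
      (∫ t, ‖f t‖ ^ 2 ∂μ) * ((∫ t, ‖D t‖ ^ 2 ∂μ) + (∫ t, X t * D t ^ 2 ∂μ).re) := by
  have hB0 : 0 ≤ B := (norm_nonneg _).trans (hB 0)
  have iD : Integrable (fun t => ‖D t‖ ^ 2) μ := by
    refine Integrable.of_bound (C := B ^ 2) (hD.norm.pow 2).aestronglyMeasurable (Eventually.of_forall fun t => ?_)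
    rw [Real.norm_of_nonneg (by positivity)]
    exact pow_le_pow_left₀ (norm_nonneg _) (hB t) 2
  have iX : Integrable (fun t => X t * D t ^ 2) μ := by
    refine Integrable.of_bound (C := B ^ 2) (hX.mul (hD.pow 2)).aestronglyMeasurable (Eventually.of_forall fun t => ?_)
    rw [norm_mul, hX1, one_mul, norm_pow]
    exact pow_le_pow_left₀ (norm_nonneg _) (hB t) 2
  have iP : Integrable (fun t => f t * conj (D t)) μ := by
    have hg : Integrable (fun t => B * (1 + ‖f t‖ ^ 2)) μ := ((integrable_const (1 : ℝ)).add hint).const_mul B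
    refine hg.mono' (hf.mul (Complex.continuous_conj.comp hD)).aestronglyMeasurable (Eventually.of_forall fun t => ?_)
    rw [norm_mul, RCLike.norm_conj]
    have h1 : ‖f t‖ * ‖D t‖ ≤ ‖f t‖ * B := mul_le_mul_of_nonneg_left (hB t) (norm_nonneg _)
    have h2 : ‖f t‖ ≤ 1 + ‖f t‖ ^ 2 := by nlinarith [sq_nonneg (‖f t‖ - 1), norm_nonneg (f t)]
    have h3 : ‖f t‖ * B ≤ (1 + ‖f t‖ ^ 2) * B := mul_le_mul_of_nonneg_right h2 hB0
    linarith [h1, h3, mul_comm B (1 + ‖f t‖ ^ 2)]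
  have eP : (∫ t, f t * conj (D t) ∂μ).re = ∫ t, (f t * conj (D t)).re ∂μ :=
    (Complex.reCLM.integral_comp_comm iP).symm
  have eX : (∫ t, X t * D t ^ 2 ∂μ).re = ∫ t, (X t * D t ^ 2).re ∂μ :=
    (Complex.reCLM.integral_comp_comm iX).symm
  have iPr : Integrable (fun t => (f t * conj (D t)).re) μ := Complex.reCLM.integrable_comp iP
  have iXr : Integrable (fun t => (X t * D t ^ 2).re) μ := Complex.reCLM.integrable_comp iX
  rw [eP, eX]
  have key : ∀ c : ℝ, 0 ≤ (2 * (∫ t, ‖D t‖ ^ 2 ∂μ) + 2 * ∫ t, (X t * D t ^ 2).re ∂μ) * (c * c) +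
      (-4 * ∫ t, (f t * conj (D t)).re ∂μ) * c + ∫ t, ‖f t‖ ^ 2 ∂μ := by
    intro c
    have h0 : 0 ≤ ∫ t, (‖f t‖ ^ 2 - 4 * c * (f t * conj (D t)).re +
        c ^ 2 * (2 * ‖D t‖ ^ 2 + 2 * (X t * D t ^ 2).re)) ∂μ := by
      refine integral_nonneg fun t => ?_
      show 0 ≤ ‖f t‖ ^ 2 - 4 * c * (f t * conj (D t)).re + c ^ 2 * (2 * ‖D t‖ ^ 2 + 2 * (X t * D t ^ 2).re)
      rw [← csb_point (f t) (D t) (X t) (hX1 t) (hfX t) c]
      positivity
    have e : ∫ t, (‖f t‖ ^ 2 - 4 * c * (f t * conj (D t)).re +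
        c ^ 2 * (2 * ‖D t‖ ^ 2 + 2 * (X t * D t ^ 2).re)) ∂μ =
        (∫ t, ‖f t‖ ^ 2 ∂μ) - 4 * c * (∫ t, (f t * conj (D t)).re ∂μ) +
          c ^ 2 * (2 * (∫ t, ‖D t‖ ^ 2 ∂μ) + 2 * ∫ t, (X t * D t ^ 2).re ∂μ) :=
      csb_int μ hint iPr iD iXr c
    rw [e] at h0
    linarith [h0]
  have hd := discrim_le_zero key
  unfold discrim at hd
  nlinarith [hd]

end Pool.Agent.LibSM47
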