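import Pool.Agent.LibSM47.Defs

/-! SM47 A2c.  `P` is continuous with compact support, so `|P| ≤ M`.  If `cc P T q ≠ 0` then `P (x, y) ≠ 0` with `x = log m/log T`,
`y = log n/log T`, both `≥ 0`: `3x/2 + y ≤ 1-ε`, `x - y ≤ 1/2 - ε`; sum: `5x/2 ≤ 3/2`; and `x + y ≤ 3x/2 + y`.  Exponentiate
(`m = T^x`, `n = T^y`).
-/

set_option autoImplicit false

namespace Pool.Agent.LibSM47

open MeasureTheory Set Filter Topology Complex ProbabilityTheory
open scoped NNReal ComplexConjugate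
open Pool.Agent.LibZM

theorem hh_nonneg (m : ℕ) : 0 ≤ hh m := by
  unfold hh
  exact Finset.sum_nonneg fun d _ => div_nonneg (Nat.cast_nonneg _) (Nat.cast_nonneg _)

theorem cc_bound (P : ℝ × ℝ → ℝ) (ε : ℝ) (hε : 0 < ε) (hP : Adm ε P) : ∃ M : ℝ, 0 < M ∧ ∀ T : ℝ, 2 ≤ T → ∀ q ∈ idx T,
    |cc P T q| ≤ M * hh q.1 * ((q.1 : ℝ) * q.2) ^ (-(1 / 2) : ℝ) ∧
    (cc P T q ≠ 0 → (q.1 : ℝ) ^ (3 / 2 : ℝ) * q.2 ≤ T ^ (1 - ε) ∧ (q.1 : ℝ) / q.2 ≤ T ^ (1 / 2 - ε) ∧
      (q.1 : ℝ) ≤ T ^ (3 / 5 : ℝ) ∧ (q.1 : ℝ) * q.2 ≤ T ^ (1 - ε)) := by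
  obtain ⟨hc, hs, hA⟩ := hP
  obtain ⟨C, hC⟩ := hc.bounded_above_of_compact_support hs
  refine ⟨max C 1, lt_max_of_lt_right one_pos, ?_⟩
  intro T hT q hq
  obtain ⟨m, n⟩ := q
  simp only [idx, Finset.mem_filter, Finset.mem_product, Finset.mem_Icc] at hq
  obtain ⟨⟨⟨hm1, _⟩, hn1, _⟩, _⟩ := hq
  have hm : (1 : ℝ) ≤ m := by exact_mod_cast hm1
  have hn : (1 : ℝ) ≤ n := by exact_mod_cast hn1
  have hm0 : (0 : ℝ) < m := by linarith
  have hn0 : (0 : ℝ) < n := by linarith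
  have hT0 : (0 : ℝ) < T := by linarith
  have hlT : 0 < Real.log T := Real.log_pos (by linarith)
  have hlm : 0 ≤ Real.log m := Real.log_nonneg hm
  have hln : 0 ≤ Real.log n := Real.log_nonneg hn
  refine ⟨?_, ?_⟩
  · simp only [cc]
    have h1 : (0 : ℝ) ≤ ((m : ℝ) * n) ^ (-(1 / 2) : ℝ) := Real.rpow_nonneg (by positivity) _
    rw [abs_mul, abs_mul, abs_of_nonneg (hh_nonneg m), abs_of_nonneg h1]
    have h2 : |P (Real.log m / Real.log T, Real.log n / Real.log T)| ≤ max C 1 := by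
      have := hC (Real.log m / Real.log T, Real.log n / Real.log T)
      rw [Real.norm_eq_abs] at this
      exact this.trans (le_max_left _ _)
    calc hh m * ((m : ℝ) * n) ^ (-(1 / 2) : ℝ) * |P (Real.log m / Real.log T, Real.log n / Real.log T)|
        ≤ hh m * ((m : ℝ) * n) ^ (-(1 / 2) : ℝ) * max C 1 :=
          mul_le_mul_of_nonneg_left h2 (mul_nonneg (hh_nonneg m) h1)
      _ = max C 1 * hh m * ((m : ℝ) * n) ^ (-(1 / 2) : ℝ) := by ring
  · intro hne
    have hPne : P (Real.log m / Real.log T, Real.log n / Real.log T) ≠ 0 := by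
      intro h0
      apply hne
      simp only [cc]
      rw [h0, mul_zero]
    obtain ⟨h1, h2⟩ := hA _ _ (div_nonneg hlm hlT.le) (div_nonneg hln hlT.le) hPne
    set x := Real.log m / Real.log T with hx
    set y := Real.log n / Real.log T with hy
    have hx0 : 0 ≤ x := div_nonneg hlm hlT.le
    have hy0 : 0 ≤ y := div_nonneg hln hlT.le
    have hmx : Real.log m = Real.log T * x := by rw [hx]; field_simp
    have hny : Real.log n = Real.log T * y := by rw [hy]; field_simp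
    have hmT : (m : ℝ) = T ^ x := by
      rw [Real.rpow_def_of_pos hT0, ← hmx, Real.exp_log hm0]
    have hnT : (n : ℝ) = T ^ y := by
      rw [Real.rpow_def_of_pos hT0, ← hny, Real.exp_log hn0]
    have hT1 : (1 : ℝ) ≤ T := by linarith
    refine ⟨?_, ?_, ?_, ?_⟩
    · simp only
      rw [hmT, hnT, ← Real.rpow_mul hT0.le, ← Real.rpow_add hT0]
      exact Real.rpow_le_rpow_of_exponent_le hT1 (by linarith)
    · simp only
      rw [hmT, hnT, ← Real.rpow_sub hT0]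
      exact Real.rpow_le_rpow_of_exponent_le hT1 h2
    · simp only
      rw [hmT]
      exact Real.rpow_le_rpow_of_exponent_le hT1 (by linarith)
    · simp only
      rw [hmT, hnT, ← Real.rpow_add hT0]
      exact Real.rpow_le_rpow_of_exponent_le hT1 (by linarith)

end Pool.Agent.LibSM47
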