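import Pool.Agent.LibSM47.Defs
import Pool.Agent.LibPH.W03

/-! SM47 A1a.  `z21 t = ζ(s)² conj ζ(s)`, `s = 1/2+it = crit t`.  Functional equation (Mathlib `riemannZeta_one_sub`):
`ζ(1-s) = Xfac s · ζ(s)`, and `ζ(1-s) = ζ(conj s) = conj ζ(s)` on the critical line (`conj_crit`; `riemannZeta_conj` or look for it in
the libraries), so `Xfac s · ζ(s)² conj ζ(s) = conj ζ(s) · ζ(s) · conj ζ(s) = conj (z21 t)`.  Norm of `Xfac`: `LibZM.norm_Xfac_half`.
Continuity of `XX`: `Xfac s = 2 (2π)^{-s} Γ(s) cos(πs/2)`, no pole on `Re s = 1/2`.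
-/

set_option autoImplicit false

namespace Pool.Agent.LibSM47

open MeasureTheory Set Filter Topology Complex ProbabilityTheory
open scoped NNReal ComplexConjugate
open Pool.Agent.LibZM

private theorem M_A1a_ne (t : ℝ) (n : ℕ) : crit t ≠ -(n : ℂ) := by
  intro h
  have h1 := congrArg Complex.re h
  rw [crit_re] at h1
  simp only [Complex.neg_re, Complex.natCast_re] at h1
  linarith [Nat.cast_nonneg (α := ℝ) n]

private theorem M_A1a_conj (t : ℝ) : conj (crit t) = 1 - crit t := by
  unfold crit
  apply Complex.ext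
  · simp
    norm_num
  · simp

private theorem M_A1a_fe (t : ℝ) :
    conj (riemannZeta (crit t)) = Xfac (crit t) * riemannZeta (crit t) := by
  have h2 : riemannZeta (1 - crit t) = 2 * (2 * Real.pi) ^ (-(crit t)) * Complex.Gamma (crit t) *
      Complex.cos (Real.pi * (crit t) / 2) * riemannZeta (crit t) :=
    riemannZeta_one_sub (M_A1a_ne t) (crit_ne_one t)
  rw [← riemannZeta_conj, M_A1a_conj]
  exact h2

theorem conj_z21 (t : ℝ) : conj (LibPH.z21 t) = XX t * LibPH.z21 t := by
  have h1 : LibPH.z21 t = riemannZeta (crit t) ^ 2 * conj (riemannZeta (crit t)) := rfl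
  have h2 := M_A1a_fe t
  rw [h1]
  unfold XX
  rw [map_mul, map_pow, Complex.conj_conj]
  calc conj (riemannZeta (crit t)) ^ 2 * riemannZeta (crit t)
      = conj (riemannZeta (crit t)) * riemannZeta (crit t) * conj (riemannZeta (crit t)) := by ring
    _ = (Xfac (crit t) * riemannZeta (crit t)) * riemannZeta (crit t) *
        conj (riemannZeta (crit t)) := by rw [← h2]
    _ = Xfac (crit t) * (riemannZeta (crit t) ^ 2 * conj (riemannZeta (crit t))) := by ring

theorem norm_XX (t : ℝ) : ‖XX t‖ = 1 := norm_Xfac_half (crit_re t)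

theorem cont_XX : Continuous XX := by
  have hc : Continuous crit := by
    unfold crit
    fun_prop
  have hG : Continuous fun t : ℝ => Complex.Gamma (crit t) := by
    rw [continuous_iff_continuousAt]
    intro t
    exact ContinuousAt.comp (f := crit) (g := Complex.Gamma)
      (Complex.differentiableAt_Gamma _ (M_A1a_ne t)).continuousAt hc.continuousAt
  have hP : Continuous fun t : ℝ => ((2 : ℂ) * (Real.pi : ℂ)) ^ (-(crit t)) := by
    refine Continuous.const_cpow hc.neg (Or.inl ?_)
    exact mul_ne_zero two_ne_zero (by exact_mod_cast Real.pi_ne_zero)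
  unfold XX Xfac
  exact ((continuous_const.mul hP).mul hG).mul
    (Complex.continuous_cos.comp ((continuous_const.mul hc).div_const 2))

theorem norm_z21 (t : ℝ) : ‖LibPH.z21 t‖ ^ 2 = ‖riemannZeta (crit t)‖ ^ 6 := by
  have h1 : LibPH.z21 t = riemannZeta (crit t) ^ 2 * conj (riemannZeta (crit t)) := rfl
  rw [h1, norm_mul, norm_pow, Complex.norm_conj]
  ring

end Pool.Agent.LibSM47
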