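import Pool.Agent.LibSM47.M_B2
import Pool.Agent.LibSM47.M_A1a
import Pool.Agent.LibSM47.M_A1c

/-! SM47 B3 (cross term).  `X D² = ∑_{q,q'} c c' X(t) ch(ρ)(-t)`, `ρ = (m/n)(m'/n')`, and `ρ ≤ T^{1-2ε}` when `c c' ≠ 0` (`cc_bound`),
so by `cross_small` and `cc_sum` the integral is `≤ (C T^{(1-ε)/2})² T^{-3/2} ≤ 1` for large `T`.  (Its statement is the hypothesis hcross.)
-/

set_option autoImplicit false

namespace Pool.Agent.LibSM47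

open MeasureTheory Set Filter Topology Complex ProbabilityTheory
open scoped NNReal ComplexConjugate
open Pool.Agent.LibZM

private lemma M_B3_ch (r s t : ℝ) (hr : 0 < r) (hs : 0 < s) : ch r t * ch s t = ch (r * s) t := by
  unfold ch
  rw [← Complex.exp_add, Real.log_mul hr.ne' hs.ne']
  congr 1
  push_cast
  ring

private lemma M_B3_int (V u ρ : ℝ) : Integrable (fun t => XX t * ch ρ (-t)) (gam V u) := by
  have hcont : Continuous (fun t => XX t * ch ρ (-t)) :=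
    cont_XX.mul ((cont_ch ρ).comp continuous_neg)
  refine Integrable.of_bound hcont.aestronglyMeasurable 1 ?_
  exact Filter.Eventually.of_forall fun t => by
    rw [norm_mul, norm_XX, norm_ch]
    norm_num

private lemma M_B3_pos {T : ℝ} {q : ℕ × ℕ} (hq : q ∈ idx T) : 0 < (q.1 : ℝ) / q.2 := by
  simp only [idx, Finset.mem_filter, Finset.mem_product, Finset.mem_Icc] at hq
  obtain ⟨⟨⟨hm1, _⟩, hn1, _⟩, _⟩ := hq
  have hm : (0 : ℝ) < q.1 := by exact_mod_cast hm1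
  have hn : (0 : ℝ) < q.2 := by exact_mod_cast hn1
  exact div_pos hm hn

private lemma M_B3_expand (P : ℝ × ℝ → ℝ) (T t : ℝ) : XX t * DD P T t ^ 2 =
    ∑ q ∈ idx T, ∑ q' ∈ idx T, ((cc P T q * cc P T q' : ℝ) : ℂ) *
      (XX t * ch (((q.1 : ℝ) / q.2) * ((q'.1 : ℝ) / q'.2)) (-t)) := by
  unfold DD
  rw [pow_two, Finset.sum_mul_sum, Finset.mul_sum]
  refine Finset.sum_congr rfl fun q hq => ?_
  rw [Finset.mul_sum]
  refine Finset.sum_congr rfl fun q' hq' => ?_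
  rw [← M_B3_ch _ _ _ (M_B3_pos hq) (M_B3_pos hq')]
  push_cast
  ring

private lemma M_B3_integral (P : ℝ × ℝ → ℝ) (T V u : ℝ) :
    ∫ t, XX t * DD P T t ^ 2 ∂(gam V u) =
    ∑ q ∈ idx T, ∑ q' ∈ idx T, ((cc P T q * cc P T q' : ℝ) : ℂ) *
      ∫ t, XX t * ch (((q.1 : ℝ) / q.2) * ((q'.1 : ℝ) / q'.2)) (-t) ∂(gam V u) := by
  have h1 : (fun t => XX t * DD P T t ^ 2) = fun t => ∑ q ∈ idx T, ∑ q' ∈ idx T,
      ((cc P T q * cc P T q' : ℝ) : ℂ) *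
      (XX t * ch (((q.1 : ℝ) / q.2) * ((q'.1 : ℝ) / q'.2)) (-t)) := by
    funext t
    exact M_B3_expand P T t
  rw [h1, integral_finsetSum]
  · refine Finset.sum_congr rfl fun q hq => ?_
    rw [integral_finsetSum]
    · refine Finset.sum_congr rfl fun q' hq' => ?_
      rw [integral_const_mul]
    · intro q' _
      exact (M_B3_int V u _).const_mul _
  · intro q _
    exact integrable_finsetSum _ fun q' _ => (M_B3_int V u _).const_mul _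

theorem D_cross' (P : ℝ × ℝ → ℝ) (ε ε₁ δ : ℝ) (hε : 0 < ε) (hε1 : 0 < ε₁) (hδ : 0 < δ) (hδ1 : δ ≤ ε / 10) (hε' : ε ≤ 1 / 10)
    (hP : Adm ε P) (hcross : ∃ T₀ : ℝ, ∀ T : ℝ, T₀ ≤ T → ∀ u : ℝ, ε₁ * T ≤ u → u ≤ T → ∀ ρ : ℝ, 0 < ρ → ρ ≤ T ^ (1 - 2 * ε) →
      ‖∫ t, XX t * ch ρ (-t) ∂(gam (T ^ (1 - δ)) u)‖ ≤ T ^ (-(3 / 2) : ℝ)) :
    ∃ T₀ : ℝ, ∀ T : ℝ, T₀ ≤ T → ∀ u : ℝ, ε₁ * T ≤ u → u ≤ T →
      ‖∫ t, XX t * DD P T t ^ 2 ∂(gam (T ^ (1 - δ)) u)‖ ≤ 1 := by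
  obtain ⟨C, hC0, hC⟩ := cc_sum P ε hε hε' hP
  obtain ⟨M, hM0, hM⟩ := cc_bound P ε hε hP
  obtain ⟨T₀, hT₀⟩ := hcross
  refine ⟨max T₀ (max 2 (C ^ 4)), ?_⟩
  intro T hT u hu1 hu2
  have hT0 : T₀ ≤ T := (le_max_left _ _).trans hT
  have hT2 : (2 : ℝ) ≤ T := ((le_max_left _ _).trans (le_max_right _ _)).trans hT
  have hTC : C ^ 4 ≤ T := ((le_max_right _ _).trans (le_max_right _ _)).trans hT
  have hTpos : 0 < T := by linarith
  have hterm : ∀ q ∈ idx T, ∀ q' ∈ idx T, ‖((cc P T q * cc P T q' : ℝ) : ℂ) *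
      ∫ t, XX t * ch (((q.1 : ℝ) / q.2) * ((q'.1 : ℝ) / q'.2)) (-t) ∂(gam (T ^ (1 - δ)) u)‖ ≤
      |cc P T q| * |cc P T q'| * T ^ (-(3 / 2) : ℝ) := by
    intro q hq q' hq'
    rw [norm_mul, Complex.norm_real, Real.norm_eq_abs, abs_mul]
    by_cases h1 : cc P T q = 0
    · rw [h1]
      simp
    by_cases h2 : cc P T q' = 0
    · rw [h2]
      simp
    refine mul_le_mul_of_nonneg_left ?_ (mul_nonneg (abs_nonneg _) (abs_nonneg _))
    have hp := M_B3_pos hq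
    have hp' := M_B3_pos hq'
    refine hT₀ T hT0 u hu1 hu2 _ (mul_pos hp hp') ?_
    have hr := ((hM T hT2 q hq).2 h1).2.1
    have hr' := ((hM T hT2 q' hq').2 h2).2.1
    calc ((q.1 : ℝ) / q.2) * ((q'.1 : ℝ) / q'.2) ≤ T ^ (1 / 2 - ε) * T ^ (1 / 2 - ε) :=
          mul_le_mul hr hr' hp'.le (Real.rpow_nonneg hTpos.le _)
      _ = T ^ (1 - 2 * ε) := by
          rw [← Real.rpow_add hTpos]
          congr 1
          ring
  rw [M_B3_integral]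
  have hsum : ‖∑ q ∈ idx T, ∑ q' ∈ idx T, ((cc P T q * cc P T q' : ℝ) : ℂ) *
      ∫ t, XX t * ch (((q.1 : ℝ) / q.2) * ((q'.1 : ℝ) / q'.2)) (-t) ∂(gam (T ^ (1 - δ)) u)‖ ≤
      (∑ q ∈ idx T, |cc P T q|) ^ 2 * T ^ (-(3 / 2) : ℝ) := by
    rw [pow_two, Finset.sum_mul_sum, Finset.sum_mul]
    refine norm_sum_le_of_le _ fun q hq => ?_
    rw [Finset.sum_mul]
    exact norm_sum_le_of_le _ fun q' hq' => hterm q hq q' hq'
  refine hsum.trans ?_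
  have hS0 : 0 ≤ ∑ q ∈ idx T, |cc P T q| := Finset.sum_nonneg fun q _ => abs_nonneg _
  have hT32 : 0 ≤ T ^ (-(3 / 2) : ℝ) := Real.rpow_nonneg hTpos.le _
  have h3 : (∑ q ∈ idx T, |cc P T q|) ^ 2 ≤ C ^ 2 * T ^ (1 - ε) := by
    calc (∑ q ∈ idx T, |cc P T q|) ^ 2 ≤ (C * T ^ ((1 - ε) / 2)) ^ 2 :=
          pow_le_pow_left₀ hS0 (hC T hT2) 2
      _ = C ^ 2 * T ^ (1 - ε) := by
          rw [mul_pow, ← Real.rpow_natCast (T ^ ((1 - ε) / 2)) 2, ← Real.rpow_mul hTpos.le]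
          congr 2
          push_cast
          ring
  have h4 : C ^ 2 ≤ T ^ (1 / 2 : ℝ) := by
    rw [← Real.sqrt_eq_rpow]
    refine Real.le_sqrt_of_sq_le ?_
    calc (C ^ 2) ^ 2 = C ^ 4 := by ring
      _ ≤ T := hTC
  calc (∑ q ∈ idx T, |cc P T q|) ^ 2 * T ^ (-(3 / 2) : ℝ)
      ≤ C ^ 2 * T ^ (1 - ε) * T ^ (-(3 / 2) : ℝ) := mul_le_mul_of_nonneg_right h3 hT32
    _ ≤ T ^ (1 / 2 : ℝ) * T ^ (1 - ε) * T ^ (-(3 / 2) : ℝ) := by
        refine mul_le_mul_of_nonneg_right ?_ hT32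
        exact mul_le_mul_of_nonneg_right h4 (Real.rpow_nonneg hTpos.le _)
    _ = T ^ (-ε) := by
        rw [← Real.rpow_add hTpos, ← Real.rpow_add hTpos]
        congr 1
        ring
    _ ≤ 1 := Real.rpow_le_one_of_one_le_of_nonpos (by linarith) (by linarith)

end Pool.Agent.LibSM47
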