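import Pool.Agent.LibSM47.M_B2

/-! SM47 B4 (sum of errR).  With `η = ε/1000`, `|c| ≤ C m^η (mn)^{-1/2}` on `reg`, the eight pieces of `errR`:
`1`: reg1; `m/n`: reg2 with `α = 1/2+η`: `T^{0.9+η}`; `m^{-1/2+η} T^{1/4}`: reg1, `T^{3/4}`; `(m/n) m^{-1/2+η} T^{1/4}`: reg2 with
`α = 2η`: `T^{0.85+2η}`; `√(n/m)`: reg3 with `w = m^{η-1}`: `T^{1-ε}`;
`√(n/m) m^{3/2+8η} √pw (1+n/m)^η`: `(1+n/m)^η ≤ (2T)^η`, reg3 with `w = m^{1/2+9η} √pw`, then hypothesis `hpw` for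
`∑_{m ≤ T} m^{-1+9η} √pw ≤ T^{9η} C T^η`: total `T^{1-ε+12η}`; `m^{-1/2+η} T^{1/2}`: reg1: `T^{1/2+(1-ε)/2}`.
All are `≤ C T^{1-ε/4}` because `ε ≤ 1/10`, `η = ε/1000`.
-/

set_option autoImplicit false

namespace Pool.Agent.LibSM47

open MeasureTheory Set Filter Topology Complex ProbabilityTheory
open scoped NNReal ComplexConjugate
open Pool.Agent.LibZM

private theorem B4_pw (m : ℕ) : 1 ≤ pw m := by
  unfold pw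
  refine Nat.succ_le_of_lt (Finset.prod_pos fun p hp => ?_)
  have := Nat.prime_of_mem_primeFactors (Finset.mem_filter.1 hp).1
  exact pow_pos this.pos _

private theorem B4_point (η T : ℝ) (hη0 : 0 < η) (hη1 : η ≤ 1) (hT : 2 ≤ T) (m n : ℕ)
    (hm : 1 ≤ m) (hn : 1 ≤ n) (hnT : (n : ℝ) ≤ T) :
    ((m : ℝ) * n) ^ (-(1 / 2) : ℝ) * (m : ℝ) ^ η * errR η T m n ≤
      (m : ℝ) ^ (η - 1 / 2) * (n : ℝ) ^ (-(1 / 2) : ℝ) +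
      (m : ℝ) ^ (η + 1 / 2) * (n : ℝ) ^ (-(3 / 2) : ℝ) +
      ((m : ℝ) ^ (2 * η - 1) * (n : ℝ) ^ (-(1 / 2) : ℝ)) * T ^ (1 / 4 : ℝ) +
      ((m : ℝ) ^ (2 * η) * (n : ℝ) ^ (-(3 / 2) : ℝ)) * T ^ (1 / 4 : ℝ) +
      (m : ℝ) ^ (η - 1) +
      ((m : ℝ) ^ (1 / 2 + 9 * η) * √(pw m : ℝ)) * (2 * T ^ η) +
      ((m : ℝ) ^ (2 * η - 1) * (n : ℝ) ^ (-(1 / 2) : ℝ)) * T ^ (1 / 2 : ℝ) := by
  obtain ⟨a, ha⟩ : ∃ a : ℝ, a = m := ⟨_, rfl⟩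
  obtain ⟨b, hb⟩ : ∃ b : ℝ, b = n := ⟨_, rfl⟩
  have ha1 : 1 ≤ a := by
    rw [ha]
    exact_mod_cast hm
  have hb1 : 1 ≤ b := by
    rw [hb]
    exact_mod_cast hn
  unfold errR
  rw [← ha, ← hb]
  rw [← hb] at hnT
  have ha0 : 0 < a := by linarith
  have hb0 : 0 < b := by linarith
  have hT0 : 0 < T := by linarith
  obtain ⟨u, hu⟩ : ∃ u : ℝ, u = a ^ (-(1 / 2) + η) := ⟨_, rfl⟩
  obtain ⟨r, hr⟩ : ∃ r : ℝ, r = b ^ (-(1 / 2) : ℝ) := ⟨_, rfl⟩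
  have hX : (a * b) ^ (-(1 / 2) : ℝ) * a ^ η = u * r := by
    rw [Real.mul_rpow ha0.le hb0.le, hu, hr, Real.rpow_add ha0]
    ring
  have f0 : a ^ (η - 1 / 2) = u := by
    rw [hu]
    congr 1
    ring
  have f1 : a ^ (η + 1 / 2) = a * u := by
    rw [hu, show η + 1 / 2 = 1 + (-(1 / 2) + η) by ring, Real.rpow_add ha0, Real.rpow_one]
  have f2 : b ^ (-(3 / 2) : ℝ) = r / b := by
    rw [hr, show (-(3 / 2) : ℝ) = -(1 / 2) - 1 by ring, Real.rpow_sub_one hb0.ne']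
  have f3 : a ^ (2 * η - 1) = u * u := by
    rw [hu, ← Real.rpow_add ha0]
    congr 1
    ring
  have f4 : a ^ (2 * η) = a * (u * u) := by
    rw [← f3, show 2 * η = 1 + (2 * η - 1) by ring, Real.rpow_add ha0, Real.rpow_one]
    congr 2
    ring
  have f5 : √(b / a) * (u * r) = a ^ (η - 1) := by
    have e1 : √(b / a) = a ^ (-(1 / 2) : ℝ) * b ^ (1 / 2 : ℝ) := by
      rw [Real.sqrt_eq_rpow, Real.div_rpow hb0.le ha0.le, Real.rpow_neg ha0.le]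
      ring
    have e2 : b ^ (1 / 2 : ℝ) * r = 1 := by
      rw [hr, ← Real.rpow_add hb0]
      norm_num
    have e3 : a ^ (-(1 / 2) : ℝ) * u = a ^ (η - 1) := by
      rw [hu, ← Real.rpow_add ha0]
      congr 1
      ring
    rw [e1, ← e3]
    linear_combination (a ^ (-(1 / 2) : ℝ) * u) * e2
  have f6 : a ^ (η - 1) * a ^ (3 / 2 + 8 * η) = a ^ (1 / 2 + 9 * η) := by
    rw [← Real.rpow_add ha0]
    congr 1
    ring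
  have f7 : (1 + b / a) ^ η ≤ 2 * T ^ η := by
    have e1 : 1 + b / a ≤ 2 * T := by
      have : b / a ≤ b := div_le_self hb0.le ha1
      linarith
    have e2 : (1 + b / a) ^ η ≤ (2 * T) ^ η := Real.rpow_le_rpow (by positivity) e1 hη0.le
    rw [Real.mul_rpow (by norm_num) hT0.le] at e2
    have e3 : (2 : ℝ) ^ η ≤ 2 := by
      have := Real.rpow_le_rpow_of_exponent_le (by norm_num : (1 : ℝ) ≤ 2) hη1
      rwa [Real.rpow_one] at this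
    exact e2.trans (mul_le_mul_of_nonneg_right e3 (by positivity))
  rw [hX, f0, f1, f2, f3, f4, ← hu, ← hr, ← f6]
  have e : u * r * ((1 + a / b) * (1 + u * T ^ (1 / 4 : ℝ)) +
      √(b / a) * (1 + a ^ (3 / 2 + 8 * η) * √(pw m : ℝ) * (1 + b / a) ^ η) + u * T ^ (1 / 2 : ℝ)) =
      u * r + a * u * (r / b) + (u * u * r) * T ^ (1 / 4 : ℝ) +
      (a * (u * u) * (r / b)) * T ^ (1 / 4 : ℝ) + √(b / a) * (u * r) +
      ((√(b / a) * (u * r)) * a ^ (3 / 2 + 8 * η) * √(pw m : ℝ)) * (1 + b / a) ^ η +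
      (u * u * r) * T ^ (1 / 2 : ℝ) := by
    field_simp
    ring
  rw [e, f5]
  gcongr

theorem errR_sum (P : ℝ × ℝ → ℝ) (ε : ℝ) (hε : 0 < ε) (hε' : ε ≤ 1 / 10) (hP : Adm ε P)
    (hpw : ∀ η : ℝ, 0 < η → ∃ C : ℝ, 0 < C ∧ ∀ M : ℕ, 1 ≤ M →
      ∑ m ∈ Finset.Icc 1 M, (m : ℝ)⁻¹ * (pw m : ℝ) ^ (1 / 2 : ℝ) ≤ C * (M : ℝ) ^ η) :
    ∃ C : ℝ, 0 < C ∧ ∀ T : ℝ, 2 ≤ T →
      ∑ q ∈ idx T, |cc P T q| * errR (ε / 1000) T q.1 q.2 ≤ C * T ^ (1 - ε / 4) := by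
  obtain ⟨η, hη⟩ : ∃ η, η = ε / 1000 := ⟨_, rfl⟩
  rw [← hη]
  have hη0 : 0 < η := by
    rw [hη]
    positivity
  have hε1 : ε < 1 := by linarith
  obtain ⟨M, hM, hcc⟩ := cc_bound P ε hε hP
  obtain ⟨D, hD, hdiv⟩ := card_div_le η hη0
  obtain ⟨C1, hC1, h1⟩ := reg1 (η - 1 / 2) ε (by linarith) hε hε1
  obtain ⟨C2, hC2, h2⟩ := reg2 (η + 1 / 2) ε (by linarith) hε hε1
  obtain ⟨C3, hC3, h3⟩ := reg1 (2 * η - 1) ε (by linarith) hε hε1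
  obtain ⟨C4, hC4, h4⟩ := reg2 (2 * η) ε (by linarith) hε hε1
  obtain ⟨C5, hC5, h5⟩ := hpw η hη0
  refine ⟨M * D * (C1 + C2 + C3 + C4 + C5 + 2 * C5 + C3), by positivity, fun T hT => ?_⟩
  have hT0 : 0 < T := by linarith
  have hT1 : 1 ≤ T := by linarith
  have hpt : ∀ q ∈ reg ε T, |cc P T q| * errR η T q.1 q.2 ≤ M * D *
      ((q.1 : ℝ) ^ (η - 1 / 2) * (q.2 : ℝ) ^ (-(1 / 2) : ℝ) +
      (q.1 : ℝ) ^ (η + 1 / 2) * (q.2 : ℝ) ^ (-(3 / 2) : ℝ) +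
      ((q.1 : ℝ) ^ (2 * η - 1) * (q.2 : ℝ) ^ (-(1 / 2) : ℝ)) * T ^ (1 / 4 : ℝ) +
      ((q.1 : ℝ) ^ (2 * η) * (q.2 : ℝ) ^ (-(3 / 2) : ℝ)) * T ^ (1 / 4 : ℝ) +
      (q.1 : ℝ) ^ (η - 1) +
      ((q.1 : ℝ) ^ (1 / 2 + 9 * η) * √(pw q.1 : ℝ)) * (2 * T ^ η) +
      ((q.1 : ℝ) ^ (2 * η - 1) * (q.2 : ℝ) ^ (-(1 / 2) : ℝ)) * T ^ (1 / 2 : ℝ)) := by
    intro q hq
    have hqi : q ∈ idx T := (Finset.mem_filter.1 hq).1
    have hq2 := Finset.mem_product.1 (Finset.mem_filter.1 hqi).1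
    have hm := Finset.mem_Icc.1 hq2.1
    have hn := Finset.mem_Icc.1 hq2.2
    have hnT : (q.2 : ℝ) ≤ T := by
      have h1 : (q.2 : ℝ) ≤ (⌊T⌋₊ : ℝ) := by exact_mod_cast hn.2
      exact h1.trans (Nat.floor_le hT0.le)
    have hp := B4_point η T hη0 (by linarith) hT q.1 q.2 hm.1 hn.1 hnT
    have herr : 0 ≤ errR η T q.1 q.2 := by
      unfold errR
      positivity
    have hb : |cc P T q| ≤ M * D * (((q.1 : ℝ) * q.2) ^ (-(1 / 2) : ℝ) * (q.1 : ℝ) ^ η) := by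
      refine (hcc T hT q hqi).1.trans ?_
      have h6 : hh q.1 ≤ D * (q.1 : ℝ) ^ η := (hh_le_card q.1).trans (hdiv q.1 hm.1)
      calc M * hh q.1 * ((q.1 : ℝ) * q.2) ^ (-(1 / 2) : ℝ)
          ≤ M * (D * (q.1 : ℝ) ^ η) * ((q.1 : ℝ) * q.2) ^ (-(1 / 2) : ℝ) := by gcongr
        _ = M * D * (((q.1 : ℝ) * q.2) ^ (-(1 / 2) : ℝ) * (q.1 : ℝ) ^ η) := by ring
    calc |cc P T q| * errR η T q.1 q.2
        ≤ M * D * (((q.1 : ℝ) * q.2) ^ (-(1 / 2) : ℝ) * (q.1 : ℝ) ^ η) * errR η T q.1 q.2 :=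
          mul_le_mul_of_nonneg_right hb herr
      _ = M * D * (((q.1 : ℝ) * q.2) ^ (-(1 / 2) : ℝ) * (q.1 : ℝ) ^ η * errR η T q.1 q.2) := by
          ring
      _ ≤ _ := mul_le_mul_of_nonneg_left hp (by positivity)
  have hreg : ∑ q ∈ idx T, |cc P T q| * errR η T q.1 q.2 =
      ∑ q ∈ reg ε T, |cc P T q| * errR η T q.1 q.2 := by
    unfold reg
    symm
    apply Finset.sum_filter_of_ne
    intro q hq hne
    have hc : cc P T q ≠ 0 := by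
      intro h
      apply hne
      rw [h, abs_zero, zero_mul]
    obtain ⟨a1, _, a3, _⟩ := (hcc T hT q hq).2 hc
    exact ⟨a1, a3⟩
  have hfl : (1 : ℕ) ≤ ⌊T⌋₊ := Nat.le_floor (by exact_mod_cast hT1)
  have hS5 : ∑ m ∈ Finset.Icc 1 ⌊T⌋₊, (m : ℝ)⁻¹ * (pw m : ℝ) ^ (1 / 2 : ℝ) ≤ C5 * T ^ η := by
    refine (h5 ⌊T⌋₊ hfl).trans ?_
    have h6 : ((⌊T⌋₊ : ℕ) : ℝ) ^ η ≤ T ^ η :=
      Real.rpow_le_rpow (Nat.cast_nonneg _) (Nat.floor_le hT0.le) hη0.le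
    gcongr
  have b1 : ∑ q ∈ reg ε T, (q.1 : ℝ) ^ (η - 1 / 2) * (q.2 : ℝ) ^ (-(1 / 2) : ℝ) ≤
      C1 * T ^ (1 - ε / 4) := by
    refine (h1 T hT).trans ?_
    have : T ^ ((1 - ε) / 2) ≤ T ^ (1 - ε / 4) :=
      Real.rpow_le_rpow_of_exponent_le hT1 (by linarith)
    gcongr
  have b2 : ∑ q ∈ reg ε T, (q.1 : ℝ) ^ (η + 1 / 2) * (q.2 : ℝ) ^ (-(3 / 2) : ℝ) ≤
      C2 * T ^ (1 - ε / 4) := by
    refine (h2 T hT).trans ?_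
    have : T ^ ((3 / 5) * (η + 1 / 2 + 1)) ≤ T ^ (1 - ε / 4) :=
      Real.rpow_le_rpow_of_exponent_le hT1 (by linarith)
    gcongr
  have b3 : ∀ θ : ℝ, θ ≤ 1 / 2 → (∑ q ∈ reg ε T, (q.1 : ℝ) ^ (2 * η - 1) *
      (q.2 : ℝ) ^ (-(1 / 2) : ℝ)) * T ^ θ ≤ C3 * T ^ (1 - ε / 4) := by
    intro θ hθ
    have h6 := h3 T hT
    have h7 : T ^ ((1 - ε) / 2) * T ^ θ ≤ T ^ (1 - ε / 4) := by
      rw [← Real.rpow_add hT0]
      exact Real.rpow_le_rpow_of_exponent_le hT1 (by linarith)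
    calc _ ≤ (C3 * T ^ ((1 - ε) / 2)) * T ^ θ := by gcongr
      _ = C3 * (T ^ ((1 - ε) / 2) * T ^ θ) := by ring
      _ ≤ _ := by gcongr
  have b4 : (∑ q ∈ reg ε T, (q.1 : ℝ) ^ (2 * η) * (q.2 : ℝ) ^ (-(3 / 2) : ℝ)) *
      T ^ (1 / 4 : ℝ) ≤ C4 * T ^ (1 - ε / 4) := by
    have h6 := h4 T hT
    have h7 : T ^ ((3 / 5) * (2 * η + 1)) * T ^ (1 / 4 : ℝ) ≤ T ^ (1 - ε / 4) := by
      rw [← Real.rpow_add hT0]
      exact Real.rpow_le_rpow_of_exponent_le hT1 (by linarith)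
    calc _ ≤ (C4 * T ^ ((3 / 5) * (2 * η + 1))) * T ^ (1 / 4 : ℝ) := by gcongr
      _ = C4 * (T ^ ((3 / 5) * (2 * η + 1)) * T ^ (1 / 4 : ℝ)) := by ring
      _ ≤ _ := by gcongr
  have b5 : ∑ q ∈ reg ε T, (q.1 : ℝ) ^ (η - 1) ≤ C5 * T ^ (1 - ε / 4) := by
    have h6 := reg3 ε hε hε1 (fun m => (m : ℝ) ^ (η - 1)) (fun m => by positivity) T hT
    have h7 : ∑ m ∈ Finset.Icc 1 ⌊T⌋₊, (m : ℝ) ^ (η - 1) * (m : ℝ) ^ (-(3 / 2) : ℝ) ≤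
        ∑ m ∈ Finset.Icc 1 ⌊T⌋₊, (m : ℝ)⁻¹ * (pw m : ℝ) ^ (1 / 2 : ℝ) := by
      apply Finset.sum_le_sum
      intro m hm
      have hm1 : (1 : ℝ) ≤ m := by exact_mod_cast (Finset.mem_Icc.1 hm).1
      have hm0 : (0 : ℝ) < m := by linarith
      have h8 : (m : ℝ) ^ (η - 1) * (m : ℝ) ^ (-(3 / 2) : ℝ) ≤ (m : ℝ)⁻¹ := by
        rw [← Real.rpow_add hm0, ← Real.rpow_neg_one]
        exact Real.rpow_le_rpow_of_exponent_le hm1 (by linarith)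
      have h9 : (1 : ℝ) ≤ (pw m : ℝ) ^ (1 / 2 : ℝ) :=
        Real.one_le_rpow (by exact_mod_cast B4_pw m) (by norm_num)
      exact h8.trans (le_mul_of_one_le_right (by positivity) h9)
    have h10 : T ^ (1 - ε) * T ^ η ≤ T ^ (1 - ε / 4) := by
      rw [← Real.rpow_add hT0]
      exact Real.rpow_le_rpow_of_exponent_le hT1 (by linarith)
    calc _ ≤ T ^ (1 - ε) * ∑ m ∈ Finset.Icc 1 ⌊T⌋₊, (m : ℝ) ^ (η - 1) *
          (m : ℝ) ^ (-(3 / 2) : ℝ) := h6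
      _ ≤ T ^ (1 - ε) * (C5 * T ^ η) := by
          have := h7.trans hS5
          gcongr
      _ = C5 * (T ^ (1 - ε) * T ^ η) := by ring
      _ ≤ _ := by gcongr
  have b6 : (∑ q ∈ reg ε T, (q.1 : ℝ) ^ (1 / 2 + 9 * η) * √(pw q.1 : ℝ)) * (2 * T ^ η) ≤
      2 * C5 * T ^ (1 - ε / 4) := by
    have h6 := reg3 ε hε hε1 (fun m => (m : ℝ) ^ (1 / 2 + 9 * η) * √(pw m : ℝ))
      (fun m => by positivity) T hT
    have h7 : ∑ m ∈ Finset.Icc 1 ⌊T⌋₊, (m : ℝ) ^ (1 / 2 + 9 * η) * √(pw m : ℝ) *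
        (m : ℝ) ^ (-(3 / 2) : ℝ) ≤
        T ^ (9 * η) * ∑ m ∈ Finset.Icc 1 ⌊T⌋₊, (m : ℝ)⁻¹ * (pw m : ℝ) ^ (1 / 2 : ℝ) := by
      rw [Finset.mul_sum]
      apply Finset.sum_le_sum
      intro m hm
      have hm1 : (1 : ℝ) ≤ m := by exact_mod_cast (Finset.mem_Icc.1 hm).1
      have hm0 : (0 : ℝ) < m := by linarith
      have hmT : (m : ℝ) ≤ T := by
        have h1 : (m : ℝ) ≤ (⌊T⌋₊ : ℝ) := by exact_mod_cast (Finset.mem_Icc.1 hm).2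
        exact h1.trans (Nat.floor_le hT0.le)
      have h8 : (m : ℝ) ^ (1 / 2 + 9 * η) * (m : ℝ) ^ (-(3 / 2) : ℝ) =
          (m : ℝ) ^ (9 * η) * (m : ℝ)⁻¹ := by
        rw [← Real.rpow_add hm0, ← Real.rpow_neg_one, ← Real.rpow_add hm0]
        congr 1
        ring
      have h9 : (m : ℝ) ^ (9 * η) ≤ T ^ (9 * η) :=
        Real.rpow_le_rpow hm0.le hmT (by positivity)
      rw [Real.sqrt_eq_rpow]
      calc (m : ℝ) ^ (1 / 2 + 9 * η) * (pw m : ℝ) ^ (1 / 2 : ℝ) * (m : ℝ) ^ (-(3 / 2) : ℝ)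
          = (m : ℝ) ^ (1 / 2 + 9 * η) * (m : ℝ) ^ (-(3 / 2) : ℝ) * (pw m : ℝ) ^ (1 / 2 : ℝ) := by
            ring
        _ = (m : ℝ) ^ (9 * η) * ((m : ℝ)⁻¹ * (pw m : ℝ) ^ (1 / 2 : ℝ)) := by
            rw [h8]
            ring
        _ ≤ _ := by gcongr
    have h10 : T ^ (1 - ε) * T ^ (9 * η) * T ^ η * T ^ η ≤ T ^ (1 - ε / 4) := by
      rw [← Real.rpow_add hT0, ← Real.rpow_add hT0, ← Real.rpow_add hT0]
      exact Real.rpow_le_rpow_of_exponent_le hT1 (by linarith)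
    calc _ ≤ (T ^ (1 - ε) * ∑ m ∈ Finset.Icc 1 ⌊T⌋₊, (m : ℝ) ^ (1 / 2 + 9 * η) *
          √(pw m : ℝ) * (m : ℝ) ^ (-(3 / 2) : ℝ)) * (2 * T ^ η) := by gcongr
      _ ≤ (T ^ (1 - ε) * (T ^ (9 * η) * (C5 * T ^ η))) * (2 * T ^ η) := by
          have := h7.trans (mul_le_mul_of_nonneg_left hS5 (by positivity : 0 ≤ T ^ (9 * η)))
          gcongr
      _ = 2 * C5 * (T ^ (1 - ε) * T ^ (9 * η) * T ^ η * T ^ η) := by ring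
      _ ≤ _ := by gcongr
  rw [hreg]
  refine (Finset.sum_le_sum hpt).trans ?_
  rw [← Finset.mul_sum, mul_assoc (M * D)]
  apply mul_le_mul_of_nonneg_left _ (by positivity)
  simp only [Finset.sum_add_distrib, ← Finset.sum_mul]
  have b3a := b3 (1 / 4) (by norm_num)
  have b3b := b3 (1 / 2) le_rfl
  linarith

end Pool.Agent.LibSM47
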