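import Pool.Agent.LibSM47.M_B1
import Pool.Agent.LibPH.Q01

/-! SM47 B5 (sum of errS).  `∑_{n ≤ T} 1/n ≤ C log T`.  `hh m ≤ d(m)`, `errS m = ∑_{k ∣ m} d(m/k)/k (1+log² k)`; with `m = k m'`:
`∑_{m ≤ T} hh(m) errS(m)/m ≤ ∑_k (1+log² k) d(k)/k² ∑_{m' ≤ T} d(m')²/m'` (`d(km') ≤ d(k) d(m')`), the first sum converges, and
`∑_{m ≤ T} d(m)²/m ≤ ∑_{a,b,c,e ≤ T} 1/(abce)`-type bound `≤ C (log T)^4`: e.g. `d(m)² ≤ d_4(m)` (number of factorizations in 4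
factors; submultiplicativity `d(m)² = ∑_{d|m} d(d²)`-free proof: prime powers `(j+1)² ≤ C(j+3,3)`), or search the libraries for
`∑ d(n)²/n` (LibPH.Q01: `q01_f_sum`, `∑ d(n)² n^{-1-ε} ≤ A/ε⁴`: take `ε = 1/log T`, `n^{-ε} ≥ e^{-1}` for `n ≤ T`: this gives it at once).
-/

set_option autoImplicit false

namespace Pool.Agent.LibSM47

open MeasureTheory Set Filter Topology Complex ProbabilityTheory
open scoped NNReal ComplexConjugate
open Pool.Agent.LibZM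

theorem dsq_sum : ∃ C : ℝ, 0 < C ∧ ∀ T : ℝ, 2 ≤ T →
    ∑ m ∈ Finset.Icc 1 ⌊T⌋₊, (m.divisors.card : ℝ) ^ 2 / m ≤ C * (Real.log T) ^ 4 := by
  obtain ⟨A, ε0, hA, hε0, hsum⟩ := LibPH.q01_f_sum
  have hl2 : 0 < Real.log 2 := Real.log_pos (by norm_num)
  set K : ℝ := 1 + 2 / (ε0 * Real.log 2) with hK
  have hK0 : 0 < K := by positivity
  refine ⟨Real.exp 1 * A * K ^ 4, by positivity, fun T hT => ?_⟩
  have hlT : Real.log 2 ≤ Real.log T := Real.log_le_log (by norm_num) hT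
  have hlT0 : 0 < Real.log T := hl2.trans_le hlT
  set ε : ℝ := min (1 / Real.log T) (ε0 / 2) with hε
  have hε1 : 0 < ε := lt_min (by positivity) (by positivity)
  have hε2 : ε < ε0 := (min_le_right _ _).trans_lt (by linarith)
  have hε3 : ε ≤ 1 / Real.log T := min_le_left _ _
  have hinv : 1 / ε ≤ K * Real.log T := by
    rw [div_le_iff₀ hε1]
    rcases min_cases (1 / Real.log T) (ε0 / 2) with ⟨h1, -⟩ | ⟨h1, -⟩
    · rw [hε, h1]
      have : K * Real.log T * (1 / Real.log T) = K := by field_simp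
      rw [this, hK]
      have : 0 < 2 / (ε0 * Real.log 2) := by positivity
      linarith
    · rw [hε, h1]
      have h2 : 1 ≤ 2 / (ε0 * Real.log 2) * Real.log 2 * (ε0 / 2) := by
        have : 2 / (ε0 * Real.log 2) * Real.log 2 * (ε0 / 2) = 1 := by field_simp
        rw [this]
      have h3 : 2 / (ε0 * Real.log 2) * Real.log 2 * (ε0 / 2) ≤ K * Real.log T * (ε0 / 2) := by
        have : 2 / (ε0 * Real.log 2) ≤ K := by rw [hK]; linarith
        gcongr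
      linarith
  have hpt : ∀ m ∈ Finset.Icc 1 ⌊T⌋₊, (m.divisors.card : ℝ) ^ 2 / m ≤
      Real.exp 1 * LibPH.q01_f ε m := by
    intro m hm
    obtain ⟨hm1, hm2⟩ := Finset.mem_Icc.mp hm
    have hm0 : (0 : ℝ) < m := by exact_mod_cast hm1
    have hmT : (m : ℝ) ≤ T := (Nat.le_floor_iff (by linarith)).mp hm2
    have h1 : (m : ℝ) ^ ε ≤ Real.exp 1 := by
      rw [Real.rpow_def_of_pos hm0]
      apply Real.exp_le_exp.mpr
      have h2 : Real.log m ≤ Real.log T := Real.log_le_log hm0 hmT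
      calc Real.log m * ε ≤ Real.log T * ε := by gcongr
        _ ≤ Real.log T * (1 / Real.log T) := by gcongr
        _ = 1 := by field_simp
    have h3 : LibPH.q01_f ε m = (m.divisors.card : ℝ) ^ 2 * ((m : ℝ) ^ (1 + ε))⁻¹ := by
      unfold LibPH.q01_f
      rw [Real.rpow_neg hm0.le]
      rfl
    rw [h3, Real.rpow_add hm0, Real.rpow_one]
    have h4 : 0 < (m : ℝ) ^ ε := Real.rpow_pos_of_pos hm0 _
    have h5 : (m.divisors.card : ℝ) ^ 2 / m = (m : ℝ) ^ ε * ((m.divisors.card : ℝ) ^ 2 *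
        ((m : ℝ) * (m : ℝ) ^ ε)⁻¹) := by
      field_simp
    rw [h5]
    exact mul_le_mul_of_nonneg_right h1 (by positivity)
  calc ∑ m ∈ Finset.Icc 1 ⌊T⌋₊, (m.divisors.card : ℝ) ^ 2 / m
      ≤ ∑ m ∈ Finset.Icc 1 ⌊T⌋₊, Real.exp 1 * LibPH.q01_f ε m := Finset.sum_le_sum hpt
    _ = Real.exp 1 * ∑ m ∈ Finset.Icc 1 ⌊T⌋₊, LibPH.q01_f ε m := by rw [Finset.mul_sum]
    _ ≤ Real.exp 1 * (A / ε ^ 4) := by
      have h1 : ∑ m ∈ Finset.Icc 1 ⌊T⌋₊, LibPH.q01_f ε m ≤ ∑' m, LibPH.q01_f ε m :=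
        (LibPH.q01_f_summable hε1).sum_le_tsum _ fun m _ => LibPH.q01_f_nonneg ε m
      have h2 := hsum ε hε1 hε2
      have h3 := h1.trans h2
      gcongr
    _ = Real.exp 1 * A * (1 / ε) ^ 4 := by rw [one_div, inv_pow]; ring
    _ ≤ Real.exp 1 * A * (K * Real.log T) ^ 4 := by gcongr
    _ = Real.exp 1 * A * K ^ 4 * Real.log T ^ 4 := by ring

private theorem mb5_pairs (N : ℕ) (f : ℕ → ℕ → ℝ) (hf : ∀ k j, 0 ≤ f k j) :
    ∑ m ∈ Finset.Icc 1 N, ∑ k ∈ m.divisors, f k (m / k) ≤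
      ∑ k ∈ Finset.Icc 1 N, ∑ j ∈ Finset.Icc 1 N, f k j := by
  have h1 : ∀ m ∈ Finset.Icc 1 N, ∑ k ∈ m.divisors, f k (m / k) =
      ∑ p ∈ Finset.Icc 1 N ×ˢ Finset.Icc 1 N, if p.1 * p.2 = m then f p.1 p.2 else 0 := by
    intro m hm
    obtain ⟨hm1, hm2⟩ := Finset.mem_Icc.mp hm
    rw [← Nat.sum_divisorsAntidiagonal (f := fun k j => f k j), ← Finset.sum_filter]
    apply Finset.sum_congr _ fun _ _ => rfl
    ext p
    rw [Nat.mem_divisorsAntidiagonal, Finset.mem_filter, Finset.mem_product, Finset.mem_Icc,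
      Finset.mem_Icc]
    constructor
    · rintro ⟨h1, h2⟩
      have hp1 : p.1 ≠ 0 := by
        intro h
        rw [h, zero_mul] at h1
        exact h2 h1.symm
      have hp2 : p.2 ≠ 0 := by
        intro h
        rw [h, mul_zero] at h1
        exact h2 h1.symm
      have h3 : p.1 ≤ m := by
        rw [← h1]
        exact Nat.le_mul_of_pos_right _ (Nat.pos_of_ne_zero hp2)
      have h4 : p.2 ≤ m := by
        rw [← h1]
        exact Nat.le_mul_of_pos_left _ (Nat.pos_of_ne_zero hp1)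
      exact ⟨⟨⟨Nat.pos_of_ne_zero hp1, h3.trans hm2⟩, ⟨Nat.pos_of_ne_zero hp2, h4.trans hm2⟩⟩, h1⟩
    · rintro ⟨-, h⟩
      exact ⟨h, by omega⟩
  have h2 : ∀ p ∈ Finset.Icc 1 N ×ˢ Finset.Icc 1 N,
      (∑ m ∈ Finset.Icc 1 N, if p.1 * p.2 = m then f p.1 p.2 else 0) ≤ f p.1 p.2 := by
    intro p _
    rw [Finset.sum_ite_eq]
    split_ifs
    · exact le_rfl
    · exact hf _ _
  calc ∑ m ∈ Finset.Icc 1 N, ∑ k ∈ m.divisors, f k (m / k)
      = ∑ m ∈ Finset.Icc 1 N, ∑ p ∈ Finset.Icc 1 N ×ˢ Finset.Icc 1 N,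
          (if p.1 * p.2 = m then f p.1 p.2 else 0) := Finset.sum_congr rfl h1
    _ = ∑ p ∈ Finset.Icc 1 N ×ˢ Finset.Icc 1 N, ∑ m ∈ Finset.Icc 1 N,
          (if p.1 * p.2 = m then f p.1 p.2 else 0) := Finset.sum_comm
    _ ≤ ∑ p ∈ Finset.Icc 1 N ×ˢ Finset.Icc 1 N, f p.1 p.2 := Finset.sum_le_sum h2
    _ = ∑ k ∈ Finset.Icc 1 N, ∑ j ∈ Finset.Icc 1 N, f k j := by
      rw [Finset.sum_product]

private theorem mb5_errS_nonneg (m : ℕ) : 0 ≤ errS m := by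
  unfold errS
  exact Finset.sum_nonneg fun k _ => by positivity

private theorem mb5_hh_nonneg (m : ℕ) : 0 ≤ hh m := by
  unfold hh
  exact Finset.sum_nonneg fun k _ => by positivity

private theorem mb5_card_mul (a b : ℕ) :
    ((a * b).divisors.card : ℝ) ≤ (a.divisors.card : ℝ) * (b.divisors.card : ℝ) := by
  rw [Nat.divisors_mul]
  exact_mod_cast Finset.card_mul_le

private noncomputable def mb5_g (k : ℕ) : ℝ :=
  (k.divisors.card : ℝ) * (1 + Real.log k ^ 2) / (k : ℝ) ^ 2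

private noncomputable def mb5_e (j : ℕ) : ℝ := (j.divisors.card : ℝ) ^ 2 / j

private theorem mb5_g0 (k : ℕ) : 0 ≤ mb5_g k := by
  unfold mb5_g
  positivity

private theorem mb5_e0 (k : ℕ) : 0 ≤ mb5_e k := by
  unfold mb5_e
  positivity

private theorem mb5_h1 (T : ℝ) :
    ∑ q ∈ idx T, hh q.1 * ((q.1 : ℝ) * q.2)⁻¹ * errS q.1 ≤
      (∑ m ∈ Finset.Icc 1 ⌊T⌋₊, hh m * errS m / m) * ∑ n ∈ Finset.Icc 1 ⌊T⌋₊, ((n : ℝ))⁻¹ := by
  calc ∑ q ∈ idx T, hh q.1 * ((q.1 : ℝ) * q.2)⁻¹ * errS q.1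
      ≤ ∑ q ∈ Finset.Icc 1 ⌊T⌋₊ ×ˢ Finset.Icc 1 ⌊T⌋₊,
          hh q.1 * ((q.1 : ℝ) * q.2)⁻¹ * errS q.1 := by
        unfold idx
        apply Finset.sum_le_sum_of_subset_of_nonneg (Finset.filter_subset _ _)
        intro q _ _
        have h1 := mb5_hh_nonneg q.1
        have h2 := mb5_errS_nonneg q.1
        exact mul_nonneg (mul_nonneg h1 (by positivity)) h2
    _ = ∑ m ∈ Finset.Icc 1 ⌊T⌋₊, ∑ n ∈ Finset.Icc 1 ⌊T⌋₊,
          hh m * ((m : ℝ) * n)⁻¹ * errS m := by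
        rw [Finset.sum_product]
    _ = (∑ m ∈ Finset.Icc 1 ⌊T⌋₊, hh m * errS m / m) *
          ∑ n ∈ Finset.Icc 1 ⌊T⌋₊, ((n : ℝ))⁻¹ := by
        rw [Finset.sum_mul_sum]
        refine Finset.sum_congr rfl fun m _ => Finset.sum_congr rfl fun n _ => ?_
        rw [mul_inv, div_eq_mul_inv]
        ring

private theorem mb5_h2 (N : ℕ) : ∑ m ∈ Finset.Icc 1 N, hh m * errS m / m ≤
    (∑ k ∈ Finset.Icc 1 N, mb5_g k) * ∑ j ∈ Finset.Icc 1 N, mb5_e j := by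
  calc ∑ m ∈ Finset.Icc 1 N, hh m * errS m / m
      ≤ ∑ m ∈ Finset.Icc 1 N, ∑ k ∈ m.divisors, mb5_g k * mb5_e (m / k) := by
        refine Finset.sum_le_sum fun m hm => ?_
        obtain ⟨hm1, -⟩ := Finset.mem_Icc.mp hm
        have hm0 : (0 : ℝ) < m := by exact_mod_cast hm1
        rw [errS, Finset.mul_sum, Finset.sum_div]
        refine Finset.sum_le_sum fun k hk => ?_
        obtain ⟨hkm, -⟩ := Nat.mem_divisors.mp hk
        obtain ⟨j, rfl⟩ := hkm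
        have hk0 : k ≠ 0 := by
          rintro rfl
          simp at hm1
        have hj0 : j ≠ 0 := by
          rintro rfl
          simp at hm1
        rw [Nat.mul_div_cancel_left j (Nat.pos_of_ne_zero hk0)]
        have hkR : (0 : ℝ) < k := by exact_mod_cast Nat.pos_of_ne_zero hk0
        have hjR : (0 : ℝ) < j := by exact_mod_cast Nat.pos_of_ne_zero hj0
        have h3 : hh (k * j) ≤ (k.divisors.card : ℝ) * j.divisors.card :=
          (hh_le_card _).trans (mb5_card_mul k j)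
        have h4 : 0 ≤ (j.divisors.card : ℝ) / k * (1 + Real.log k ^ 2) := by positivity
        calc hh (k * j) * ((j.divisors.card : ℝ) / k * (1 + Real.log k ^ 2)) / ((k * j : ℕ) : ℝ)
            ≤ ((k.divisors.card : ℝ) * j.divisors.card) *
              ((j.divisors.card : ℝ) / k * (1 + Real.log k ^ 2)) / ((k * j : ℕ) : ℝ) :=
              div_le_div_of_nonneg_right (mul_le_mul_of_nonneg_right h3 h4) (Nat.cast_nonneg _)
          _ = mb5_g k * mb5_e j := by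
              unfold mb5_g mb5_e
              push_cast
              field_simp
    _ ≤ ∑ k ∈ Finset.Icc 1 N, ∑ j ∈ Finset.Icc 1 N, mb5_g k * mb5_e j :=
        mb5_pairs N (fun k j => mb5_g k * mb5_e j) fun k j => mul_nonneg (mb5_g0 k) (mb5_e0 j)
    _ = (∑ k ∈ Finset.Icc 1 N, mb5_g k) * ∑ j ∈ Finset.Icc 1 N, mb5_e j := by
        rw [Finset.sum_mul_sum]

private theorem mb5_h3 : ∃ K : ℝ, 0 < K ∧ ∀ N : ℕ, ∑ k ∈ Finset.Icc 1 N, mb5_g k ≤ K := by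
  obtain ⟨C₂, hC₂, hdiv⟩ := card_div_le (1 / 4) (by norm_num)
  have hS : Summable fun n : ℕ => (n : ℝ) ^ (-(3 / 2) : ℝ) :=
    Real.summable_nat_rpow.mpr (by norm_num)
  have hS0 : 0 ≤ ∑' n : ℕ, (n : ℝ) ^ (-(3 / 2) : ℝ) := tsum_nonneg fun n => by positivity
  refine ⟨C₂ * 65 * (∑' n : ℕ, (n : ℝ) ^ (-(3 / 2) : ℝ) + 1), by positivity, fun N => ?_⟩
  calc ∑ k ∈ Finset.Icc 1 N, mb5_g k
      ≤ ∑ k ∈ Finset.Icc 1 N, C₂ * 65 * (k : ℝ) ^ (-(3 / 2) : ℝ) := by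
        refine Finset.sum_le_sum fun k hk => ?_
        obtain ⟨hk1, -⟩ := Finset.mem_Icc.mp hk
        have hk0 : (0 : ℝ) < k := by exact_mod_cast hk1
        have hk1' : (1 : ℝ) ≤ k := by exact_mod_cast hk1
        have h4 := hdiv k hk1
        have h5 : Real.log k ≤ (k : ℝ) ^ (1 / 8 : ℝ) / (1 / 8) :=
          Real.log_le_rpow_div hk0.le (by norm_num)
        have h6 : 0 ≤ Real.log k := Real.log_nonneg hk1'
        have h7 : Real.log k ^ 2 ≤ 64 * (k : ℝ) ^ (1 / 4 : ℝ) := by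
          calc Real.log k ^ 2 ≤ ((k : ℝ) ^ (1 / 8 : ℝ) / (1 / 8)) ^ 2 := pow_le_pow_left₀ h6 h5 2
            _ = 64 * (k : ℝ) ^ (1 / 4 : ℝ) := by
              rw [div_pow, ← Real.rpow_natCast ((k : ℝ) ^ (1 / 8 : ℝ)), ← Real.rpow_mul hk0.le]
              norm_num
              ring
        have h8 : 1 ≤ (k : ℝ) ^ (1 / 4 : ℝ) := Real.one_le_rpow hk1' (by norm_num)
        have h9 : 1 + Real.log k ^ 2 ≤ 65 * (k : ℝ) ^ (1 / 4 : ℝ) := by linarith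
        have h10 : (k : ℝ) ^ (-(3 / 2) : ℝ) =
            (k : ℝ) ^ (1 / 4 : ℝ) * (k : ℝ) ^ (1 / 4 : ℝ) / (k : ℝ) ^ 2 := by
          rw [← Real.rpow_natCast (k : ℝ), ← Real.rpow_add hk0, ← Real.rpow_sub hk0]
          norm_num
        unfold mb5_g
        rw [h10]
        calc (k.divisors.card : ℝ) * (1 + Real.log k ^ 2) / (k : ℝ) ^ 2
            ≤ (C₂ * (k : ℝ) ^ (1 / 4 : ℝ)) * (65 * (k : ℝ) ^ (1 / 4 : ℝ)) / (k : ℝ) ^ 2 :=
              div_le_div_of_nonneg_right (mul_le_mul h4 h9 (by positivity) (by positivity))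
                (by positivity)
          _ = C₂ * 65 * ((k : ℝ) ^ (1 / 4 : ℝ) * (k : ℝ) ^ (1 / 4 : ℝ) / (k : ℝ) ^ 2) := by
              ring
    _ = C₂ * 65 * ∑ k ∈ Finset.Icc 1 N, (k : ℝ) ^ (-(3 / 2) : ℝ) := by rw [Finset.mul_sum]
    _ ≤ C₂ * 65 * (∑' n : ℕ, (n : ℝ) ^ (-(3 / 2) : ℝ) + 1) := by
        have h4 : ∑ k ∈ Finset.Icc 1 N, (k : ℝ) ^ (-(3 / 2) : ℝ) ≤
            ∑' n : ℕ, (n : ℝ) ^ (-(3 / 2) : ℝ) := hS.sum_le_tsum _ fun n _ => by positivity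
        exact mul_le_mul_of_nonneg_left (by linarith) (by positivity)

private theorem mb5_h5 (T : ℝ) (hT : 2 ≤ T) : ∑ n ∈ Finset.Icc 1 ⌊T⌋₊, ((n : ℝ))⁻¹ ≤
    (1 + 1 / Real.log 2) * Real.log T := by
  have hl2 : 0 < Real.log 2 := Real.log_pos (by norm_num)
  have hlT : Real.log 2 ≤ Real.log T := Real.log_le_log (by norm_num) hT
  have h6 := harmonic_le_one_add_log ⌊T⌋₊
  rw [harmonic_eq_sum_Icc] at h6
  push_cast at h6
  have hNT : (⌊T⌋₊ : ℝ) ≤ T := Nat.floor_le (by linarith)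
  have hN1 : (0 : ℝ) < ⌊T⌋₊ := by
    have : 1 ≤ ⌊T⌋₊ := Nat.le_floor (by push_cast; linarith)
    exact_mod_cast this
  have h7 : Real.log ⌊T⌋₊ ≤ Real.log T := Real.log_le_log hN1 hNT
  have h8 : 1 ≤ 1 / Real.log 2 * Real.log T := by
    rw [one_div, inv_mul_eq_div, le_div_iff₀ hl2]
    linarith
  linarith

theorem errS_sum : ∃ C : ℝ, 0 < C ∧ ∀ T : ℝ, 2 ≤ T →
    ∑ q ∈ idx T, hh q.1 * ((q.1 : ℝ) * q.2)⁻¹ * errS q.1 ≤ C * (Real.log T) ^ 5 := by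
  obtain ⟨C₁, hC₁, hd⟩ := dsq_sum
  obtain ⟨K, hK, h3⟩ := mb5_h3
  have hl2 : 0 < Real.log 2 := Real.log_pos (by norm_num)
  refine ⟨K * C₁ * (1 + 1 / Real.log 2), by positivity, fun T hT => ?_⟩
  have hlT : Real.log 2 ≤ Real.log T := Real.log_le_log (by norm_num) hT
  have hlT0 : 0 < Real.log T := hl2.trans_le hlT
  have h4 : ∑ j ∈ Finset.Icc 1 ⌊T⌋₊, mb5_e j ≤ C₁ * Real.log T ^ 4 := hd T hT
  have hE0 : 0 ≤ ∑ j ∈ Finset.Icc 1 ⌊T⌋₊, mb5_e j := Finset.sum_nonneg fun j _ => mb5_e0 j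
  have hH0 : 0 ≤ ∑ n ∈ Finset.Icc 1 ⌊T⌋₊, ((n : ℝ))⁻¹ :=
    Finset.sum_nonneg fun j _ => inv_nonneg.mpr (Nat.cast_nonneg j)
  have h6 : ∑ m ∈ Finset.Icc 1 ⌊T⌋₊, hh m * errS m / m ≤ K * (C₁ * Real.log T ^ 4) :=
    (mb5_h2 ⌊T⌋₊).trans (mul_le_mul (h3 _) h4 hE0 hK.le)
  have h7 : 0 ≤ K * (C₁ * Real.log T ^ 4) := by positivity
  have h8 := mul_le_mul h6 (mb5_h5 T hT) hH0 h7
  refine ((mb5_h1 T).trans h8).trans (le_of_eq ?_)
  ring

end Pool.Agent.LibSM47
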