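import Pool.Agent.LibSM47.M_B4
import Pool.Agent.LibSM47.M_B5
import Pool.Agent.LibSM47.FaceB

/-! SM47 B6.  `one_fraction` (Face.lean) with `δ = ε/100`, `η = ε/1000`: for each `q` with `c ≠ 0`,
`|II.re - (mn)^{-1/2} mainS| ≤ C (mn)^{-1/2} L errS + C T^{9δ-1} errR`.  Sum against `|c|`: the first is
`≤ C M L ∑ hh(m) (mn)^{-1} errS ≤ C' L^6` (errS_sum), the second `≤ C T^{9δ-1} C' T^{1-ε/4} ≤ C''` (errR_sum, `9δ = 0.09 ε < ε/4`).
-/

set_option autoImplicit false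

namespace Pool.Agent.LibSM47

open MeasureTheory Set Filter Topology Complex ProbabilityTheory
open scoped NNReal ComplexConjugate
open Pool.Agent.LibZM

theorem II_sum' (P : ℝ × ℝ → ℝ) (ε ε₁ : ℝ) (hε : 0 < ε) (hε1 : 0 < ε₁) (hε' : ε ≤ 1 / 10) (hP : Adm ε P)
    (hS : ∃ C : ℝ, 0 < C ∧ ∀ T : ℝ, 2 ≤ T → ∑ q ∈ idx T, hh q.1 * ((q.1 : ℝ) * q.2)⁻¹ * errS q.1 ≤ C * (Real.log T) ^ 5)
    (hR : ∃ C : ℝ, 0 < C ∧ ∀ T : ℝ, 2 ≤ T → ∑ q ∈ idx T, |cc P T q| * errR (ε / 1000) T q.1 q.2 ≤ C * T ^ (1 - ε / 4)) :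
    ∃ C T₀ : ℝ, ∀ T : ℝ, T₀ ≤ T → ∀ u : ℝ, ε₁ * T ≤ u → u ≤ T →
      |(∑ q ∈ idx T, cc P T q * (II (T ^ (1 - ε / 100)) u q.1 q.2).re)
        - (∑ q ∈ idx T, cc P T q * (((q.1 : ℝ) * q.2) ^ (-(1 / 2) : ℝ) *
          mainS q.1 (Real.log (u / (2 * Real.pi)) + Real.log q.1 - Real.log q.2)))| ≤ C * (Real.log T) ^ 6 := by
  obtain ⟨C, T₀, hC, hone⟩ := one_fraction ε₁ (ε / 100) (ε / 1000) hε1 (by positivity) (by linarith)
    (by positivity) (by linarith)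
  obtain ⟨CS, hCS, hS⟩ := hS
  obtain ⟨CR, hCR, hR⟩ := hR
  obtain ⟨M, hM⟩ := hP.1.bounded_above_of_compact_support hP.2.1
  have hM0 : 0 ≤ M := (norm_nonneg _).trans (hM 0)
  refine ⟨C * M * CS + C * CR, max T₀ (Real.exp 1), fun T hT u hu1 hu2 => ?_⟩
  have hT0 : T₀ ≤ T := (le_max_left _ _).trans hT
  have hTe : Real.exp 1 ≤ T := (le_max_right _ _).trans hT
  have hT2 : 2 ≤ T := by
    have := Real.add_one_le_exp (1 : ℝ)
    linarith
  have hTpos : 0 < T := by linarith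
  have hL : 1 ≤ Real.log T := by
    rw [Real.le_log_iff_exp_le hTpos]
    exact hTe
  have hL0 : 0 ≤ Real.log T := zero_le_one.trans hL
  rw [← Finset.sum_sub_distrib]
  have hterm : ∀ q ∈ idx T, |cc P T q * (II (T ^ (1 - ε / 100)) u q.1 q.2).re -
      cc P T q * (((q.1 : ℝ) * q.2) ^ (-(1 / 2) : ℝ) *
        mainS q.1 (Real.log (u / (2 * Real.pi)) + Real.log q.1 - Real.log q.2))| ≤
      C * M * Real.log T * (hh q.1 * ((q.1 : ℝ) * q.2)⁻¹ * errS q.1) +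
        C * T ^ (9 * (ε / 100) - 1) * (|cc P T q| * errR (ε / 1000) T q.1 q.2) := by
    intro q hq
    simp only [idx, Finset.mem_filter, Finset.mem_product, Finset.mem_Icc] at hq
    obtain ⟨⟨⟨h1, h2⟩, h3, h4⟩, h5⟩ := hq
    have h2' : (q.1 : ℝ) ≤ T := (Nat.le_floor_iff hTpos.le).mp h2
    have h4' : (q.2 : ℝ) ≤ T := (Nat.le_floor_iff hTpos.le).mp h4
    have hk := hone T hT0 u hu1 hu2 q.1 q.2 h1 h3 h5.symm h2' h4'
    have hmn : (0 : ℝ) < (q.1 : ℝ) * q.2 := by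
      have : (0 : ℝ) < (q.1 : ℝ) := by exact_mod_cast h1
      have : (0 : ℝ) < (q.2 : ℝ) := by exact_mod_cast h3
      positivity
    have hr0 : 0 ≤ ((q.1 : ℝ) * q.2) ^ (-(1 / 2) : ℝ) := Real.rpow_nonneg hmn.le _
    have hrr : ((q.1 : ℝ) * q.2) ^ (-(1 / 2) : ℝ) * ((q.1 : ℝ) * q.2) ^ (-(1 / 2) : ℝ) =
        ((q.1 : ℝ) * q.2)⁻¹ := by
      rw [← Real.rpow_add hmn, ← Real.rpow_neg_one]
      norm_num
    have hh0 : 0 ≤ hh q.1 := by
      unfold hh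
      exact Finset.sum_nonneg fun d _ => by positivity
    have hS0 : 0 ≤ errS q.1 := by
      unfold errS
      exact Finset.sum_nonneg fun d _ => by positivity
    rw [← mul_sub, abs_mul]
    have hre : |(II (T ^ (1 - ε / 100)) u q.1 q.2).re - ((q.1 : ℝ) * q.2) ^ (-(1 / 2) : ℝ) *
        mainS q.1 (Real.log (u / (2 * Real.pi)) + Real.log q.1 - Real.log q.2)| ≤
        C * ((q.1 : ℝ) * q.2) ^ (-(1 / 2) : ℝ) * Real.log T * errS q.1 +
          C * T ^ (9 * (ε / 100) - 1) * errR (ε / 1000) T q.1 q.2 := by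
      refine le_trans ?_ hk
      have h6 := Complex.abs_re_le_norm (II (T ^ (1 - ε / 100)) u q.1 q.2 -
        ((((q.1 : ℝ) * q.2) ^ (-(1 / 2) : ℝ) *
          mainS q.1 (Real.log (u / (2 * Real.pi)) + Real.log q.1 - Real.log q.2) : ℝ) : ℂ))
      rw [Complex.sub_re, Complex.ofReal_re] at h6
      exact h6
    have hc : |cc P T q| ≤ hh q.1 * ((q.1 : ℝ) * q.2) ^ (-(1 / 2) : ℝ) * M := by
      unfold cc
      rw [abs_mul, abs_of_nonneg (mul_nonneg hh0 hr0)]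
      refine mul_le_mul_of_nonneg_left ?_ (mul_nonneg hh0 hr0)
      have := hM (Real.log q.1 / Real.log T, Real.log q.2 / Real.log T)
      rwa [Real.norm_eq_abs] at this
    calc |cc P T q| * |(II (T ^ (1 - ε / 100)) u q.1 q.2).re - ((q.1 : ℝ) * q.2) ^ (-(1 / 2) : ℝ) *
        mainS q.1 (Real.log (u / (2 * Real.pi)) + Real.log q.1 - Real.log q.2)|
        ≤ |cc P T q| * (C * ((q.1 : ℝ) * q.2) ^ (-(1 / 2) : ℝ) * Real.log T * errS q.1 +
          C * T ^ (9 * (ε / 100) - 1) * errR (ε / 1000) T q.1 q.2) :=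
          mul_le_mul_of_nonneg_left hre (abs_nonneg _)
      _ = |cc P T q| * (C * ((q.1 : ℝ) * q.2) ^ (-(1 / 2) : ℝ) * Real.log T * errS q.1) +
          C * T ^ (9 * (ε / 100) - 1) * (|cc P T q| * errR (ε / 1000) T q.1 q.2) := by ring
      _ ≤ (hh q.1 * ((q.1 : ℝ) * q.2) ^ (-(1 / 2) : ℝ) * M) *
            (C * ((q.1 : ℝ) * q.2) ^ (-(1 / 2) : ℝ) * Real.log T * errS q.1) +
          C * T ^ (9 * (ε / 100) - 1) * (|cc P T q| * errR (ε / 1000) T q.1 q.2) := by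
          refine add_le_add (mul_le_mul_of_nonneg_right hc ?_) le_rfl
          exact mul_nonneg (mul_nonneg (mul_nonneg hC.le hr0) hL0) hS0
      _ = C * M * Real.log T * (hh q.1 * (((q.1 : ℝ) * q.2) ^ (-(1 / 2) : ℝ) *
            ((q.1 : ℝ) * q.2) ^ (-(1 / 2) : ℝ)) * errS q.1) +
          C * T ^ (9 * (ε / 100) - 1) * (|cc P T q| * errR (ε / 1000) T q.1 q.2) := by ring
      _ = C * M * Real.log T * (hh q.1 * ((q.1 : ℝ) * q.2)⁻¹ * errS q.1) +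
          C * T ^ (9 * (ε / 100) - 1) * (|cc P T q| * errR (ε / 1000) T q.1 q.2) := by rw [hrr]
  have hsum : |∑ q ∈ idx T, (cc P T q * (II (T ^ (1 - ε / 100)) u q.1 q.2).re -
      cc P T q * (((q.1 : ℝ) * q.2) ^ (-(1 / 2) : ℝ) *
        mainS q.1 (Real.log (u / (2 * Real.pi)) + Real.log q.1 - Real.log q.2)))| ≤
      C * M * Real.log T * (∑ q ∈ idx T, hh q.1 * ((q.1 : ℝ) * q.2)⁻¹ * errS q.1) +
        C * T ^ (9 * (ε / 100) - 1) * (∑ q ∈ idx T, |cc P T q| * errR (ε / 1000) T q.1 q.2) := by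
    refine (Finset.abs_sum_le_sum_abs _ _).trans ((Finset.sum_le_sum hterm).trans ?_)
    rw [Finset.sum_add_distrib, ← Finset.mul_sum, ← Finset.mul_sum]
  refine hsum.trans ?_
  have hA : C * M * Real.log T * (∑ q ∈ idx T, hh q.1 * ((q.1 : ℝ) * q.2)⁻¹ * errS q.1) ≤
      C * M * CS * Real.log T ^ 6 := by
    calc C * M * Real.log T * (∑ q ∈ idx T, hh q.1 * ((q.1 : ℝ) * q.2)⁻¹ * errS q.1)
        ≤ C * M * Real.log T * (CS * (Real.log T) ^ 5) :=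
          mul_le_mul_of_nonneg_left (hS T hT2) (mul_nonneg (mul_nonneg hC.le hM0) hL0)
      _ = C * M * CS * Real.log T ^ 6 := by ring
  have hB : C * T ^ (9 * (ε / 100) - 1) *
      (∑ q ∈ idx T, |cc P T q| * errR (ε / 1000) T q.1 q.2) ≤ C * CR * Real.log T ^ 6 := by
    have hT1 : 0 ≤ T ^ (9 * (ε / 100) - 1) := Real.rpow_nonneg hTpos.le _
    calc C * T ^ (9 * (ε / 100) - 1) * (∑ q ∈ idx T, |cc P T q| * errR (ε / 1000) T q.1 q.2)
        ≤ C * T ^ (9 * (ε / 100) - 1) * (CR * T ^ (1 - ε / 4)) :=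
          mul_le_mul_of_nonneg_left (hR T hT2) (mul_nonneg hC.le hT1)
      _ = C * CR * (T ^ (9 * (ε / 100) - 1) * T ^ (1 - ε / 4)) := by ring
      _ = C * CR * T ^ (9 * (ε / 100) - 1 + (1 - ε / 4)) := by rw [← Real.rpow_add hTpos]
      _ ≤ C * CR * 1 := by
          refine mul_le_mul_of_nonneg_left ?_ (mul_nonneg hC.le hCR.le)
          exact Real.rpow_le_one_of_one_le_of_nonpos (by linarith) (by linarith)
      _ ≤ C * CR * Real.log T ^ 6 :=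
          mul_le_mul_of_nonneg_left (one_le_pow₀ hL) (mul_nonneg hC.le hCR.le)
  calc C * M * Real.log T * (∑ q ∈ idx T, hh q.1 * ((q.1 : ℝ) * q.2)⁻¹ * errS q.1) +
        C * T ^ (9 * (ε / 100) - 1) * (∑ q ∈ idx T, |cc P T q| * errR (ε / 1000) T q.1 q.2)
      ≤ C * M * CS * Real.log T ^ 6 + C * CR * Real.log T ^ 6 := add_le_add hA hB
    _ = (C * M * CS + C * CR) * Real.log T ^ 6 := by ring

end Pool.Agent.LibSM47
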