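import Pool.Agent.LibSM47.FaceB
import Pool.Agent.LibSM47.H_03a
import Pool.Agent.LibSM47.H_03b
import Pool.Agent.LibSM47.H_06
import Pool.Agent.LibSM47.M_A1d
import Pool.Agent.LibSM47.M_A2d
import Pool.Agent.LibSM47.M_B3
import Pool.Agent.LibSM47.M_B4
import Pool.Agent.LibSM47.M_B5
import Pool.Agent.LibSM47.M_B6

/-! # All inputs of the window theorem -/

set_option autoImplicit false

namespace Pool.Agent.LibSM47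

open MeasureTheory Set Filter Topology Complex ProbabilityTheory
open scoped NNReal ComplexConjugate

/-- F2. -/
theorem S1_limit (P : ℝ × ℝ → ℝ) (ε : ℝ) (hε : 0 < ε) (hP : Adm ε P) :
    Tendsto (fun T : ℝ => (∑ q ∈ idx T, cc P T q ^ 2) / (Real.log T) ^ 5) atTop (𝓝 (LibZM.Aconst 3 * J1 P)) :=
  EH.S1_limit' P ε hε hP

/-- F3, uniform in the centre `u`. -/
theorem S2_limit (P : ℝ × ℝ → ℝ) (ε ε₁ : ℝ) (hε : 0 < ε) (hε1 : 0 < ε₁) (hP : Adm ε P) (θ : ℝ) (hθ : 0 < θ) :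
    ∃ T₀ : ℝ, ∀ T : ℝ, T₀ ≤ T → ∀ u : ℝ, ε₁ * T ≤ u → u ≤ T →
      |(∑ q ∈ idx T, cc P T q * (((q.1 : ℝ) * q.2) ^ (-(1 / 2) : ℝ) *
          mainS q.1 (Real.log (u / (2 * Real.pi)) + Real.log q.1 - Real.log q.2)))
        - LibZM.Aconst 3 * J2 P * (Real.log T) ^ 7| ≤ θ * (Real.log T) ^ 7 :=
  EH.S2_limit' P ε ε₁ hε hε1 hP θ hθ

/-- F5, F6: choice of `P` and exact value. -/
theorem J_final (θ : ℝ) (hθ : 0 < θ) : ∃ ε : ℝ, 0 < ε ∧ ε ≤ 1 / 10 ∧ ∃ P : ℝ × ℝ → ℝ, Adm ε P ∧ J1 P ≤ J2 P ∧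
    11422475801 / 241920000000000 - θ ≤ J2 P :=
  EH.J_final' θ hθ

/-- The cross term. -/
theorem D_cross (P : ℝ × ℝ → ℝ) (ε ε₁ δ : ℝ) (hε : 0 < ε) (hε1 : 0 < ε₁) (hδ : 0 < δ) (hδ1 : δ ≤ ε / 10) (hε' : ε ≤ 1 / 10)
    (hP : Adm ε P) :
    ∃ T₀ : ℝ, ∀ T : ℝ, T₀ ≤ T → ∀ u : ℝ, ε₁ * T ≤ u → u ≤ T →
      ‖∫ t, XX t * DD P T t ^ 2 ∂(gam (T ^ (1 - δ)) u)‖ ≤ 1 :=
  D_cross' P ε ε₁ δ hε hε1 hδ hδ1 hε' hP (cross_small ε ε₁ δ hε hε1 hδ hδ1 hε')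

/-- The main sum. -/
theorem II_sum (P : ℝ × ℝ → ℝ) (ε ε₁ : ℝ) (hε : 0 < ε) (hε1 : 0 < ε₁) (hε' : ε ≤ 1 / 10) (hP : Adm ε P) :
    ∃ C T₀ : ℝ, ∀ T : ℝ, T₀ ≤ T → ∀ u : ℝ, ε₁ * T ≤ u → u ≤ T →
      |(∑ q ∈ idx T, cc P T q * (II (T ^ (1 - ε / 100)) u q.1 q.2).re)
        - (∑ q ∈ idx T, cc P T q * (((q.1 : ℝ) * q.2) ^ (-(1 / 2) : ℝ) *
          mainS q.1 (Real.log (u / (2 * Real.pi)) + Real.log q.1 - Real.log q.2)))| ≤ C * (Real.log T) ^ 6 :=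
  II_sum' P ε ε₁ hε hε1 hε' hP errS_sum (errR_sum P ε hε hε' hP pw_sum)

end Pool.Agent.LibSM47
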