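import Pool.Agent.LibSM47.Defs

/-! ROW H_01: the sum over triples `(d, e, n)` as a sum over coprime pairs `(m, n)`, `m = de`. -/

set_option autoImplicit false

namespace Pool.Agent.LibSM47.EH

/-- the triple of a pair and a divisor -/
private def H_01_phi (x : (_ : ℕ × ℕ) × ℕ) : ℕ+ × ℕ+ × ℕ+ :=
  (x.2.toPNat', (x.1.1 / x.2).toPNat', x.1.2.toPNat')

private theorem H_01_coe {n : ℕ} (h : 1 ≤ n) : ((n.toPNat' : ℕ+) : ℕ) = n := by
  rw [Nat.toPNat'_coe, if_pos (by omega)]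

private theorem H_01_idx {T : ℝ} (hT : 1 < T) {p : ℕ × ℕ} :
    p ∈ idx T ↔ 1 ≤ p.1 ∧ (p.1 : ℝ) ≤ T ∧ 1 ≤ p.2 ∧ (p.2 : ℝ) ≤ T ∧ Nat.Coprime p.1 p.2 := by
  unfold idx
  rw [Finset.mem_filter, Finset.mem_product, Finset.mem_Icc, Finset.mem_Icc,
    Nat.le_floor_iff (by linarith), Nat.le_floor_iff (by linarith)]
  tauto

/-- For `T > 1` only finitely many terms are not zero: `G ≠ 0` forces `de ≤ T`, `n ≤ T`. `(d, e, n) ↦ ((de, n), d)` is a bijection onto
the pairs `((m, n), d)`, `d ∣ m`, and `φ(d)/(d² e n) = (1/(mn)) (φ(d)/d)`, `log e = log m - log d`. -/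
theorem reindex (T : ℝ) (hT : 1 < T) (G : ℝ × ℝ × ℝ → ℝ)
    (hG : ∀ z z' y : ℝ, 0 ≤ z → 0 ≤ z' → 0 ≤ y → G (z, z', y) ≠ 0 → z + z' ≤ 1 ∧ y ≤ 1) :
    ∑' q : ℕ+ × ℕ+ × ℕ+,
        (if Nat.Coprime ((q.1 : ℕ) * q.2.1) q.2.2 then
          hh (q.1 * q.2.1) * (Nat.totient q.1 : ℝ) / ((q.1 : ℝ) ^ 2 * q.2.1 * q.2.2) *
            G (Real.log q.1 / Real.log T, Real.log q.2.1 / Real.log T, Real.log q.2.2 / Real.log T) else 0) =
      ∑ p ∈ idx T, hh p.1 / ((p.1 : ℝ) * p.2) * ∑ d ∈ p.1.divisors, (Nat.totient d : ℝ) / d *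
        G (Real.log d / Real.log T, (Real.log p.1 - Real.log d) / Real.log T, Real.log p.2 / Real.log T) := by
  classical
  have hL : 0 < Real.log T := Real.log_pos hT
  have hT0 : 0 < T := by linarith
  set S : Finset ((_ : ℕ × ℕ) × ℕ) := (idx T).sigma fun p => p.1.divisors with hS
  -- the terms outside of the image are zero
  rw [tsum_eq_sum (s := S.image H_01_phi) (fun q hq => ?_)]
  · rw [Finset.sum_image (fun x hx y hy hxy => ?_)]
    · rw [hS, Finset.sum_sigma]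
      refine Finset.sum_congr rfl fun p hp => ?_
      rw [Finset.mul_sum]
      refine Finset.sum_congr rfl fun d hd => ?_
      obtain ⟨hp1, -, hp2, -, hpc⟩ := (H_01_idx hT).1 hp
      obtain ⟨hd1, -⟩ := Nat.mem_divisors.1 hd
      have hd0 : 1 ≤ d := Nat.pos_of_mem_divisors hd
      have he0 : 1 ≤ p.1 / d := Nat.div_pos (Nat.le_of_dvd (by omega) hd1) (by omega)
      have hde : d * (p.1 / d) = p.1 := Nat.mul_div_cancel' hd1
      have c1 : (((H_01_phi ⟨p, d⟩).1 : ℕ+) : ℕ) = d := H_01_coe hd0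
      have c2 : (((H_01_phi ⟨p, d⟩).2.1 : ℕ+) : ℕ) = p.1 / d := H_01_coe he0
      have c3 : (((H_01_phi ⟨p, d⟩).2.2 : ℕ+) : ℕ) = p.2 := H_01_coe hp2
      rw [c1, c2, c3, hde, if_pos hpc]
      have hdR : (0 : ℝ) < d := by exact_mod_cast hd0
      have heR : (0 : ℝ) < ((p.1 / d : ℕ) : ℝ) := by exact_mod_cast he0
      have hnR : (0 : ℝ) < p.2 := by exact_mod_cast hp2
      have hdeR : (d : ℝ) * ((p.1 / d : ℕ) : ℝ) = p.1 := by exact_mod_cast hde
      have hlog : Real.log ((p.1 / d : ℕ) : ℝ) = Real.log p.1 - Real.log d := by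
        rw [← hdeR, Real.log_mul hdR.ne' heR.ne']
        ring
      rw [hlog, ← hdeR]
      field_simp
    · -- injectivity
      obtain ⟨⟨m, n⟩, d⟩ := x
      obtain ⟨⟨m', n'⟩, d'⟩ := y
      rw [hS, Finset.mem_coe, Finset.mem_sigma] at hx hy
      obtain ⟨hx1, hx2⟩ := hx
      obtain ⟨hy1, hy2⟩ := hy
      obtain ⟨hm, -, hn, -, -⟩ := (H_01_idx hT).1 hx1
      obtain ⟨hm', -, hn', -, -⟩ := (H_01_idx hT).1 hy1
      have hd1 := (Nat.mem_divisors.1 hx2).1
      have hd1' := (Nat.mem_divisors.1 hy2).1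
      have hd0 : 1 ≤ d := Nat.pos_of_mem_divisors hx2
      have hd0' : 1 ≤ d' := Nat.pos_of_mem_divisors hy2
      simp only at hm hn hm' hn' hd1 hd1'
      have he0 : 1 ≤ m / d := Nat.div_pos (Nat.le_of_dvd (by omega) hd1) (by omega)
      have he0' : 1 ≤ m' / d' := Nat.div_pos (Nat.le_of_dvd (by omega) hd1') (by omega)
      have k1 := congrArg (fun q : ℕ+ × ℕ+ × ℕ+ => (q.1 : ℕ)) hxy
      have k2 := congrArg (fun q : ℕ+ × ℕ+ × ℕ+ => (q.2.1 : ℕ)) hxy
      have k3 := congrArg (fun q : ℕ+ × ℕ+ × ℕ+ => (q.2.2 : ℕ)) hxy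
      simp only [H_01_phi] at k1 k2 k3
      rw [H_01_coe hd0, H_01_coe hd0'] at k1
      rw [H_01_coe he0, H_01_coe he0'] at k2
      rw [H_01_coe hn, H_01_coe hn'] at k3
      subst k1
      subst k3
      have k4 : m = m' := by
        rw [← Nat.mul_div_cancel' hd1, ← Nat.mul_div_cancel' hd1', k2]
      subst k4
      rfl
  · -- zero outside
    obtain ⟨d, e, n⟩ := q
    by_contra hne
    simp only [ite_eq_right_iff, Classical.not_imp] at hne
    obtain ⟨hc, hne⟩ := hne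
    have hG0 := right_ne_zero_of_mul hne
    have hdR : (1 : ℝ) ≤ (d : ℕ) := by exact_mod_cast d.pos
    have heR : (1 : ℝ) ≤ (e : ℕ) := by exact_mod_cast e.pos
    have hnR : (1 : ℝ) ≤ (n : ℕ) := by exact_mod_cast n.pos
    obtain ⟨g1, g2⟩ := hG _ _ _ (div_nonneg (Real.log_nonneg hdR) hL.le)
      (div_nonneg (Real.log_nonneg heR) hL.le) (div_nonneg (Real.log_nonneg hnR) hL.le) hG0
    rw [← add_div, div_le_one hL, ← Real.log_mul (by positivity) (by positivity),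
      Real.log_le_log_iff (by positivity) hT0] at g1
    rw [div_le_one hL, Real.log_le_log_iff (by positivity) hT0] at g2
    apply hq
    rw [Finset.mem_image]
    refine ⟨⟨((d : ℕ) * e, n), d⟩, ?_, ?_⟩
    · rw [hS, Finset.mem_sigma]
      constructor
      · rw [H_01_idx hT]
        refine ⟨Nat.mul_pos d.pos e.pos, ?_, n.pos, g2, hc⟩
        push_cast
        exact g1
      · rw [Nat.mem_divisors]
        exact ⟨dvd_mul_right _ _, (Nat.mul_pos d.pos e.pos).ne'⟩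
    · unfold H_01_phi
      simp only
      have h1 : ((d : ℕ) * e) / d = e := Nat.mul_div_cancel_left _ d.pos
      rw [h1]
      refine Prod.ext ?_ (Prod.ext ?_ ?_)
      · exact PNat.coe_injective (H_01_coe d.pos)
      · exact PNat.coe_injective (H_01_coe e.pos)
      · exact PNat.coe_injective (H_01_coe n.pos)

end Pool.Agent.LibSM47.EH
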