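import Pool.Agent.LibSM47.H_01
import Pool.Agent.LibSM47.FaceA

/-! ROW H_02: the weak limit for admissible test functions. -/

set_option autoImplicit false

namespace Pool.Agent.LibSM47.EH

open MeasureTheory Set Filter Topology
open Pool.Agent

/-- the test function on the whole space -/
noncomputable def F_02_g (P : ℝ × ℝ → ℝ) (R : ℝ × ℝ × ℝ → ℝ) (x : ℝ × ℝ × ℝ) : ℝ := P (|x.1| + |x.2.1|, x.2.2) * R x

theorem F_02_cont (P : ℝ × ℝ → ℝ) (R : ℝ × ℝ × ℝ → ℝ) (hP : Continuous P) (hR : Continuous R) :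
    Continuous (F_02_g P R) := by
  unfold F_02_g
  refine (hP.comp ?_).mul hR
  fun_prop

theorem F_02_supp (P : ℝ × ℝ → ℝ) (R : ℝ × ℝ × ℝ → ℝ) (hP : HasCompactSupport P) :
    HasCompactSupport (F_02_g P R) := by
  obtain ⟨r, hr⟩ := hP.isCompact.isBounded.subset_closedBall (0 : ℝ × ℝ)
  refine HasCompactSupport.intro (isCompact_closedBall (0 : ℝ × ℝ × ℝ) r) fun x hx => ?_
  unfold F_02_g
  by_cases h0 : P (|x.1| + |x.2.1|, x.2.2) = 0
  · rw [h0, zero_mul]
  · exfalso
    apply hx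
    have h1 : (|x.1| + |x.2.1|, x.2.2) ∈ tsupport P := subset_tsupport P h0
    have h2 := hr h1
    rw [mem_closedBall_zero_iff, Prod.norm_def, max_le_iff] at h2
    obtain ⟨h3, h4⟩ := h2
    rw [Real.norm_eq_abs] at h3 h4
    have h5 := le_trans (le_abs_self _) h3
    have h6 := abs_nonneg x.1
    have h7 := abs_nonneg x.2.1
    rw [mem_closedBall_zero_iff, Prod.norm_def, Prod.norm_def, max_le_iff, max_le_iff]
    simp only [Real.norm_eq_abs]
    simp only at h4 h5
    exact ⟨by linarith, by linarith, h4⟩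

theorem F_02_bd (P : ℝ × ℝ → ℝ) (R : ℝ × ℝ × ℝ → ℝ) (ε : ℝ) (hε : 0 < ε) (hP : Adm ε P) (z z' y : ℝ)
    (hz : 0 ≤ z) (hz' : 0 ≤ z') (hy : 0 ≤ y) (h : F_02_g P R (z, z', y) ≠ 0) : z + z' ≤ 1 ∧ y ≤ 1 := by
  unfold F_02_g at h
  have h1 : P (|z| + |z'|, y) ≠ 0 := fun h0 => h (by simp only; rw [h0, zero_mul])
  rw [abs_of_nonneg hz, abs_of_nonneg hz'] at h1
  obtain ⟨h2, h3⟩ := hP.2.2 (z + z') y (by positivity) hy h1
  exact ⟨by linarith, by linarith⟩

theorem F_02_sum (P : ℝ × ℝ → ℝ) (R : ℝ × ℝ × ℝ → ℝ) (T : ℝ) (hT : 1 < T) (p : ℕ × ℕ) (hp : p ∈ idx T) (d : ℕ)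
    (hd : d ∈ p.1.divisors) :
    F_02_g P R (Real.log d / Real.log T, (Real.log p.1 - Real.log d) / Real.log T, Real.log p.2 / Real.log T) =
      P (Real.log p.1 / Real.log T, Real.log p.2 / Real.log T) *
          R (Real.log d / Real.log T, (Real.log p.1 - Real.log d) / Real.log T, Real.log p.2 / Real.log T) := by
  have hL : 0 < Real.log T := Real.log_pos hT
  have hp1 : 1 ≤ p.1 := by
    unfold idx at hp
    exact (Finset.mem_Icc.1 (Finset.mem_product.1 (Finset.mem_filter.1 hp).1).1).1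
  have hd1 : 1 ≤ d := Nat.pos_of_mem_divisors hd
  have hdp : d ≤ p.1 := Nat.le_of_dvd (by omega) (Nat.dvd_of_mem_divisors hd)
  have h1 : 0 ≤ Real.log d := Real.log_nonneg (by exact_mod_cast hd1)
  have h2 : Real.log d ≤ Real.log p.1 :=
    Real.log_le_log (by exact_mod_cast hd1) (by exact_mod_cast hdp)
  unfold F_02_g
  simp only
  rw [abs_of_nonneg (div_nonneg h1 hL.le), abs_of_nonneg (div_nonneg (sub_nonneg.2 h2) hL.le)]
  have h3 : Real.log d / Real.log T + (Real.log p.1 - Real.log d) / Real.log T = Real.log p.1 / Real.log T := by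
    rw [← add_div]
    congr 1
    ring
  rw [h3]

/-- `F_limit` with `g x = P (|x.1| + |x.2.1|, x.2.2) * R x` (compact support) and `L = log T`, `reindex`; on the octant and for the
terms of the sum the absolute values can be dropped; `log d / L + (log m - log d) / L = log m / L`. -/
theorem weak (P : ℝ × ℝ → ℝ) (ε : ℝ) (hε : 0 < ε) (hP : Adm ε P) (R : ℝ × ℝ × ℝ → ℝ) (hR : Continuous R) :
    Tendsto (fun T : ℝ => (∑ p ∈ idx T, hh p.1 / ((p.1 : ℝ) * p.2) * ∑ d ∈ p.1.divisors, (Nat.totient d : ℝ) / d *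
        (P (Real.log p.1 / Real.log T, Real.log p.2 / Real.log T) *
          R (Real.log d / Real.log T, (Real.log p.1 - Real.log d) / Real.log T, Real.log p.2 / Real.log T))) /
        (Real.log T) ^ 5) atTop
      (𝓝 (LibZM.Aconst 3 * ∫ x in Oct, P (x.1 + x.2.1, x.2.2) * R x * (x.1 * x.2.1))) := by
  have hlim := (F_limit (F_02_g P R) (F_02_cont P R hP.1 hR) (F_02_supp P R hP.2.1)).comp Real.tendsto_log_atTop
  have hint : ∫ x in Oct, F_02_g P R x * (x.1 * x.2.1) =
      ∫ x in Oct, P (x.1 + x.2.1, x.2.2) * R x * (x.1 * x.2.1) := by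
    refine setIntegral_congr_fun ?_ fun x hx => ?_
    · exact measurableSet_Ioi.prod (measurableSet_Ioi.prod measurableSet_Ioi)
    · obtain ⟨h1, h2, _⟩ := hx
      have h1' : 0 < x.1 := h1
      have h2' : 0 < x.2.1 := h2
      unfold F_02_g
      rw [abs_of_pos h1', abs_of_pos h2']
  rw [hint] at hlim
  refine hlim.congr' ?_
  filter_upwards [eventually_gt_atTop (1 : ℝ)] with T hT
  simp only [Function.comp_apply]
  rw [reindex T hT (F_02_g P R) (F_02_bd P R ε hε hP), div_eq_inv_mul]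
  congr 1
  refine Finset.sum_congr rfl fun p hp => ?_
  congr 1
  refine Finset.sum_congr rfl fun d hd => ?_
  rw [F_02_sum P R T hT p hp d hd]

end Pool.Agent.LibSM47.EH
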