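import Pool.Agent.LibSM47.Defs

/-! ROW H_04a: the integrals `J1`, `J2` in two variables. -/

set_option autoImplicit false

namespace Pool.Agent.LibSM47.EH

open MeasureTheory Set Filter Topology

/-- The function `F`. -/
noncomputable def FF (p : ℝ × ℝ) : ℝ := ((1 - p.2) ^ 2 - p.1 * (1 - p.2) + p.1 ^ 2 / 10) / 2

/-- the map `((x, y), t) ↦ (x - t, t, y)` -/
def H_04a_e : ((ℝ × ℝ) × ℝ) ≃ᵐ (ℝ × ℝ × ℝ) where
  toFun w := (w.1.1 - w.2, w.2, w.1.2)
  invFun v := ((v.1 + v.2.1, v.2.2), v.2.1)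
  left_inv w := by simp
  right_inv v := by simp
  measurable_toFun := by
    show Measurable fun w : (ℝ × ℝ) × ℝ => (w.1.1 - w.2, w.2, w.1.2)
    fun_prop
  measurable_invFun := by
    show Measurable fun v : ℝ × ℝ × ℝ => ((v.1 + v.2.1, v.2.2), v.2.1)
    fun_prop

theorem H_04a_mp : MeasurePreserving H_04a_e (volume : Measure ((ℝ × ℝ) × ℝ))
    (volume : Measure (ℝ × ℝ × ℝ)) := by
  have h1 : MeasurePreserving (MeasurableEquiv.prodAssoc : (ℝ × ℝ) × ℝ ≃ᵐ ℝ × ℝ × ℝ)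
      volume volume := volume_preserving_prodAssoc
  have h2 : MeasurePreserving (Prod.map (id : ℝ → ℝ) (Prod.swap : ℝ × ℝ → ℝ × ℝ))
      (volume : Measure (ℝ × ℝ × ℝ)) (volume : Measure (ℝ × ℝ × ℝ)) :=
    (MeasurePreserving.id (volume : Measure ℝ)).prod
      (Measure.measurePreserving_swap (μ := (volume : Measure ℝ)) (ν := (volume : Measure ℝ)))
  have h3 : MeasurePreserving (Prod.swap : ℝ × (ℝ × ℝ) → (ℝ × ℝ) × ℝ)
      (volume : Measure (ℝ × ℝ × ℝ)) (volume : Measure ((ℝ × ℝ) × ℝ)) :=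
    Measure.measurePreserving_swap (μ := (volume : Measure ℝ)) (ν := (volume : Measure (ℝ × ℝ)))
  have h4 : MeasurePreserving (fun p : (ℝ × ℝ) × ℝ => (p.1, p.2 - p.1.1))
      (volume : Measure ((ℝ × ℝ) × ℝ)) (volume : Measure ((ℝ × ℝ) × ℝ)) := by
    refine (MeasurePreserving.id (volume : Measure (ℝ × ℝ))).skew_product
      (g := fun (q : ℝ × ℝ) (x : ℝ) => x - q.1) ?_ ?_
    · show Measurable fun p : (ℝ × ℝ) × ℝ => p.2 - p.1.1
      fun_prop
    · refine Filter.Eventually.of_forall fun q => ?_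
      exact (measurePreserving_sub_right (volume : Measure ℝ) q.1).map_eq
  have h5 : MeasurePreserving (Prod.swap : (ℝ × ℝ) × ℝ → ℝ × (ℝ × ℝ))
      (volume : Measure ((ℝ × ℝ) × ℝ)) (volume : Measure (ℝ × ℝ × ℝ)) :=
    Measure.measurePreserving_swap (μ := (volume : Measure (ℝ × ℝ))) (ν := (volume : Measure ℝ))
  exact h5.comp (h4.comp (h3.comp (h2.comp h1)))

/-- The map `(z, z', y) ↦ (z + z', z', y)` preserves the volume and maps the octant onto `0 < t < x`, `0 < y`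
(`MeasureTheory.measurePreserving_add_prod`-like shear, or Fubini and a shift in the first variable). -/
theorem shear (g : ℝ × ℝ × ℝ → ℝ) (hg : IntegrableOn (fun x : ℝ × ℝ × ℝ => g (x.1 + x.2.1, x.2.1, x.2.2)) Oct) :
    ∫ x in Oct, g (x.1 + x.2.1, x.2.1, x.2.2) =
      ∫ p in (Ioi (0 : ℝ)) ×ˢ (Ioi (0 : ℝ)), ∫ t in (0 : ℝ)..p.1, g (p.1, t, p.2) := by
  have hmo : MeasurableSet (H_04a_e ⁻¹' Oct) :=
    H_04a_e.measurable ((measurableSet_Ioi).prod ((measurableSet_Ioi).prod measurableSet_Ioi))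
  have hs := H_04a_mp.setIntegral_preimage_emb H_04a_e.measurableEmbedding
    (fun x : ℝ × ℝ × ℝ => g (x.1 + x.2.1, x.2.1, x.2.2)) Oct
  have hi := (H_04a_mp.integrableOn_comp_preimage H_04a_e.measurableEmbedding
    (f := fun x : ℝ × ℝ × ℝ => g (x.1 + x.2.1, x.2.1, x.2.2)) (s := Oct)).2 hg
  have hF : ∀ w : (ℝ × ℝ) × ℝ, (fun x : ℝ × ℝ × ℝ => g (x.1 + x.2.1, x.2.1, x.2.2)) (H_04a_e w) =
      g (w.1.1, w.2, w.1.2) := by
    intro w
    show g (w.1.1 - w.2 + w.2, w.2, w.1.2) = _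
    rw [sub_add_cancel]
  have hmem : ∀ w : (ℝ × ℝ) × ℝ, w ∈ H_04a_e ⁻¹' Oct ↔ w.2 < w.1.1 ∧ 0 < w.2 ∧ 0 < w.1.2 := by
    intro w
    show (0 < w.1.1 - w.2 ∧ 0 < w.2 ∧ 0 < w.1.2) ↔ _
    rw [sub_pos]
  rw [← hs]
  simp only [hF] at hi ⊢
  have hi' : IntegrableOn (fun w : (ℝ × ℝ) × ℝ => g (w.1.1, w.2, w.1.2)) (H_04a_e ⁻¹' Oct) volume := by
    refine hi.congr_fun (fun w _ => ?_) hmo
    exact hF w
  rw [← integral_indicator hmo, ← integral_indicator (measurableSet_Ioi.prod measurableSet_Ioi)]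
  have hi2 : Integrable ((H_04a_e ⁻¹' Oct).indicator
      (fun w : (ℝ × ℝ) × ℝ => g (w.1.1, w.2, w.1.2))) (volume.prod volume) :=
    (integrable_indicator_iff hmo).2 hi'
  have key : ∫ w, (H_04a_e ⁻¹' Oct).indicator (fun w : (ℝ × ℝ) × ℝ => g (w.1.1, w.2, w.1.2)) w =
      ∫ p : ℝ × ℝ, ∫ t : ℝ, (H_04a_e ⁻¹' Oct).indicator
        (fun w : (ℝ × ℝ) × ℝ => g (w.1.1, w.2, w.1.2)) (p, t) :=
    integral_prod _ hi2
  rw [key]
  congr 1
  funext p
  by_cases hp : p ∈ (Ioi (0 : ℝ)) ×ˢ (Ioi (0 : ℝ))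
  · rw [indicator_of_mem hp]
    have hp1 : 0 < p.1 := hp.1
    have hp2 : 0 < p.2 := hp.2
    have h6 : ∀ t : ℝ, (H_04a_e ⁻¹' Oct).indicator
        (fun w : (ℝ × ℝ) × ℝ => g (w.1.1, w.2, w.1.2)) (p, t) =
        (Ioo (0 : ℝ) p.1).indicator (fun t => g (p.1, t, p.2)) t := by
      intro t
      by_cases ht : t ∈ Ioo (0 : ℝ) p.1
      · rw [indicator_of_mem ht, indicator_of_mem]
        exact (hmem (p, t)).2 ⟨ht.2, ht.1, hp2⟩
      · rw [indicator_of_notMem ht, indicator_of_notMem]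
        intro h
        have h7 := (hmem (p, t)).1 h
        exact ht ⟨h7.2.1, h7.1⟩
    simp only [h6]
    rw [integral_indicator measurableSet_Ioo, intervalIntegral.integral_of_le hp1.le,
      integral_Ioc_eq_integral_Ioo]
  · rw [indicator_of_notMem hp]
    have h6 : ∀ t : ℝ, (H_04a_e ⁻¹' Oct).indicator
        (fun w : (ℝ × ℝ) × ℝ => g (w.1.1, w.2, w.1.2)) (p, t) = 0 := by
      intro t
      rw [indicator_of_notMem]
      intro h
      have h7 := (hmem (p, t)).1 h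
      exact hp ⟨h7.2.1.trans h7.1, h7.2.2⟩
    simp only [h6]
    exact integral_zero _ _

end Pool.Agent.LibSM47.EH
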