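import Pool.Agent.LibSM47.H_04a

/-! ROW H_04b: the integrals `J1`, `J2` in two variables. -/

set_option autoImplicit false

namespace Pool.Agent.LibSM47.EH

open MeasureTheory Set Filter Topology

private theorem F_04b_poly (L : List ℝ) (n : ℕ) (a b : ℝ) :
    ∫ x in a..b, ∑ i ∈ Finset.range n, L.getD i 0 * x ^ i =
      ∑ i ∈ Finset.range n, L.getD i 0 * ((b ^ (i + 1) - a ^ (i + 1)) / ((i : ℝ) + 1)) := by
  rw [intervalIntegral.integral_finsetSum]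
  · refine Finset.sum_congr rfl fun i _ => ?_
    rw [intervalIntegral.integral_const_mul, integral_pow]
  · intro i _
    exact Continuous.intervalIntegrable (by fun_prop) _ _

private theorem F_04b_oct : MeasurableSet Oct :=
  measurableSet_Ioi.prod (measurableSet_Ioi.prod measurableSet_Ioi)

/-- integrability on the octant of continuous functions with `x ≤ R`, `y ≤ R` on the support -/
private theorem F_04b_int (P : ℝ × ℝ → ℝ) (hc : HasCompactSupport P)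
    (f : ℝ × ℝ × ℝ → ℝ) (hf : Continuous f)
    (h0 : ∀ x : ℝ × ℝ × ℝ, P (x.1 + x.2.1, x.2.2) = 0 → f x = 0) : IntegrableOn f Oct := by
  obtain ⟨R, hR⟩ : ∃ R : ℝ, ∀ p : ℝ × ℝ, P p ≠ 0 → p.1 ≤ R ∧ p.2 ≤ R := by
    obtain ⟨R, hR⟩ := hc.isCompact.isBounded.subset_closedBall (0 : ℝ × ℝ)
    refine ⟨R, fun p hp => ?_⟩
    have h1 : p ∈ Metric.closedBall (0 : ℝ × ℝ) R := hR (subset_tsupport P hp)
    rw [mem_closedBall_zero_iff, Prod.norm_def] at h1
    have h2 := (le_max_left _ _).trans h1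
    have h3 := (le_max_right _ _).trans h1
    rw [Real.norm_eq_abs] at h2 h3
    exact ⟨(le_abs_self _).trans h2, (le_abs_self _).trans h3⟩
  have hK : IsCompact ((Icc (0 : ℝ) R) ×ˢ (Icc (0 : ℝ) R) ×ˢ (Icc (0 : ℝ) R)) :=
    isCompact_Icc.prod (isCompact_Icc.prod isCompact_Icc)
  have h1 : IntegrableOn f ((Icc (0 : ℝ) R) ×ˢ (Icc (0 : ℝ) R) ×ˢ (Icc (0 : ℝ) R)) :=
    hf.continuousOn.integrableOn_compact hK
  refine h1.of_forall_sdiff_eq_zero F_04b_oct ?_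
  rintro ⟨a, b, c⟩ ⟨⟨ha, hb, hc'⟩, hx⟩
  apply h0
  by_contra hne
  obtain ⟨h2, h3⟩ := hR _ hne
  simp only [mem_Ioi] at ha hb hc'
  simp only at h2 h3
  apply hx
  refine ⟨⟨ha.le, by linarith⟩, ⟨hb.le, by linarith⟩, ⟨hc'.le, h3⟩⟩

/-- `∫_0^x (x-t) t dt = x³/6`. -/
theorem J1_eq (P : ℝ × ℝ → ℝ) (hP : Continuous P) (hc : HasCompactSupport P) :
    J1 P = ∫ p in (Ioi (0 : ℝ)) ×ˢ (Ioi (0 : ℝ)), P p ^ 2 * (p.1 ^ 3 / 6) := by
  have h1 := shear (fun q => P (q.1, q.2.2) ^ 2 * ((q.1 - q.2.1) * q.2.1))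
    (F_04b_int P hc _ (by fun_prop) (by
      intro x hx
      simp only
      rw [hx]
      ring))
  have h2 : J1 P = ∫ x in Oct, P (x.1 + x.2.1, x.2.2) ^ 2 * ((x.1 + x.2.1 - x.2.1) * x.2.1) := by
    rw [J1]
    refine setIntegral_congr_fun F_04b_oct fun x _ => ?_
    ring
  rw [h2]
  rw [h1]
  refine setIntegral_congr_fun (measurableSet_Ioi.prod measurableSet_Ioi) fun p _ => ?_
  simp only
  have h3 : (fun t : ℝ => P (p.1, p.2) ^ 2 * ((p.1 - t) * t)) = fun t : ℝ =>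
      ∑ i ∈ Finset.range 3, ([0, P (p.1, p.2) ^ 2 * p.1, - P (p.1, p.2) ^ 2] : List ℝ).getD i 0 *
        t ^ i := by
    funext t
    simp only [Finset.sum_range_succ, Finset.sum_range_zero, List.getD_cons_succ,
      List.getD_cons_zero]
    ring
  rw [h3, F_04b_poly]
  simp only [Finset.sum_range_succ, Finset.sum_range_zero, List.getD_cons_succ,
      List.getD_cons_zero]
  push_cast
  ring

/-- `∫_0^x (1/2)(3w² - 3(w+t)² + (w+x)²)(x-t) t dt = (x³/6) F(x,y)`, `w = 1 - y`. -/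
theorem J2_eq (P : ℝ × ℝ → ℝ) (hP : Continuous P) (hc : HasCompactSupport P) :
    J2 P = ∫ p in (Ioi (0 : ℝ)) ×ˢ (Ioi (0 : ℝ)), P p * FF p * (p.1 ^ 3 / 6) := by
  have h1 := shear (fun q => P (q.1, q.2.2) * ((1 / 2) * (3 * (1 - q.2.2) ^ 2 -
      3 * (1 - q.2.2 + q.2.1) ^ 2 + (1 + q.1 - q.2.2) ^ 2)) * ((q.1 - q.2.1) * q.2.1))
    (F_04b_int P hc _ (by fun_prop) (by
      intro x hx
      simp only
      rw [hx]
      ring))
  have h2 : J2 P = ∫ x in Oct, P (x.1 + x.2.1, x.2.2) * ((1 / 2) * (3 * (1 - x.2.2) ^ 2 -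
      3 * (1 - x.2.2 + x.2.1) ^ 2 + (1 + (x.1 + x.2.1) - x.2.2) ^ 2)) *
      ((x.1 + x.2.1 - x.2.1) * x.2.1) := by
    rw [J2]
    refine setIntegral_congr_fun F_04b_oct fun x _ => ?_
    simp only [QQ]
    ring
  rw [h2]
  rw [h1]
  refine setIntegral_congr_fun (measurableSet_Ioi.prod measurableSet_Ioi) fun p _ => ?_
  simp only
  have h3 : (fun t : ℝ => P (p.1, p.2) * ((1 / 2) * (3 * (1 - p.2) ^ 2 -
      3 * (1 - p.2 + t) ^ 2 + (1 + p.1 - p.2) ^ 2)) * ((p.1 - t) * t)) = fun t : ℝ =>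
      ∑ i ∈ Finset.range 5, ([0,
        P (p.1, p.2) * (1 / 2) * (((1 - p.2) ^ 2 + 2 * (1 - p.2) * p.1 + p.1 ^ 2) * p.1),
        P (p.1, p.2) * (1 / 2) * (-6 * (1 - p.2) * p.1 -
          ((1 - p.2) ^ 2 + 2 * (1 - p.2) * p.1 + p.1 ^ 2)),
        P (p.1, p.2) * (1 / 2) * (6 * (1 - p.2) - 3 * p.1),
        P (p.1, p.2) * (1 / 2) * 3] : List ℝ).getD i 0 * t ^ i := by
    funext t
    simp only [Finset.sum_range_succ, Finset.sum_range_zero, List.getD_cons_succ,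
      List.getD_cons_zero]
    ring
  rw [h3, F_04b_poly]
  simp only [Finset.sum_range_succ, Finset.sum_range_zero, List.getD_cons_succ,
      List.getD_cons_zero, FF]
  push_cast
  ring

end Pool.Agent.LibSM47.EH
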