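import Pool.Agent.LibSM47.H_04a

/-! ROW H_05a: exact value of the double integral. -/

set_option autoImplicit false

namespace Pool.Agent.LibSM47.EH

open MeasureTheory Set Filter Topology

private theorem F_05a_poly (L : List ℝ) (n : ℕ) (a b : ℝ) :
    ∫ x in a..b, ∑ i ∈ Finset.range n, L.getD i 0 * x ^ i =
      ∑ i ∈ Finset.range n, L.getD i 0 * ((b ^ (i + 1) - a ^ (i + 1)) / ((i : ℝ) + 1)) := by
  rw [intervalIntegral.integral_finsetSum]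
  · refine Finset.sum_congr rfl fun i _ => ?_
    rw [intervalIntegral.integral_const_mul, integral_pow]
  · intro i _
    exact Continuous.intervalIntegrable (by fun_prop) _ _

/-- Inner integral: with `w = 1 - y`, `∫_0^b FF² x³/6 dx = (1/24)(w⁴b⁴/4 - 2w³b⁵/5 + w²b⁶/5 - w b⁷/35 + b⁸/800)`. -/
theorem inner_int (y b : ℝ) : ∫ x in (0 : ℝ)..b, FF (x, y) ^ 2 * (x ^ 3 / 6) =
    (1 / 24) * ((1 - y) ^ 4 * b ^ 4 / 4 - 2 * (1 - y) ^ 3 * b ^ 5 / 5 + (1 - y) ^ 2 * b ^ 6 / 5 - (1 - y) * b ^ 7 / 35 + b ^ 8 / 800) := by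
  have h1 : (fun x : ℝ => FF (x, y) ^ 2 * (x ^ 3 / 6)) = fun x : ℝ => ∑ i ∈ Finset.range 8,
      ([0, 0, 0, (1 - y) ^ 4 / 24, - (1 - y) ^ 3 / 12, (1 - y) ^ 2 / 20, - (1 - y) / 120,
        1 / 2400] : List ℝ).getD i 0 * x ^ i := by
    funext x
    simp only [Finset.sum_range_succ, Finset.sum_range_zero, FF, List.getD_cons_succ,
      List.getD_cons_zero]
    ring
  rw [h1, F_05a_poly]
  simp only [Finset.sum_range_succ, Finset.sum_range_zero, List.getD_cons_succ,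
      List.getD_cons_zero]
  push_cast
  ring

private theorem F_05a_o1 : (∫ y in (0 : ℝ)..(1 / 10), (1 / 24 : ℝ) * ((1 - y) ^ 4 * (1 / 2 + y) ^ 4 / 4 - 2 * (1 - y) ^ 3 * (1 / 2 + y) ^ 5 / 5
      + (1 - y) ^ 2 * (1 / 2 + y) ^ 6 / 5 - (1 - y) * (1 / 2 + y) ^ 7 / 35 + (1 / 2 + y) ^ 8 / 800)) =
    4240487131 / 172800000000000 := by
  have h1 : (fun y : ℝ => (1 / 24 : ℝ) * ((1 - y) ^ 4 * (1 / 2 + y) ^ 4 / 4 - 2 * (1 - y) ^ 3 * (1 / 2 + y) ^ 5 / 5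
      + (1 - y) ^ 2 * (1 / 2 + y) ^ 6 / 5 - (1 - y) * (1 / 2 + y) ^ 7 / 35 + (1 / 2 + y) ^ 8 / 800)) =
      fun y : ℝ => ∑ i ∈ Finset.range 9, ([8647 / 34406400, 307 / 2150400, -1193 / 307200,
        -173 / 76800, 667 / 30720, 247 / 19200, -893 / 19200, -593 / 33600,
        4927 / 134400] : List ℝ).getD i 0 * y ^ i := by
    funext y
    simp only [Finset.sum_range_succ, Finset.sum_range_zero, List.getD_cons_succ,
      List.getD_cons_zero]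
    ring
  rw [h1, F_05a_poly]
  simp only [Finset.sum_range_succ, Finset.sum_range_zero, List.getD_cons_succ,
      List.getD_cons_zero]
  push_cast
  norm_num

private theorem F_05a_o2 : (∫ y in (1 / 10 : ℝ)..1, (1 / 24 : ℝ) * ((1 - y) ^ 4 * (2 * (1 - y) / 3) ^ 4 / 4 - 2 * (1 - y) ^ 3 * (2 * (1 - y) / 3) ^ 5 / 5
      + (1 - y) ^ 2 * (2 * (1 - y) / 3) ^ 6 / 5 - (1 - y) * (2 * (1 - y) / 3) ^ 7 / 35 + (2 * (1 - y) / 3) ^ 8 / 800)) =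
    7936623 / 350000000000 := by
  have h1 : (fun y : ℝ => (1 / 24 : ℝ) * ((1 - y) ^ 4 * (2 * (1 - y) / 3) ^ 4 / 4 - 2 * (1 - y) ^ 3 * (2 * (1 - y) / 3) ^ 5 / 5
      + (1 - y) ^ 2 * (2 * (1 - y) / 3) ^ 6 / 5 - (1 - y) * (2 * (1 - y) / 3) ^ 7 / 35 + (2 * (1 - y) / 3) ^ 8 / 800)) =
      fun y : ℝ => (3629 / 6889050) * (1 - y) ^ 8 := by
    funext y
    ring
  rw [h1, intervalIntegral.integral_const_mul,
    intervalIntegral.integral_comp_sub_left (fun x : ℝ => x ^ 8) 1, integral_pow]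
  norm_num

/-- Outer integrals (explicit antiderivatives). -/
theorem outer_int : (∫ y in (0 : ℝ)..(1 / 10), (1 / 24 : ℝ) * ((1 - y) ^ 4 * (1 / 2 + y) ^ 4 / 4 - 2 * (1 - y) ^ 3 * (1 / 2 + y) ^ 5 / 5
      + (1 - y) ^ 2 * (1 / 2 + y) ^ 6 / 5 - (1 - y) * (1 / 2 + y) ^ 7 / 35 + (1 / 2 + y) ^ 8 / 800)) +
    (∫ y in (1 / 10 : ℝ)..1, (1 / 24 : ℝ) * ((1 - y) ^ 4 * (2 * (1 - y) / 3) ^ 4 / 4 - 2 * (1 - y) ^ 3 * (2 * (1 - y) / 3) ^ 5 / 5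
      + (1 - y) ^ 2 * (2 * (1 - y) / 3) ^ 6 / 5 - (1 - y) * (2 * (1 - y) / 3) ^ 7 / 35 + (2 * (1 - y) / 3) ^ 8 / 800)) =
    11422475801 / 241920000000000 := by
  rw [F_05a_o1, F_05a_o2]
  norm_num

end Pool.Agent.LibSM47.EH
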