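import Pool.Agent.LibSM47.M_B1

/-! SM47 B2.  `∑ |c| ≤ M ∑_{reg} hh(m) (mn)^{-1/2} ≤ M C ∑_{reg} m^{1/8-1/2} n^{-1/2}`, reg1 with `α = -3/8 < -1/4`.
-/

set_option autoImplicit false

namespace Pool.Agent.LibSM47

open MeasureTheory Set Filter Topology Complex ProbabilityTheory
open scoped NNReal ComplexConjugate
open Pool.Agent.LibZM

theorem cc_sum (P : ℝ × ℝ → ℝ) (ε : ℝ) (hε : 0 < ε) (hε' : ε ≤ 1 / 10) (hP : Adm ε P) :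
    ∃ C : ℝ, 0 < C ∧ ∀ T : ℝ, 2 ≤ T → ∑ q ∈ idx T, |cc P T q| ≤ C * T ^ ((1 - ε) / 2) := by
  obtain ⟨M, hM, hcc⟩ := cc_bound P ε hε hP
  obtain ⟨C₁, hC₁, hdiv⟩ := card_div_le (1 / 8) (by norm_num)
  obtain ⟨C₂, hC₂, hreg⟩ := reg1 (-(3 / 8)) ε (by norm_num) hε (by linarith)
  refine ⟨M * C₁ * C₂, by positivity, fun T hT => ?_⟩
  have h1 : ∑ q ∈ idx T, |cc P T q| ≤ ∑ q ∈ reg ε T, |cc P T q| := by
    rw [reg, Finset.sum_filter]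
    refine Finset.sum_le_sum fun q hq => ?_
    by_cases h0 : cc P T q = 0
    · rw [h0, abs_zero]
      split_ifs <;> exact le_rfl
    · obtain ⟨h2, -, h3, -⟩ := (hcc T hT q hq).2 h0
      rw [if_pos ⟨h2, h3⟩]
  have h2 : ∀ q ∈ reg ε T, |cc P T q| ≤
      M * C₁ * ((q.1 : ℝ) ^ (-(3 / 8) : ℝ) * (q.2 : ℝ) ^ (-(1 / 2) : ℝ)) := by
    intro q hq
    have hq' : q ∈ idx T := (Finset.mem_filter.mp hq).1
    have hq1 : 1 ≤ q.1 := by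
      have h3 := (Finset.mem_product.mp (Finset.mem_filter.mp hq').1).1
      exact (Finset.mem_Icc.mp h3).1
    have hq2 : 1 ≤ q.2 := by
      have h3 := (Finset.mem_product.mp (Finset.mem_filter.mp hq').1).2
      exact (Finset.mem_Icc.mp h3).1
    have hm : (0 : ℝ) < q.1 := by exact_mod_cast hq1
    have hn : (0 : ℝ) < q.2 := by exact_mod_cast hq2
    have h4 : hh q.1 ≤ C₁ * (q.1 : ℝ) ^ (1 / 8 : ℝ) := (hh_le_card q.1).trans (hdiv q.1 hq1)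
    calc |cc P T q| ≤ M * hh q.1 * ((q.1 : ℝ) * q.2) ^ (-(1 / 2) : ℝ) := (hcc T hT q hq').1
      _ ≤ M * (C₁ * (q.1 : ℝ) ^ (1 / 8 : ℝ)) * ((q.1 : ℝ) * q.2) ^ (-(1 / 2) : ℝ) := by
        gcongr
      _ = M * C₁ * ((q.1 : ℝ) ^ (-(3 / 8) : ℝ) * (q.2 : ℝ) ^ (-(1 / 2) : ℝ)) := by
        rw [Real.mul_rpow hm.le hn.le,
          show (-(3 / 8) : ℝ) = 1 / 8 + -(1 / 2) by norm_num, Real.rpow_add hm]
        ring
  calc ∑ q ∈ idx T, |cc P T q| ≤ ∑ q ∈ reg ε T, |cc P T q| := h1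
    _ ≤ ∑ q ∈ reg ε T, M * C₁ * ((q.1 : ℝ) ^ (-(3 / 8) : ℝ) * (q.2 : ℝ) ^ (-(1 / 2) : ℝ)) :=
      Finset.sum_le_sum h2
    _ = M * C₁ * ∑ q ∈ reg ε T, (q.1 : ℝ) ^ (-(3 / 8) : ℝ) * (q.2 : ℝ) ^ (-(1 / 2) : ℝ) := by
      rw [Finset.mul_sum]
    _ ≤ M * C₁ * (C₂ * T ^ ((1 - ε) / 2)) := by
      have := hreg T hT
      gcongr
    _ = M * C₁ * C₂ * T ^ ((1 - ε) / 2) := by ring

end Pool.Agent.LibSM47
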