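import Pool.Agent.LibSM47.FaceC

/-! SM47 W1 (window theorem).  From Face: J_final with a small `θ'` gives `ε`, `P`; put `δ = ε/100`.  `CS_main`, `D_sq`, `D_cross`, `II_sum`,
`S1_limit`, `S2_limit`: with `L = log T`, `a = Aconst 3 > 0` (`LibZM.Aconst_pos`), for large `T` and all `u ∈ [ε₁T, T]`
`M6 · ((a J1 + θ'') L^5 + 2) ≥ 2 ((a J2 - 2θ'') L^7)²`, and `J1 ≤ J2`, `J2 ≥ J - θ'`; so `M6 ≥ 2 (a J2 - 2θ'')²/(a J2 + 2θ'') L^9
≥ (2 a J - θ) L^9` when `θ', θ''` are small (`(x-2t)²/(x+2t) ≥ x - 6t` for `x, t > 0`).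
-/

set_option autoImplicit false

namespace Pool.Agent.LibSM47

open MeasureTheory Set Filter Topology Complex ProbabilityTheory
open scoped NNReal ComplexConjugate
open Pool.Agent.LibZM

theorem window_main' (θ ε₁ : ℝ) (hθ : 0 < θ) (hε1 : 0 < ε₁) :
    ∃ δ T₀ : ℝ, 0 < δ ∧ δ ≤ 1 / 1000 ∧ ∀ T : ℝ, T₀ ≤ T → ∀ u : ℝ, ε₁ * T ≤ u → u ≤ T →
      (LibZM.Aconst 3 * (2 * (11422475801 / 241920000000000)) - θ) * (Real.log T) ^ 9 ≤ M6 (T ^ (1 - δ)) u := by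
  obtain ⟨J, hJ⟩ : ∃ J : ℝ, J = 11422475801 / 241920000000000 := ⟨_, rfl⟩
  have hJ0 : 0 < J := by rw [hJ]; norm_num
  rw [← hJ]
  obtain ⟨a, ha⟩ : ∃ a : ℝ, a = LibZM.Aconst 3 := ⟨_, rfl⟩
  have ha0 : 0 < a := by rw [ha]; exact LibZM.Aconst_pos (by norm_num)
  obtain ⟨θ', hθ'⟩ : ∃ θ' : ℝ, θ' = min (θ / (4 * a)) (J / 2) := ⟨_, rfl⟩
  have hθ'0 : 0 < θ' := by rw [hθ']; exact lt_min (by positivity) (by positivity)
  have hθ'1 : a * θ' ≤ θ / 4 := by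
    have h1 : θ' ≤ θ / (4 * a) := by rw [hθ']; exact min_le_left _ _
    calc a * θ' ≤ a * (θ / (4 * a)) := mul_le_mul_of_nonneg_left h1 ha0.le
      _ = θ / 4 := by field_simp
  have hθ'2 : θ' ≤ J / 2 := by rw [hθ']; exact min_le_right _ _
  obtain ⟨t, ht⟩ : ∃ t : ℝ, t = min (θ / 24) (a * J / 4) := ⟨_, rfl⟩
  have ht0 : 0 < t := by rw [ht]; exact lt_min (by positivity) (by positivity)
  have ht1 : t ≤ θ / 24 := by rw [ht]; exact min_le_left _ _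
  have ht2 : t ≤ a * J / 4 := by rw [ht]; exact min_le_right _ _
  obtain ⟨ε, hε, hε', P, hP, hJ12, hJ2⟩ := J_final θ' hθ'0
  rw [← hJ] at hJ2
  obtain ⟨T1, hT1⟩ := D_sq P ε (ε / 100) hε (by positivity) (by linarith) hε' hP
  obtain ⟨T2, hT2⟩ := D_cross P ε ε₁ (ε / 100) hε hε1 (by positivity) (by linarith) hε' hP
  obtain ⟨C, T3, hT3⟩ := II_sum P ε ε₁ hε hε1 hε' hP
  obtain ⟨T4, hT4⟩ := S2_limit P ε ε₁ hε hε1 hP t ht0
  have hS1 := S1_limit P ε hε hP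
  rw [← ha] at hS1 hT4 ⊢
  have hS1' : ∀ᶠ T : ℝ in atTop,
      (∑ q ∈ idx T, cc P T q ^ 2) / (Real.log T) ^ 5 < a * J1 P + t :=
    hS1.eventually (gt_mem_nhds (by linarith))
  have hlog : ∀ᶠ T : ℝ in atTop, max (C / t) (2 / t + 1) ≤ Real.log T :=
    Real.tendsto_log_atTop.eventually_ge_atTop _
  obtain ⟨T5, hT5⟩ := (hS1'.and hlog).exists_forall_of_atTop
  refine ⟨ε / 100, max (max T1 T2) (max (max T3 T4) T5), by positivity, by linarith,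
    fun T hT u hu1 hu2 => ?_⟩
  have g1 : T1 ≤ T := (le_max_left _ _).trans ((le_max_left _ _).trans hT)
  have g2 : T2 ≤ T := (le_max_right _ _).trans ((le_max_left _ _).trans hT)
  have g3 : T3 ≤ T :=
    (le_max_left _ _).trans ((le_max_left _ _).trans ((le_max_right _ _).trans hT))
  have g4 : T4 ≤ T :=
    (le_max_right _ _).trans ((le_max_left _ _).trans ((le_max_right _ _).trans hT))
  have g5 : T5 ≤ T := (le_max_right _ _).trans ((le_max_right _ _).trans hT)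
  obtain ⟨g6, g7⟩ := hT5 T g5
  have k1 := hT1 T g1 u
  have k2 := hT2 T g2 u hu1 hu2
  have k3 := hT3 T g3 u hu1 hu2
  have k4 := hT4 T g4 u hu1 hu2
  have k5 := CS_main P T (T ^ (1 - ε / 100)) u
  obtain ⟨L, hL⟩ : ∃ L : ℝ, L = Real.log T := ⟨_, rfl⟩
  rw [← hL] at g6 g7 k3 k4 ⊢
  obtain ⟨S, hS⟩ : ∃ S : ℝ, S = ∑ q ∈ idx T, cc P T q *
    (II (T ^ (1 - ε / 100)) u q.1 q.2).re := ⟨_, rfl⟩
  obtain ⟨S2, hS2⟩ : ∃ S2 : ℝ, S2 = ∑ q ∈ idx T, cc P T q * (((q.1 : ℝ) * q.2) ^ (-(1 / 2) : ℝ) *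
    mainS q.1 (Real.log (u / (2 * Real.pi)) + Real.log q.1 - Real.log q.2)) := ⟨_, rfl⟩
  obtain ⟨S1, hS1e⟩ : ∃ S1 : ℝ, S1 = ∑ q ∈ idx T, cc P T q ^ 2 := ⟨_, rfl⟩
  obtain ⟨N, hN⟩ : ∃ N : ℝ, N = ∫ t, ‖DD P T t‖ ^ 2 ∂(gam (T ^ (1 - ε / 100)) u) := ⟨_, rfl⟩
  obtain ⟨X, hX⟩ : ∃ X : ℂ, X = ∫ t, XX t * DD P T t ^ 2 ∂(gam (T ^ (1 - ε / 100)) u) := ⟨_, rfl⟩
  obtain ⟨M, hM⟩ : ∃ M : ℝ, M = M6 (T ^ (1 - ε / 100)) u := ⟨_, rfl⟩
  rw [← hS, ← hS2] at k3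
  rw [← hS2] at k4
  rw [← hS1e] at g6 k1
  rw [← hN] at k1 k5
  rw [← hX] at k2 k5
  rw [← hS, ← hM] at k5
  rw [← hM]
  have hM0 : 0 ≤ M := by
    rw [hM]
    unfold M6
    exact integral_nonneg fun t => by positivity
  have hL1 : 2 / t + 1 ≤ L := (le_max_right _ _).trans g7
  have hL2 : C / t ≤ L := (le_max_left _ _).trans g7
  have hL3 : 1 ≤ L := by
    have : 0 < 2 / t := by positivity
    linarith
  have hL4 : 2 ≤ t * L := by
    have h1 : 2 / t ≤ L := by linarith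
    rw [div_le_iff₀ ht0] at h1
    linarith
  have hL5 : C ≤ t * L := by
    rw [div_le_iff₀ ht0] at hL2
    linarith
  obtain ⟨x, hx⟩ : ∃ x : ℝ, x = a * J2 P := ⟨_, rfl⟩
  have hx1 : a * (J - θ') ≤ x := by rw [hx]; exact mul_le_mul_of_nonneg_left hJ2 ha0.le
  have hx2 : a * J / 2 ≤ x := by
    have : a * (J / 2) ≤ a * (J - θ') := mul_le_mul_of_nonneg_left (by linarith) ha0.le
    linarith
  have haJ : 0 < a * J := by positivity
  have hy : 0 ≤ x - 2 * t := by linarith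
  have hD : 0 < x + 2 * t := by linarith
  have hJ1x : a * J1 P ≤ x := by rw [hx]; exact mul_le_mul_of_nonneg_left hJ12 ha0.le
  -- the denominator
  have hL5p : 1 ≤ L ^ 5 := one_le_pow₀ hL3
  have hL4p : L ≤ L ^ 5 := by
    have := pow_le_pow_right₀ hL3 (show 1 ≤ 5 by norm_num)
    rwa [pow_one] at this
  have m1 : N + X.re ≤ (x + 2 * t) * L ^ 5 := by
    have h1 : S1 ≤ (a * J1 P + t) * L ^ 5 := by
      have := (div_lt_iff₀ (by linarith : (0 : ℝ) < L ^ 5)).1 g6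
      exact this.le
    have h2 : X.re ≤ 1 := (Complex.re_le_norm X).trans k2
    have h3 : N ≤ S1 + 1 := by
      have := (abs_le.1 k1).2
      linarith
    have h4 : (2 : ℝ) ≤ t * L ^ 5 := by
      have := mul_le_mul_of_nonneg_left hL4p ht0.le
      linarith
    have h5 : (a * J1 P + t) * L ^ 5 ≤ (x + t) * L ^ 5 :=
      mul_le_mul_of_nonneg_right (by linarith) (by linarith)
    have h6 : (x + 2 * t) * L ^ 5 = (x + t) * L ^ 5 + t * L ^ 5 := by ring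
    linarith
  have m2 : (x - 2 * t) * L ^ 7 ≤ S := by
    have h1 := (abs_le.1 k3).1
    have h2 := (abs_le.1 k4).1
    have h3 : C * L ^ 6 ≤ t * L ^ 7 := by
      have := mul_le_mul_of_nonneg_right hL5 (by positivity : (0 : ℝ) ≤ L ^ 6)
      calc C * L ^ 6 ≤ t * L * L ^ 6 := this
        _ = t * L ^ 7 := by ring
    rw [← hx] at h2
    have h4 : (x - 2 * t) * L ^ 7 = x * L ^ 7 - t * L ^ 7 - t * L ^ 7 := by ring
    linarith
  have m3 : ((x - 2 * t) * L ^ 7) ^ 2 ≤ S ^ 2 := pow_le_pow_left₀ (by positivity) m2 2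
  have m4 : 2 * ((x - 2 * t) * L ^ 7) ^ 2 ≤ M * ((x + 2 * t) * L ^ 5) := by
    have := mul_le_mul_of_nonneg_left m1 hM0
    linarith
  have m5 : 2 * (x - 6 * t) * L ^ 9 ≤ M := by
    have h1 : 0 < (x + 2 * t) * L ^ 5 := by positivity
    have h2 : 2 * (x - 6 * t) * L ^ 9 * ((x + 2 * t) * L ^ 5) ≤ M * ((x + 2 * t) * L ^ 5) := by
      refine le_trans ?_ m4
      have h3 : 2 * ((x - 2 * t) * L ^ 7) ^ 2 - 2 * (x - 6 * t) * L ^ 9 * ((x + 2 * t) * L ^ 5) =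
          32 * t ^ 2 * L ^ 14 := by ring
      have h4 : 0 ≤ 32 * t ^ 2 * L ^ 14 := by positivity
      linarith
    exact le_of_mul_le_mul_right h2 h1
  refine le_trans (mul_le_mul_of_nonneg_right ?_ (by positivity)) m5
  have h7 : a * (J - θ') = a * J - a * θ' := by ring
  linarith

end Pool.Agent.LibSM47
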