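import Pool.Agent.LibSM47.M_A1c

/-! SM47 W2 (tails).  For `u ∈ [ε₁T, (1-ε₁)T]` the set `t < 0` or `t > T` has `|t - u| ≥ ε₁ T`.  `‖ζ(1/2+it)‖^6 ≤ (4+2|t|)^6`
(`LibZM.norm_zeta_crit_le`), and `∫ (4+2|t|)^6 1_{|t-u| ≥ ε₁T} dγ ≤ sup over that set ... `: e.g. `1_{|t-u| ≥ ε₁T} ≤
(t-u)^{2k} (ε₁T)^{-2k}` and Gaussian moments `∫ (t-u)^{2j} dγ ≤ C_j V^{2j}`, `V = T^{1-δ}`: the tail is `≤ C T^6 T^{-2kδ}`;
take `k` with `2kδ ≥ 6`.
-/

set_option autoImplicit false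

namespace Pool.Agent.LibSM47

open MeasureTheory Set Filter Topology Complex ProbabilityTheory
open scoped NNReal ComplexConjugate
open Pool.Agent.LibZM

private theorem W2_gam (V u : ℝ) :
    gam V u = (gaussianReal 0 1).map (fun x => V * x + u) := by
  have h1 := gaussianReal_map_const_mul (μ := 0) (v := 1) V
  have h2 : ((gaussianReal 0 1).map (V * ·)).map (· + u) = (gaussianReal (V * 0)
      (⟨V ^ 2, sq_nonneg _⟩ * 1)).map (· + u) := congrArg (fun μ : Measure ℝ => μ.map (· + u)) h1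
  rw [Measure.map_map (by fun_prop) (by fun_prop), gaussianReal_map_add_const, mul_zero, zero_add,
    mul_one] at h2
  exact h2.symm

private theorem W2_int (V u : ℝ) (j : ℕ) : Integrable (fun t => |t - u| ^ j) (gam V u) := by
  have h1 : MemLp (id : ℝ → ℝ) ((j : ℝ≥0) : ENNReal) (gam V u) := memLp_id_gaussianReal _
  have h2 : MemLp (fun t : ℝ => t - u) (j : ENNReal) (gam V u) := by
    have h3 := h1.sub (memLp_const (p := ((j : ℝ≥0) : ENNReal)) (μ := gam V u) u)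
    have h4 : ((j : ℝ≥0) : ENNReal) = (j : ENNReal) := by simp
    rw [h4] at h3
    exact h3
  have h4 := h2.integrable_norm_pow'
  simpa [Real.norm_eq_abs] using h4

private theorem W2_moment (V u : ℝ) (j : ℕ) :
    ∫ t, |t - u| ^ j ∂(gam V u) = |V| ^ j * ∫ x, |x| ^ j ∂(gaussianReal 0 1) := by
  rw [W2_gam, integral_map (by fun_prop) (by fun_prop), ← integral_const_mul]
  congr 1
  ext x
  rw [add_sub_cancel_right, abs_mul, mul_pow]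

theorem tail_le (ε₁ δ : ℝ) (hε1 : 0 < ε₁) (hδ : 0 < δ) (hδ1 : δ ≤ 1 / 10) :
    ∃ C T₀ : ℝ, ∀ T : ℝ, T₀ ≤ T → ∀ u : ℝ, ε₁ * T ≤ u → u ≤ (1 - ε₁) * T →
      M6 (T ^ (1 - δ)) u ≤ (∫ t in Icc (0 : ℝ) T, ‖riemannZeta (crit t)‖ ^ 6 ∂(gam (T ^ (1 - δ)) u)) + C := by
  obtain ⟨k, hk⟩ := exists_nat_ge (3 / δ)
  have hk' : 3 ≤ k * δ := by
    rwa [div_le_iff₀ hδ] at hk
  obtain ⟨Mm, hMm⟩ : ∃ Mm, Mm = ∫ x, |x| ^ (2 * k + 6) ∂(gaussianReal 0 1) := ⟨_, rfl⟩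
  have hM0 : 0 ≤ Mm := by
    rw [hMm]
    exact integral_nonneg fun x => by positivity
  obtain ⟨K, hK⟩ : ∃ K : ℝ, K = 6 + 2 / ε₁ := ⟨_, rfl⟩
  have hK0 : 0 < K := by
    rw [hK]
    positivity
  refine ⟨K ^ 6 * (ε₁ ^ (2 * k))⁻¹ * Mm, max 1 (1 / ε₁), fun T hT u hu1 hu2 => ?_⟩
  have hT1 : 1 ≤ T := (le_max_left _ _).trans hT
  have hT0 : 0 < T := by linarith
  have hTε : 1 ≤ ε₁ * T := by
    have h1 : 1 / ε₁ ≤ T := (le_max_right _ _).trans hT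
    rwa [div_le_iff₀' hε1] at h1
  obtain ⟨V, hV⟩ : ∃ V : ℝ, V = T ^ (1 - δ) := ⟨_, rfl⟩
  rw [← hV]
  have hV0 : 0 < V := by
    rw [hV]
    exact Real.rpow_pos_of_pos hT0 _
  have hu0 : 0 ≤ u := by linarith
  have hpt : ∀ t ∈ (Icc (0 : ℝ) T)ᶜ, ‖riemannZeta (crit t)‖ ^ 6 ≤
      K ^ 6 * ((ε₁ * T) ^ (2 * k))⁻¹ * |t - u| ^ (2 * k + 6) := by
    intro t ht
    have hs : ε₁ * T ≤ |t - u| := by
      rw [mem_compl_iff, mem_Icc, not_and_or, not_le, not_le] at ht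
      rcases ht with ht | ht
      · rw [abs_of_neg (by linarith)]
        linarith
      · rw [abs_of_pos (by nlinarith)]
        nlinarith
    obtain ⟨s, hsd⟩ : ∃ s, s = |t - u| := ⟨_, rfl⟩
    rw [← hsd] at hs ⊢
    have hs1 : 1 ≤ s := hTε.trans hs
    have h1 : |t| ≤ s + T := by
      have h2 : |t| ≤ |t - u| + |u| := by
        have := abs_add_le (t - u) u
        rwa [sub_add_cancel] at this
      rw [abs_of_nonneg hu0] at h2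
      nlinarith
    have h3 : T ≤ s / ε₁ := by
      rw [le_div_iff₀ hε1]
      linarith
    have h4 : 4 + 2 * |t| ≤ K * s := by
      have h5 : K * s = 6 * s + 2 * (s / ε₁) := by
        rw [hK]
        ring
      rw [h5]
      linarith
    have h6 : ‖riemannZeta (crit t)‖ ^ 6 ≤ (K * s) ^ 6 :=
      pow_le_pow_left₀ (norm_nonneg _) ((norm_zeta_crit_le t).trans h4) 6
    have h7 : 1 ≤ ((ε₁ * T) ^ (2 * k))⁻¹ * s ^ (2 * k) := by
      rw [inv_mul_eq_div, one_le_div (by positivity)]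
      exact pow_le_pow_left₀ (by positivity) hs _
    have h8 : (K * s) ^ 6 ≤ (K * s) ^ 6 * (((ε₁ * T) ^ (2 * k))⁻¹ * s ^ (2 * k)) :=
      le_mul_of_one_le_right (by positivity) h7
    refine h6.trans (h8.trans (le_of_eq ?_))
    rw [mul_pow, pow_add]
    ring
  have hint := (W2_int V u (2 * k + 6)).const_mul (K ^ 6 * ((ε₁ * T) ^ (2 * k))⁻¹)
  have hsplit : M6 V u = (∫ t in Icc (0 : ℝ) T, ‖riemannZeta (crit t)‖ ^ 6 ∂(gam V u)) +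
      ∫ t in (Icc (0 : ℝ) T)ᶜ, ‖riemannZeta (crit t)‖ ^ 6 ∂(gam V u) :=
    (integral_add_compl measurableSet_Icc (int_pow V u 6)).symm
  have h2 : ∫ t in (Icc (0 : ℝ) T)ᶜ, ‖riemannZeta (crit t)‖ ^ 6 ∂(gam V u) ≤
      ∫ t in (Icc (0 : ℝ) T)ᶜ, K ^ 6 * ((ε₁ * T) ^ (2 * k))⁻¹ * |t - u| ^ (2 * k + 6) ∂(gam V u) :=
    setIntegral_mono_on (int_pow V u 6).integrableOn hint.integrableOn
      measurableSet_Icc.compl hpt
  have h3 : ∫ t in (Icc (0 : ℝ) T)ᶜ, K ^ 6 * ((ε₁ * T) ^ (2 * k))⁻¹ * |t - u| ^ (2 * k + 6)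
      ∂(gam V u) ≤
      ∫ t, K ^ 6 * ((ε₁ * T) ^ (2 * k))⁻¹ * |t - u| ^ (2 * k + 6) ∂(gam V u) :=
    setIntegral_le_integral hint (Eventually.of_forall fun t => by positivity)
  have h3' : ∫ t, K ^ 6 * ((ε₁ * T) ^ (2 * k))⁻¹ * |t - u| ^ (2 * k + 6) ∂(gam V u) =
      K ^ 6 * ((ε₁ * T) ^ (2 * k))⁻¹ * (V ^ (2 * k + 6) * Mm) := by
    rw [integral_const_mul, W2_moment, ← hMm, abs_of_pos hV0]
  rw [h3'] at h3
  have h4 : V ^ (2 * k + 6) ≤ T ^ (2 * k) := by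
    rw [hV, ← Real.rpow_natCast (T ^ (1 - δ)), ← Real.rpow_mul hT0.le, ← Real.rpow_natCast T]
    apply Real.rpow_le_rpow_of_exponent_le hT1
    push_cast
    nlinarith
  have h5 : K ^ 6 * ((ε₁ * T) ^ (2 * k))⁻¹ * (V ^ (2 * k + 6) * Mm) ≤
      K ^ 6 * (ε₁ ^ (2 * k))⁻¹ * Mm := by
    have h6 : ((ε₁ * T) ^ (2 * k))⁻¹ * V ^ (2 * k + 6) ≤ (ε₁ ^ (2 * k))⁻¹ := by
      rw [mul_pow, mul_inv, mul_assoc]
      apply mul_le_of_le_one_right (by positivity)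
      rw [inv_mul_le_iff₀ (by positivity), mul_one]
      exact h4
    calc K ^ 6 * ((ε₁ * T) ^ (2 * k))⁻¹ * (V ^ (2 * k + 6) * Mm)
        = K ^ 6 * (((ε₁ * T) ^ (2 * k))⁻¹ * V ^ (2 * k + 6)) * Mm := by ring
      _ ≤ K ^ 6 * (ε₁ ^ (2 * k))⁻¹ * Mm := by gcongr
  linarith

end Pool.Agent.LibSM47
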