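import Pool.Agent.LibSM47.M_W1
import Pool.Agent.LibSM47.M_W4
import Pool.Agent.LibSM47.M_W5

/-! SM47 M_W6 (short intervals).  `window_main'` with `θ/2` gives `δ₀`; put `δ = δ₀/3`, `R = T^{1-δ₀/2}`.  For `a + R ≤ u ≤ b - R`:
`(2aJ - θ/2) L^9 ≤ M6 ≤ ∫_{Icc a b} + C` (`tail_le`), `moment_ge_Icc`, and `2R ≤ 2 T^{-δ₀/6} (b-a)`.  If `2aJ - θ ≤ 0` the claim is
trivial.
-/

set_option autoImplicit false

namespace Pool.Agent.LibSM47

open MeasureTheory Set Filter Topology Complex ProbabilityTheory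
open scoped NNReal ComplexConjugate
open Pool.Agent.LibZM

theorem interval_bound (θ ε₁ : ℝ) (hθ : 0 < θ) (hε1 : 0 < ε₁) :
    ∃ δ T₀ : ℝ, 0 < δ ∧ δ ≤ 1 / 1000 ∧ ∀ T : ℝ, T₀ ≤ T → ∀ a b : ℝ, ε₁ * T ≤ a → b ≤ T → T ^ (1 - δ) ≤ b - a →
      (LibZM.Aconst 3 * (2 * (11422475801 / 241920000000000)) - θ) * (b - a) * (Real.log T) ^ 9 ≤
        ∫ t in a..b, ‖riemannZeta (crit t)‖ ^ 6 := by
  obtain ⟨δ₀, T₁, hδ0, hδ1, hwin⟩ := window_main' (θ / 2) ε₁ (by positivity) hε1
  obtain ⟨C, hC, htail⟩ := tail_le δ₀ hδ0 (by linarith)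
  set A : ℝ := LibZM.Aconst 3 * (2 * (11422475801 / 241920000000000)) with hA
  have hA0 : 0 < A := by
    have := LibZM.Aconst_pos (κ := 3) (by norm_num)
    rw [hA]; positivity
  have e1 : ∀ᶠ T : ℝ in atTop, T ^ (-(δ₀ / 6)) < min (1 / 4) (θ / (16 * A)) :=
    (tendsto_rpow_neg_atTop (by positivity : 0 < δ₀ / 6)).eventually_lt_const
      (lt_min (by norm_num) (by positivity))
  have e2 : ∀ᶠ T : ℝ in atTop, 8 * C / θ ≤ (Real.log T) ^ 9 :=
    ((tendsto_pow_atTop (by norm_num : (9 : ℕ) ≠ 0)).comp Real.tendsto_log_atTop).eventually_ge_atTop _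
  obtain ⟨T₂, h2⟩ := (e1.and e2).exists_forall_of_atTop
  refine ⟨δ₀ / 3, max (max T₁ T₂) 1, by positivity, by linarith, ?_⟩
  intro T hT a b ha hb hab
  have hT1 : T₁ ≤ T := le_trans (le_trans (le_max_left _ _) (le_max_left _ _)) hT
  have hT2 : T₂ ≤ T := le_trans (le_trans (le_max_right _ _) (le_max_left _ _)) hT
  have hT3 : 1 ≤ T := le_trans (le_max_right _ _) hT
  have hT0 : 0 < T := by linarith
  obtain ⟨hs, hL⟩ := h2 T hT2
  set s : ℝ := T ^ (-(δ₀ / 6)) with hsdef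
  have hs0 : 0 < s := Real.rpow_pos_of_pos hT0 _
  have hs1 : s < 1 / 4 := lt_of_lt_of_le hs (min_le_left _ _)
  have hs2 : s < θ / (16 * A) := lt_of_lt_of_le hs (min_le_right _ _)
  have hL0 : 0 ≤ (Real.log T) ^ 9 := pow_nonneg (Real.log_nonneg hT3) 9
  set L9 : ℝ := (Real.log T) ^ 9 with hL9
  have hpow0 : 0 < T ^ (1 - δ₀ / 3) := Real.rpow_pos_of_pos hT0 _
  have hD : 0 < b - a := lt_of_lt_of_le hpow0 hab
  set R : ℝ := T ^ (1 - δ₀ / 2) with hR
  have hR0 : 0 < R := Real.rpow_pos_of_pos hT0 _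
  have hRs : R ≤ s * (b - a) := by
    have : R = s * T ^ (1 - δ₀ / 3) := by
      rw [hR, hsdef, ← Real.rpow_add hT0]
      congr 1; ring
    rw [this]
    exact mul_le_mul_of_nonneg_left hab hs0.le
  have ha0 : 0 ≤ a := le_trans (by positivity) ha
  have h2R : a + R ≤ b - R := by
    have e : s * (b - a) ≤ 1 / 4 * (b - a) := mul_le_mul_of_nonneg_right hs1.le hD.le
    linarith
  have hc : Continuous (fun t : ℝ => ‖riemannZeta (crit t)‖ ^ 6) := continuous_zeta_crit.norm.pow 6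
  have hmom := moment_ge_Icc (V := T ^ (1 - δ₀)) (Real.rpow_pos_of_pos hT0 _) hc
    (fun t => by positivity) (a := a) (b := b) (R := R) (c := (A - θ / 2) * L9 - C) h2R (by
      intro u hu1 hu2
      have h3 := hwin T hT1 u (by linarith) (by linarith)
      have h4 := htail T hT3 u a b (by linarith) (by linarith) hu1 (by linarith)
      linarith)
  have hint : ∫ t in a..b, ‖riemannZeta (crit t)‖ ^ 6 = ∫ t in Icc a b, ‖riemannZeta (crit t)‖ ^ 6 := by
    rw [intervalIntegral.integral_of_le (by linarith), integral_Icc_eq_integral_Ioc]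
  rw [hint]
  rcases le_or_gt (A - θ) 0 with h5 | h5
  · refine le_trans ?_ (integral_nonneg fun t => by positivity)
    have : 0 ≤ (b - a) * L9 := by positivity
    nlinarith
  · refine le_trans ?_ hmom
    have hCL : C ≤ θ / 8 * L9 := by
      rw [div_le_iff₀ hθ] at hL
      linarith
    have hc1 : (A - 5 * θ / 8) * L9 ≤ (A - θ / 2) * L9 - C := by nlinarith
    have hsA : 2 * s * A ≤ θ / 8 := by
      rw [lt_div_iff₀ (by positivity)] at hs2
      nlinarith
    have h6 : (A - θ) ≤ (1 - 2 * s) * (A - 5 * θ / 8) := by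
      have e : (1 - 2 * s) * (A - 5 * θ / 8) = A - 5 * θ / 8 - 2 * s * A + 2 * s * (5 * θ / 8) := by ring
      have e' : 0 ≤ 2 * s * (5 * θ / 8) := by positivity
      rw [e]; linarith
    have h7 : (1 - 2 * s) * (b - a) ≤ b - a - 2 * R := by
      have e : (1 - 2 * s) * (b - a) = b - a - 2 * (s * (b - a)) := by ring
      rw [e]; linarith
    have h8 : 0 ≤ (A - 5 * θ / 8) * L9 := by
      apply mul_nonneg _ hL0
      linarith
    calc (A - θ) * (b - a) * L9 ≤ ((1 - 2 * s) * (A - 5 * θ / 8)) * (b - a) * L9 := by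
          apply mul_le_mul_of_nonneg_right _ hL0
          exact mul_le_mul_of_nonneg_right h6 hD.le
      _ = ((1 - 2 * s) * (b - a)) * ((A - 5 * θ / 8) * L9) := by ring
      _ ≤ (b - a - 2 * R) * ((A - 5 * θ / 8) * L9) := mul_le_mul_of_nonneg_right h7 h8
      _ ≤ (b - a - 2 * R) * ((A - θ / 2) * L9 - C) := by
          apply mul_le_mul_of_nonneg_left hc1
          linarith

end Pool.Agent.LibSM47
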