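import Pool.Agent.LibSM47.M_W6

/-! SM47 M_W7 (final).  First part: `interval_bound` with `a = ε₁T`, `b = T`, `ε₁` small.  Second part: `interval_bound` with `T` replaced
by `2T`, `ε₁ = 1/2`, `a = T`, `b = T + H` (`(log 2T)^9 ≥ (log T)^9`; `(2T)^{1-δ'} ≤ T^{1-δ}` for `δ < δ'` and large `T`; if the
constant `2aJ - θ` is negative the claim is trivial).
-/

set_option autoImplicit false

namespace Pool.Agent.LibSM47

open MeasureTheory Set Filter Topology Complex ProbabilityTheory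
open scoped NNReal ComplexConjugate
open Pool.Agent.LibZM

theorem sixth_moment' (θ : ℝ) (hθ : 0 < θ) :
    (∀ᶠ T : ℝ in atTop, (LibZM.Aconst 3 * (2 * (11422475801 / 241920000000000)) - θ) * T * (Real.log T) ^ 9 ≤
      ∫ t in (0 : ℝ)..T, ‖riemannZeta (crit t)‖ ^ 6) ∧
    ∃ δ T₀ : ℝ, 0 < δ ∧ ∀ T : ℝ, T₀ ≤ T → ∀ H : ℝ, T ^ (1 - δ) ≤ H → H ≤ T →
      (LibZM.Aconst 3 * (2 * (11422475801 / 241920000000000)) - θ) * H * (Real.log T) ^ 9 ≤
        ∫ t in T..(T + H), ‖riemannZeta (crit t)‖ ^ 6 := by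
  set A : ℝ := LibZM.Aconst 3 * (2 * (11422475801 / 241920000000000)) with hA
  have hA0 : 0 < A := by
    have := LibZM.Aconst_pos (κ := 3) (by norm_num)
    rw [hA]; positivity
  have hc : Continuous (fun t : ℝ => ‖riemannZeta (crit t)‖ ^ 6) := continuous_zeta_crit.norm.pow 6
  have hint : ∀ a b : ℝ, IntervalIntegrable (fun t : ℝ => ‖riemannZeta (crit t)‖ ^ 6) volume a b :=
    fun a b => hc.intervalIntegrable a b
  constructor
  · set e : ℝ := min (1 / 2) (θ / (2 * A)) with he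
    have he0 : 0 < e := lt_min (by norm_num) (by positivity)
    have he1 : e ≤ 1 / 2 := min_le_left _ _
    have he2 : e * A ≤ θ / 2 := by
      have h1 : e ≤ θ / (2 * A) := min_le_right _ _
      rw [le_div_iff₀ (by positivity)] at h1
      linarith
    obtain ⟨δ, T₀, hδ, hδ1, hb⟩ := interval_bound (θ / 2) e (by positivity) he0
    have e1 : ∀ᶠ T : ℝ in atTop, T ^ (-δ) < 1 / 2 :=
      (tendsto_rpow_neg_atTop hδ).eventually_lt_const (by norm_num)
    filter_upwards [e1, eventually_ge_atTop T₀, eventually_ge_atTop 1] with T h1 h2 h3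
    have hT0 : 0 < T := by linarith
    have h4 : T ^ (1 - δ) ≤ T - e * T := by
      have h5 : T ^ (1 - δ) = T * T ^ (-δ) := by
        rw [sub_eq_add_neg, Real.rpow_add hT0, Real.rpow_one]
      rw [h5]
      have h6 : T * T ^ (-δ) ≤ T * (1 / 2) := mul_le_mul_of_nonneg_left h1.le hT0.le
      have h7 : e * T ≤ 1 / 2 * T := mul_le_mul_of_nonneg_right he1 hT0.le
      linarith
    have h5 := hb T h2 (e * T) T le_rfl le_rfl h4
    have h6 : ∫ t in (e * T)..T, ‖riemannZeta (crit t)‖ ^ 6 ≤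
        ∫ t in (0 : ℝ)..T, ‖riemannZeta (crit t)‖ ^ 6 := by
      rw [← intervalIntegral.integral_add_adjacent_intervals (hint 0 (e * T)) (hint (e * T) T)]
      have h7 : 0 ≤ ∫ t in (0 : ℝ)..(e * T), ‖riemannZeta (crit t)‖ ^ 6 :=
        intervalIntegral.integral_nonneg (by positivity) fun t _ => by positivity
      linarith
    refine le_trans ?_ (le_trans h5 h6)
    have hL0 : 0 ≤ (Real.log T) ^ 9 := pow_nonneg (Real.log_nonneg h3) 9
    apply mul_le_mul_of_nonneg_right _ hL0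
    have h7 : (A - θ / 2) * (T - e * T) = (A - θ / 2 - e * A + e * (θ / 2)) * T := by ring
    rw [h7]
    apply mul_le_mul_of_nonneg_right _ hT0.le
    have h8 : 0 ≤ e * (θ / 2) := by positivity
    linarith
  · obtain ⟨δ, T₀, hδ, hδ1, hb⟩ := interval_bound θ (1 / 2) hθ (by norm_num)
    have e1 : ∀ᶠ T : ℝ in atTop, T ^ (-(δ / 2)) < 1 / 2 :=
      (tendsto_rpow_neg_atTop (by positivity)).eventually_lt_const (by norm_num)
    obtain ⟨T₁, hT₁⟩ := e1.exists_forall_of_atTop
    refine ⟨δ / 2, max (max T₀ T₁) 1, by positivity, ?_⟩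
    intro T hT H hH1 hH2
    have hTa : T₀ ≤ T := le_trans (le_trans (le_max_left _ _) (le_max_left _ _)) hT
    have hTb : T₁ ≤ T := le_trans (le_trans (le_max_right _ _) (le_max_left _ _)) hT
    have hTc : 1 ≤ T := le_trans (le_max_right _ _) hT
    have hT0 : 0 < T := by linarith
    have h1 := hT₁ T hTb
    have hpos : 0 < T ^ (1 - δ / 2) := Real.rpow_pos_of_pos hT0 _
    have hH0 : 0 < H := lt_of_lt_of_le hpos hH1
    have h2 : (2 * T) ^ (1 - δ) ≤ T + H - T := by
      have h3 : (2 * T) ^ (1 - δ) = 2 ^ (1 - δ) * T ^ (1 - δ) := Real.mul_rpow (by norm_num) hT0.le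
      have h4 : (2 : ℝ) ^ (1 - δ) ≤ 2 := by
        calc (2 : ℝ) ^ (1 - δ) ≤ 2 ^ (1 : ℝ) := Real.rpow_le_rpow_of_exponent_le (by norm_num) (by linarith)
          _ = 2 := Real.rpow_one 2
      have h5 : T ^ (1 - δ) = T ^ (1 - δ / 2) * T ^ (-(δ / 2)) := by
        rw [← Real.rpow_add hT0]; congr 1; ring
      have h6 : T ^ (1 - δ / 2) * T ^ (-(δ / 2)) ≤ T ^ (1 - δ / 2) * (1 / 2) :=
        mul_le_mul_of_nonneg_left h1.le hpos.le
      have h7 : 0 ≤ T ^ (1 - δ) := Real.rpow_nonneg hT0.le _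
      calc (2 * T) ^ (1 - δ) = 2 ^ (1 - δ) * T ^ (1 - δ) := h3
        _ ≤ 2 * T ^ (1 - δ) := mul_le_mul_of_nonneg_right h4 h7
        _ ≤ 2 * (T ^ (1 - δ / 2) * (1 / 2)) := by rw [h5]; linarith
        _ = T ^ (1 - δ / 2) := by ring
        _ ≤ H := hH1
        _ = T + H - T := by ring
    have h3 := hb (2 * T) (by linarith) T (T + H) (by linarith) (by linarith) h2
    rcases le_or_gt (A - θ) 0 with h5 | h5
    · refine le_trans ?_ (intervalIntegral.integral_nonneg (by linarith) fun t _ => by positivity)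
      have hL0 : 0 ≤ (Real.log T) ^ 9 := pow_nonneg (Real.log_nonneg hTc) 9
      exact mul_nonpos_of_nonpos_of_nonneg (mul_nonpos_of_nonpos_of_nonneg h5 hH0.le) hL0
    · refine le_trans ?_ h3
      have e2 : T + H - T = H := by ring
      rw [e2]
      apply mul_le_mul_of_nonneg_left _ (by positivity)
      apply pow_le_pow_left₀ (Real.log_nonneg hTc)
      exact Real.log_le_log hT0 (by linarith)

end Pool.Agent.LibSM47
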