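import Pool.Agent.LibSM47.M_W6

/-! SM47 M_W8: the lower bound in all intervals `[a,b] ⊂ [0,T]` of length at least `T^(1-δ)`. -/

set_option autoImplicit false

namespace Pool.Agent.LibSM47

open MeasureTheory Set Filter Topology Complex ProbabilityTheory
open scoped NNReal ComplexConjugate
open Pool.Agent.LibZM

private lemma w8_int (a b : ℝ) : IntervalIntegrable (fun t => ‖riemannZeta (crit t)‖ ^ 6) volume a b :=
  (continuous_zeta_crit.norm.pow 6).intervalIntegrable a b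

theorem interval_all (θ : ℝ) (hθ : 0 < θ) :
    ∃ δ T₀ : ℝ, 0 < δ ∧ ∀ T : ℝ, T₀ ≤ T → ∀ a b : ℝ, 0 ≤ a → b ≤ T → T ^ (1 - δ) ≤ b - a →
      (LibZM.Aconst 3 * (2 * (11422475801 / 241920000000000)) - θ) * (b - a) * (Real.log T) ^ 9 ≤
        ∫ t in a..b, ‖riemannZeta (crit t)‖ ^ 6 := by
  set c : ℝ := LibZM.Aconst 3 * (2 * (11422475801 / 241920000000000)) with hc
  have hc0 : 0 < c := by
    have := LibZM.Aconst_pos (κ := 3) (by norm_num)
    rw [hc]; positivity
  by_cases hcθ : c ≤ θ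
  · refine ⟨1, 1, one_pos, fun T hT a b ha hb hab => ?_⟩
    have h1 : 0 ≤ b - a := le_trans (Real.rpow_nonneg (by linarith) _) hab
    have h2 : 0 ≤ ∫ t in a..b, ‖riemannZeta (crit t)‖ ^ 6 :=
      intervalIntegral.integral_nonneg (by linarith) fun t _ => by positivity
    have h3 : 0 ≤ Real.log T := Real.log_nonneg hT
    have h4 : (c - θ) * (b - a) * (Real.log T) ^ 9 ≤ 0 := by
      have : (c - θ) * (b - a) ≤ 0 := mul_nonpos_of_nonpos_of_nonneg (by linarith) h1
      exact mul_nonpos_of_nonpos_of_nonneg this (by positivity)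
    linarith
  push Not at hcθ
  obtain ⟨r, hr⟩ : ∃ r : ℝ, r = θ / (8 * c) := ⟨_, rfl⟩
  have hr0 : 0 < r := by rw [hr]; positivity
  have hr1 : r < 1 / 8 := by
    rw [hr, div_lt_iff₀ (by positivity)]; linarith
  have hrc : r * c = θ / 8 := by rw [hr]; field_simp
  obtain ⟨δ₀, T₁, hδ0, hδ1, h⟩ := interval_bound (θ / 4) r (by positivity) hr0
  set δ : ℝ := min (δ₀ / 2) (r / 9) with hδ
  have hδpos : 0 < δ := lt_min (by positivity) (by positivity)
  have hδa : δ ≤ δ₀ / 2 := min_le_left _ _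
  have hδb : δ ≤ r / 9 := min_le_right _ _
  have hδ2 : δ ≤ 1 / 2 := by linarith
  have e1 : ∀ᶠ T : ℝ in atTop, T₁ ≤ T ^ (1 - δ) :=
    (tendsto_rpow_atTop (by linarith : (0:ℝ) < 1 - δ)).eventually_ge_atTop T₁
  have e2 : ∀ᶠ T : ℝ in atTop, (2:ℝ) ≤ T ^ (δ₀ - δ) :=
    (tendsto_rpow_atTop (by linarith : (0:ℝ) < δ₀ - δ)).eventually_ge_atTop 2
  obtain ⟨T₀, hT₀⟩ := eventually_atTop.1 ((e1.and e2).and (eventually_ge_atTop (3:ℝ)))
  refine ⟨δ, T₀, hδpos, fun T hT a b ha hb hab => ?_⟩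
  obtain ⟨⟨hA, hB⟩, hT3⟩ := hT₀ T hT
  have hTpos : 0 < T := by linarith
  have hpow : 0 < T ^ (1 - δ) := Real.rpow_pos_of_pos hTpos _
  have hab0 : 0 < b - a := lt_of_lt_of_le hpow hab
  have hbT : T ^ (1 - δ) ≤ b := by linarith
  have hb0 : 0 < b := by linarith
  set a' : ℝ := max a (r * b) with ha'
  have hb1 : a' ≤ b := max_le (by linarith) (by nlinarith)
  have hlen : (1 - r) * (b - a) ≤ b - a' := by
    rcases le_total a (r * b) with h1 | h1
    · rw [ha', max_eq_right h1]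
      nlinarith
    · rw [ha', max_eq_left h1]
      nlinarith
  have h1 : b ^ (1 - δ₀) ≤ b - a' := by
    have h2 : b ^ (1 - δ₀) ≤ T ^ (1 - δ₀) := Real.rpow_le_rpow hb0.le hb (by linarith)
    have h3 : T ^ (1 - δ) = T ^ (1 - δ₀) * T ^ (δ₀ - δ) := by
      rw [← Real.rpow_add hTpos]; congr 1; ring
    have h4 : 0 < T ^ (1 - δ₀) := Real.rpow_pos_of_pos hTpos _
    have h5 : T ^ (1 - δ₀) * 2 ≤ T ^ (1 - δ) := by
      rw [h3]; exact mul_le_mul_of_nonneg_left hB h4.le
    nlinarith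
  have h2 := h b (hA.trans hbT) a' b (le_max_right _ _) le_rfl h1
  have h3 : ∫ t in a'..b, ‖riemannZeta (crit t)‖ ^ 6 ≤ ∫ t in a..b, ‖riemannZeta (crit t)‖ ^ 6 := by
    have h4 := intervalIntegral.integral_add_adjacent_intervals (w8_int a a') (w8_int a' b)
    have h5 : 0 ≤ ∫ t in a..a', ‖riemannZeta (crit t)‖ ^ 6 :=
      intervalIntegral.integral_nonneg (le_max_left _ _) fun t _ => by positivity
    linarith
  refine le_trans ?_ (h2.trans h3)
  have hlog : (1 - δ) * Real.log T ≤ Real.log b := by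
    rw [← Real.log_rpow hTpos]
    exact Real.log_le_log hpow hbT
  have hLT : 0 < Real.log T := Real.log_pos (by linarith)
  have hl0 : 0 ≤ (1 - δ) * Real.log T := by
    apply mul_nonneg _ hLT.le; linarith
  have hlog9 : (1 - r) * (Real.log T) ^ 9 ≤ (Real.log b) ^ 9 := by
    calc (1 - r) * (Real.log T) ^ 9 ≤ (1 - δ) ^ 9 * (Real.log T) ^ 9 := by
          apply mul_le_mul_of_nonneg_right _ (by positivity)
          have := one_add_mul_le_pow (a := -δ) (by linarith) 9
          have h6 : (1 : ℝ) + ((9 : ℕ) : ℝ) * (-δ) ≤ (1 + -δ) ^ 9 := this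
          have h7 : (1 + -δ) = 1 - δ := by ring
          rw [h7] at h6
          push_cast at h6
          linarith
      _ = ((1 - δ) * Real.log T) ^ 9 := by ring
      _ ≤ _ := pow_le_pow_left₀ hl0 hlog 9
  have hcc : 0 < c - θ / 4 := by linarith
  have hkey : c - θ ≤ (c - θ / 4) * (1 - r) * (1 - r) := by
    have h8 : (1 - 2 * r) ≤ (1 - r) * (1 - r) := by nlinarith
    have h9 : (c - θ / 4) * (1 - 2 * r) ≤ (c - θ / 4) * ((1 - r) * (1 - r)) :=
      mul_le_mul_of_nonneg_left h8 hcc.le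
    have h10 : c - θ ≤ (c - θ / 4) * (1 - 2 * r) := by nlinarith
    linarith [mul_assoc (c - θ / 4) (1 - r) (1 - r)]
  calc (c - θ) * (b - a) * (Real.log T) ^ 9
      ≤ ((c - θ / 4) * (1 - r) * (1 - r)) * (b - a) * (Real.log T) ^ 9 := by
        apply mul_le_mul_of_nonneg_right _ (by positivity)
        exact mul_le_mul_of_nonneg_right hkey hab0.le
    _ = (c - θ / 4) * ((1 - r) * (b - a)) * ((1 - r) * (Real.log T) ^ 9) := by ring
    _ ≤ (c - θ / 4) * (b - a') * (Real.log b) ^ 9 := by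
        apply mul_le_mul _ hlog9
        · apply mul_nonneg _ (by positivity)
          linarith
        · apply mul_nonneg hcc.le; linarith
        · exact mul_le_mul_of_nonneg_left hlen hcc.le

end Pool.Agent.LibSM47
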