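import Pool.Agent.LibSM47.R_Defs
import Pool.Agent.LibHLP.DivBound

/-! ROW R_1 (SHORT/MEDIUM): divisor sums.

`τ(m) ≤ C m^{η/2}`: divisor bound (see Pool/Agent/LibZM/Tau.lean, or any library file of the pool with `card_divisors` bounds: grep).
`τ(m/k) ≤ τ(m)`, `k^{-1/2} ≤ 1`: first sum `≤ τ(m)²`. `φ(d) d^{-1/2} ≤ d^{1/2} ≤ m^{1/2}`: second `≤ τ(m) m^{1/2}`.
`fB m 0 = ∑ φ(d) d^{-1}`, `‖·‖ ≤ τ(m)`. -/

set_option autoImplicit false

namespace Pool.Agent.LibSM47.SR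

open MeasureTheory Set Filter Topology Complex

theorem div_sums (η : ℝ) (hη : 0 < η) : ∃ C : ℝ, 0 < C ∧ ∀ m : ℕ, 1 ≤ m →
    (∑ k ∈ m.divisors, ((m / k).divisors.card : ℝ) * (k : ℝ) ^ (-(1 / 2) : ℝ) ≤ C * (m : ℝ) ^ η) ∧
    (∑ d ∈ m.divisors, (Nat.totient d : ℝ) * (d : ℝ) ^ (-(1 / 2) : ℝ) ≤ C * (m : ℝ) ^ (1 / 2 + η)) ∧
    ‖LibPH.fB m 0‖ ≤ C * (m : ℝ) ^ η := by
  obtain ⟨C1, hC1, hd⟩ := LibHLP.exists_card_divisors_le (η / 2) (by positivity)
  refine ⟨C1 ^ 2, by positivity, fun m hm => ?_⟩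
  have hm0 : m ≠ 0 := by omega
  have hm1 : (1 : ℝ) ≤ m := by exact_mod_cast hm
  have hmp : (0 : ℝ) < m := by linarith
  have hτ := hd m hm0
  have hC1p : 0 < C1 := by linarith
  have hself : C1 ≤ C1 ^ 2 := by nlinarith
  have hmη : (m : ℝ) ^ (η / 2) ≤ (m : ℝ) ^ η :=
    Real.rpow_le_rpow_of_exponent_le hm1 (by linarith)
  have hτ2 : (m.divisors.card : ℝ) ≤ C1 ^ 2 * (m : ℝ) ^ η :=
    hτ.trans (mul_le_mul hself hmη (by positivity) (by positivity))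
  refine ⟨?_, ?_, ?_⟩
  · have h1 : ∀ k ∈ m.divisors, ((m / k).divisors.card : ℝ) * (k : ℝ) ^ (-(1 / 2) : ℝ) ≤
        m.divisors.card := by
      intro k hk
      have hk1 : (1 : ℝ) ≤ k := by exact_mod_cast Nat.pos_of_mem_divisors hk
      have h2 : ((m / k).divisors.card : ℝ) ≤ m.divisors.card := by
        exact_mod_cast Finset.card_le_card (Nat.divisors_subset_of_dvd hm0
          (Nat.div_dvd_of_dvd (Nat.dvd_of_mem_divisors hk)))
      have h3 : (k : ℝ) ^ (-(1 / 2) : ℝ) ≤ 1 :=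
        Real.rpow_le_one_of_one_le_of_nonpos hk1 (by norm_num)
      calc ((m / k).divisors.card : ℝ) * (k : ℝ) ^ (-(1 / 2) : ℝ) ≤ m.divisors.card * 1 :=
            mul_le_mul h2 h3 (by positivity) (by positivity)
        _ = _ := mul_one _
    refine (Finset.sum_le_sum h1).trans ?_
    rw [Finset.sum_const, nsmul_eq_mul]
    calc (m.divisors.card : ℝ) * m.divisors.card ≤
        (C1 * (m : ℝ) ^ (η / 2)) * (C1 * (m : ℝ) ^ (η / 2)) :=
          mul_le_mul hτ hτ (by positivity) (by positivity)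
      _ = C1 ^ 2 * ((m : ℝ) ^ (η / 2) * (m : ℝ) ^ (η / 2)) := by ring
      _ = C1 ^ 2 * (m : ℝ) ^ η := by rw [← Real.rpow_add hmp, add_halves]
  · have h1 : ∀ d ∈ m.divisors, (Nat.totient d : ℝ) * (d : ℝ) ^ (-(1 / 2) : ℝ) ≤
        (m : ℝ) ^ (1 / 2 : ℝ) := by
      intro d hdm
      have hd0 : (0 : ℝ) < d := by exact_mod_cast Nat.pos_of_mem_divisors hdm
      have h2 : (Nat.totient d : ℝ) ≤ d := by exact_mod_cast Nat.totient_le d
      have h3 : (d : ℝ) ≤ m := by exact_mod_cast Nat.divisor_le hdm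
      calc (Nat.totient d : ℝ) * (d : ℝ) ^ (-(1 / 2) : ℝ) ≤ d * (d : ℝ) ^ (-(1 / 2) : ℝ) :=
            mul_le_mul_of_nonneg_right h2 (by positivity)
        _ = (d : ℝ) ^ (1 : ℝ) * (d : ℝ) ^ (-(1 / 2) : ℝ) := by rw [Real.rpow_one]
        _ = (d : ℝ) ^ (1 / 2 : ℝ) := by
            rw [← Real.rpow_add hd0]
            norm_num
        _ ≤ (m : ℝ) ^ (1 / 2 : ℝ) := Real.rpow_le_rpow hd0.le h3 (by norm_num)
    refine (Finset.sum_le_sum h1).trans ?_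
    rw [Finset.sum_const, nsmul_eq_mul, add_comm, Real.rpow_add hmp, ← mul_assoc]
    exact mul_le_mul_of_nonneg_right hτ2 (by positivity)
  · refine le_trans ?_ hτ2
    unfold LibPH.fB
    refine (norm_sum_le _ _).trans ?_
    have h1 : ∀ d ∈ m.divisors, ‖(Nat.totient d : ℂ) * (d : ℂ) ^ (-(1 + (0 : ℂ)))‖ ≤ (1 : ℝ) := by
      intro d hdm
      have hd0 : (0 : ℝ) < d := by exact_mod_cast Nat.pos_of_mem_divisors hdm
      have h2 : (Nat.totient d : ℝ) ≤ d := by exact_mod_cast Nat.totient_le d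
      rw [add_zero, Complex.cpow_neg_one, norm_mul, norm_inv, Complex.norm_natCast,
        Complex.norm_natCast, ← div_eq_mul_inv, div_le_one hd0]
      exact h2
    refine (Finset.sum_le_sum h1).trans ?_
    rw [Finset.sum_const, nsmul_eq_mul, mul_one]

end Pool.Agent.LibSM47.SR
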