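import Pool.Agent.LibSM47.R_1
import Pool.Agent.LibPH.X05

/-! ROW R_2 (SHORT/MEDIUM): the integrals `I3`.

`I3_bound` (LibPH.X05) at `kθ`: `‖kθ‖/Re(kθ) = ‖θ‖/Re θ`, `‖kθ‖^{-1/2} = k^{-1/2} ‖θ‖^{-1/2}`; the divisor sums of R_1. Template: the second half
of the proof of `polar_eq` in Pool/Agent/LibPH/X12a.lean (`b1`, `b2`, `b3`, `e1`, `e2`, `e3`). -/

set_option autoImplicit false

namespace Pool.Agent.LibSM47.SR

open MeasureTheory Set Filter Topology Complex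
open Pool.Agent.LibPH (I3 fB)

theorem I3_sum (η : ℝ) (hη : 0 < η) : ∃ C : ℝ, 0 < C ∧ ∀ m : ℕ, 1 ≤ m → ∀ θ : ℂ, 0 < θ.re →
    ‖3 * ∑ e ∈ m.divisors, ((ArithmeticFunction.moebius e : ℤ) : ℂ) * ((m / e).divisors.card : ℂ) *
        I3 (((m * e : ℕ) : ℂ) * θ) -
      3 / m * ∑ d ∈ m.divisors, (Nat.totient d : ℂ) * I3 ((d : ℂ) * θ) + 1 / m * fB m 0 * I3 θ‖ ≤
      C * (m : ℝ) ^ (-(1 / 2) + η) * ‖θ‖ ^ (-(1 / 2) : ℝ) * (‖θ‖ / θ.re) ^ 5 := by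
  obtain ⟨C1, hC1, hd⟩ := div_sums η hη
  obtain ⟨C3, hC3, h3⟩ := LibPH.I3_bound
  refine ⟨7 * C1 * C3, by positivity, fun m hm θ hθ => ?_⟩
  obtain ⟨d1, d2, d3⟩ := hd m hm
  have hm1 : (1 : ℝ) ≤ m := by exact_mod_cast hm
  have hmp : (0 : ℝ) < m := by linarith
  have hθn : 0 < ‖θ‖ := hθ.trans_le ((le_abs_self _).trans (Complex.abs_re_le_norm θ))
  set r := ‖θ‖ / θ.re with hr
  have hr0 : 0 ≤ r := by positivity
  set B := C3 * ‖θ‖ ^ (-(1 / 2) : ℝ) * r ^ 5 with hB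
  have hB0 : 0 ≤ B := by positivity
  have hI : ∀ k : ℕ, 1 ≤ k → ‖I3 ((k : ℂ) * θ)‖ ≤ (k : ℝ) ^ (-(1 / 2) : ℝ) * B := by
    intro k hk
    have hk0 : (0 : ℝ) < k := by exact_mod_cast hk
    have hre : ((k : ℂ) * θ).re = k * θ.re := by
      rw [← Complex.ofReal_natCast, Complex.re_ofReal_mul]
    have hnorm : ‖(k : ℂ) * θ‖ = k * ‖θ‖ := by rw [norm_mul, Complex.norm_natCast]
    have h4 := (h3 ((k : ℂ) * θ) (by rw [hre]; positivity)).2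
    rw [hre, hnorm, mul_div_mul_left _ _ hk0.ne', Real.mul_rpow hk0.le hθn.le] at h4
    refine h4.trans (le_of_eq ?_)
    rw [hB]
    ring
  have e0 : (m : ℝ)⁻¹ * (m : ℝ) ^ (1 / 2 + η) = (m : ℝ) ^ (-(1 / 2) + η) := by
    rw [← Real.rpow_neg_one, ← Real.rpow_add hmp]
    congr 1
    ring
  have b1 : ‖∑ e ∈ m.divisors, ((ArithmeticFunction.moebius e : ℤ) : ℂ) *
        ((m / e).divisors.card : ℂ) * I3 (((m * e : ℕ) : ℂ) * θ)‖ ≤
      C1 * ((m : ℝ) ^ (-(1 / 2) + η) * B) := by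
    have h2 : ∀ e ∈ m.divisors, ‖((ArithmeticFunction.moebius e : ℤ) : ℂ) *
        ((m / e).divisors.card : ℂ) * I3 (((m * e : ℕ) : ℂ) * θ)‖ ≤
        (((m / e).divisors.card : ℝ) * (e : ℝ) ^ (-(1 / 2) : ℝ)) *
          ((m : ℝ) ^ (-(1 / 2) : ℝ) * B) := by
      intro e he
      have he1 : 1 ≤ e := Nat.pos_of_mem_divisors he
      have hmu : ‖((ArithmeticFunction.moebius e : ℤ) : ℂ)‖ ≤ 1 := by
        rw [Complex.norm_intCast]
        have := ArithmeticFunction.abs_moebius_le_one (n := e)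
        exact_mod_cast this
      have h5 := hI (m * e) (Nat.mul_pos hm he1)
      rw [norm_mul, norm_mul, Complex.norm_natCast]
      have h6 : ((m * e : ℕ) : ℝ) ^ (-(1 / 2) : ℝ) =
          (m : ℝ) ^ (-(1 / 2) : ℝ) * (e : ℝ) ^ (-(1 / 2) : ℝ) := by
        rw [Nat.cast_mul, Real.mul_rpow (Nat.cast_nonneg _) (Nat.cast_nonneg _)]
      rw [h6] at h5
      calc ‖((ArithmeticFunction.moebius e : ℤ) : ℂ)‖ * ((m / e).divisors.card : ℝ) *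
            ‖I3 (((m * e : ℕ) : ℂ) * θ)‖ ≤
          1 * ((m / e).divisors.card : ℝ) *
            ((m : ℝ) ^ (-(1 / 2) : ℝ) * (e : ℝ) ^ (-(1 / 2) : ℝ) * B) := by
            gcongr
        _ = _ := by ring
    refine (norm_sum_le_of_le _ h2).trans ?_
    rw [← Finset.sum_mul]
    calc _ ≤ (C1 * (m : ℝ) ^ η) * ((m : ℝ) ^ (-(1 / 2) : ℝ) * B) :=
          mul_le_mul_of_nonneg_right d1 (by positivity)
      _ = C1 * ((m : ℝ) ^ (-(1 / 2) + η) * B) := by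
          rw [Real.rpow_add hmp]
          ring
  have b2 : ‖∑ d ∈ m.divisors, (Nat.totient d : ℂ) * I3 ((d : ℂ) * θ)‖ ≤
      C1 * (m : ℝ) ^ (1 / 2 + η) * B := by
    have h2 : ∀ d ∈ m.divisors, ‖(Nat.totient d : ℂ) * I3 ((d : ℂ) * θ)‖ ≤
        (Nat.totient d * (d : ℝ) ^ (-(1 / 2) : ℝ)) * B := by
      intro d hd
      rw [norm_mul, Complex.norm_natCast, mul_assoc]
      exact mul_le_mul_of_nonneg_left (hI _ (Nat.pos_of_mem_divisors hd)) (Nat.cast_nonneg _)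
    refine (norm_sum_le_of_le _ h2).trans ?_
    rw [← Finset.sum_mul]
    exact mul_le_mul_of_nonneg_right d2 hB0
  have b3 : ‖I3 θ‖ ≤ B := by
    have := hI 1 le_rfl
    simpa using this
  have n3 : ‖(3 : ℂ)‖ = 3 := by norm_num
  have e1 : ‖3 * ∑ e ∈ m.divisors, ((ArithmeticFunction.moebius e : ℤ) : ℂ) *
        ((m / e).divisors.card : ℂ) * I3 (((m * e : ℕ) : ℂ) * θ)‖ ≤
      3 * (C1 * ((m : ℝ) ^ (-(1 / 2) + η) * B)) := by
    rw [norm_mul, n3]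
    linarith
  have e2 : ‖3 / (m : ℂ) * ∑ d ∈ m.divisors, (Nat.totient d : ℂ) * I3 ((d : ℂ) * θ)‖ ≤
      3 * (C1 * ((m : ℝ) ^ (-(1 / 2) + η) * B)) := by
    rw [norm_mul, norm_div, n3, Complex.norm_natCast]
    calc 3 / (m : ℝ) * ‖∑ d ∈ m.divisors, (Nat.totient d : ℂ) * I3 ((d : ℂ) * θ)‖ ≤
        3 / (m : ℝ) * (C1 * (m : ℝ) ^ (1 / 2 + η) * B) := mul_le_mul_of_nonneg_left b2 (by positivity)
      _ = 3 * (C1 * (((m : ℝ)⁻¹ * (m : ℝ) ^ (1 / 2 + η)) * B)) := by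
          rw [div_eq_mul_inv]
          ring
      _ = _ := by rw [e0]
  have e3 : ‖1 / (m : ℂ) * fB m 0 * I3 θ‖ ≤ C1 * ((m : ℝ) ^ (-(1 / 2) + η) * B) := by
    rw [norm_mul, norm_mul, norm_div, norm_one, Complex.norm_natCast]
    calc 1 / (m : ℝ) * ‖fB m 0‖ * ‖I3 θ‖ ≤ 1 / (m : ℝ) * (C1 * (m : ℝ) ^ η) * B := by
          gcongr
      _ = C1 * (((m : ℝ)⁻¹ * (m : ℝ) ^ η) * B) := by
          rw [one_div]
          ring
      _ ≤ C1 * (((m : ℝ)⁻¹ * (m : ℝ) ^ (1 / 2 + η)) * B) := by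
          have h7 : (m : ℝ) ^ η ≤ (m : ℝ) ^ (1 / 2 + η) :=
            Real.rpow_le_rpow_of_exponent_le hm1 (by linarith)
          gcongr
      _ = _ := by rw [e0]
  calc _ ≤ ‖3 * ∑ e ∈ m.divisors, ((ArithmeticFunction.moebius e : ℤ) : ℂ) *
        ((m / e).divisors.card : ℂ) * I3 (((m * e : ℕ) : ℂ) * θ)‖ +
        ‖3 / (m : ℂ) * ∑ d ∈ m.divisors, (Nat.totient d : ℂ) * I3 ((d : ℂ) * θ)‖ +
        ‖1 / (m : ℂ) * fB m 0 * I3 θ‖ :=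
        (norm_add_le _ _).trans (add_le_add (norm_sub_le _ _) le_rfl)
    _ ≤ 7 * (C1 * ((m : ℝ) ^ (-(1 / 2) + η) * B)) := by linarith
    _ = _ := by
        rw [hB]
        ring

end Pool.Agent.LibSM47.SR
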