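import Pool.Agent.LibSM47.R_2
import Pool.Agent.LibPH.X12a

/-! ROW R_3 (SHORT/MEDIUM): `F3` near `2πi n/m`, refined form of LibPH `polar_eq` (Pool/Agent/LibPH/X12a.lean).

Copy the proof of `polar_eq` (with LibPH's `(m, n)` replaced by `(n, m)`): `F3_shift`, `x12a_polar`, `s1`, `s2`, `s3`, `key`:
`F3(θ + 2πi n/m) - C2(..) = E3 n m θ + (the sum of R_2)`. Then `‖E3 n m θ‖ ≤ C + C m^{..}..` (hypothesis `DMain`) and R_2; `‖θ‖/θ.re ≥ 1`. -/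

set_option autoImplicit false

namespace Pool.Agent.LibSM47.SR

open MeasureTheory Set Filter Topology Complex
open Pool.Agent.LibPH (C2 G0 Hn F3)

private theorem R_3_key (n : ℕ) {m : ℕ} (hm : 1 ≤ m) {θ : ℂ} (hθ : 0 < θ.re) :
    F3 (θ + ((2 * Real.pi * n / m : ℝ) : ℂ) * I) - C2 (fun s => G0 s * Hn m s * θ ^ (-(1 + s))) =
      LibPH.E3 n m θ + (3 * ∑ e ∈ m.divisors, ((ArithmeticFunction.moebius e : ℤ) : ℂ) *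
        ((m / e).divisors.card : ℂ) * LibPH.I3 (((m * e : ℕ) : ℂ) * θ) -
      3 / m * ∑ d ∈ m.divisors, (Nat.totient d : ℂ) * LibPH.I3 ((d : ℂ) * θ) +
        1 / m * LibPH.fB m 0 * LibPH.I3 θ) := by
  have hθ0 : θ ≠ 0 := by
    intro h
    rw [h, Complex.zero_re] at hθ
    exact lt_irrefl _ hθ
  rw [LibPH.F3_shift hm hθ, LibPH.x12a_polar hm hθ0]
  have hF : ∀ k : ℕ, 1 ≤ k →
      F3 ((k : ℂ) * θ) = LibPH.I3 ((k : ℂ) * θ) + LibPH.P3 ((k : ℂ) * θ) := by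
    intro k hk
    have hk' : (1 : ℝ) ≤ k := by exact_mod_cast hk
    apply LibPH.F3_eq
    rw [← Complex.ofReal_natCast, Complex.re_ofReal_mul]
    positivity
  have s1 : ∑ e ∈ m.divisors, ((ArithmeticFunction.moebius e : ℤ) : ℂ) *
      ((m / e).divisors.card : ℂ) * F3 (((m * e : ℕ) : ℂ) * θ) =
      (∑ e ∈ m.divisors, ((ArithmeticFunction.moebius e : ℤ) : ℂ) *
      ((m / e).divisors.card : ℂ) * LibPH.I3 (((m * e : ℕ) : ℂ) * θ)) +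
      ∑ e ∈ m.divisors, ((ArithmeticFunction.moebius e : ℤ) : ℂ) *
      ((m / e).divisors.card : ℂ) * LibPH.P3 (((m * e : ℕ) : ℂ) * θ) := by
    rw [← Finset.sum_add_distrib]
    refine Finset.sum_congr rfl fun e he => ?_
    rw [hF _ (Nat.mul_pos hm (LibPH.x12a_pos he))]
    ring
  have s2 : ∑ d ∈ m.divisors, (Nat.totient d : ℂ) * F3 ((d : ℂ) * θ) =
      (∑ d ∈ m.divisors, (Nat.totient d : ℂ) * LibPH.I3 ((d : ℂ) * θ)) +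
      ∑ d ∈ m.divisors, (Nat.totient d : ℂ) * LibPH.P3 ((d : ℂ) * θ) := by
    rw [← Finset.sum_add_distrib]
    refine Finset.sum_congr rfl fun d hd => ?_
    rw [hF _ (LibPH.x12a_pos hd)]
    ring
  have s3 : F3 θ = LibPH.I3 θ + LibPH.P3 θ := LibPH.F3_eq hθ
  rw [s1, s2, s3]
  ring

theorem polar_ref (η : ℝ) (hη : 0 < η) (hD : DMain η) : ∃ C : ℝ, 0 < C ∧ ∀ m n : ℕ, 1 ≤ m → 1 ≤ n →
    Nat.Coprime n m → ∀ θ : ℂ, 0 < θ.re →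
    ‖F3 (θ + ((2 * Real.pi * n / m : ℝ) : ℂ) * I) - C2 (fun s => G0 s * Hn m s * θ ^ (-(1 + s)))‖ ≤
      C * (1 + (m : ℝ) ^ (3 / 2 + 8 * η) * √(pw m : ℝ) * (1 + ‖θ‖) ^ η + (m : ℝ) ^ (-(1 / 2) + η) * ‖θ‖ ^ (-(1 / 2) : ℝ)) *
        (‖θ‖ / θ.re) ^ 8 := by
  obtain ⟨C1, hC1, h1⟩ := hD
  obtain ⟨C3, hC3, h3⟩ := I3_sum η hη
  refine ⟨C1 + C3, by positivity, fun m n hm hn hmn θ hθ => ?_⟩
  have hr : 1 ≤ ‖θ‖ / θ.re := by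
    rw [one_le_div hθ]
    exact (le_abs_self _).trans (Complex.abs_re_le_norm θ)
  obtain ⟨C₀, hC₀, h4⟩ := h1 m n hm hn hmn
  have h5 := h4 θ hθ
  have h6 := h3 m hm θ hθ
  rw [R_3_key n hm hθ]
  obtain ⟨S, hS⟩ : ∃ S : ℂ, S = 3 * ∑ e ∈ m.divisors, ((ArithmeticFunction.moebius e : ℤ) : ℂ) *
        ((m / e).divisors.card : ℂ) * LibPH.I3 (((m * e : ℕ) : ℂ) * θ) -
      3 / m * ∑ d ∈ m.divisors, (Nat.totient d : ℂ) * LibPH.I3 ((d : ℂ) * θ) +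
        1 / m * LibPH.fB m 0 * LibPH.I3 θ := ⟨_, rfl⟩
  rw [← hS] at h6 ⊢
  obtain ⟨X, hX⟩ : ∃ X : ℝ, X = (m : ℝ) ^ (3 / 2 + 8 * η) * √(pw m : ℝ) * (1 + ‖θ‖) ^ η := ⟨_, rfl⟩
  obtain ⟨Y, hY⟩ : ∃ Y : ℝ, Y = (m : ℝ) ^ (-(1 / 2) + η) * ‖θ‖ ^ (-(1 / 2) : ℝ) := ⟨_, rfl⟩
  obtain ⟨r, hrr⟩ : ∃ r : ℝ, r = ‖θ‖ / θ.re := ⟨_, rfl⟩
  have hX0 : 0 ≤ X := by rw [hX]; positivity
  have hY0 : 0 ≤ Y := by rw [hY]; positivity
  have h5' : ‖LibPH.E3 n m θ - C₀‖ ≤ C1 * X * r ^ 8 := by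
    rw [hX, hrr]
    refine h5.trans (le_of_eq ?_)
    ring
  have h6' : ‖S‖ ≤ C3 * Y * r ^ 5 := by
    rw [hY, hrr]
    refine h6.trans (le_of_eq ?_)
    ring
  rw [← hX, ← hY, ← hrr]
  rw [← hrr] at hr
  have h7 : ‖LibPH.E3 n m θ‖ ≤ C1 + C1 * X * r ^ 8 := by
    have h8 := norm_add_le (LibPH.E3 n m θ - C₀) C₀
    rw [sub_add_cancel] at h8
    linarith
  have hr8 : 1 ≤ r ^ 8 := one_le_pow₀ hr
  have hr58 : r ^ 5 ≤ r ^ 8 := pow_le_pow_right₀ hr (by norm_num)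
  have h9 : C3 * Y * r ^ 5 ≤ C3 * Y * r ^ 8 := mul_le_mul_of_nonneg_left hr58 (by positivity)
  have h10 : C1 * 1 ≤ C1 * r ^ 8 := mul_le_mul_of_nonneg_left hr8 hC1.le
  have h11 : 0 ≤ C1 * Y * r ^ 8 := by positivity
  have h12 : 0 ≤ C3 * r ^ 8 := by positivity
  have h13 : 0 ≤ C3 * X * r ^ 8 := by positivity
  calc ‖LibPH.E3 n m θ + S‖ ≤ ‖LibPH.E3 n m θ‖ + ‖S‖ := norm_add_le _ _
    _ ≤ (C1 * r ^ 8 + C1 * X * r ^ 8) + C3 * Y * r ^ 8 := by linarith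
    _ ≤ (C1 + C3) * (1 + X + Y) * r ^ 8 := by
        have : (C1 + C3) * (1 + X + Y) * r ^ 8 = (C1 * r ^ 8 + C1 * X * r ^ 8) + C3 * Y * r ^ 8 +
          (C1 * Y * r ^ 8 + C3 * r ^ 8 + C3 * X * r ^ 8) := by ring
        rw [this]
        linarith

end Pool.Agent.LibSM47.SR
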