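import Pool.Agent.LibSM47.R_3
import Pool.Agent.LibPH.X12

/-! ROW R_4 (SHORT/MEDIUM): the same at `θ = th n m w`. Template: `x13_F` in Pool/Agent/LibPH/X13.lean.

`zw n m w = th n m w + 2πi n/m`; `th_bd` (LibPH.X12): `(n/m) w.re ≤ θ.re`, `‖θ‖ ≤ 10 (n/m) ‖w‖`, so `‖θ‖/θ.re ≤ 10 ‖w‖/w.re`,
`(1+‖θ‖)^η ≤ (1 + 5 n/m)^η ≤ 5 (1 + n/m)^η`, `‖θ‖^{-1/2} ≤ θ.re^{-1/2} ≤ ((n/m) w.re)^{-1/2} = √(m/n) w.re^{-1/2}`. -/

set_option autoImplicit false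

namespace Pool.Agent.LibSM47.SR

open MeasureTheory Set Filter Topology Complex
open Pool.Agent.LibPH (C2 G0 Hn F3 zw th)

theorem F_part (η : ℝ) (hη : 0 < η) (hη1 : η ≤ 1) (hD : DMain η) : ∃ C : ℝ, 0 < C ∧ ∀ m n : ℕ, 1 ≤ m → 1 ≤ n →
    Nat.Coprime n m → ∀ w : ℂ, 0 < w.re → ‖w‖ ≤ 1 / 2 →
    ‖F3 (zw n m w) - C2 (fun s => G0 s * Hn m s * (th n m w) ^ (-(1 + s)))‖ ≤
      C * (1 + (m : ℝ) ^ (3 / 2 + 8 * η) * √(pw m : ℝ) * (1 + (n : ℝ) / m) ^ η +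
        (m : ℝ) ^ (-(1 / 2) + η) * (√((m : ℝ) / n) * w.re ^ (-(1 / 2) : ℝ))) * (‖w‖ / w.re) ^ 8 := by
  obtain ⟨C1, hC1, hF⟩ := polar_ref η hη hD
  refine ⟨5 * 10 ^ 8 * C1, by positivity, fun m n hm hn hcop w h0 h1 => ?_⟩
  have hm' : (1:ℝ) ≤ m := by exact_mod_cast hm
  have hn' : (1:ℝ) ≤ n := by exact_mod_cast hn
  have hwre : w.re ≤ ‖w‖ := Complex.re_le_norm w
  have hw0 : 0 < ‖w‖ := lt_of_lt_of_le h0 hwre
  obtain ⟨ht1, ht2, -⟩ := LibPH.th_bd hn hm h0 h1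
  have hq : 0 < (n:ℝ) / m := by positivity
  have hqw : 0 < (n:ℝ) / m * w.re := by positivity
  have htre : 0 < (th n m w).re := by linarith
  have hzth : th n m w + ((2 * Real.pi * n / m : ℝ) : ℂ) * I = zw n m w := by
    unfold th
    ring
  have hF' := hF m n hm hn hcop (th n m w) htre
  rw [hzth] at hF'
  refine hF'.trans ?_
  clear hF' hzth
  have hnn : (th n m w).re ≤ ‖th n m w‖ := Complex.re_le_norm _
  have h2 : ‖th n m w‖ / (th n m w).re ≤ 10 * (‖w‖ / w.re) := by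
    rw [div_le_iff₀ htre]
    calc ‖th n m w‖ ≤ 10 * ((n:ℝ) / m) * ‖w‖ := ht2
      _ = 10 * (‖w‖ / w.re) * ((n:ℝ) / m * w.re) := by field_simp
      _ ≤ 10 * (‖w‖ / w.re) * (th n m w).re := by
          apply mul_le_mul_of_nonneg_left ht1
          positivity
  have h3 : (1 + ‖th n m w‖) ^ η ≤ 5 * (1 + (n : ℝ) / m) ^ η := by
    have h4 : 1 + ‖th n m w‖ ≤ 5 * (1 + (n : ℝ) / m) := by
      have h5 : 10 * ((n:ℝ) / m) * ‖w‖ ≤ 10 * ((n:ℝ) / m) * (1 / 2) :=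
        mul_le_mul_of_nonneg_left h1 (by positivity)
      linarith
    calc (1 + ‖th n m w‖) ^ η ≤ (5 * (1 + (n : ℝ) / m)) ^ η :=
          Real.rpow_le_rpow (by positivity) h4 hη.le
      _ = (5:ℝ) ^ η * (1 + (n : ℝ) / m) ^ η := Real.mul_rpow (by norm_num) (by positivity)
      _ ≤ (5:ℝ) ^ (1:ℝ) * (1 + (n : ℝ) / m) ^ η := by
          apply mul_le_mul_of_nonneg_right _ (by positivity)
          exact Real.rpow_le_rpow_of_exponent_le (by norm_num) hη1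
      _ = 5 * (1 + (n : ℝ) / m) ^ η := by rw [Real.rpow_one]
  have h6 : ‖th n m w‖ ^ (-(1 / 2) : ℝ) ≤ √((m : ℝ) / n) * w.re ^ (-(1 / 2) : ℝ) := by
    calc ‖th n m w‖ ^ (-(1 / 2) : ℝ) ≤ ((n:ℝ) / m * w.re) ^ (-(1 / 2) : ℝ) :=
          Real.rpow_le_rpow_of_nonpos hqw (ht1.trans hnn) (by norm_num)
      _ = ((n:ℝ) / m) ^ (-(1 / 2) : ℝ) * w.re ^ (-(1 / 2) : ℝ) := Real.mul_rpow hq.le h0.le
      _ = √((m : ℝ) / n) * w.re ^ (-(1 / 2) : ℝ) := by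
          rw [Real.rpow_neg hq.le, ← Real.inv_rpow hq.le, inv_div, Real.sqrt_eq_rpow]
  have hq0 : 0 ≤ ‖th n m w‖ / (th n m w).re := by positivity
  have h7 : (‖th n m w‖ / (th n m w).re) ^ 8 ≤ 10 ^ 8 * (‖w‖ / w.re) ^ 8 := by
    calc (‖th n m w‖ / (th n m w).re) ^ 8 ≤ (10 * (‖w‖ / w.re)) ^ 8 := pow_le_pow_left₀ hq0 h2 8
      _ = _ := by ring
  have hM : 0 ≤ (m : ℝ) ^ (3 / 2 + 8 * η) * √(pw m : ℝ) := by positivity
  have hM2 : 0 ≤ (m : ℝ) ^ (-(1 / 2) + η) := by positivity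
  have hU : 0 ≤ √((m : ℝ) / n) * w.re ^ (-(1 / 2) : ℝ) := by positivity
  have hV : 0 ≤ (1 + (n : ℝ) / m) ^ η := by positivity
  have hr8 : 0 ≤ (‖w‖ / w.re) ^ 8 := by positivity
  have hs8 : 0 ≤ (‖th n m w‖ / (th n m w).re) ^ 8 := by positivity
  generalize (m : ℝ) ^ (3 / 2 + 8 * η) * √(pw m : ℝ) = M at *
  generalize (m : ℝ) ^ (-(1 / 2) + η) = M2 at *
  generalize √((m : ℝ) / n) * w.re ^ (-(1 / 2) : ℝ) = U at *
  generalize (1 + (n : ℝ) / m) ^ η = V at *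
  generalize (‖w‖ / w.re) ^ 8 = R at *
  generalize (‖th n m w‖ / (th n m w).re) ^ 8 = S at *
  generalize (1 + ‖th n m w‖) ^ η = V' at *
  generalize ‖th n m w‖ ^ (-(1 / 2) : ℝ) = U' at *
  have h8 : 1 + M * V' + M2 * U' ≤ 5 * (1 + M * V + M2 * U) := by
    have h9 : M * V' ≤ M * (5 * V) := mul_le_mul_of_nonneg_left h3 hM
    have h10 : M2 * U' ≤ M2 * U := mul_le_mul_of_nonneg_left h6 hM2
    have h11 : 0 ≤ M2 * U := mul_nonneg hM2 hU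
    linarith
  have h12 : 0 ≤ 1 + M * V + M2 * U := by positivity
  calc C1 * (1 + M * V' + M2 * U') * S ≤ C1 * (5 * (1 + M * V + M2 * U)) * (10 ^ 8 * R) := by
        refine mul_le_mul (mul_le_mul_of_nonneg_left h8 hC1.le) h7 hs8 (by positivity)
    _ = 5 * 10 ^ 8 * C1 * (1 + M * V + M2 * U) * R := by ring

end Pool.Agent.LibSM47.SR
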