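import Pool.Agent.LibSM47.Defs

/-! # Refined form of LibPH.exp21 (board SM47-R, helper29). Convention of LibSM47: `m` = modulus, `n` = numerator; in LibPH's notation the
arguments come in the order `tw n m`, `th n m`, `zw n m`, `E3 n m`, `Hn m`, `kk n m`. -/

set_option autoImplicit false

namespace Pool.Agent.LibSM47.SR

open MeasureTheory Set Filter Topology Complex

/-- The statement `D_main` for one `η` (proved in section D, used here as a hypothesis). -/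
def DMain (η : ℝ) : Prop := ∃ C : ℝ, 0 < C ∧ ∀ m n : ℕ, 1 ≤ m → 1 ≤ n → Nat.Coprime n m →
    ∃ C₀ : ℂ, ‖C₀‖ ≤ C ∧ ∀ θ : ℂ, 0 < θ.re →
      ‖LibPH.E3 n m θ - C₀‖ ≤ C * (m : ℝ) ^ (3 / 2 + 8 * η) * √(pw m : ℝ) * (1 + ‖θ‖) ^ η * (‖θ‖ / θ.re) ^ 8

/-- The statement `Hn_refined` for one `η` (helper74, used here as a hypothesis). -/
def HnRef (η : ℝ) : Prop := ∃ C : ℝ, 0 < C ∧ ∀ m : ℕ, 1 ≤ m → ∀ s : ℂ, ‖s‖ ≤ 1 / 4 →
    ‖LibPH.Hn m s‖ ≤ C * (m : ℝ) ^ (-1 + 2 * ‖s‖ + η)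

end Pool.Agent.LibSM47.SR
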