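import Pool.Agent.LibSM47.X_Defs


set_option autoImplicit false

namespace Pool.Agent.LibSM47.XL

open MeasureTheory Set Filter Topology Complex ProbabilityTheory
open scoped NNReal ComplexConjugate
open Pool.Agent.LibZM

/-- `XX t = 2 (2π)^{-s} Γ(s) cos(πs/2)` (`LibZM.Xfac`), `s = crit t = 1/2+it`; `ch ρ (-t) = exp(-i t log ρ)`;
`2 cos(πs/2) = e^{iπs/2} + e^{-iπs/2}`; `(2π)^{-s} ρ^{-it} = √ρ exp(-s log(2πρ))`; `conj (crit (-t)) = crit t`, `Complex.Gamma_conj`. -/
theorem XX_split (ρ t : ℝ) (hρ : 0 < ρ) :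
    XX t * ch ρ (-t) = ((√ρ : ℝ) : ℂ) * (AA ρ t + conj (AA ρ (-t))) := by
  have h2pi : (0 : ℝ) < 2 * Real.pi := by positivity
  have hs : conj (crit (-t)) = crit t := by
    unfold crit
    apply Complex.ext <;> simp
  have hG : conj (Complex.Gamma (crit (-t))) = Complex.Gamma (crit t) := by
    rw [← Complex.Gamma_conj, hs]
  have hA : conj (AA ρ (-t)) = Complex.Gamma (crit t) *
      cexp (-(crit t * ((Real.log (2 * Real.pi * ρ) : ℝ) - (Real.pi / 2 : ℝ) * I))) := by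
    unfold AA
    rw [map_mul, hG, ← Complex.exp_conj, map_neg, map_mul, hs, map_add, map_mul,
      Complex.conj_ofReal, Complex.conj_ofReal, Complex.conj_I, mul_neg, ← sub_eq_add_neg]
  have h1 : (2 * (Real.pi : ℂ)) ^ (-(crit t)) = cexp (-(crit t * (Real.log (2 * Real.pi) : ℝ))) := by
    have h2 : (2 * (Real.pi : ℂ)) = ((2 * Real.pi : ℝ) : ℂ) := by push_cast; ring
    rw [h2, Complex.cpow_def_of_ne_zero (by exact_mod_cast h2pi.ne'), ← Complex.ofReal_log h2pi.le]
    congr 1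
    ring
  have h3 : ((√ρ : ℝ) : ℂ) = cexp ((Real.log ρ : ℝ) / 2) := by
    have h4 : √ρ = Real.exp (Real.log ρ / 2) := by
      rw [Real.exp_half, Real.exp_log hρ]
    rw [h4]
    push_cast
    rfl
  have h5 : Real.log (2 * Real.pi * ρ) = Real.log (2 * Real.pi) + Real.log ρ :=
    Real.log_mul h2pi.ne' hρ.ne'
  rw [hA]
  unfold XX Xfac ch AA
  rw [h1, h3, h5, Complex.cos]
  have hc : crit t = 1 / 2 + (t : ℂ) * I := rfl
  have k1 : cexp ((Real.log ρ : ℝ) / 2) *
      cexp (-(crit t * (((Real.log (2 * Real.pi) + Real.log ρ : ℝ) : ℂ) + (Real.pi / 2 : ℝ) * I))) =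
      cexp (-(crit t * (Real.log (2 * Real.pi) : ℝ))) * cexp (((-t : ℝ) : ℂ) * (Real.log ρ : ℝ) * I) *
        cexp (-(Real.pi * crit t / 2) * I) := by
    rw [← Complex.exp_add, ← Complex.exp_add, ← Complex.exp_add]
    congr 1
    rw [hc]
    push_cast
    ring
  have k2 : cexp ((Real.log ρ : ℝ) / 2) *
      cexp (-(crit t * (((Real.log (2 * Real.pi) + Real.log ρ : ℝ) : ℂ) - (Real.pi / 2 : ℝ) * I))) =
      cexp (-(crit t * (Real.log (2 * Real.pi) : ℝ))) * cexp (((-t : ℝ) : ℂ) * (Real.log ρ : ℝ) * I) *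
        cexp (Real.pi * crit t / 2 * I) := by
    rw [← Complex.exp_add, ← Complex.exp_add, ← Complex.exp_add]
    congr 1
    rw [hc]
    push_cast
    ring
  linear_combination (-Complex.Gamma (crit t)) * k1 - Complex.Gamma (crit t) * k2

end Pool.Agent.LibSM47.XL
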