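import Pool.Agent.LibSM47.X_Defs


set_option autoImplicit false

namespace Pool.Agent.LibSM47.XL

open MeasureTheory Set Filter Topology Complex ProbabilityTheory
open scoped NNReal ComplexConjugate
open Pool.Agent.LibZM

/-- `0 < Re z`. -/
theorem zz_re_pos (ρ β : ℝ) (hρ : 0 < ρ) (hβ : 0 < β) (hβ1 : β ≤ 1) : 0 < (zz ρ β).re := by
  have h1 : (zz ρ β).re = 2 * Real.pi * ρ * Real.sin β := by
    unfold zz
    rw [Complex.re_ofReal_mul, Complex.add_re, Complex.ofReal_re, Complex.re_ofReal_mul,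
      Complex.I_re, mul_zero, add_zero]
  rw [h1]
  have h2 : 0 < Real.sin β := Real.sin_pos_of_pos_of_lt_pi hβ (by linarith [Real.pi_gt_three])
  have h3 := Real.pi_pos
  positivity

private theorem X_2_log (ρ β : ℝ) (hρ : 0 < ρ) (hβ : 0 < β) (hβ1 : β ≤ 1) :
    Complex.log (zz ρ β) = (Real.log (2 * Real.pi * ρ) : ℝ) + ((Real.pi / 2 - β : ℝ) : ℂ) * I := by
  have hp : (0 : ℝ) < 2 * Real.pi * ρ := by positivity
  have h1 : zz ρ β = cexp ((Real.log (2 * Real.pi * ρ) : ℝ) + ((Real.pi / 2 - β : ℝ) : ℂ) * I) := by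
    unfold zz
    rw [Complex.exp_add, ← Complex.ofReal_exp, Real.exp_log hp, Complex.exp_mul_I,
      ← Complex.ofReal_cos, ← Complex.ofReal_sin, Real.cos_pi_div_two_sub, Real.sin_pi_div_two_sub]
  rw [h1, Complex.log_exp]
  · simp
    linarith [Real.pi_gt_three]
  · simp
    linarith [Real.pi_gt_three]

/-- `LibPH.x02_eq` with `p = zz ρ β` (there `(1/p)^s Γ(s)`; `LibPH.x02_inv_cpow`); `log (zz ρ β) = log(2πρ) + i(π/2-β)` because
`sin β + i cos β = exp(i(π/2-β))`; `exp(-isβ) = exp(-iβ/2) exp(βt)`. -/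
theorem AA_rep (ρ β t : ℝ) (hρ : 0 < ρ) (hβ : 0 < β) (hβ1 : β ≤ 1) :
    AA ρ t = cexp (-(β * I / 2)) * (Real.exp (β * t) : ℝ) *
      ∫ x in Ioi (0 : ℝ), (x : ℂ) ^ (crit t - 1) * cexp (-(zz ρ β * x)) := by
  have hz := zz_re_pos ρ β hρ hβ hβ1
  have hz0 : zz ρ β ≠ 0 := by
    intro h
    rw [h] at hz
    simp at hz
  rw [LibPH.x02_eq (by rw [crit_re]; norm_num) hz, LibPH.x02_inv_cpow hz,
    Complex.cpow_def_of_ne_zero hz0, X_2_log ρ β hρ hβ hβ1]
  unfold AA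
  have hc : crit t = 1 / 2 + (t : ℂ) * I := rfl
  have k1 : cexp (-(β * I / 2)) * (Real.exp (β * t) : ℝ) *
      cexp (((Real.log (2 * Real.pi * ρ) : ℝ) + ((Real.pi / 2 - β : ℝ) : ℂ) * I) * -crit t) =
      cexp (-(crit t * ((Real.log (2 * Real.pi * ρ) : ℝ) + (Real.pi / 2 : ℝ) * I))) := by
    rw [Complex.ofReal_exp, ← Complex.exp_add, ← Complex.exp_add]
    congr 1
    rw [hc]
    push_cast
    linear_combination ((β : ℂ) * t) * Complex.I_sq
  linear_combination (-Complex.Gamma (crit t)) * k1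

/-- Consequence: `A` grows at most exponentially (bound the integral by `∫ x^{-1/2} e^{-x Re z} dx`). -/
theorem AA_bound (ρ β : ℝ) (hρ : 0 < ρ) (hβ : 0 < β) (hβ1 : β ≤ 1) :
    ∃ C : ℝ, 0 < C ∧ ∀ t : ℝ, ‖AA ρ t‖ ≤ C * Real.exp (β * t) := by
  have hz := zz_re_pos ρ β hρ hβ hβ1
  refine ⟨(∫ x in Ioi (0 : ℝ), x ^ ((1 / 2 : ℝ) - 1) * Real.exp (-((zz ρ β).re * x))) + 1, ?_, fun t => ?_⟩
  · have h1 : 0 ≤ ∫ x in Ioi (0 : ℝ), x ^ ((1 / 2 : ℝ) - 1) * Real.exp (-((zz ρ β).re * x)) := by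
      refine setIntegral_nonneg measurableSet_Ioi fun x hx => ?_
      have hx' : (0 : ℝ) < x := hx
      positivity
    linarith
  · rw [AA_rep ρ β t hρ hβ hβ1, norm_mul, norm_mul]
    have h2 : ‖cexp (-(β * I / 2))‖ = 1 := by
      rw [Complex.norm_exp]
      simp
    have h3 : ‖((Real.exp (β * t) : ℝ) : ℂ)‖ = Real.exp (β * t) := by
      rw [Complex.norm_real, Real.norm_of_nonneg (Real.exp_pos _).le]
    rw [h2, h3, one_mul, mul_comm]
    refine mul_le_mul_of_nonneg_right ?_ (Real.exp_pos _).le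
    have h4 : ‖∫ x in Ioi (0 : ℝ), (x : ℂ) ^ (crit t - 1) * cexp (-(zz ρ β * x))‖ ≤
        ∫ x in Ioi (0 : ℝ), x ^ ((1 / 2 : ℝ) - 1) * Real.exp (-((zz ρ β).re * x)) := by
      refine (norm_integral_le_integral_norm _).trans (le_of_eq ?_)
      refine setIntegral_congr_fun measurableSet_Ioi fun x hx => ?_
      have h5 := LibPH.x02_norm (crit t) (zz ρ β) (show (0 : ℝ) < x from hx)
      rw [crit_re] at h5
      exact h5
    linarith

end Pool.Agent.LibSM47.XL
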