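import Pool.Agent.LibSM47.X_Defs
import Pool.Agent.LibSM47.X_2

set_option autoImplicit false

namespace Pool.Agent.LibSM47.XL

open MeasureTheory Set Filter Topology Complex ProbabilityTheory
open scoped NNReal ComplexConjugate
open Pool.Agent.LibZM

private theorem X_3_gint (b : ℝ) (hb : 0 < b) : Integrable (fun v : ℝ => Real.exp (v / 2 - b * Real.exp v)) := by
  have h1 : IntegrableOn (fun x : ℝ => x ^ (-(1 / 2) : ℝ) * Real.exp (-b * x ^ (1 : ℝ))) (Ioi 0) :=
    integrableOn_rpow_mul_exp_neg_mul_rpow (by norm_num) (by norm_num) hb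
  have him : Real.exp '' univ = Ioi 0 := by rw [image_univ, Real.range_exp]
  rw [← him, integrableOn_image_iff_integrableOn_abs_deriv_smul MeasurableSet.univ
    (fun x _ => (Real.hasDerivAt_exp x).hasDerivWithinAt) Real.exp_injective.injOn, integrableOn_univ] at h1
  refine h1.congr (ae_of_all _ fun v => ?_)
  simp only [smul_eq_mul]
  rw [abs_of_pos (Real.exp_pos v), Real.rpow_one, ← Real.exp_mul, ← Real.exp_add, ← Real.exp_add]
  congr 1
  ring

private theorem X_3_sub (t : ℝ) (z : ℂ) :
    ∫ x in Ioi (0 : ℝ), (x : ℂ) ^ (crit t - 1) * cexp (-(z * x)) =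
      ∫ v : ℝ, cexp ((v : ℂ) / 2 + t * v * I - z * (Real.exp v : ℝ)) := by
  have him : Real.exp '' univ = Ioi 0 := by rw [image_univ, Real.range_exp]
  rw [← him, integral_image_eq_integral_abs_deriv_smul MeasurableSet.univ
    (fun x _ => (Real.hasDerivAt_exp x).hasDerivWithinAt) Real.exp_injective.injOn, setIntegral_univ]
  refine integral_congr_ae (ae_of_all _ fun v => ?_)
  simp only []
  rw [abs_of_pos (Real.exp_pos v), Complex.real_smul, Complex.ofReal_exp, ← Complex.ofReal_exp,
    Complex.cpow_def_of_ne_zero (by exact_mod_cast (Real.exp_pos v).ne'), ← Complex.ofReal_log (Real.exp_pos v).le,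
    Real.log_exp, ← Complex.exp_add]
  rw [Complex.ofReal_exp, ← Complex.exp_add]
  congr 1
  unfold crit
  ring

/-- Fubini and the complex mgf of the Gaussian law (`ProbabilityTheory.complexMGF_id_gaussianReal`:
`∫ e^{(β + i log x) t} dγ = exp(u(β+i log x) + V²(β+i log x)²/2)`), then `x = e^v`
(`integral_comp_mul_deriv..`/`integral_image_eq_integral_abs_deriv_smul` for `Real.exp`, or `Real.expOrderIso`; the team has
`∫ x in Ioi 0, g (log x) / x`-type lemmas: `integral_exp_...`); `x^{-1/2} dx = e^{v/2} dv`. Integrability of `AA` from `AA_bound`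
and measurability (continuity of `Γ` on the line). -/
theorem AA_int (ρ β V u : ℝ) (hρ : 0 < ρ) (hβ : 0 < β) (hβ1 : β ≤ 1) (hV : 0 < V) :
    Integrable (AA ρ) (gam V u) ∧
    ∫ t, AA ρ t ∂(gam V u) =
      cexp (-(β * I / 2) + u * β + (V : ℂ) ^ 2 * (β : ℂ) ^ 2 / 2) * KK V (u + V ^ 2 * β) (zz ρ β) := by
  haveI : IsProbabilityMeasure (gam V u) := by
    unfold gam
    infer_instance
  set z := zz ρ β with hzd
  have hz : 0 < z.re := zz_re_pos ρ β hρ hβ hβ1
  set F : ℝ → ℝ → ℂ := fun t v => cexp (β * t) * cexp ((v : ℂ) / 2 + t * v * I - z * (Real.exp v : ℝ)) with hF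
  have hg := X_3_gint z.re hz
  have hf : Integrable (fun t : ℝ => Real.exp (β * t)) (gam V u) := integrable_exp_mul_gaussianReal β
  have hFc : Continuous (Function.uncurry F) := by
    rw [hF]
    unfold Function.uncurry
    fun_prop
  have hFi : Integrable (Function.uncurry F) ((gam V u).prod volume) := by
    refine Integrable.mono' (hf.mul_prod hg) hFc.aestronglyMeasurable (ae_of_all _ fun q => le_of_eq ?_)
    rw [hF]
    simp only [Function.uncurry]
    rw [norm_mul, Complex.norm_exp, Complex.norm_exp]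
    congr 2
    · simp
    · simp [Complex.mul_re]
      exact Or.inl (Complex.exp_ofReal_re q.2)
  have hrep : ∀ t, AA ρ t = cexp (-(β * I / 2)) * ∫ v, F t v := by
    intro t
    rw [AA_rep ρ β t hρ hβ hβ1, ← hzd, X_3_sub, hF]
    simp only []
    rw [integral_const_mul, Complex.ofReal_exp, Complex.ofReal_mul, mul_assoc]
  refine ⟨?_, ?_⟩
  · exact (hFi.integral_prod_left.const_mul (cexp (-(β * I / 2)))).congr (ae_of_all _ fun t => (hrep t).symm)
  · rw [integral_congr_ae (ae_of_all _ hrep), integral_const_mul, integral_integral_swap hFi]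
    have hin : ∀ v : ℝ, ∫ t, F t v ∂(gam V u) = cexp (u * β + (V : ℂ) ^ 2 * (β : ℂ) ^ 2 / 2) *
        cexp ((v : ℂ) / 2 - z * (Real.exp v : ℝ) + ((u + V ^ 2 * β : ℝ) : ℂ) * I * v -
          (V : ℂ) ^ 2 * (v : ℂ) ^ 2 / 2) := by
      intro v
      have e : ∀ t : ℝ, F t v = cexp ((v : ℂ) / 2 - z * (Real.exp v : ℝ)) * cexp (((β : ℂ) + v * I) * id t) := by
        intro t
        rw [hF]
        simp only [id]
        rw [← Complex.exp_add, ← Complex.exp_add]
        congr 1
        ring
      rw [integral_congr_ae (ae_of_all _ e), integral_const_mul]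
      obtain ⟨w, hw, hw2⟩ : ∃ w : ℝ≥0, (w : ℝ) = V ^ 2 ∧ gam V u = gaussianReal u w :=
        ⟨⟨V ^ 2, sq_nonneg V⟩, rfl, rfl⟩
      have hm := complexMGF_id_gaussianReal (μ := u) (v := w) ((β : ℂ) + v * I)
      unfold complexMGF at hm
      rw [hw2, hm, ← Complex.exp_add, ← Complex.exp_add]
      congr 1
      have e2 : ((w : ℝ) : ℂ) = (V : ℂ) ^ 2 := by
        rw [hw]; push_cast; rfl
      rw [e2]
      push_cast
      ring_nf
      rw [Complex.I_sq]
      ring
    rw [integral_congr_ae (ae_of_all _ hin), integral_const_mul, ← mul_assoc, ← Complex.exp_add]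
    unfold KK
    congr 2
    ring

end Pool.Agent.LibSM47.XL
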