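import Pool.Agent.LibSM47.X_Defs


set_option autoImplicit false

namespace Pool.Agent.LibSM47.XL

open MeasureTheory Set Filter Topology Complex ProbabilityTheory
open scoped NNReal ComplexConjugate
open Pool.Agent.LibZM

private theorem X_4_exp (w : ℂ) (hw : 0 ≤ w.re) : ‖cexp (-w) - 1‖ ≤ ‖w‖ := by
  have h := (convex_halfSpace_re_le (0 : ℝ)).norm_image_sub_le_of_norm_deriv_le (𝕜 := ℂ) (f := cexp) (C := 1)
    (x := 0) (y := -w) (fun x _ => Complex.differentiableAt_exp)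
    (fun x hx => by
      rw [Complex.deriv_exp, Complex.norm_exp]
      exact Real.exp_le_one_iff.2 hx)
    (by simp) (by simpa using hw)
  simpa using h

private theorem X_4_delta (v : ℝ) : 0 ≤ Real.exp v - 1 - v ∧ Real.exp v - 1 - v ≤ v ^ 2 * Real.exp |v| := by
  refine ⟨by linarith [Real.add_one_le_exp v], ?_⟩
  have h := Complex.norm_exp_sub_sum_le_norm_mul_exp (v : ℂ) 2
  have e : cexp (v : ℂ) - ∑ m ∈ Finset.range 2, (v : ℂ) ^ m / (m.factorial : ℂ) = ((Real.exp v - 1 - v : ℝ) : ℂ) := by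
    rw [Finset.sum_range_succ, Finset.sum_range_one]
    push_cast
    simp
    ring
  rw [e, Complex.norm_real, Complex.norm_real, Real.norm_eq_abs, Real.norm_eq_abs, sq_abs] at h
  exact (le_abs_self _).trans h

private theorem X_4_w (w : ℝ) : w * Real.exp (-w) ≤ Real.exp (-1) := by
  have h := Real.add_one_le_exp (w - 1)
  have h2 : w ≤ Real.exp (w - 1) := by linarith
  calc w * Real.exp (-w) ≤ Real.exp (w - 1) * Real.exp (-w) :=
        mul_le_mul_of_nonneg_right h2 (Real.exp_pos _).le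
    _ = Real.exp (-1) := by rw [← Real.exp_add]; congr 1; ring

/-- `3|v| ≤ V²v²/4 + 9/V²`. -/
private theorem X_4_amgm (V v : ℝ) (hV : 10 ≤ V) : 3 * |v| ≤ V ^ 2 * v ^ 2 / 4 + 9 / 100 := by
  have h1 : 0 ≤ (V * |v| / 2 - 3 / V) ^ 2 := sq_nonneg _
  have hV0 : V ≠ 0 := by linarith
  have h2 : (V * |v| / 2 - 3 / V) ^ 2 = V ^ 2 * v ^ 2 / 4 - 3 * |v| + 9 / V ^ 2 := by
    rw [← sq_abs v]
    field_simp
    ring
  have h3 : 9 / V ^ 2 ≤ 9 / 100 := by
    apply div_le_div_of_nonneg_left (by norm_num) (by norm_num)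
    nlinarith
  linarith

/-- Only Mathlib. Pointwise: `|e^a - e^b| ≤ |a-b| max(|e^a|,|e^b|)` with `a = -z e^v`, `b = -z(1+v)`, `|e^v-1-v| ≤ v²/2 e^{|v|}`,
`|e^a| ≤ 1`, `|e^b| ≤ e^{|v|}`: the difference of the integrands is `≤ |z| (v²/2) e^{3|v|} e^{-V²v²/2} ≤ 0.6 |z| v² e^{-V²v²/4}`
(`3|v| ≤ V²v²/4 + 9/V²`), and `∫ v² e^{-V²v²/4} dv = 4√π/V³`. Both integrands are integrable. -/
theorem KK_diff (V c : ℝ) (z : ℂ) (hV : 10 ≤ V) (hz : 0 ≤ z.re) (hz1 : z.re ≤ 1) :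
    ‖KK V c z - KL V c z‖ ≤ 20 * ‖z‖ / V ^ 3 := by
  have hV0 : 0 < V := by linarith
  have hz2 : ∀ v : ℝ, -(z.re * (1 + v)) ≤ |v| := by
    intro v
    rcases abs_cases v with ⟨h, h'⟩ | ⟨h, h'⟩
    · rw [h]
      nlinarith
    · rw [h]
      nlinarith [mul_nonneg hz (by linarith : 0 ≤ -v)]
  set Kf : ℝ → ℂ := fun v => cexp ((v : ℂ) / 2 - z * (Real.exp v : ℝ) + c * I * v - (V : ℂ) ^ 2 * (v : ℂ) ^ 2 / 2) with hK
  set Lf : ℝ → ℂ := fun v => cexp ((v : ℂ) / 2 - z * (1 + v) + c * I * v - (V : ℂ) ^ 2 * (v : ℂ) ^ 2 / 2) with hL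
  have hKn : ∀ v, ‖Kf v‖ = Real.exp (v / 2 - z.re * Real.exp v - V ^ 2 * v ^ 2 / 2) := by
    intro v
    rw [hK]
    simp only []
    rw [Complex.norm_exp]
    congr 1
    have e1 : (z * ((Real.exp v : ℝ) : ℂ)).re = z.re * Real.exp v := Complex.re_mul_ofReal _ _
    have e2 : ((V : ℂ) ^ 2 * (v : ℂ) ^ 2 / 2) = ((V ^ 2 * v ^ 2 / 2 : ℝ) : ℂ) := by push_cast; ring
    have e3 : ((c : ℂ) * I * v).re = 0 := by simp
    have e4 : ((v : ℂ) / 2) = ((v / 2 : ℝ) : ℂ) := by push_cast; ring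
    rw [Complex.sub_re, Complex.add_re, Complex.sub_re, e1, e2, e3, e4, Complex.ofReal_re, Complex.ofReal_re]
    ring
  have hLn : ∀ v, ‖Lf v‖ = Real.exp (v / 2 - z.re * (1 + v) - V ^ 2 * v ^ 2 / 2) := by
    intro v
    rw [hL]
    simp only []
    rw [Complex.norm_exp]
    congr 1
    have e1 : (z * (1 + (v : ℂ))).re = z.re * (1 + v) := by
      have : (1 + (v : ℂ)) = ((1 + v : ℝ) : ℂ) := by push_cast; ring
      rw [this]
      exact Complex.re_mul_ofReal _ _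
    have e2 : ((V : ℂ) ^ 2 * (v : ℂ) ^ 2 / 2) = ((V ^ 2 * v ^ 2 / 2 : ℝ) : ℂ) := by push_cast; ring
    have e3 : ((c : ℂ) * I * v).re = 0 := by simp
    have e4 : ((v : ℂ) / 2) = ((v / 2 : ℝ) : ℂ) := by push_cast; ring
    rw [Complex.sub_re, Complex.add_re, Complex.sub_re, e1, e2, e3, e4, Complex.ofReal_re, Complex.ofReal_re]
    ring
  have hGi : Integrable (fun v : ℝ => Real.exp (9 / 100) * Real.exp (-(V ^ 2 / 4) * v ^ 2)) :=
    (integrable_exp_neg_mul_sq (by positivity)).const_mul _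
  have hKi : Integrable Kf := by
    refine Integrable.mono' hGi ?_ (ae_of_all _ fun v => ?_)
    · rw [hK]
      exact (by fun_prop : Continuous _).aestronglyMeasurable
    · rw [hKn, ← Real.exp_add]
      apply Real.exp_le_exp.2
      have h1 := X_4_amgm V v hV
      have h2 := mul_nonneg hz (Real.exp_pos v).le
      have h3 := le_abs_self v
      have h4 := abs_nonneg v
      linarith
  have hLi : Integrable Lf := by
    refine Integrable.mono' hGi ?_ (ae_of_all _ fun v => ?_)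
    · rw [hL]
      exact (by fun_prop : Continuous _).aestronglyMeasurable
    · rw [hLn, ← Real.exp_add]
      apply Real.exp_le_exp.2
      have h1 := X_4_amgm V v hV
      have h2 := hz2 v
      have h3 := le_abs_self v
      have h4 := abs_nonneg v
      linarith
  have hpt : ∀ v : ℝ, ‖Kf v - Lf v‖ ≤ (‖z‖ * (Real.exp (9 / 100) * (8 / V ^ 2 * Real.exp (-1)))) *
      Real.exp (-(V ^ 2 / 8) * v ^ 2) := by
    intro v
    obtain ⟨hd0, hd1⟩ := X_4_delta v
    have e1 : Kf v - Lf v = Lf v * (cexp (-(z * ((Real.exp v - 1 - v : ℝ) : ℂ))) - 1) := by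
      rw [mul_sub, mul_one]
      congr 1
      rw [hK, hL]
      simp only []
      rw [← Complex.exp_add]
      congr 1
      push_cast
      ring
    have h1 : ‖cexp (-(z * ((Real.exp v - 1 - v : ℝ) : ℂ))) - 1‖ ≤ ‖z‖ * (v ^ 2 * Real.exp |v|) := by
      refine (X_4_exp _ ?_).trans ?_
      · rw [Complex.re_mul_ofReal]
        exact mul_nonneg hz hd0
      · rw [norm_mul, Complex.norm_real, Real.norm_eq_abs, abs_of_nonneg hd0]
        exact mul_le_mul_of_nonneg_left hd1 (norm_nonneg _)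
    rw [e1, norm_mul, hLn]
    have h2 : Real.exp (v / 2 - z.re * (1 + v) - V ^ 2 * v ^ 2 / 2) * Real.exp |v| ≤
        Real.exp (9 / 100) * Real.exp (-(V ^ 2 / 4) * v ^ 2) := by
      rw [← Real.exp_add, ← Real.exp_add]
      apply Real.exp_le_exp.2
      have h1 := X_4_amgm V v hV
      have h2 := hz2 v
      have h3 := le_abs_self v
      have h4 := abs_nonneg v
      linarith
    have h3 := X_4_w (V ^ 2 / 8 * v ^ 2)
    have h4 : v ^ 2 * Real.exp (-(V ^ 2 / 4) * v ^ 2) ≤ 8 / V ^ 2 * Real.exp (-1) * Real.exp (-(V ^ 2 / 8) * v ^ 2) := by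
      have e2 : Real.exp (-(V ^ 2 / 4) * v ^ 2) = Real.exp (-(V ^ 2 / 8 * v ^ 2)) * Real.exp (-(V ^ 2 / 8) * v ^ 2) := by
        rw [← Real.exp_add]
        congr 1
        ring
      have e3 : v ^ 2 = 8 / V ^ 2 * (V ^ 2 / 8 * v ^ 2) := by
        field_simp
      calc v ^ 2 * Real.exp (-(V ^ 2 / 4) * v ^ 2)
          = 8 / V ^ 2 * ((V ^ 2 / 8 * v ^ 2) * Real.exp (-(V ^ 2 / 8 * v ^ 2))) * Real.exp (-(V ^ 2 / 8) * v ^ 2) := by
            rw [e2]
            nth_rewrite 1 [e3]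
            ring
        _ ≤ 8 / V ^ 2 * Real.exp (-1) * Real.exp (-(V ^ 2 / 8) * v ^ 2) := by
            apply mul_le_mul_of_nonneg_right _ (Real.exp_pos _).le
            exact mul_le_mul_of_nonneg_left h3 (by positivity)
    calc Real.exp (v / 2 - z.re * (1 + v) - V ^ 2 * v ^ 2 / 2) * ‖cexp (-(z * ((Real.exp v - 1 - v : ℝ) : ℂ))) - 1‖
        ≤ Real.exp (v / 2 - z.re * (1 + v) - V ^ 2 * v ^ 2 / 2) * (‖z‖ * (v ^ 2 * Real.exp |v|)) :=
          mul_le_mul_of_nonneg_left h1 (Real.exp_pos _).le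
      _ = ‖z‖ * (v ^ 2 * (Real.exp (v / 2 - z.re * (1 + v) - V ^ 2 * v ^ 2 / 2) * Real.exp |v|)) := by ring
      _ ≤ ‖z‖ * (v ^ 2 * (Real.exp (9 / 100) * Real.exp (-(V ^ 2 / 4) * v ^ 2))) := by
          apply mul_le_mul_of_nonneg_left _ (norm_nonneg _)
          exact mul_le_mul_of_nonneg_left h2 (sq_nonneg _)
      _ = ‖z‖ * (Real.exp (9 / 100) * (v ^ 2 * Real.exp (-(V ^ 2 / 4) * v ^ 2))) := by ring
      _ ≤ ‖z‖ * (Real.exp (9 / 100) * (8 / V ^ 2 * Real.exp (-1) * Real.exp (-(V ^ 2 / 8) * v ^ 2))) := by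
          apply mul_le_mul_of_nonneg_left _ (norm_nonneg _)
          exact mul_le_mul_of_nonneg_left h4 (Real.exp_pos _).le
      _ = _ := by ring
  have hint : Integrable (fun v : ℝ => (‖z‖ * (Real.exp (9 / 100) * (8 / V ^ 2 * Real.exp (-1)))) *
      Real.exp (-(V ^ 2 / 8) * v ^ 2)) := (integrable_exp_neg_mul_sq (by positivity)).const_mul _
  have hfin : ‖KK V c z - KL V c z‖ ≤ (‖z‖ * (Real.exp (9 / 100) * (8 / V ^ 2 * Real.exp (-1)))) *
      √(Real.pi / (V ^ 2 / 8)) := by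
    have e : KK V c z - KL V c z = ∫ v, (Kf v - Lf v) := by
      rw [integral_sub hKi hLi]
      rfl
    rw [e, ← integral_gaussian, ← integral_const_mul]
    exact norm_integral_le_of_norm_le hint (ae_of_all _ hpt)
  refine hfin.trans ?_
  have h1 : Real.exp (9 / 100) ≤ 11 / 10 := by
    have h2 := Real.one_sub_le_exp_neg (9 / 100)
    rw [Real.exp_neg] at h2
    have h3 := Real.exp_pos (9 / 100)
    have h4 : (1 - 9 / 100) * Real.exp (9 / 100) ≤ 1 := by
      calc (1 - 9 / 100) * Real.exp (9 / 100) ≤ (Real.exp (9 / 100))⁻¹ * Real.exp (9 / 100) :=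
            mul_le_mul_of_nonneg_right h2 h3.le
        _ = 1 := inv_mul_cancel₀ h3.ne'
    linarith
  have h2 : Real.exp (-1) ≤ 0.37 := Real.exp_neg_one_lt_d9.le.trans (by norm_num)
  have h3 : √(Real.pi / (V ^ 2 / 8)) ≤ 5.1 / V := by
    apply Real.sqrt_le_iff.2
    refine ⟨by positivity, ?_⟩
    have hp := Real.pi_lt_d2
    rw [div_pow, div_div_eq_mul_div]
    apply div_le_div_of_nonneg_right _ (by positivity)
    nlinarith
  have hz0 := norm_nonneg z
  calc (‖z‖ * (Real.exp (9 / 100) * (8 / V ^ 2 * Real.exp (-1)))) * √(Real.pi / (V ^ 2 / 8))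
      ≤ (‖z‖ * (11 / 10 * (8 / V ^ 2 * 0.37))) * (5.1 / V) := by gcongr
    _ = ‖z‖ / V ^ 3 * (11 / 10 * 8 * 0.37 * 5.1) := by
        field_simp
    _ ≤ ‖z‖ / V ^ 3 * 20 := by
        apply mul_le_mul_of_nonneg_left (by norm_num) (by positivity)
    _ = _ := by ring

end Pool.Agent.LibSM47.XL
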