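import Pool.Agent.LibSM47.X_Defs


set_option autoImplicit false

namespace Pool.Agent.LibSM47.XL

open MeasureTheory Set Filter Topology Complex ProbabilityTheory
open scoped NNReal ComplexConjugate
open Pool.Agent.LibZM

/-- Only Mathlib. `KL V c z = e^{-z} (√(2π)/V) exp((1/2 - z + ic)²/(2V²))` (`integral_cexp_quadratic` /
`GaussianFourier.integral_cexp_neg_mul_sq_add_const` / `fourierIntegral_gaussian`), `|e^{-z}| ≤ 1`, `√(2π) < 2.51`,
`(1/2 - Re z)² ≤ 1/4`, `2.51 e^{1/8} < 3`. -/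
theorem KL_norm (V c : ℝ) (z : ℂ) (hV : 1 ≤ V) (hz : 0 ≤ z.re) (hz1 : z.re ≤ 1) :
    ‖KL V c z‖ ≤ 3 * Real.exp (-((c - z.im) ^ 2 / (2 * V ^ 2))) := by
  have hV0 : 0 < V := by linarith
  have hVC : (V : ℂ) ≠ 0 := by exact_mod_cast hV0.ne'
  have h1 : KL V c z = (Real.pi / -(-((V : ℂ) ^ 2 / 2))) ^ (1 / 2 : ℂ) *
      cexp (-z - (1 / 2 - z + c * I) ^ 2 / (4 * (-((V : ℂ) ^ 2 / 2)))) := by
    rw [← integral_cexp_quadratic (b := -((V : ℂ) ^ 2 / 2)) (by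
      have : (-((V : ℂ) ^ 2 / 2)).re = -(V ^ 2 / 2) := by
        have h2 : (-((V : ℂ) ^ 2 / 2)) = ((-(V ^ 2 / 2) : ℝ) : ℂ) := by push_cast; ring
        rw [h2, ofReal_re]
      rw [this]
      have : 0 < V ^ 2 := by positivity
      linarith) (1 / 2 - z + c * I) (-z)]
    unfold KL
    congr 1
    funext v
    congr 1
    ring
  have h2 : (Real.pi / -(-((V : ℂ) ^ 2 / 2)) : ℂ) = ((2 * Real.pi / V ^ 2 : ℝ) : ℂ) := by
    push_cast
    field_simp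
  have h3 : -z - (1 / 2 - z + c * I) ^ 2 / (4 * (-((V : ℂ) ^ 2 / 2))) =
      -z + (1 / 2 - z + c * I) ^ 2 * ((1 / (2 * V ^ 2) : ℝ) : ℂ) := by
    push_cast
    field_simp
    ring
  rw [h1, h2, h3, norm_mul, norm_cpow_eq_rpow_re_of_pos (by positivity), norm_exp]
  have h4 : (1 / 2 : ℂ).re = 1 / 2 := by norm_num
  have h5 : (-z + (1 / 2 - z + c * I) ^ 2 * ((1 / (2 * V ^ 2) : ℝ) : ℂ)).re =
      -z.re + ((1 / 2 - z.re) ^ 2 - (c - z.im) ^ 2) * (1 / (2 * V ^ 2)) := by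
    have h6 : ((1 / 2 - z + c * I) ^ 2).re = (1 / 2 - z.re) ^ 2 - (c - z.im) ^ 2 := by
      rw [sq, mul_re]
      have a1 : (1 / 2 - z + c * I).re = 1 / 2 - z.re := by simp
      have a2 : (1 / 2 - z + c * I).im = c - z.im := by
        simp
        ring
      rw [a1, a2]
      ring
    rw [add_re, neg_re, re_mul_ofReal, h6]
  rw [h4, h5]
  have hV2 : 1 ≤ V ^ 2 := by nlinarith
  have h7 : (2 * Real.pi / V ^ 2) ^ (1 / 2 : ℝ) ≤ 252 / 100 := by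
    have hp : Real.pi < 3.15 := Real.pi_lt_d2
    have b1 : 2 * Real.pi / V ^ 2 ≤ (252 / 100) ^ 2 := by
      rw [div_le_iff₀ (by linarith)]
      nlinarith
    calc (2 * Real.pi / V ^ 2) ^ (1 / 2 : ℝ) ≤ (((252 / 100) ^ 2 : ℝ)) ^ (1 / 2 : ℝ) :=
          Real.rpow_le_rpow (by positivity) b1 (by norm_num)
      _ = 252 / 100 := by
        rw [← Real.sqrt_eq_rpow, Real.sqrt_sq (by norm_num)]
  have h8 : -z.re + ((1 / 2 - z.re) ^ 2 - (c - z.im) ^ 2) * (1 / (2 * V ^ 2)) ≤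
      1 / 8 + -((c - z.im) ^ 2 / (2 * V ^ 2)) := by
    have c1 : (1 / 2 - z.re) ^ 2 * (1 / (2 * V ^ 2)) ≤ 1 / 8 := by
      have c2 : (1 / 2 - z.re) ^ 2 ≤ 1 / 4 := by nlinarith
      have c3 : 1 / (2 * V ^ 2) ≤ 1 / 2 := one_div_le_one_div_of_le (by norm_num) (by linarith)
      calc (1 / 2 - z.re) ^ 2 * (1 / (2 * V ^ 2)) ≤ 1 / 4 * (1 / 2) :=
            mul_le_mul c2 c3 (by positivity) (by norm_num)
        _ = 1 / 8 := by norm_num
    have c4 : (c - z.im) ^ 2 * (1 / (2 * V ^ 2)) = (c - z.im) ^ 2 / (2 * V ^ 2) := by ring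
    rw [sub_mul, c4]
    linarith
  have h9 : Real.exp (1 / 8) ≤ 8 / 7 := by
    have e1 := Real.add_one_le_exp (-(1 / 8) : ℝ)
    have e2 : Real.exp (1 / 8) * Real.exp (-(1 / 8)) = 1 := by
      rw [← Real.exp_add]
      norm_num
    have e3 := Real.exp_pos (1 / 8)
    nlinarith
  calc (2 * Real.pi / V ^ 2) ^ (1 / 2 : ℝ) *
        Real.exp (-z.re + ((1 / 2 - z.re) ^ 2 - (c - z.im) ^ 2) * (1 / (2 * V ^ 2)))
      ≤ 252 / 100 * Real.exp (1 / 8 + -((c - z.im) ^ 2 / (2 * V ^ 2))) :=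
        mul_le_mul h7 (Real.exp_le_exp.2 h8) (Real.exp_pos _).le (by norm_num)
    _ = 252 / 100 * Real.exp (1 / 8) * Real.exp (-((c - z.im) ^ 2 / (2 * V ^ 2))) := by
        rw [Real.exp_add]
        ring
    _ ≤ 3 * Real.exp (-((c - z.im) ^ 2 / (2 * V ^ 2))) :=
        mul_le_mul_of_nonneg_right (by linarith) (Real.exp_pos _).le

end Pool.Agent.LibSM47.XL
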