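import Pool.Agent.LibSM47.X_Defs
import Pool.Agent.LibSM47.X_3
import Pool.Agent.LibSM47.X_4
import Pool.Agent.LibSM47.X_5

set_option autoImplicit false

namespace Pool.Agent.LibSM47.XL

open MeasureTheory Set Filter Topology Complex ProbabilityTheory
open scoped NNReal ComplexConjugate
open Pool.Agent.LibZM

private theorem X_6_ev (b δ : ℝ) (hb : 0 < b) (hδ : 0 < δ) :
    ∀ᶠ T : ℝ in atTop, 60 * (T ^ (2 : ℝ) * Real.exp (-b * T ^ (2 * δ))) ≤ 1 := by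
  have h1 := (tendsto_rpow_mul_exp_neg_mul_atTop_nhds_zero (1 / δ) b hb).comp
    (tendsto_rpow_atTop (show 0 < 2 * δ by positivity))
  have h2 := h1.const_mul 60
  rw [mul_zero] at h2
  filter_upwards [h2.eventually (gt_mem_nhds one_pos), eventually_gt_atTop 0] with T h3 h4
  have h5 : (T ^ (2 * δ)) ^ (1 / δ) = T ^ (2 : ℝ) := by
    rw [← Real.rpow_mul h4.le]
    congr 1
    field_simp
  simp only [Function.comp] at h3
  rw [h5] at h3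
  exact h3.le

private theorem X_6_zz (ρ β : ℝ) (hρ : 0 < ρ) (hβ : 0 < β) (hβ1 : β ≤ 1) :
    ‖zz ρ β‖ = 2 * Real.pi * ρ ∧ 0 ≤ (zz ρ β).re ∧ (zz ρ β).re ≤ 2 * Real.pi * ρ * β ∧
      0 ≤ (zz ρ β).im ∧ (zz ρ β).im ≤ 2 * Real.pi * ρ := by
  have hpi := Real.pi_pos
  have hpi3 := Real.pi_gt_three
  have h0 : 0 < 2 * Real.pi * ρ := by positivity
  have hre : (zz ρ β).re = 2 * Real.pi * ρ * Real.sin β := by
    unfold zz
    rw [Complex.re_ofReal_mul, Complex.add_re, Complex.ofReal_re, Complex.re_ofReal_mul,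
      Complex.I_re, mul_zero, add_zero]
  have him : (zz ρ β).im = 2 * Real.pi * ρ * Real.cos β := by
    unfold zz
    rw [Complex.im_ofReal_mul, Complex.add_im, Complex.ofReal_im, Complex.im_ofReal_mul,
      Complex.I_im, mul_one, zero_add]
  have hs : 0 ≤ Real.sin β := Real.sin_nonneg_of_nonneg_of_le_pi hβ.le (by linarith)
  have hc : 0 ≤ Real.cos β := Real.cos_nonneg_of_neg_pi_div_two_le_of_le (by linarith) (by linarith)
  refine ⟨?_, ?_, ?_, ?_, ?_⟩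
  · unfold zz
    rw [norm_mul, Complex.norm_real, Real.norm_eq_abs, abs_of_pos h0, Complex.norm_add_mul_I,
      Real.sin_sq_add_cos_sq, Real.sqrt_one, mul_one]
  · rw [hre]
    positivity
  · rw [hre]
    exact mul_le_mul_of_nonneg_left (Real.sin_le hβ.le) h0.le
  · rw [him]
    positivity
  · rw [him]
    exact mul_le_of_le_one_right h0.le (Real.cos_le_one β)

private theorem X_6_exp (T V u : ℝ) (hT : 1 ≤ T) (hV : 0 < V) (hVT : V ≤ T) (hu : |u| ≤ T) :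
    ‖cexp (-(((1 / T : ℝ) : ℂ) * I / 2) + u * ((1 / T : ℝ) : ℂ) +
      (V : ℂ) ^ 2 * ((1 / T : ℝ) : ℂ) ^ 2 / 2)‖ ≤ 5 := by
  have hT0 : 0 < T := by linarith
  have h1 : (-(((1 / T : ℝ) : ℂ) * I / 2) + u * ((1 / T : ℝ) : ℂ) +
      (V : ℂ) ^ 2 * ((1 / T : ℝ) : ℂ) ^ 2 / 2) =
      ((u * (1 / T) + V ^ 2 * (1 / T) ^ 2 / 2 : ℝ) : ℂ) + ((-(1 / T) / 2 : ℝ) : ℂ) * I := by
    push_cast
    ring
  rw [h1, Complex.norm_exp, Complex.add_re, Complex.ofReal_re, Complex.re_ofReal_mul, Complex.I_re,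
    mul_zero, add_zero]
  have h2 : u * (1 / T) ≤ 1 := by
    rw [mul_one_div, div_le_one hT0]
    exact (le_abs_self u).trans hu
  have h3 : V ^ 2 * (1 / T) ^ 2 ≤ 1 := by
    rw [← mul_pow, mul_one_div]
    exact pow_le_one₀ (by positivity) ((div_le_one hT0).2 hVT)
  have h4 : Real.exp (u * (1 / T) + V ^ 2 * (1 / T) ^ 2 / 2) ≤ Real.exp (3 / 2) :=
    Real.exp_le_exp.2 (by linarith)
  refine h4.trans ?_
  have h5 : Real.exp (3 / 2) ^ 2 ≤ 25 := by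
    rw [← Real.exp_nat_mul]
    have h6 : ((2 : ℕ) : ℝ) * (3 / 2) = ((3 : ℕ) : ℝ) * 1 := by norm_num
    rw [h6, Real.exp_nat_mul]
    have h7 := Real.exp_one_lt_d9
    calc Real.exp 1 ^ 3 ≤ (2.7182818286 : ℝ) ^ 3 :=
          pow_le_pow_left₀ (Real.exp_pos _).le h7.le 3
      _ ≤ 25 := by norm_num
  exact abs_le_of_sq_le_sq' (by linarith) (by norm_num) |>.2

/-- `β = 1/T`, `V = T^{1-δ}`, `z = zz ρ (1/T)`: `|z| = 2πρ`, `0 < Re z = 2πρ sin(1/T) ≤ 2πρ/T ≤ 1`, `0 ≤ Im z ≤ 2πρ ≤ ε₁T/4` for large `T`,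
`c = u + V²/T = u + T^{1-2δ}`, so `|c - Im z| ≥ ε₁T/2` for both signs of `u` (large `T`); `|exp(..)| ≤ e^{3/2} ≤ 5` (`|u|β ≤ 1`, `V²β² ≤ 1`).
Total `√ρ · 5 · (40πρ T^{-3+3δ} + 3 exp(-ε₁² T^{2δ}/8))` with `ρ^{3/2} ≤ T^{3/2-3ε}`, `3δ ≤ 3ε/10`. -/
theorem AA_small (ε ε₁ δ : ℝ) (hε : 0 < ε) (hε1 : 0 < ε₁) (hδ : 0 < δ) (hδε : δ ≤ ε / 10) (hε2 : ε ≤ 1 / 10) :
    ∃ T₀ : ℝ, ∀ T : ℝ, T₀ ≤ T → ∀ u : ℝ, ε₁ * T ≤ |u| → |u| ≤ T → ∀ ρ : ℝ, 0 < ρ → ρ ≤ T ^ (1 - 2 * ε) →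
      √ρ * ‖∫ t, AA ρ t ∂(gam (T ^ (1 - δ)) u)‖ ≤ T ^ (-(3 / 2) : ℝ) / 2 := by
  have hpi := Real.pi_pos
  have hev : ∀ᶠ T : ℝ in atTop, 1 ≤ T ∧ 2 * Real.pi * T ^ (-(2 * ε)) ≤ 1 ∧
      2 * Real.pi * T ^ (-(2 * ε)) ≤ ε₁ / 4 ∧ T ^ (-(2 * δ)) ≤ ε₁ / 4 ∧ 10 ≤ T ^ (1 - δ) ∧
      800 * Real.pi * T ^ (-(27 / 10 * ε)) ≤ 1 ∧
      60 * (T ^ (2 : ℝ) * Real.exp (-(ε₁ ^ 2 / 8) * T ^ (2 * δ))) ≤ 1 := by
    have t1 : Tendsto (fun T : ℝ => 2 * Real.pi * T ^ (-(2 * ε))) atTop (𝓝 0) := by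
      have h := (tendsto_rpow_neg_atTop (show 0 < 2 * ε by positivity)).const_mul (2 * Real.pi)
      rwa [mul_zero] at h
    have t2 : Tendsto (fun T : ℝ => T ^ (-(2 * δ))) atTop (𝓝 0) :=
      tendsto_rpow_neg_atTop (by positivity)
    have t3 : Tendsto (fun T : ℝ => 800 * Real.pi * T ^ (-(27 / 10 * ε))) atTop (𝓝 0) := by
      have h := (tendsto_rpow_neg_atTop (show 0 < 27 / 10 * ε by positivity)).const_mul
        (800 * Real.pi)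
      rwa [mul_zero] at h
    have t4 : Tendsto (fun T : ℝ => T ^ (1 - δ)) atTop atTop :=
      tendsto_rpow_atTop (by linarith)
    filter_upwards [eventually_ge_atTop 1, t1.eventually (gt_mem_nhds one_pos),
      t1.eventually (gt_mem_nhds (show 0 < ε₁ / 4 by positivity)),
      t2.eventually (gt_mem_nhds (show 0 < ε₁ / 4 by positivity)),
      t4.eventually (eventually_ge_atTop 10), t3.eventually (gt_mem_nhds one_pos),
      X_6_ev (ε₁ ^ 2 / 8) δ (by positivity) hδ] with T h1 h2 h3 h4 h5 h6 h7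
    exact ⟨h1, h2.le, h3.le, h4.le, h5, h6.le, h7⟩
  obtain ⟨T₀, hT₀⟩ := eventually_atTop.1 hev
  refine ⟨T₀, fun T hTT u hu1 hu2 ρ hρ hρT => ?_⟩
  obtain ⟨hT1, hA, hB, hC, hD, hE, hF⟩ := hT₀ T hTT
  have hT0 : 0 < T := by linarith
  set V : ℝ := T ^ (1 - δ) with hVd
  have hV0 : 0 < V := Real.rpow_pos_of_pos hT0 _
  have hVT : V ≤ T := by
    rw [hVd]
    calc T ^ (1 - δ) ≤ T ^ (1 : ℝ) := Real.rpow_le_rpow_of_exponent_le hT1 (by linarith)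
      _ = T := Real.rpow_one T
  have hβ0 : 0 < 1 / T := by positivity
  have hβ1 : 1 / T ≤ 1 := (div_le_one hT0).2 hT1
  obtain ⟨z1, z2, z3, z4, z5⟩ := X_6_zz ρ (1 / T) hρ hβ0 hβ1
  have hV2 : V ^ 2 * (1 / T) = T ^ (1 - 2 * δ) := by
    rw [hVd, ← Real.rpow_natCast, ← Real.rpow_mul hT0.le, one_div, ← Real.rpow_neg_one T,
      ← Real.rpow_add hT0]
    congr 1
    push_cast
    ring
  have hρ2 : 2 * Real.pi * ρ ≤ 2 * Real.pi * T ^ (-(2 * ε)) * T := by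
    have h1 : T ^ (-(2 * ε)) * T = T ^ (1 - 2 * ε) := by
      nth_rw 2 [← Real.rpow_one T]
      rw [← Real.rpow_add hT0]
      congr 1
      ring
    calc 2 * Real.pi * ρ ≤ 2 * Real.pi * T ^ (1 - 2 * ε) := by gcongr
      _ = 2 * Real.pi * (T ^ (-(2 * ε)) * T) := by rw [h1]
      _ = _ := by ring
  have hz1 : (zz ρ (1 / T)).re ≤ 1 := by
    refine z3.trans ?_
    calc 2 * Real.pi * ρ * (1 / T) ≤ 2 * Real.pi * T ^ (-(2 * ε)) * T * (1 / T) := by gcongr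
      _ = 2 * Real.pi * T ^ (-(2 * ε)) := by field_simp
      _ ≤ 1 := hA
  have hz2 : (zz ρ (1 / T)).im ≤ ε₁ / 4 * T := by
    refine z5.trans (hρ2.trans ?_)
    exact mul_le_mul_of_nonneg_right hB hT0.le
  have hδT : T ^ (1 - 2 * δ) ≤ ε₁ / 4 * T := by
    have h1 : T ^ (1 - 2 * δ) = T ^ (-(2 * δ)) * T := by
      nth_rw 3 [← Real.rpow_one T]
      rw [← Real.rpow_add hT0]
      congr 1
      ring
    rw [h1]
    exact mul_le_mul_of_nonneg_right hC hT0.le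
  have hδ0 : 0 < T ^ (1 - 2 * δ) := Real.rpow_pos_of_pos hT0 _
  set c : ℝ := u + V ^ 2 * (1 / T) with hc
  have hcz : ε₁ * T / 2 ≤ |c - (zz ρ (1 / T)).im| := by
    have h1 : |u| ≤ |c - (zz ρ (1 / T)).im| + |T ^ (1 - 2 * δ)| + |(zz ρ (1 / T)).im| := by
      have h2 : u = (c - (zz ρ (1 / T)).im) + (-(T ^ (1 - 2 * δ))) + (zz ρ (1 / T)).im := by
        rw [hc, hV2]
        ring
      calc |u| = |(c - (zz ρ (1 / T)).im) + (-(T ^ (1 - 2 * δ))) + (zz ρ (1 / T)).im| := by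
            rw [← h2]
        _ ≤ |(c - (zz ρ (1 / T)).im)| + |-(T ^ (1 - 2 * δ))| + |(zz ρ (1 / T)).im| :=
            abs_add_three _ _ _
        _ = _ := by rw [abs_neg]
    rw [abs_of_pos hδ0, abs_of_nonneg z4] at h1
    linarith
  have hsq : ε₁ ^ 2 / 8 * T ^ (2 * δ) ≤ (c - (zz ρ (1 / T)).im) ^ 2 / (2 * V ^ 2) := by
    have h1 : (ε₁ * T / 2) ^ 2 ≤ (c - (zz ρ (1 / T)).im) ^ 2 := by
      rw [← sq_abs (c - (zz ρ (1 / T)).im)]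
      exact pow_le_pow_left₀ (by positivity) hcz 2
    rw [le_div_iff₀ (by positivity)]
    have h2 : T ^ (2 * δ) * V ^ 2 = T ^ 2 := by
      rw [hVd, ← Real.rpow_natCast (T ^ (1 - δ)), ← Real.rpow_mul hT0.le, ← Real.rpow_add hT0,
        ← Real.rpow_natCast T]
      congr 1
      push_cast
      ring
    calc ε₁ ^ 2 / 8 * T ^ (2 * δ) * (2 * V ^ 2) = ε₁ ^ 2 / 4 * (T ^ (2 * δ) * V ^ 2) := by ring
      _ = (ε₁ * T / 2) ^ 2 := by rw [h2]; ring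
      _ ≤ _ := h1
  -- the bound of the integral
  have hK : ‖KK V c (zz ρ (1 / T))‖ ≤ 20 * (2 * Real.pi * ρ) / V ^ 3 +
      3 * Real.exp (-(ε₁ ^ 2 / 8) * T ^ (2 * δ)) := by
    have h1 := KK_diff V c (zz ρ (1 / T)) hD z2 hz1
    have h2 := KL_norm V c (zz ρ (1 / T)) (by linarith) z2 hz1
    rw [z1] at h1
    have h3 : Real.exp (-((c - (zz ρ (1 / T)).im) ^ 2 / (2 * V ^ 2))) ≤
        Real.exp (-(ε₁ ^ 2 / 8) * T ^ (2 * δ)) := by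
      apply Real.exp_le_exp.2
      linarith
    have h4 : ‖KK V c (zz ρ (1 / T))‖ ≤ ‖KK V c (zz ρ (1 / T)) - KL V c (zz ρ (1 / T))‖ +
        ‖KL V c (zz ρ (1 / T))‖ := by
      have h5 := norm_add_le (KK V c (zz ρ (1 / T)) - KL V c (zz ρ (1 / T)))
        (KL V c (zz ρ (1 / T)))
      rwa [sub_add_cancel] at h5
    linarith
  have hI : ‖∫ t, AA ρ t ∂(gam V u)‖ ≤ 5 * (20 * (2 * Real.pi * ρ) / V ^ 3 +
      3 * Real.exp (-(ε₁ ^ 2 / 8) * T ^ (2 * δ))) := by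
    rw [(AA_int ρ (1 / T) V u hρ hβ0 hβ1 hV0).2, norm_mul]
    exact mul_le_mul (X_6_exp T V u hT1 hV0 hVT hu2) hK (norm_nonneg _) (by norm_num)
  set S : ℝ := T ^ (-(3 / 2) : ℝ) with hS
  have hS0 : 0 < S := Real.rpow_pos_of_pos hT0 _
  have hsρ0 : 0 ≤ √ρ := Real.sqrt_nonneg ρ
  have f1 : √ρ * ρ ≤ T ^ (3 / 2 - 3 * ε) := by
    have h1 : √ρ * ρ = ρ ^ (3 / 2 : ℝ) := by
      rw [Real.sqrt_eq_rpow]
      nth_rw 2 [← Real.rpow_one ρ]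
      rw [← Real.rpow_add hρ]
      norm_num
    rw [h1]
    calc ρ ^ (3 / 2 : ℝ) ≤ (T ^ (1 - 2 * ε)) ^ (3 / 2 : ℝ) :=
          Real.rpow_le_rpow hρ.le hρT (by norm_num)
      _ = T ^ (3 / 2 - 3 * ε) := by
          rw [← Real.rpow_mul hT0.le]
          congr 1
          ring
  have f2 : √ρ * ρ / V ^ 3 ≤ S * T ^ (-(27 / 10 * ε)) := by
    rw [div_le_iff₀ (by positivity)]
    have h1 : S * T ^ (-(27 / 10 * ε)) * V ^ 3 = T ^ (3 / 2 - 27 / 10 * ε - 3 * δ) := by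
      rw [hS, hVd, ← Real.rpow_natCast (T ^ (1 - δ)), ← Real.rpow_mul hT0.le,
        ← Real.rpow_add hT0, ← Real.rpow_add hT0]
      congr 1
      push_cast
      ring
    rw [h1]
    refine f1.trans (Real.rpow_le_rpow_of_exponent_le hT1 ?_)
    linarith
  have f3 : √ρ ≤ T ^ (2 : ℝ) * S := by
    have h1 : T ^ (2 : ℝ) * S = T ^ (1 / 2 : ℝ) := by
      rw [hS, ← Real.rpow_add hT0]
      norm_num
    rw [h1, Real.sqrt_eq_rpow]
    refine Real.rpow_le_rpow hρ.le (hρT.trans ?_) (by norm_num)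
    calc T ^ (1 - 2 * ε) ≤ T ^ (1 : ℝ) := Real.rpow_le_rpow_of_exponent_le hT1 (by linarith)
      _ = T := Real.rpow_one T
  set w : ℝ := Real.exp (-(ε₁ ^ 2 / 8) * T ^ (2 * δ)) with hw
  have hw0 : 0 < w := Real.exp_pos _
  set q : ℝ := T ^ (-(27 / 10 * ε)) with hq
  calc √ρ * ‖∫ t, AA ρ t ∂(gam V u)‖
      ≤ √ρ * (5 * (20 * (2 * Real.pi * ρ) / V ^ 3 + 3 * w)) :=
        mul_le_mul_of_nonneg_left hI hsρ0
    _ = 200 * Real.pi * (√ρ * ρ / V ^ 3) + 15 * w * √ρ := by ring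
    _ ≤ 200 * Real.pi * (S * q) + 15 * w * (T ^ (2 : ℝ) * S) := by gcongr
    _ = (1 / 4) * S * (800 * Real.pi * q) + (1 / 4) * S * (60 * (T ^ (2 : ℝ) * w)) := by ring
    _ ≤ (1 / 4) * S * 1 + (1 / 4) * S * 1 := by gcongr
    _ = S / 2 := by ring

end Pool.Agent.LibSM47.XL
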