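import Pool.Agent.LibSM47.X_Defs
import Pool.Agent.LibSM47.X_1
import Pool.Agent.LibSM47.X_6

set_option autoImplicit false

namespace Pool.Agent.LibSM47.XL

open MeasureTheory Set Filter Topology Complex ProbabilityTheory
open scoped NNReal ComplexConjugate
open Pool.Agent.LibZM

/-- `∫ conj (A(-t)) dγ_u = conj ∫ A dγ_{-u}` (`gaussianReal_map_neg`, `integral_map`, `integral_conj`). -/
theorem AA_conj (ρ V u : ℝ) (hρ : 0 < ρ) (hV : 0 < V) :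
    Integrable (fun t => conj (AA ρ (-t))) (gam V u) ∧
    ∫ t, conj (AA ρ (-t)) ∂(gam V u) = conj (∫ t, AA ρ t ∂(gam V (-u))) := by
  have hint : Integrable (AA ρ) (gam V (-u)) := (AA_int ρ 1 V (-u) hρ one_pos le_rfl hV).1
  have hmap : (gam V u).map (fun x => -x) = gam V (-u) := by
    unfold gam
    exact gaussianReal_map_neg
  have hint' := hint
  rw [← hmap] at hint'
  have h1 : Integrable (AA ρ ∘ fun x => -x) (gam V u) :=
    (integrable_map_measure hint'.aestronglyMeasurable measurable_neg.aemeasurable).1 hint'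
  refine ⟨?_, ?_⟩
  · exact Complex.conjCLE.toContinuousLinearMap.integrable_comp h1
  · rw [integral_conj]
    congr 1
    rw [← hmap]
    exact (integral_map measurable_neg.aemeasurable hint'.aestronglyMeasurable).symm

/-- A3. Cross term: `XX_split`, `AA_int` (integrability), `AA_conj`, `AA_small` for `u` and `-u`. -/
theorem cross_small (ε ε₁ δ : ℝ) (hε : 0 < ε) (hε1 : 0 < ε₁) (hδ : 0 < δ) (hδε : δ ≤ ε / 10) (hε2 : ε ≤ 1 / 10) :
    ∃ T₀ : ℝ, ∀ T : ℝ, T₀ ≤ T → ∀ u : ℝ, ε₁ * T ≤ u → u ≤ T → ∀ ρ : ℝ, 0 < ρ → ρ ≤ T ^ (1 - 2 * ε) →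
      ‖∫ t, XX t * ch ρ (-t) ∂(gam (T ^ (1 - δ)) u)‖ ≤ T ^ (-(3 / 2) : ℝ) := by
  obtain ⟨T₀, hT₀⟩ := AA_small ε ε₁ δ hε hε1 hδ hδε hε2
  refine ⟨max T₀ 1, fun T hT u hu1 hu2 ρ hρ hρT => ?_⟩
  have hT1 : 1 ≤ T := (le_max_right _ _).trans hT
  have hT2 : T₀ ≤ T := (le_max_left _ _).trans hT
  have hT0 : 0 < T := by linarith
  have hu0 : 0 ≤ u := le_trans (by positivity) hu1
  have hV : 0 < T ^ (1 - δ) := Real.rpow_pos_of_pos hT0 _
  have h1 := hT₀ T hT2 u (by rwa [abs_of_nonneg hu0]) (by rwa [abs_of_nonneg hu0]) ρ hρ hρT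
  have h2 := hT₀ T hT2 (-u) (by rwa [abs_neg, abs_of_nonneg hu0])
    (by rwa [abs_neg, abs_of_nonneg hu0]) ρ hρ hρT
  have i1 : Integrable (fun t => AA ρ t) (gam (T ^ (1 - δ)) u) :=
    (AA_int ρ 1 (T ^ (1 - δ)) u hρ one_pos le_rfl hV).1
  obtain ⟨i2, e2⟩ := AA_conj ρ (T ^ (1 - δ)) u hρ hV
  have e3 : ∫ t, XX t * ch ρ (-t) ∂(gam (T ^ (1 - δ)) u) = ((√ρ : ℝ) : ℂ) *
      ((∫ t, AA ρ t ∂(gam (T ^ (1 - δ)) u)) + conj (∫ t, AA ρ t ∂(gam (T ^ (1 - δ)) (-u)))) := by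
    rw [← e2, ← integral_add i1 i2, ← integral_const_mul]
    exact integral_congr_ae (Eventually.of_forall fun t => XX_split ρ t hρ)
  rw [e3, norm_mul, Complex.norm_real, Real.norm_eq_abs, abs_of_nonneg (Real.sqrt_nonneg ρ)]
  have h3 : ‖(∫ t, AA ρ t ∂(gam (T ^ (1 - δ)) u)) + conj (∫ t, AA ρ t ∂(gam (T ^ (1 - δ)) (-u)))‖ ≤
      ‖∫ t, AA ρ t ∂(gam (T ^ (1 - δ)) u)‖ + ‖∫ t, AA ρ t ∂(gam (T ^ (1 - δ)) (-u))‖ := by
    refine (norm_add_le _ _).trans (le_of_eq ?_)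
    rw [RCLike.norm_conj]
  have h4 := mul_le_mul_of_nonneg_left h3 (Real.sqrt_nonneg ρ)
  rw [mul_add] at h4
  linarith

end Pool.Agent.LibSM47.XL
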