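import Pool.Agent.LibSM47.Defs
import Pool.Agent.LibPH.X02

/-! # Board SM47-X: the cross term (interface theorem `cross_small`)

Plan.  On `s = 1/2+it`: `X(t) ρ^{-it} = √ρ (A(t) + conj (A(-t)))`, `A(t) = Γ(s) exp(-s (log 2πρ + iπ/2))`.
For `0 < β ≤ 1` and `z = 2πρ (sin β + i cos β)`: `A(t) = e^{-iβ/2} e^{βt} ∫_0^∞ x^{s-1} e^{-zx} dx`.  Gaussian average in `t`
(complex mgf), `x = e^v`: `∫ A dγ = exp(-iβ/2 + uβ + V²β²/2) ∫ exp(v/2 - z e^v + i(u+V²β)v - V²v²/2) dv`.  Replace `e^v` by `1+v`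
(cost `≤ 20 |z| / V³`); the resulting Gaussian integral is `≤ 3 exp(-(c - Im z)²/(2V²))`.  With `β = 1/T`. -/

set_option autoImplicit false

namespace Pool.Agent.LibSM47.XL

open MeasureTheory Set Filter Topology Complex ProbabilityTheory
open scoped NNReal ComplexConjugate
open Pool.Agent.LibZM

/-- `A_ρ(t) = Γ(1/2+it) exp(-(1/2+it)(log(2πρ) + iπ/2))`. -/
noncomputable def AA (ρ t : ℝ) : ℂ :=
  Complex.Gamma (crit t) * cexp (-(crit t * ((Real.log (2 * Real.pi * ρ) : ℝ) + (Real.pi / 2 : ℝ) * I)))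

/-- `z = 2πρ (sin β + i cos β)`. -/
noncomputable def zz (ρ β : ℝ) : ℂ := ((2 * Real.pi * ρ : ℝ) : ℂ) * ((Real.sin β : ℝ) + (Real.cos β : ℝ) * I)

/-- `∫ exp(v/2 - z e^v + i c v - V²v²/2) dv`. -/
noncomputable def KK (V c : ℝ) (z : ℂ) : ℂ :=
  ∫ v : ℝ, cexp ((v : ℂ) / 2 - z * (Real.exp v : ℝ) + c * I * v - (V : ℂ) ^ 2 * (v : ℂ) ^ 2 / 2)

/-- `∫ exp(v/2 - z (1+v) + i c v - V²v²/2) dv`. -/
noncomputable def KL (V c : ℝ) (z : ℂ) : ℂ :=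
  ∫ v : ℝ, cexp ((v : ℂ) / 2 - z * (1 + v) + c * I * v - (V : ℂ) ^ 2 * (v : ℂ) ^ 2 / 2)

end Pool.Agent.LibSM47.XL
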